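import Pool.Agent.Q37.GU.Stm

/-!
# Project GU, job P3: units of a product (Rosenlicht)
-/

set_option autoImplicit false

open scoped TensorProduct

namespace Pool.Agent.Q91.GU_P3

open Pool.Agent.Q37.GU Pool.Agent.W481

noncomputable section

/-- points separate: in a finitely generated domain a nonzero element does not vanish at some point -/
theorem exists_hom (B : Type) [CommRing B] [IsDomain B] [Algebra ℂ B] [Algebra.FiniteType ℂ B]
    (b : B) (hb : b ≠ 0) : ∃ y : B →ₐ[ℂ] ℂ, y b ≠ 0 := by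
  have : IsJacobsonRing B := isJacobsonRing_of_finiteType (A := ℂ)
  have h0 : (⊥ : Ideal B).jacobson = ⊥ :=
    IsJacobsonRing.out inferInstance (Ideal.isPrime_bot : (⊥ : Ideal B).IsPrime).isRadical
  have h1 : b ∉ (⊥ : Ideal B).jacobson := by
    rw [h0]
    simpa using hb
  rw [Ideal.jacobson, Ideal.mem_sInf] at h1
  push Not at h1
  obtain ⟨m, ⟨_, hm⟩, hbm⟩ := h1
  have := hm
  let _ : Field (B ⧸ m) := Ideal.Quotient.field m
  have : Module.Finite ℂ (B ⧸ m) := finite_of_finite_type_of_isJacobsonRing ℂ (B ⧸ m)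
  have h2 : Function.Bijective (algebraMap ℂ (B ⧸ m)) :=
    IsAlgClosed.algebraMap_bijective_of_isIntegral
  let e : ℂ ≃ₐ[ℂ] (B ⧸ m) := AlgEquiv.ofBijective (Algebra.ofId ℂ (B ⧸ m)) h2
  refine ⟨(e.symm : (B ⧸ m) →ₐ[ℂ] ℂ).comp (Ideal.Quotient.mkₐ ℂ m), fun h => hbm ?_⟩
  have h3 : (Ideal.Quotient.mkₐ ℂ m) b = 0 := by
    have h4 : e.symm ((Ideal.Quotient.mkₐ ℂ m) b) = 0 := h
    exact (map_eq_zero_iff e.symm e.symm.injective).1 h4
  exact Ideal.Quotient.eq_zero_iff_mem.1 h3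

/-- the specialisation over `A` -/
def evA {A B : Type} [CommRing A] [Algebra ℂ A] [CommRing B] [Algebra ℂ B]
    (y : B →ₐ[ℂ] ℂ) : A ⊗[ℂ] B →ₐ[ℂ] A :=
  Algebra.TensorProduct.lift (AlgHom.id ℂ A) ((Algebra.ofId ℂ A).comp y)
    (fun _ _ => Commute.all _ _)

theorem evA_tmul {A B : Type} [CommRing A] [Algebra ℂ A] [CommRing B] [Algebra ℂ B]
    (y : B →ₐ[ℂ] ℂ) (a : A) (b : B) : evA y (a ⊗ₜ b) = (y b) • a := by
  unfold evA
  rw [Algebra.TensorProduct.lift_tmul, Algebra.smul_def, mul_comm]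
  rfl

/-- base change to the fraction field -/
def bc (A B K : Type) [CommRing A] [Algebra ℂ A] [CommRing B] [Algebra ℂ B] [Field K] [Algebra ℂ K]
    [Algebra A K] [IsScalarTower ℂ A K] : A ⊗[ℂ] B →ₐ[ℂ] K ⊗[ℂ] B :=
  Algebra.TensorProduct.map (IsScalarTower.toAlgHom ℂ A K) (AlgHom.id ℂ B)

theorem evK_bc {A B K : Type} [CommRing A] [Algebra ℂ A] [CommRing B] [Algebra ℂ B] [Field K]
    [Algebra ℂ K] [Algebra A K] [IsScalarTower ℂ A K] (y : B →ₐ[ℂ] ℂ) (u : A ⊗[ℂ] B) :
    evK y (bc A B K u) = algebraMap A K (evA y u) := by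
  have h : (evK y).comp (bc A B K) = (IsScalarTower.toAlgHom ℂ A K).comp (evA y) := by
    apply Algebra.TensorProduct.ext'
    intro a b
    rw [AlgHom.comp_apply, AlgHom.comp_apply, evA_tmul]
    unfold evK bc
    rw [Algebra.TensorProduct.map_tmul, Algebra.TensorProduct.lift_tmul, map_smul,
      Algebra.smul_def, mul_comm]
    rfl
  exact congrArg (fun f => f u) h

theorem coord {A B : Type} [CommRing A] [Algebra ℂ A] [CommRing B] [Algebra ℂ B] {ι : Type}
    [DecidableEq ι] (e : Module.Basis ι ℂ A) (y : B →ₐ[ℂ] ℂ) (u : A ⊗[ℂ] B) (i : ι) :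
    y (TensorProduct.equivFinsuppOfBasisLeft e u i) = e.repr (evA y u) i := by
  induction u using TensorProduct.induction_on with
  | zero => simp
  | tmul a b =>
    rw [TensorProduct.equivFinsuppOfBasisLeft_apply_tmul_apply, evA_tmul, map_smul, map_smul,
      Finsupp.smul_apply, smul_eq_mul, smul_eq_mul, mul_comm]
  | add u v hu hv =>
    rw [map_add, Finsupp.add_apply, map_add, hu, hv, map_add, map_add, Finsupp.add_apply]

theorem p3 (h1 : S_P1) (h2 : S_P2) : S_P3 := by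
  classical
  intro A B _ _ _ _ _ _ _ _ u hu
  obtain ⟨u', huu⟩ := hu.exists_right_inv
  obtain ⟨y', -⟩ := exists_hom B 1 one_ne_zero
  let K := FractionRing A
  set a : A := evA y' u with ha
  have ha0 : ∀ y : B →ₐ[ℂ] ℂ, algebraMap A K (evA y u) ≠ 0 := by
    intro y h0
    have h3 : evA y u * evA y u' = 1 := by rw [← map_mul, huu, map_one]
    have h4 : algebraMap A K (evA y u) * algebraMap A K (evA y u') = 1 := by
      rw [← map_mul, h3, map_one]
    rw [h0, zero_mul] at h4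
    exact zero_ne_one h4
  have huu' : bc A B K u * bc A B K u' = 1 := by rw [← map_mul, huu, map_one]
  -- the quotients are constant
  have hc : ∀ y : B →ₐ[ℂ] ℂ, ∃ c : ℂ, evA y u = c • a := by
    intro y
    obtain ⟨c, hc⟩ := h2 K (algebraMap A K (evA y u) / algebraMap A K a) (by
      intro V hV
      have h5 := h1 K B V hV (bc A B K u) (bc A B K u') huu' y' y
      rw [evK_bc, evK_bc] at h5
      rw [← ValuationSubring.valuation_le_one_iff, map_div₀, ← ha] at *
      rw [h5]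
      exact le_of_eq (div_self ((Valuation.ne_zero_iff _).2 (ha0 y))))
    refine ⟨c, ?_⟩
    apply FaithfulSMul.algebraMap_injective A K
    rw [div_eq_iff (ha0 y')] at hc
    rw [hc, Algebra.smul_def, map_mul, ← IsScalarTower.algebraMap_apply ℂ A K]
  let e := Module.Basis.ofVectorSpace ℂ A
  have hane : a ≠ 0 := fun h => ha0 y' (by rw [← ha, h, map_zero])
  have h6 : e.repr a ≠ 0 := fun h => hane (e.repr.map_eq_zero_iff.1 h)
  obtain ⟨i₀, hi₀⟩ := Finsupp.ne_iff.1 h6
  rw [Finsupp.zero_apply] at hi₀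
  let E := TensorProduct.equivFinsuppOfBasisLeft (N := B) e
  refine ⟨a, (e.repr a i₀)⁻¹ • E u i₀, ?_⟩
  apply E.injective
  ext i
  rw [TensorProduct.equivFinsuppOfBasisLeft_apply_tmul_apply]
  by_contra hne
  obtain ⟨y, hy⟩ := exists_hom B _ (sub_ne_zero.2 hne)
  apply hy
  obtain ⟨c, hc⟩ := hc y
  rw [map_sub, map_smul, map_smul, coord, coord, hc, map_smul, Finsupp.smul_apply,
    Finsupp.smul_apply, smul_eq_mul, smul_eq_mul, smul_eq_mul, smul_eq_mul]
  field_simp
  ring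

end

end Pool.Agent.Q91.GU_P3
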