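import Pool.Agent.Q37.GU.Basic
import Pool.Agent.Q37.GU.Stm

/-!
# Project GU, jobs P9 and T10

P9: base change of a finite étale algebra and the connected component of a point.
T10: the branches of a finite étale cover are branches of the base.
-/

set_option autoImplicit false

open CategoryTheory CategoryTheory.Limits AlgebraicGeometry Topology
open scoped TensorProduct

namespace Pool.Agent.Q91.GU_P9

open Pool.Agent.Q37.GU Pool.Agent.W481

/-- the localisation at an idempotent is a quotient -/
theorem away_surj {W : Type} [CommRing W] (e : W) (he : e * e = e) :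
    Function.Surjective (algebraMap W (Localization.Away e)) := by
  have hu : IsUnit (algebraMap W (Localization.Away e) e) :=
    IsLocalization.Away.algebraMap_isUnit e
  have h1 : algebraMap W (Localization.Away e) e = 1 := by
    have h2 : algebraMap W (Localization.Away e) e * algebraMap W (Localization.Away e) e =
        algebraMap W (Localization.Away e) e * 1 := by
      rw [← map_mul, he, mul_one]
    exact hu.mul_left_cancel h2
  intro z
  obtain ⟨⟨x, ⟨_, n, rfl⟩⟩, hx⟩ := IsLocalization.surj (Submonoid.powers e) z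
  refine ⟨x, ?_⟩
  have h3 : algebraMap W (Localization.Away e) (e ^ n) = 1 := by
    rw [map_pow, h1, one_pow]
  have h4 : z * algebraMap W (Localization.Away e) (e ^ n) =
      algebraMap W (Localization.Away e) x := hx
  rw [← h4, h3, mul_one]

/-- JOB P9 -/
theorem p9 (h5 : S_P5) : S_P9 := by
  intro R C S _ _ _ _ _ _ _ _ _ _ _ r ψ₀ φ hφ
  let _ : Algebra R S := r.toRingHom.toAlgebra
  have hRS : IsScalarTower ℂ R S := IsScalarTower.of_algebraMap_eq fun c => (r.commutes c).symm
  have hr : ∀ x, algebraMap R S x = r x := fun x => rfl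
  obtain ⟨e, he1, he2⟩ := exists_tensor_pt (A := R) φ ψ₀ (fun x => hφ x)
  have hE : Algebra.Etale S (S ⊗[R] C) := inferInstance
  have hF : Module.Finite S (S ⊗[R] C) := inferInstance
  have hSm : Algebra.Smooth ℂ (S ⊗[R] C) := Algebra.Smooth.comp ℂ S (S ⊗[R] C)
  obtain ⟨ε, hε, hε1, hdom⟩ := h5 (S ⊗[R] C) e
  have hε0 : e.hom ε ≠ 0 := by rw [hε1]; exact one_ne_zero
  have hsurj := away_surj ε hε
  have htow : IsScalarTower S (S ⊗[R] C) (Localization.Away ε) := inferInstance
  have hfin : Module.Finite S (Localization.Away ε) :=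
    Module.Finite.of_surjective
      (IsScalarTower.toAlgHom S (S ⊗[R] C) (Localization.Away ε)).toLinearMap hsurj
  let g : C →ₐ[ℂ] Localization.Away ε :=
    (IsScalarTower.toAlgHom ℂ (S ⊗[R] C) (Localization.Away ε)).comp
      ((Algebra.TensorProduct.includeRight : C →ₐ[R] S ⊗[R] C).restrictScalars ℂ)
  have hg : ∀ c, g c = algebraMap (S ⊗[R] C) (Localization.Away ε) (1 ⊗ₜ c) := fun c => rfl
  have hS : ∀ s, algebraMap S (Localization.Away ε) s =
      algebraMap (S ⊗[R] C) (Localization.Away ε) (s ⊗ₜ 1) := fun s =>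
    IsScalarTower.algebraMap_apply S (S ⊗[R] C) (Localization.Away ε) s
  refine ⟨Localization.Away ε, inferInstance, inferInstance, inferInstance, inferInstance, hdom,
    inferInstance, hfin, g, (extAway ε e hε0 : Localization.Away ε →ₐ[ℂ] ℂ), ?_, ?_, ?_, ?_⟩
  · intro x
    rw [hg, hS, ← hr]
    congr 1
    have h6 : (1 : S) ⊗ₜ[R] (algebraMap R C x) = algebraMap R S x ⊗ₜ[R] (1 : C) := by
      rw [Algebra.algebraMap_eq_smul_one x, Algebra.algebraMap_eq_smul_one x,
        TensorProduct.tmul_smul, TensorProduct.smul_tmul']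
    exact h6
  · intro s
    rw [hS]
    exact (extAway_algebraMap ε e hε0 _).trans (he1 s)
  · intro c
    rw [hg]
    exact (extAway_algebraMap ε e hε0 _).trans (he2 c)
  · intro τ₁ τ₂ h1 h2
    refine AlgHom.ext fun z => ?_
    obtain ⟨w, rfl⟩ := hsurj z
    show τ₁.hom _ = τ₂.hom _
    induction w using TensorProduct.induction_on with
    | zero => rw [map_zero, map_zero, map_zero]
    | add x y hx hy => rw [map_add, map_add, map_add, hx, hy]
    | tmul s c =>
      have h7 : s ⊗ₜ[R] c = (s ⊗ₜ[R] (1 : C)) * ((1 : S) ⊗ₜ[R] c) := by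
        rw [Algebra.TensorProduct.tmul_mul_tmul, mul_one, one_mul]
      rw [h7, map_mul, map_mul, map_mul, ← hS, ← hg, h1, h2]

/-- JOB T10 -/
theorem t10 : S_T10 := by
  intro μ X Y f hf hf' x g hg
  obtain ⟨Z, h, h1, h2, u, hu, z, hz, he⟩ := hg
  have hc : pushC (h ≫ f) = (pushC f).comp (pushC h) := (pushC_comp h f).symm
  refine ⟨Z, h ≫ f, ?_, ?_, u, hu, z, ?_, ?_⟩
  · rw [Over.comp_left]
    exact inferInstance
  · rw [Over.comp_left]
    exact inferInstance
  · rw [hc]
    exact congrArg (pushC f) hz
  · rw [← he]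
    refine (gp_congr hc _ (congrArg (pushC f) hz) g).trans ?_
    exact gp_comp (pushC h) (pushC f) hz rfl _ g

end Pool.Agent.Q91.GU_P9
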