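import Pool.Agent.Q61.ND.Stm

set_option autoImplicit false

open MeasureTheory Set Filter Topology Real

noncomputable section

namespace Pool.Agent.Q91.ND

open Pool.Agent.Q61.ND

theorem lio : S_lio := by
  intro H _ _ _ M K f C hK hf
  have hMc : IsClosed (M.topologicalClosure : Set H) := M.isClosed_topologicalClosure
  have : CompleteSpace M.topologicalClosure := hMc.completeSpace_coe
  obtain ⟨V, hV⟩ : ∃ V : Submodule ℝ H, V = M.topologicalClosure := ⟨_, rfl⟩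
  rw [← hV]
  have hMV : M ≤ V := by rw [hV]; exact M.le_topologicalClosure
  have : CompleteSpace V := by rw [hV]; exact hMc.completeSpace_coe
  let K' : M →ₗ[ℝ] V := (V.orthogonalProjectionOnto : H →L[ℝ] V).toLinearMap.comp K
  have hK' : ∀ φ : M, K' φ = V.orthogonalProjectionOnto (K φ) := fun φ => rfl
  have hin : ∀ (v : V) (x : H), inner ℝ v (V.orthogonalProjectionOnto x) = inner ℝ (v : H) x :=
    fun v x => Submodule.inner_orthogonalProjectionOnto_eq_of_mem_left v x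
  have hle : ∀ φ : M, ‖(φ : H)‖ ≤ ‖K' φ‖ := by
    intro φ
    have h1 := hK φ
    have h2 : inner ℝ (φ : H) (K φ) = inner ℝ (⟨φ, hMV φ.2⟩ : V) (K' φ) := by
      rw [hK', hin]
    have h3 : inner ℝ (⟨φ, hMV φ.2⟩ : V) (K' φ) ≤ ‖(⟨φ, hMV φ.2⟩ : V)‖ * ‖K' φ‖ :=
      real_inner_le_norm _ _
    have h4 : ‖(⟨φ, hMV φ.2⟩ : V)‖ = ‖(φ : H)‖ := rfl
    rw [h2] at h1
    rw [h4] at h3
    have h5 : ‖(φ : H)‖ * ‖(φ : H)‖ ≤ ‖(φ : H)‖ * ‖K' φ‖ := by nlinarith
    rcases eq_or_lt_of_le (norm_nonneg (φ : H)) with h | h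
    · rw [← h]
      exact norm_nonneg _
    · exact le_of_mul_le_mul_left h5 h
  have hinj : Function.Injective K' := by
    rw [injective_iff_map_eq_zero]
    intro φ h0
    have h1 := hle φ
    rw [h0, norm_zero] at h1
    have h2 : (φ : H) = 0 := norm_le_zero_iff.1 h1
    exact Subtype.ext h2
  let e := LinearEquiv.ofInjective K' hinj
  let g0 : LinearMap.range K' →ₗ[ℝ] ℝ := f.comp e.symm.toLinearMap
  have hg0 : ∀ r : LinearMap.range K', ‖g0 r‖ ≤ |C| * ‖r‖ := by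
    intro r
    obtain ⟨φ, hφ⟩ := e.surjective r
    have h1 : g0 r = f φ := by
      rw [← hφ]
      show f (e.symm (e φ)) = f φ
      rw [LinearEquiv.symm_apply_apply]
    have h2 : ‖r‖ = ‖K' φ‖ := by
      rw [← hφ]
      rfl
    rw [h1, h2, Real.norm_eq_abs]
    calc |f φ| ≤ C * ‖(φ : H)‖ := hf φ
      _ ≤ |C| * ‖(φ : H)‖ := mul_le_mul_of_nonneg_right (le_abs_self C) (norm_nonneg _)
      _ ≤ |C| * ‖K' φ‖ := mul_le_mul_of_nonneg_left (hle φ) (abs_nonneg C)
  obtain ⟨g, hg, -⟩ := exists_extension_norm_eq (𝕜 := ℝ) (LinearMap.range K')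
    (g0.mkContinuous |C| hg0)
  let w : V := (InnerProductSpace.toDual ℝ V).symm g
  refine ⟨(w : H), w.2, fun φ => ?_⟩
  rw [← hin w (K φ), ← hK']
  have h1 : inner ℝ w (K' φ) = g (K' φ) := InnerProductSpace.toDual_symm_apply
  rw [h1]
  have h2 := hg (e φ)
  have h3 : ((e φ : LinearMap.range K') : V) = K' φ := rfl
  rw [h3] at h2
  rw [h2]
  show f (e.symm (e φ)) = f φ
  rw [LinearEquiv.symm_apply_apply]

end Pool.Agent.Q91.ND
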