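import Mathlib

/-!
# Gluing Lipschitz quasiconformal maps of the plane
-/

open Set Filter Topology Metric MeasureTheory
open scoped NNReal ENNReal ComplexConjugate

namespace Q91.QC

/-- The real linear map `h ↦ A h + B conj h`. -/
noncomputable def lin (A B : ℂ) : ℂ →L[ℝ] ℂ :=
  A • (ContinuousLinearMap.id ℝ ℂ) + B • (Complex.conjCLE : ℂ →L[ℝ] ℂ)

lemma lin_apply (A B h : ℂ) : lin A B h = A * h + B * conj h := rfl

lemma norm_lin_le (A B : ℂ) : ‖lin A B‖ ≤ ‖A‖ + ‖B‖ := by
  refine ContinuousLinearMap.opNorm_le_bound _ (by positivity) fun h => ?_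
  rw [lin_apply]
  refine (norm_add_le _ _).trans ?_
  rw [norm_mul, norm_mul, Complex.norm_conj, add_mul]

lemma det_lin (A B : ℂ) : (lin A B).det = ‖A‖ ^ 2 - ‖B‖ ^ 2 := by
  rw [ContinuousLinearMap.det, ← LinearMap.det_toMatrix Complex.basisOneI, Matrix.det_fin_two]
  simp only [LinearMap.toMatrix_apply, Complex.coe_basisOneI, Complex.coe_basisOneI_repr,
    ContinuousLinearMap.coe_coe, lin_apply]
  simp only [Matrix.cons_val_zero, Matrix.cons_val_one]
  rw [← Complex.normSq_eq_norm_sq, ← Complex.normSq_eq_norm_sq, Complex.normSq_apply,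
    Complex.normSq_apply]
  simp
  ring

/-- Almost everywhere differentiability with `|f_zbar| ≤ (3/4) |f_z|`. -/
def AQ (g : ℂ → ℂ) : Prop :=
  ∀ᵐ z : ℂ, ∃ A B : ℂ, ‖B‖ ≤ 3 / 4 * ‖A‖ ∧ HasFDerivAt g (lin A B) z

lemma AQ_id : AQ (fun z => z) := by
  refine Eventually.of_forall fun z => ⟨1, 0, by norm_num, ?_⟩
  have e : lin 1 0 = ContinuousLinearMap.id ℝ ℂ := by
    ext h
    simp [lin_apply]
  rw [e]
  exact hasFDerivAt_id z

/-- The dilatation inequality. -/
lemma dilatation {g : ℂ → ℂ} (h : AQ g) :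
    ∀ᵐ z : ℂ, DifferentiableAt ℝ g z ∧ ‖fderiv ℝ g z‖ ^ 2 ≤ 7 * (fderiv ℝ g z).det := by
  filter_upwards [h] with z hz
  obtain ⟨A, B, h1, h2⟩ := hz
  refine ⟨h2.differentiableAt, ?_⟩
  rw [h2.fderiv, det_lin]
  have h3 := norm_lin_le A B
  have h4 : ‖lin A B‖ ^ 2 ≤ (‖A‖ + ‖B‖) ^ 2 := pow_le_pow_left₀ (norm_nonneg _) h3 2
  have h5 := norm_nonneg A
  have h6 := norm_nonneg B
  nlinarith [mul_nonneg h5 h6, mul_nonneg h5 (sub_nonneg.2 h1), mul_nonneg h6 (sub_nonneg.2 h1)]

lemma ae_affine {P : ℂ → Prop} (h : ∀ᵐ z, P z) {s : ℝ} (hs : s ≠ 0) (t : ℂ) :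
    ∀ᵐ z : ℂ, P (s • (z - t)) := by
  have h1 : volume {z | ¬ P z} = 0 := h
  have h2 : volume ((fun z : ℂ => s • z) ⁻¹' {z | ¬ P z}) = 0 := by
    rw [Measure.addHaar_preimage_smul _ hs, h1, mul_zero]
  have h3 : volume ((fun z : ℂ => z - t) ⁻¹' ((fun z : ℂ => s • z) ⁻¹' {z | ¬ P z})) = 0 := by
    have e : (fun z : ℂ => z - t) = fun z => z + (-t) := by
      funext z
      rw [sub_eq_add_neg]
    rw [e, measure_preimage_add_right, h2]
  exact h3

/-- Affine conjugates. -/
noncomputable def aff (c : ℂ) (r : ℝ) (g : ℂ → ℂ) (z : ℂ) : ℂ := c + r • g (r⁻¹ • (z - c))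

section Aff

variable {c : ℂ} {r : ℝ} {g : ℂ → ℂ}

lemma aff_out (hr : 0 < r) {ρ : ℝ} (h : ∀ z, ρ ≤ ‖z‖ → g z = z) :
    ∀ z, r * ρ ≤ ‖z - c‖ → aff c r g z = z := by
  intro z hz
  unfold aff
  rw [h, smul_inv_smul₀ hr.ne', add_sub_cancel]
  rw [norm_smul, Real.norm_of_nonneg (inv_nonneg.2 hr.le), inv_mul_eq_div, le_div_iff₀ hr,
    mul_comm]
  exact hz

lemma aff_lip (hr : 0 < r) {L : ℝ} (h : ∀ x y, dist (g x) (g y) ≤ L * dist x y) (x y : ℂ) :
    dist (aff c r g x) (aff c r g y) ≤ L * dist x y := by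
  unfold aff
  rw [dist_add_left, dist_smul₀, Real.norm_of_nonneg hr.le]
  have h1 := mul_le_mul_of_nonneg_left (h (r⁻¹ • (x - c)) (r⁻¹ • (y - c))) hr.le
  refine h1.trans (le_of_eq ?_)
  rw [dist_smul₀, Real.norm_of_nonneg (inv_nonneg.2 hr.le), dist_sub_right]
  field_simp

lemma aff_bij (hr : 0 < r) (h : Function.Bijective g) : Function.Bijective (aff c r g) := by
  constructor
  · intro x y hxy
    unfold aff at hxy
    have h1 := smul_right_injective ℂ hr.ne' (add_left_cancel hxy)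
    have h2 := smul_right_injective ℂ (inv_ne_zero hr.ne') (h.1 h1)
    exact sub_left_injective h2
  · intro y
    obtain ⟨w, hw⟩ := h.2 (r⁻¹ • (y - c))
    refine ⟨c + r • w, ?_⟩
    unfold aff
    rw [add_sub_cancel_left, inv_smul_smul₀ hr.ne', hw, smul_inv_smul₀ hr.ne', add_sub_cancel]

lemma hasFDerivAt_scaled {s t : ℝ} {c c' : ℂ} {A B z : ℂ}
    (h : HasFDerivAt g (lin A B) (s • (z - c))) :
    HasFDerivAt (fun w => c' + t • g (s • (w - c))) (lin ((t * s : ℝ) * A) ((t * s : ℝ) * B)) z := by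
  have h1 : HasFDerivAt (fun w : ℂ => s • (w - c)) (s • ContinuousLinearMap.id ℝ ℂ) z :=
    ((hasFDerivAt_id z).sub_const c).const_smul s
  have h2 := ((h.comp z h1).const_smul t).const_add c'
  have e : t • ((lin A B).comp (s • ContinuousLinearMap.id ℝ ℂ)) =
      lin ((t * s : ℝ) * A) ((t * s : ℝ) * B) := by
    ext h
    simp [lin_apply]
    ring
  rw [e] at h2
  exact h2

lemma aff_AQ (hr : 0 < r) (h : AQ g) : AQ (aff c r g) := by
  filter_upwards [ae_affine h (inv_ne_zero hr.ne') c] with z hz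
  obtain ⟨A, B, h1, h2⟩ := hz
  have h3 := hasFDerivAt_scaled (t := r) (c' := c) h2
  have e : r * r⁻¹ = 1 := mul_inv_cancel₀ hr.ne'
  rw [e, Complex.ofReal_one, one_mul, one_mul] at h3
  exact ⟨A, B, h1, h3⟩

end Aff

/-! ### Gluing maps on disjoint balls -/

section Glue

variable {ι : Type*} {c : ι → ℂ} {ρ : ι → ℝ} {h : ι → ℂ → ℂ}

open Classical in
/-- The map equal to `h i` on the ball `i` and to the identity elsewhere. -/
noncomputable def glue (c : ι → ℂ) (ρ : ι → ℝ) (h : ι → ℂ → ℂ) (z : ℂ) : ℂ :=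
  if hz : ∃ i, z ∈ ball (c i) (ρ i) then h hz.choose z else z

variable (hdisj : ∀ i j, i ≠ j → Disjoint (ball (c i) (ρ i)) (ball (c j) (ρ j)))

include hdisj in
lemma glue_mem {i : ι} {z : ℂ} (hz : z ∈ ball (c i) (ρ i)) : glue c ρ h z = h i z := by
  have hex : ∃ i, z ∈ ball (c i) (ρ i) := ⟨i, hz⟩
  unfold glue
  rw [dif_pos hex]
  have : hex.choose = i := by
    by_contra hne
    exact Set.disjoint_left.1 (hdisj _ _ hne) hex.choose_spec hz
  rw [this]

lemma glue_out {z : ℂ} (hz : ∀ i, z ∉ ball (c i) (ρ i)) : glue c ρ h z = z := by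
  unfold glue
  rw [dif_neg (by push Not; exact hz)]

variable (hout : ∀ i z, z ∉ ball (c i) (ρ i) → h i z = z)

include hdisj hout in
lemma glue_lip {L : ℝ} (hL : 1 ≤ L) (hlip : ∀ i x y, dist (h i x) (h i y) ≤ L * dist x y)
    (x y : ℂ) : dist (glue c ρ h x) (glue c ρ h y) ≤ L * dist x y := by
  by_cases hx : ∃ i, x ∈ ball (c i) (ρ i)
  · obtain ⟨i, hx⟩ := hx
    rw [glue_mem hdisj hx]
    by_cases hy : ∃ j, y ∈ ball (c j) (ρ j)
    · obtain ⟨j, hy⟩ := hy
      rw [glue_mem hdisj hy]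
      by_cases hij : i = j
      · subst hij
        exact hlip i x y
      · obtain ⟨w, hw, hwi, hwj⟩ : ∃ w ∈ segment ℝ x y, w ∉ ball (c i) (ρ i) ∧
            w ∉ ball (c j) (ρ j) := by
          by_contra hcon
          push Not at hcon
          have hpre : IsPreconnected (segment ℝ x y) := (convex_segment x y).isPreconnected
          have h1 := hpre (ball (c i) (ρ i)) (ball (c j) (ρ j)) isOpen_ball isOpen_ball
            (fun w hw => by
              by_cases h2 : w ∈ ball (c i) (ρ i)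
              · exact Or.inl h2
              · exact Or.inr (hcon w hw h2))
            ⟨x, left_mem_segment ℝ x y, hx⟩ ⟨y, right_mem_segment ℝ x y, hy⟩
          obtain ⟨w, -, h3, h4⟩ := h1
          exact Set.disjoint_left.1 (hdisj i j hij) h3 h4
        have h1 := hlip i x w
        have h2 := hlip j w y
        rw [hout i w hwi] at h1
        rw [hout j w hwj] at h2
        have h3 := dist_add_dist_of_mem_segment hw
        calc dist (h i x) (h j y) ≤ dist (h i x) w + dist w (h j y) := dist_triangle _ _ _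
          _ ≤ L * dist x w + L * dist w y := add_le_add h1 h2
          _ = L * dist x y := by rw [← mul_add, h3]
    · push Not at hy
      rw [glue_out hy, ← hout i y (hy i)]
      have := hlip i x y
      rwa [hout i y (hy i)] at this ⊢
  · push Not at hx
    rw [glue_out hx]
    by_cases hy : ∃ j, y ∈ ball (c j) (ρ j)
    · obtain ⟨j, hy⟩ := hy
      rw [glue_mem hdisj hy]
      have := hlip j x y
      rwa [hout j x (hx j)] at this
    · push Not at hy
      rw [glue_out hy]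
      have := @dist_nonneg _ _ x y
      nlinarith

include hout in
lemma maps_ball (hinj : ∀ i, Function.Injective (h i)) {i : ι} {z : ℂ}
    (hz : z ∈ ball (c i) (ρ i)) : h i z ∈ ball (c i) (ρ i) := by
  by_contra hcon
  have h1 := hinj i (hout i _ hcon)
  rw [h1] at hcon
  exact hcon hz

include hdisj hout in
lemma glue_bij (hbij : ∀ i, Function.Bijective (h i)) : Function.Bijective (glue c ρ h) := by
  have hmap := fun {i : ι} {z : ℂ} (hz : z ∈ ball (c i) (ρ i)) =>
    maps_ball hout (fun i => (hbij i).1) hz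
  constructor
  · intro x y hxy
    by_cases hx : ∃ i, x ∈ ball (c i) (ρ i)
    · obtain ⟨i, hx⟩ := hx
      rw [glue_mem hdisj hx] at hxy
      by_cases hy : ∃ j, y ∈ ball (c j) (ρ j)
      · obtain ⟨j, hy⟩ := hy
        rw [glue_mem hdisj hy] at hxy
        have hij : i = j := by
          by_contra hne
          have h1 := hmap hx
          rw [hxy] at h1
          exact Set.disjoint_left.1 (hdisj i j hne) h1 (hmap hy)
        subst hij
        exact (hbij i).1 hxy
      · push Not at hy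
        rw [glue_out hy] at hxy
        have h1 := hmap hx
        rw [hxy] at h1
        exact absurd h1 (hy i)
    · push Not at hx
      rw [glue_out hx] at hxy
      by_cases hy : ∃ j, y ∈ ball (c j) (ρ j)
      · obtain ⟨j, hy⟩ := hy
        rw [glue_mem hdisj hy] at hxy
        have h1 := hmap hy
        rw [← hxy] at h1
        exact absurd h1 (hx j)
      · push Not at hy
        rw [glue_out hy] at hxy
        exact hxy
  · intro y
    by_cases hy : ∃ i, y ∈ ball (c i) (ρ i)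
    · obtain ⟨i, hy⟩ := hy
      obtain ⟨x, hx⟩ := (hbij i).2 y
      have hxb : x ∈ ball (c i) (ρ i) := by
        by_contra hcon
        rw [hout i x hcon] at hx
        rw [hx] at hcon
        exact hcon hy
      exact ⟨x, by rw [glue_mem hdisj hxb, hx]⟩
    · push Not at hy
      exact ⟨y, glue_out hy⟩

include hdisj in
lemma glue_AQ [Countable ι] (hAQ : ∀ i, AQ (h i))
    (hloc : ∀ᵐ z : ℂ, (∃ i, z ∈ ball (c i) (ρ i)) ∨ ∀ᶠ w in 𝓝 z, ∀ i, w ∉ ball (c i) (ρ i)) :
    AQ (glue c ρ h) := by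
  have h1 : ∀ᵐ z : ℂ, ∀ i, ∃ A B : ℂ, ‖B‖ ≤ 3 / 4 * ‖A‖ ∧ HasFDerivAt (h i) (lin A B) z :=
    ae_all_iff.2 hAQ
  filter_upwards [h1, hloc, AQ_id] with z hz hl hid
  rcases hl with ⟨i, hi⟩ | hl
  · obtain ⟨A, B, h2, h3⟩ := hz i
    refine ⟨A, B, h2, h3.congr_of_eventuallyEq ?_⟩
    filter_upwards [isOpen_ball.mem_nhds hi] with w hw
    exact glue_mem hdisj hw
  · obtain ⟨A, B, h2, h3⟩ := hid
    refine ⟨A, B, h2, h3.congr_of_eventuallyEq ?_⟩
    filter_upwards [hl] with w hw
    exact glue_out hw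

end Glue

end Q91.QC
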