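import Mathlib
import Pool.Agent.Q91.QCGlue

/-!
# Radial stretchings and a Lipschitz quasiconformal map of the plane
-/

open Set Filter Topology Metric MeasureTheory
open scoped NNReal ENNReal ComplexConjugate

namespace Q91.QC

/-- Radial maps. -/
noncomputable def rad (φ : ℝ → ℝ) (z : ℂ) : ℂ := (φ ‖z‖ / ‖z‖) • z

/-- Admissible pairs of mutually inverse radial functions: `φ` maps `1/16` to `β`. -/
structure RadOK (φ ψ : ℝ → ℝ) (β : ℝ) : Prop where
  β0 : 0 < β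
  val : φ (1 / 16) = β
  zero : φ 0 = 0
  zero' : ψ 0 = 0
  out : ∀ r, 1 / 2 ≤ r → φ r = r
  inv : ∀ r, 0 ≤ r → ψ (φ r) = r
  inv' : ∀ r, 0 ≤ r → φ (ψ r) = r
  mono : Monotone φ
  mono' : Monotone ψ
  le : ∀ r, 0 ≤ r → φ r ≤ 4 * r
  lip : ∀ r s, |φ r - φ s| ≤ 4 * |r - s|
  diff : ∀ r, 1 / 16 < r → r < 1 / 2 → ∃ σ τ : ℝ, (∀ s, 1 / 16 < s → s < 1 / 2 → φ s = σ * s + τ) ∧
    0 < σ + τ / (2 * r) ∧ |τ| / (2 * r) ≤ 3 / 4 * (σ + τ / (2 * r))

section Rad

variable {φ ψ : ℝ → ℝ} {β : ℝ} (hφ : RadOK φ ψ β)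

include hφ in
lemma φ_nonneg {r : ℝ} (hr : 0 ≤ r) : 0 ≤ φ r := by
  rw [← hφ.zero]
  exact hφ.mono hr

include hφ in
lemma ψ_nonneg {r : ℝ} (hr : 0 ≤ r) : 0 ≤ ψ r := by
  rw [← hφ.zero']
  exact hφ.mono' hr

include hφ in
lemma norm_rad (z : ℂ) : ‖rad φ z‖ = φ ‖z‖ := by
  unfold rad
  rcases eq_or_ne z 0 with rfl | hz
  · simp [hφ.zero]
  · have h1 : 0 < ‖z‖ := norm_pos_iff.2 hz
    rw [norm_smul, Real.norm_of_nonneg (div_nonneg (φ_nonneg hφ h1.le) h1.le),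
      div_mul_cancel₀ _ h1.ne']

include hφ in
lemma norm_rad' (z : ℂ) : ‖rad ψ z‖ = ψ ‖z‖ := by
  unfold rad
  rcases eq_or_ne z 0 with rfl | hz
  · simp [hφ.zero']
  · have h1 : 0 < ‖z‖ := norm_pos_iff.2 hz
    rw [norm_smul, Real.norm_of_nonneg (div_nonneg (ψ_nonneg hφ h1.le) h1.le),
      div_mul_cancel₀ _ h1.ne']

include hφ in
lemma rad_rad (z : ℂ) : rad ψ (rad φ z) = z := by
  rcases eq_or_ne z 0 with rfl | hz
  · simp [rad]
  · have h1 : 0 < ‖z‖ := norm_pos_iff.2 hz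
    have h2 := norm_rad hφ z
    have h3 : φ ‖z‖ ≠ 0 := by
      intro h0
      have := hφ.inv ‖z‖ h1.le
      rw [h0, hφ.zero'] at this
      exact h1.ne this
    have e : rad ψ (rad φ z) = (ψ ‖rad φ z‖ / ‖rad φ z‖) • rad φ z := rfl
    rw [e, h2, hφ.inv _ h1.le]
    unfold rad
    rw [smul_smul, div_mul_div_cancel₀ h3, div_self h1.ne', one_smul]

include hφ in
lemma rad_rad' (z : ℂ) : rad φ (rad ψ z) = z := by
  rcases eq_or_ne z 0 with rfl | hz
  · simp [rad]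
  · have h1 : 0 < ‖z‖ := norm_pos_iff.2 hz
    have h2 := norm_rad' hφ z
    have h3 : ψ ‖z‖ ≠ 0 := by
      intro h0
      have := hφ.inv' ‖z‖ h1.le
      rw [h0, hφ.zero] at this
      exact h1.ne this
    have e : rad φ (rad ψ z) = (φ ‖rad ψ z‖ / ‖rad ψ z‖) • rad ψ z := rfl
    rw [e, h2, hφ.inv' _ h1.le]
    unfold rad
    rw [smul_smul, div_mul_div_cancel₀ h3, div_self h1.ne', one_smul]

include hφ in
lemma rad_bij : Function.Bijective (rad φ) :=
  ⟨Function.LeftInverse.injective (rad_rad hφ), Function.RightInverse.surjective (rad_rad' hφ)⟩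

include hφ in
lemma rad_out {z : ℂ} (hz : 1 / 2 ≤ ‖z‖) : rad φ z = z := by
  unfold rad
  have h1 : 0 < ‖z‖ := by linarith
  rw [hφ.out _ hz, div_self h1.ne', one_smul]

/-- Radial projection is a contraction. -/
lemma dist_radial {x y : ℂ} (hy : 0 < ‖y‖) (hxy : ‖y‖ ≤ ‖x‖) :
    ‖(‖y‖ / ‖x‖) • x - y‖ ≤ 2 * ‖x - y‖ := by
  have hx : 0 < ‖x‖ := hy.trans_le hxy
  have e : (‖y‖ / ‖x‖) • x - y = (x - y) - ((‖x‖ - ‖y‖) / ‖x‖) • x := by
    have : (1 : ℝ) = ‖x‖ / ‖x‖ := (div_self hx.ne').symm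
    have h2 : x = (‖x‖ / ‖x‖) • x := by rw [← this, one_smul]
    have h3 : ((‖x‖ - ‖y‖) / ‖x‖) • x = (‖x‖ / ‖x‖) • x - (‖y‖ / ‖x‖) • x := by
      rw [← sub_smul, sub_div]
    rw [h3, ← h2]
    abel
  rw [e]
  refine (norm_sub_le _ _).trans ?_
  rw [norm_smul, Real.norm_of_nonneg (div_nonneg (by linarith) hx.le), div_mul_cancel₀ _ hx.ne']
  have := norm_sub_norm_le x y
  linarith

include hφ in
lemma rad_lip (x y : ℂ) : dist (rad φ x) (rad φ y) ≤ 12 * dist x y := by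
  have key : ∀ x y : ℂ, 0 < ‖y‖ → ‖y‖ ≤ ‖x‖ → dist (rad φ x) (rad φ y) ≤ 12 * dist x y := by
    intro x y hy hxy
    have hx : 0 < ‖x‖ := hy.trans_le hxy
    have e : rad φ x - rad φ y = ((φ ‖x‖ - φ ‖y‖) / ‖x‖) • x +
        (φ ‖y‖ / ‖y‖) • ((‖y‖ / ‖x‖) • x - y) := by
      unfold rad
      rw [smul_sub, smul_smul, div_mul_div_cancel₀ hy.ne', sub_div, sub_smul]
      abel
    rw [dist_eq_norm, e, dist_eq_norm]
    refine (norm_add_le _ _).trans ?_
    have h1 : ‖((φ ‖x‖ - φ ‖y‖) / ‖x‖) • x‖ ≤ 4 * ‖x - y‖ := by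
      rw [norm_smul, norm_div, norm_norm, div_mul_cancel₀ _ hx.ne', Real.norm_eq_abs]
      refine (hφ.lip _ _).trans ?_
      have := abs_norm_sub_norm_le x y
      linarith
    have h2 : ‖(φ ‖y‖ / ‖y‖) • ((‖y‖ / ‖x‖) • x - y)‖ ≤ 4 * (2 * ‖x - y‖) := by
      rw [norm_smul, Real.norm_of_nonneg (div_nonneg (φ_nonneg hφ hy.le) hy.le)]
      apply mul_le_mul _ (dist_radial hy hxy) (norm_nonneg _) (by norm_num)
      rw [div_le_iff₀ hy]
      exact hφ.le _ hy.le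
    linarith
  rcases eq_or_ne x 0 with rfl | hx
  · have e0 : rad φ 0 = 0 := by simp [rad]
    rw [e0, dist_comm, dist_zero_right, dist_comm, dist_zero_right, norm_rad hφ]
    have := hφ.le ‖y‖ (norm_nonneg _)
    have := norm_nonneg y
    linarith
  rcases eq_or_ne y 0 with rfl | hy
  · have e0 : rad φ 0 = 0 := by simp [rad]
    rw [e0, dist_zero_right, dist_zero_right, norm_rad hφ]
    have := hφ.le ‖x‖ (norm_nonneg _)
    have := norm_nonneg x
    linarith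
  rcases le_total ‖y‖ ‖x‖ with h | h
  · exact key x y (norm_pos_iff.2 hy) h
  · rw [dist_comm, dist_comm x y]
    exact key y x (norm_pos_iff.2 hx) h

lemma hasFDerivAt_unit {z : ℂ} (hz : z ≠ 0) : HasFDerivAt (fun w : ℂ => (‖w‖⁻¹ : ℝ) • w)
    (lin ((1 / (2 * ‖z‖) : ℝ) : ℂ) (-(1 / (2 * ‖z‖ ^ 3) : ℝ) * z ^ 2)) z := by
  have h0 : 0 < ‖z‖ := norm_pos_iff.2 hz
  have h1 : HasFDerivAt (fun w : ℂ => ‖w‖ ^ 2) (2 • (innerSL ℝ z)) z :=
    (hasStrictFDerivAt_norm_sq z).hasFDerivAt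
  have h2 : HasFDerivAt (fun w : ℂ => Real.sqrt (‖w‖ ^ 2))
      ((1 / (2 * Real.sqrt (‖z‖ ^ 2))) • (2 • (innerSL ℝ z))) z :=
    h1.sqrt (by positivity)
  have e1 : (fun w : ℂ => Real.sqrt (‖w‖ ^ 2)) = fun w => ‖w‖ := by
    funext w
    exact Real.sqrt_sq (norm_nonneg _)
  rw [e1, Real.sqrt_sq h0.le] at h2
  have h3 := (hasDerivAt_inv h0.ne').comp_hasFDerivAt z h2
  have h4 := h3.smul (hasFDerivAt_id z)
  have e2 : (lin ((1 / (2 * ‖z‖) : ℝ) : ℂ) (-(1 / (2 * ‖z‖ ^ 3) : ℝ) * z ^ 2)) =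
      ((fun x : ℝ => x⁻¹) ∘ fun w : ℂ => ‖w‖) z • ContinuousLinearMap.id ℝ ℂ +
        (-(‖z‖ ^ 2)⁻¹ • (1 / (2 * ‖z‖)) • 2 • innerSL ℝ z).smulRight (id z) := by
    ext h
    have hin : ((inner ℝ z h : ℝ) : ℂ) = (conj z * h + z * conj h) / 2 := by
      rw [Complex.inner, Complex.re_eq_add_conj]
      simp
      ring
    have hzz : (conj z : ℂ) * z = (‖z‖ : ℂ) ^ 2 := Complex.conj_mul' z
    have hne : (‖z‖ : ℂ) ≠ 0 := Complex.ofReal_ne_zero.2 h0.ne'
    simp only [lin_apply, add_apply, smul_apply,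
      ContinuousLinearMap.id_apply, ContinuousLinearMap.smulRight_apply, innerSL_apply_apply,
      Function.comp, id, Complex.real_smul, smul_eq_mul, nsmul_eq_mul]
    push_cast
    rw [hin]
    field_simp
    linear_combination h * hzz
  rw [e2]
  exact h4

include hφ in
/-- Away from the small disc and the circle of radius `1/2`, the radial map is differentiable with
small dilatation. -/
lemma rad_diff {z : ℂ} (h1 : 1 / 16 < ‖z‖) (h2 : ‖z‖ ≠ 1 / 2) :
    ∃ A B : ℂ, ‖B‖ ≤ 3 / 4 * ‖A‖ ∧ HasFDerivAt (rad φ) (lin A B) z := by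
  have h0 : 0 < ‖z‖ := lt_trans (by norm_num) h1
  have hz : z ≠ 0 := norm_pos_iff.1 h0
  rcases lt_or_gt_of_ne h2 with h3 | h3
  · obtain ⟨σ, τ, hs, hpos, hle⟩ := hφ.diff ‖z‖ h1 h3
    have h4 := ((hasFDerivAt_id z).const_smul σ).add ((hasFDerivAt_unit hz).const_smul τ)
    refine ⟨((σ + τ / (2 * ‖z‖) : ℝ) : ℂ), ((-(τ / (2 * ‖z‖ ^ 3)) : ℝ) : ℂ) * z ^ 2, ?_, ?_⟩
    · rw [norm_mul, norm_pow, Complex.norm_real, Complex.norm_real, Real.norm_eq_abs,
        Real.norm_eq_abs, abs_of_pos hpos, abs_neg, abs_div, abs_of_pos (by positivity :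
          (0 : ℝ) < 2 * ‖z‖ ^ 3)]
      refine le_trans (le_of_eq ?_) hle
      field_simp
    · have e : lin ((σ + τ / (2 * ‖z‖) : ℝ) : ℂ) (((-(τ / (2 * ‖z‖ ^ 3)) : ℝ) : ℂ) * z ^ 2) =
          σ • ContinuousLinearMap.id ℝ ℂ +
            τ • lin ((1 / (2 * ‖z‖) : ℝ) : ℂ) (-(1 / (2 * ‖z‖ ^ 3) : ℝ) * z ^ 2) := by
        ext h
        simp only [lin_apply, add_apply, smul_apply, ContinuousLinearMap.id_apply,
          Complex.real_smul]
        push_cast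
        ring
      rw [e]
      refine h4.congr_of_eventuallyEq ?_
      have hopen : IsOpen {w : ℂ | 1 / 16 < ‖w‖ ∧ ‖w‖ < 1 / 2} :=
        (isOpen_lt continuous_const continuous_norm).inter
          (isOpen_lt continuous_norm continuous_const)
      filter_upwards [hopen.mem_nhds ⟨h1, h3⟩] with w hw
      have hw0 : 0 < ‖w‖ := lt_trans (by norm_num) hw.1
      unfold rad
      rw [hs _ hw.1 hw.2]
      simp only [Pi.add_apply, Pi.smul_apply, id, Complex.real_smul]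
      have hne : (‖w‖ : ℂ) ≠ 0 := Complex.ofReal_ne_zero.2 hw0.ne'
      push_cast
      field_simp
  · refine ⟨1, 0, by norm_num, ?_⟩
    have e : lin 1 0 = ContinuousLinearMap.id ℝ ℂ := by
      ext h
      simp [lin_apply]
    rw [e]
    refine (hasFDerivAt_id z).congr_of_eventuallyEq ?_
    have hopen : IsOpen {w : ℂ | 1 / 2 < ‖w‖} := isOpen_lt continuous_const continuous_norm
    filter_upwards [hopen.mem_nhds h3] with w hw
    have hw' : 1 / 2 < ‖w‖ := hw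
    exact rad_out hφ hw'.le

/-! ### Replacing the radial map inside the disc of radius `1/16` -/

open Classical in
/-- The map equal to `β g(16 z)` on the disc of radius `1/16` and to the radial map elsewhere. -/
noncomputable def H (φ : ℝ → ℝ) (β : ℝ) (g : ℂ → ℂ) (z : ℂ) : ℂ :=
  if ‖z‖ < 1 / 16 then β • g ((16 : ℝ) • z) else rad φ z

lemma H_in {g : ℂ → ℂ} {z : ℂ} (hz : ‖z‖ < 1 / 16) : H φ β g z = β • g ((16 : ℝ) • z) := by
  unfold H
  rw [if_pos hz]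

lemma H_ge {g : ℂ → ℂ} {z : ℂ} (hz : 1 / 16 ≤ ‖z‖) : H φ β g z = rad φ z := by
  unfold H
  rw [if_neg (not_lt.2 hz)]

include hφ in
lemma H_out {g : ℂ → ℂ} {z : ℂ} (hz : 1 / 2 ≤ ‖z‖) : H φ β g z = z := by
  rw [H_ge (by linarith), rad_out hφ hz]

variable {g : ℂ → ℂ} (hg : ∀ z, 1 ≤ ‖z‖ → g z = z)

include hφ hg in
lemma H_edge {w : ℂ} (hw : ‖w‖ = 1 / 16) : β • g ((16 : ℝ) • w) = rad φ w := by
  rw [hg _ (by rw [norm_smul, hw]; norm_num), smul_smul]
  unfold rad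
  rw [hw, hφ.val]
  congr 1
  ring

include hφ hg in
lemma H_lip {L M : ℝ} (hM : 12 ≤ M) (hLM : 16 * β * L ≤ M)
    (hlip : ∀ x y, dist (g x) (g y) ≤ L * dist x y) (x y : ℂ) :
    dist (H φ β g x) (H φ β g y) ≤ M * dist x y := by
  have hin : ∀ x y : ℂ, dist (β • g ((16 : ℝ) • x)) (β • g ((16 : ℝ) • y)) ≤ M * dist x y := by
    intro x y
    rw [dist_smul₀, Real.norm_of_nonneg hφ.β0.le]
    have h1 := mul_le_mul_of_nonneg_left (hlip ((16 : ℝ) • x) ((16 : ℝ) • y)) hφ.β0.le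
    refine h1.trans ?_
    rw [dist_smul₀]
    norm_num
    calc β * (L * (16 * dist x y)) = (16 * β * L) * dist x y := by ring
      _ ≤ M * dist x y := mul_le_mul_of_nonneg_right hLM dist_nonneg
  have hou : ∀ x y : ℂ, dist (rad φ x) (rad φ y) ≤ M * dist x y := fun x y =>
    (rad_lip hφ x y).trans (mul_le_mul_of_nonneg_right hM dist_nonneg)
  have key : ∀ x y : ℂ, ‖x‖ < 1 / 16 → 1 / 16 ≤ ‖y‖ →
      dist (H φ β g x) (H φ β g y) ≤ M * dist x y := by
    intro x y hx hy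
    obtain ⟨w, hw, hw1⟩ : ∃ w ∈ segment ℝ x y, ‖w‖ = 1 / 16 := by
      have hpre : IsPreconnected (segment ℝ x y) := (convex_segment x y).isPreconnected
      have := hpre.intermediate_value (left_mem_segment ℝ x y) (right_mem_segment ℝ x y)
        continuous_norm.continuousOn
      obtain ⟨w, hw, hw1⟩ := this ⟨hx.le, hy⟩
      exact ⟨w, hw, hw1⟩
    rw [H_in hx, H_ge hy]
    have h1 := hin x w
    have h2 := hou w y
    rw [H_edge hφ hg hw1] at h1
    have h3 := dist_add_dist_of_mem_segment hw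
    calc _ ≤ dist (β • g ((16 : ℝ) • x)) (rad φ w) + dist (rad φ w) (rad φ y) :=
          dist_triangle _ _ _
      _ ≤ M * dist x w + M * dist w y := add_le_add h1 h2
      _ = M * dist x y := by rw [← mul_add, h3]
  rcases lt_or_ge ‖x‖ (1 / 16) with hx | hx <;> rcases lt_or_ge ‖y‖ (1 / 16) with hy | hy
  · rw [H_in hx, H_in hy]
    exact hin x y
  · exact key x y hx hy
  · rw [dist_comm, dist_comm x y]
    exact key y x hy hx
  · rw [H_ge hx, H_ge hy]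
    exact hou x y

include hg in
lemma unit_maps (hbij : Function.Bijective g) {z : ℂ} (hz : ‖z‖ < 1) : ‖g z‖ < 1 := by
  by_contra hcon
  push Not at hcon
  have h1 := hbij.1 (hg _ hcon)
  rw [h1] at hcon
  linarith

include hφ hg in
lemma H_bij (hbij : Function.Bijective g) : Function.Bijective (H φ β g) := by
  have hin : ∀ z : ℂ, ‖z‖ < 1 / 16 → ‖H φ β g z‖ < β := by
    intro z hz
    rw [H_in hz, norm_smul, Real.norm_of_nonneg hφ.β0.le]
    have h1 : ‖g ((16 : ℝ) • z)‖ < 1 := unit_maps hg hbij (by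
      rw [norm_smul, Real.norm_of_nonneg (by norm_num)]; linarith)
    have := hφ.β0
    nlinarith
  have hou : ∀ z : ℂ, 1 / 16 ≤ ‖z‖ → β ≤ ‖H φ β g z‖ := by
    intro z hz
    rw [H_ge hz, norm_rad hφ, ← hφ.val]
    exact hφ.mono hz
  constructor
  · intro x y hxy
    rcases lt_or_ge ‖x‖ (1 / 16) with hx | hx <;> rcases lt_or_ge ‖y‖ (1 / 16) with hy | hy
    · rw [H_in hx, H_in hy] at hxy
      have h1 := smul_right_injective ℂ hφ.β0.ne' hxy
      exact smul_right_injective ℂ (by norm_num : (16 : ℝ) ≠ 0) (hbij.1 h1)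
    · have h1 := hin x hx
      have h2 := hou y hy
      rw [hxy] at h1
      linarith
    · have h1 := hin y hy
      have h2 := hou x hx
      rw [hxy] at h2
      linarith
    · rw [H_ge hx, H_ge hy] at hxy
      exact (rad_bij hφ).1 hxy
  · intro y
    rcases lt_or_ge ‖y‖ β with hy | hy
    · obtain ⟨w, hw⟩ := hbij.2 (β⁻¹ • y)
      have hw1 : ‖w‖ < 1 := by
        by_contra hcon
        push Not at hcon
        rw [hg w hcon] at hw
        rw [hw, norm_smul, Real.norm_of_nonneg (inv_nonneg.2 hφ.β0.le), inv_mul_eq_div,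
          le_div_iff₀ hφ.β0] at hcon
        linarith
      refine ⟨(16 : ℝ)⁻¹ • w, ?_⟩
      rw [H_in (by rw [norm_smul]; norm_num; linarith), smul_inv_smul₀ (by norm_num), hw,
        smul_inv_smul₀ hφ.β0.ne']
    · refine ⟨rad ψ y, ?_⟩
      rw [H_ge, rad_rad' hφ]
      rw [norm_rad' hφ]
      have h1 := hφ.mono' hy
      rw [← hφ.val, hφ.inv _ (by norm_num)] at h1
      exact h1

include hφ in
lemma H_AQ (hAQ : AQ g) : AQ (H φ β g) := by
  have hs : ∀ r : ℝ, r ≠ 0 → ∀ᵐ z : ℂ, ‖z‖ ≠ r := by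
    intro r hr
    have h1 : volume (sphere (0 : ℂ) r) = 0 := Measure.addHaar_sphere _ _ _
    filter_upwards [measure_eq_zero_iff_ae_notMem.1 h1] with z hz hzr
    exact hz (mem_sphere_zero_iff_norm.2 hzr)
  filter_upwards [hs (1 / 16) (by norm_num), hs (1 / 2) (by norm_num),
    ae_affine hAQ (by norm_num : (16 : ℝ) ≠ 0) 0] with z h1 h2 h3
  rcases lt_or_gt_of_ne h1 with h4 | h4
  · obtain ⟨A, B, h5, h6⟩ := h3
    have h7 := hasFDerivAt_scaled (t := β) (c' := 0) h6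
    refine ⟨_, _, ?_, h7.congr_of_eventuallyEq ?_⟩
    · rw [norm_mul, norm_mul]
      have := norm_nonneg (((β * 16 : ℝ) : ℂ))
      calc _ ≤ ‖((β * 16 : ℝ) : ℂ)‖ * (3 / 4 * ‖A‖) := mul_le_mul_of_nonneg_left h5 this
        _ = _ := by ring
    · have hopen : IsOpen {w : ℂ | ‖w‖ < 1 / 16} := isOpen_lt continuous_norm continuous_const
      filter_upwards [hopen.mem_nhds h4] with w hw
      rw [H_in hw, sub_zero, zero_add]
  · obtain ⟨A, B, h5, h6⟩ := rad_diff hφ h4 h2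
    refine ⟨A, B, h5, h6.congr_of_eventuallyEq ?_⟩
    have hopen : IsOpen {w : ℂ | 1 / 16 < ‖w‖} := isOpen_lt continuous_const continuous_norm
    filter_upwards [hopen.mem_nhds h4] with w hw
    have hw' : 1 / 16 < ‖w‖ := hw
    exact H_ge hw'.le

end Rad

end Q91.QC
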