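import Mathlib
import Pool.Agent.Q91.QCMaps

/-!
# The Lipschitz quasiconformal map
-/

open Set Filter Topology Metric MeasureTheory
open scoped NNReal ENNReal ComplexConjugate

namespace Q91.QC

/-- The stretching radial function `1/16 ↦ 1/4` and its inverse. -/
noncomputable def φb (r : ℝ) : ℝ := max r (min (4 * r) (4 / 7 * r + 3 / 14))
/-- Its inverse. -/
noncomputable def ψb (s : ℝ) : ℝ := min s (max (s / 4) (7 / 4 * s - 3 / 8))
/-- The contracting radial function `1/16 ↦ 1/64` and its inverse. -/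
noncomputable def φc (r : ℝ) : ℝ := min r (max (r / 4) (31 / 28 * r - 3 / 56))
/-- Its inverse. -/
noncomputable def ψc (s : ℝ) : ℝ := max s (min (4 * s) (28 / 31 * s + 3 / 62))

lemma φb_1 {r : ℝ} (h0 : 0 ≤ r) (h : r ≤ 1 / 16) : φb r = 4 * r := by
  unfold φb
  rw [min_eq_left (by linarith), max_eq_right (by linarith)]

lemma φb_2 {r : ℝ} (h0 : 1 / 16 ≤ r) (h : r ≤ 1 / 2) : φb r = 4 / 7 * r + 3 / 14 := by
  unfold φb
  rw [min_eq_right (by linarith), max_eq_right (by linarith)]

lemma φb_3 {r : ℝ} (h : 1 / 2 ≤ r) : φb r = r := by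
  unfold φb
  rw [min_eq_right (by linarith), max_eq_left (by linarith)]

lemma ψb_1 {s : ℝ} (h0 : 0 ≤ s) (h : s ≤ 1 / 4) : ψb s = s / 4 := by
  unfold ψb
  rw [max_eq_left (by linarith), min_eq_right (by linarith)]

lemma ψb_2 {s : ℝ} (h0 : 1 / 4 ≤ s) (h : s ≤ 1 / 2) : ψb s = 7 / 4 * s - 3 / 8 := by
  unfold ψb
  rw [max_eq_right (by linarith), min_eq_right (by linarith)]

lemma ψb_3 {s : ℝ} (h : 1 / 2 ≤ s) : ψb s = s := by
  unfold ψb
  rw [max_eq_right (by linarith), min_eq_left (by linarith)]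

lemma φc_1 {r : ℝ} (h0 : 0 ≤ r) (h : r ≤ 1 / 16) : φc r = r / 4 := by
  unfold φc
  rw [max_eq_left (by linarith), min_eq_right (by linarith)]

lemma φc_2 {r : ℝ} (h0 : 1 / 16 ≤ r) (h : r ≤ 1 / 2) : φc r = 31 / 28 * r - 3 / 56 := by
  unfold φc
  rw [max_eq_right (by linarith), min_eq_right (by linarith)]

lemma φc_3 {r : ℝ} (h : 1 / 2 ≤ r) : φc r = r := by
  unfold φc
  rw [max_eq_right (by linarith), min_eq_left (by linarith)]

lemma ψc_1 {s : ℝ} (h0 : 0 ≤ s) (h : s ≤ 1 / 64) : ψc s = 4 * s := by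
  unfold ψc
  rw [min_eq_left (by linarith), max_eq_right (by linarith)]

lemma ψc_2 {s : ℝ} (h0 : 1 / 64 ≤ s) (h : s ≤ 1 / 2) : ψc s = 28 / 31 * s + 3 / 62 := by
  unfold ψc
  rw [min_eq_right (by linarith), max_eq_right (by linarith)]

lemma ψc_3 {s : ℝ} (h : 1 / 2 ≤ s) : ψc s = s := by
  unfold ψc
  rw [min_eq_right (by linarith), max_eq_left (by linarith)]

lemma lip_of {φ : ℝ → ℝ} (hm : Monotone φ) (h : ∀ r s, r ≤ s → φ s ≤ φ r + 4 * (s - r)) (r s : ℝ) :
    |φ r - φ s| ≤ 4 * |r - s| := by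
  rcases le_total r s with h1 | h1
  · rw [abs_sub_comm, abs_sub_comm r s, abs_of_nonneg (sub_nonneg.2 (hm h1)),
      abs_of_nonneg (sub_nonneg.2 h1)]
    linarith [h r s h1]
  · rw [abs_of_nonneg (sub_nonneg.2 (hm h1)), abs_of_nonneg (sub_nonneg.2 h1)]
    linarith [h s r h1]

lemma radOK_b : RadOK φb ψb (1 / 4) := by
  have hmono : Monotone φb := by
    intro r s h
    unfold φb
    exact max_le_max h (min_le_min (by linarith) (by linarith))
  refine ⟨by norm_num, ?_, ?_, ?_, fun r hr => φb_3 hr, ?_, ?_, hmono, ?_, ?_, ?_, ?_⟩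
  · rw [φb_1 (by norm_num) le_rfl]; norm_num
  · rw [φb_1 le_rfl (by norm_num)]; norm_num
  · rw [ψb_1 le_rfl (by norm_num)]; norm_num
  · intro r hr
    rcases le_total r (1 / 16) with h | h
    · rw [φb_1 hr h, ψb_1 (by linarith) (by linarith)]; ring
    rcases le_total r (1 / 2) with h2 | h2
    · rw [φb_2 h h2, ψb_2 (by linarith) (by linarith)]; ring
    · rw [φb_3 h2, ψb_3 h2]
  · intro s hs
    rcases le_total s (1 / 4) with h | h
    · rw [ψb_1 hs h, φb_1 (by linarith) (by linarith)]; ring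
    rcases le_total s (1 / 2) with h2 | h2
    · rw [ψb_2 h h2, φb_2 (by linarith) (by linarith)]; ring
    · rw [ψb_3 h2, φb_3 h2]
  · intro r s h
    unfold ψb
    exact min_le_min h (max_le_max (by linarith) (by linarith))
  · intro r hr
    unfold φb
    exact max_le (by linarith) (min_le_left _ _)
  · refine lip_of hmono fun r s h => ?_
    unfold φb
    refine max_le ?_ ?_
    · have := le_max_left r (min (4 * r) (4 / 7 * r + 3 / 14))
      linarith
    · have h1 := le_max_right r (min (4 * r) (4 / 7 * r + 3 / 14))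
      have h2 : min (4 * s) (4 / 7 * s + 3 / 14) ≤ min (4 * r) (4 / 7 * r + 3 / 14) + 4 * (s - r) := by
        rcases min_choice (4 * r) (4 / 7 * r + 3 / 14) with h3 | h3 <;> rw [h3]
        · have := min_le_left (4 * s) (4 / 7 * s + 3 / 14)
          linarith
        · have := min_le_right (4 * s) (4 / 7 * s + 3 / 14)
          linarith
      linarith
  · intro r h1 h2
    refine ⟨4 / 7, 3 / 14, fun s h3 h4 => φb_2 h3.le h4.le, ?_, ?_⟩
    · have : 0 < r := by linarith
      positivity
    · have h0 : 0 < r := by linarith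
      rw [abs_of_pos (by norm_num)]
      have h3 : (3 / 14 : ℝ) / (2 * r) ≤ 12 / 7 := by
        rw [div_le_iff₀ (by positivity)]
        linarith
      linarith

lemma radOK_c : RadOK φc ψc (1 / 64) := by
  have hmono : Monotone φc := by
    intro r s h
    unfold φc
    exact min_le_min h (max_le_max (by linarith) (by linarith))
  refine ⟨by norm_num, ?_, ?_, ?_, fun r hr => φc_3 hr, ?_, ?_, hmono, ?_, ?_, ?_, ?_⟩
  · rw [φc_1 (by norm_num) le_rfl]; norm_num
  · rw [φc_1 le_rfl (by norm_num)]; norm_num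
  · rw [ψc_1 le_rfl (by norm_num)]; norm_num
  · intro r hr
    rcases le_total r (1 / 16) with h | h
    · rw [φc_1 hr h, ψc_1 (by linarith) (by linarith)]; ring
    rcases le_total r (1 / 2) with h2 | h2
    · rw [φc_2 h h2, ψc_2 (by linarith) (by linarith)]; ring
    · rw [φc_3 h2, ψc_3 h2]
  · intro s hs
    rcases le_total s (1 / 64) with h | h
    · rw [ψc_1 hs h, φc_1 (by linarith) (by linarith)]; ring
    rcases le_total s (1 / 2) with h2 | h2
    · rw [ψc_2 h h2, φc_2 (by linarith) (by linarith)]; ring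
    · rw [ψc_3 h2, φc_3 h2]
  · intro r s h
    unfold ψc
    exact max_le_max h (min_le_min (by linarith) (by linarith))
  · intro r hr
    unfold φc
    exact (min_le_left _ _).trans (by linarith)
  · refine lip_of hmono fun r s h => ?_
    unfold φc
    rcases min_choice r (max (r / 4) (31 / 28 * r - 3 / 56)) with h3 | h3 <;> rw [h3]
    · exact (min_le_left _ _).trans (by linarith)
    · refine (min_le_right _ _).trans (max_le ?_ ?_)
      · have := le_max_left (r / 4) (31 / 28 * r - 3 / 56)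
        linarith
      · have := le_max_right (r / 4) (31 / 28 * r - 3 / 56)
        linarith
  · intro r h1 h2
    have h0 : 0 < r := by linarith
    have h3 : (3 / 56 : ℝ) / (2 * r) ≤ 3 / 7 := by
      rw [div_le_iff₀ (by positivity)]
      linarith
    refine ⟨31 / 28, -(3 / 56), fun s h3 h4 => ?_, ?_, ?_⟩
    · rw [φc_2 h3.le h4.le]; ring
    · rw [neg_div]; linarith
    · rw [abs_neg, abs_of_pos (by norm_num), neg_div]
      linarith

lemma ae_norm_sub_ne (c : ℂ) {r : ℝ} : ∀ᵐ z : ℂ, z ∉ sphere c r := by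
  have h1 : volume (sphere c r) = 0 := by
    rcases eq_or_ne r 0 with rfl | hr
    · rw [sphere_zero]
      exact measure_singleton c
    · exact Measure.addHaar_sphere_of_ne_zero _ _ hr
  exact measure_eq_zero_iff_ae_notMem.1 h1

/-! ### The spreading step -/

/-- The two centres. -/
noncomputable def ctr (b : Bool) : ℂ := if b then 1 / 2 else -(1 / 2)

lemma norm_ctr (b : Bool) : ‖ctr b‖ = 1 / 2 := by
  unfold ctr
  cases b <;> simp

lemma ctr_disj : ∀ i j : Bool, i ≠ j →
    Disjoint (ball (ctr i) ((fun _ => (1 / 2 : ℝ)) i)) (ball (ctr j) ((fun _ => (1 / 2 : ℝ)) j)) := by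
  intro i j hij
  apply ball_disjoint_ball
  rw [dist_eq_norm]
  unfold ctr
  cases i <;> cases j
  · exact absurd rfl hij
  · norm_num
  · norm_num
  · exact absurd rfl hij

/-- The spreading step. -/
noncomputable def spread (g : ℂ → ℂ) : ℂ → ℂ :=
  glue ctr (fun _ => 1 / 2) (fun b => aff (ctr b) 1 (H φb (1 / 4) g))

/-- The properties preserved by the construction. -/
structure Nice (L : ℝ) (g : ℂ → ℂ) : Prop where
  out : ∀ z, 1 ≤ ‖z‖ → g z = z
  bij : Function.Bijective g
  lip : ∀ x y, dist (g x) (g y) ≤ L * dist x y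
  aq : AQ g

lemma nice_id : Nice 1 (fun z => z) :=
  ⟨fun _ _ => rfl, Function.bijective_id, fun x y => by rw [one_mul], AQ_id⟩

lemma nice_spread {L M : ℝ} (hM : 12 ≤ M) (hLM : 4 * L ≤ M) {g : ℂ → ℂ} (hg : Nice L g) :
    Nice M (spread g) := by
  have hout : ∀ (i : Bool) (z : ℂ), z ∉ ball (ctr i) ((fun _ => (1 / 2 : ℝ)) i) →
      aff (ctr i) 1 (H φb (1 / 4) g) z = z := by
    intro i z hz
    refine aff_out (ρ := 1 / 2) one_pos (fun w hw => H_out radOK_b hw) z ?_
    rw [mem_ball, not_lt, dist_eq_norm] at hz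
    rw [one_mul]
    exact hz
  refine ⟨fun z hz => ?_, ?_, ?_, ?_⟩
  · apply glue_out
    intro i hi
    rw [mem_ball, dist_eq_norm] at hi
    have h1 := norm_sub_norm_le z (ctr i)
    rw [norm_ctr] at h1
    linarith
  · exact glue_bij ctr_disj hout fun i => aff_bij one_pos (H_bij radOK_b hg.out hg.bij)
  · exact glue_lip ctr_disj hout (by linarith) fun i x y =>
      aff_lip one_pos (H_lip radOK_b hg.out hM (by linarith) hg.lip) x y
  · refine glue_AQ ctr_disj (fun i => aff_AQ one_pos (H_AQ radOK_b hg.aq)) ?_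
    filter_upwards [ae_norm_sub_ne (ctr true) (r := 1 / 2),
      ae_norm_sub_ne (ctr false) (r := 1 / 2)] with z h1 h2
    by_cases hex : ∃ i, z ∈ ball (ctr i) ((fun _ => (1 / 2 : ℝ)) i)
    · exact Or.inl hex
    · right
      push Not at hex
      have hc : ∀ i, z ∉ closedBall (ctr i) (1 / 2) := by
        intro i hi
        have h3 : z ∉ sphere (ctr i) (1 / 2) := by cases i <;> assumption
        rw [mem_closedBall] at hi
        rcases hi.lt_or_eq with h4 | h4
        · exact hex i h4
        · exact h3 h4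
      rw [eventually_all]
      intro i
      filter_upwards [isClosed_closedBall.isOpen_compl.mem_nhds (hc i)] with w hw hwi
      exact hw (ball_subset_closedBall hwi)

lemma nice_H {L M : ℝ} (hM : 12 ≤ M) (hLM : 1 / 4 * L ≤ M) {g : ℂ → ℂ} (hg : Nice L g) :
    Nice M (H φc (1 / 64) g) :=
  ⟨fun _ hz => H_out radOK_c (by linarith), H_bij radOK_c hg.out hg.bij,
    H_lip radOK_c hg.out hM (by linarith) hg.lip, H_AQ radOK_c hg.aq⟩

/-- The spreading maps. -/
noncomputable def Sp : ℕ → ℂ → ℂ
  | 0 => fun z => z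
  | (m + 1) => spread (Sp m)

/-- The spreading maps preceded by contractions. -/
noncomputable def Gm (m : ℕ) : ℕ → ℂ → ℂ
  | 0 => Sp m
  | (n + 1) => H φc (1 / 64) (Gm m n)

lemma nice_Sp (m : ℕ) : Nice (12 * 4 ^ m) (Sp m) := by
  induction m with
  | zero =>
    have h := nice_id
    exact ⟨h.out, h.bij, fun x y => (h.lip x y).trans
      (mul_le_mul_of_nonneg_right (by norm_num) dist_nonneg), h.aq⟩
  | succ m ih =>
    refine nice_spread ?_ ?_ ih
    · have : (1 : ℝ) ≤ 4 ^ (m + 1) := one_le_pow₀ (by norm_num)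
      linarith
    · rw [pow_succ]; linarith

lemma nice_Gm (m n : ℕ) : Nice (max 12 (12 * 4 ^ m / 4 ^ n)) (Gm m n) := by
  induction n with
  | zero =>
    have h := nice_Sp m
    refine ⟨h.out, h.bij, fun x y => (h.lip x y).trans
      (mul_le_mul_of_nonneg_right ?_ dist_nonneg), h.aq⟩
    rw [pow_zero, div_one]
    exact le_max_right _ _
  | succ n ih =>
    refine nice_H (le_max_left _ _) ?_ ih
    rcases max_choice (12 : ℝ) (12 * 4 ^ m / 4 ^ n) with h | h <;> rw [h]
    · exact le_trans (by norm_num) (le_max_left _ _)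
    · refine le_trans (le_of_eq ?_) (le_max_right _ _)
      rw [pow_succ]
      field_simp

lemma nice_G (n : ℕ) : Nice 12 (Gm n n) := by
  have h := nice_Gm n n
  rwa [mul_div_assoc, div_self (by positivity), mul_one, max_self] at h

/-! ### The map -/

/-- Centres. -/
noncomputable def cen (j : ℕ) : ℂ := (((1 / 16 : ℝ) ^ j / 2 : ℝ) : ℂ)
/-- Radii. -/
noncomputable def rd (j : ℕ) : ℝ := (1 / 16 : ℝ) ^ (j + 1)

lemma rd_pos (j : ℕ) : 0 < rd j := by unfold rd; positivity

lemma cen_disj : ∀ i j, i ≠ j → Disjoint (ball (cen i) (rd i)) (ball (cen j) (rd j)) := by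
  have key : ∀ i j, i < j → Disjoint (ball (cen i) (rd i)) (ball (cen j) (rd j)) := by
    intro i j hij
    apply ball_disjoint_ball
    rw [dist_eq_norm]
    unfold cen rd
    rw [← Complex.ofReal_sub, Complex.norm_real, Real.norm_eq_abs]
    have h1 : (1 / 16 : ℝ) ^ j ≤ (1 / 16) ^ (i + 1) :=
      pow_le_pow_of_le_one (by norm_num) (by norm_num) hij
    have h0 : (0 : ℝ) < (1 / 16) ^ i := by positivity
    rw [pow_succ] at h1 ⊢
    rw [pow_succ]
    refine le_trans ?_ (le_abs_self _)
    linarith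
  intro i j hij
  rcases lt_or_gt_of_ne hij with h | h
  · exact key i j h
  · exact (key j i h).symm

/-- The Lipschitz quasiconformal map. -/
noncomputable def qcMap : ℂ → ℂ := glue cen rd (fun j => aff (cen j) (rd j) (Gm j j))

lemma nice_qcMap : Nice 12 qcMap := by
  have hout : ∀ (i : ℕ) (z : ℂ), z ∉ ball (cen i) (rd i) →
      aff (cen i) (rd i) (Gm i i) z = z := by
    intro i z hz
    refine aff_out (ρ := 1) (rd_pos i) (nice_G i).out z ?_
    rw [mem_ball, not_lt, dist_eq_norm] at hz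
    rw [mul_one]
    exact hz
  have hnorm : ∀ (j : ℕ) (z : ℂ), z ∈ ball (cen j) (rd j) → ‖z‖ < (1 / 16) ^ j := by
    intro j z hz
    rw [mem_ball, dist_eq_norm] at hz
    have h1 := norm_sub_norm_le z (cen j)
    unfold cen rd at *
    rw [Complex.norm_real, Real.norm_eq_abs, abs_of_pos (by positivity)] at h1
    rw [pow_succ] at hz
    have h0 : (0 : ℝ) < (1 / 16) ^ j := by positivity
    linarith
  refine ⟨fun z hz => ?_, ?_, ?_, ?_⟩
  · apply glue_out
    intro j hj
    have h1 := hnorm j z hj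
    have h2 : (1 / 16 : ℝ) ^ j ≤ 1 := pow_le_one₀ (by norm_num) (by norm_num)
    linarith
  · exact glue_bij cen_disj hout fun i => aff_bij (rd_pos i) (nice_G i).bij
  · exact glue_lip cen_disj hout (by norm_num) fun i x y => aff_lip (rd_pos i) (nice_G i).lip x y
  · refine glue_AQ cen_disj (fun i => aff_AQ (rd_pos i) (nice_G i).aq) ?_
    have h0 : ∀ᵐ z : ℂ, z ∉ ({0} : Set ℂ) := (Set.countable_singleton 0).ae_notMem _
    filter_upwards [ae_all_iff.2 fun j => ae_norm_sub_ne (cen j) (r := rd j), h0] with z h1 h2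
    by_cases hex : ∃ i, z ∈ ball (cen i) (rd i)
    · exact Or.inl hex
    · right
      push Not at hex
      have hc : ∀ i, z ∉ closedBall (cen i) (rd i) := by
        intro i hi
        rw [mem_closedBall] at hi
        rcases hi.lt_or_eq with h4 | h4
        · exact hex i h4
        · exact h1 i h4
      have hz0 : 0 < ‖z‖ := norm_pos_iff.2 h2
      obtain ⟨N, hN⟩ := exists_pow_lt_of_lt_one (half_pos hz0) (by norm_num : (1 / 16 : ℝ) < 1)
      have h5 : ∀ᶠ w in 𝓝 z, ∀ i ∈ Finset.range N, w ∉ ball (cen i) (rd i) := by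
        rw [Filter.eventually_all_finset]
        intro i _
        filter_upwards [isClosed_closedBall.isOpen_compl.mem_nhds (hc i)] with w hw hwi
        exact hw (ball_subset_closedBall hwi)
      have h6 : ∀ᶠ w in 𝓝 z, ‖z‖ / 2 < ‖w‖ :=
        (isOpen_lt continuous_const continuous_norm).mem_nhds (by
          change ‖z‖ / 2 < ‖z‖
          linarith)
      filter_upwards [h5, h6] with w h7 h8 i hi
      rcases lt_or_ge i N with h9 | h9
      · exact h7 i (Finset.mem_range.2 h9) hi
      · have h10 := hnorm i w hi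
        have h11 : (1 / 16 : ℝ) ^ i ≤ (1 / 16) ^ N :=
          pow_le_pow_of_le_one (by norm_num) (by norm_num) h9
        linarith

lemma continuous_of_nice {L : ℝ} {g : ℂ → ℂ} (h : Nice L g) : Continuous g :=
  (LipschitzWith.of_dist_le' h.lip).continuous

lemma isHomeomorph_of_nice {L : ℝ} {g : ℂ → ℂ} (h : Nice L g) : IsHomeomorph g := by
  rw [isHomeomorph_iff_continuous_isClosedMap_bijective]
  refine ⟨continuous_of_nice h, ?_, h.bij⟩
  apply IsProperMap.isClosedMap
  rw [isProperMap_iff_tendsto_cocompact]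
  refine ⟨continuous_of_nice h, ?_⟩
  refine tendsto_id.congr' ?_
  have h1 : (closedBall (0 : ℂ) 1)ᶜ ∈ cocompact ℂ := (isCompact_closedBall 0 1).compl_mem_cocompact
  filter_upwards [h1] with z hz
  rw [mem_compl_iff, mem_closedBall_zero_iff, not_le] at hz
  exact (h.out z hz.le).symm

end Q91.QC
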