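import Mathlib
import Pool.Agent.Q91.QCExample

/-!
# Assouad dimension of a set and of its image
-/

open Set Filter Topology Metric MeasureTheory
open scoped NNReal ENNReal ComplexConjugate

namespace Q91.QC

/-- The least number of sets of diameter at most `r` needed to cover `A`. -/
noncomputable def coverNum (r : ℝ) (A : Set ℂ) : ℕ∞ :=
  ⨅ (T : Set (Set ℂ)) (_ : (∀ U ∈ T, ediam U ≤ ENNReal.ofReal r) ∧ A ⊆ ⋃₀ T), T.encard

/-- The Assouad dimension. -/
noncomputable def dimA (E : Set ℂ) : ℝ≥0∞ :=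
  ⨅ (α : ℝ≥0) (_ : ∃ C : ℝ, 0 < C ∧ ∀ x ∈ E, ∀ r R : ℝ, 0 < r → r < R →
    ((coverNum r (ball x R ∩ E) : ℕ∞) : ℝ≥0∞) ≤ ENNReal.ofReal (C * (R / r) ^ (α : ℝ))), (α : ℝ≥0∞)

/-! ### The set -/

/-- The points of the set `E`. -/
inductive InE : ℂ → Prop
  | zero : InE 0
  | step (i : ℤ) (hi : i = -1 ∨ i = 0 ∨ i = 1) (z : ℂ) : InE z → InE (i / 2 + (1 / 16 : ℝ) • z)

/-- The set `E`. -/
def E : Set ℂ := {z | InE z}

lemma E_cases {z : ℂ} (hz : InE z) : ∃ i : ℤ, (i = -1 ∨ i = 0 ∨ i = 1) ∧ ∃ z', InE z' ∧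
    z = i / 2 + (1 / 16 : ℝ) • z' := by
  cases hz with
  | zero => exact ⟨0, by simp, 0, InE.zero, by simp⟩
  | step i hi z' hz' => exact ⟨i, hi, z', hz', rfl⟩

lemma norm_digit {i : ℤ} (hi : i = -1 ∨ i = 0 ∨ i = 1) : ‖(i : ℂ) / 2‖ ≤ 1 / 2 := by
  rcases hi with rfl | rfl | rfl <;> simp

lemma norm_digit_sub {i j : ℤ} (hij : i ≠ j) : 1 / 2 ≤ ‖(i : ℂ) / 2 - (j : ℂ) / 2‖ := by
  have h1 : (i : ℂ) / 2 - (j : ℂ) / 2 = (((i - j : ℤ) : ℝ) / 2 : ℝ) := by push_cast; ring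
  rw [h1, Complex.norm_real, Real.norm_eq_abs, abs_div, ← Int.cast_abs, abs_two]
  have h2 : 1 ≤ |i - j| := Int.one_le_abs (sub_ne_zero.2 hij)
  have h3 : (1 : ℝ) ≤ ((|i - j| : ℤ) : ℝ) := by exact_mod_cast h2
  linarith

lemma norm_E {z : ℂ} (hz : InE z) : ‖z‖ ≤ 8 / 15 := by
  induction hz with
  | zero => norm_num
  | step i hi z hz ih =>
    refine (norm_add_le _ _).trans ?_
    rw [norm_smul, Real.norm_of_nonneg (by norm_num)]
    have := norm_digit hi
    linarith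

lemma cover_E (K : ℕ) : ∃ T : Set (Set ℂ), T.encard ≤ 3 ^ K ∧
    (∀ U ∈ T, ediam U ≤ ENNReal.ofReal (16 / 15 * (1 / 16) ^ K)) ∧ E ⊆ ⋃₀ T := by
  induction K with
  | zero =>
    refine ⟨{closedBall 0 (8 / 15)}, by simp, ?_, ?_⟩
    · intro U hU
      rw [mem_singleton_iff] at hU
      rw [hU]
      refine Metric.ediam_le fun x hx y hy => ?_
      rw [edist_dist]
      apply ENNReal.ofReal_le_ofReal
      rw [mem_closedBall_zero_iff] at hx hy
      rw [dist_eq_norm, pow_zero]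
      have := norm_sub_le x y
      linarith
    · intro z hz
      exact ⟨_, mem_singleton _, mem_closedBall_zero_iff.2 (norm_E hz)⟩
  | succ K ih =>
    obtain ⟨T, h1, h2, h3⟩ := ih
    obtain ⟨F, hF⟩ : ∃ F : ℤ → Set ℂ → Set ℂ,
      F = fun (i : ℤ) (U : Set ℂ) => (fun z : ℂ => (i : ℂ) / 2 + (1 / 16 : ℝ) • z) '' U :=
      ⟨_, rfl⟩
    refine ⟨F (-1) '' T ∪ (F 0 '' T ∪ F 1 '' T), ?_, ?_, ?_⟩
    · have h4 := encard_image_le (F (-1)) T
      have h5 := encard_image_le (F 0) T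
      have h6 := encard_image_le (F 1) T
      refine (encard_union_le _ _).trans ?_
      refine (add_le_add le_rfl (encard_union_le _ _)).trans ?_
      calc (F (-1) '' T).encard + ((F 0 '' T).encard + (F 1 '' T).encard)
          ≤ 3 ^ K + (3 ^ K + 3 ^ K) :=
            add_le_add (h4.trans h1) (add_le_add (h5.trans h1) (h6.trans h1))
        _ = 3 ^ (K + 1) := by rw [pow_succ]; ring
    · have key : ∀ i : ℤ, ∀ U ∈ F i '' T,
          ediam U ≤ ENNReal.ofReal (16 / 15 * (1 / 16) ^ (K + 1)) := by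
        rintro i _ ⟨U, hU, rfl⟩
        rw [hF]
        have hlip : LipschitzWith (1 / 16) (fun z : ℂ => (i : ℂ) / 2 + (1 / 16 : ℝ) • z) := by
          refine LipschitzWith.of_dist_le_mul fun x y => ?_
          rw [dist_add_left, dist_smul₀]
          norm_num
        refine (hlip.ediam_image_le U).trans ?_
        refine (mul_le_mul_right (h2 U hU) _).trans ?_
        have e : ((1 / 16 : ℝ≥0) : ℝ≥0∞) = ENNReal.ofReal (1 / 16) := by
          rw [ENNReal.ofReal, Real.toNNReal_div (by norm_num)]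
          norm_num
        rw [e, ← ENNReal.ofReal_mul (by norm_num)]
        apply ENNReal.ofReal_le_ofReal
        rw [pow_succ]
        linarith
      rintro U (hU | hU | hU)
      · exact key _ U hU
      · exact key _ U hU
      · exact key _ U hU
    · intro z hz
      obtain ⟨i, hi, z', hz', rfl⟩ := E_cases hz
      obtain ⟨U, hU, hzU⟩ := h3 hz'
      have hmem : (i : ℂ) / 2 + (1 / 16 : ℝ) • z' ∈ F i U := by
        rw [hF]
        exact ⟨z', hzU, rfl⟩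
      rcases hi with rfl | rfl | rfl
      · exact ⟨F (-1) U, Or.inl ⟨U, hU, rfl⟩, hmem⟩
      · exact ⟨F 0 U, Or.inr (Or.inl ⟨U, hU, rfl⟩), hmem⟩
      · exact ⟨F 1 U, Or.inr (Or.inr ⟨U, hU, rfl⟩), hmem⟩

lemma local_E (l : ℕ) : ∀ x : ℂ, InE x → ∃ p : ℂ, ∀ y : ℂ, InE y →
    (∀ l' < l, dist y x < 13 / 30 * (1 / 16) ^ l') →
      ∃ y', InE y' ∧ y = p + ((1 / 16 : ℝ) ^ l) • y' := by
  induction l with
  | zero => exact fun x _ => ⟨0, fun y hy _ => ⟨y, hy, by simp⟩⟩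
  | succ l ih =>
    intro x hx
    obtain ⟨i, hi, x', hx', rfl⟩ := E_cases hx
    obtain ⟨p, hp⟩ := ih x' hx'
    refine ⟨i / 2 + (1 / 16 : ℝ) • p, fun y hy hd => ?_⟩
    obtain ⟨j, hj, y', hy', rfl⟩ := E_cases hy
    have hij : j = i := by
      by_contra hne
      have h1 := hd 0 (by omega)
      rw [pow_zero, mul_one, dist_eq_norm] at h1
      have h2 := norm_digit_sub hne
      have h3 : ‖(1 / 16 : ℝ) • x' - (1 / 16 : ℝ) • y'‖ ≤ 1 / 15 := by
        refine (norm_sub_le _ _).trans ?_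
        rw [norm_smul, norm_smul, Real.norm_of_nonneg (by norm_num)]
        have := norm_E hx'
        have := norm_E hy'
        linarith
      have h4 : (j : ℂ) / 2 - (i : ℂ) / 2 = ((j : ℂ) / 2 + (1 / 16 : ℝ) • y' -
          ((i : ℂ) / 2 + (1 / 16 : ℝ) • x')) + ((1 / 16 : ℝ) • x' - (1 / 16 : ℝ) • y') := by ring
      rw [h4] at h2
      have h5 := h2.trans (norm_add_le _ _)
      linarith
    subst hij
    obtain ⟨y'', hy'', h6⟩ := hp y' hy' (fun l' hl' => by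
      have h1 := hd (l' + 1) (by omega)
      rw [dist_add_left, dist_smul₀, Real.norm_of_nonneg (by norm_num), pow_succ] at h1
      linarith)
    refine ⟨y'', hy'', ?_⟩
    rw [h6, smul_add, smul_smul, ← pow_succ', add_assoc]

lemma dimA_E : dimA E ≤ ENNReal.ofReal (2 / 5) := by
  have hnn : ENNReal.ofReal (2 / 5) = (((2 / 5 : ℝ).toNNReal : ℝ≥0) : ℝ≥0∞) := rfl
  rw [hnn]
  unfold dimA
  refine iInf₂_le_of_le _ ⟨40, by norm_num, ?_⟩ le_rfl
  intro x hx r R hr hrR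
  rw [Real.coe_toNNReal _ (by norm_num)]
  have hR : 0 < R := hr.trans hrR
  -- the levels
  have hex : ∀ c s : ℝ, 0 < c → 0 < s → ∃ k : ℕ, c * (1 / 16) ^ k ≤ s := by
    intro c s hc hs
    obtain ⟨k, hk⟩ := exists_pow_lt_of_lt_one (div_pos hs hc) (by norm_num : (1 / 16 : ℝ) < 1)
    rw [lt_div_iff₀ hc] at hk
    exact ⟨k, by linarith⟩
  classical
  obtain ⟨k, hk1, hk2⟩ : ∃ k : ℕ, 16 / 15 * (1 / 16) ^ k ≤ r ∧
      ∀ k' < k, r < 16 / 15 * (1 / 16) ^ k' := by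
    have h := hex (16 / 15) r (by norm_num) hr
    exact ⟨Nat.find h, Nat.find_spec h, fun k' hk' => not_le.1 (Nat.find_min h hk')⟩
  obtain ⟨l, hl1, hl2⟩ : ∃ l : ℕ, 13 / 30 * (1 / 16) ^ l ≤ R ∧
      ∀ l' < l, R < 13 / 30 * (1 / 16) ^ l' := by
    have h := hex (13 / 30) R (by norm_num) hR
    exact ⟨Nat.find h, Nat.find_spec h, fun k' hk' => not_le.1 (Nat.find_min h hk')⟩
  obtain ⟨p, hp⟩ := local_E l x hx
  obtain ⟨T, hT1, hT2, hT3⟩ := cover_E (k - l)
  obtain ⟨F, hF⟩ : ∃ F : Set ℂ → Set ℂ,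
    F = fun U => (fun z : ℂ => p + ((1 / 16 : ℝ) ^ l) • z) '' U := ⟨_, rfl⟩
  have hcov : coverNum r (ball x R ∩ E) ≤ 3 ^ (k - l) := by
    refine (iInf₂_le (F '' T) ⟨?_, ?_⟩).trans ((encard_image_le F T).trans hT1)
    · rintro _ ⟨U, hU, rfl⟩
      rw [hF]
      have hlip : LipschitzWith ((1 / 16) ^ l) (fun z : ℂ => p + ((1 / 16 : ℝ) ^ l) • z) := by
        refine LipschitzWith.of_dist_le_mul fun x y => ?_
        rw [dist_add_left, dist_smul₀, Real.norm_of_nonneg (by positivity)]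
        push_cast
        exact le_rfl
      refine (hlip.ediam_image_le U).trans ?_
      refine (mul_le_mul_right (hT2 U hU) _).trans ?_
      have e : (((1 / 16 : ℝ≥0) ^ l : ℝ≥0) : ℝ≥0∞) = ENNReal.ofReal ((1 / 16) ^ l) := by
        rw [ENNReal.ofReal]
        congr 1
        rw [Real.toNNReal_pow (by norm_num), Real.toNNReal_div (by norm_num)]
        norm_num
      rw [e, ← ENNReal.ofReal_mul (by positivity)]
      apply ENNReal.ofReal_le_ofReal
      refine le_trans (le_of_eq ?_) (le_trans (mul_le_mul_of_nonneg_left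
        (pow_le_pow_of_le_one (by norm_num) (by norm_num) (show k ≤ l + (k - l) by omega))
        (by norm_num : (0 : ℝ) ≤ 16 / 15)) hk1)
      rw [pow_add]
      ring
    · rintro y ⟨hy1, hy2⟩
      obtain ⟨y', hy', rfl⟩ := hp y hy2 fun l' hl' => (mem_ball.1 hy1).trans (hl2 l' hl')
      obtain ⟨U, hU, hyU⟩ := hT3 hy'
      refine ⟨F U, ⟨U, hU, rfl⟩, ?_⟩
      rw [hF]
      exact ⟨y', hyU, rfl⟩
  have hcov' : ((coverNum r (ball x R ∩ E) : ℕ∞) : ℝ≥0∞) ≤ ENNReal.ofReal (3 ^ (k - l)) := by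
    have h1 : ((coverNum r (ball x R ∩ E) : ℕ∞) : ℝ≥0∞) ≤ (((3 ^ (k - l) : ℕ) : ℕ∞) : ℝ≥0∞) := by
      rw [ENat.toENNReal_le]
      refine hcov.trans (le_of_eq ?_)
      push_cast
      rfl
    refine h1.trans (le_of_eq ?_)
    rw [ENat.toENNReal_coe]
    rw [← ENNReal.ofReal_natCast]
    congr 1
    push_cast
    rfl
  refine hcov'.trans (ENNReal.ofReal_le_ofReal ?_)
  have hratio : 1 ≤ R / r := by rw [one_le_div hr]; exact hrR.le
  rcases le_or_gt k l with hkl | hkl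
  · rw [Nat.sub_eq_zero_of_le hkl, pow_zero]
    have := Real.one_le_rpow hratio (by norm_num : (0 : ℝ) ≤ 2 / 5)
    linarith
  · have h1 := hk2 (k - 1) (by omega)
    obtain ⟨m, rfl⟩ : ∃ m, k = l + m + 1 := ⟨k - l - 1, by omega⟩
    rw [show l + m + 1 - 1 = l + m by omega] at h1
    rw [show l + m + 1 - l = m + 1 by omega]
    have h2 : (13 / 512 : ℝ) * 16 ^ (m + 1) ≤ R / r := by
      rw [le_div_iff₀ hr]
      have e : (16 : ℝ) ^ (m + 1) * (1 / 16) ^ (l + m) = 16 * (1 / 16) ^ l := by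
        rw [pow_succ, pow_add]
        have : (16 : ℝ) ^ m * (1 / 16) ^ m = 1 := by rw [← mul_pow]; norm_num
        linear_combination (16 * (1 / 16) ^ l : ℝ) * this
      have h3 : (13 / 512 : ℝ) * 16 ^ (m + 1) * r ≤
          13 / 512 * 16 ^ (m + 1) * (16 / 15 * (1 / 16) ^ (l + m)) :=
        mul_le_mul_of_nonneg_left h1.le (by positivity)
      refine h3.trans (le_trans (le_of_eq ?_) hl1)
      linear_combination (13 / 512 * (16 / 15) : ℝ) * e
    have h3 : (3 : ℝ) ≤ 16 ^ (2 / 5 : ℝ) := by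
      refine le_of_pow_le_pow_left₀ (n := 5) (by norm_num) (Real.rpow_nonneg (by norm_num) _) ?_
      rw [← Real.rpow_natCast ((16 : ℝ) ^ (2 / 5 : ℝ)), ← Real.rpow_mul (by norm_num),
        show (2 / 5 : ℝ) * ((5 : ℕ) : ℝ) = ((2 : ℕ) : ℝ) by norm_num, Real.rpow_natCast]
      norm_num
    have h4 : (1 / 40 : ℝ) ≤ (13 / 512 : ℝ) ^ (2 / 5 : ℝ) := by
      have := Real.rpow_le_rpow_of_exponent_ge (x := 13 / 512) (y := 1) (z := 2 / 5)
        (by norm_num) (by norm_num) (by norm_num)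
      rw [Real.rpow_one] at this
      exact le_trans (by norm_num) this
    have h5 : (13 / 512 : ℝ) ^ (2 / 5 : ℝ) * ((16 : ℝ) ^ (2 / 5 : ℝ)) ^ (m + 1) ≤
        (R / r) ^ (2 / 5 : ℝ) := by
      have := Real.rpow_le_rpow (by positivity) h2 (by norm_num : (0 : ℝ) ≤ 2 / 5)
      refine le_trans (le_of_eq ?_) this
      rw [Real.mul_rpow (by norm_num) (by positivity), ← Real.rpow_natCast _ (m + 1),
        ← Real.rpow_mul (by norm_num), ← Real.rpow_natCast (16 : ℝ), ← Real.rpow_mul (by norm_num),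
        mul_comm (2 / 5 : ℝ)]
    have h6 : (3 : ℝ) ^ (m + 1) ≤ ((16 : ℝ) ^ (2 / 5 : ℝ)) ^ (m + 1) :=
      pow_le_pow_left₀ (by norm_num) h3 _
    have h7 : (1 / 40 : ℝ) * 3 ^ (m + 1) ≤ (13 / 512 : ℝ) ^ (2 / 5 : ℝ) *
        ((16 : ℝ) ^ (2 / 5 : ℝ)) ^ (m + 1) := mul_le_mul h4 h6 (by positivity) (by positivity)
    linarith

end Q91.QC
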