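import Mathlib
import Pool.Agent.Q91.AssouadEx

/-!
# The image has larger Assouad dimension
-/

open Set Filter Topology Metric MeasureTheory
open scoped NNReal ENNReal ComplexConjugate

namespace Q91.QC

/-- Signs. -/
def sn (b : Bool) : ℝ := if b then 1 else -1

lemma abs_sn (b : Bool) : |sn b| = 1 := by cases b <;> simp [sn]

/-- Points of Cantor sets. -/
noncomputable def pt (α : ℝ) : (m : ℕ) → (Fin m → Bool) → ℝ
  | 0, _ => 0
  | (m + 1), w => sn (w 0) / 2 + α * pt α m (fun i => w i.succ)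

lemma pt_succ (α : ℝ) (m : ℕ) (w : Fin (m + 1) → Bool) :
    pt α (m + 1) w = sn (w 0) / 2 + α * pt α m (fun i => w i.succ) := rfl

lemma abs_pt {α : ℝ} (h0 : 0 ≤ α) (h : α ≤ 1 / 4) (m : ℕ) (w : Fin m → Bool) :
    |pt α m w| ≤ 2 / 3 := by
  induction m with
  | zero => simp [pt]; norm_num
  | succ m ih =>
    rw [pt_succ]
    refine (abs_add_le _ _).trans ?_
    rw [abs_div, abs_sn, abs_mul, abs_of_nonneg h0, abs_two]
    have h1 := ih (fun i => w i.succ)
    have h2 : α * |pt α m (fun i => w i.succ)| ≤ 1 / 4 * (2 / 3) :=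
      mul_le_mul h h1 (abs_nonneg _) (by norm_num)
    linarith

lemma sep_pt (m : ℕ) (w w' : Fin m → Bool) (h : w ≠ w') :
    8 / 3 * (1 / 4) ^ m ≤ |pt (1 / 4) m w - pt (1 / 4) m w'| := by
  induction m with
  | zero => exact absurd (Subsingleton.elim w w') h
  | succ m ih =>
    rw [pt_succ, pt_succ]
    by_cases h0 : w 0 = w' 0
    · have h1 : (fun i : Fin m => w i.succ) ≠ fun i => w' i.succ := by
        intro h2
        apply h
        funext i
        refine Fin.cases h0 (fun i => congrFun h2 i) i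
      have h2 := ih _ _ h1
      rw [h0, add_sub_add_left_eq_sub, ← mul_sub, abs_mul, abs_of_pos (by norm_num), pow_succ]
      linarith
    · have h1 : |sn (w 0) / 2 - sn (w' 0) / 2| = 1 := by
        cases h2 : w 0 <;> cases h3 : w' 0
        · rw [h2, h3] at h0; exact absurd rfl h0
        · simp [sn]; norm_num
        · simp [sn]; norm_num
        · rw [h2, h3] at h0; exact absurd rfl h0
      have h2 := abs_pt (by norm_num) le_rfl m (fun i => w i.succ)
      have h3 := abs_pt (by norm_num) le_rfl m (fun i => w' i.succ)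
      obtain ⟨A, hA⟩ : ∃ A, A = pt (1 / 4) m (fun i => w i.succ) := ⟨_, rfl⟩
      obtain ⟨B, hB⟩ : ∃ B, B = pt (1 / 4) m (fun i => w' i.succ) := ⟨_, rfl⟩
      rw [← hA] at h2 ⊢
      rw [← hB] at h3 ⊢
      have h4 := abs_sub_abs_le_abs_sub (sn (w 0) / 2 - sn (w' 0) / 2) (-(1 / 4 * A - 1 / 4 * B))
      rw [h1, abs_neg] at h4
      have h5 : |1 / 4 * A - 1 / 4 * B| ≤ 1 / 3 := by
        rw [abs_le] at h2 h3 ⊢
        constructor <;> linarith [h2.1, h2.2, h3.1, h3.2]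
      have h6 : sn (w 0) / 2 - sn (w' 0) / 2 - -(1 / 4 * A - 1 / 4 * B) =
          sn (w 0) / 2 + 1 / 4 * A - (sn (w' 0) / 2 + 1 / 4 * B) := by ring
      rw [h6] at h4
      have h7 : (1 / 4 : ℝ) ^ (m + 1) ≤ 1 / 4 := by
        rw [pow_succ]
        have : (1 / 4 : ℝ) ^ m ≤ 1 := pow_le_one₀ (by norm_num) (by norm_num)
        linarith
      linarith

lemma ctr_eq (b : Bool) : ctr b = ((sn b / 2 : ℝ) : ℂ) := by
  unfold ctr sn
  cases b
  · simp
    norm_num
  · simp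

lemma Sp_pt (m : ℕ) (w : Fin m → Bool) :
    Sp m ((pt (1 / 16) m w : ℝ) : ℂ) = ((pt (1 / 4) m w : ℝ) : ℂ) := by
  induction m with
  | zero => simp [pt, Sp]
  | succ m ih =>
    have hP := abs_pt (α := 1 / 16) (by norm_num) (by norm_num) m (fun i => w i.succ)
    have hih := ih (fun i => w i.succ)
    obtain ⟨P, hPdef⟩ : ∃ P : ℝ, P = pt (1 / 16) m (fun i => w i.succ) := ⟨_, rfl⟩
    have e : ((pt (1 / 16) (m + 1) w : ℝ) : ℂ) = ctr (w 0) + (1 / 16 : ℝ) • (P : ℂ) := by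
      rw [pt_succ, ctr_eq, ← hPdef, Complex.real_smul]
      push_cast
      ring
    rw [← hPdef] at hP hih
    have hsm : ‖(1 / 16 : ℝ) • (P : ℂ)‖ < 1 / 16 := by
      rw [norm_smul, Complex.norm_real, Real.norm_eq_abs, Real.norm_eq_abs,
        abs_of_pos (by norm_num)]
      linarith
    have hmem : ctr (w 0) + (1 / 16 : ℝ) • (P : ℂ) ∈
        ball (ctr (w 0)) ((fun _ : Bool => (1 / 2 : ℝ)) (w 0)) := by
      rw [mem_ball, dist_eq_norm, add_sub_cancel_left]
      linarith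
    change spread (Sp m) _ = _
    unfold spread
    rw [e, glue_mem ctr_disj hmem]
    unfold aff
    rw [add_sub_cancel_left, inv_one, one_smul, one_smul, H_in hsm, smul_smul]
    norm_num
    rw [hih, pt_succ, ctr_eq]
    push_cast
    ring

lemma Gm_pt (m n : ℕ) {P : ℂ} (hP : ‖P‖ < 1) :
    Gm m n (((1 / 16 : ℝ) ^ n) • P) = ((1 / 64 : ℝ) ^ n) • Sp m P := by
  induction n with
  | zero => simp [Gm]
  | succ n ih =>
    have h0 : (1 / 16 : ℝ) ^ n ≤ 1 := pow_le_one₀ (by norm_num) (by norm_num)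
    have hn : ‖((1 / 16 : ℝ) ^ (n + 1)) • P‖ < 1 / 16 := by
      rw [norm_smul, Real.norm_of_nonneg (by positivity), pow_succ]
      have h1 : (0 : ℝ) < (1 / 16) ^ n := by positivity
      nlinarith [norm_nonneg P]
    change H φc (1 / 64) (Gm m n) _ = _
    rw [H_in hn, smul_smul]
    have e : (16 : ℝ) * (1 / 16) ^ (n + 1) = (1 / 16) ^ n := by rw [pow_succ]; ring
    rw [e, ih, smul_smul, ← pow_succ']

lemma qcMap_pt (j : ℕ) {P : ℂ} (hP : ‖P‖ < 1) :
    qcMap (cen j + rd j • (((1 / 16 : ℝ) ^ j) • P)) = cen j + rd j • (((1 / 64 : ℝ) ^ j) • Sp j P) := by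
  have h0 : (1 / 16 : ℝ) ^ j ≤ 1 := pow_le_one₀ (by norm_num) (by norm_num)
  have h1 : (0 : ℝ) < (1 / 16) ^ j := by positivity
  have hmem : cen j + rd j • (((1 / 16 : ℝ) ^ j) • P) ∈ ball (cen j) (rd j) := by
    rw [mem_ball, dist_eq_norm, add_sub_cancel_left, norm_smul, Real.norm_of_nonneg (rd_pos j).le,
      norm_smul, Real.norm_of_nonneg h1.le]
    have h2 : (1 / 16 : ℝ) ^ j * ‖P‖ < 1 := by nlinarith [norm_nonneg P]
    have := mul_lt_mul_of_pos_left h2 (rd_pos j)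
    linarith
  unfold qcMap
  rw [glue_mem cen_disj hmem]
  unfold aff
  rw [add_sub_cancel_left, inv_smul_smul₀ (rd_pos j).ne', Gm_pt j j hP]

lemma InE_smul {z : ℂ} (hz : InE z) (n : ℕ) : InE (((1 / 16 : ℝ) ^ n) • z) := by
  induction n with
  | zero => simpa using hz
  | succ n ih =>
    have h := InE.step 0 (by simp) _ ih
    rw [smul_smul, ← pow_succ'] at h
    simpa using h

lemma InE_pt (m : ℕ) (w : Fin m → Bool) : InE ((pt (1 / 16) m w : ℝ) : ℂ) := by
  induction m with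
  | zero =>
    have : ((pt (1 / 16) 0 w : ℝ) : ℂ) = 0 := by simp [pt]
    rw [this]
    exact InE.zero
  | succ m ih =>
    rw [pt_succ]
    cases h : w 0
    · have h1 := InE.step (-1) (by simp) _ (ih fun i => w i.succ)
      rw [Complex.real_smul] at h1
      simp only [sn]
      push_cast at h1 ⊢
      exact h1
    · have h1 := InE.step 1 (by simp) _ (ih fun i => w i.succ)
      rw [Complex.real_smul] at h1
      simp only [sn]
      push_cast at h1 ⊢
      exact h1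

lemma InE_X (j : ℕ) {P : ℂ} (hP : InE P) :
    InE (cen j + rd j • (((1 / 16 : ℝ) ^ j) • P)) := by
  have h1 := InE_smul (InE.step 1 (by simp) _ (InE_smul hP j)) j
  have e : ((1 / 16 : ℝ) ^ j) • (((1 : ℤ) : ℂ) / 2 + (1 / 16 : ℝ) • (((1 / 16 : ℝ) ^ j) • P)) =
      cen j + rd j • (((1 / 16 : ℝ) ^ j) • P) := by
    unfold cen rd
    rw [smul_add, smul_smul, ← pow_succ]
    congr 1
    rw [Complex.real_smul]
    push_cast
    ring
  rwa [e] at h1

lemma two_pow_le (j : ℕ) {lam : ℝ} (hlam : 0 < lam) {c : ℂ} {S : Set ℂ}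
    (hS : ∀ w : Fin j → Bool, c + lam • ((pt (1 / 4) j w : ℝ) : ℂ) ∈ S) (w₀ : Fin j → Bool) :
    ((2 ^ j : ℕ) : ℕ∞) ≤ coverNum (lam * (1 / 4) ^ j)
      (ball (c + lam • ((pt (1 / 4) j w₀ : ℝ) : ℂ)) (2 * lam) ∩ S) := by
  obtain ⟨Y, hY⟩ : ∃ Y : (Fin j → Bool) → ℂ, Y = fun w => c + lam • ((pt (1 / 4) j w : ℝ) : ℂ) :=
    ⟨_, rfl⟩
  have hdist : ∀ w w', dist (Y w) (Y w') = lam * |pt (1 / 4) j w - pt (1 / 4) j w'| := by
    intro w w'
    rw [hY]
    simp only
    rw [dist_add_left, dist_smul₀, Real.norm_of_nonneg hlam.le, Complex.dist_of_im_eq (by simp)]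
    rw [Complex.ofReal_re, Complex.ofReal_re, Real.dist_eq]
  refine le_iInf₂ fun T hT => ?_
  obtain ⟨hT1, hT2⟩ := hT
  have hex : ∀ w, ∃ U ∈ T, Y w ∈ U := by
    intro w
    have hw : Y w ∈ ball (c + lam • ((pt (1 / 4) j w₀ : ℝ) : ℂ)) (2 * lam) ∩ S := by
      refine ⟨?_, ?_⟩
      · rw [mem_ball]
        have e : c + lam • ((pt (1 / 4) j w₀ : ℝ) : ℂ) = Y w₀ := by rw [hY]
        rw [e, hdist]
        have h1 := abs_pt (α := 1 / 4) (by norm_num) le_rfl j w
        have h2 := abs_pt (α := 1 / 4) (by norm_num) le_rfl j w₀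
        have h3 : |pt (1 / 4) j w - pt (1 / 4) j w₀| ≤ 4 / 3 := by
          rw [abs_le] at h1 h2 ⊢
          constructor <;> linarith [h1.1, h1.2, h2.1, h2.2]
        nlinarith
      · rw [hY]
        exact hS w
    obtain ⟨U, hU, hwU⟩ := hT2 hw
    exact ⟨U, hU, hwU⟩
  choose U hU1 hU2 using hex
  have hinj : Function.Injective U := by
    intro w w' h
    by_contra hne
    have h1 : edist (Y w) (Y w') ≤ ENNReal.ofReal (lam * (1 / 4) ^ j) :=
      (Metric.edist_le_ediam_of_mem (hU2 w) (h ▸ hU2 w')).trans (hT1 _ (hU1 w))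
    rw [edist_dist, ENNReal.ofReal_le_ofReal_iff (by positivity), hdist] at h1
    have h2 := mul_le_mul_of_nonneg_left (sep_pt j w w' hne) hlam.le
    have h3 : (0 : ℝ) < lam * (1 / 4) ^ j := by positivity
    linarith
  have h1 : (univ : Set (Fin j → Bool)).encard ≤ T.encard :=
    Set.encard_le_encard_of_injOn (f := U) (fun w _ => hU1 w) hinj.injOn
  rw [Set.encard_univ, ENat.card_eq_coe_fintype_card] at h1
  simpa using h1

lemma half_le : ENNReal.ofReal (1 / 2) ≤ dimA (qcMap '' E) := by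
  unfold dimA
  refine le_iInf₂ fun α hα => ?_
  obtain ⟨C, hC, h⟩ := hα
  have hcoe : (α : ℝ≥0∞) = ENNReal.ofReal (α : ℝ) := (ENNReal.ofReal_coe_nnreal).symm
  rw [hcoe]
  apply ENNReal.ofReal_le_ofReal
  by_contra hcon
  push Not at hcon
  have key : ∀ j : ℕ, (2 : ℝ) ^ j ≤ C * (2 * 4 ^ j) ^ (α : ℝ) := by
    intro j
    have hlam : 0 < rd j * (1 / 64) ^ j := mul_pos (rd_pos j) (by positivity)
    have hS : ∀ w : Fin j → Bool,
        cen j + (rd j * (1 / 64) ^ j) • ((pt (1 / 4) j w : ℝ) : ℂ) ∈ qcMap '' E := by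
      intro w
      have hP : ‖((pt (1 / 16) j w : ℝ) : ℂ)‖ < 1 := by
        rw [Complex.norm_real, Real.norm_eq_abs]
        have := abs_pt (α := 1 / 16) (by norm_num) (by norm_num) j w
        linarith
      refine ⟨cen j + rd j • (((1 / 16 : ℝ) ^ j) • ((pt (1 / 16) j w : ℝ) : ℂ)),
        InE_X j (InE_pt j w), ?_⟩
      rw [qcMap_pt j hP, Sp_pt, smul_smul]
    have h1 := two_pow_le j hlam hS fun _ => true
    have hr : 0 < rd j * (1 / 64) ^ j * (1 / 4) ^ j := by positivity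
    have h2 := h _ (hS fun _ => true) (rd j * (1 / 64) ^ j * (1 / 4) ^ j)
      (2 * (rd j * (1 / 64) ^ j)) hr (by
        have h3 : (1 / 4 : ℝ) ^ j ≤ 1 := pow_le_one₀ (by norm_num) (by norm_num)
        nlinarith)
    have h3 : (((2 ^ j : ℕ) : ℕ∞) : ℝ≥0∞) ≤ ENNReal.ofReal (C * (2 * (rd j * (1 / 64) ^ j) /
        (rd j * (1 / 64) ^ j * (1 / 4) ^ j)) ^ (α : ℝ)) :=
      (ENat.toENNReal_le.2 h1).trans h2
    rw [ENat.toENNReal_coe, ← ENNReal.ofReal_natCast, ENNReal.ofReal_le_ofReal_iff (by positivity)]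
      at h3
    have e : 2 * (rd j * (1 / 64) ^ j) / (rd j * (1 / 64) ^ j * (1 / 4) ^ j) = 2 * 4 ^ j := by
      rw [div_eq_iff hr.ne']
      have : (4 : ℝ) ^ j * (1 / 4) ^ j = 1 := by rw [← mul_pow]; norm_num
      linear_combination (-(2 * (rd j * (1 / 64) ^ j))) * this
    rw [e] at h3
    push_cast at h3
    exact h3
  have h4 : (4 : ℝ) ^ (α : ℝ) < 2 := by
    have h5 : (4 : ℝ) ^ (α : ℝ) < 4 ^ (1 / 2 : ℝ) :=
      Real.rpow_lt_rpow_of_exponent_lt (by norm_num) hcon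
    have h6 : (4 : ℝ) ^ (1 / 2 : ℝ) = 2 := by
      rw [← Real.sqrt_eq_rpow, show (4 : ℝ) = 2 ^ 2 by norm_num, Real.sqrt_sq (by norm_num)]
    linarith
  have h40 : (0 : ℝ) < (4 : ℝ) ^ (α : ℝ) := Real.rpow_pos_of_pos (by norm_num) _
  have h5 : ∀ j : ℕ, (2 / (4 : ℝ) ^ (α : ℝ)) ^ j ≤ C * 2 ^ (α : ℝ) := by
    intro j
    have h6 := key j
    rw [Real.mul_rpow (by norm_num) (by positivity), ← Real.rpow_natCast 4 j,
      ← Real.rpow_mul (by norm_num), mul_comm (j : ℝ), Real.rpow_mul (by norm_num),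
      Real.rpow_natCast] at h6
    rw [div_pow, div_le_iff₀ (by positivity)]
    linarith
  have h6 := tendsto_pow_atTop_atTop_of_one_lt (show 1 < 2 / (4 : ℝ) ^ (α : ℝ) by
    rw [one_lt_div h40]; exact h4)
  obtain ⟨j, hj⟩ := (h6.eventually_gt_atTop (C * 2 ^ (α : ℝ))).exists
  linarith [h5 j]

end Q91.QC
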