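import Pool.Agent.Q91.BC_ODE2a

/-!
# Project BC of helper82, job ODE2 (helper91), part 2: bounds and the theorem
-/

set_option autoImplicit false

open MeasureTheory Filter Topology Set
open Pool.Agent.Q82.BB (chi mu lam IsSh cv Nl Good UU Tower ode_I ode_J ode_exp_deriv ode_exp_deriv'
  ode_expmul ode_sh_cont1 ode_ch_cont1 ode_one ode_chi_one ode_lam_sq ode_lam_ge ode_sq4
  ode_lam_nonneg)

namespace Pool.Agent.Q82.BC

lemma ode2_er_nonneg (ξ τ : ℝ) : 0 ≤ er ξ τ := (Real.exp_pos _).le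

lemma ode2_er_le_one (ξ τ : ℝ) : er ξ τ ≤ 1 := by
  unfold er
  refine Real.exp_le_one_iff.2 ?_
  have : 0 ≤ Real.sqrt τ * |ξ| / 16 := by positivity
  linarith

lemma ode2_er_anti {a τ : ℝ} (ξ : ℝ) (h : a ≤ τ) : er ξ τ ≤ er ξ a := by
  unfold er
  refine Real.exp_le_exp.2 ?_
  have h1 := mul_le_mul_of_nonneg_right (Real.sqrt_le_sqrt h) (abs_nonneg ξ)
  linarith

lemma ode2_w_bd {T : ℝ} {w : ℝ → ℝ → ℂ} {Cs : ℕ → ℝ} (hA : Adm2 T w Cs) (ξ : ℝ) {τ : ℝ}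
    (hτ : τ ∈ Ioc 0 T) : ‖w ξ τ‖ ≤ Cs 0 * ((1 + |ξ|) * er ξ τ) := by
  have := hA.2.2.2 0 ξ τ hτ
  rwa [iteratedDeriv_zero] at this

lemma ode2_g_bd (h1 : S_CVB2) {T : ℝ} {w : ℝ → ℝ → ℂ} {Cs : ℕ → ℝ} (hA : Adm2 T w Cs) :
    ∃ K : ℝ, 0 ≤ K ∧ ∀ ξ : ℝ, ∀ τ ∈ Ioc 0 T,
      ‖cv w w ξ τ‖ ≤ K * (er ξ τ * ((1 + |ξ|) ^ 3 + (τ * Real.sqrt τ)⁻¹)) := by
  obtain ⟨K, hK, h⟩ := h1
  have hC := hA.2.2.1 0
  refine ⟨K * Cs 0 * Cs 0, by positivity, fun ξ τ hτ => ?_⟩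
  have hc : Continuous fun η => w η τ := (hA.1 τ hτ 0).continuous
  exact (h (fun η => w η τ) (fun η => w η τ) (Cs 0) (Cs 0) τ hτ.1 hC hC hc hc
    (fun η => ode2_w_bd hA η hτ) (fun η => ode2_w_bd hA η hτ) ξ).2

lemma ode2_w_cont {T : ℝ} {w : ℝ → ℝ → ℂ} {Cs : ℕ → ℝ} (hA : Adm2 T w Cs) :
    ContinuousOn (fun q : ℝ × ℝ => w q.1 q.2) (univ ×ˢ Ioc 0 T) := by
  have := hA.2.1 0
  simpa only [iteratedDeriv_zero] using this

lemma ode2_g_cont (h2 : S_CVD2) {T : ℝ} {w : ℝ → ℝ → ℂ} {Cs : ℕ → ℝ} (hT : 0 < T)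
    (hA : Adm2 T w Cs) : ContinuousOn (fun q : ℝ × ℝ => cv w w q.1 q.2) (univ ×ˢ Ioc 0 T) := by
  have := (h2 T w Cs hT hA).2.2 0
  simpa only [iteratedDeriv_zero] using this

lemma ode2_sinh_le {x : ℝ} (hx : 0 ≤ x) : Real.sinh x ≤ x * Real.exp x := by
  rw [Real.sinh_eq]
  have h1 := Real.add_one_le_exp (-(2 * x))
  have h2 : Real.exp (-x) = Real.exp x * Real.exp (-(2 * x)) := by
    rw [← Real.exp_add]
    congr 1
    ring
  rw [h2]
  have h3 := mul_le_mul_of_nonneg_left h1 (Real.exp_pos x).le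
  nlinarith

lemma ode2_int {T l K R : ℝ} {g : ℝ → ℂ} (hl : 0 ≤ l) (hK : 0 ≤ K) (hg : ContinuousOn g (Ioc 0 T))
    (hb : ∀ s ∈ Ioc 0 T, ‖g s‖ ≤ K * (R + (s * Real.sqrt s)⁻¹)) {τ : ℝ} (hτ : τ ∈ Ioc 0 T) :
    IntervalIntegrable (fun s => (Real.sinh (l * s) : ℂ) * g s) volume 0 τ := by
  have hdom : IntervalIntegrable
      (fun s : ℝ => l * Real.exp (l * T) * (K * (R * s + s ^ (-(1 / 2) : ℝ)))) volume 0 τ := by
    refine IntervalIntegrable.const_mul (IntervalIntegrable.const_mul (IntervalIntegrable.add ?_ ?_) _) _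
    · exact (by fun_prop : Continuous fun s : ℝ => R * s).intervalIntegrable _ _
    · exact intervalIntegral.intervalIntegrable_rpow' (by norm_num)
  refine hdom.mono_fun' ?_ ?_
  · rw [uIoc_of_le hτ.1.le]
    refine ContinuousOn.aestronglyMeasurable ?_ measurableSet_Ioc
    exact (Complex.continuous_ofReal.comp (by fun_prop : Continuous fun s : ℝ =>
      Real.sinh (l * s))).continuousOn.mul (hg.mono (Ioc_subset_Ioc_right hτ.2))
  · rw [uIoc_of_le hτ.1.le]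
    refine (ae_restrict_iff' measurableSet_Ioc).2 (ae_of_all _ fun s hs => ?_)
    have hs0 : 0 < s := hs.1
    have hsT : s ≤ T := hs.2.trans hτ.2
    have hls : 0 ≤ l * s := by positivity
    simp only
    rw [norm_mul, Complex.norm_real, Real.norm_of_nonneg (Real.sinh_nonneg_iff.2 hls)]
    have e1 : Real.sinh (l * s) ≤ l * s * Real.exp (l * T) := by
      refine (ode2_sinh_le hls).trans (mul_le_mul_of_nonneg_left ?_ hls)
      exact Real.exp_le_exp.2 (mul_le_mul_of_nonneg_left hsT hl)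
    have e2 := hb s ⟨hs0, hsT⟩
    have e3 : s ^ (-(1 / 2) : ℝ) = (Real.sqrt s)⁻¹ := by
      rw [Real.rpow_neg hs0.le, Real.sqrt_eq_rpow]
    have e4 : s * (R + (s * Real.sqrt s)⁻¹) = R * s + s ^ (-(1 / 2) : ℝ) := by
      rw [e3]
      have : Real.sqrt s ≠ 0 := (Real.sqrt_pos.2 hs0).ne'
      field_simp
    calc Real.sinh (l * s) * ‖g s‖ ≤ (l * s * Real.exp (l * T)) * (K * (R + (s * Real.sqrt s)⁻¹)) :=
          mul_le_mul e1 e2 (norm_nonneg _) (by positivity)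
      _ = l * Real.exp (l * T) * (K * (s * (R + (s * Real.sqrt s)⁻¹))) := by ring
      _ = _ := by rw [e4]

lemma ode2_poly (N : ℕ) {c : ℝ} (hc : 0 < c) : ∃ C : ℝ, 0 ≤ C ∧ ∀ x : ℝ, 0 ≤ x →
    (1 + x) ^ N * Real.exp (-(c * x)) ≤ C * Real.exp (-(c / 2 * x)) := by
  refine ⟨(N.factorial : ℝ) / (c / 2) ^ N * Real.exp (c / 2), by positivity, fun x hx => ?_⟩
  have h1 := Real.pow_div_factorial_le_exp (c / 2 * (1 + x)) (by positivity) N
  have h2 : (1 + x) ^ N ≤ (N.factorial : ℝ) / (c / 2) ^ N * Real.exp (c / 2 * (1 + x)) := by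
    rw [mul_pow, div_le_iff₀ (by positivity)] at h1
    rw [div_mul_eq_mul_div, le_div_iff₀ (by positivity)]
    linarith
  calc (1 + x) ^ N * Real.exp (-(c * x)) ≤
        ((N.factorial : ℝ) / (c / 2) ^ N * Real.exp (c / 2 * (1 + x))) * Real.exp (-(c * x)) :=
        mul_le_mul_of_nonneg_right h2 (Real.exp_pos _).le
    _ = _ := by
        rw [mul_assoc, mul_assoc, ← Real.exp_add, ← Real.exp_add]
        congr 2
        ring

lemma ode2_good_of {T : ℝ} {G : ℝ → ℝ → ℂ}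
    (hc : ContinuousOn (fun q : ℝ × ℝ => G q.1 q.2) (univ ×ˢ Ioc 0 T))
    (hb : ∀ a : ℝ, 0 < a → ∃ (C : ℝ) (N : ℕ), 0 ≤ C ∧ ∀ ξ : ℝ, ∀ τ ∈ Icc a T,
      ‖G ξ τ‖ ≤ C * ((1 + |ξ|) ^ N * er ξ a)) : Good T G := by
  refine ⟨hc.mono (prod_mono_right Ioo_subset_Ioc_self), fun a b ha hbT => ?_⟩
  obtain ⟨C, N, hC, h⟩ := hb a ha
  have hs : 0 < Real.sqrt a / 16 := by
    have := Real.sqrt_pos.2 ha
    positivity
  obtain ⟨C', hC', h'⟩ := ode2_poly N hs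
  refine ⟨Real.sqrt a / 16 / 2, C * C', by positivity, fun ξ τ hτ => ?_⟩
  refine (h ξ τ ⟨hτ.1, hτ.2.trans hbT.le⟩).trans ?_
  rw [mul_assoc]
  refine mul_le_mul_of_nonneg_left ?_ hC
  have := h' |ξ| (abs_nonneg _)
  refine le_trans (le_of_eq ?_) this
  unfold er
  congr 2
  ring

lemma ode2_taylor {T : ℝ} {w w1 F : ℝ → ℂ} (hF : ContinuousOn F (Ioo 0 T))
    (hd : ∀ τ ∈ Ioo 0 T, HasDerivAt w (w1 τ) τ) (hd1 : ∀ τ ∈ Ioo 0 T, HasDerivAt w1 (F τ) τ)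
    {τ δ : ℝ} (hτ : 0 < τ) (hδ : 0 ≤ δ) (hT : τ + δ < T) :
    (δ : ℂ) * w1 τ = w (τ + δ) - w τ - ∫ u in (0 : ℝ)..δ, ((δ - u : ℝ) : ℂ) * F (τ + u) := by
  have hmem : ∀ u ∈ uIcc 0 δ, τ + u ∈ Ioo 0 T := by
    intro u hu
    rw [uIcc_of_le hδ] at hu
    exact ⟨by linarith [hu.1], by linarith [hu.2]⟩
  have key : ∀ u ∈ uIcc 0 δ, HasDerivAt (fun u => w (τ + u) + ((δ - u : ℝ) : ℂ) * w1 (τ + u))
      (((δ - u : ℝ) : ℂ) * F (τ + u)) u := by
    intro u hu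
    have hm := hmem u hu
    have a1 : HasDerivAt (fun u : ℝ => τ + u) 1 u := by
      simpa using (hasDerivAt_id u).const_add τ
    have b1 : HasDerivAt (fun u : ℝ => w (τ + u)) ((1 : ℝ) • w1 (τ + u)) u :=
      (hd _ hm).scomp u a1
    have b2 : HasDerivAt (fun u : ℝ => w1 (τ + u)) ((1 : ℝ) • F (τ + u)) u :=
      (hd1 _ hm).scomp u a1
    have b3 : HasDerivAt (fun u : ℝ => ((δ - u : ℝ) : ℂ)) (((-1 : ℝ)) : ℂ) u := by
      have : HasDerivAt (fun u : ℝ => δ - u) (-1) u := by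
        simpa using (hasDerivAt_id u).const_sub δ
      exact this.ofReal_comp
    refine (b1.add (b3.mul b2)).congr_deriv ?_
    simp only [one_smul]
    push_cast
    ring
  have hint : IntervalIntegrable (fun u => ((δ - u : ℝ) : ℂ) * F (τ + u)) volume 0 δ := by
    refine ContinuousOn.intervalIntegrable ?_
    refine ContinuousOn.mul (by fun_prop) ?_
    exact hF.comp (by fun_prop) hmem
  rw [intervalIntegral.integral_eq_sub_of_hasDerivAt key hint]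
  simp only [sub_self, add_zero, sub_zero, Complex.ofReal_zero, zero_mul]
  ring

lemma ode2_good {T : ℝ} {w w1 F : ℝ → ℝ → ℂ} (hw : Good T w) (hF : Good T F)
    (hd : ∀ ξ : ℝ, ∀ τ ∈ Ioo 0 T, HasDerivAt (fun τ => w ξ τ) (w1 ξ τ) τ)
    (hd1 : ∀ ξ : ℝ, ∀ τ ∈ Ioo 0 T, HasDerivAt (fun τ => w1 ξ τ) (F ξ τ) τ) : Good T w1 := by
  have hFξ : ∀ ξ, ContinuousOn (F ξ) (Ioo 0 T) := fun ξ =>
    hF.1.comp (f := fun s : ℝ => (ξ, s)) (by fun_prop) fun s hs => ⟨mem_univ _, hs⟩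
  constructor
  · intro q hq
    obtain ⟨ξ₀, τ₀⟩ := q
    have h0 : 0 < τ₀ := hq.2.1
    have hT0 : τ₀ < T := hq.2.2
    set b : ℝ := (τ₀ + T) / 2 with hb
    set δ : ℝ := (T - b) / 2 with hδ
    have hδ0 : 0 < δ := by rw [hδ, hb]; linarith
    have hbT : b + δ < T := by rw [hδ]; linarith
    have hbτ : τ₀ < b := by rw [hb]; linarith
    set cl : ℝ → ℝ := fun s => max (τ₀ / 2) (min s (b + δ)) with hcl
    have hclc : Continuous cl := by
      rw [hcl]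
      fun_prop
    have hclm : ∀ s, cl s ∈ Ioo 0 T := by
      intro s
      refine ⟨lt_of_lt_of_le (by linarith) (le_max_left _ _), ?_⟩
      exact max_lt (by linarith) (lt_of_le_of_lt (min_le_right _ _) hbT)
    have hFc : Continuous fun q : ℝ × ℝ => F q.1 (cl q.2) :=
      hF.1.comp_continuous (f := fun q : ℝ × ℝ => (q.1, cl q.2)) (by fun_prop)
        fun q => ⟨mem_univ _, hclm _⟩
    have hwc : Continuous fun q : ℝ × ℝ => w q.1 (cl q.2) :=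
      hw.1.comp_continuous (f := fun q : ℝ × ℝ => (q.1, cl q.2)) (by fun_prop)
        fun q => ⟨mem_univ _, hclm _⟩
    have hIc : Continuous fun q : ℝ × ℝ =>
        ∫ u in (0 : ℝ)..δ, ((δ - u : ℝ) : ℂ) * F q.1 (cl (q.2 + u)) := by
      refine intervalIntegral.continuous_parametric_intervalIntegral_of_continuous'
        (f := fun (q : ℝ × ℝ) (u : ℝ) => ((δ - u : ℝ) : ℂ) * F q.1 (cl (q.2 + u))) ?_ 0 δ
      have h1 : Continuous fun q : (ℝ × ℝ) × ℝ => F q.1.1 (cl (q.1.2 + q.2)) :=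
        hFc.comp (by fun_prop : Continuous fun q : (ℝ × ℝ) × ℝ => (q.1.1, q.1.2 + q.2))
      have h2 : Continuous fun q : (ℝ × ℝ) × ℝ => ((δ - q.2 : ℝ) : ℂ) := by fun_prop
      exact h2.mul h1
    have hwδ : Continuous fun q : ℝ × ℝ => w q.1 (cl (q.2 + δ)) :=
      hwc.comp (by fun_prop : Continuous fun q : ℝ × ℝ => (q.1, q.2 + δ))
    have hR : Continuous fun q : ℝ × ℝ => (δ : ℂ)⁻¹ * (w q.1 (cl (q.2 + δ)) - w q.1 (cl q.2) -
        ∫ u in (0 : ℝ)..δ, ((δ - u : ℝ) : ℂ) * F q.1 (cl (q.2 + u))) :=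
      continuous_const.mul ((hwδ.sub hwc).sub hIc)
    refine ContinuousAt.continuousWithinAt (ContinuousAt.congr hR.continuousAt ?_)
    have hopen : IsOpen (univ ×ˢ Ioo (τ₀ / 2) b : Set (ℝ × ℝ)) := isOpen_univ.prod isOpen_Ioo
    filter_upwards [hopen.mem_nhds ⟨mem_univ _, by linarith, hbτ⟩] with q hq
    obtain ⟨ξ, τ⟩ := q
    have h1 : τ₀ / 2 < τ := hq.2.1
    have h2 : τ < b := hq.2.2
    have hcl1 : ∀ s, s ∈ Icc (τ₀ / 2) (b + δ) → cl s = s := by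
      intro s hs
      rw [hcl]
      simp only
      rw [min_eq_left hs.2, max_eq_right hs.1]
    have ht := ode2_taylor (hFξ ξ) (hd ξ) (hd1 ξ) (by linarith : 0 < τ) hδ0.le
      (by linarith : τ + δ < T)
    simp only
    rw [hcl1 _ ⟨by linarith, by linarith⟩, hcl1 _ ⟨by linarith, by linarith⟩]
    have hI : ∫ u in (0 : ℝ)..δ, ((δ - u : ℝ) : ℂ) * F ξ (cl (τ + u)) =
        ∫ u in (0 : ℝ)..δ, ((δ - u : ℝ) : ℂ) * F ξ (τ + u) := by
      refine intervalIntegral.integral_congr fun u hu => ?_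
      rw [uIcc_of_le hδ0.le] at hu
      rw [hcl1 _ ⟨by linarith [hu.1], by linarith [hu.2]⟩]
    rw [hI, ← ht, inv_mul_cancel_left₀ (Complex.ofReal_ne_zero.2 hδ0.ne')]
  · intro a b ha hb
    set δ : ℝ := (T - b) / 2 with hδ
    have hδ0 : 0 < δ := by rw [hδ]; linarith
    have hbT : b + δ < T := by rw [hδ]; linarith
    obtain ⟨c1, C1, hc1, h1⟩ := hw.2 a (b + δ) ha hbT
    obtain ⟨c2, C2, hc2, h2⟩ := hF.2 a (b + δ) ha hbT
    refine ⟨min c1 c2, δ⁻¹ * (2 * |C1| + δ * |C2| * δ), lt_min hc1 hc2, fun ξ τ hτ => ?_⟩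
    set E : ℝ := Real.exp (-(min c1 c2 * |ξ|)) with hE
    have e1 : Real.exp (-(c1 * |ξ|)) ≤ E := Real.exp_le_exp.2 (neg_le_neg
      (mul_le_mul_of_nonneg_right (min_le_left _ _) (abs_nonneg _)))
    have e2 : Real.exp (-(c2 * |ξ|)) ≤ E := Real.exp_le_exp.2 (neg_le_neg
      (mul_le_mul_of_nonneg_right (min_le_right _ _) (abs_nonneg _)))
    have hE0 : 0 < E := Real.exp_pos _
    have hτ0 : 0 < τ := ha.trans_le hτ.1
    have hwb : ∀ s ∈ Icc a (b + δ), ‖w ξ s‖ ≤ |C1| * E := fun s hs =>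
      (h1 ξ s hs).trans ((mul_le_mul_of_nonneg_right (le_abs_self _) (Real.exp_pos _).le).trans
        (mul_le_mul_of_nonneg_left e1 (abs_nonneg _)))
    have hFb : ∀ s ∈ Icc a (b + δ), ‖F ξ s‖ ≤ |C2| * E := fun s hs =>
      (h2 ξ s hs).trans ((mul_le_mul_of_nonneg_right (le_abs_self _) (Real.exp_pos _).le).trans
        (mul_le_mul_of_nonneg_left e2 (abs_nonneg _)))
    have ht := ode2_taylor (hFξ ξ) (hd ξ) (hd1 ξ) hτ0 hδ0.le (by linarith [hτ.2] : τ + δ < T)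
    have hI : ‖∫ u in (0 : ℝ)..δ, ((δ - u : ℝ) : ℂ) * F ξ (τ + u)‖ ≤ δ * (|C2| * E) * |δ - 0| := by
      refine intervalIntegral.norm_integral_le_of_norm_le_const fun u hu => ?_
      rw [uIoc_of_le hδ0.le] at hu
      rw [norm_mul, Complex.norm_real, Real.norm_of_nonneg (by linarith [hu.2])]
      refine mul_le_mul (by linarith [hu.1]) (hFb _ ⟨?_, ?_⟩) (norm_nonneg _) hδ0.le
      · linarith [hτ.1, hu.1]
      · linarith [hτ.2, hu.2]
    have hn : ‖(δ : ℂ) * w1 ξ τ‖ ≤ (2 * |C1| + δ * |C2| * δ) * E := by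
      rw [ht]
      refine (norm_sub_le _ _).trans ?_
      have e3 := norm_sub_le (w ξ (τ + δ)) (w ξ τ)
      have e4 := hwb (τ + δ) ⟨by linarith [hτ.1], by linarith [hτ.2]⟩
      have e5 := hwb τ ⟨hτ.1, by linarith [hτ.2]⟩
      rw [sub_zero, abs_of_pos hδ0] at hI
      nlinarith
    rw [norm_mul, Complex.norm_real, Real.norm_of_nonneg hδ0.le] at hn
    have h3 : ‖w1 ξ τ‖ = δ⁻¹ * (δ * ‖w1 ξ τ‖) := by
      rw [inv_mul_cancel_left₀ hδ0.ne']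
    rw [h3, mul_assoc]
    exact mul_le_mul_of_nonneg_left hn (inv_nonneg.2 hδ0.le)

theorem ode2 (h1 : S_CVB2) (h2 : S_CVD2) (h3 : S_TI2) : S_ODE2 := by
  have _ := h3
  intro sh ch h T ε w Cs hT hA hw
  have hgc := ode2_g_cont h2 hT hA
  obtain ⟨K, hK, hgb⟩ := ode2_g_bd h1 hA
  have hg : ∀ ξ, ContinuousOn (fun s => cv w w ξ s) (Ioc 0 T) := fun ξ =>
    hgc.comp (f := fun s : ℝ => (ξ, s)) (by fun_prop) fun s hs => ⟨mem_univ _, hs⟩
  have hb : ∀ ξ, ∀ s ∈ Ioc 0 T, ‖cv w w ξ s‖ ≤ K * ((1 + |ξ|) ^ 3 + (s * Real.sqrt s)⁻¹) := by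
    intro ξ s hs
    refine (hgb ξ s hs).trans (mul_le_mul_of_nonneg_left ?_ hK)
    have h0 : 0 ≤ (1 + |ξ|) ^ 3 + (s * Real.sqrt s)⁻¹ := by
      have := hs.1
      positivity
    calc er ξ s * ((1 + |ξ|) ^ 3 + (s * Real.sqrt s)⁻¹) ≤
          1 * ((1 + |ξ|) ^ 3 + (s * Real.sqrt s)⁻¹) :=
          mul_le_mul_of_nonneg_right (ode2_er_le_one _ _) h0
      _ = _ := one_mul _
  have hi : ∀ ξ, ∀ τ ∈ Ioc 0 T, IntervalIntegrable
      (fun s => (Real.sinh (lam ξ * s) : ℂ) * cv w w ξ s) volume 0 τ := fun ξ τ hτ =>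
    ode2_int (ode_lam_nonneg ξ) hK (hg ξ) (hb ξ) hτ
  have hweq : ∀ ξ, ∀ τ ∈ Ioc 0 T, w ξ τ = (ode2_c ε ξ : ℂ) * (Real.exp (-(lam ξ * τ)) : ℂ) +
      ode2_NN sh ch T ξ (fun s => cv w w ξ s) τ := by
    intro ξ τ hτ
    have e1 : Nl T (kap2 sh) w ξ τ = ode2_NN sh ch T ξ (fun s => cv w w ξ s) τ :=
      ode2_Nl h (hg ξ) hτ (hi ξ τ hτ)
    rw [hw ξ τ hτ, e1]
    unfold w02 ode2_c
    push_cast
    ring
  have hd : ∀ ξ, ∀ τ ∈ Ioo 0 T, HasDerivAt (fun τ => w ξ τ)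
      (ode2_w1 sh ch T ε ξ (fun s => cv w w ξ s) τ) τ := by
    intro ξ τ hτ
    refine (ode2_w_deriv h (hg ξ) hτ (hi ξ τ ⟨hτ.1, hτ.2.le⟩)).congr_of_eventuallyEq ?_
    filter_upwards [isOpen_Ioo.mem_nhds hτ] with t ht
    exact hweq ξ t ⟨ht.1, ht.2.le⟩
  have hd1 : ∀ ξ, ∀ τ ∈ Ioo 0 T, HasDerivAt
      (fun τ => ode2_w1 sh ch T ε ξ (fun s => cv w w ξ s) τ)
      ((mu ξ : ℂ) * w ξ τ - (ξ : ℂ) ^ 2 * cv w w ξ τ) τ := by
    intro ξ τ hτ
    refine (ode2_w1_deriv (ε := ε) h (hg ξ) hτ (hi ξ τ ⟨hτ.1, hτ.2.le⟩)).congr_deriv ?_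
    rw [hweq ξ τ ⟨hτ.1, hτ.2.le⟩]
  have hwg : Good T w := by
    refine ode2_good_of (ode2_w_cont hA) fun a ha => ⟨Cs 0, 1, hA.2.2.1 0, fun ξ τ hτ => ?_⟩
    refine (ode2_w_bd hA ξ ⟨ha.trans_le hτ.1, hτ.2⟩).trans ?_
    rw [pow_one]
    exact mul_le_mul_of_nonneg_left (mul_le_mul_of_nonneg_left (ode2_er_anti ξ hτ.1)
      (by positivity)) (hA.2.2.1 0)
  have hFg : Good T (fun ξ τ => (mu ξ : ℂ) * w ξ τ - (ξ : ℂ) ^ 2 * cv w w ξ τ) := by
    refine ode2_good_of ?_ fun a ha => ?_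
    · have hm : Continuous fun q : ℝ × ℝ => (mu q.1 : ℂ) := by
        unfold mu
        fun_prop
      have hx : Continuous fun q : ℝ × ℝ => (q.1 : ℂ) ^ 2 := by fun_prop
      exact (hm.continuousOn.mul (ode2_w_cont hA)).sub (hx.continuousOn.mul hgc)
    · refine ⟨2 * Cs 0 + K * (1 + (a * Real.sqrt a)⁻¹), 5, ?_, fun ξ τ hτ => ?_⟩
      · have := hA.2.2.1 0
        positivity
      · have hτ' : τ ∈ Ioc 0 T := ⟨ha.trans_le hτ.1, hτ.2⟩
        have hC := hA.2.2.1 0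
        set y : ℝ := 1 + |ξ| with hy
        have hy1 : 1 ≤ y := by
          rw [hy]
          linarith [abs_nonneg ξ]
        have hE0 := ode2_er_nonneg ξ a
        have hsq : ξ ^ 2 ≤ y ^ 2 := by
          rw [← sq_abs]
          exact pow_le_pow_left₀ (abs_nonneg _) (by rw [hy]; linarith [abs_nonneg ξ]) 2
        have hmu : |mu ξ| ≤ 2 * y ^ 4 := by
          unfold mu
          have e1 : |ξ ^ 4 - ξ ^ 2| ≤ ξ ^ 4 + ξ ^ 2 := by
            rw [abs_le]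
            constructor <;> nlinarith [sq_nonneg ξ, sq_nonneg (ξ ^ 2)]
          have e2 : ξ ^ 4 ≤ y ^ 4 := by
            have := pow_le_pow_left₀ (sq_nonneg ξ) hsq 2
            nlinarith
          have e3 : y ^ 2 ≤ y ^ 4 := pow_le_pow_right₀ hy1 (by norm_num)
          linarith
        have hwb : ‖w ξ τ‖ ≤ Cs 0 * (y * er ξ a) :=
          (ode2_w_bd hA ξ hτ').trans (mul_le_mul_of_nonneg_left
            (mul_le_mul_of_nonneg_left (ode2_er_anti ξ hτ.1) (by positivity)) hC)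
        have hinv : (τ * Real.sqrt τ)⁻¹ ≤ (a * Real.sqrt a)⁻¹ := by
          have hsa := Real.sqrt_pos.2 ha
          refine inv_anti₀ (by positivity) ?_
          exact mul_le_mul hτ.1 (Real.sqrt_le_sqrt hτ.1) (Real.sqrt_nonneg _) hτ'.1.le
        have hia : 0 ≤ (a * Real.sqrt a)⁻¹ := by positivity
        have hgb' : ‖cv w w ξ τ‖ ≤ K * (er ξ a * (y ^ 3 * (1 + (a * Real.sqrt a)⁻¹))) := by
          refine (hgb ξ τ hτ').trans (mul_le_mul_of_nonneg_left ?_ hK)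
          refine mul_le_mul (ode2_er_anti ξ hτ.1) ?_ ?_ hE0
          · have hy3 : 1 ≤ y ^ 3 := one_le_pow₀ hy1
            nlinarith
          · have := hτ'.1
            positivity
        calc ‖(mu ξ : ℂ) * w ξ τ - (ξ : ℂ) ^ 2 * cv w w ξ τ‖ ≤
              ‖(mu ξ : ℂ) * w ξ τ‖ + ‖(ξ : ℂ) ^ 2 * cv w w ξ τ‖ := norm_sub_le _ _
          _ = |mu ξ| * ‖w ξ τ‖ + ξ ^ 2 * ‖cv w w ξ τ‖ := by
              rw [norm_mul, norm_mul, norm_pow, Complex.norm_real, Complex.norm_real,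
                Real.norm_eq_abs, Real.norm_eq_abs, sq_abs]
          _ ≤ (2 * y ^ 4) * (Cs 0 * (y * er ξ a)) +
              y ^ 2 * (K * (er ξ a * (y ^ 3 * (1 + (a * Real.sqrt a)⁻¹)))) :=
              add_le_add (mul_le_mul hmu hwb (norm_nonneg _) (by positivity))
                (mul_le_mul hsq hgb' (norm_nonneg _) (by positivity))
          _ = _ := by ring
  exact ⟨fun ξ τ => ode2_w1 sh ch T ε ξ (fun s => cv w w ξ s) τ, ode2_good hwg hFg hd hd1, hd, hd1⟩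

end Pool.Agent.Q82.BC
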