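import Pool.Agent.Q82.BC.Stm
import Pool.Agent.Q252.BB_ODEb

/-!
# Project BC of helper82, job ODE2 (helper91), part 1: a fixed frequency
-/

set_option autoImplicit false

open MeasureTheory Filter Topology Set
open Pool.Agent.Q82.BB (chi mu lam IsSh cv Nl Good UU Tower ode_I ode_J ode_exp_deriv ode_exp_deriv'
  ode_expmul ode_sh_cont1 ode_ch_cont1 ode_one ode_chi_one ode_lam_sq ode_lam_ge ode_sq4)

namespace Pool.Agent.Q82.BC

lemma ode2_I_deriv {T : ℝ} {f : ℝ → ℝ} {g : ℝ → ℂ} (hf : Continuous f)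
    (hg : ContinuousOn g (Ioc 0 T)) {τ : ℝ} (hτ : τ ∈ Ioo 0 T)
    (hi : IntervalIntegrable (fun s => (f s : ℂ) * g s) volume 0 τ) :
    HasDerivAt (ode_I f g) ((f τ : ℂ) * g τ) τ := by
  have hc : ContinuousOn (fun s => (f s : ℂ) * g s) (Ioo 0 T) :=
    (Complex.continuous_ofReal.comp hf).continuousOn.mul (hg.mono Ioo_subset_Ioc_self)
  exact intervalIntegral.integral_hasDerivAt_right hi
    (hc.stronglyMeasurableAtFilter isOpen_Ioo τ hτ) (hc.continuousAt (isOpen_Ioo.mem_nhds hτ))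

lemma ode2_J_int {T : ℝ} {f : ℝ → ℝ} {g : ℝ → ℂ} (hf : Continuous f)
    (hg : ContinuousOn g (Ioc 0 T)) {τ : ℝ} (hτ : τ ∈ Ioc 0 T) :
    IntervalIntegrable (fun s => (f s : ℂ) * g s) volume τ T := by
  refine ContinuousOn.intervalIntegrable ?_
  rw [uIcc_of_le hτ.2]
  refine (Complex.continuous_ofReal.comp hf).continuousOn.mul (hg.mono ?_)
  exact fun s hs => ⟨hτ.1.trans_le hs.1, hs.2⟩

lemma ode2_J_deriv {T : ℝ} {f : ℝ → ℝ} {g : ℝ → ℂ} (hf : Continuous f)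
    (hg : ContinuousOn g (Ioc 0 T)) {τ : ℝ} (hτ : τ ∈ Ioo 0 T) :
    HasDerivAt (ode_J T f g) (-((f τ : ℂ) * g τ)) τ := by
  have hc : ContinuousOn (fun s => (f s : ℂ) * g s) (Ioo 0 T) :=
    (Complex.continuous_ofReal.comp hf).continuousOn.mul (hg.mono Ioo_subset_Ioc_self)
  exact intervalIntegral.integral_hasDerivAt_left (ode2_J_int hf hg ⟨hτ.1, hτ.2.le⟩)
    (hc.stronglyMeasurableAtFilter isOpen_Ioo τ hτ) (hc.continuousAt (isOpen_Ioo.mem_nhds hτ))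

noncomputable def ode2_A (T l : ℝ) (g : ℝ → ℂ) (τ : ℝ) : ℂ :=
  (Real.exp (-(l * τ)) : ℂ) * ode_I (fun s => Real.sinh (l * s)) g τ +
    (Real.sinh (l * τ) : ℂ) * ode_J T (fun s => Real.exp (-(l * s))) g τ

noncomputable def ode2_A1 (T l : ℝ) (g : ℝ → ℂ) (τ : ℝ) : ℂ :=
  -((Real.exp (-(l * τ)) : ℂ) * ode_I (fun s => Real.sinh (l * s)) g τ) +
    (Real.cosh (l * τ) : ℂ) * ode_J T (fun s => Real.exp (-(l * s))) g τ

lemma ode2_sinh_deriv (l τ : ℝ) :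
    HasDerivAt (fun τ : ℝ => (Real.sinh (l * τ) : ℂ)) ((l : ℂ) * (Real.cosh (l * τ) : ℂ)) τ := by
  have h : HasDerivAt (fun τ : ℝ => Real.sinh (l * τ)) (Real.cosh (l * τ) * (l * 1)) τ :=
    ((hasDerivAt_id τ).const_mul l).sinh
  have h2 := h.ofReal_comp
  convert h2 using 1
  push_cast
  ring

lemma ode2_cosh_deriv (l τ : ℝ) :
    HasDerivAt (fun τ : ℝ => (Real.cosh (l * τ) : ℂ)) ((l : ℂ) * (Real.sinh (l * τ) : ℂ)) τ := by
  have h : HasDerivAt (fun τ : ℝ => Real.cosh (l * τ)) (Real.sinh (l * τ) * (l * 1)) τ :=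
    ((hasDerivAt_id τ).const_mul l).cosh
  have h2 := h.ofReal_comp
  convert h2 using 1
  push_cast
  ring

lemma ode2_hyp (l τ : ℝ) : (Real.exp (-(l * τ)) : ℂ) *
    ((Real.cosh (l * τ) : ℂ) + (Real.sinh (l * τ) : ℂ)) = 1 := by
  rw [← Complex.ofReal_add, Real.cosh_add_sinh]
  exact ode_expmul l τ

lemma ode2_A_deriv {T l : ℝ} {g : ℝ → ℂ} (hg : ContinuousOn g (Ioc 0 T)) {τ : ℝ} (hτ : τ ∈ Ioo 0 T)
    (hi : IntervalIntegrable (fun s => (Real.sinh (l * s) : ℂ) * g s) volume 0 τ) :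
    HasDerivAt (ode2_A T l g) ((l : ℂ) * ode2_A1 T l g τ) τ := by
  have h1 := ode2_I_deriv (f := fun s => Real.sinh (l * s)) (by fun_prop) hg hτ hi
  have h2 := ode2_J_deriv (f := fun s => Real.exp (-(l * s))) (by fun_prop) hg hτ
  have h : HasDerivAt (ode2_A T l g) _ τ :=
    ((ode_exp_deriv' l τ).mul h1).add ((ode2_sinh_deriv l τ).mul h2)
  refine h.congr_deriv ?_
  unfold ode2_A1
  ring

lemma ode2_A1_deriv {T l : ℝ} {g : ℝ → ℂ} (hg : ContinuousOn g (Ioc 0 T)) {τ : ℝ} (hτ : τ ∈ Ioo 0 T)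
    (hi : IntervalIntegrable (fun s => (Real.sinh (l * s) : ℂ) * g s) volume 0 τ) :
    HasDerivAt (ode2_A1 T l g) ((l : ℂ) * ode2_A T l g τ - g τ) τ := by
  have h1 := ode2_I_deriv (f := fun s => Real.sinh (l * s)) (by fun_prop) hg hτ hi
  have h2 := ode2_J_deriv (f := fun s => Real.exp (-(l * s))) (by fun_prop) hg hτ
  have h : HasDerivAt (ode2_A1 T l g) _ τ :=
    (((ode_exp_deriv' l τ).mul h1).neg).add ((ode2_cosh_deriv l τ).mul h2)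
  refine h.congr_deriv ?_
  have h3 := ode2_hyp l τ
  unfold ode2_A
  linear_combination (-g τ) * h3

noncomputable def ode2_B (T : ℝ) (sh ch : ℝ → ℝ → ℝ) (m : ℝ) (g : ℝ → ℂ) (τ : ℝ) : ℂ :=
  (ch m τ : ℂ) * ode_J T (sh m) g τ - (sh m τ : ℂ) * ode_J T (ch m) g τ

noncomputable def ode2_B1 (T : ℝ) (sh ch : ℝ → ℝ → ℝ) (m : ℝ) (g : ℝ → ℂ) (τ : ℝ) : ℂ :=
  (m : ℂ) * (sh m τ : ℂ) * ode_J T (sh m) g τ - (ch m τ : ℂ) * ode_J T (ch m) g τ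

lemma ode2_B_deriv {sh ch : ℝ → ℝ → ℝ} (h : IsSh sh ch) (m : ℝ) {T : ℝ} {g : ℝ → ℂ}
    (hg : ContinuousOn g (Ioc 0 T)) {τ : ℝ} (hτ : τ ∈ Ioo 0 T) :
    HasDerivAt (ode2_B T sh ch m g) (ode2_B1 T sh ch m g τ) τ := by
  have h1 := ode2_J_deriv (ode_ch_cont1 h m) hg hτ
  have h2 := ode2_J_deriv (ode_sh_cont1 h m) hg hτ
  have hs := (h.2.2.2.2.1 m τ).ofReal_comp
  have hc := (h.2.2.2.2.2.1 m τ).ofReal_comp
  have hh : HasDerivAt (ode2_B T sh ch m g) _ τ := (hc.mul h2).sub (hs.mul h1)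
  refine hh.congr_deriv ?_
  unfold ode2_B1
  push_cast
  ring

lemma ode2_B1_deriv {sh ch : ℝ → ℝ → ℝ} (h : IsSh sh ch) (m : ℝ) {T : ℝ} {g : ℝ → ℂ}
    (hg : ContinuousOn g (Ioc 0 T)) {τ : ℝ} (hτ : τ ∈ Ioo 0 T) :
    HasDerivAt (ode2_B1 T sh ch m g) ((m : ℂ) * ode2_B T sh ch m g τ + g τ) τ := by
  have h1 := ode2_J_deriv (ode_ch_cont1 h m) hg hτ
  have h2 := ode2_J_deriv (ode_sh_cont1 h m) hg hτ
  have hs := (h.2.2.2.2.1 m τ).ofReal_comp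
  have hc := (h.2.2.2.2.2.1 m τ).ofReal_comp
  have hh : HasDerivAt (ode2_B1 T sh ch m g) _ τ :=
    ((hs.const_mul (m : ℂ)).mul h2).sub (hc.mul h1)
  refine hh.congr_deriv ?_
  have h3 := ode_one h m τ
  unfold ode2_B
  push_cast
  linear_combination (g τ) * h3

/-- the kernel below the diagonal -/
lemma ode2_ker1 {sh ch : ℝ → ℝ → ℝ} (h : IsSh sh ch) {ξ τ s : ℝ} (hs : s ≤ τ) :
    kap2 sh ξ τ s = ξ ^ 2 * (1 - chi ξ) * Real.exp (-(lam ξ * τ)) / lam ξ *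
      Real.sinh (lam ξ * s) := by
  unfold kap2
  rw [max_eq_right (by linarith : s - τ ≤ 0), h.2.2.1, abs_of_nonneg (by linarith : 0 ≤ τ - s),
    Real.sinh_eq]
  have e1 : Real.exp (-(lam ξ * (τ - s))) = Real.exp (-(lam ξ * τ)) * Real.exp (lam ξ * s) := by
    rw [← Real.exp_add]
    congr 1
    ring
  have e2 : Real.exp (-(lam ξ * (τ + s))) = Real.exp (-(lam ξ * τ)) * Real.exp (-(lam ξ * s)) := by
    rw [← Real.exp_add]
    congr 1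
    ring
  rw [e1, e2]
  ring

/-- the kernel above the diagonal -/
lemma ode2_ker2 {sh ch : ℝ → ℝ → ℝ} (h : IsSh sh ch) {ξ τ s : ℝ} (hs : τ ≤ s) :
    kap2 sh ξ τ s = ξ ^ 2 * (1 - chi ξ) * Real.sinh (lam ξ * τ) / lam ξ * Real.exp (-(lam ξ * s)) -
      (ξ ^ 2 * chi ξ * ch (mu ξ) τ * sh (mu ξ) s - ξ ^ 2 * chi ξ * sh (mu ξ) τ * ch (mu ξ) s) := by
  unfold kap2
  rw [max_eq_left (by linarith : 0 ≤ s - τ), h.2.2.2.2.2.2.1,
    abs_of_nonpos (by linarith : τ - s ≤ 0), Real.sinh_eq]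
  have e1 : Real.exp (-(lam ξ * -(τ - s))) = Real.exp (lam ξ * τ) * Real.exp (-(lam ξ * s)) := by
    rw [← Real.exp_add]
    congr 1
    ring
  have e2 : Real.exp (-(lam ξ * (τ + s))) = Real.exp (-(lam ξ * τ)) * Real.exp (-(lam ξ * s)) := by
    rw [← Real.exp_add]
    congr 1
    ring
  rw [e1, e2]
  ring

/-- the nonlinear part in terms of the time integrals -/
noncomputable def ode2_NN (sh ch : ℝ → ℝ → ℝ) (T ξ : ℝ) (g : ℝ → ℂ) (τ : ℝ) : ℂ :=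
  (ξ : ℂ) ^ 2 * ((((1 - chi ξ) / lam ξ : ℝ) : ℂ) * ode2_A T (lam ξ) g τ -
    (chi ξ : ℂ) * ode2_B T sh ch (mu ξ) g τ)

lemma ode2_Nl {sh ch : ℝ → ℝ → ℝ} (h : IsSh sh ch) {T ξ τ : ℝ} {g : ℝ → ℂ}
    (hg : ContinuousOn g (Ioc 0 T)) (hτ : τ ∈ Ioc 0 T)
    (hi : IntervalIntegrable (fun s => (Real.sinh (lam ξ * s) : ℂ) * g s) volume 0 τ) :
    ∫ s in (0 : ℝ)..T, (kap2 sh ξ τ s : ℂ) * g s = ode2_NN sh ch T ξ g τ := by
  have hj1 := ode2_J_int (f := fun s => Real.exp (-(lam ξ * s))) (by fun_prop) hg hτ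
  have hj2 := ode2_J_int (ode_sh_cont1 h (mu ξ)) hg hτ
  have hj3 := ode2_J_int (ode_ch_cont1 h (mu ξ)) hg hτ
  set c1 : ℝ := ξ ^ 2 * (1 - chi ξ) * Real.exp (-(lam ξ * τ)) / lam ξ with hc1
  set c2 : ℝ := ξ ^ 2 * (1 - chi ξ) * Real.sinh (lam ξ * τ) / lam ξ with hc2
  set c3 : ℝ := ξ ^ 2 * chi ξ * ch (mu ξ) τ with hc3
  set c4 : ℝ := ξ ^ 2 * chi ξ * sh (mu ξ) τ with hc4
  have e1 : EqOn (fun s => (c1 : ℂ) * ((Real.sinh (lam ξ * s) : ℂ) * g s))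
      (fun s => (kap2 sh ξ τ s : ℂ) * g s) (uIoc 0 τ) := by
    intro s hs
    rw [uIoc_of_le hτ.1.le] at hs
    simp only
    rw [ode2_ker1 h hs.2, ← hc1]
    push_cast
    ring
  have e2 : EqOn (fun s => (c2 : ℂ) * ((Real.exp (-(lam ξ * s)) : ℂ) * g s) -
      ((c3 : ℂ) * ((sh (mu ξ) s : ℂ) * g s) - (c4 : ℂ) * ((ch (mu ξ) s : ℂ) * g s)))
      (fun s => (kap2 sh ξ τ s : ℂ) * g s) (uIoc τ T) := by
    intro s hs
    rw [uIoc_of_le hτ.2] at hs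
    simp only
    rw [ode2_ker2 h hs.1.le, ← hc2, ← hc3, ← hc4]
    push_cast
    ring
  have i1 := (intervalIntegrable_congr e1).1 (hi.const_mul (c1 : ℂ))
  have i2 := (intervalIntegrable_congr e2).1
    ((hj1.const_mul (c2 : ℂ)).sub ((hj2.const_mul (c3 : ℂ)).sub (hj3.const_mul (c4 : ℂ))))
  rw [← intervalIntegral.integral_add_adjacent_intervals i1 i2]
  have s1 : ∫ s in (0 : ℝ)..τ, (kap2 sh ξ τ s : ℂ) * g s =
      (c1 : ℂ) * ode_I (fun s => Real.sinh (lam ξ * s)) g τ := by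
    unfold ode_I
    rw [← intervalIntegral.integral_const_mul]
    exact (intervalIntegral.integral_congr_ae (ae_of_all _ fun s hs => e1 hs)).symm
  have s2 : ∫ s in τ..T, (kap2 sh ξ τ s : ℂ) * g s =
      (c2 : ℂ) * ode_J T (fun s => Real.exp (-(lam ξ * s))) g τ -
      ((c3 : ℂ) * ode_J T (sh (mu ξ)) g τ - (c4 : ℂ) * ode_J T (ch (mu ξ)) g τ) := by
    unfold ode_J
    rw [← intervalIntegral.integral_const_mul, ← intervalIntegral.integral_const_mul,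
      ← intervalIntegral.integral_const_mul,
      ← intervalIntegral.integral_sub (hj2.const_mul (c3 : ℂ)) (hj3.const_mul (c4 : ℂ)),
      ← intervalIntegral.integral_sub (hj1.const_mul (c2 : ℂ))
        ((hj2.const_mul (c3 : ℂ)).sub (hj3.const_mul (c4 : ℂ)))]
    exact (intervalIntegral.integral_congr_ae (ae_of_all _ fun s hs => e2 hs)).symm
  rw [s1, s2]
  unfold ode2_NN ode2_A ode2_B
  rw [hc1, hc2, hc3, hc4]
  push_cast
  ring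

/-- the coefficient of the linear part -/
noncomputable def ode2_c (ε ξ : ℝ) : ℝ := ε * (1 - chi ξ) * |ξ|

/-- the derivative -/
noncomputable def ode2_w1 (sh ch : ℝ → ℝ → ℝ) (T ε ξ : ℝ) (g : ℝ → ℂ) (τ : ℝ) : ℂ :=
  -((lam ξ : ℂ) * ((ode2_c ε ξ : ℂ) * (Real.exp (-(lam ξ * τ)) : ℂ))) +
  (ξ : ℂ) ^ 2 * (((1 - chi ξ : ℝ) : ℂ) * ode2_A1 T (lam ξ) g τ -
    (chi ξ : ℂ) * ode2_B1 T sh ch (mu ξ) g τ)

lemma ode2_ratio (ξ : ℝ) : (((1 - chi ξ) / lam ξ : ℝ) : ℂ) * (lam ξ : ℂ) =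
    ((1 - chi ξ : ℝ) : ℂ) := by
  rw [← Complex.ofReal_mul]
  congr 1
  rcases le_or_gt |ξ| 2 with h | h
  · rw [ode_chi_one h]
    simp
  · have h1 := ode_lam_ge h.le
    have h2 := ode_sq4 h.le
    have h3 : 0 < lam ξ := by linarith
    field_simp

lemma ode2_w_deriv {sh ch : ℝ → ℝ → ℝ} (h : IsSh sh ch) {T ε ξ : ℝ} {g : ℝ → ℂ}
    (hg : ContinuousOn g (Ioc 0 T)) {τ : ℝ} (hτ : τ ∈ Ioo 0 T)
    (hi : IntervalIntegrable (fun s => (Real.sinh (lam ξ * s) : ℂ) * g s) volume 0 τ) :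
    HasDerivAt (fun τ => (ode2_c ε ξ : ℂ) * (Real.exp (-(lam ξ * τ)) : ℂ) +
      ode2_NN sh ch T ξ g τ) (ode2_w1 sh ch T ε ξ g τ) τ := by
  have h0 := (ode_exp_deriv' (lam ξ) τ).const_mul (ode2_c ε ξ : ℂ)
  have h1 := (ode2_A_deriv hg hτ hi).const_mul (((1 - chi ξ) / lam ξ : ℝ) : ℂ)
  have h2 := (ode2_B_deriv h (mu ξ) hg hτ).const_mul (chi ξ : ℂ)
  have h3 := h0.add ((h1.sub h2).const_mul ((ξ : ℂ) ^ 2))
  refine HasDerivAt.congr_deriv (f := fun τ => (ode2_c ε ξ : ℂ) * (Real.exp (-(lam ξ * τ)) : ℂ) +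
      ode2_NN sh ch T ξ g τ) h3 ?_
  unfold ode2_w1
  rw [← mul_assoc (((1 - chi ξ) / lam ξ : ℝ) : ℂ), ode2_ratio]
  ring

lemma ode2_w1_deriv {sh ch : ℝ → ℝ → ℝ} (h : IsSh sh ch) {T ε ξ : ℝ} {g : ℝ → ℂ}
    (hg : ContinuousOn g (Ioc 0 T)) {τ : ℝ} (hτ : τ ∈ Ioo 0 T)
    (hi : IntervalIntegrable (fun s => (Real.sinh (lam ξ * s) : ℂ) * g s) volume 0 τ) :
    HasDerivAt (ode2_w1 sh ch T ε ξ g) ((mu ξ : ℂ) * ((ode2_c ε ξ : ℂ) *
      (Real.exp (-(lam ξ * τ)) : ℂ) + ode2_NN sh ch T ξ g τ) - (ξ : ℂ) ^ 2 * g τ) τ := by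
  have h0 := (((ode_exp_deriv' (lam ξ) τ).const_mul (ode2_c ε ξ : ℂ)).const_mul (lam ξ : ℂ)).neg
  have h1 := (ode2_A1_deriv hg hτ hi).const_mul ((1 - chi ξ : ℝ) : ℂ)
  have h2 := (ode2_B1_deriv h (mu ξ) hg hτ).const_mul (chi ξ : ℂ)
  have h3 : HasDerivAt (ode2_w1 sh ch T ε ξ g) _ τ :=
    h0.add ((h1.sub h2).const_mul ((ξ : ℂ) ^ 2))
  refine h3.congr_deriv ?_
  unfold ode2_NN
  rcases le_or_gt |ξ| 2 with h | h
  · unfold ode2_c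
    rw [ode_chi_one h]
    push_cast
    ring
  · have h4 := ode_lam_sq h.le
    have h5 : (mu ξ : ℂ) = (lam ξ : ℂ) ^ 2 := by
      rw [← h4]
      push_cast
      rfl
    have h6 := ode2_ratio ξ
    have h7 : ((1 - chi ξ : ℝ) : ℂ) = 1 - (chi ξ : ℂ) := by
      push_cast
      rfl
    generalize ode2_B T sh ch (mu ξ) g τ = b
    generalize ode2_A T (lam ξ) g τ = a
    generalize g τ = g
    rw [h5]
    generalize (((1 - chi ξ) / lam ξ : ℝ) : ℂ) = r1 at *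
    generalize ((1 - chi ξ : ℝ) : ℂ) = r2 at *
    linear_combination (-(ξ : ℂ) ^ 2 * lam ξ * a) * h6 - (ξ : ℂ) ^ 2 * g * h7

end Pool.Agent.Q82.BC
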