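import Mathlib

/-!
# Partial sums along blocks
-/

namespace Q91.Blocks

open Filter Topology

variable {E : Type*} [NormedAddCommGroup E]

/-- If the terms tend to zero, convergence of the partial sums along multiples of `K` is enough. -/
lemma tendsto_of_blocks {u : ℕ → E} (hu : Tendsto u atTop (𝓝 0)) {K : ℕ} (hK : 0 < K)
    {L : E} (h : Tendsto (fun N => ∑ n ∈ Finset.range (K * N), u n) atTop (𝓝 L)) :
    Tendsto (fun N => ∑ n ∈ Finset.range N, u n) atTop (𝓝 L) := by
  have hdiv : Tendsto (fun n : ℕ => n / K) atTop atTop := Nat.tendsto_div_const_atTop hK.ne'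
  have h1 : Tendsto (fun n : ℕ => ∑ i ∈ Finset.range (K * (n / K)), u i) atTop (𝓝 L) :=
    h.comp hdiv
  have h2 : Tendsto (fun n : ℕ => ∑ i ∈ Finset.range (n % K), u (K * (n / K) + i)) atTop (𝓝 0) := by
    have h3 : Tendsto (fun n : ℕ => ∑ i ∈ Finset.range K, ‖u (K * (n / K) + i)‖) atTop (𝓝 0) := by
      have : Tendsto (fun n : ℕ => ∑ i ∈ Finset.range K, ‖u (K * (n / K) + i)‖) atTop
          (𝓝 (∑ _i ∈ Finset.range K, (0 : ℝ))) := by
        apply tendsto_finsetSum
        intro i _
        have h4 : Tendsto (fun n : ℕ => K * (n / K) + i) atTop atTop := by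
          apply tendsto_atTop_mono (f := fun n : ℕ => n / K) _ hdiv
          intro n
          have : n / K ≤ K * (n / K) := Nat.le_mul_of_pos_left _ hK
          omega
        have h5 := (hu.comp h4).norm
        simpa using h5
      simpa using this
    apply squeeze_zero_norm _ h3
    intro n
    calc ‖∑ i ∈ Finset.range (n % K), u (K * (n / K) + i)‖
        ≤ ∑ i ∈ Finset.range (n % K), ‖u (K * (n / K) + i)‖ := norm_sum_le _ _
      _ ≤ ∑ i ∈ Finset.range K, ‖u (K * (n / K) + i)‖ := by
          apply Finset.sum_le_sum_of_subset_of_nonneg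
          · exact Finset.range_mono (Nat.mod_lt n hK).le
          · intro i _ _; exact norm_nonneg _
  have h6 := h1.add h2
  rw [add_zero] at h6
  refine h6.congr fun n => ?_
  rw [← Finset.sum_range_add, Nat.div_add_mod]

/-- Splitting a sum over `K * N` terms into blocks. -/
lemma sum_blocks (u : ℕ → E) (K N : ℕ) :
    ∑ n ∈ Finset.range (K * N), u n
      = ∑ m ∈ Finset.range N, ∑ i ∈ Finset.range K, u (K * m + i) := by
  induction N with
  | zero => simp
  | succ N ih => rw [Finset.sum_range_succ, ← ih, Nat.mul_succ, Finset.sum_range_add]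

end Q91.Blocks
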