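import Mathlib

/-!
# Lower bounds for the Hausdorff dimension by binary coding
-/

namespace Q91.Coding

open Set MeasureTheory

open scoped NNReal ENNReal

/-- The real number with the given binary digits. -/
noncomputable def val (d : ℕ → Bool) : ℝ :=
  Real.ofDigits (fun m => (if d m then 1 else 0 : Fin 2))

lemma abs_val_sub_le {d d' : ℕ → Bool} {n : ℕ} (h : ∀ i < n, d i = d' i) :
    |val d - val d'| ≤ (1 / 2 : ℝ) ^ n := by
  have h1 := Real.abs_ofDigits_sub_ofDigits_le
    (x := fun m => (if d m then 1 else 0 : Fin 2)) (y := fun m => (if d' m then 1 else 0 : Fin 2))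
    (n := n) (by
      intro i hi
      simp only [h i hi])
  unfold val
  simpa using h1

lemma exists_val {t : ℝ} (ht : t ∈ Ico (0 : ℝ) 1) : ∃ d, val d = t := by
  refine ⟨fun m => decide (Real.digits t 2 m = 1), ?_⟩
  unfold val
  have h1 : (fun m => (if (decide (Real.digits t 2 m = 1)) = true then 1 else 0 : Fin 2))
      = Real.digits t 2 := by
    funext m
    rcases Fin.exists_fin_two.mp ⟨Real.digits t 2 m, rfl⟩ with h | h
    · simp [h]
    · simp [h]
  rw [h1]
  exact Real.ofDigits_digits (by norm_num) ht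

/-- If the points coded by two binary sequences with first difference at `n` have distance `δ`
with `2 ^ (-n) ≤ C * δ ^ σ`, then the set of coded points has dimension at least `σ`. -/
theorem le_dimH_range {X : Type*} [MetricSpace X] (S : (ℕ → Bool) → X) {σ C : ℝ} (hσ : 0 < σ)
    (hC : 0 ≤ C)
    (h : ∀ (d d' : ℕ → Bool) (n : ℕ), (∀ i < n, d i = d' i) → d n ≠ d' n →
      (1 / 2 : ℝ) ^ n ≤ C * dist (S d) (S d') ^ σ) :
    ENNReal.ofReal σ ≤ dimH (Set.range S) := by
  have hfirst : ∀ d d' : ℕ → Bool, d ≠ d' → ∃ n, (∀ i < n, d i = d' i) ∧ d n ≠ d' n := by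
    intro d d' hne
    have h1 : ∃ n, d n ≠ d' n := by
      by_contra hcon
      push Not at hcon
      exact hne (funext hcon)
    classical
    refine ⟨Nat.find h1, ?_, Nat.find_spec h1⟩
    intro i hi
    by_contra hc
    exact Nat.find_min h1 hi hc
  have hinj : Function.Injective S := by
    intro d d' hS
    by_contra hne
    obtain ⟨n, h1, h2⟩ := hfirst d d' hne
    have h3 := h d d' n h1 h2
    rw [hS, dist_self, Real.zero_rpow hσ.ne', mul_zero] at h3
    have h4 : (0 : ℝ) < (1 / 2 : ℝ) ^ n := by positivity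
    linarith
  have hd : ∀ d d' : ℕ → Bool, |val d - val d'| ≤ C * dist (S d) (S d') ^ σ := by
    intro d d'
    by_cases hne : d = d'
    · rw [hne, sub_self, abs_zero, dist_self, Real.zero_rpow hσ.ne', mul_zero]
    · obtain ⟨n, h1, h2⟩ := hfirst d d' hne
      exact (abs_val_sub_le h1).trans (h d d' n h1 h2)
  set g : X → ℝ := fun y => val (Function.invFun S y) with hg
  have hgS : ∀ d, g (S d) = val d := by
    intro d
    rw [hg]
    simp only
    rw [Function.leftInverse_invFun hinj d]
  have hholder : HolderOnWith C.toNNReal σ.toNNReal g (Set.range S) := by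
    rintro _ ⟨d, rfl⟩ _ ⟨d', rfl⟩
    rw [hgS, hgS, edist_dist, edist_dist, Real.coe_toNNReal σ hσ.le,
      ENNReal.ofReal_rpow_of_nonneg dist_nonneg hσ.le, Real.dist_eq]
    have e : ((C.toNNReal : ℝ≥0) : ℝ≥0∞) = ENNReal.ofReal C := rfl
    rw [e, ← ENNReal.ofReal_mul hC]
    exact ENNReal.ofReal_le_ofReal (hd d d')
  have h1 := hholder.dimH_image_le (by rw [Real.toNNReal_pos]; exact hσ)
  have hsub : Set.Ico (0 : ℝ) 1 ⊆ g '' (Set.range S) := by
    intro t ht
    obtain ⟨d, hd⟩ := exists_val ht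
    exact ⟨S d, ⟨d, rfl⟩, by rw [hgS, hd]⟩
  have h2 : dimH (Set.Ico (0 : ℝ) 1) = 1 := by
    have := Real.dimH_of_nonempty_interior (s := Set.Ico (0 : ℝ) 1) (by
      rw [interior_Ico]
      exact ⟨1 / 2, by norm_num, by norm_num⟩)
    simpa using this
  have h3 : (1 : ℝ≥0∞) ≤ dimH (Set.range S) / (σ.toNNReal : ℝ≥0∞) := by
    rw [← h2]
    exact (dimH_mono hsub).trans h1
  rw [ENNReal.le_div_iff_mul_le (Or.inl (by simpa using hσ)) (Or.inl ENNReal.coe_ne_top),
    one_mul] at h3
  exact h3

end Q91.Coding
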