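import Mathlib

/-!
Laplace asymptotics on a monotone branch of `T(x) = x^3 - 3x`.
-/

open Filter Topology Set MeasureTheory

namespace Pool.Agent.Q91.CritLaplace

/-- `g(t) = (2+t)^a (2-t)^b` has its strict maximum on `[-2,2]` at `t* = 2(a-b)/(a+b)`. -/
theorem g_lt {a b : ℕ} (ha : 0 < a) (hb : 0 < b) {t ts : ℝ}
    (hts : ts * (a + b) = 2 * (a - b)) (ht1 : -2 ≤ t) (ht2 : t ≤ 2) (hne : t ≠ ts) :
    (2 + t) ^ a * (2 - t) ^ b < (2 + ts) ^ a * (2 - ts) ^ b := by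
  have ha' : (0 : ℝ) < a := by exact_mod_cast ha
  have hb' : (0 : ℝ) < b := by exact_mod_cast hb
  have hp : 0 < 2 + ts := by
    by_contra h
    push Not at h
    nlinarith
  have hm : 0 < 2 - ts := by
    by_contra h
    push Not at h
    nlinarith
  set X := (2 + t) / (2 + ts) with hX
  set Y := (2 - t) / (2 - ts) with hY
  have hX0 : 0 ≤ X := div_nonneg (by linarith) hp.le
  have hY0 : 0 ≤ Y := div_nonneg (by linarith) hm.le
  have hX1 : X ≠ 1 := by
    rw [hX, Ne, div_eq_one_iff_eq hp.ne']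
    intro h
    apply hne
    linarith
  have hXY : (a : ℝ) * (X - 1) + b * (Y - 1) = 0 := by
    have h1 : X - 1 = (t - ts) / (2 + ts) := by rw [hX]; field_simp; ring
    have h2 : Y - 1 = -(t - ts) / (2 - ts) := by rw [hY]; field_simp; ring
    rw [h1, h2]
    have hp' := hp.ne'
    have hm' := hm.ne'
    field_simp
    have h3 : (a : ℝ) * (2 - ts) - b * (2 + ts) = 0 := by linarith
    linear_combination (t - ts) * h3
  have h1 : X ^ a < Real.exp (a * (X - 1)) := by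
    rw [mul_comm, Real.exp_mul, Real.rpow_natCast]
    refine pow_lt_pow_left₀ ?_ hX0 ha.ne'
    have := Real.add_one_lt_exp (sub_ne_zero.2 hX1)
    linarith
  have h2 : Y ^ b ≤ Real.exp (b * (Y - 1)) := by
    rw [mul_comm, Real.exp_mul, Real.rpow_natCast]
    refine pow_le_pow_left₀ hY0 ?_ b
    have := Real.add_one_le_exp (Y - 1)
    linarith
  have h3 : X ^ a * Y ^ b < 1 := by
    calc X ^ a * Y ^ b ≤ X ^ a * Real.exp (b * (Y - 1)) :=
        mul_le_mul_of_nonneg_left h2 (by positivity)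
      _ < Real.exp (a * (X - 1)) * Real.exp (b * (Y - 1)) :=
        mul_lt_mul_of_pos_right h1 (Real.exp_pos _)
      _ = 1 := by rw [← Real.exp_add, hXY, Real.exp_zero]
  have h4 : (2 + t) ^ a * (2 - t) ^ b = (X ^ a * Y ^ b) * ((2 + ts) ^ a * (2 - ts) ^ b) := by
    rw [hX, hY, div_pow, div_pow]
    have e1 : (2 + ts) ^ a ≠ 0 := (pow_pos hp a).ne'
    have e2 : (2 - ts) ^ b ≠ 0 := (pow_pos hm b).ne'
    field_simp
  rw [h4]
  have h5 : 0 < (2 + ts) ^ a * (2 - ts) ^ b := mul_pos (pow_pos hp a) (pow_pos hm b)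
  nlinarith

/-- Laplace asymptotics on one branch. -/
theorem laplace {a b : ℕ} (ha : 0 < a) (hb : 0 < b) {lo hi x0 σ : ℝ} (hlohi : lo < hi)
    (hx0 : x0 ∈ Icc lo hi) (hσ : σ = 1 ∨ σ = -1)
    (hTrange : ∀ x ∈ Icc lo hi, -2 ≤ x ^ 3 - 3 * x ∧ x ^ 3 - 3 * x ≤ 2)
    (hTinj : ∀ x ∈ Icc lo hi, x ^ 3 - 3 * x = x0 ^ 3 - 3 * x0 → x = x0)
    (hts : (x0 ^ 3 - 3 * x0) * (a + b) = 2 * (a - b)) (hT' : 3 * x0 ^ 2 - 3 ≠ 0)
    (hlo : lo ^ 3 - 3 * lo = -2 * σ) (hhi : hi ^ 3 - 3 * hi = 2 * σ)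
    {φ : ℝ → ℝ} (hφ : Continuous φ) :
    Tendsto (fun N : ℕ => (∫ x in lo..hi,
        ((2 + (x ^ 3 - 3 * x)) ^ a * (2 - (x ^ 3 - 3 * x)) ^ b) ^ N * φ x) /
        (∫ t in (-2 : ℝ)..2, ((2 + t) ^ a * (2 - t) ^ b) ^ N)) atTop
      (𝓝 (σ * (φ x0 / (3 * x0 ^ 2 - 3)))) := by
  have ha' : (0 : ℝ) < a := by exact_mod_cast ha
  have hb' : (0 : ℝ) < b := by exact_mod_cast hb
  set c : ℝ → ℝ := fun x => (2 + (x ^ 3 - 3 * x)) ^ a * (2 - (x ^ 3 - 3 * x)) ^ b with hc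
  have hcc : Continuous c := by
    rw [hc]
    fun_prop
  set ts := x0 ^ 3 - 3 * x0 with hts'
  have hp : 0 < 2 + ts := by
    by_contra h
    push Not at h
    nlinarith
  have hm : 0 < 2 - ts := by
    by_contra h
    push Not at h
    nlinarith
  have hmax : ∀ y ∈ Icc lo hi, y ≠ x0 → c y < c x0 := by
    intro y hy hne
    refine g_lt ha hb hts (hTrange y hy).1 (hTrange y hy).2 ?_
    intro h
    exact hne (hTinj y hy h)
  have hnc : ∀ x ∈ Icc lo hi, 0 ≤ c x := fun x hx =>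
    mul_nonneg (pow_nonneg (by linarith [(hTrange x hx).1]) _)
      (pow_nonneg (by linarith [(hTrange x hx).2]) _)
  have hnc0 : 0 < c x0 := mul_pos (pow_pos hp _) (pow_pos hm _)
  have hcl : x0 ∈ closure (interior (Icc lo hi)) := by
    rw [interior_Icc, closure_Ioo hlohi.ne]
    exact hx0
  have peak := fun (g : ℝ → ℝ) (hg : Continuous g) =>
    tendsto_setIntegral_pow_smul_of_unique_maximum_of_isCompact_of_continuousOn
      (μ := volume) (s := Icc lo hi) (x₀ := x0) (g := g) isCompact_Icc hcc.continuousOn hmax hnc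
      hnc0 hcl hg.continuousOn
  have p1 := peak φ hφ
  have p2 := peak (fun x => 3 * x ^ 2 - 3) (by fun_prop)
  have hH : ∀ N : ℕ, ∫ x in Icc lo hi, c x ^ N • (3 * x ^ 2 - 3) =
      σ * ∫ t in (-2 : ℝ)..2, ((2 + t) ^ a * (2 - t) ^ b) ^ N := by
    intro N
    rw [integral_Icc_eq_integral_Ioc, ← intervalIntegral.integral_of_le hlohi.le]
    have hsub := intervalIntegral.integral_comp_mul_deriv (a := lo) (b := hi)
      (f := fun x : ℝ => x ^ 3 - 3 * x) (f' := fun x => 3 * x ^ 2 - 3)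
      (g := fun t : ℝ => ((2 + t) ^ a * (2 - t) ^ b) ^ N)
      (fun x _ => ((hasDerivAt_pow 3 x).sub ((hasDerivAt_id' x).const_mul 3)).congr_deriv
        (by norm_num)) (by fun_prop) (by fun_prop)
    simp only [Function.comp_def, hlo, hhi] at hsub
    simp only [smul_eq_mul, hc]
    rw [hsub]
    rcases hσ with rfl | rfl
    · simp
    · rw [intervalIntegral.integral_symm]
      norm_num
  have hF : ∀ N : ℕ, ∫ x in Icc lo hi, c x ^ N • φ x = ∫ x in lo..hi,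
        ((2 + (x ^ 3 - 3 * x)) ^ a * (2 - (x ^ 3 - 3 * x)) ^ b) ^ N * φ x := by
    intro N
    rw [integral_Icc_eq_integral_Ioc, ← intervalIntegral.integral_of_le hlohi.le]
    rfl
  have hquot := (p1.div p2 hT').const_mul σ
  refine hquot.congr' ?_
  have hev : ∀ᶠ N : ℕ in atTop, (∫ x in Icc lo hi, c x ^ N)⁻¹ •
      ∫ x in Icc lo hi, c x ^ N • (3 * x ^ 2 - 3) ≠ 0 := p2.eventually_ne hT'
  filter_upwards [hev] with N hN
  rw [Pi.div_apply]
  simp only [smul_eq_mul] at hN ⊢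
  have hK : (∫ x in Icc lo hi, c x ^ N) ≠ 0 := fun h => hN (by rw [h]; simp)
  have hF' := hF N
  have hH' := hH N
  simp only [smul_eq_mul] at hF' hH'
  rw [hF', hH']
  rw [hH'] at hN
  have hG : (∫ t in (-2 : ℝ)..2, ((2 + t) ^ a * (2 - t) ^ b) ^ N) ≠ 0 := fun h =>
    hN (by rw [h]; simp)
  have hσ0 : σ ≠ 0 := by rcases hσ with rfl | rfl <;> norm_num
  have hσ2 : σ * σ = 1 := by rcases hσ with rfl | rfl <;> norm_num
  field_simp

end Pool.Agent.Q91.CritLaplace
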