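import Pool.Agent.Q91.CritTune
import Pool.Agent.Q91.CritLaplace

/-!
Polynomials with all critical points in `{-2,-1,1,2}` and prescribed differences of values.
-/

open Filter Topology Set MeasureTheory Polynomial

namespace Pool.Agent.Q91.CritMain

/-- Antiderivative of a polynomial. -/
noncomputable def antider (P : ℝ[X]) : ℝ[X] :=
  P.sum fun n a => monomial (n + 1) (a / (n + 1))

theorem derivative_antider (P : ℝ[X]) : derivative (antider P) = P := by
  unfold antider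
  rw [Polynomial.sum, map_sum]
  conv_rhs => rw [P.as_sum_support]
  refine Finset.sum_congr rfl fun n _ => ?_
  rw [derivative_monomial]
  congr 1
  push_cast
  have : (n : ℝ) + 1 ≠ 0 := by positivity
  field_simp

theorem eval_sub_eval (P : ℝ[X]) (a b : ℝ) :
    (antider P).eval b - (antider P).eval a = ∫ x in a..b, P.eval x := by
  symm
  have h1 : ∀ x ∈ uIcc a b, HasDerivAt (fun y => (antider P).eval y) (P.eval x) x := by
    intro x _
    have := (antider P).hasDerivAt x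
    rwa [derivative_antider] at this
  exact intervalIntegral.integral_eq_sub_of_hasDerivAt h1 (P.continuous.intervalIntegrable _ _)

/-- The weight at a root. -/
theorem weight {x : ℝ} (h1 : x + 1 ≠ 0) (h2 : x - 1 ≠ 0) {u v : ℤ} {i j k l : ℕ}
    (hj : (j : ℤ) = u + 1 + 2 * l) (hk : (k : ℤ) = v + 1 + 2 * i) :
    ((x + 2) ^ i * (x + 1) ^ j * (x - 1) ^ k * (x - 2) ^ l) / (3 * x ^ 2 - 3) =
      (((x ^ 3 - 3 * x) + 2) ^ i * ((x ^ 3 - 3 * x) - 2) ^ l / 3) * ((x + 1) ^ u * (x - 1) ^ v) := by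
  have e1 : (x + 1) ^ j = (x + 1) ^ u * (x + 1) * ((x + 1) ^ 2) ^ l := by
    rw [← zpow_natCast (x + 1) j, hj, zpow_add₀ h1, zpow_add₀ h1, zpow_one, zpow_mul]
    norm_cast
  have e2 : (x - 1) ^ k = (x - 1) ^ v * (x - 1) * ((x - 1) ^ 2) ^ i := by
    rw [← zpow_natCast (x - 1) k, hk, zpow_add₀ h2, zpow_add₀ h2, zpow_one, zpow_mul]
    norm_cast
  have e3 : (x ^ 3 - 3 * x) + 2 = (x + 2) * (x - 1) ^ 2 := by ring
  have e4 : (x ^ 3 - 3 * x) - 2 = (x - 2) * (x + 1) ^ 2 := by ring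
  have e5 : 3 * x ^ 2 - 3 = 3 * ((x - 1) * (x + 1)) := by ring
  rw [e1, e2, e3, e4, e5, mul_pow, mul_pow]
  field_simp

/-- The three roots of `x^3 - 3x = t` in terms of the parameter `w`. -/
noncomputable def x1 (w : ℝ) : ℝ := (-1 + 3 * w ^ 2 - 6 * w) / (1 + 3 * w ^ 2)
/-- Middle root. -/
noncomputable def x2 (w : ℝ) : ℝ := (-1 + 3 * w ^ 2 + 6 * w) / (1 + 3 * w ^ 2)
/-- Right root. -/
noncomputable def x3 (w : ℝ) : ℝ := 2 * (1 - 3 * w ^ 2) / (1 + 3 * w ^ 2)

theorem T_x1 (w : ℝ) : x1 w ^ 3 - 3 * x1 w = x3 w ^ 3 - 3 * x3 w := by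
  unfold x1 x3
  have : 1 + 3 * w ^ 2 ≠ 0 := by positivity
  field_simp
  ring

theorem T_x2 (w : ℝ) : x2 w ^ 3 - 3 * x2 w = x3 w ^ 3 - 3 * x3 w := by
  unfold x2 x3
  have : 1 + 3 * w ^ 2 ≠ 0 := by positivity
  field_simp
  ring

theorem x1_add (w : ℝ) : x1 w + 1 = -(6 * w * (1 - w)) / (1 + 3 * w ^ 2) := by
  unfold x1
  have : 1 + 3 * w ^ 2 ≠ 0 := by positivity
  field_simp
  ring

theorem x1_sub (w : ℝ) : x1 w - 1 = -(2 * (1 + 3 * w)) / (1 + 3 * w ^ 2) := by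
  unfold x1
  have : 1 + 3 * w ^ 2 ≠ 0 := by positivity
  field_simp
  ring

theorem x2_add (w : ℝ) : x2 w + 1 = (6 * w * (1 + w)) / (1 + 3 * w ^ 2) := by
  unfold x2
  have : 1 + 3 * w ^ 2 ≠ 0 := by positivity
  field_simp
  ring

theorem x2_sub (w : ℝ) : x2 w - 1 = -(2 * (1 - 3 * w)) / (1 + 3 * w ^ 2) := by
  unfold x2
  have : 1 + 3 * w ^ 2 ≠ 0 := by positivity
  field_simp
  ring

theorem x3_add (w : ℝ) : x3 w + 1 = (3 * (1 - w) * (1 + w)) / (1 + 3 * w ^ 2) := by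
  unfold x3
  have : 1 + 3 * w ^ 2 ≠ 0 := by positivity
  field_simp
  ring

theorem x3_sub (w : ℝ) : x3 w - 1 = ((1 - 3 * w) * (1 + 3 * w)) / (1 + 3 * w ^ 2) := by
  unfold x3
  have : 1 + 3 * w ^ 2 ≠ 0 := by positivity
  field_simp
  ring

/-- A parameter with rational `t = T(x3 w)` near a given one. -/
theorem exists_rational {w0 : ℝ} (hw0 : 0 < w0) (hw0' : w0 < 1 / 3) {P : ℝ → Prop}
    (hP : ∀ᶠ w in 𝓝 w0, P w) :
    ∃ (w : ℝ) (a b : ℕ), 0 < w ∧ w < 1 / 3 ∧ P w ∧ 0 < a ∧ 0 < b ∧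
      (x3 w ^ 3 - 3 * x3 w) * (a + b) = 2 * (a - b) := by
  have h1 : ∀ᶠ w in 𝓝 w0, P w ∧ w < 1 / 3 ∧ 0 < w :=
    hP.and ((eventually_lt_nhds hw0').and (eventually_gt_nhds hw0))
  rw [Metric.eventually_nhds_iff] at h1
  obtain ⟨η, hη, h1⟩ := h1
  set w1 := w0 + η / 2 with hw1
  have hx3 : ∀ w : ℝ, 0 < w → w < 1 / 3 → 1 < x3 w ∧ x3 w < 2 := by
    intro w hw hw'
    have hd : 0 < 1 + 3 * w ^ 2 := by positivity
    unfold x3
    constructor
    · rw [lt_div_iff₀ hd]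
      nlinarith
    · rw [div_lt_iff₀ hd]
      nlinarith
  have hanti : ∀ w w' : ℝ, 0 < w → w < w' → w' < 1 / 3 → x3 w' < x3 w := by
    intro w w' h0 hlt h3
    unfold x3
    rw [div_lt_div_iff₀ (by positivity) (by positivity)]
    nlinarith
  have hTmono : ∀ x x' : ℝ, 1 < x → x < x' → x ^ 3 - 3 * x < x' ^ 3 - 3 * x' := by
    intro x x' hx hxx'
    have h2 : x' ^ 3 - 3 * x' - (x ^ 3 - 3 * x) = (x' - x) * (x' ^ 2 + x' * x + x ^ 2 - 3) := by
      ring
    have h3 : 0 < (x' - x) * (x' ^ 2 + x' * x + x ^ 2 - 3) :=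
      mul_pos (by linarith) (by nlinarith)
    linarith
  have hw1P := h1 (y := w1) (by
    rw [Real.dist_eq, hw1, add_sub_cancel_left, abs_of_pos (by linarith)]
    linarith)
  have hw01 : w0 < w1 := by rw [hw1]; linarith
  set t : ℝ → ℝ := fun w => x3 w ^ 3 - 3 * x3 w with ht
  have htlt : t w1 < t w0 := hTmono _ _ (hx3 w1 hw1P.2.2 hw1P.2.1).1 (hanti _ _ hw0 hw01 hw1P.2.1)
  obtain ⟨q, hq1, hq2⟩ := exists_rat_btwn htlt
  have hcont : ContinuousOn t (Icc w0 w1) := by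
    have : Continuous x3 := by
      unfold x3
      exact Continuous.div (by fun_prop) (by fun_prop) (fun w => by positivity)
    exact (by fun_prop : Continuous fun w => x3 w ^ 3 - 3 * x3 w).continuousOn
  obtain ⟨w, hw, hwq⟩ := intermediate_value_Icc' hw01.le hcont ⟨hq1.le, hq2.le⟩
  have hwpos : 0 < w := lt_of_lt_of_le hw0 hw.1
  have hw13 : w < 1 / 3 := lt_of_le_of_lt hw.2 hw1P.2.1
  have hwP := h1 (y := w) (by
    rw [Real.dist_eq, abs_of_nonneg (by linarith [hw.1])]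
    have := hw.2
    rw [hw1] at this
    linarith)
  obtain ⟨hx3a, hx3b⟩ := hx3 w hwpos hw13
  have hqlt2 : (q : ℝ) < 2 := by
    rw [← hwq]
    simp only [ht]
    nlinarith [mul_pos (by linarith : 0 < x3 w - 1) (by linarith : 0 < 2 - x3 w),
      mul_pos (mul_pos (by linarith : 0 < x3 w + 1) (by linarith : 0 < x3 w + 1)) (by linarith : 0 < 2 - x3 w)]
  have hqgt : (-2 : ℝ) < q := by
    rw [← hwq]
    simp only [ht]
    nlinarith [mul_pos (mul_pos (by linarith : 0 < x3 w - 1) (by linarith : 0 < x3 w - 1)) (by linarith : 0 < x3 w + 2)]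
  -- natural numbers
  set r : ℚ := (2 + q) / 4 with hr
  have hq2' : q < 2 := by exact_mod_cast hqlt2
  have hq3' : -2 < q := by exact_mod_cast hqgt
  have hr0 : 0 < r := by rw [hr]; linarith
  have hr1 : r < 1 := by rw [hr]; linarith
  have hnum : 0 < r.num := Rat.num_pos.2 hr0
  have hnumlt : r.num < r.den := by
    have := (Rat.lt_iff _ _).1 hr1
    simpa using this
  refine ⟨w, r.num.toNat, r.den - r.num.toNat, hwpos, hw13, hwP.1, by omega, by omega, ?_⟩
  have hcast : ((r.num.toNat : ℕ) : ℝ) = (r.num : ℝ) := by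
    have : ((r.num.toNat : ℕ) : ℤ) = r.num := Int.toNat_of_nonneg hnum.le
    exact_mod_cast congrArg (fun z : ℤ => (z : ℝ)) this
  have hle : r.num.toNat ≤ r.den := by omega
  rw [Nat.cast_sub hle, hcast]
  have hwq' : x3 w ^ 3 - 3 * x3 w = (q : ℝ) := hwq
  rw [hwq']
  have hrq : (q : ℝ) = 4 * (r : ℝ) - 2 := by
    rw [hr]
    push_cast
    ring
  have hrd : (r : ℝ) * r.den = r.num := by
    have := Rat.mul_den_eq_num r
    exact_mod_cast congrArg (fun z : ℚ => (z : ℝ)) this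
  rw [hrq]
  linear_combination 4 * hrd

theorem T_range {x : ℝ} (h1 : -2 ≤ x) (h2 : x ≤ 2) : -2 ≤ x ^ 3 - 3 * x ∧ x ^ 3 - 3 * x ≤ 2 := by
  constructor
  · nlinarith [mul_nonneg (mul_self_nonneg (x - 1)) (by linarith : 0 ≤ x + 2)]
  · nlinarith [mul_nonneg (mul_self_nonneg (x + 1)) (by linarith : 0 ≤ 2 - x)]

theorem T_inj_aux {x y : ℝ} (h : x ^ 3 - 3 * x = y ^ 3 - 3 * y) (hne : x ^ 2 + x * y + y ^ 2 ≠ 3) :
    x = y := by
  have h1 : (x - y) * (x ^ 2 + x * y + y ^ 2 - 3) = 0 := by linear_combination h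
  rcases mul_eq_zero.1 h1 with h2 | h2
  · linarith
  · exact absurd (by linarith) hne

/-- Prescribed nonzero differences. -/
theorem exists_diff {d1 d2 d3 : ℝ} (h1 : d1 ≠ 0) (h2 : d2 ≠ 0) (h3 : d3 ≠ 0) {ε : ℝ}
    (hε : 0 < ε) :
    ∃ p : ℝ[X], (∀ z : ℂ, aeval z (derivative p) = 0 → z = -2 ∨ z = -1 ∨ z = 1 ∨ z = 2) ∧
      |p.eval (-1) - p.eval (-2) - d1| < ε ∧ p.eval 1 - p.eval (-1) = d2 ∧
      |p.eval 2 - p.eval 1 - d3| < ε := by
  have hd2 : 0 < |d2| := abs_pos.2 h2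
  set ε' := ε / |d2| with hε'
  have hε'pos : 0 < ε' := div_pos hε hd2
  obtain ⟨u, v, w0, hw0, hw9, ht1, ht3⟩ := CritTune.tune (div_ne_zero h1 h2) (div_ne_zero h3 h2)
    hε'pos
  have hc1 : ContinuousAt (fun w : ℝ =>
      -((-((1 - w) / (1 + w))) ^ u * ((1 + 3 * w) / (1 - 3 * w)) ^ v)) w0 := by
    have k1 : ContinuousAt (fun w : ℝ => -((1 - w) / (1 + w))) w0 :=
      ((by fun_prop : ContinuousAt (fun w : ℝ => 1 - w) w0).div (by fun_prop) (by linarith)).neg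
    have k2 : ContinuousAt (fun w : ℝ => (1 + 3 * w) / (1 - 3 * w)) w0 :=
      (by fun_prop : ContinuousAt (fun w : ℝ => 1 + 3 * w) w0).div (by fun_prop) (by linarith)
    exact ((k1.zpow₀ u (Or.inl (neg_ne_zero.2 (div_pos (by linarith) (by linarith)).ne'))).mul
      (k2.zpow₀ v (Or.inl (div_pos (by linarith) (by linarith)).ne'))).neg
  have hc3 : ContinuousAt (fun w : ℝ =>
      -(((1 - w) / (2 * w)) ^ u * (-((1 + 3 * w) / 2)) ^ v)) w0 := by
    have k1 : ContinuousAt (fun w : ℝ => (1 - w) / (2 * w)) w0 :=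
      (by fun_prop : ContinuousAt (fun w : ℝ => 1 - w) w0).div (by fun_prop) (by linarith)
    have k2 : ContinuousAt (fun w : ℝ => -((1 + 3 * w) / 2)) w0 := by fun_prop
    exact ((k1.zpow₀ u (Or.inl (div_pos (by linarith) (by linarith)).ne')).mul
      (k2.zpow₀ v (Or.inl (neg_ne_zero.2 (by positivity))))).neg
  have hev : ∀ᶠ w in 𝓝 w0,
      |-((-((1 - w) / (1 + w))) ^ u * ((1 + 3 * w) / (1 - 3 * w)) ^ v) - d1 / d2| < ε' ∧
      |-(((1 - w) / (2 * w)) ^ u * (-((1 + 3 * w) / 2)) ^ v) - d3 / d2| < ε' :=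
    (((hc1.sub continuousAt_const).abs).eventually_lt continuousAt_const ht1).and
      (((hc3.sub continuousAt_const).abs).eventually_lt continuousAt_const ht3)
  obtain ⟨w, a, b, hw, hw3, ⟨hr1, hr3⟩, ha, hb, hts⟩ := exists_rational hw0 (by linarith) hev
  have hD : 0 < 1 + 3 * w ^ 2 := by positivity
  -- exponents
  set i := v.natAbs with hi
  set l := u.natAbs with hl
  set j := (u + 1 + 2 * l).toNat with hjdef
  set k := (v + 1 + 2 * i).toNat with hkdef
  have hj : (j : ℤ) = u + 1 + 2 * l := Int.toNat_of_nonneg (by omega)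
  have hk : (k : ℤ) = v + 1 + 2 * i := Int.toNat_of_nonneg (by omega)
  set φ : ℝ → ℝ := fun x => (x + 2) ^ i * (x + 1) ^ j * (x - 1) ^ k * (x - 2) ^ l with hφ
  have hφc : Continuous φ := by
    rw [hφ]
    fun_prop
  -- positions
  have p1a : x1 w + 1 < 0 := by
    rw [x1_add]
    exact div_neg_of_neg_of_pos (by nlinarith) hD
  have p1b : x1 w - 1 < 0 := by linarith
  have p2a : 0 < x2 w + 1 := by
    rw [x2_add]
    exact div_pos (by nlinarith) hD
  have p2b : x2 w - 1 < 0 := by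
    rw [x2_sub]
    exact div_neg_of_neg_of_pos (by nlinarith) hD
  have p3b : 0 < x3 w - 1 := by
    rw [x3_sub]
    exact div_pos (by nlinarith) hD
  have p3a : 0 < x3 w + 1 := by linarith
  have p1c : -2 ≤ x1 w := by
    unfold x1
    rw [le_div_iff₀ hD]
    nlinarith [mul_self_nonneg (1 - 3 * w)]
  have p3c : x3 w ≤ 2 := by
    unfold x3
    rw [div_le_iff₀ hD]
    nlinarith
  -- Laplace on the three branches
  have hT' : ∀ x : ℝ, x + 1 ≠ 0 → x - 1 ≠ 0 → 3 * x ^ 2 - 3 ≠ 0 := by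
    intro x hx1 hx2
    have : 3 * x ^ 2 - 3 = 3 * ((x - 1) * (x + 1)) := by ring
    rw [this]
    exact mul_ne_zero (by norm_num) (mul_ne_zero hx2 hx1)
  have L1 := CritLaplace.laplace ha hb (lo := -2) (hi := -1) (x0 := x1 w) (σ := 1) (by norm_num)
    ⟨p1c, by linarith⟩ (Or.inl rfl) (fun x hx => T_range hx.1 (by linarith [hx.2]))
    (fun x hx h => T_inj_aux h (by nlinarith [hx.1, hx.2])) (by rw [T_x1]; exact hts)
    (hT' _ p1a.ne p1b.ne) (by norm_num) (by norm_num) hφc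
  have L2 := CritLaplace.laplace ha hb (lo := -1) (hi := 1) (x0 := x2 w) (σ := -1) (by norm_num)
    ⟨by linarith, by linarith⟩ (Or.inr rfl)
    (fun x hx => T_range (by linarith [hx.1]) (by linarith [hx.2]))
    (fun x hx h => T_inj_aux h (by nlinarith [hx.1, hx.2])) (by rw [T_x2]; exact hts)
    (hT' _ p2a.ne' p2b.ne) (by norm_num) (by norm_num) hφc
  have L3 := CritLaplace.laplace ha hb (lo := 1) (hi := 2) (x0 := x3 w) (σ := 1) (by norm_num)
    ⟨by linarith, p3c⟩ (Or.inl rfl) (fun x hx => T_range (by linarith [hx.1]) hx.2)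
    (fun x hx h => T_inj_aux h (by nlinarith [hx.1, hx.2])) hts
    (hT' _ p3a.ne' p3b.ne') (by norm_num) (by norm_num) hφc
  simp only [hφ] at L1 L2 L3
  rw [weight p1a.ne p1b.ne hj hk, T_x1] at L1
  rw [weight p2a.ne' p2b.ne hj hk, T_x2] at L2
  rw [weight p3a.ne' p3b.ne' hj hk] at L3
  have p3d : x3 w < 2 := by
    unfold x3
    rw [div_lt_iff₀ hD]
    nlinarith [mul_pos hw hw]
  set Cc : ℝ := ((x3 w ^ 3 - 3 * x3 w) + 2) ^ i * ((x3 w ^ 3 - 3 * x3 w) - 2) ^ l / 3 with hCc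
  have hCc0 : Cc ≠ 0 := by
    have e3 : (x3 w ^ 3 - 3 * x3 w) + 2 = (x3 w + 2) * (x3 w - 1) ^ 2 := by ring
    have e4 : (x3 w ^ 3 - 3 * x3 w) - 2 = (x3 w - 2) * (x3 w + 1) ^ 2 := by ring
    rw [hCc, e3, e4]
    have n1 : x3 w + 2 ≠ 0 := by linarith
    have n2 : x3 w - 2 ≠ 0 := by linarith
    have n3 := p3a.ne'
    have n4 := p3b.ne'
    positivity
  have hlim2 : -1 * (Cc * ((x2 w + 1) ^ u * (x2 w - 1) ^ v)) ≠ 0 :=
    mul_ne_zero (by norm_num) (mul_ne_zero hCc0 (mul_ne_zero (zpow_ne_zero _ p2a.ne')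
      (zpow_ne_zero _ p2b.ne)))
  have hrat1 : (1 * (Cc * ((x1 w + 1) ^ u * (x1 w - 1) ^ v))) /
      (-1 * (Cc * ((x2 w + 1) ^ u * (x2 w - 1) ^ v))) =
      -((-((1 - w) / (1 + w))) ^ u * ((1 + 3 * w) / (1 - 3 * w)) ^ v) := by
    have e1 : -((1 - w) / (1 + w)) = (x1 w + 1) / (x2 w + 1) := by
      rw [x1_add, x2_add]
      have : 1 + w ≠ 0 := by linarith
      field_simp
    have e2 : (1 + 3 * w) / (1 - 3 * w) = (x1 w - 1) / (x2 w - 1) := by
      rw [x1_sub, x2_sub]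
      have : 1 - 3 * w ≠ 0 := by linarith
      field_simp
    rw [e1, e2, div_zpow, div_zpow]
    have n1 : (x2 w + 1) ^ u ≠ 0 := zpow_ne_zero _ p2a.ne'
    have n2 : (x2 w - 1) ^ v ≠ 0 := zpow_ne_zero _ p2b.ne
    field_simp
  have hrat3 : (1 * (Cc * ((x3 w + 1) ^ u * (x3 w - 1) ^ v))) /
      (-1 * (Cc * ((x2 w + 1) ^ u * (x2 w - 1) ^ v))) =
      -(((1 - w) / (2 * w)) ^ u * (-((1 + 3 * w) / 2)) ^ v) := by
    have e1 : (1 - w) / (2 * w) = (x3 w + 1) / (x2 w + 1) := by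
      rw [x3_add, x2_add]
      have : 1 + w ≠ 0 := by linarith
      field_simp
      ring
    have e2 : -((1 + 3 * w) / 2) = (x3 w - 1) / (x2 w - 1) := by
      rw [x3_sub, x2_sub]
      have : 1 - 3 * w ≠ 0 := by linarith
      field_simp
    rw [e1, e2, div_zpow, div_zpow]
    have n1 : (x2 w + 1) ^ u ≠ 0 := zpow_ne_zero _ p2a.ne'
    have n2 : (x2 w - 1) ^ v ≠ 0 := zpow_ne_zero _ p2b.ne
    field_simp
  have Q1 := L1.div L2 hlim2
  have Q3 := L3.div L2 hlim2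
  rw [hrat1] at Q1
  rw [hrat3] at Q3
  have E1 := ((Q1.sub_const (d1 / d2)).abs).eventually_lt_const hr1
  have E3 := ((Q3.sub_const (d3 / d2)).abs).eventually_lt_const hr3
  have E2 := L2.eventually_ne hlim2
  obtain ⟨N, hN1, hN3, hN2⟩ := (E1.and (E3.and E2)).exists
  rw [Pi.div_apply] at hN1 hN3
  set G := ∫ t in (-2 : ℝ)..2, ((2 + t) ^ a * (2 - t) ^ b) ^ N with hG
  have hG0 : G ≠ 0 := fun h => hN2 (by rw [h, div_zero])
  set F : ℝ → ℝ → ℝ := fun lo hi => ∫ x in lo..hi,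
        ((2 + (x ^ 3 - 3 * x)) ^ a * (2 - (x ^ 3 - 3 * x)) ^ b) ^ N *
          ((x + 2) ^ i * (x + 1) ^ j * (x - 1) ^ k * (x - 2) ^ l) with hF
  have hF2 : F (-1) 1 ≠ 0 := fun h => hN2 (by
    have : F (-1) 1 / G = 0 := by rw [h, zero_div]
    exact this)
  have hN1' : |F (-2) (-1) / F (-1) 1 - d1 / d2| < ε' := by
    have : F (-2) (-1) / G / (F (-1) 1 / G) = F (-2) (-1) / F (-1) 1 := by field_simp
    rw [← this]
    exact hN1
  have hN3' : |F 1 2 / F (-1) 1 - d3 / d2| < ε' := by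
    have : F 1 2 / G / (F (-1) 1 / G) = F 1 2 / F (-1) 1 := by field_simp
    rw [← this]
    exact hN3
  -- the polynomial
  set P : ℝ[X] := (X + C 2) ^ (a * N + i) * (X + C 1) ^ (2 * (b * N) + j) *
    (X - C 1) ^ (2 * (a * N) + k) * (X - C 2) ^ (b * N + l) with hP
  have hPeval : ∀ x : ℝ, P.eval x = (-1) ^ (b * N) *
      (((2 + (x ^ 3 - 3 * x)) ^ a * (2 - (x ^ 3 - 3 * x)) ^ b) ^ N *
          ((x + 2) ^ i * (x + 1) ^ j * (x - 1) ^ k * (x - 2) ^ l)) := by
    intro x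
    rw [hP]
    simp only [eval_mul, eval_pow, eval_add, eval_sub, eval_X, eval_C]
    have e3 : 2 + (x ^ 3 - 3 * x) = (x + 2) * (x - 1) ^ 2 := by ring
    have e4 : 2 - (x ^ 3 - 3 * x) = (-1) * ((x - 2) * (x + 1) ^ 2) := by ring
    rw [e3, e4, mul_pow (_ ^ a), ← pow_mul, ← pow_mul, mul_pow (x + 2), mul_pow (-1 : ℝ),
      mul_pow (x - 2), ← pow_mul, ← pow_mul, pow_add, pow_add, pow_add, pow_add]
    have e5 : (-1 : ℝ) ^ (b * N) * (-1) ^ (b * N) = 1 := by
      rw [← mul_pow]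
      norm_num
    linear_combination (-((x + 2) ^ (a * N) * (x - 1) ^ (2 * (a * N)) * ((x - 2) ^ (b * N) *
      (x + 1) ^ (2 * (b * N))) * ((x + 2) ^ i * (x + 1) ^ j * (x - 1) ^ k * (x - 2) ^ l))) * e5
  have hdiff : ∀ lo hi : ℝ, (antider P).eval hi - (antider P).eval lo =
      (-1) ^ (b * N) * F lo hi := by
    intro lo hi
    rw [eval_sub_eval]
    simp_rw [hPeval]
    rw [intervalIntegral.integral_const_mul]
  set s : ℝ := (-1) ^ (b * N) with hs
  have hs0 : s ≠ 0 := pow_ne_zero _ (by norm_num)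
  refine ⟨C (d2 / (s * F (-1) 1)) * antider P, ?_, ?_, ?_, ?_⟩
  · intro z hz
    rw [derivative_C_mul, derivative_antider, hP] at hz
    simp only [map_mul, map_pow, map_add, map_sub, aeval_X, aeval_C] at hz
    have hc0 : (algebraMap ℝ ℂ) (d2 / (s * F (-1) 1)) ≠ 0 := by
      simp only [Complex.coe_algebraMap, ne_eq, Complex.ofReal_eq_zero]
      exact div_ne_zero h2 (mul_ne_zero hs0 hF2)
    rcases mul_eq_zero.1 hz with hz | hz
    · exact absurd hz hc0
    rcases mul_eq_zero.1 hz with hz | hz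
    · rcases mul_eq_zero.1 hz with hz | hz
      · rcases mul_eq_zero.1 hz with hz | hz
        · left
          have := eq_zero_of_pow_eq_zero hz
          simp at this
          linear_combination this
        · right; left
          have := eq_zero_of_pow_eq_zero hz
          simp at this
          linear_combination this
      · right; right; left
        have := eq_zero_of_pow_eq_zero hz
        simp at this
        linear_combination this
    · right; right; right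
      have := eq_zero_of_pow_eq_zero hz
      simp at this
      linear_combination this
  · simp only [eval_mul, eval_C]
    rw [← mul_sub, hdiff]
    have e : d2 / (s * F (-1) 1) * (s * F (-2) (-1)) - d1 =
        d2 * (F (-2) (-1) / F (-1) 1 - d1 / d2) := by
      field_simp
    rw [e, abs_mul]
    calc |d2| * |F (-2) (-1) / F (-1) 1 - d1 / d2| < |d2| * ε' :=
        mul_lt_mul_of_pos_left hN1' hd2
      _ = ε := by rw [hε']; field_simp
  · simp only [eval_mul, eval_C]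
    rw [← mul_sub, hdiff]
    field_simp
  · simp only [eval_mul, eval_C]
    rw [← mul_sub, hdiff]
    have e : d2 / (s * F (-1) 1) * (s * F 1 2) - d3 =
        d2 * (F 1 2 / F (-1) 1 - d3 / d2) := by
      field_simp
    rw [e, abs_mul]
    calc |d2| * |F 1 2 / F (-1) 1 - d3 / d2| < |d2| * ε' :=
        mul_lt_mul_of_pos_left hN3' hd2
      _ = ε := by rw [hε']; field_simp

end Pool.Agent.Q91.CritMain
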