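import Mathlib

/-!
Tuning lemma: integer exponents `u, v` of prescribed parity and `w ∈ (0,1/3)` such that
`((1-w)/(1+w))^u ((1+3w)/(1-3w))^v` and `((1-w)/(2w))^u ((1+3w)/2)^v` are close to prescribed
positive numbers.
-/

open Filter Topology Set

namespace Pool.Agent.Q91.CritTune

/-- Existence of `w` with `p log((1-w)/(2w)) = q log(2/(1+3w))`. -/
theorem exists_w {p : ℕ} (hp : 4 ≤ p) :
    ∃ w : ℝ, 0 < w ∧ w ≤ 1 / 9 ∧
      (p : ℝ) * Real.log ((1 - w) / (2 * w)) +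
        ((p : ℝ) ^ 2 + 1) * Real.log ((1 + 3 * w) / 2) = 0 := by
  have hp' : (4 : ℝ) ≤ p := by exact_mod_cast hp
  set h : ℝ → ℝ := fun w => (p : ℝ) * Real.log ((1 - w) / (2 * w)) +
        ((p : ℝ) ^ 2 + 1) * Real.log ((1 + 3 * w) / 2) with hh
  set w0 : ℝ := (1 / 2) ^ (p ^ 2 + 3) with hw0
  have hw0pos : 0 < w0 := by positivity
  have hw01 : w0 ≤ 1 / 9 := by
    have h1 : w0 ≤ (1 / 2) ^ 4 := by
      rw [hw0]
      exact pow_le_pow_of_le_one (by norm_num) (by norm_num) (by nlinarith)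
    norm_num at h1 ⊢
    linarith
  have hcont : ContinuousOn h (Icc w0 (1 / 9)) := by
    intro w hw
    have hw1 : 0 < w := lt_of_lt_of_le hw0pos hw.1
    have hw2 : w ≤ 1 / 9 := hw.2
    have h1 : ContinuousAt (fun w : ℝ => (1 - w) / (2 * w)) w :=
      (by fun_prop : ContinuousAt (fun w : ℝ => 1 - w) w).div
        (by fun_prop : ContinuousAt (fun w : ℝ => 2 * w) w) (by positivity)
    have h2 : ContinuousAt (fun w : ℝ => (1 + 3 * w) / 2) w := by fun_prop
    have h3 : (1 - w) / (2 * w) ≠ 0 := (div_pos (by linarith) (by linarith)).ne'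
    have h4 : (1 + 3 * w) / 2 ≠ 0 := by positivity
    exact ((continuousAt_const.mul (h1.log h3)).add
      (continuousAt_const.mul (h2.log h4))).continuousWithinAt
  have hend : h (1 / 9) ≤ 0 := by
    simp only [hh]
    have e1 : (1 - (1 / 9 : ℝ)) / (2 * (1 / 9)) = 2 ^ 2 := by norm_num
    have e2 : (1 + 3 * (1 / 9 : ℝ)) / 2 = (3 / 2)⁻¹ := by norm_num
    rw [e1, e2, Real.log_inv, Real.log_pow]
    have h1 : 4 * Real.log (3 / 2) ≥ 2 * Real.log 2 := by
      have : Real.log (2 ^ 2) ≤ Real.log ((3 / 2) ^ 4) :=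
        Real.log_le_log (by norm_num) (by norm_num)
      rw [Real.log_pow, Real.log_pow] at this
      push_cast at this
      linarith
    have h2 : 0 < Real.log (3 / 2) := Real.log_pos (by norm_num)
    push_cast
    nlinarith [mul_nonneg (by linarith : (0 : ℝ) ≤ (p : ℝ) - 4) h2.le,
      mul_nonneg (mul_nonneg (by linarith : (0 : ℝ) ≤ (p : ℝ)) (by linarith : (0 : ℝ) ≤ (p : ℝ) - 4)) h2.le]
  have hstart : 0 ≤ h w0 := by
    simp only [hh]
    have h1 : (2 : ℝ) ^ (p ^ 2 + 1) ≤ (1 - w0) / (2 * w0) := by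
      rw [le_div_iff₀ (by positivity)]
      have h2 : (2 : ℝ) ^ (p ^ 2 + 1) * (2 * w0) = 1 / 2 := by
        rw [hw0, one_div, inv_pow]
        have h3 : (2 : ℝ) ^ (p ^ 2 + 3) = 2 ^ (p ^ 2 + 1) * 4 := by
          rw [show p ^ 2 + 3 = (p ^ 2 + 1) + 2 by ring, pow_add]
          norm_num
        rw [h3]
        have h4 : (0 : ℝ) < 2 ^ (p ^ 2 + 1) := by positivity
        field_simp
        norm_num
      rw [h2]
      linarith
    have h2 : ((p : ℝ) ^ 2 + 1) * Real.log 2 ≤ Real.log ((1 - w0) / (2 * w0)) := by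
      have := Real.log_le_log (by positivity) h1
      rw [Real.log_pow] at this
      push_cast at this
      exact this
    have h3 : -Real.log 2 ≤ Real.log ((1 + 3 * w0) / 2) := by
      rw [← Real.log_inv]
      exact Real.log_le_log (by norm_num) (by linarith)
    have h4 : 0 < Real.log 2 := Real.log_pos (by norm_num)
    have h5 : (0 : ℝ) ≤ Real.log ((1 - w0) / (2 * w0)) := le_trans (by positivity) h2
    nlinarith [mul_nonneg (by linarith : (0 : ℝ) ≤ (p : ℝ) - 1) h5]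
  have hIVT := intermediate_value_Icc' hw01 hcont
  obtain ⟨w, hw, hw0'⟩ := hIVT ⟨hend, hstart⟩
  exact ⟨w, lt_of_lt_of_le hw0pos hw.1, hw.2, hw0'⟩

theorem w_small {p : ℕ} (hp : 4 ≤ p) {w : ℝ} (hw : 0 < w) (hw9 : w ≤ 1 / 9)
    (h : (p : ℝ) * Real.log ((1 - w) / (2 * w)) +
        ((p : ℝ) ^ 2 + 1) * Real.log ((1 + 3 * w) / 2) = 0) :
    w ≤ (2 / 3) ^ p := by
  have hp' : (4 : ℝ) ≤ p := by exact_mod_cast hp
  have h1 : Real.log ((1 + 3 * w) / 2) ≤ -Real.log (3 / 2) := by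
    rw [← Real.log_inv]
    exact Real.log_le_log (by positivity) (by norm_num; linarith)
  have h2 : 0 < Real.log (3 / 2) := Real.log_pos (by norm_num)
  have h3 : (p : ℝ) * (p * Real.log (3 / 2)) ≤ p * Real.log ((1 - w) / (2 * w)) := by
    nlinarith [mul_nonneg (by positivity : (0 : ℝ) ≤ (p : ℝ) ^ 2 + 1)
      (by linarith : 0 ≤ -Real.log (3 / 2) - Real.log ((1 + 3 * w) / 2))]
  have h4 : (p : ℝ) * Real.log (3 / 2) ≤ Real.log ((1 - w) / (2 * w)) :=
    le_of_mul_le_mul_left h3 (by linarith)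
  rw [← Real.log_pow, Real.log_le_log_iff (by positivity)
    (div_pos (by linarith) (by linarith)), le_div_iff₀ (by positivity)] at h4
  have h5 : (3 / 2 : ℝ) ^ p * w ≤ 1 := by
    have : 0 ≤ (3 / 2 : ℝ) ^ p * w := by positivity
    nlinarith
  have h6 : (2 / 3 : ℝ) ^ p * (3 / 2 : ℝ) ^ p = 1 := by
    rw [← mul_pow]
    norm_num
  have h7 : (0 : ℝ) ≤ (2 / 3) ^ p := by positivity
  calc w = (2 / 3 : ℝ) ^ p * ((3 / 2 : ℝ) ^ p * w) := by rw [← mul_assoc, h6, one_mul]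
    _ ≤ (2 / 3 : ℝ) ^ p * 1 := mul_le_mul_of_nonneg_left h5 h7
    _ = _ := mul_one _

/-- Log version of the tuning lemma. -/
theorem tune_log (e f : ℤ) (a1 a3 : ℝ) {η : ℝ} (hη : 0 < η) :
    ∃ (m k : ℤ) (p : ℕ) (w : ℝ), 0 < w ∧ w ≤ 1 / 9 ∧
      |((e + 2 * m + 2 * k * p : ℤ) : ℝ) * Real.log ((1 - w) / (1 + w)) +
        ((f + 2 * m * p + 2 * k * (p ^ 2 + 1) : ℤ) : ℝ) *
          Real.log ((1 + 3 * w) / (1 - 3 * w)) - a1| < η ∧
      |((e + 2 * m + 2 * k * p : ℤ) : ℝ) * Real.log ((1 - w) / (2 * w)) +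
        ((f + 2 * m * p + 2 * k * (p ^ 2 + 1) : ℤ) : ℝ) *
          Real.log ((1 + 3 * w) / 2) - a3| < η := by
  -- choose p
  have hlim1 : Tendsto (fun p : ℕ => 9 * ((2 / 3 : ℝ) ^ p * ((p : ℝ) ^ 2 + p + 1))) atTop
      (𝓝 0) := by
    have t0 := tendsto_pow_const_mul_const_pow_of_abs_lt_one 0 (r := (2 / 3 : ℝ))
      (by rw [abs_of_pos (by norm_num)]; norm_num)
    have t1 := tendsto_pow_const_mul_const_pow_of_abs_lt_one 1 (r := (2 / 3 : ℝ))
      (by rw [abs_of_pos (by norm_num)]; norm_num)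
    have t2 := tendsto_pow_const_mul_const_pow_of_abs_lt_one 2 (r := (2 / 3 : ℝ))
      (by rw [abs_of_pos (by norm_num)]; norm_num)
    have t3 := ((t2.add t1).add t0).const_mul (9 : ℝ)
    simp only [add_zero, mul_zero] at t3
    refine t3.congr fun p => ?_
    ring
  have hlim2 : Tendsto (fun p : ℕ => (1 : ℝ) / p) atTop (𝓝 0) :=
    tendsto_one_div_atTop_nhds_zero_nat
  obtain ⟨p, hp4, hp1, hp2⟩ := ((eventually_ge_atTop 4).and
    ((hlim1.eventually_lt_const hη).and (hlim2.eventually_lt_const hη))).exists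
  have hp' : (4 : ℝ) ≤ p := by exact_mod_cast hp4
  obtain ⟨w, hw, hw9, hrel⟩ := exists_w hp4
  have hws := w_small hp4 hw hw9 hrel
  set L1 := Real.log ((1 - w) / (1 + w)) with hL1
  set M1 := Real.log ((1 + 3 * w) / (1 - 3 * w)) with hM1
  set L3 := Real.log ((1 - w) / (2 * w)) with hL3
  set M3 := Real.log ((1 + 3 * w) / 2) with hM3
  -- kappa
  have hM3neg : M3 < 0 := Real.log_neg (by positivity) (by linarith)
  have hM3low : -1 ≤ M3 := by
    have h1 : -Real.log 2 ≤ M3 := by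
      rw [hM3, ← Real.log_inv]
      exact Real.log_le_log (by norm_num) (by linarith)
    have h2 : Real.log 2 ≤ 1 := by
      have := Real.log_two_lt_d9
      linarith
    linarith
  set κ := -M3 / p with hκ
  have hκpos : 0 < κ := div_pos (by linarith) (by linarith)
  have hκη : κ < η := by
    refine lt_of_le_of_lt ?_ hp2
    rw [hκ]
    exact div_le_div_of_nonneg_right (by linarith) (by linarith)
  have hM3κ : M3 = -(κ * p) := by
    rw [hκ]
    field_simp
  have hL3κ : L3 = κ * ((p : ℝ) ^ 2 + 1) := by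
    have h1 : (p : ℝ) * L3 = p * (κ * ((p : ℝ) ^ 2 + 1)) := by
      rw [hM3κ] at hrel
      linarith
    exact mul_left_cancel₀ (by linarith : (p : ℝ) ≠ 0) h1
  -- delta
  set δ := (p : ℝ) * L1 + ((p : ℝ) ^ 2 + 1) * M1 with hδ
  have hL1M1 : 0 < L1 + M1 := by
    rw [hL1, hM1, ← Real.log_mul (div_pos (by linarith) (by linarith)).ne'
      (div_pos (by linarith) (by linarith)).ne']
    refine Real.log_pos ?_
    rw [div_mul_div_comm, one_lt_div (mul_pos (by linarith) (by linarith))]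
    nlinarith
  have hL1neg : L1 ≤ 0 := by
    refine Real.log_nonpos (div_nonneg (by linarith) (by linarith)) ?_
    rw [div_le_one (by linarith)]
    linarith
  have hM1pos : 0 < M1 := by linarith
  have hδpos : 0 < δ := by
    rw [hδ]
    nlinarith [mul_pos (by linarith : (0 : ℝ) < p) hL1M1,
      mul_nonneg (by nlinarith : (0 : ℝ) ≤ (p : ℝ) ^ 2 + 1 - p) hM1pos.le]
  have hM1up : M1 ≤ 9 * w := by
    have h1 := Real.log_le_sub_one_of_pos (show 0 < (1 + 3 * w) / (1 - 3 * w) from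
      div_pos (by linarith) (by linarith))
    have h2 : (1 + 3 * w) / (1 - 3 * w) - 1 ≤ 9 * w := by
      rw [div_sub_one (by linarith), div_le_iff₀ (by linarith)]
      nlinarith
    linarith
  have hδη : δ < η := by
    refine lt_of_le_of_lt ?_ hp1
    have h1 : δ ≤ ((p : ℝ) ^ 2 + 1) * M1 := by
      rw [hδ]
      nlinarith
    have h2 : ((p : ℝ) ^ 2 + 1) * M1 ≤ ((p : ℝ) ^ 2 + 1) * (9 * w) :=
      mul_le_mul_of_nonneg_left hM1up (by positivity)
    have h3 : ((p : ℝ) ^ 2 + 1) * (9 * w) ≤ ((p : ℝ) ^ 2 + 1) * (9 * (2 / 3) ^ p) :=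
      mul_le_mul_of_nonneg_left (by linarith) (by positivity)
    have h4 : (0 : ℝ) ≤ (2 / 3) ^ p := by positivity
    nlinarith
  -- choose m
  set A : ℝ := e * ((p : ℝ) ^ 2 + 1) - f * p with hA
  set m : ℤ := round ((a3 / κ - A) / 2) with hm
  have hm1 : |κ * (A + 2 * m) - a3| ≤ κ := by
    have h1 := abs_sub_round ((a3 / κ - A) / 2)
    have h2 : κ * (A + 2 * m) - a3 = -(2 * κ) * ((a3 / κ - A) / 2 - m) := by
      field_simp
      ring
    rw [h2, abs_mul, abs_neg, abs_of_pos (by linarith : 0 < 2 * κ)]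
    nlinarith
  set B : ℝ := (e + 2 * m) * L1 + (f + 2 * m * p) * M1 with hB
  set k : ℤ := round ((a1 - B) / (2 * δ)) with hk
  have hk1 : |B + 2 * k * δ - a1| ≤ δ := by
    have h1 := abs_sub_round ((a1 - B) / (2 * δ))
    have h2 : B + 2 * k * δ - a1 = -(2 * δ) * ((a1 - B) / (2 * δ) - k) := by
      field_simp
      ring
    rw [h2, abs_mul, abs_neg, abs_of_pos (by linarith : 0 < 2 * δ)]
    nlinarith
  refine ⟨m, k, p, w, hw, hw9, ?_, ?_⟩
  · have h1 : ((e + 2 * m + 2 * k * p : ℤ) : ℝ) * L1 +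
        ((f + 2 * m * p + 2 * k * (p ^ 2 + 1) : ℤ) : ℝ) * M1 - a1 = B + 2 * k * δ - a1 := by
      rw [hB, hδ]
      push_cast
      ring
    rw [h1]
    exact lt_of_le_of_lt hk1 hδη
  · have h1 : ((e + 2 * m + 2 * k * p : ℤ) : ℝ) * L3 +
        ((f + 2 * m * p + 2 * k * (p ^ 2 + 1) : ℤ) : ℝ) * M3 - a3 = κ * (A + 2 * m) - a3 := by
      rw [hL3κ, hM3κ, hA]
      push_cast
      ring
    rw [h1]
    exact lt_of_le_of_lt hm1 hκη

end Pool.Agent.Q91.CritTune

namespace Pool.Agent.Q91.CritTune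

theorem zpow_mul_zpow_eq_exp {y z : ℝ} (hy : 0 < y) (hz : 0 < z) (u v : ℤ) :
    y ^ u * z ^ v = Real.exp (u * Real.log y + v * Real.log z) := by
  rw [Real.exp_add, mul_comm (u : ℝ), mul_comm (v : ℝ), Real.exp_mul, Real.exp_mul,
    Real.exp_log hy, Real.exp_log hz, Real.rpow_intCast, Real.rpow_intCast]

theorem exp_near {R : ℝ} (hR : R ≠ 0) {ε : ℝ} (hε : 0 < ε) :
    ∃ η > 0, ∀ s : ℝ, |s - Real.log (abs R)| < η → |Real.exp s - abs R| < ε := by
  have h1 := Real.continuous_exp.continuousAt (x := Real.log (abs R))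
  rw [Metric.continuousAt_iff] at h1
  obtain ⟨η, hη, h2⟩ := h1 ε hε
  refine ⟨η, hη, fun s hs => ?_⟩
  have h3 := h2 (x := s) (by rwa [Real.dist_eq])
  rwa [Real.dist_eq, Real.exp_log (abs_pos.2 hR)] at h3

/-- Sign version: for nonzero targets. -/
theorem tune {R1 R3 : ℝ} (h1 : R1 ≠ 0) (h3 : R3 ≠ 0) {ε : ℝ} (hε : 0 < ε) :
    ∃ (u v : ℤ) (w : ℝ), 0 < w ∧ w ≤ 1 / 9 ∧
      |-((-((1 - w) / (1 + w))) ^ u * ((1 + 3 * w) / (1 - 3 * w)) ^ v) - R1| < ε ∧
      |-(((1 - w) / (2 * w)) ^ u * (-((1 + 3 * w) / 2)) ^ v) - R3| < ε := by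
  obtain ⟨η1, hη1, hn1⟩ := exp_near h1 hε
  obtain ⟨η3, hη3, hn3⟩ := exp_near h3 hε
  obtain ⟨m, k, p, w, hw, hw9, ht1, ht3⟩ := tune_log (if 0 < R1 then 1 else 0)
    (if 0 < R3 then 1 else 0) (Real.log (abs R1)) (Real.log (abs R3)) (lt_min hη1 hη3)
  set u : ℤ := (if 0 < R1 then 1 else 0) + 2 * m + 2 * k * p with hu
  set v : ℤ := (if 0 < R3 then 1 else 0) + 2 * m * p + 2 * k * (p ^ 2 + 1) with hv
  have hy1 : 0 < (1 - w) / (1 + w) := div_pos (by linarith) (by linarith)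
  have hz1 : 0 < (1 + 3 * w) / (1 - 3 * w) := div_pos (by linarith) (by linarith)
  have hy3 : 0 < (1 - w) / (2 * w) := div_pos (by linarith) (by linarith)
  have hz3 : 0 < (1 + 3 * w) / 2 := by positivity
  have k1 := hn1 _ (lt_of_lt_of_le ht1 (min_le_left _ _))
  have k3 := hn3 _ (lt_of_lt_of_le ht3 (min_le_right _ _))
  rw [← zpow_mul_zpow_eq_exp hy1 hz1] at k1
  rw [← zpow_mul_zpow_eq_exp hy3 hz3] at k3
  refine ⟨u, v, w, hw, hw9, ?_, ?_⟩
  · rcases lt_or_gt_of_ne h1 with hneg | hpos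
    · have hev : Even u := by
        rw [hu, if_neg (by linarith)]
        exact ⟨m + k * p, by ring⟩
      rw [hev.neg_zpow]
      rw [abs_of_neg hneg] at k1
      rw [← abs_neg]
      have e : -(-(((1 - w) / (1 + w)) ^ u * ((1 + 3 * w) / (1 - 3 * w)) ^ v) - R1) =
        ((1 - w) / (1 + w)) ^ u * ((1 + 3 * w) / (1 - 3 * w)) ^ v - -R1 := by ring
      rw [e]
      exact k1
    · have hodd : Odd u := by
        rw [hu, if_pos hpos]
        exact ⟨m + k * p, by ring⟩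
      rw [hodd.neg_zpow]
      rw [abs_of_pos hpos] at k1
      have e : -(-((1 - w) / (1 + w)) ^ u * ((1 + 3 * w) / (1 - 3 * w)) ^ v) - R1 =
        ((1 - w) / (1 + w)) ^ u * ((1 + 3 * w) / (1 - 3 * w)) ^ v - R1 := by ring
      rw [e]
      exact k1
  · rcases lt_or_gt_of_ne h3 with hneg | hpos
    · have hev : Even v := by
        rw [hv, if_neg (by linarith)]
        exact ⟨m * p + k * (p ^ 2 + 1), by ring⟩
      rw [hev.neg_zpow]
      rw [abs_of_neg hneg] at k3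
      rw [← abs_neg]
      have e : -(-(((1 - w) / (2 * w)) ^ u * ((1 + 3 * w) / 2) ^ v) - R3) =
        ((1 - w) / (2 * w)) ^ u * ((1 + 3 * w) / 2) ^ v - -R3 := by ring
      rw [e]
      exact k3
    · have hodd : Odd v := by
        rw [hv, if_pos hpos]
        exact ⟨m * p + k * (p ^ 2 + 1), by ring⟩
      rw [hodd.neg_zpow]
      rw [abs_of_pos hpos] at k3
      have e : -(((1 - w) / (2 * w)) ^ u * -((1 + 3 * w) / 2) ^ v) - R3 =
        ((1 - w) / (2 * w)) ^ u * ((1 + 3 * w) / 2) ^ v - R3 := by ring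
      rw [e]
      exact k3

end Pool.Agent.Q91.CritTune
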