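import Mathlib

set_option autoImplicit false
set_option maxHeartbeats 400000

open Filter Topology Set

namespace Pool.Agent.Q91.DPX

/-- `u` is a normal fuzzy set on `X`: upper semicontinuous with values in `[0,1]`, attaining the
value `1`, and with `closure {u > 0}` compact. -/
structure IsFuzzy {X : Type*} [MetricSpace X] (u : X → ℝ) : Prop where
  nonneg : ∀ x, 0 ≤ u x
  le_one : ∀ x, u x ≤ 1
  usc : UpperSemicontinuous u
  normal : ∃ x, u x = 1
  cpt : IsCompact (closure {x | 0 < u x})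

/-- The Zadeh extension as a map on functions. -/
noncomputable def zadeh {X : Type*} (f : X → X) (u : X → ℝ) (y : X) : ℝ :=
  sSup {t | ∃ x, f x = y ∧ t = u x}

section
variable {X : Type*} [MetricSpace X]

theorem zadeh_bdd {f : X → X} {u : X → ℝ} (hu : IsFuzzy u) (y : X) :
    BddAbove {t | ∃ x, f x = y ∧ t = u x} := by
  refine ⟨1, ?_⟩
  rintro t ⟨x, -, rfl⟩
  exact hu.le_one x

theorem le_zadeh {f : X → X} {u : X → ℝ} (hu : IsFuzzy u) (x : X) : u x ≤ zadeh f u (f x) :=
  le_csSup (zadeh_bdd hu (f x)) ⟨x, rfl, rfl⟩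

theorem zadeh_nonneg {f : X → X} {u : X → ℝ} (hu : IsFuzzy u) (y : X) : 0 ≤ zadeh f u y := by
  refine Real.sSup_nonneg ?_
  rintro t ⟨x, -, rfl⟩
  exact hu.nonneg x

theorem zadeh_le_one {f : X → X} {u : X → ℝ} (hu : IsFuzzy u) (y : X) : zadeh f u y ≤ 1 := by
  refine Real.sSup_le ?_ zero_le_one
  rintro t ⟨x, -, rfl⟩
  exact hu.le_one x

/-- the supremum is attained when it is positive -/
theorem zadeh_attained {f : X → X} (hf : Continuous f) {u : X → ℝ} (hu : IsFuzzy u) (y : X)
    (hy : 0 < zadeh f u y) : ∃ x, f x = y ∧ u x = zadeh f u y := by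
  have hne : {t | ∃ x, f x = y ∧ t = u x}.Nonempty := by
    by_contra h
    rw [Set.not_nonempty_iff_eq_empty] at h
    rw [zadeh, h, Real.sSup_empty] at hy
    exact lt_irrefl _ hy
  obtain ⟨t0, ht0, ht0'⟩ := exists_lt_of_lt_csSup hne hy
  obtain ⟨x0, hx0, rfl⟩ := ht0
  have hK : IsCompact (closure {x | 0 < u x} ∩ f ⁻¹' {y}) :=
    hu.cpt.inter_right (isClosed_singleton.preimage hf)
  have hKne : (closure {x | 0 < u x} ∩ f ⁻¹' {y}).Nonempty := ⟨x0, subset_closure ht0', hx0⟩
  obtain ⟨x1, hx1, hmax⟩ := (hu.usc.upperSemicontinuousOn _).exists_isMaxOn hKne hK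
  refine ⟨x1, hx1.2, ?_⟩
  refine le_antisymm (le_csSup (zadeh_bdd hu y) ⟨x1, hx1.2, rfl⟩) ?_
  refine csSup_le hne ?_
  rintro t ⟨x, hx, rfl⟩
  by_cases hpos : 0 < u x
  · exact hmax ⟨subset_closure hpos, hx⟩
  · exact le_trans (not_lt.mp hpos) (hu.nonneg x1)

theorem zadeh_isFuzzy {f : X → X} (hf : Continuous f) {u : X → ℝ} (hu : IsFuzzy u) :
    IsFuzzy (zadeh f u) := by
  have hset : ∀ c : ℝ, 0 < c → {y | c ≤ zadeh f u y} = f '' (closure {x | 0 < u x} ∩ {x | c ≤ u x}) := by
    intro c hc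
    ext y
    constructor
    · intro hy
      obtain ⟨x, hx, hux⟩ := zadeh_attained hf hu y (lt_of_lt_of_le hc hy)
      refine ⟨x, ⟨subset_closure ?_, ?_⟩, hx⟩
      · change 0 < u x
        rw [hux]; exact lt_of_lt_of_le hc hy
      · change c ≤ u x
        rw [hux]; exact hy
    · rintro ⟨x, ⟨-, hx⟩, rfl⟩
      exact le_trans hx (le_zadeh hu x)
  have hclosed : ∀ c : ℝ, 0 < c → IsClosed {y | c ≤ zadeh f u y} := by
    intro c hc
    rw [hset c hc]
    refine IsCompact.isClosed (IsCompact.image ?_ hf)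
    refine hu.cpt.inter_right ?_
    exact (upperSemicontinuous_iff_isClosed_preimage.mp hu.usc) c
  refine ⟨zadeh_nonneg hu, zadeh_le_one hu, ?_, ?_, ?_⟩
  · rw [upperSemicontinuous_iff_isClosed_preimage]
    intro c
    by_cases hc : 0 < c
    · exact hclosed c hc
    · have : zadeh f u ⁻¹' Ici c = univ := by
        ext y
        simp only [mem_preimage, mem_Ici, mem_univ, iff_true]
        exact le_trans (not_lt.mp hc) (zadeh_nonneg hu y)
      rw [this]
      exact isClosed_univ
  · obtain ⟨x, hx⟩ := hu.normal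
    refine ⟨f x, le_antisymm (zadeh_le_one hu _) ?_⟩
    rw [← hx]
    exact le_zadeh hu x
  · have hsub : closure {y | 0 < zadeh f u y} ⊆ f '' (closure {x | 0 < u x}) := by
      refine closure_minimal ?_ (hu.cpt.image hf).isClosed
      intro y hy
      obtain ⟨x, hx, hux⟩ := zadeh_attained hf hu y hy
      refine ⟨x, subset_closure ?_, hx⟩
      change 0 < u x
      rw [hux]; exact hy
    exact (hu.cpt.image hf).of_isClosed_subset isClosed_closure hsub

end

/-- The space of normal fuzzy sets on `X`. -/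
abbrev FuzzySet (X : Type*) [MetricSpace X] : Type _ := {u : X → ℝ // IsFuzzy u}

/-- The endograph of `u`. -/
def endo {X : Type*} (u : X → ℝ) : Set (X × ℝ) := {p | 0 ≤ p.2 ∧ p.2 ≤ u p.1}

/-- The endograph metric: Hausdorff distance of the endographs, where `X × ℝ` has the maximum
metric. -/
noncomputable def dE {X : Type*} [MetricSpace X] (u v : FuzzySet X) : ℝ :=
  Metric.hausdorffDist (endo u.1) (endo v.1)

/-- The Zadeh extension as a self-map of the space of normal fuzzy sets. -/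
noncomputable def zadehMap {X : Type*} [MetricSpace X] (f : X → X) (hf : Continuous f)
    (u : FuzzySet X) : FuzzySet X := ⟨zadeh f u.1, zadeh_isFuzzy hf u.2⟩

/-- The system `g : Y → Y` has a dense proximal relation with respect to `ρ`. -/
def DenseProximal {Y : Type*} (ρ : Y → Y → ℝ) (g : Y → Y) : Prop :=
  ∀ y z : Y, ∀ ε : ℝ, 0 < ε → ∃ y' z' : Y, ρ y y' < ε ∧ ρ z z' < ε ∧
    ∀ δ : ℝ, 0 < δ → ∃ᶠ n : ℕ in atTop, ρ (g^[n] y') (g^[n] z') < δ

theorem zadehMap_iter {X : Type*} [MetricSpace X] (f : X → X) (hf : Continuous f)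
    (u : FuzzySet X) (n : ℕ) : ((zadehMap f hf)^[n] u).1 = (zadeh f)^[n] u.1 := by
  induction n generalizing u with
  | zero => rfl
  | succ n ih =>
    rw [Function.iterate_succ_apply, Function.iterate_succ_apply, ih]
    rfl

end Pool.Agent.Q91.DPX
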