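import Pool.Agent.Q91.DPA

set_option autoImplicit false
set_option maxHeartbeats 400000

open Filter Topology Set

namespace Pool.Agent.Q91.DPX

/-- A symbol: (reset flag, digit, follower mark). -/
abbrev Sym := Bool × Bool × Bool

/-- value (0 or 1) of a flag -/
def bt (b : Bool) : ℕ := if b then 1 else 0

/-- the number written by the digits since the last reset up to time `k` -/
def Hn (a : ℕ → Sym) : ℕ → ℕ
  | 0 => 0
  | k + 1 => if (a (k + 1)).1 then 0 else 2 * Hn a k + bt (a (k + 1)).2.1

/-- the code at time `k` -/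
def cn (a : ℕ → Sym) (k : ℕ) : ℕ :=
  if (a k).2.2 then Hn a k + 4 + (Hn a k + bt (a 0).2.1 + 1) % 2
  else Hn a k + 1 + (Hn a k + 1 + bt (a 0).2.1) % 2

/-- the mode at time `k` -/
def md (k : ℕ) : ℕ := (Nat.unpair k).1

/-- the resets seen at time `k` -/
def rho (a : ℕ → Sym) (k : ℕ) : Finset ℕ := (Finset.Ioc (md k) k).filter (fun i => (a i).1 = true)

/-- the value at time `k` -/
def val (a : ℕ → Sym) (k : ℕ) : ℕ :=
  Encodable.encode (rho a k, if rho a k = ∅ then bt (a 0).2.1 else cn a k)

/-- A point of the phase space. -/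
@[ext]
structure Pt where
  lev : ℕ
  seq : ℕ → Sym
  fr : ∃ B, ∀ i, B ≤ i → (seq i).1 = false
  fl : ∃ B, ∀ i, B ≤ i → (seq i).2.2 = false

/-- injective coding of symbols by positive integers -/
def sc (s : Sym) : ℕ := 1 + Encodable.encode s

theorem sc_inj {s t : Sym} (h : sc s = sc t) : s = t := by
  unfold sc at h
  exact Encodable.encode_injective (by omega)

theorem sc_pos (s : Sym) : sc s ≠ 0 := by unfold sc; omega

/-- the embedding of the phase space in `ℕ → ℕ` -/
def emb (x : Pt) : ℕ → ℕ
  | 0 => val x.seq (Nat.sqrt x.lev)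
  | i + 1 => if i < x.lev then 0 else sc (x.seq (i - x.lev))

theorem emb_lev {x y : Pt} (h : ∀ i, i ≤ x.lev + 1 → emb x i = emb y i) : x.lev = y.lev := by
  rcases lt_trichotomy x.lev y.lev with hlt | heq | hgt
  · have := h (x.lev + 1) le_rfl
    simp only [emb, lt_irrefl, if_false, hlt, if_true] at this
    exact absurd this (sc_pos _)
  · exact heq
  · have := h (y.lev + 1) (by omega)
    simp only [emb, lt_irrefl, if_false, hgt, if_true] at this
    exact absurd this.symm (sc_pos _)

theorem emb_seq {x y : Pt} {B : ℕ} (h : ∀ i, i ≤ x.lev + B + 1 → emb x i = emb y i) :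
    x.lev = y.lev ∧ ∀ j, j ≤ B → x.seq j = y.seq j := by
  have hl := emb_lev (x := x) (y := y) (fun i hi => h i (by omega))
  refine ⟨hl, ?_⟩
  intro j hj
  have := h (x.lev + j + 1) (by omega)
  have h1 : ¬ (x.lev + j < x.lev) := by omega
  have h2 : ¬ (x.lev + j < y.lev) := by omega
  have h3 : x.lev + j - x.lev = j := by omega
  have h4 : x.lev + j - y.lev = j := by omega
  simp only [emb, h1, h2, if_false, h3, h4] at this
  exact sc_inj this

theorem emb_injective : Function.Injective emb := by
  intro x y h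
  have h1 : x.lev = y.lev := emb_lev (fun i _ => by rw [h])
  have h2 : ∀ j, x.seq j = y.seq j := fun j => (emb_seq (B := j) (fun i _ => by rw [h])).2 j le_rfl
  exact Pt.ext h1 (funext h2)

noncomputable instance : MetricSpace Pt := MetricSpace.induced emb emb_injective PiNat.metricSpaceNatNat

theorem dist_le_iff {x y : Pt} {n : ℕ} :
    dist x y ≤ (1 / 2 : ℝ) ^ n ↔ ∀ i, i < n → emb x i = emb y i := by
  letI : Dist (ℕ → ℕ) := PiNat.dist
  have h : dist x y = dist (emb x) (emb y) := rfl
  rw [h, ← PiNat.mem_cylinder_iff_dist_le, PiNat.mem_cylinder_iff]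

theorem of_dist_lt {x y : Pt} {n : ℕ} (h : dist x y < (1 / 2 : ℝ) ^ n) :
    ∀ i, i ≤ n → emb x i = emb y i := by
  letI : Dist (ℕ → ℕ) := PiNat.dist
  have h' : dist x y = dist (emb x) (emb y) := rfl
  rw [h'] at h
  intro i hi
  exact PiNat.apply_eq_of_dist_lt h hi

theorem emb_inducing : Topology.IsInducing emb := ⟨rfl⟩

theorem continuous_emb : Continuous emb := emb_inducing.continuous

theorem continuous_to {Y : Type*} [TopologicalSpace Y] {g : Y → Pt} :
    Continuous g ↔ ∀ i, Continuous (fun y => emb (g y) i) := by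
  rw [emb_inducing.continuous_iff, continuous_pi_iff]
  rfl

/-- functions depending locally on finitely many coordinates are locally constant -/
theorem loc_const {Y : Type*} [TopologicalSpace Y] {F : Pt → Y}
    (h : ∀ N, ∃ B, ∀ x y : Pt, x.lev = N → y.lev = N → (∀ j, j ≤ B → x.seq j = y.seq j) → F x = F y) :
    Continuous F := by
  rw [continuous_iff_continuousAt]
  intro x
  obtain ⟨B, hB⟩ := h x.lev
  have : ∀ᶠ y in 𝓝 x, F y = F x := by
    filter_upwards [Metric.ball_mem_nhds x (show (0:ℝ) < (1/2)^(x.lev + B + 1) by positivity)]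
      with y hy
    rw [Metric.mem_ball, dist_comm] at hy
    have h1 := emb_seq (B := B) (of_dist_lt hy)
    exact (hB x y rfl h1.1.symm h1.2).symm
  exact (continuousAt_const.congr (this.mono fun y hy => hy.symm))

theorem continuous_lev : Continuous Pt.lev :=
  loc_const fun N => ⟨0, fun x y hx hy _ => by rw [hx, hy]⟩

theorem continuous_seq (j : ℕ) : Continuous (fun x : Pt => x.seq j) :=
  loc_const fun N => ⟨j, fun x y _ _ h => h j le_rfl⟩

theorem Hn_congr {a b : ℕ → Sym} {k : ℕ} (h : ∀ j, j ≤ k → a j = b j) : Hn a k = Hn b k := by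
  induction k with
  | zero => rfl
  | succ k ih =>
    simp only [Hn]
    rw [h (k + 1) le_rfl, ih (fun j hj => h j (by omega))]

theorem cn_congr {a b : ℕ → Sym} {k : ℕ} (h : ∀ j, j ≤ k → a j = b j) : cn a k = cn b k := by
  unfold cn
  rw [h k le_rfl, h 0 (Nat.zero_le _), Hn_congr h]

theorem rho_congr {a b : ℕ → Sym} {k : ℕ} (h : ∀ j, j ≤ k → a j = b j) : rho a k = rho b k := by
  unfold rho
  refine Finset.filter_congr ?_
  intro i hi
  rw [Finset.mem_Ioc] at hi
  rw [h i hi.2]

theorem val_congr {a b : ℕ → Sym} {k : ℕ} (h : ∀ j, j ≤ k → a j = b j) : val a k = val b k := by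
  unfold val
  rw [rho_congr h, cn_congr h, h 0 (Nat.zero_le _)]

/-- the map: move one level up -/
def up (x : Pt) : Pt := ⟨x.lev + 1, x.seq, x.fr, x.fl⟩

theorem continuous_up : Continuous up := by
  rw [continuous_to]
  intro i
  refine loc_const ?_
  intro N
  refine ⟨i + Nat.sqrt (N + 1), ?_⟩
  intro x y hx hy h
  cases i with
  | zero =>
    simp only [emb, up, hx, hy]
    exact val_congr (fun j hj => h j (by omega))
  | succ i =>
    simp only [emb, up, hx, hy]
    split_ifs
    · rfl
    · rw [h (i - (N + 1)) (by omega)]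

theorem up_iter (x : Pt) (s : ℕ) : up^[s] x = ⟨x.lev + s, x.seq, x.fr, x.fl⟩ := by
  induction s with
  | zero => rfl
  | succ s ih =>
    rw [Function.iterate_succ_apply', ih]
    rfl

/-- points with equal values at possibly different levels are close -/
theorem dist_le_of_val {x y : Pt} {s : ℕ} (hv : val x.seq (Nat.sqrt x.lev) = val y.seq (Nat.sqrt y.lev))
    (hx : s ≤ x.lev) (hy : s ≤ y.lev) : dist x y ≤ (1 / 2 : ℝ) ^ s := by
  rw [dist_le_iff]
  intro i hi
  cases i with
  | zero => exact hv
  | succ i =>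
    have h1 : i < x.lev := by omega
    have h2 : i < y.lev := by omega
    simp only [emb, h1, h2, if_true]

/-- points at the same level with equal prefixes are close -/
theorem dist_le_of_seq {x y : Pt} {n : ℕ} (hl : x.lev = y.lev) (hk : Nat.sqrt x.lev ≤ n)
    (h : ∀ j, j ≤ n → x.seq j = y.seq j) : dist x y ≤ (1 / 2 : ℝ) ^ n := by
  rw [dist_le_iff]
  intro i hi
  cases i with
  | zero =>
    simp only [emb]
    rw [← hl]
    exact val_congr (fun j hj => h j (by omega))
  | succ i =>
    simp only [emb]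
    rw [← hl]
    split_ifs
    · rfl
    · rw [h _ (by omega)]

end Pool.Agent.Q91.DPX
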