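import Pool.Agent.Q91.DPB

set_option autoImplicit false
set_option maxHeartbeats 400000

open Filter Topology Set

namespace Pool.Agent.Q91.DPX

/-- the `i`-th term of a binary expansion -/
noncomputable def bterm (b : ℕ → Bool) (i : ℕ) : ℝ := if b i then (1 / 2) ^ i else 0

/-- binary expansion -/
noncomputable def bin (b : ℕ → Bool) : ℝ := ∑' i, bterm b i

theorem bterm_nonneg (b : ℕ → Bool) (i : ℕ) : 0 ≤ bterm b i := by
  unfold bterm; split_ifs <;> positivity

theorem bterm_le (b : ℕ → Bool) (i : ℕ) : bterm b i ≤ (1 / 2) ^ i := by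
  unfold bterm; split_ifs
  · exact le_rfl
  · positivity

theorem bterm_summable (b : ℕ → Bool) : Summable (bterm b) :=
  Summable.of_nonneg_of_le (bterm_nonneg b) (bterm_le b) summable_geometric_two

theorem bterm_mono {b c : ℕ → Bool} (h : ∀ i, b i = true → c i = true) (i : ℕ) :
    bterm b i ≤ bterm c i := by
  unfold bterm
  by_cases hb : b i = true
  · rw [if_pos hb, if_pos (h i hb)]
  · rw [if_neg hb]; split_ifs <;> positivity

theorem bin_lt {b c : ℕ → Bool} (h : ∀ i, b i = true → c i = true) {j : ℕ} (hb : b j = false)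
    (hc : c j = true) : bin b < bin c := by
  refine Summable.tsum_lt_tsum (i := j) (bterm_mono h) ?_ (bterm_summable b) (bterm_summable c)
  unfold bterm
  rw [hb, hc]
  simp

theorem bin_nonneg (b : ℕ → Bool) : 0 ≤ bin b := tsum_nonneg (bterm_nonneg b)

theorem tail_geom (k : ℕ) : ∑' i : ℕ, ((1:ℝ) / 2) ^ (i + (k + 1)) = (1 / 2) ^ k := by
  simp_rw [pow_add _ _ (k + 1)]
  rw [tsum_mul_right, tsum_geometric_two, pow_succ]
  ring

theorem bin_ge (b : ℕ → Bool) (k : ℕ) : ∑ i ∈ Finset.range (k + 1), bterm b i ≤ bin b :=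
  (bterm_summable b).sum_le_tsum _ (fun i _ => bterm_nonneg b i)

theorem bin_le (b : ℕ → Bool) (k : ℕ) :
    bin b ≤ ∑ i ∈ Finset.range (k + 1), bterm b i + (1 / 2) ^ k := by
  unfold bin
  rw [← (bterm_summable b).sum_add_tsum_nat_add (k + 1), ← tail_geom k]
  gcongr
  · exact (summable_nat_add_iff (k + 1)).mpr (bterm_summable b)
  · exact (summable_nat_add_iff (k + 1)).mpr summable_geometric_two
  · exact bterm_le b _

theorem bin_continuous {X : Type*} [TopologicalSpace X] {F : X → ℕ → Bool}
    (h : ∀ i, Continuous fun x => F x i) : Continuous fun x => bin (F x) := by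
  unfold bin
  refine continuous_tsum (u := fun i : ℕ => ((1:ℝ)/2) ^ i) ?_ summable_geometric_two ?_
  · intro i
    have : (fun x => bterm (F x) i) = (fun b : Bool => if b then ((1:ℝ)/2)^i else 0) ∘ (fun x => F x i) := by
      ext x; rfl
    rw [this]
    exact (continuous_of_discreteTopology).comp (h i)
  · intro i x
    rw [Real.norm_eq_abs, abs_of_nonneg (bterm_nonneg _ _)]
    exact bterm_le _ _

/-- digits after `q` -/
def dg (q : ℕ) (a : ℕ → Sym) (i : ℕ) : Bool := decide (q < i) && (a i).2.1

/-- resets after `n` -/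
def rs (n : ℕ) (a : ℕ → Sym) (i : ℕ) : Bool := decide (n < i) && (a i).1

/-- height -/
noncomputable def hh (q : ℕ) (a : ℕ → Sym) : ℝ := bin (dg q a)

/-- reset weight -/
noncomputable def rr (n : ℕ) (a : ℕ → Sym) : ℝ := bin (rs n a)

theorem hh_continuous (q : ℕ) : Continuous fun x : Pt => hh q x.seq := by
  refine bin_continuous ?_
  intro i
  have : (fun x : Pt => dg q x.seq i) = (fun s : Sym => decide (q < i) && s.2.1) ∘ (fun x : Pt => x.seq i) := rfl
  rw [this]
  exact continuous_of_discreteTopology.comp (continuous_seq i)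

theorem rr_continuous (n : ℕ) : Continuous fun x : Pt => rr n x.seq := by
  refine bin_continuous ?_
  intro i
  have : (fun x : Pt => rs n x.seq i) = (fun s : Sym => decide (n < i) && s.1) ∘ (fun x : Pt => x.seq i) := rfl
  rw [this]
  exact continuous_of_discreteTopology.comp (continuous_seq i)

theorem partial_eq {a : ℕ → Sym} {q k : ℕ} (hqk : q ≤ k) (hq : Hn a q = 0)
    (hr : ∀ i, q < i → i ≤ k → (a i).1 = false) :
    ∑ i ∈ Finset.range (k + 1), bterm (dg q a) i = Hn a k * (1 / 2) ^ k := by
  induction k, hqk using Nat.le_induction with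
  | base =>
    rw [hq]
    simp only [Nat.cast_zero, zero_mul]
    refine Finset.sum_eq_zero ?_
    intro i hi
    rw [Finset.mem_range] at hi
    have : ¬ q < i := by omega
    simp [bterm, dg, this]
  | succ k hk ih =>
    rw [Finset.sum_range_succ, ih (fun i h1 h2 => hr i h1 (by omega))]
    have h1 : (a (k + 1)).1 = false := hr (k + 1) (by omega) le_rfl
    have h2 : q < k + 1 := by omega
    simp only [Hn, h1, bterm, dg, h2, decide_true, Bool.true_and, bt]
    by_cases hd : (a (k+1)).2.1 = true
    · simp only [hd, if_true, Bool.false_eq_true, if_false]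
      push_cast
      ring
    · simp only [Bool.not_eq_true] at hd
      simp only [hd, Bool.false_eq_true, if_false]
      push_cast
      ring

theorem hh_ge {a : ℕ → Sym} {q k : ℕ} (hqk : q ≤ k) (hq : Hn a q = 0)
    (hr : ∀ i, q < i → i ≤ k → (a i).1 = false) : (Hn a k : ℝ) * (1 / 2) ^ k ≤ hh q a := by
  rw [← partial_eq hqk hq hr]; exact bin_ge _ _

theorem hh_le {a : ℕ → Sym} {q k : ℕ} (hqk : q ≤ k) (hq : Hn a q = 0)
    (hr : ∀ i, q < i → i ≤ k → (a i).1 = false) : hh q a ≤ ((Hn a k : ℝ) + 1) * (1 / 2) ^ k := by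
  rw [add_mul, one_mul, ← partial_eq hqk hq hr]; exact bin_le _ _

theorem hh_le_pow (a : ℕ → Sym) (q : ℕ) : hh q a ≤ (1 / 2) ^ q := by
  have h := bin_le (dg q a) q
  have h0 : ∑ i ∈ Finset.range (q + 1), bterm (dg q a) i = 0 := by
    refine Finset.sum_eq_zero ?_
    intro i hi
    rw [Finset.mem_range] at hi
    have : ¬ q < i := by omega
    simp [bterm, dg, this]
  rw [h0, zero_add] at h
  exact h

theorem hh_nonneg (a : ℕ → Sym) (q : ℕ) : 0 ≤ hh q a := bin_nonneg _

theorem hh_eq_pow {a : ℕ → Sym} {q : ℕ} (h : ∀ i, q < i → (a i).2.1 = true) :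
    hh q a = (1 / 2) ^ q := by
  unfold hh bin
  rw [← (bterm_summable (dg q a)).sum_add_tsum_nat_add (q + 1), ← tail_geom q]
  have h0 : ∑ i ∈ Finset.range (q + 1), bterm (dg q a) i = 0 := by
    refine Finset.sum_eq_zero ?_
    intro i hi
    rw [Finset.mem_range] at hi
    have : ¬ q < i := by omega
    simp [bterm, dg, this]
  rw [h0, zero_add]
  refine tsum_congr ?_
  intro i
  have h1 : q < i + (q + 1) := by omega
  simp [bterm, dg, h1, h _ h1]

/-- realising a number by digits -/
theorem Hn_realise {a : ℕ → Sym} {q k H : ℕ} (hqk : q ≤ k) (hq : Hn a q = 0)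
    (hr : ∀ i, q < i → i ≤ k → (a i).1 = false) (hH : H < 2 ^ (k - q))
    (hd : ∀ i, q < i → i ≤ k → (a i).2.1 = decide (H / 2 ^ (k - i) % 2 = 1)) : Hn a k = H := by
  have key : ∀ j, q ≤ j → j ≤ k → Hn a j = H / 2 ^ (k - j) := by
    intro j hj
    induction j, hj using Nat.le_induction with
    | base => intro _; rw [hq, Nat.div_eq_of_lt hH]
    | succ j hj ih =>
      intro hjk
      have h1 : (a (j + 1)).1 = false := hr (j + 1) (by omega) hjk
      simp only [Hn, h1, Bool.false_eq_true, if_false]
      rw [ih (by omega), hd (j + 1) (by omega) hjk]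
      have h2 : k - j = (k - (j + 1)) + 1 := by omega
      rw [h2, pow_succ, ← Nat.div_div_eq_div_mul]
      generalize H / 2 ^ (k - (j + 1)) = m
      unfold bt
      by_cases hm : m % 2 = 1
      · simp only [hm, decide_true, if_true]; omega
      · simp only [hm, decide_false, Bool.false_eq_true, if_false]; omega
  have := key k hqk le_rfl
  simpa using this

theorem Hn_lt {a : ℕ → Sym} {q k : ℕ} (hqk : q ≤ k) (hq : Hn a q = 0)
    (hr : ∀ i, q < i → i ≤ k → (a i).1 = false) : Hn a k < 2 ^ (k - q) := by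
  induction k, hqk using Nat.le_induction with
  | base => rw [hq]; simp
  | succ k hk ih =>
    have h1 : (a (k + 1)).1 = false := hr (k + 1) (by omega) le_rfl
    have h2 := ih (fun i h1 h2 => hr i h1 (by omega))
    simp only [Hn, h1, Bool.false_eq_true, if_false]
    have h3 : k + 1 - q = (k - q) + 1 := by omega
    rw [h3, pow_succ]
    have : bt (a (k+1)).2.1 ≤ 1 := by unfold bt; split_ifs <;> omega
    omega

end Pool.Agent.Q91.DPX
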