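import Pool.Agent.Q91.DPC

set_option autoImplicit false
set_option maxHeartbeats 400000

open Filter Topology Set

namespace Pool.Agent.Q91.DPX

theorem bt_ne {b c : Bool} (h : b ≠ c) : bt b ≠ bt c := by
  unfold bt
  cases b <;> cases c <;> simp_all

theorem bt_le (b : Bool) : bt b ≤ 1 := by unfold bt; split_ifs <;> omega

theorem val_eq {a b : ℕ → Sym} {k : ℕ} (h : val a k = val b k) :
    rho a k = rho b k ∧
      (if rho a k = ∅ then bt (a 0).2.1 else cn a k) = (if rho b k = ∅ then bt (b 0).2.1 else cn b k) := by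
  have := Encodable.encode_injective h
  rw [Prod.mk.injEq] at this
  exact this

theorem partner {a b : ℕ → Sym} {k : ℕ} (h : val a k = val b k) (ht : (a 0).2.1 ≠ (b 0).2.1) :
    rho a k = rho b k ∧ rho a k ≠ ∅ ∧ ((a k).2.2 = false → Hn b k + 2 ≤ Hn a k) := by
  obtain ⟨h1, h2⟩ := val_eq h
  have htt := bt_ne ht
  have ha := bt_le (a 0).2.1
  have hb := bt_le (b 0).2.1
  have hne : rho a k ≠ ∅ := by
    intro h0
    rw [if_pos h0, if_pos (h1 ▸ h0)] at h2
    exact htt h2
  refine ⟨h1, hne, ?_⟩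
  intro hl
  rw [if_neg hne, if_neg (h1 ▸ hne)] at h2
  unfold cn at h2
  rw [hl] at h2
  simp only [Bool.false_eq_true, if_false] at h2
  split_ifs at h2 <;> omega

theorem rho_rs {a b : ℕ → Sym} {k : ℕ} (h : rho a k = rho b k) {i : ℕ} (hi : i ≤ k) :
    rs (md k) a i = rs (md k) b i := by
  unfold rs
  by_cases hn : md k < i
  · simp only [hn, decide_true, Bool.true_and]
    have h1 : i ∈ rho a k ↔ i ∈ rho b k := by rw [h]
    unfold rho at h1
    simp only [Finset.mem_filter, Finset.mem_Ioc, hn, hi, true_and] at h1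
    exact Bool.eq_iff_iff.mpr h1
  · simp [hn]

/-- matching at time `k` -/
def Mt (A B : Set Pt) (k : ℕ) : Prop :=
  (∀ x ∈ A, ∃ y ∈ B, val x.seq k = val y.seq k) ∧ (∀ y ∈ B, ∃ x ∈ A, val x.seq k = val y.seq k)

theorem Mt_partner {A B : Set Pt} (hA : ∀ x ∈ A, (x.seq 0).2.1 = false)
    (hB : ∀ x ∈ B, (x.seq 0).2.1 = true) {k : ℕ} (h : Mt A B k) {x : Pt} (hx : x ∈ A ∪ B) :
    ∃ y ∈ A ∪ B, rho x.seq k = rho y.seq k ∧ rho x.seq k ≠ ∅ ∧
      ((x.seq k).2.2 = false → Hn y.seq k + 2 ≤ Hn x.seq k) := by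
  rcases hx with hx | hx
  · obtain ⟨y, hy, hv⟩ := h.1 x hx
    exact ⟨y, Or.inr hy, partner hv (by rw [hA x hx, hB y hy]; simp)⟩
  · obtain ⟨y, hy, hv⟩ := h.2 x hx
    exact ⟨y, Or.inl hy, partner hv.symm (by rw [hA y hy, hB x hx]; simp)⟩

theorem exists_mode {A B : Set Pt} (hA : ∀ x ∈ A, (x.seq 0).2.1 = false)
    (hB : ∀ x ∈ B, (x.seq 0).2.1 = true) (hne : A.Nonempty) (h : ∃ᶠ k in atTop, Mt A B k) :
    ∃ n, ∃ᶠ k in atTop, md k = n ∧ Mt A B k := by
  obtain ⟨x, hx⟩ := hne
  obtain ⟨C, hC⟩ := x.fr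
  have hmd : ∀ k, Mt A B k → md k < C := by
    intro k hk
    obtain ⟨y, -, -, hne, -⟩ := Mt_partner hA hB hk (Or.inl hx : x ∈ A ∪ B)
    obtain ⟨i, hi⟩ := Finset.nonempty_iff_ne_empty.mpr hne
    unfold rho at hi
    rw [Finset.mem_filter, Finset.mem_Ioc] at hi
    by_contra hcon
    have : (x.seq i).1 = false := hC i (by omega)
    rw [this] at hi
    exact absurd hi.2 (by simp)
  by_contra hcon
  have h2 : ∀ n ∈ Finset.range C, ∀ᶠ k in atTop, ¬ (md k = n ∧ Mt A B k) := by
    intro n _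
    exact Filter.not_frequently.mp (fun hf => hcon ⟨n, hf⟩)
  have h3 := (Filter.eventually_all_finset (Finset.range C)).mpr h2
  refine h ?_
  filter_upwards [h3] with k hk hm
  exact hk (md k) (Finset.mem_range.mpr (hmd k hm)) ⟨rfl, hm⟩

theorem last_reset {x : Pt} {n i : ℕ} (hi : n < i) (hr : (x.seq i).1 = true) :
    ∃ q, n < q ∧ (x.seq q).1 = true ∧ ∀ j, q < j → (x.seq j).1 = false := by
  classical
  have hB := Nat.find_spec x.fr
  have hBm := fun m => Nat.find_min x.fr (m := m)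
  set C := Nat.find x.fr with hC
  have h1 : i < C := by
    by_contra hcon
    have := hB i (by omega)
    rw [this] at hr
    exact absurd hr (by simp)
  obtain ⟨q, hq⟩ : ∃ q, C = q + 1 := ⟨C - 1, by omega⟩
  refine ⟨q, by omega, ?_, ?_⟩
  · have h2 := hBm q (by omega)
    push Not at h2
    obtain ⟨j, hj1, hj2⟩ := h2
    have hjq : j = q := by
      by_contra hne
      exact hj2 (hB j (by omega))
    rw [hjq] at hj2
    simpa using hj2
  · intro j hj
    exact hB j (by omega)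

theorem no_match {A B : Set Pt} (hAc : IsCompact A) (hBc : IsCompact B)
    (hA : ∀ x ∈ A, (x.seq 0).2.1 = false) (hB : ∀ x ∈ B, (x.seq 0).2.1 = true)
    (hne : A.Nonempty) (h : ∃ᶠ k in atTop, Mt A B k) : False := by
  obtain ⟨n, hn⟩ := exists_mode hA hB hne h
  have hZc : IsCompact (A ∪ B) := hAc.union hBc
  have hZne : (A ∪ B).Nonempty := hne.mono subset_union_left
  obtain ⟨g0, hg0, hmax⟩ := hZc.exists_isMaxOn hZne (rr_continuous n).continuousOn
  -- last reset of `g0`
  obtain ⟨k0, hk0⟩ := hn.exists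
  obtain ⟨i0, hi0, hri0⟩ : ∃ i, n < i ∧ (g0.seq i).1 = true := by
    obtain ⟨y, -, -, hne', -⟩ := Mt_partner hA hB hk0.2 hg0
    obtain ⟨i, hi⟩ := Finset.nonempty_iff_ne_empty.mpr hne'
    unfold rho at hi
    rw [Finset.mem_filter, Finset.mem_Ioc, hk0.1] at hi
    exact ⟨i, hi.1.1, hi.2⟩
  obtain ⟨q, hnq, hq, hqlast⟩ := last_reset hi0 hri0
  -- the set with the same resets
  let M : Set Pt := (A ∪ B) ∩ ⋂ i, {x : Pt | rs n x.seq i = rs n g0.seq i}
  have hMcl : IsClosed (⋂ i, {x : Pt | rs n x.seq i = rs n g0.seq i}) := by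
    refine isClosed_iInter ?_
    intro i
    have : {x : Pt | rs n x.seq i = rs n g0.seq i}
        = (fun x : Pt => x.seq i) ⁻¹' {s : Sym | (decide (n < i) && s.1) = rs n g0.seq i} := rfl
    rw [this]
    exact (isClosed_discrete _).preimage (continuous_seq i)
  have hMc : IsCompact M := hZc.inter_right hMcl
  have hMne : M.Nonempty := ⟨g0, hg0, by simp⟩
  obtain ⟨g, hg, hmin⟩ := hMc.exists_isMinOn hMne (hh_continuous q).continuousOn
  have hMres : ∀ x ∈ M, ∀ i, n < i → (x.seq i).1 = (g0.seq i).1 := by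
    intro x hx i hi
    have := Set.mem_iInter.mp hx.2 i
    simp only [mem_ofPred_eq, rs, hi, decide_true, Bool.true_and] at this
    exact this
  have hH0 : ∀ x ∈ M, Hn x.seq q = 0 := by
    intro x hx
    have h1 : (x.seq q).1 = true := by rw [hMres x hx q hnq, hq]
    obtain ⟨q', rfl⟩ : ∃ q', q = q' + 1 := ⟨q - 1, by omega⟩
    simp only [Hn, h1, if_true]
  have hnr : ∀ x ∈ M, ∀ i, q < i → (x.seq i).1 = false := by
    intro x hx i hi
    rw [hMres x hx i (by omega), hqlast i hi]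
  obtain ⟨C, hC⟩ := g.fl
  obtain ⟨k, ⟨hkn, hkm⟩, hkge⟩ := (hn.and_eventually (eventually_ge_atTop (q + C))).exists
  obtain ⟨b, hb, hb1, -, hb3⟩ := Mt_partner hA hB hkm hg.1
  have hb3' := hb3 (hC k (by omega))
  -- resets of `b`
  have hbk : ∀ i, i ≤ k → rs n b.seq i = rs n g0.seq i := by
    intro i hi
    have h1 := rho_rs hb1 hi
    rw [hkn] at h1
    rw [← h1]
    exact Set.mem_iInter.mp hg.2 i
  have hg0k : ∀ i, k < i → rs n g0.seq i = false := by
    intro i hi
    simp [rs, hqlast i (by omega)]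
  have hbM : b ∈ M := by
    refine ⟨hb, Set.mem_iInter.mpr ?_⟩
    intro i
    change rs n b.seq i = rs n g0.seq i
    rcases Nat.lt_or_ge k i with hi | hi
    · by_contra hcon
      rw [hg0k i hi, Bool.not_eq_false] at hcon
      have hlt : rr n g0.seq < rr n b.seq := by
        refine bin_lt (j := i) ?_ (hg0k i hi) hcon
        intro j hj
        rcases Nat.lt_or_ge k j with hj' | hj'
        · rw [hg0k j hj'] at hj
          exact absurd hj (by simp)
        · rw [hbk j hj']; exact hj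
      exact absurd (hmax hb) (not_le.mpr hlt)
    · exact hbk i hi
  have e1 : hh q g.seq ≤ hh q b.seq := hmin hbM
  have e2 : hh q b.seq ≤ ((Hn b.seq k : ℝ) + 1) * (1 / 2) ^ k :=
    hh_le (by omega) (hH0 b hbM) (fun i h1 _ => hnr b hbM i h1)
  have e3 : (Hn g.seq k : ℝ) * (1 / 2) ^ k ≤ hh q g.seq :=
    hh_ge (by omega) (hH0 g hg) (fun i h1 _ => hnr g hg i h1)
  have e4 : (Hn b.seq k : ℝ) + 2 ≤ Hn g.seq k := by exact_mod_cast hb3'
  have e5 : (0:ℝ) < (1 / 2) ^ k := by positivity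
  nlinarith

/-- the zero sequence and the sequence with first digit `1` -/
def z0 (t : Bool) : Pt := ⟨0, fun i => (false, (decide (i = 0) && t), false), ⟨0, fun _ _ => rfl⟩, ⟨0, fun _ _ => rfl⟩⟩

theorem level_zero {x : Pt} {t : Bool} (h : dist (z0 t) x < 1 / 2) :
    x.lev = 0 ∧ (x.seq 0).2.1 = t := by
  have h1 : dist (z0 t) x < (1 / 2 : ℝ) ^ 1 := by simpa using h
  have h2 := emb_seq (x := z0 t) (y := x) (B := 0) (fun i hi => of_dist_lt h1 i (by simpa [z0] using hi))
  refine ⟨h2.1.symm, ?_⟩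
  rw [← h2.2 0 le_rfl]
  simp [z0]

theorem hdist_mem {s t : Set Pt} (hs : s.Nonempty) (ht : t.Nonempty) (hsb : IsCompact s)
    (htb : IsCompact t) {r : ℝ} (h : Metric.hausdorffDist s t < r) :
    (∀ x ∈ s, ∃ y ∈ t, dist x y < r) ∧ (∀ y ∈ t, ∃ x ∈ s, dist x y < r) := by
  have hfin := Metric.hausdorffEDist_ne_top_of_nonempty_of_bounded hs ht hsb.isBounded htb.isBounded
  refine ⟨fun x hx => ?_, fun y hy => ?_⟩
  · exact Metric.exists_dist_lt_of_hausdorffDist_lt hx h hfin
  · exact Metric.exists_dist_lt_of_hausdorffDist_lt' hy h hfin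

theorem map_iter (K : TopologicalSpace.NonemptyCompacts Pt) (n : ℕ) :
    (((TopologicalSpace.NonemptyCompacts.map up continuous_up)^[n] K : TopologicalSpace.NonemptyCompacts Pt) : Set Pt)
      = up^[n] '' (K : Set Pt) := by
  induction n with
  | zero => simp
  | succ n ih =>
    rw [Function.iterate_succ_apply', TopologicalSpace.NonemptyCompacts.coe_map, ih,
      ← image_comp, ← Function.iterate_succ']

theorem not_dense_K :
    ¬ DenseProximal (fun K L : TopologicalSpace.NonemptyCompacts Pt => dist K L)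
      (TopologicalSpace.NonemptyCompacts.map up continuous_up) := by
  intro hD
  obtain ⟨K, L, hK, hL, hprox⟩ := hD {z0 false} {z0 true} (1 / 2) (by norm_num)
  beta_reduce at hK hL hprox
  rw [Metric.NonemptyCompacts.dist_eq] at hK hL
  have hK1 := (hdist_mem (TopologicalSpace.NonemptyCompacts.nonempty _)
    (TopologicalSpace.NonemptyCompacts.nonempty _) (TopologicalSpace.NonemptyCompacts.isCompact _)
    (TopologicalSpace.NonemptyCompacts.isCompact _) hK).2
  have hL1 := (hdist_mem (TopologicalSpace.NonemptyCompacts.nonempty _)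
    (TopologicalSpace.NonemptyCompacts.nonempty _) (TopologicalSpace.NonemptyCompacts.isCompact _)
    (TopologicalSpace.NonemptyCompacts.isCompact _) hL).2
  have hKt : ∀ x ∈ (K : Set Pt), x.lev = 0 ∧ (x.seq 0).2.1 = false := by
    intro x hx
    obtain ⟨y, hy, hyx⟩ := hK1 x hx
    have hy' : y = z0 false := by simpa using hy
    rw [hy'] at hyx
    exact level_zero hyx
  have hLt : ∀ x ∈ (L : Set Pt), x.lev = 0 ∧ (x.seq 0).2.1 = true := by
    intro x hx
    obtain ⟨y, hy, hyx⟩ := hL1 x hx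
    have hy' : y = z0 true := by simpa using hy
    rw [hy'] at hyx
    exact level_zero hyx
  refine no_match K.isCompact L.isCompact (fun x hx => (hKt x hx).2) (fun x hx => (hLt x hx).2)
    K.nonempty ?_
  have h1 := hprox 1 one_pos
  have htend : Tendsto Nat.sqrt atTop atTop := by
    refine tendsto_atTop.mpr ?_
    intro b
    filter_upwards [eventually_ge_atTop (b * b)] with a ha
    exact Nat.le_sqrt.mpr ha
  refine htend.frequently ?_
  refine h1.mono ?_
  intro m hm
  rw [Metric.NonemptyCompacts.dist_eq, map_iter, map_iter] at hm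
  have h2 := hdist_mem (K.nonempty.image _) (L.nonempty.image _)
    (K.isCompact.image (continuous_up.iterate m)) (L.isCompact.image (continuous_up.iterate m)) hm
  have hval : ∀ x y : Pt, x.lev = 0 → y.lev = 0 → dist (up^[m] x) (up^[m] y) < 1 →
      val x.seq (Nat.sqrt m) = val y.seq (Nat.sqrt m) := by
    intro x y hx hy hd
    have h3 : dist (up^[m] x) (up^[m] y) < (1 / 2 : ℝ) ^ 0 := by simpa using hd
    have h4 := of_dist_lt h3 0 le_rfl
    rw [up_iter, up_iter] at h4
    simp only [emb, hx, hy, zero_add] at h4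
    exact h4
  refine ⟨?_, ?_⟩
  · intro x hx
    obtain ⟨y', ⟨y, hy, rfl⟩, hd⟩ := h2.1 _ (mem_image_of_mem _ hx)
    exact ⟨y, hy, hval x y (hKt x hx).1 (hLt y hy).1 hd⟩
  · intro y hy
    obtain ⟨x', ⟨x, hx, rfl⟩, hd⟩ := h2.2 _ (mem_image_of_mem _ hy)
    exact ⟨x, hx, hval x y (hKt x hx).1 (hLt y hy).1 hd⟩

end Pool.Agent.Q91.DPX
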