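import Pool.Agent.Q91.DPD

set_option autoImplicit false
set_option maxHeartbeats 400000

open Filter Topology Set

namespace Pool.Agent.Q91.DPX

theorem seq_loc_const {Y : Type*} [TopologicalSpace Y] {F : (ℕ → Sym) → Y} {B : ℕ}
    (h : ∀ a b : ℕ → Sym, (∀ j, j ≤ B → a j = b j) → F a = F b) : Continuous F := by
  rw [continuous_iff_continuousAt]
  intro a
  have h1 : ∀ j ∈ Finset.range (B + 1), ∀ᶠ b : ℕ → Sym in 𝓝 a, b j = a j := by
    intro j _
    have := (continuous_apply (A := fun _ : ℕ => Sym) j).continuousAt.eventually_mem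
      (((isOpen_discrete ({a j} : Set Sym))).mem_nhds rfl) (x := a)
    filter_upwards [this] with b hb
    exact hb
  have h2 := (Filter.eventually_all_finset (Finset.range (B + 1))).mpr h1
  have : ∀ᶠ b in 𝓝 a, F b = F a := by
    filter_upwards [h2] with b hb
    exact h b a (fun j hj => hb j (Finset.mem_range.mpr (by omega)))
  exact continuousAt_const.congr (this.mono fun y hy => hy.symm)

theorem seq_isClosed {P : (ℕ → Sym) → Prop} {B : ℕ}
    (h : ∀ a b : ℕ → Sym, (∀ j, j ≤ B → a j = b j) → (P a ↔ P b)) : IsClosed {a | P a} := by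
  classical
  have hc : Continuous (fun a => decide (P a)) := by
    refine seq_loc_const (B := B) ?_
    intro a b hab
    simp only [h a b hab]
  have : {a | P a} = (fun a => decide (P a)) ⁻¹' {true} := by
    ext a; simp
  rw [this]
  exact (isClosed_discrete _).preimage hc

/-- admissible sequences -/
structure Good (n : ℕ) (a : ℕ → Sym) : Prop where
  r1 : (a (n + 1)).1 = true
  r2 : ∀ i, n + 1 < i → (a i).1 = false
  l1 : ∀ i j, n + 1 < i → n + 1 < j → (a i).2.2 = true → (a j).2.2 = true → i = j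
  l2 : ∀ k, n + 1 < k → (a k).2.2 = true → Hn a k + 4 ≤ 2 ^ (k - (n + 1))

theorem good_closed (n : ℕ) : IsClosed {a | Good n a} := by
  have : {a | Good n a} = {a | (a (n + 1)).1 = true} ∩ (⋂ i, {a | n + 1 < i → (a i).1 = false}) ∩
      (⋂ i, ⋂ j, {a | n + 1 < i → n + 1 < j → (a i).2.2 = true → (a j).2.2 = true → i = j}) ∩
      (⋂ k, {a | n + 1 < k → (a k).2.2 = true → Hn a k + 4 ≤ 2 ^ (k - (n + 1))}) := by
    ext a
    simp only [mem_inter_iff, mem_iInter, mem_ofPred_eq]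
    constructor
    · intro h; exact ⟨⟨⟨h.r1, h.r2⟩, h.l1⟩, h.l2⟩
    · rintro ⟨⟨⟨h1, h2⟩, h3⟩, h4⟩; exact ⟨h1, h2, h3, h4⟩
  rw [this]
  refine ((IsClosed.inter ?_ (isClosed_iInter fun i => ?_)).inter
    (isClosed_iInter fun i => isClosed_iInter fun j => ?_)).inter (isClosed_iInter fun k => ?_)
  · exact seq_isClosed (B := n + 1) (fun a b h => by rw [h (n + 1) le_rfl])
  · exact seq_isClosed (B := i) (fun a b h => by rw [h i le_rfl])
  · exact seq_isClosed (B := i + j) (fun a b h => by rw [h i (by omega), h j (by omega)])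
  · exact seq_isClosed (B := k) (fun a b h => by rw [h k le_rfl, Hn_congr h])

theorem good_fr {n : ℕ} {a : ℕ → Sym} (h : Good n a) : ∃ B, ∀ i, B ≤ i → (a i).1 = false :=
  ⟨n + 2, fun i hi => h.r2 i (by omega)⟩

theorem good_fl {n : ℕ} {a : ℕ → Sym} (h : Good n a) : ∃ B, ∀ i, B ≤ i → (a i).2.2 = false := by
  by_cases hex : ∃ i, n + 1 < i ∧ (a i).2.2 = true
  · obtain ⟨i, hi, hl⟩ := hex
    refine ⟨i + 1, ?_⟩
    intro j hj
    by_contra hcon
    rw [Bool.not_eq_false] at hcon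
    have := h.l1 i j hi (by omega) hl hcon
    omega
  · push Not at hex
    refine ⟨n + 2, ?_⟩
    intro i hi
    have := hex i (by omega)
    simpa using this

/-- the compact set carrying the modified fuzzy sets -/
def SS (n : ℕ) : Set Pt := {x | x.lev ≤ n ∧ Good n x.seq}

theorem SS_compact (n : ℕ) : IsCompact (SS n) := by
  haveI : CompactSpace {a : ℕ → Sym // Good n a} :=
    isCompact_iff_compactSpace.mp (good_closed n).isCompact
  have h1 : ∀ N, IsCompact (range fun a : {a : ℕ → Sym // Good n a} =>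
      (⟨N, a.1, good_fr a.2, good_fl a.2⟩ : Pt)) := by
    intro N
    refine isCompact_range ?_
    rw [continuous_to]
    intro i
    have hF : ∃ F : (ℕ → Sym) → ℕ, Continuous F ∧ (fun a : {a : ℕ → Sym // Good n a} =>
      emb (⟨N, a.1, good_fr a.2, good_fl a.2⟩ : Pt) i) = fun a => F a.1 := by
      cases i with
      | zero =>
        refine ⟨fun a => val a (Nat.sqrt N), ?_, rfl⟩
        exact seq_loc_const (B := Nat.sqrt N) (fun a b h => val_congr h)
      | succ i =>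
        refine ⟨fun a => if i < N then 0 else sc (a (i - N)), ?_, rfl⟩
        exact seq_loc_const (B := i) (fun a b h => by
          beta_reduce
          rw [h (i - N) (by omega)])
    obtain ⟨F, hF, hFe⟩ := hF
    rw [hFe]
    exact hF.comp continuous_subtype_val
  have h2 : SS n = ⋃ N ∈ Finset.range (n + 1), range fun a : {a : ℕ → Sym // Good n a} =>
      (⟨N, a.1, good_fr a.2, good_fl a.2⟩ : Pt) := by
    ext x
    simp only [mem_iUnion, mem_range, Finset.mem_range]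
    constructor
    · rintro ⟨hl, hg⟩
      exact ⟨x.lev, by omega, ⟨x.seq, hg⟩, rfl⟩
    · rintro ⟨N, hN, a, rfl⟩
      exact ⟨by simpa using Nat.lt_succ_iff.mp hN, a.2⟩
  rw [h2]
  exact (Finset.range (n + 1)).isCompact_biUnion (fun N _ => h1 N)

/-- the supremum over a cylinder -/
noncomputable def Un (n : ℕ) (u : Pt → ℝ) (x : Pt) : ℝ :=
  sSup {t | ∃ z : Pt, z.lev = x.lev ∧ (∀ j, j ≤ n → z.seq j = x.seq j) ∧ t = u z}

theorem Un_congr {n : ℕ} {u : Pt → ℝ} {x y : Pt} (hl : x.lev = y.lev)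
    (h : ∀ j, j ≤ n → x.seq j = y.seq j) : Un n u x = Un n u y := by
  unfold Un
  congr 1
  ext t
  constructor
  · rintro ⟨z, h1, h2, h3⟩
    exact ⟨z, by rw [h1, hl], fun j hj => by rw [h2 j hj, h j hj], h3⟩
  · rintro ⟨z, h1, h2, h3⟩
    exact ⟨z, by rw [h1, hl], fun j hj => by rw [h2 j hj, h j hj], h3⟩

theorem Un_continuous (n : ℕ) (u : Pt → ℝ) : Continuous (Un n u) :=
  loc_const fun _ => ⟨n, fun _ _ hx hy h => Un_congr (by rw [hx, hy]) h⟩

theorem le_Un {n : ℕ} {u : Pt → ℝ} (hu : IsFuzzy u) {x z : Pt} (hl : z.lev = x.lev)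
    (h : ∀ j, j ≤ n → z.seq j = x.seq j) : u z ≤ Un n u x := by
  refine le_csSup ⟨1, ?_⟩ ⟨z, hl, h, rfl⟩
  rintro t ⟨z, -, -, rfl⟩
  exact hu.le_one z

theorem Un_nonneg {n : ℕ} {u : Pt → ℝ} (hu : IsFuzzy u) (x : Pt) : 0 ≤ Un n u x := by
  refine Real.sSup_nonneg ?_
  rintro t ⟨z, -, -, rfl⟩
  exact hu.nonneg z

theorem Un_le_one {n : ℕ} {u : Pt → ℝ} (hu : IsFuzzy u) (x : Pt) : Un n u x ≤ 1 := by
  refine Real.sSup_le ?_ zero_le_one
  rintro t ⟨z, -, -, rfl⟩
  exact hu.le_one z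

/-- normalised height -/
noncomputable def yy (n : ℕ) (x : Pt) : ℝ := 2 ^ (n + 1) * hh (n + 1) x.seq

theorem yy_continuous (n : ℕ) : Continuous (yy n) := continuous_const.mul (hh_continuous (n + 1))

theorem yy_nonneg (n : ℕ) (x : Pt) : 0 ≤ yy n x := mul_nonneg (by positivity) (hh_nonneg _ _)

theorem yy_le_one (n : ℕ) (x : Pt) : yy n x ≤ 1 := by
  unfold yy
  calc (2:ℝ) ^ (n + 1) * hh (n + 1) x.seq ≤ 2 ^ (n + 1) * (1 / 2) ^ (n + 1) := by
        gcongr; exact hh_le_pow _ _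
    _ = 1 := by rw [← mul_pow]; norm_num

theorem good_H0 {n : ℕ} {a : ℕ → Sym} (h : Good n a) : Hn a (n + 1) = 0 := by
  simp only [Hn, h.r1, if_true]

theorem pow_aux {n k : ℕ} (hk : n + 1 ≤ k) : (2:ℝ) ^ (n + 1) * (1 / 2) ^ k = (1 / 2) ^ (k - (n + 1)) := by
  obtain ⟨m, rfl⟩ := Nat.exists_eq_add_of_le hk
  rw [pow_add (1/2 : ℝ), ← mul_assoc, ← mul_pow]
  norm_num

theorem yy_ge {n k : ℕ} (hk : n + 1 ≤ k) {x : Pt} (h : Good n x.seq) :
    (Hn x.seq k : ℝ) * (1 / 2) ^ (k - (n + 1)) ≤ yy n x := by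
  unfold yy
  rw [← pow_aux hk]
  have := hh_ge hk (good_H0 h) (fun i h1 _ => h.r2 i h1)
  have h2 : (0:ℝ) < 2 ^ (n + 1) := by positivity
  nlinarith

theorem yy_le {n k : ℕ} (hk : n + 1 ≤ k) {x : Pt} (h : Good n x.seq) :
    yy n x ≤ ((Hn x.seq k : ℝ) + 1) * (1 / 2) ^ (k - (n + 1)) := by
  unfold yy
  rw [← pow_aux hk]
  have := hh_le hk (good_H0 h) (fun i h1 _ => h.r2 i h1)
  have h2 : (0:ℝ) < 2 ^ (n + 1) := by positivity
  nlinarith

open Classical in
/-- the modified fuzzy set -/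
noncomputable def uu (n : ℕ) (u : Pt → ℝ) (x : Pt) : ℝ :=
  if x ∈ SS n then Un n u x * yy n x else 0

theorem uu_le {n : ℕ} {u : Pt → ℝ} (hu : IsFuzzy u) (x : Pt) : uu n u x ≤ Un n u x * yy n x := by
  unfold uu
  split_ifs
  · exact le_rfl
  · exact mul_nonneg (Un_nonneg hu x) (yy_nonneg n x)

theorem uu_nonneg {n : ℕ} {u : Pt → ℝ} (hu : IsFuzzy u) (x : Pt) : 0 ≤ uu n u x := by
  unfold uu
  split_ifs
  · exact mul_nonneg (Un_nonneg hu x) (yy_nonneg n x)
  · exact le_rfl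

/-- builder of points -/
def mk (N n : ℕ) (p : ℕ → Sym) (D : ℕ → Bool) (k : ℕ) (fl : Bool) : Pt :=
  ⟨N, fun j => if j ≤ n then p j else if j = n + 1 then (true, false, false)
      else (false, D j, decide (j = k) && fl),
    ⟨n + 2, fun i hi => by
      have h1 : ¬ i ≤ n := by omega
      have h2 : ¬ i = n + 1 := by omega
      simp only [h1, h2, if_false]⟩,
    ⟨n + k + 2, fun i hi => by
      have h1 : ¬ i ≤ n := by omega
      have h2 : ¬ i = n + 1 := by omega
      have h3 : ¬ i = k := by omega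
      simp only [h1, h2, h3, if_false, decide_false, Bool.false_and]⟩⟩

theorem mk_le {N n : ℕ} {p : ℕ → Sym} {D : ℕ → Bool} {k : ℕ} {fl : Bool} {j : ℕ} (hj : j ≤ n) :
    (mk N n p D k fl).seq j = p j := by
  simp only [mk, hj, if_true]

theorem mk_eq {N n : ℕ} {p : ℕ → Sym} {D : ℕ → Bool} {k : ℕ} {fl : Bool} :
    (mk N n p D k fl).seq (n + 1) = (true, false, false) := by
  have h1 : ¬ n + 1 ≤ n := by omega
  simp only [mk, h1, if_false, if_true]

theorem mk_gt {N n : ℕ} {p : ℕ → Sym} {D : ℕ → Bool} {k : ℕ} {fl : Bool} {j : ℕ} (hj : n + 1 < j) :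
    (mk N n p D k fl).seq j = (false, D j, decide (j = k) && fl) := by
  have h1 : ¬ j ≤ n := by omega
  have h2 : ¬ j = n + 1 := by omega
  simp only [mk, h1, h2, if_false]

theorem mk_good {N n : ℕ} {p : ℕ → Sym} {D : ℕ → Bool} {k : ℕ} {fl : Bool}
    (h : fl = true → Hn (mk N n p D k fl).seq k + 4 ≤ 2 ^ (k - (n + 1))) :
    Good n (mk N n p D k fl).seq := by
  refine ⟨by rw [mk_eq], fun i hi => by rw [mk_gt hi], ?_, ?_⟩
  · intro i j hi hj h1 h2
    rw [mk_gt hi] at h1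
    rw [mk_gt hj] at h2
    simp only [Bool.and_eq_true, decide_eq_true_eq] at h1 h2
    rw [h1.1, h2.1]
  · intro i hi h1
    rw [mk_gt hi] at h1
    simp only [Bool.and_eq_true, decide_eq_true_eq] at h1
    rw [h1.1]
    exact h h1.2

/-- the canonical point over a prefix -/
def top (n : ℕ) (x : Pt) : Pt := mk x.lev n x.seq (fun _ => true) 0 false

theorem top_good (n : ℕ) (x : Pt) : Good n (top n x).seq := mk_good (fun h => absurd h (by simp))

theorem top_yy (n : ℕ) (x : Pt) : yy n (top n x) = 1 := by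
  unfold yy
  rw [hh_eq_pow (fun i hi => by unfold top; rw [mk_gt hi]), ← mul_pow]
  norm_num

theorem top_uu {n : ℕ} {u : Pt → ℝ} (hu : IsFuzzy u) {x : Pt} (hx : x.lev ≤ n) :
    u x ≤ uu n u (top n x) := by
  have h1 : top n x ∈ SS n := ⟨hx, top_good n x⟩
  unfold uu
  rw [if_pos h1, top_yy, mul_one]
  exact le_Un hu rfl (fun j hj => (mk_le hj).symm)

theorem uu_isFuzzy {n : ℕ} {u : Pt → ℝ} (hu : IsFuzzy u) (hn : ∀ x, 0 < u x → x.lev ≤ n) :
    IsFuzzy (uu n u) := by
  have hle : ∀ x, uu n u x ≤ 1 := fun x => (uu_le hu x).trans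
    (mul_le_one₀ (Un_le_one hu x) (yy_nonneg n x) (yy_le_one n x))
  refine ⟨uu_nonneg hu, hle, ?_, ?_, ?_⟩
  · intro x c hc
    by_cases hx : x ∈ SS n
    · have hc' : Un n u x * yy n x < c := by
        have : uu n u x = Un n u x * yy n x := by unfold uu; rw [if_pos hx]
        rw [← this]; exact hc
      have hcont : Continuous fun x => Un n u x * yy n x := (Un_continuous n u).mul (yy_continuous n)
      filter_upwards [hcont.continuousAt.eventually_lt continuousAt_const hc'] with y hy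
      exact lt_of_le_of_lt (uu_le hu y) hy
    · have hc' : 0 < c := lt_of_le_of_lt (uu_nonneg hu x) hc
      filter_upwards [(SS_compact n).isClosed.isOpen_compl.mem_nhds hx] with y hy
      have : uu n u y = 0 := by unfold uu; rw [if_neg hy]
      rw [this]; exact hc'
  · obtain ⟨x, hx⟩ := hu.normal
    have hl : x.lev ≤ n := hn x (by rw [hx]; exact one_pos)
    exact ⟨top n x, le_antisymm (hle _) (by rw [← hx]; exact top_uu hu hl)⟩
  · have hsub : closure {x | 0 < uu n u x} ⊆ SS n := by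
      refine closure_minimal ?_ (SS_compact n).isClosed
      intro x hx
      by_contra hcon
      have : uu n u x = 0 := by unfold uu; rw [if_neg hcon]
      rw [mem_ofPred_eq, this] at hx
      exact lt_irrefl _ hx
    exact (SS_compact n).of_isClosed_subset isClosed_closure hsub

/-- endograph distance bound -/
theorem dE_le {u v : Pt → ℝ} {r : ℝ} (hr : 0 ≤ r)
    (h1 : ∀ x t, 0 ≤ t → t ≤ u x → ∃ y s, 0 ≤ s ∧ s ≤ v y ∧ dist x y ≤ r ∧ |t - s| ≤ r)
    (h2 : ∀ x t, 0 ≤ t → t ≤ v x → ∃ y s, 0 ≤ s ∧ s ≤ u y ∧ dist x y ≤ r ∧ |t - s| ≤ r) :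
    Metric.hausdorffDist (endo u) (endo v) ≤ r := by
  refine Metric.hausdorffDist_le_of_mem_dist hr ?_ ?_
  · rintro ⟨x, t⟩ ⟨ht0, ht⟩
    obtain ⟨y, s, a, b, c, d⟩ := h1 x t ht0 ht
    exact ⟨(y, s), ⟨a, b⟩, by rw [Prod.dist_eq]; exact max_le c (by rw [Real.dist_eq]; exact d)⟩
  · rintro ⟨x, t⟩ ⟨ht0, ht⟩
    obtain ⟨y, s, a, b, c, d⟩ := h2 x t ht0 ht
    exact ⟨(y, s), ⟨a, b⟩, by rw [Prod.dist_eq]; exact max_le c (by rw [Real.dist_eq]; exact d)⟩

theorem dE_uu {n : ℕ} {u : Pt → ℝ} (hu : IsFuzzy u) (hn : ∀ x, 0 < u x → x.lev ≤ n) :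
    Metric.hausdorffDist (endo u) (endo (uu n u)) ≤ (1 / 2) ^ n := by
  have hp : (0:ℝ) < (1 / 2) ^ n := by positivity
  refine dE_le hp.le ?_ ?_
  · intro x t ht0 ht
    rcases ht0.eq_or_lt with h0 | h0
    · exact ⟨x, 0, le_rfl, uu_nonneg hu x, by rw [dist_self]; exact hp.le, by rw [← h0]; simp⟩
    · have hl : x.lev ≤ n := hn x (lt_of_lt_of_le h0 ht)
      refine ⟨top n x, t, ht0, ht.trans (top_uu hu hl), ?_, by simp⟩
      exact dist_le_of_seq rfl ((Nat.sqrt_le_self _).trans hl) (fun j hj => (mk_le hj).symm)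
  · intro x t ht0 ht
    rcases ht0.eq_or_lt with h0 | h0
    · exact ⟨x, 0, le_rfl, hu.nonneg x, by rw [dist_self]; exact hp.le, by rw [← h0]; simp⟩
    · have hx : x ∈ SS n := by
        by_contra hcon
        have : uu n u x = 0 := by unfold uu; rw [if_neg hcon]
        rw [this] at ht
        exact absurd h0 (not_lt.mpr ht)
      have h1 : t ≤ Un n u x := by
        refine (ht.trans (uu_le hu x)).trans ?_
        exact mul_le_of_le_one_right (Un_nonneg hu x) (yy_le_one n x)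
      have h2 : t - (1 / 2) ^ n < Un n u x := by linarith
      obtain ⟨s, ⟨z, hz1, hz2, rfl⟩, hs⟩ := exists_lt_of_lt_csSup
        (s := {t | ∃ z : Pt, z.lev = x.lev ∧ (∀ j, j ≤ n → z.seq j = x.seq j) ∧ t = u z})
        ⟨u x, x, rfl, fun _ _ => rfl, rfl⟩ h2
      refine ⟨z, min t (u z), le_min ht0 (hu.nonneg z), min_le_right _ _, ?_, ?_⟩
      · exact dist_le_of_seq hz1.symm ((Nat.sqrt_le_self _).trans hx.1) (fun j hj => (hz2 j hj).symm)
      · rw [abs_of_nonneg (sub_nonneg.mpr (min_le_left _ _))]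
        rcases le_total t (u z) with h | h
        · rw [min_eq_left h]; linarith
        · rw [min_eq_right h]; linarith

end Pool.Agent.Q91.DPX
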