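import Pool.Agent.Q91.DPE

set_option autoImplicit false
set_option maxHeartbeats 400000

open Filter Topology Set

namespace Pool.Agent.Q91.DPX

theorem up_injective : Function.Injective up := by
  intro x y h
  have h1 : x.lev + 1 = y.lev + 1 := congrArg Pt.lev h
  have h2 : (up x).seq = (up y).seq := congrArg Pt.seq h
  exact Pt.ext (by omega) h2

theorem zadeh_up {u : Pt → ℝ} (x : Pt) : zadeh up u (up x) = u x := by
  unfold zadeh
  have : {t | ∃ z, up z = up x ∧ t = u z} = {u x} := by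
    ext t
    constructor
    · rintro ⟨z, hz, rfl⟩
      rw [up_injective hz]; rfl
    · rintro rfl
      exact ⟨x, rfl, rfl⟩
  rw [this, csSup_singleton]

theorem zadeh_zero {u : Pt → ℝ} {x : Pt} (hx : x.lev = 0) : zadeh up u x = 0 := by
  unfold zadeh
  have : {t | ∃ z, up z = x ∧ t = u z} = ∅ := by
    ext t
    simp only [mem_ofPred_eq, mem_empty_iff_false, iff_false]
    rintro ⟨z, hz, rfl⟩
    have : z.lev + 1 = x.lev := congrArg Pt.lev hz
    omega
  rw [this, Real.sSup_empty]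

theorem exists_pre {x : Pt} (hx : x.lev ≠ 0) : ∃ y, up y = x :=
  ⟨⟨x.lev - 1, x.seq, x.fr, x.fl⟩, Pt.ext (by change x.lev - 1 + 1 = x.lev; omega) rfl⟩

theorem iter_up {u : Pt → ℝ} (s : ℕ) (x : Pt) : (zadeh up)^[s] u (up^[s] x) = u x := by
  induction s with
  | zero => rfl
  | succ s ih => rw [Function.iterate_succ_apply', Function.iterate_succ_apply', zadeh_up, ih]

theorem iter_pos {u : Pt → ℝ} (s : ℕ) (x : Pt) (h : 0 < (zadeh up)^[s] u x) :
    ∃ y, up^[s] y = x := by
  induction s generalizing x with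
  | zero => exact ⟨x, rfl⟩
  | succ s ih =>
    rw [Function.iterate_succ_apply'] at h
    have hx : x.lev ≠ 0 := by
      intro h0
      rw [zadeh_zero h0] at h
      exact lt_irrefl _ h
    obtain ⟨y, rfl⟩ := exists_pre hx
    rw [zadeh_up] at h
    obtain ⟨z, rfl⟩ := ih y h
    exact ⟨z, by rw [Function.iterate_succ_apply']⟩

theorem iter_nonneg {u : Pt → ℝ} (hu : ∀ x, 0 ≤ u x) (s : ℕ) (x : Pt) : 0 ≤ (zadeh up)^[s] u x := by
  induction s generalizing x with
  | zero => exact hu x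
  | succ s ih =>
    rw [Function.iterate_succ_apply']
    refine Real.sSup_nonneg ?_
    rintro t ⟨z, -, rfl⟩
    exact ih z

theorem rho_good {n k : ℕ} (hk : n < k) (hm : md k = n) {a : ℕ → Sym} (h : Good n a) :
    rho a k = {n + 1} := by
  unfold rho
  rw [hm]
  ext i
  simp only [Finset.mem_filter, Finset.mem_Ioc, Finset.mem_singleton]
  constructor
  · rintro ⟨⟨h1, h2⟩, h3⟩
    by_contra hne
    have := h.r2 i (by omega)
    rw [this] at h3
    exact absurd h3 (by simp)
  · rintro rfl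
    exact ⟨⟨by omega, by omega⟩, h.r1⟩

theorem val_good {n k : ℕ} (hk : n < k) (hm : md k = n) {a b : ℕ → Sym} (ha : Good n a)
    (hb : Good n b) (hc : cn a k = cn b k) : val a k = val b k := by
  unfold val
  rw [rho_good hk hm ha, rho_good hk hm hb]
  simp [hc]

/-- follower arithmetic -/
theorem exists_partner {n k : ℕ} (hk : n + 1 < k) (hm : md k = n) {a : ℕ → Sym} (ha : Good n a)
    (h5 : 5 ≤ cn a k) (M : ℕ) (z : ℕ → Sym) :
    ∃ D fl, Good n (mk M n z D k fl).seq ∧ cn (mk M n z D k fl).seq k = cn a k ∧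
      Hn a k + 1 ≤ Hn (mk M n z D k fl).seq k + 5 := by
  have hHa : Hn a k < 2 ^ (k - (n + 1)) := Hn_lt (by omega) (good_H0 ha) (fun i h1 _ => ha.r2 i h1)
  have hc1 : cn a k ≤ 2 ^ (k - (n + 1)) + 1 := by
    unfold cn
    split_ifs with hl
    · have := ha.l2 k (by omega) hl
      omega
    · omega
  have hc2 : Hn a k + 1 ≤ cn a k := by
    unfold cn
    split_ifs <;> omega
  set c := cn a k with hcdef
  have key : ∀ H fl, H < 2 ^ (k - (n + 1)) →
      Hn (mk M n z (fun j => decide (H / 2 ^ (k - j) % 2 = 1)) k fl).seq k = H := by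
    intro H fl hH
    refine Hn_realise (q := n + 1) (by omega) ?_ ?_ hH ?_
    · simp only [Hn, mk_eq, if_true]
    · intro i h1 _; rw [mk_gt h1]
    · intro i h1 _; rw [mk_gt h1]
  have h0 : ∀ D fl, (mk M n z D k fl).seq 0 = z 0 := fun D fl => mk_le (Nat.zero_le _)
  have hkl : ∀ D fl, ((mk M n z D k fl).seq k).2.2 = fl := fun D fl => by
    rw [mk_gt hk]; simp
  have hbt := bt_le (z 0).2.1
  by_cases hpar : c % 2 = bt (z 0).2.1
  · -- leader
    refine ⟨fun j => decide ((c - 2) / 2 ^ (k - j) % 2 = 1), false, ?_, ?_, ?_⟩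
    · exact mk_good (fun h => absurd h (by simp))
    · rw [cn, hkl, h0, key (c - 2) false (by omega)]
      simp only [Bool.false_eq_true, if_false]
      omega
    · rw [key (c - 2) false (by omega)]
      omega
  · refine ⟨fun j => decide ((c - 5) / 2 ^ (k - j) % 2 = 1), true, ?_, ?_, ?_⟩
    · refine mk_good (fun _ => ?_)
      rw [key (c - 5) true (by omega)]
      omega
    · rw [cn, hkl, h0, key (c - 5) true (by omega)]
      simp only [if_true]
      omega
    · rw [key (c - 5) true (by omega)]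
      omega

theorem one_side {n k : ℕ} (hk : n + 1 < k) (hm : md k = n) {u v : Pt → ℝ} (hu : IsFuzzy u)
    (hv : IsFuzzy v) (hvn : ∀ x, 0 < v x → x.lev ≤ n) (x : Pt) (t : ℝ) (ht0 : 0 ≤ t)
    (ht : t ≤ (zadeh up)^[k * k] (uu n u) x) :
    ∃ y s, 0 ≤ s ∧ s ≤ (zadeh up)^[k * k] (uu n v) y ∧ dist x y ≤ 5 * (1 / 2 : ℝ) ^ (k - (n + 1)) ∧
      |t - s| ≤ 5 * (1 / 2 : ℝ) ^ (k - (n + 1)) := by
  have hp : (0:ℝ) < (1 / 2) ^ (k - (n + 1)) := by positivity
  rcases ht0.eq_or_lt with h0 | h0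
  · exact ⟨x, 0, le_rfl, iter_nonneg (uu_nonneg hv) _ x, by rw [dist_self]; positivity, by
      rw [← h0]; simp⟩
  obtain ⟨x0, rfl⟩ := iter_pos (k * k) x (lt_of_lt_of_le h0 ht)
  rw [iter_up] at ht
  have hx : x0 ∈ SS n := by
    by_contra hcon
    have : uu n u x0 = 0 := by unfold uu; rw [if_neg hcon]
    rw [this] at ht
    exact absurd h0 (not_lt.mpr ht)
  have hty : t ≤ yy n x0 := by
    refine (ht.trans (uu_le hu x0)).trans ?_
    exact mul_le_of_le_one_left (yy_nonneg n x0) (Un_le_one hu x0)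
  have hty2 := hty.trans (yy_le (k := k) (by omega) hx.2)
  have hc2 : Hn x0.seq k + 1 ≤ cn x0.seq k := by
    unfold cn
    split_ifs <;> omega
  by_cases h5 : 5 ≤ cn x0.seq k
  · obtain ⟨z, hz⟩ := hv.normal
    have hzl : z.lev ≤ n := hvn z (by rw [hz]; exact one_pos)
    obtain ⟨D, fl, hg, hc, hH⟩ := exists_partner hk hm hx.2 h5 z.lev z.seq
    set y0 := mk z.lev n z.seq D k fl with hy0
    have hy0S : y0 ∈ SS n := ⟨hzl, hg⟩
    have hUn : Un n v y0 = 1 := by
      refine le_antisymm (Un_le_one hv _) ?_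
      rw [← hz]
      exact le_Un hv rfl (fun j hj => (mk_le hj).symm)
    have huv : uu n v y0 = yy n y0 := by unfold uu; rw [if_pos hy0S, hUn, one_mul]
    have hyge := yy_ge (k := k) (by omega) hg
    refine ⟨up^[k * k] y0, min t (uu n v y0), le_min ht0 (uu_nonneg hv _), ?_, ?_, ?_⟩
    · rw [iter_up]; exact min_le_right _ _
    · have h1 : dist (up^[k * k] x0) (up^[k * k] y0) ≤ (1 / 2 : ℝ) ^ (k * k) := by
        refine dist_le_of_val ?_ ?_ ?_
        · rw [up_iter, up_iter]
          change val x0.seq (Nat.sqrt (x0.lev + k * k)) = val y0.seq (Nat.sqrt (y0.lev + k * k))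
          have e1 : Nat.sqrt (x0.lev + k * k) = k := by
            rw [add_comm]; exact Nat.sqrt_add_eq k (by have := hx.1; omega)
          have e2 : Nat.sqrt (y0.lev + k * k) = k := by
            rw [add_comm]; exact Nat.sqrt_add_eq k (by have := hy0S.1; omega)
          rw [e1, e2]
          exact val_good (by omega) hm hx.2 hg hc.symm
        · rw [up_iter]; change k * k ≤ x0.lev + k * k; omega
        · rw [up_iter]; change k * k ≤ y0.lev + k * k; omega
      have h2 : (1 / 2 : ℝ) ^ (k * k) ≤ (1 / 2) ^ (k - (n + 1)) := by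
        refine pow_le_pow_of_le_one (by norm_num) (by norm_num) ?_
        have : k ≤ k * k := Nat.le_mul_self k
        omega
      linarith
    · rw [abs_of_nonneg (sub_nonneg.mpr (min_le_left _ _))]
      rcases le_total t (uu n v y0) with h | h
      · rw [min_eq_left h]; linarith
      · rw [min_eq_right h, huv]
        have hH' : (Hn x0.seq k : ℝ) + 1 ≤ Hn y0.seq k + 5 := by exact_mod_cast hH
        nlinarith
  · refine ⟨up^[k * k] x0, 0, le_rfl, iter_nonneg (uu_nonneg hv) _ _, by rw [dist_self]; positivity, ?_⟩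
    rw [sub_zero, abs_of_nonneg ht0]
    have h6 : Hn x0.seq k + 1 ≤ 5 := by omega
    have h7 : (Hn x0.seq k : ℝ) + 1 ≤ 5 := by exact_mod_cast h6
    nlinarith

theorem exists_level {u : Pt → ℝ} (hu : IsFuzzy u) : ∃ n, ∀ x, 0 < u x → x.lev ≤ n := by
  obtain ⟨n, hn⟩ := (hu.cpt.image continuous_lev).bddAbove
  exact ⟨n, fun x hx => hn (mem_image_of_mem _ (subset_closure hx))⟩

theorem dE_iter (u v : FuzzySet Pt) (s : ℕ) :
    dE ((zadehMap up continuous_up)^[s] u) ((zadehMap up continuous_up)^[s] v) =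
      Metric.hausdorffDist (endo ((zadeh up)^[s] u.1)) (endo ((zadeh up)^[s] v.1)) := by
  rw [← zadehMap_iter up continuous_up u s, ← zadehMap_iter up continuous_up v s]
  rfl

theorem dense_E : DenseProximal (dE (X := Pt)) (zadehMap up continuous_up) := by
  intro u v ε hε
  obtain ⟨n1, hn1⟩ := exists_level u.2
  obtain ⟨n2, hn2⟩ := exists_level v.2
  obtain ⟨n3, hn3⟩ := exists_pow_lt_of_lt_one hε (show (1 / 2 : ℝ) < 1 by norm_num)
  set n := n1 + n2 + n3 with hn
  have hu : ∀ x, 0 < u.1 x → x.lev ≤ n := fun x hx => (hn1 x hx).trans (by omega)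
  have hv : ∀ x, 0 < v.1 x → x.lev ≤ n := fun x hx => (hn2 x hx).trans (by omega)
  have hlt : (1 / 2 : ℝ) ^ n < ε :=
    lt_of_le_of_lt (pow_le_pow_of_le_one (by norm_num) (by norm_num) (by omega)) hn3
  refine ⟨⟨uu n u.1, uu_isFuzzy u.2 hu⟩, ⟨uu n v.1, uu_isFuzzy v.2 hv⟩,
    lt_of_le_of_lt (dE_uu u.2 hu) hlt, lt_of_le_of_lt (dE_uu v.2 hv) hlt, ?_⟩
  intro δ hδ
  rw [frequently_atTop]
  intro m
  obtain ⟨L, hL⟩ := exists_pow_lt_of_lt_one (show 0 < δ / 5 by positivity) (show (1 / 2 : ℝ) < 1 by norm_num)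
  set k := Nat.pair n (m + L + n + 2) with hk
  have hkge : m + L + n + 2 ≤ k := Nat.right_le_pair _ _
  have hm : md k = n := by rw [md, hk, Nat.unpair_pair]
  refine ⟨k * k, le_trans (by omega) (Nat.le_mul_self k), ?_⟩
  have h1 : 5 * (1 / 2 : ℝ) ^ (k - (n + 1)) < δ := by
    have : (1 / 2 : ℝ) ^ (k - (n + 1)) ≤ (1 / 2) ^ L :=
      pow_le_pow_of_le_one (by norm_num) (by norm_num) (by omega)
    linarith
  refine lt_of_le_of_lt ?_ h1
  rw [dE_iter]
  exact dE_le (by positivity) (fun x t => one_side (by omega) hm u.2 v.2 hv x t)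
    (fun x t => one_side (by omega) hm v.2 u.2 hu x t)

end Pool.Agent.Q91.DPX
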