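import Pool.Agent.Q91.DilRes

/-!
Passing from operators on the spaces `L^p(ℝ^d)` to operators on functions.
-/

open MeasureTheory Filter Topology Set
open scoped ENNReal NNReal Nat

namespace Pool.Agent.Q91.DilFun

open Pool.Agent.Q91.DilOps Pool.Agent.Q91.DilTheta Pool.Agent.Q91.DilSemi
open Pool.Agent.Q91.DilRes

variable {d : ℕ} {a : ℝ} {c : EuclideanSpace ℝ (Fin d) → ℝ}

open scoped Classical in
/-- The semigroup on functions. -/
noncomputable def UF (a : ℝ) (c : EuclideanSpace ℝ (Fin d) → ℝ) (t : ℝ)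
    (f : EuclideanSpace ℝ (Fin d) → ℝ) : EuclideanSpace ℝ (Fin d) → ℝ :=
  if h : ∃ p : ℝ≥0∞, 1 ≤ p ∧ MemLp f p volume then
    have : Fact (1 ≤ h.choose) := ⟨h.choose_spec.1⟩
    (US a c h.choose t (h.choose_spec.2.toLp f) : LpE d h.choose)
  else 0

theorem UF_eq (ha : 1 < a) (hc : Adm c) (p : ℝ≥0∞) [hp : Fact (1 ≤ p)] {t : ℝ} (ht : 0 ≤ t)
    {f : EuclideanSpace ℝ (Fin d) → ℝ} (hf : MemLp f p volume) :
    UF a c t f =ᵐ[volume] US a c p t (hf.toLp f) := by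
  have h : ∃ p : ℝ≥0∞, 1 ≤ p ∧ MemLp f p volume := ⟨p, hp.out, hf⟩
  unfold UF
  rw [dif_pos h]
  have : Fact (1 ≤ h.choose) := ⟨h.choose_spec.1⟩
  refine US_consistent ha hc h.choose p ht ?_
  exact (MemLp.coeFn_toLp _).trans (MemLp.coeFn_toLp hf).symm

open scoped Classical in
/-- An operator on `L^1` acting on functions. -/
noncomputable def opF (T : LpE d 1 →L[ℝ] LpE d 1)
    (f : EuclideanSpace ℝ (Fin d) → ℝ) : EuclideanSpace ℝ (Fin d) → ℝ :=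
  if h : MemLp f 1 volume then T (h.toLp f) else 0

theorem opF_eq (T : LpE d 1 →L[ℝ] LpE d 1) {f : EuclideanSpace ℝ (Fin d) → ℝ}
    (hf : MemLp f 1 volume) : opF T f = T (hf.toLp f) := by
  unfold opF
  rw [dif_pos hf]

theorem memLp_congr_toLp {p : ℝ≥0∞} [Fact (1 ≤ p)] {f g : EuclideanSpace ℝ (Fin d) → ℝ}
    (hf : MemLp f p volume) (hg : MemLp g p volume) (h : f =ᵐ[volume] g) :
    hf.toLp f = hg.toLp g := (MemLp.toLp_eq_toLp_iff hf hg).2 h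

theorem toLp_add' {p : ℝ≥0∞} {f g : EuclideanSpace ℝ (Fin d) → ℝ}
    (hf : MemLp f p volume) (hg : MemLp g p volume) (hfg : MemLp (fun x => f x + g x) p volume) :
    hfg.toLp (fun x => f x + g x) = hf.toLp f + hg.toLp g := MemLp.toLp_add hf hg

theorem toLp_mul' {p : ℝ≥0∞} {f : EuclideanSpace ℝ (Fin d) → ℝ} (r : ℝ)
    (hf : MemLp f p volume) (hfg : MemLp (fun x => r * f x) p volume) :
    hfg.toLp (fun x => r * f x) = r • hf.toLp f := MemLp.toLp_const_smul r hf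

theorem UF_mem (ha : 1 < a) (hc : Adm c) {p : ℝ≥0∞} (hp : 1 ≤ p) {t : ℝ} (ht : 0 ≤ t)
    {f : EuclideanSpace ℝ (Fin d) → ℝ} (hf : MemLp f p volume) : MemLp (UF a c t f) p volume := by
  have : Fact (1 ≤ p) := ⟨hp⟩
  exact (Lp.memLp (US a c p t (hf.toLp f))).ae_eq (UF_eq ha hc p ht hf).symm

theorem UF_toLp (ha : 1 < a) (hc : Adm c) {p : ℝ≥0∞} [hp : Fact (1 ≤ p)] {t : ℝ} (ht : 0 ≤ t)
    {f : EuclideanSpace ℝ (Fin d) → ℝ} (hf : MemLp f p volume)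
    (h : MemLp (UF a c t f) p volume) : h.toLp (UF a c t f) = US a c p t (hf.toLp f) := by
  refine Lp.ext ?_
  exact (MemLp.coeFn_toLp h).trans (UF_eq ha hc p ht hf)

theorem UF_congr (ha : 1 < a) (hc : Adm c) {p : ℝ≥0∞} (hp : 1 ≤ p) {t : ℝ} (ht : 0 ≤ t)
    {f g : EuclideanSpace ℝ (Fin d) → ℝ} (hf : MemLp f p volume) (h : f =ᵐ[volume] g) :
    UF a c t f =ᵐ[volume] UF a c t g := by
  have : Fact (1 ≤ p) := ⟨hp⟩
  have hg : MemLp g p volume := hf.ae_eq h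
  refine (UF_eq ha hc p ht hf).trans (EventuallyEq.trans ?_ (UF_eq ha hc p ht hg).symm)
  rw [memLp_congr_toLp hf hg h]

theorem UF_add (ha : 1 < a) (hc : Adm c) {p : ℝ≥0∞} (hp : 1 ≤ p) {t : ℝ} (ht : 0 ≤ t)
    {f g : EuclideanSpace ℝ (Fin d) → ℝ} (hf : MemLp f p volume) (hg : MemLp g p volume) :
    UF a c t (fun x => f x + g x) =ᵐ[volume] fun x => UF a c t f x + UF a c t g x := by
  have : Fact (1 ≤ p) := ⟨hp⟩
  have hfg : MemLp (fun x => f x + g x) p volume := hf.add hg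
  have h1 := UF_eq ha hc p ht hfg
  rw [toLp_add' hf hg hfg, map_add] at h1
  filter_upwards [h1, UF_eq ha hc p ht hf, UF_eq ha hc p ht hg,
    Lp.coeFn_add (US a c p t (hf.toLp f)) (US a c p t (hg.toLp g))] with x h1 h2 h3 h4
  rw [h1, h2, h3, h4, Pi.add_apply]

theorem UF_smul (ha : 1 < a) (hc : Adm c) {p : ℝ≥0∞} (hp : 1 ≤ p) {t : ℝ} (ht : 0 ≤ t) (r : ℝ)
    {f : EuclideanSpace ℝ (Fin d) → ℝ} (hf : MemLp f p volume) :
    UF a c t (fun x => r * f x) =ᵐ[volume] fun x => r * UF a c t f x := by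
  have : Fact (1 ≤ p) := ⟨hp⟩
  have hfg : MemLp (fun x => r * f x) p volume := hf.const_mul r
  have h1 := UF_eq ha hc p ht hfg
  rw [toLp_mul' r hf hfg, map_smul] at h1
  filter_upwards [h1, UF_eq ha hc p ht hf, Lp.coeFn_smul r (US a c p t (hf.toLp f))]
    with x h1 h2 h4
  rw [h1, h2, h4, Pi.smul_apply, smul_eq_mul]

theorem UF_zero (ha : 1 < a) (hc : Adm c) {p : ℝ≥0∞} (hp : 1 ≤ p)
    {f : EuclideanSpace ℝ (Fin d) → ℝ} (hf : MemLp f p volume) : UF a c 0 f =ᵐ[volume] f := by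
  have : Fact (1 ≤ p) := ⟨hp⟩
  have h1 := UF_eq ha hc p le_rfl hf
  rw [US_zero] at h1
  exact h1.trans (MemLp.coeFn_toLp hf)

theorem UF_semi (ha : 1 < a) (hc : Adm c) {p : ℝ≥0∞} (hp : 1 ≤ p) {s t : ℝ} (hs : 0 ≤ s)
    (ht : 0 ≤ t) {f : EuclideanSpace ℝ (Fin d) → ℝ} (hf : MemLp f p volume) :
    UF a c (s + t) f =ᵐ[volume] UF a c s (UF a c t f) := by
  have : Fact (1 ≤ p) := ⟨hp⟩
  have h1 := UF_eq ha hc p (add_nonneg hs ht) hf
  have h2 := UF_mem ha hc hp ht hf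
  have h3 := UF_eq ha hc p hs h2
  rw [US_add ha hc p hs ht] at h1
  rw [UF_toLp ha hc ht hf h2] at h3
  exact h1.trans h3.symm

theorem UF_nonneg (ha : 1 < a) (hc : Adm c) {p : ℝ≥0∞} (hp : 1 ≤ p) {t : ℝ} (ht : 0 ≤ t)
    {f : EuclideanSpace ℝ (Fin d) → ℝ} (hf : MemLp f p volume) (h0 : ∀ᵐ x, 0 ≤ f x) :
    ∀ᵐ x, 0 ≤ UF a c t f x := by
  have : Fact (1 ≤ p) := ⟨hp⟩
  have h1 : 0 ≤ hf.toLp f := by
    rw [← Lp.coeFn_nonneg]
    filter_upwards [MemLp.coeFn_toLp hf, h0] with x h1 h2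
    rw [h1]
    exact h2
  have h2 := (Lp.coeFn_nonneg _).2 (US_nonneg ha hc p ht h1)
  filter_upwards [h2, UF_eq ha hc p ht hf] with x h3 h4
  rw [h4]
  exact h3

theorem eLpNorm_eq_ofReal {p : ℝ≥0∞} [Fact (1 ≤ p)] (f : LpE d p) :
    eLpNorm f p volume = ENNReal.ofReal ‖f‖ := by
  rw [Lp.norm_def, ENNReal.ofReal_toReal (Lp.eLpNorm_ne_top f)]

theorem eLpNorm_toLp {p : ℝ≥0∞} [Fact (1 ≤ p)] {f : EuclideanSpace ℝ (Fin d) → ℝ}
    (hf : MemLp f p volume) : eLpNorm f p volume = ENNReal.ofReal ‖hf.toLp f‖ := by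
  rw [← eLpNorm_eq_ofReal]
  exact eLpNorm_congr_ae (MemLp.coeFn_toLp hf).symm

theorem UF_contr_one (ha : 1 < a) (hc : Adm c) {t : ℝ} (ht : 0 ≤ t)
    {f : EuclideanSpace ℝ (Fin d) → ℝ} (hf : MemLp f 1 volume) :
    eLpNorm (UF a c t f) 1 volume ≤ eLpNorm f 1 volume := by
  rw [eLpNorm_congr_ae (UF_eq ha hc 1 ht hf), eLpNorm_eq_ofReal, eLpNorm_toLp hf]
  exact ENNReal.ofReal_le_ofReal (US_norm_one ha hc ht _)

theorem UF_contr_top (ha : 1 < a) (hc : Adm c) {t : ℝ} (ht : 0 ≤ t)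
    {f : EuclideanSpace ℝ (Fin d) → ℝ} (hf : MemLp f ∞ volume) :
    eLpNorm (UF a c t f) ∞ volume ≤ eLpNorm f ∞ volume := by
  rw [eLpNorm_congr_ae (UF_eq ha hc ∞ ht hf), eLpNorm_eq_ofReal, eLpNorm_toLp hf]
  exact ENNReal.ofReal_le_ofReal (US_norm_top ha hc ht _)

theorem UF_cont (ha : 1 < a) (hc : Adm c) {p : ℝ≥0∞} (hp : 1 ≤ p) (hpt : p ≠ ∞)
    {f : EuclideanSpace ℝ (Fin d) → ℝ} (hf : MemLp f p volume) {s : ℝ} (hs : 0 ≤ s) :
    Tendsto (fun t => eLpNorm (fun x => UF a c t f x - UF a c s f x) p volume)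
      (𝓝[Ici 0] s) (𝓝 0) := by
  have : Fact (1 ≤ p) := ⟨hp⟩
  have h1 : Tendsto (fun t => US a c p t (hf.toLp f)) (𝓝[Ici 0] s)
      (𝓝 (US a c p s (hf.toLp f))) := US_cont ha hc p hpt (hf.toLp f) s hs
  rw [Lp.tendsto_Lp_iff_tendsto_eLpNorm'] at h1
  refine h1.congr' ?_
  filter_upwards [self_mem_nhdsWithin] with t ht
  have ht : 0 ≤ t := ht
  refine eLpNorm_congr_ae ?_
  filter_upwards [UF_eq ha hc p ht hf, UF_eq ha hc p hs hf] with x h2 h3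
  rw [h2, h3, Pi.sub_apply]

theorem inner_eq {f g : LpE d 2} : inner ℝ f g = ∫ x, f x * g x := by
  rw [L2.inner_def]
  refine integral_congr_ae (Eventually.of_forall fun x => ?_)
  simp only [RCLike.inner_apply, conj_trivial]
  ring

theorem UF_symm (ha : 1 < a) (hc : Adm c) {t : ℝ} (ht : 0 ≤ t)
    {f g : EuclideanSpace ℝ (Fin d) → ℝ} (hf : MemLp f 2 volume) (hg : MemLp g 2 volume) :
    ∫ x, UF a c t f x * g x = ∫ x, f x * UF a c t g x := by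
  have h1 := US_inner ha hc ht (hf.toLp f) (hg.toLp g)
  rw [inner_eq, inner_eq] at h1
  have e1 : ∫ x, UF a c t f x * g x = ∫ x, US a c 2 t (hf.toLp f) x * hg.toLp g x := by
    refine integral_congr_ae ?_
    filter_upwards [UF_eq ha hc 2 ht hf, MemLp.coeFn_toLp hg] with x h2 h3
    rw [h2, h3]
  have e2 : ∫ x, f x * UF a c t g x = ∫ x, hf.toLp f x * US a c 2 t (hg.toLp g) x := by
    refine integral_congr_ae ?_
    filter_upwards [UF_eq ha hc 2 ht hg, MemLp.coeFn_toLp hf] with x h2 h3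
    rw [h2, h3]
  rw [e1, e2, h1]

/-! ### Generator -/

theorem gen_iff (ha : 1 < a) (hc : Adm c) {f g : EuclideanSpace ℝ (Fin d) → ℝ}
    (hf : MemLp f 1 volume) (hg : MemLp g 1 volume) :
    Tendsto (fun t : ℝ => eLpNorm (fun x => t⁻¹ * (UF a c t f x - f x) - g x) 1 volume)
      (𝓝[>] 0) (𝓝 0) ↔
    Tendsto (fun t : ℝ => t⁻¹ • (US a c 1 t (hf.toLp f) - hf.toLp f)) (𝓝[>] 0)
      (𝓝 (hg.toLp g)) := by
  rw [Lp.tendsto_Lp_iff_tendsto_eLpNorm']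
  refine tendsto_congr' ?_
  filter_upwards [self_mem_nhdsWithin] with t ht
  have ht : 0 < t := ht
  refine eLpNorm_congr_ae ?_
  filter_upwards [UF_eq ha hc 1 ht.le hf, MemLp.coeFn_toLp hf, MemLp.coeFn_toLp hg,
    Lp.coeFn_smul t⁻¹ (US a c 1 t (hf.toLp f) - hf.toLp f),
    Lp.coeFn_sub (US a c 1 t (hf.toLp f)) (hf.toLp f)] with x h1 h2 h3 h4 h5
  rw [Pi.sub_apply, h4, Pi.smul_apply, h5, Pi.sub_apply, h1, h2, h3, smul_eq_mul]

theorem opF_mem (T : LpE d 1 →L[ℝ] LpE d 1) {f : EuclideanSpace ℝ (Fin d) → ℝ}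
    (hf : MemLp f 1 volume) : MemLp (opF T f) 1 volume := by
  rw [opF_eq T hf]
  exact Lp.memLp _

theorem opF_toLp (T : LpE d 1 →L[ℝ] LpE d 1) {f : EuclideanSpace ℝ (Fin d) → ℝ}
    (hf : MemLp f 1 volume) (h : MemLp (opF T f) 1 volume) :
    h.toLp (opF T f) = T (hf.toLp f) := by
  refine Lp.ext ?_
  refine (MemLp.coeFn_toLp h).trans ?_
  rw [opF_eq T hf]

theorem opF_congr (T : LpE d 1 →L[ℝ] LpE d 1) {f g : EuclideanSpace ℝ (Fin d) → ℝ}
    (hf : MemLp f 1 volume) (h : f =ᵐ[volume] g) : opF T f =ᵐ[volume] opF T g := by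
  have hg : MemLp g 1 volume := hf.ae_eq h
  rw [opF_eq T hf, opF_eq T hg, memLp_congr_toLp hf hg h]

theorem opF_add (T : LpE d 1 →L[ℝ] LpE d 1) {f g : EuclideanSpace ℝ (Fin d) → ℝ}
    (hf : MemLp f 1 volume) (hg : MemLp g 1 volume) :
    opF T (fun x => f x + g x) =ᵐ[volume] fun x => opF T f x + opF T g x := by
  have hfg : MemLp (fun x => f x + g x) 1 volume := hf.add hg
  rw [opF_eq T hf, opF_eq T hg, opF_eq T hfg, toLp_add' hf hg hfg, map_add]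
  exact Lp.coeFn_add _ _

theorem opF_smul (T : LpE d 1 →L[ℝ] LpE d 1) (r : ℝ) {f : EuclideanSpace ℝ (Fin d) → ℝ}
    (hf : MemLp f 1 volume) : opF T (fun x => r * f x) =ᵐ[volume] fun x => r * opF T f x := by
  have hfg : MemLp (fun x => r * f x) 1 volume := hf.const_mul r
  rw [opF_eq T hf, opF_eq T hfg, toLp_mul' r hf hfg, map_smul]
  exact Lp.coeFn_smul _ _

theorem opF_bound (T : LpE d 1 →L[ℝ] LpE d 1) {f : EuclideanSpace ℝ (Fin d) → ℝ}
    (hf : MemLp f 1 volume) :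
    eLpNorm (opF T f) 1 volume ≤ (‖T‖₊ : ℝ≥0∞) * eLpNorm f 1 volume := by
  rw [opF_eq T hf, eLpNorm_eq_ofReal, eLpNorm_toLp hf]
  have h1 : ((‖T‖₊ : ℝ≥0) : ℝ≥0∞) = ENNReal.ofReal ‖T‖ := by
    rw [← coe_nnnorm, ENNReal.ofReal_coe_nnreal]
  rw [h1, ← ENNReal.ofReal_mul (norm_nonneg _)]
  exact ENNReal.ofReal_le_ofReal (ContinuousLinearMap.le_opNorm _ _)

/-- Iterates of the function-level operator. -/
theorem opF_iterate (T : LpE d 1 →L[ℝ] LpE d 1) (n : ℕ) {f : EuclideanSpace ℝ (Fin d) → ℝ}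
    (hf : MemLp f 1 volume) : (opF T)^[n] f =ᵐ[volume] opF (T ^ n) f := by
  have key : ∀ n : ℕ, MemLp ((opF T)^[n] f) 1 volume ∧
      (opF T)^[n] f =ᵐ[volume] ((T ^ n) (hf.toLp f) : LpE d 1) := by
    intro n
    induction n with
    | zero =>
      refine ⟨hf, ?_⟩
      simp only [Function.iterate_zero, id_eq, pow_zero]
      exact (MemLp.coeFn_toLp hf).symm
    | succ n ih =>
      obtain ⟨h1, h2⟩ := ih
      rw [Function.iterate_succ_apply']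
      refine ⟨opF_mem T h1, ?_⟩
      rw [opF_eq T h1, pow_succ', mul_apply_eq_comp]
      have h3 : h1.toLp ((opF T)^[n] f) = (T ^ n) (hf.toLp f) := by
        refine Lp.ext ?_
        exact (MemLp.coeFn_toLp h1).trans h2
      rw [h3]
  rw [opF_eq _ hf]
  exact (key n).2

/-- The infimum of the admissible constants is the operator norm. -/
theorem sInf_bound (T : LpE d 1 →L[ℝ] LpE d 1) (n : ℕ) :
    sInf {C : ℝ≥0∞ | ∀ f : EuclideanSpace ℝ (Fin d) → ℝ, MemLp f 1 volume →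
      eLpNorm ((opF T)^[n] f) 1 volume ≤ C * eLpNorm f 1 volume} = ENNReal.ofReal ‖T ^ n‖ := by
  refine le_antisymm (sInf_le ?_) (le_sInf ?_)
  · intro f hf
    rw [eLpNorm_congr_ae (opF_iterate T n hf)]
    refine le_trans (opF_bound (T ^ n) hf) (le_of_eq ?_)
    rw [← coe_nnnorm, ENNReal.ofReal_coe_nnreal]
  · intro C hC
    by_cases htop : C = ∞
    · rw [htop]
      exact le_top
    · refine ENNReal.ofReal_le_of_le_toReal ?_
      refine ContinuousLinearMap.opNorm_le_bound _ ENNReal.toReal_nonneg fun g => ?_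
      have h1 := hC g (Lp.memLp g)
      rw [eLpNorm_congr_ae (opF_iterate T n (Lp.memLp g)), opF_eq _ (Lp.memLp g),
        eLpNorm_eq_ofReal, eLpNorm_eq_ofReal, Lp.toLp_coeFn] at h1
      have h2 := ENNReal.toReal_mono (ENNReal.mul_ne_top htop ENNReal.ofReal_ne_top) h1
      rwa [ENNReal.toReal_mul, ENNReal.toReal_ofReal (norm_nonneg _),
        ENNReal.toReal_ofReal (norm_nonneg _)] at h2

end Pool.Agent.Q91.DilFun
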