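import Mathlib

/-!
Operators on `L^p(ℝ^d)`: multiplication by bounded measurable functions, dilations, and the
symmetric Markov operator `Π g(y) = (2^d g(2y) + g(y/2)) / (2^d + 1)`.
-/

open MeasureTheory Filter Topology Set
open scoped ENNReal NNReal

namespace Pool.Agent.Q91.DilOps

variable {d : ℕ}

/-- The space `L^p(ℝ^d)`. -/
noncomputable abbrev LpE (d : ℕ) (p : ℝ≥0∞) := Lp ℝ p (volume : Measure (EuclideanSpace ℝ (Fin d)))

/-- Builder for operators given by a formula on representatives. -/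
noncomputable def mkOp (p : ℝ≥0∞) [Fact (1 ≤ p)]
    (T : LpE d p → EuclideanSpace ℝ (Fin d) → ℝ)
    (hmem : ∀ f, MemLp (T f) p volume) (hadd : ∀ f g, T (f + g) =ᵐ[volume] T f + T g)
    (hsmul : ∀ (c : ℝ) f, T (c • f) =ᵐ[volume] c • T f) (C : ℝ)
    (hb : ∀ f, ‖(hmem f).toLp (T f)‖ ≤ C * ‖f‖) : LpE d p →L[ℝ] LpE d p :=
  LinearMap.mkContinuous
    { toFun := fun f => (hmem f).toLp (T f)
      map_add' := fun f g => by
        rw [← MemLp.toLp_add, MemLp.toLp_eq_toLp_iff]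
        exact hadd f g
      map_smul' := fun c f => by
        rw [RingHom.id_apply, ← MemLp.toLp_const_smul, MemLp.toLp_eq_toLp_iff]
        exact hsmul c f } C hb

theorem mkOp_coe (p : ℝ≥0∞) [Fact (1 ≤ p)]
    (T : LpE d p → EuclideanSpace ℝ (Fin d) → ℝ)
    (hmem : ∀ f, MemLp (T f) p volume) (hadd : ∀ f g, T (f + g) =ᵐ[volume] T f + T g)
    (hsmul : ∀ (c : ℝ) f, T (c • f) =ᵐ[volume] c • T f) (C : ℝ)
    (hb : ∀ f, ‖(hmem f).toLp (T f)‖ ≤ C * ‖f‖) (f : LpE d p) :
    mkOp p T hmem hadd hsmul C hb f =ᵐ[volume] T f :=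
  MemLp.coeFn_toLp (hmem f)

/-- Bounded measurable functions. -/
def BM (h : EuclideanSpace ℝ (Fin d) → ℝ) : Prop := Measurable h ∧ ∃ C : ℝ, ∀ x, |h x| ≤ C

theorem memLp_mul (p : ℝ≥0∞) {h : EuclideanSpace ℝ (Fin d) → ℝ} (H : BM h) (f : LpE d p) :
    MemLp (fun x => h x * f x) p volume := by
  obtain ⟨C, hC⟩ := H.2
  refine (Lp.memLp f).of_le_mul (c := C) (H.1.aestronglyMeasurable.mul (Lp.aestronglyMeasurable f))
    (Eventually.of_forall fun x => ?_)
  rw [norm_mul, Real.norm_eq_abs (h x)]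
  exact mul_le_mul_of_nonneg_right (hC x) (norm_nonneg _)

open scoped Classical in
/-- Multiplication by `h` (zero if `h` is not bounded measurable). -/
noncomputable def mulL (p : ℝ≥0∞) [Fact (1 ≤ p)] (h : EuclideanSpace ℝ (Fin d) → ℝ) :
    LpE d p →L[ℝ] LpE d p :=
  if H : BM h then
    mkOp p (fun f x => h x * f x) (memLp_mul p H)
      (fun f g => by
        filter_upwards [Lp.coeFn_add f g] with x hx
        rw [hx]
        simp only [Pi.add_apply]
        ring)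
      (fun c f => by
        filter_upwards [Lp.coeFn_smul c f] with x hx
        rw [hx]
        simp only [Pi.smul_apply, smul_eq_mul]
        ring) H.2.choose
      (fun f => by
        refine Lp.norm_le_mul_norm_of_ae_le_mul ?_
        filter_upwards [MemLp.coeFn_toLp (memLp_mul p H f)] with x hx
        rw [hx, norm_mul, Real.norm_eq_abs (h x)]
        exact mul_le_mul_of_nonneg_right (H.2.choose_spec x) (norm_nonneg _))
  else 0

theorem mulL_coe (p : ℝ≥0∞) [Fact (1 ≤ p)] {h : EuclideanSpace ℝ (Fin d) → ℝ} (H : BM h)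
    (f : LpE d p) : mulL p h f =ᵐ[volume] fun x => h x * f x := by
  unfold mulL
  rw [dif_pos H]
  exact mkOp_coe _ _ _ _ _ _ _ _

theorem norm_mulL_le (p : ℝ≥0∞) [Fact (1 ≤ p)] {h : EuclideanSpace ℝ (Fin d) → ℝ}
    (hm : Measurable h) {C : ℝ} (hC : ∀ x, |h x| ≤ C) : ‖mulL p h‖ ≤ C := by
  have hC0 : 0 ≤ C := le_trans (abs_nonneg _) (hC 0)
  refine ContinuousLinearMap.opNorm_le_bound _ hC0 fun f => ?_
  refine Lp.norm_le_mul_norm_of_ae_le_mul ?_
  filter_upwards [mulL_coe p ⟨hm, C, hC⟩ f] with x hx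
  rw [hx, norm_mul, Real.norm_eq_abs (h x)]
  exact mul_le_mul_of_nonneg_right (hC x) (norm_nonneg _)

/-! ### Dilations -/

theorem quasi (r : ℝ) (hr : r ≠ 0) : Measure.QuasiMeasurePreserving
    (fun x : EuclideanSpace ℝ (Fin d) => r • x) volume volume :=
  Measure.quasiMeasurePreserving_smul volume hr

theorem eLpNorm_dil (p : ℝ≥0∞) {r : ℝ} (hr : 0 < r) {f : EuclideanSpace ℝ (Fin d) → ℝ}
    (hf : AEStronglyMeasurable f volume) :
    eLpNorm (fun x => f (r • x)) p volume =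
      (ENNReal.ofReal ((r ^ d)⁻¹)) ^ (1 / p).toReal * eLpNorm f p volume := by
  have h1 : Measure.map (fun x : EuclideanSpace ℝ (Fin d) => r • x) volume =
      ENNReal.ofReal ((r ^ d)⁻¹) • volume := by
    have := Measure.map_addHaar_smul (volume : Measure (EuclideanSpace ℝ (Fin d))) hr.ne'
    rw [finrank_euclideanSpace, Fintype.card_fin, abs_of_pos (by positivity)] at this
    exact this
  have h2 : AEStronglyMeasurable f (Measure.map (fun x : EuclideanSpace ℝ (Fin d) => r • x)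
      volume) := by
    rw [h1]
    exact hf.mono_ac Measure.smul_absolutelyContinuous
  have h3 := eLpNorm_map_measure (p := p) h2 (measurable_const_smul r).aemeasurable
  rw [h1, eLpNorm_smul_measure_of_ne_zero (by positivity)] at h3
  rw [← smul_eq_mul, h3]
  rfl

/-- The Markov operator on functions. -/
noncomputable def piF (d : ℕ) (f : EuclideanSpace ℝ (Fin d) → ℝ)
    (x : EuclideanSpace ℝ (Fin d)) : ℝ :=
  (2 ^ d * f ((2 : ℝ) • x) + f ((2 : ℝ)⁻¹ • x)) / (2 ^ d + 1)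

theorem piF_congr {f g : EuclideanSpace ℝ (Fin d) → ℝ} (h : f =ᵐ[volume] g) :
    piF d f =ᵐ[volume] piF d g := by
  have h1 := (quasi (d := d) 2 (by norm_num)).ae_eq_comp h
  have h2 := (quasi (d := d) (2 : ℝ)⁻¹ (by norm_num)).ae_eq_comp h
  filter_upwards [h1, h2] with x hx1 hx2
  simp only [Function.comp_apply] at hx1 hx2
  unfold piF
  rw [hx1, hx2]

theorem rpow_ineq {x s : ℝ} (hx : 1 ≤ x) (hs : 0 ≤ s) (hs1 : s ≤ 1) :
    x * (x⁻¹) ^ s + x ^ s ≤ x + 1 := by
  have hx0 : 0 < x := by linarith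
  have h1 : x * (x⁻¹) ^ s = x ^ (1 - s) := by
    rw [Real.inv_rpow hx0.le, Real.rpow_sub hx0, Real.rpow_one]
    rfl
  rw [h1]
  have h2 : 1 ≤ x ^ (1 - s) := Real.one_le_rpow hx (by linarith)
  have h3 : 1 ≤ x ^ s := Real.one_le_rpow hx hs
  have h4 : x ^ (1 - s) * x ^ s = x := by
    rw [← Real.rpow_add hx0]
    simp
  nlinarith [mul_nonneg (sub_nonneg.2 h2) (sub_nonneg.2 h3)]

theorem aesm_dil {r : ℝ} (hr : r ≠ 0) {f : EuclideanSpace ℝ (Fin d) → ℝ}
    (hf : AEStronglyMeasurable f volume) :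
    AEStronglyMeasurable (fun x => f (r • x)) (volume : Measure (EuclideanSpace ℝ (Fin d))) :=
  hf.comp_quasiMeasurePreserving (quasi r hr)

theorem toReal_one_div_le {p : ℝ≥0∞} (hp : 1 ≤ p) : (1 / p).toReal ≤ 1 := by
  have h1 : 1 / p ≤ 1 := by
    rw [one_div]
    exact ENNReal.inv_le_one.2 hp
  have := ENNReal.toReal_mono ENNReal.one_ne_top h1
  simpa using this

/-- The constant for the norm of `Π` on `L^p`. -/
noncomputable def kap (d : ℕ) (p : ℝ≥0∞) : ℝ :=
  (2 ^ d * (((2 : ℝ) ^ d)⁻¹) ^ (1 / p).toReal + (2 ^ d) ^ (1 / p).toReal) / (2 ^ d + 1)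

theorem kap_le_one (d : ℕ) {p : ℝ≥0∞} (hp : 1 ≤ p) : kap d p ≤ 1 := by
  unfold kap
  rw [div_le_one (by positivity)]
  exact rpow_ineq (one_le_pow₀ (by norm_num)) ENNReal.toReal_nonneg (toReal_one_div_le hp)

theorem kap_nonneg (d : ℕ) (p : ℝ≥0∞) : 0 ≤ kap d p := by
  unfold kap
  positivity

theorem eLpNorm_piF_le (p : ℝ≥0∞) [hp : Fact (1 ≤ p)] {f : EuclideanSpace ℝ (Fin d) → ℝ}
    (hf : AEStronglyMeasurable f volume) :
    eLpNorm (piF d f) p volume ≤ ENNReal.ofReal (kap d p) * eLpNorm f p volume := by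
  set s := (1 / p).toReal with hs
  have hs0 : 0 ≤ s := ENNReal.toReal_nonneg
  have h2d : (0 : ℝ) < 2 ^ d := by positivity
  have e1 : piF d f = (2 ^ d / (2 ^ d + 1) : ℝ) • (fun x => f ((2 : ℝ) • x)) +
      (1 / (2 ^ d + 1) : ℝ) • (fun x => f ((2 : ℝ)⁻¹ • x)) := by
    funext x
    simp only [piF, Pi.add_apply, Pi.smul_apply, smul_eq_mul]
    ring
  have n1 := eLpNorm_dil p (r := 2) (by norm_num) hf
  have n2 := eLpNorm_dil p (r := (2 : ℝ)⁻¹) (by norm_num) hf
  rw [e1]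
  refine le_trans (eLpNorm_add_le ((aesm_dil (by norm_num) hf).const_smul _)
    ((aesm_dil (by norm_num) hf).const_smul _) hp.out) ?_
  rw [eLpNorm_const_smul, eLpNorm_const_smul, n1, n2, ← mul_assoc, ← mul_assoc, ← add_mul]
  refine mul_le_mul_left ?_ _
  rw [Real.enorm_eq_ofReal (by positivity), Real.enorm_eq_ofReal (by positivity),
    ENNReal.ofReal_rpow_of_nonneg (by positivity) hs0,
    ENNReal.ofReal_rpow_of_nonneg (by positivity) hs0, ← ENNReal.ofReal_mul (by positivity),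
    ← ENNReal.ofReal_mul (by positivity), ← ENNReal.ofReal_add (by positivity) (by positivity)]
  refine ENNReal.ofReal_le_ofReal (le_of_eq ?_)
  unfold kap
  rw [← hs, inv_pow, inv_inv]
  field_simp

theorem memLp_pi (p : ℝ≥0∞) [Fact (1 ≤ p)] (f : LpE d p) : MemLp (piF d f) p volume := by
  refine ⟨?_, lt_of_le_of_lt (eLpNorm_piF_le p (Lp.aestronglyMeasurable f))
    (ENNReal.mul_lt_top ENNReal.ofReal_lt_top (Lp.eLpNorm_lt_top f))⟩
  exact (((aesm_dil (by norm_num) (Lp.aestronglyMeasurable f)).const_mul (2 ^ d)).add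
    (aesm_dil (by norm_num) (Lp.aestronglyMeasurable f))).mul_const _

/-- The Markov operator on `L^p`. -/
noncomputable def piL (d : ℕ) (p : ℝ≥0∞) [Fact (1 ≤ p)] : LpE d p →L[ℝ] LpE d p :=
  mkOp p (fun f => piF d f) (memLp_pi p)
    (fun f g => by
      refine (piF_congr (Lp.coeFn_add f g)).trans (Eventually.of_forall fun x => ?_)
      simp only [piF, Pi.add_apply]
      ring)
    (fun c f => by
      refine (piF_congr (Lp.coeFn_smul c f)).trans (Eventually.of_forall fun x => ?_)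
      simp only [piF, Pi.smul_apply, smul_eq_mul]
      ring) (kap d p)
    (fun f => by
      rw [Lp.norm_toLp, Lp.norm_def, ← ENNReal.toReal_ofReal (kap_nonneg d p),
        ← ENNReal.toReal_mul]
      exact ENNReal.toReal_mono (ENNReal.mul_ne_top ENNReal.ofReal_ne_top (Lp.eLpNorm_ne_top f))
        (eLpNorm_piF_le p (Lp.aestronglyMeasurable f)))

theorem piL_coe (p : ℝ≥0∞) [Fact (1 ≤ p)] (f : LpE d p) :
    piL d p f =ᵐ[volume] piF d f :=
  mkOp_coe _ _ _ _ _ _ _ _

theorem norm_piL_le (p : ℝ≥0∞) [Fact (1 ≤ p)] : ‖piL d p‖ ≤ kap d p := by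
  unfold piL mkOp
  exact LinearMap.mkContinuous_norm_le _ (kap_nonneg d p) _

/-! ### Algebra of multiplication operators -/

theorem mulL_mul (p : ℝ≥0∞) [Fact (1 ≤ p)] {h k : EuclideanSpace ℝ (Fin d) → ℝ} (H : BM h)
    (K : BM k) (HK : BM fun x => h x * k x) : mulL p h * mulL p k = mulL p fun x => h x * k x := by
  ext1 f
  refine Lp.ext ?_
  filter_upwards [mulL_coe p H (mulL p k f), mulL_coe p K f, mulL_coe p HK f] with x h1 h2 h3
  rw [mul_apply_eq_comp, h1, h2, h3, mul_assoc]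

theorem bm_mul {h k : EuclideanSpace ℝ (Fin d) → ℝ} (H : BM h) (K : BM k) :
    BM fun x => h x * k x := by
  obtain ⟨C, hC⟩ := H.2
  obtain ⟨D, hD⟩ := K.2
  refine ⟨H.1.mul K.1, C * D, fun x => ?_⟩
  rw [abs_mul]
  exact mul_le_mul (hC x) (hD x) (abs_nonneg _) (le_trans (abs_nonneg _) (hC x))

theorem bm_add {h k : EuclideanSpace ℝ (Fin d) → ℝ} (H : BM h) (K : BM k) :
    BM fun x => h x + k x := by
  obtain ⟨C, hC⟩ := H.2
  obtain ⟨D, hD⟩ := K.2
  exact ⟨H.1.add K.1, C + D, fun x => le_trans (abs_add_le _ _) (add_le_add (hC x) (hD x))⟩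

theorem bm_const (c : ℝ) : BM (fun _ : EuclideanSpace ℝ (Fin d) => c) :=
  ⟨measurable_const, |c|, fun _ => le_rfl⟩

theorem bm_sum {ι : Type*} (s : Finset ι) {h : ι → EuclideanSpace ℝ (Fin d) → ℝ}
    (H : ∀ i ∈ s, BM (h i)) : BM fun x => ∑ i ∈ s, h i x := by
  classical
  induction s using Finset.induction_on with
  | empty => simpa using bm_const (d := d) 0
  | insert a s ha ih =>
    have := bm_add (H a (Finset.mem_insert_self a s))
      (ih fun i hi => H i (Finset.mem_insert_of_mem hi))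
    simpa only [Finset.sum_insert ha] using this

theorem mulL_add (p : ℝ≥0∞) [Fact (1 ≤ p)] {h k : EuclideanSpace ℝ (Fin d) → ℝ} (H : BM h)
    (K : BM k) : (mulL p fun x => h x + k x) = mulL p h + mulL p k := by
  ext1 f
  refine Lp.ext ?_
  filter_upwards [mulL_coe p H f, mulL_coe p K f, mulL_coe p (bm_add H K) f,
    Lp.coeFn_add (mulL p h f) (mulL p k f)] with x h1 h2 h3 h4
  rw [add_apply, h4, h3, Pi.add_apply, h1, h2, add_mul]

theorem mulL_const_mul (p : ℝ≥0∞) [Fact (1 ≤ p)] {h : EuclideanSpace ℝ (Fin d) → ℝ} (H : BM h)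
    (c : ℝ) : (mulL p fun x => c * h x) = c • mulL p h := by
  ext1 f
  refine Lp.ext ?_
  filter_upwards [mulL_coe p H f, mulL_coe p (bm_mul (bm_const c) H) f,
    Lp.coeFn_smul c (mulL p h f)] with x h1 h2 h3
  rw [smul_apply, h3, h2, Pi.smul_apply, h1, smul_eq_mul, mul_assoc]

theorem mulL_one (p : ℝ≥0∞) [Fact (1 ≤ p)] :
    mulL p (fun _ : EuclideanSpace ℝ (Fin d) => (1 : ℝ)) = 1 := by
  ext1 f
  refine Lp.ext ?_
  filter_upwards [mulL_coe p (bm_const (d := d) 1) f] with x h1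
  rw [h1, one_mul]
  rfl

theorem mulL_zero (p : ℝ≥0∞) [Fact (1 ≤ p)] :
    mulL p (fun _ : EuclideanSpace ℝ (Fin d) => (0 : ℝ)) = 0 := by
  ext1 f
  refine Lp.ext ?_
  filter_upwards [mulL_coe p (bm_const (d := d) 0) f,
    Lp.coeFn_zero ℝ p (volume : Measure (EuclideanSpace ℝ (Fin d)))] with x h1 h2
  rw [h1, zero_mul, zero_apply, h2]
  rfl

theorem mulL_sum (p : ℝ≥0∞) [Fact (1 ≤ p)] {ι : Type*} (s : Finset ι)
    {h : ι → EuclideanSpace ℝ (Fin d) → ℝ} (H : ∀ i ∈ s, BM (h i)) :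
    (mulL p fun x => ∑ i ∈ s, h i x) = ∑ i ∈ s, mulL p (h i) := by
  classical
  induction s using Finset.induction_on with
  | empty => simpa using mulL_zero (d := d) p
  | insert a s ha ih =>
    simp only [Finset.sum_insert ha]
    rw [mulL_add p (H a (Finset.mem_insert_self a s))
      (bm_sum s fun i hi => H i (Finset.mem_insert_of_mem hi)),
      ih fun i hi => H i (Finset.mem_insert_of_mem hi)]

theorem inv_half {h : EuclideanSpace ℝ (Fin d) → ℝ} (hi : ∀ x, h ((2 : ℝ) • x) = h x)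
    (x : EuclideanSpace ℝ (Fin d)) : h ((2 : ℝ)⁻¹ • x) = h x := by
  have := hi ((2 : ℝ)⁻¹ • x)
  rw [smul_smul, mul_inv_cancel₀ (by norm_num), one_smul] at this
  exact this.symm

theorem commute_mulL (p : ℝ≥0∞) [Fact (1 ≤ p)] {h : EuclideanSpace ℝ (Fin d) → ℝ} (H : BM h)
    (hi : ∀ x, h ((2 : ℝ) • x) = h x) : Commute (mulL p h) (piL d p) := by
  unfold Commute SemiconjBy
  ext1 f
  refine Lp.ext ?_
  filter_upwards [mulL_coe p H (piL d p f), piL_coe p f, piL_coe p (mulL p h f),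
    piF_congr (mulL_coe p H f)] with x h1 h2 h3 h4
  rw [mul_apply_eq_comp, mul_apply_eq_comp, h1, h2, h3, h4]
  simp only [piF]
  rw [hi, inv_half hi]
  ring

/-! ### Positivity -/

theorem mulL_nonneg (p : ℝ≥0∞) [Fact (1 ≤ p)] {h : EuclideanSpace ℝ (Fin d) → ℝ} (H : BM h)
    (h0 : ∀ x, 0 ≤ h x) {f : LpE d p} (hf : 0 ≤ f) : 0 ≤ mulL p h f := by
  rw [← Lp.coeFn_nonneg] at hf ⊢
  filter_upwards [hf, mulL_coe p H f] with x h1 h2
  rw [h2]
  exact mul_nonneg (h0 x) h1

theorem piL_nonneg (p : ℝ≥0∞) [Fact (1 ≤ p)] {f : LpE d p} (hf : 0 ≤ f) : 0 ≤ piL d p f := by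
  rw [← Lp.coeFn_nonneg] at hf ⊢
  have h1 := (quasi (d := d) 2 (by norm_num)).ae hf
  have h2 := (quasi (d := d) (2 : ℝ)⁻¹ (by norm_num)).ae hf
  filter_upwards [h1, h2, piL_coe p f] with x h1 h2 h3
  rw [h3]
  unfold piF
  have a1 : 0 ≤ f ((2 : ℝ) • x) := h1
  have a2 : 0 ≤ f ((2 : ℝ)⁻¹ • x) := h2
  simp only [Pi.zero_apply]
  positivity

/-! ### Consistency -/

theorem mulL_consistent (p q : ℝ≥0∞) [Fact (1 ≤ p)] [Fact (1 ≤ q)]
    {h : EuclideanSpace ℝ (Fin d) → ℝ} (H : BM h) {f : LpE d p} {g : LpE d q}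
    (hfg : f =ᵐ[volume] g) : mulL p h f =ᵐ[volume] mulL q h g := by
  filter_upwards [mulL_coe p H f, mulL_coe q H g, hfg] with x h1 h2 h3
  rw [h1, h2, h3]

theorem piL_consistent (p q : ℝ≥0∞) [Fact (1 ≤ p)] [Fact (1 ≤ q)]
    {f : LpE d p} {g : LpE d q}
    (hfg : f =ᵐ[volume] g) : piL d p f =ᵐ[volume] piL d q g := by
  filter_upwards [piL_coe p f, piL_coe q g, piF_congr hfg] with x h1 h2 h3
  rw [h1, h2, h3]

/-! ### Integral and inner products -/

theorem integral_piL (f : LpE d 1) : ∫ x, piL d 1 f x = ∫ x, f x := by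
  rw [integral_congr_ae (piL_coe 1 f)]
  have hi : Integrable f (volume : Measure (EuclideanSpace ℝ (Fin d))) :=
    memLp_one_iff_integrable.1 (Lp.memLp f)
  have i1 : Integrable (fun x => f ((2 : ℝ) • x)) (volume : Measure (EuclideanSpace ℝ (Fin d))) :=
    hi.comp_smul (by norm_num)
  have i2 : Integrable (fun x => f ((2 : ℝ)⁻¹ • x))
    (volume : Measure (EuclideanSpace ℝ (Fin d))) := hi.comp_smul (by norm_num)
  unfold piF
  rw [integral_div, integral_add (i1.const_mul _) i2, integral_const_mul,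
    Measure.integral_comp_smul, Measure.integral_comp_smul, finrank_euclideanSpace,
    Fintype.card_fin, abs_of_pos (by positivity), abs_of_pos (by positivity), smul_eq_mul,
    smul_eq_mul, inv_pow, inv_inv]
  have h2 : (2 : ℝ) ^ d ≠ 0 := by positivity
  have h3 : (2 : ℝ) ^ d + 1 ≠ 0 := by positivity
  rw [← mul_assoc, mul_inv_cancel₀ h2, one_mul, div_eq_iff h3]
  ring

theorem inner_mulL {h : EuclideanSpace ℝ (Fin d) → ℝ} (H : BM h) (f g : LpE d 2) :
    inner ℝ (mulL 2 h f) g = inner ℝ f (mulL 2 h g) := by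
  rw [L2.inner_def, L2.inner_def]
  refine integral_congr_ae ?_
  filter_upwards [mulL_coe 2 H f, mulL_coe 2 H g] with x h1 h2
  rw [h1, h2]
  simp only [RCLike.inner_apply, conj_trivial]
  ring

theorem inner_piL (f g : LpE d 2) : inner ℝ (piL d 2 f) g = inner ℝ f (piL d 2 g) := by
  have key : ∀ u v : LpE d 2, inner ℝ (piL d 2 u) v =
      (2 ^ d * ∫ x, u ((2 : ℝ) • x) * v x) / (2 ^ d + 1) +
      (∫ x, u ((2 : ℝ)⁻¹ • x) * v x) / (2 ^ d + 1) := by
    intro u v
    have i1 : Integrable (fun x => u ((2 : ℝ) • x) * v x)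
        (volume : Measure (EuclideanSpace ℝ (Fin d))) := by
      have hm : MemLp (fun x => u ((2 : ℝ) • x)) 2
          (volume : Measure (EuclideanSpace ℝ (Fin d))) := by
        refine ⟨aesm_dil (by norm_num) (Lp.aestronglyMeasurable u), ?_⟩
        rw [eLpNorm_dil 2 (by norm_num) (Lp.aestronglyMeasurable u)]
        exact ENNReal.mul_lt_top (ENNReal.rpow_lt_top_of_nonneg ENNReal.toReal_nonneg
          ENNReal.ofReal_ne_top) (Lp.eLpNorm_lt_top u)
      exact hm.integrable_mul (Lp.memLp v)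
    have i2 : Integrable (fun x => u ((2 : ℝ)⁻¹ • x) * v x)
        (volume : Measure (EuclideanSpace ℝ (Fin d))) := by
      have hm : MemLp (fun x => u ((2 : ℝ)⁻¹ • x)) 2
          (volume : Measure (EuclideanSpace ℝ (Fin d))) := by
        refine ⟨aesm_dil (by norm_num) (Lp.aestronglyMeasurable u), ?_⟩
        rw [eLpNorm_dil 2 (by norm_num) (Lp.aestronglyMeasurable u)]
        exact ENNReal.mul_lt_top (ENNReal.rpow_lt_top_of_nonneg ENNReal.toReal_nonneg
          ENNReal.ofReal_ne_top) (Lp.eLpNorm_lt_top u)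
      exact hm.integrable_mul (Lp.memLp v)
    rw [L2.inner_def, ← integral_const_mul, ← integral_div, ← integral_div,
      ← integral_add ((i1.const_mul _).div_const _) (i2.div_const _)]
    refine integral_congr_ae ?_
    filter_upwards [piL_coe 2 u] with x h1
    rw [h1]
    simp only [RCLike.inner_apply, conj_trivial, piF]
    ring
  have sw : ∀ (u v : LpE d 2) (r : ℝ), 0 < r → ∫ x, u (r • x) * v x =
      (r ^ d)⁻¹ * ∫ x, u x * v (r⁻¹ • x) := by
    intro u v r hr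
    have := Measure.integral_comp_smul (volume : Measure (EuclideanSpace ℝ (Fin d)))
      (fun x => u x * v (r⁻¹ • x)) r
    rw [finrank_euclideanSpace, Fintype.card_fin, abs_of_pos (by positivity), smul_eq_mul] at this
    rw [← this]
    refine integral_congr_ae (Eventually.of_forall fun x => ?_)
    simp only [smul_smul, inv_mul_cancel₀ hr.ne', one_smul]
  rw [real_inner_comm (piL d 2 g) f, key f g, key g f, sw f g 2 (by norm_num),
    sw f g (2 : ℝ)⁻¹ (by norm_num)]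
  have h2d : (2 : ℝ) ^ d ≠ 0 := by positivity
  have e1 : (∫ x, f x * g ((2 : ℝ)⁻¹ • x)) = ∫ x, g ((2 : ℝ)⁻¹ • x) * f x :=
    integral_congr_ae (Eventually.of_forall fun x => mul_comm _ _)
  have e2 : (∫ x, f x * g ((2 : ℝ)⁻¹⁻¹ • x)) = ∫ x, g ((2 : ℝ) • x) * f x := by
    rw [inv_inv]
    exact integral_congr_ae (Eventually.of_forall fun x => mul_comm _ _)
  rw [e1, e2, inv_pow, inv_inv]
  field_simp
  ring

end Pool.Agent.Q91.DilOps
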