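import Pool.Agent.Q91.DilSemi

/-!
Resolvent, spectral radius, domain and quadratic form for the semigroup `exp(t c (Π - a))`, and an
unbounded dilation-invariant function `c`.
-/

open MeasureTheory Filter Topology Set
open scoped ENNReal NNReal Nat

namespace Pool.Agent.Q91.DilRes

open Pool.Agent.Q91.DilOps Pool.Agent.Q91.DilTheta Pool.Agent.Q91.DilSemi

variable {d : ℕ} {a : ℝ} {c : EuclideanSpace ℝ (Fin d) → ℝ}

/-! ### Fatou -/

theorem fatou (s : ℝ) (hc : Adm c) {F : EuclideanSpace ℝ (Fin d) → ℝ} (hF : Integrable F volume)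
    {Kt : ℝ → ℝ≥0∞} {K : ℝ≥0∞} (hK : Tendsto Kt (𝓝[>] 0) (𝓝 K))
    (hle : ∀ t : ℝ, 0 < t →
      ∫⁻ x, ENNReal.ofReal (t⁻¹ * (1 - Real.exp (-(s * (t * c x)))) * F x) ≤ Kt t) :
    ∫⁻ x, ENNReal.ofReal (s * c x * F x) ≤ K := by
  have h1 : ∀ x, liminf (fun t : ℝ =>
      ENNReal.ofReal (t⁻¹ * (1 - Real.exp (-(s * (t * c x)))) * F x)) (𝓝[>] 0) =
      ENNReal.ofReal (s * c x * F x) := by
    intro x
    refine Tendsto.liminf_eq ?_
    refine ENNReal.tendsto_ofReal ?_
    refine Tendsto.mul_const _ ?_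
    have := (tendsto_exp_quot (s * c x)).neg
    rw [neg_neg] at this
    refine this.congr fun t => ?_
    have e : s * c x * t = s * (t * c x) := by ring
    rw [e]
    ring
  have h2 := lintegral_liminf_le' (μ := (volume : Measure (EuclideanSpace ℝ (Fin d))))
    (u := 𝓝[>] (0 : ℝ))
    (f := fun (t : ℝ) x => ENNReal.ofReal (t⁻¹ * (1 - Real.exp (-(s * (t * c x)))) * F x))
    (fun t => by
      refine ENNReal.measurable_ofReal.comp_aemeasurable ?_
      refine AEMeasurable.mul ?_ hF.aemeasurable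
      have hm := hc.meas
      exact (by fun_prop : Measurable fun x => t⁻¹ * (1 - Real.exp (-(s * (t * c x))))).aemeasurable)
  simp only [h1] at h2
  refine le_trans h2 ?_
  rw [← hK.liminf_eq]
  refine liminf_le_liminf ?_
  filter_upwards [self_mem_nhdsWithin] with t ht
  exact hle t ht

theorem lint_eq (s : ℝ) (hs : 0 ≤ s) (hc : Adm c) {F : EuclideanSpace ℝ (Fin d) → ℝ}
    (hF : Integrable F volume) (hF0 : ∀ x, 0 ≤ F x) {t : ℝ} (ht : 0 < t) :
    ∫⁻ x, ENNReal.ofReal (t⁻¹ * (1 - Real.exp (-(s * (t * c x)))) * F x) =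
      ENNReal.ofReal (t⁻¹ * ((∫ x, F x) - ∫ x, Real.exp (-(s * (t * c x))) * F x)) := by
  have hE : ∀ x, Real.exp (-(s * (t * c x))) ≤ 1 := fun x => Real.exp_le_one_iff.2 (by
    have := mul_nonneg hs (mul_nonneg ht.le (hc.pos x).le)
    linarith)
  have hm : Measurable fun x => Real.exp (-(s * (t * c x))) := by
    have := hc.meas
    fun_prop
  have i1 : Integrable (fun x => Real.exp (-(s * (t * c x))) * F x) volume := by
    refine hF.mono' (hm.aestronglyMeasurable.mul hF.aestronglyMeasurable)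
      (Eventually.of_forall fun x => ?_)
    rw [norm_mul, Real.norm_of_nonneg (Real.exp_pos _).le, Real.norm_of_nonneg (hF0 x)]
    exact mul_le_of_le_one_left (hF0 x) (hE x)
  rw [← integral_sub hF i1, ← integral_const_mul]
  have i2 : Integrable (fun x => t⁻¹ * (F x - Real.exp (-(s * (t * c x))) * F x)) volume :=
    (hF.sub i1).const_mul _
  rw [ofReal_integral_eq_lintegral_ofReal i2]
  · refine lintegral_congr fun x => ?_
    congr 1
    ring
  · refine Eventually.of_forall fun x => ?_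
    have h1 : 0 ≤ (1 - Real.exp (-(s * (t * c x)))) * F x :=
      mul_nonneg (by linarith [hE x]) (hF0 x)
    have h2 : 0 ≤ t⁻¹ := by positivity
    simp only [Pi.zero_apply]
    nlinarith [mul_nonneg h2 h1]

/-! ### The domain of the generator -/

theorem domain (ha : 1 < a) (hc : Adm c) {f g : LpE d 1}
    (hfg : Tendsto (fun t : ℝ => t⁻¹ • (US a c 1 t f - f)) (𝓝[>] 0) (𝓝 g)) :
    Integrable (fun x => (a - 1) * c x * f x) volume := by
  have hi : Integrable f (volume : Measure (EuclideanSpace ℝ (Fin d))) :=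
    memLp_one_iff_integrable.1 (Lp.memLp f)
  have h1 := fatou (a - 1) hc hi.abs (Kt := fun t => ENNReal.ofReal ‖t⁻¹ • (US a c 1 t f - f)‖)
    (K := ENNReal.ofReal ‖g‖) (ENNReal.tendsto_ofReal hfg.norm) (fun t ht => by
      rw [lint_eq (a - 1) (by linarith) hc hi.abs (fun x => abs_nonneg _) ht]
      refine ENNReal.ofReal_le_ofReal ?_
      rw [norm_smul, norm_inv, Real.norm_of_nonneg ht.le]
      refine mul_le_mul_of_nonneg_left ?_ (by positivity)
      have h2 := norm_Th_le (good_pk ha hc ht.le)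
        (fun k x => pk_nonneg a k (mul_nonneg ht.le (hc.pos x).le)) (hasSum_US a c t) f
      have h3 : ‖f‖ = ∫ x, |f x| := by
        rw [L1.norm_eq_integral_norm]
        rfl
      rw [← h3]
      have h4 : ‖f‖ - ‖US a c 1 t f‖ ≤ ‖US a c 1 t f - f‖ := by
        rw [norm_sub_rev]
        exact norm_sub_norm_le _ _
      unfold US at h4 ⊢
      linarith)
  refine ⟨(((hc.meas.const_mul (a - 1)).aestronglyMeasurable).mul hi.aestronglyMeasurable), ?_⟩
  refine lt_of_le_of_lt (le_of_eq ?_) (lt_of_le_of_lt h1 ENNReal.ofReal_lt_top)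
  refine lintegral_congr fun x => ?_
  rw [Real.enorm_eq_ofReal_abs, abs_mul, abs_of_nonneg]
  exact mul_nonneg (by linarith) (hc.pos x).le

/-! ### Dissipativity -/

theorem dissip {U : ℝ → LpE d 1 →L[ℝ] LpE d 1} (hU : ∀ t, 0 ≤ t → ∀ f, ‖U t f‖ ≤ ‖f‖) {lam : ℝ}
    (hl : 0 < lam) {f : LpE d 1}
    (hf : Tendsto (fun t : ℝ => t⁻¹ • (U t f - f)) (𝓝[>] 0) (𝓝 (lam • f))) : f = 0 := by
  have h1 : Tendsto (fun t : ℝ => ‖t⁻¹ • (U t f - f) - lam • f‖) (𝓝[>] 0) (𝓝 0) := by
    have := (hf.sub_const (lam • f)).norm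
    simpa using this
  have h2 : lam * ‖f‖ ≤ 0 := by
    refine ge_of_tendsto h1 ?_
    filter_upwards [self_mem_nhdsWithin] with t ht
    have ht : 0 < t := ht
    have e1 : (1 + t * lam) • f = U t f - t • (t⁻¹ • (U t f - f) - lam • f) := by
      rw [smul_sub, smul_smul, smul_smul, mul_inv_cancel₀ ht.ne', one_smul, add_smul, one_smul]
      abel
    have e2 : ‖(1 + t * lam) • f‖ = (1 + t * lam) * ‖f‖ := by
      rw [norm_smul, Real.norm_of_nonneg (by positivity)]
    have e3 : ‖(1 + t * lam) • f‖ ≤ ‖f‖ + t * ‖t⁻¹ • (U t f - f) - lam • f‖ := by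
      rw [e1]
      refine le_trans (norm_sub_le _ _) (add_le_add (hU t ht.le f) ?_)
      rw [norm_smul, Real.norm_of_nonneg ht.le]
    rw [e2] at e3
    have e4 : t * (lam * ‖f‖) ≤ t * ‖t⁻¹ • (U t f - f) - lam • f‖ := by linarith
    exact le_of_mul_le_mul_left e4 ht
  have h3 : ‖f‖ ≤ 0 := by
    by_contra hcon
    push Not at hcon
    have := mul_pos hl hcon
    linarith
  exact norm_le_zero_iff.1 h3

/-! ### The resolvent -/

/-- `q = c / (λ + a c)`. -/
noncomputable def qF (a lam : ℝ) (c : EuclideanSpace ℝ (Fin d) → ℝ)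
    (x : EuclideanSpace ℝ (Fin d)) : ℝ := c x / (lam + a * c x)

theorem qF_nonneg (ha : 1 < a) (hc : Adm c) {lam : ℝ} (hl : 0 < lam)
    (x : EuclideanSpace ℝ (Fin d)) : 0 ≤ qF a lam c x := by
  have := hc.pos x
  unfold qF
  positivity

theorem qF_le (ha : 1 < a) (hc : Adm c) {lam : ℝ} (hl : 0 < lam)
    (x : EuclideanSpace ℝ (Fin d)) : qF a lam c x ≤ a⁻¹ := by
  have := hc.pos x
  unfold qF
  rw [div_le_iff₀ (by positivity)]
  have h1 : a⁻¹ * (lam + a * c x) = a⁻¹ * lam + c x := by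
    field_simp
  rw [h1]
  have : 0 < a⁻¹ * lam := by positivity
  linarith

/-- Coefficients of `B₀ = c (λ + a c - c Π)⁻¹`. -/
noncomputable def hB (a lam : ℝ) (c : EuclideanSpace ℝ (Fin d) → ℝ) (k : ℕ)
    (x : EuclideanSpace ℝ (Fin d)) : ℝ := qF a lam c x ^ (k + 1)

theorem good_hB (ha : 1 < a) (hc : Adm c) {lam : ℝ} (hl : 0 < lam) :
    Good (hB a lam c) a⁻¹ a⁻¹ := by
  refine ⟨fun k => ?_, fun k x => ?_, by positivity, inv_lt_one_of_one_lt₀ ha, fun k x => ?_⟩
  · have := hc.meas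
    unfold hB qF
    fun_prop
  · unfold hB qF
    rw [hc.inv]
  · unfold hB
    rw [abs_of_nonneg (pow_nonneg (qF_nonneg ha hc hl x) _), pow_succ, mul_comm]
    exact mul_le_mul (qF_le ha hc hl x) (pow_le_pow_left₀ (qF_nonneg ha hc hl x)
      (qF_le ha hc hl x) k) (pow_nonneg (qF_nonneg ha hc hl x) _) (by positivity)

theorem hasSum_hB (ha : 1 < a) (hc : Adm c) {lam : ℝ} (hl : 0 < lam)
    (x : EuclideanSpace ℝ (Fin d)) :
    HasSum (fun k => hB a lam c k x) (c x / (lam + (a - 1) * c x)) := by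
  have h0 := qF_nonneg ha hc hl x
  have h1 : qF a lam c x < 1 := lt_of_le_of_lt (qF_le ha hc hl x) (inv_lt_one_of_one_lt₀ ha)
  have h2 := (hasSum_geometric_of_lt_one h0 h1).mul_left (qF a lam c x)
  have h3 : c x / (lam + (a - 1) * c x) = qF a lam c x * (1 - qF a lam c x)⁻¹ := by
    have hcx := hc.pos x
    have h4 : 0 < lam + a * c x := by positivity
    have h6 : 0 < a - 1 := by linarith
    have h5 : 0 < lam + (a - 1) * c x := by positivity
    have h7 : 1 - qF a lam c x = (lam + (a - 1) * c x) / (lam + a * c x) := by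
      unfold qF
      field_simp
      ring
    rw [h7]
    unfold qF
    field_simp
  rw [h3]
  refine h2.congr_fun fun k => ?_
  unfold hB
  rw [pow_succ']

/-- `B₀`. -/
noncomputable def B0 (a lam : ℝ) (c : EuclideanSpace ℝ (Fin d) → ℝ) : LpE d 1 →L[ℝ] LpE d 1 :=
  Th 1 (hB a lam c)

/-- The resolvent `R = (λ - T)⁻¹`. -/
noncomputable def RR (a lam : ℝ) (c : EuclideanSpace ℝ (Fin d) → ℝ) : LpE d 1 →L[ℝ] LpE d 1 :=
  mulL 1 (fun x => (c x)⁻¹) * B0 a lam c

theorem RR_identity (ha : 1 < a) (hc : Adm c) {lam : ℝ} (hl : 0 < lam) :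
    lam • RR a lam c + a • B0 a lam c = 1 + piL d 1 * B0 a lam c := by
  have hi : ∀ x, (c ((2 : ℝ) • x))⁻¹ = (c x)⁻¹ := fun x => by rw [hc.inv]
  have r0 : (0 : ℝ) ≤ a⁻¹ := by positivity
  have r1 : a⁻¹ < 1 := inv_lt_one_of_one_lt₀ ha
  have ib : ∀ x, |(c x)⁻¹| ≤ 1 := fun x => by
    rw [abs_of_pos (inv_pos.2 (hc.pos x))]
    exact inv_le_one_of_one_le₀ (hc.one_le x)
  have GB := good_hB ha hc hl
  have GR : Good (fun k x => (c x)⁻¹ * hB a lam c k x) (1 * a⁻¹) a⁻¹ :=
    good_mul (g := fun x => (c x)⁻¹) hc.meas.inv hi ib GB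
  unfold RR B0
  rw [mulL_Th 1 GB (bm_inv hc), ← Th_const_mul 1 GR, ← Th_const_mul 1 GB, ← Th_shift 1 GB]
  have G1 := good_mul (measurable_const (a := lam)) (fun _ => rfl) (fun _ => le_rfl) GR
  have G2 := good_mul (measurable_const (a := a)) (fun _ => rfl) (fun _ => le_rfl) GB
  have Gs : Good (shift (hB a lam c)) 1 a⁻¹ := by
    refine ⟨fun k => ?_, fun k x => ?_, r0, r1, fun k x => ?_⟩
    · cases k with
      | zero => exact measurable_const
      | succ k => exact GB.meas k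
    · cases k with
      | zero => rfl
      | succ k => exact GB.inv k x
    · cases k with
      | zero => simp [shift]
      | succ k =>
        refine le_trans (GB.bd k x) (le_of_eq ?_)
        rw [one_mul, pow_succ']
  have Ge := good_e0 (d := d) r0 r1
  rw [← Th_add 1 G1 G2, ← Th_e0 (d := d) 1, ← Th_add 1 Ge Gs]
  congr 1
  funext k x
  have hcx := hc.pos x
  have h4 : 0 < lam + a * c x := by positivity
  have e1 : lam * ((c x)⁻¹ * hB a lam c k x) + a * hB a lam c k x = qF a lam c x ^ k := by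
    unfold hB
    rw [pow_succ]
    have e2 : lam * ((c x)⁻¹ * (qF a lam c x ^ k * qF a lam c x)) +
        a * (qF a lam c x ^ k * qF a lam c x) =
        qF a lam c x ^ k * ((lam * (c x)⁻¹ + a) * qF a lam c x) := by ring
    have e3 : (lam * (c x)⁻¹ + a) * qF a lam c x = 1 := by
      unfold qF
      field_simp
    rw [e2, e3, mul_one]
  rw [e1]
  cases k with
  | zero => simp [e0, shift]
  | succ k => simp [e0, shift, hB]

theorem gen_RR (ha : 1 < a) (hc : Adm c) {lam : ℝ} (hl : 0 < lam) (g : LpE d 1) :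
    Tendsto (fun t : ℝ => t⁻¹ • (US a c 1 t (RR a lam c g) - RR a lam c g)) (𝓝[>] 0)
      (𝓝 (lam • RR a lam c g - g)) := by
  have h1 := gen_of_J ha hc (B0 a lam c g)
  have h2 := congrArg (fun T : LpE d 1 →L[ℝ] LpE d 1 => T g) (RR_identity ha hc hl)
  simp only [add_apply, smul_apply, mul_apply_eq_comp, one_apply_eq_self] at h2
  have h3 : piL d 1 (B0 a lam c g) - a • B0 a lam c g = lam • RR a lam c g - g := by
    rw [sub_eq_sub_iff_add_eq_add, add_comm, ← h2]
  rw [h3] at h1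
  exact h1

theorem B0_eq (hc : Adm c) (lam : ℝ) (g : LpE d 1) :
    B0 a lam c g =ᵐ[volume] fun x => c x * RR a lam c g x := by
  unfold RR
  rw [mul_apply_eq_comp]
  filter_upwards [mulL_coe 1 (bm_inv hc) (B0 a lam c g)] with x hx
  rw [hx, ← mul_assoc, mul_inv_cancel₀ (hc.pos x).ne', one_mul]

theorem RR_inverse (ha : 1 < a) (hc : Adm c) {lam : ℝ} (hl : 0 < lam) {f h : LpE d 1}
    (hfh : Tendsto (fun t : ℝ => t⁻¹ • (US a c 1 t f - f)) (𝓝[>] 0) (𝓝 h)) :
    RR a lam c (lam • f - h) = f := by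
  have h1 := gen_RR ha hc hl (lam • f - h)
  have h2 := h1.sub hfh
  rw [← sub_eq_zero]
  refine dissip (U := US a c 1) (fun t ht f => US_norm_one ha hc ht f) hl ?_
  have e : lam • RR a lam c (lam • f - h) - (lam • f - h) - h =
      lam • (RR a lam c (lam • f - h) - f) := by
    rw [smul_sub]
    abel
  rw [e] at h2
  refine h2.congr fun t => ?_
  rw [map_sub (US a c 1 t), ← smul_sub]
  congr 1
  abel

/-! ### The spectral radius -/

/-- `m = (a-1) c / (λ + (a-1) c)`. -/
noncomputable def mF (a lam : ℝ) (c : EuclideanSpace ℝ (Fin d) → ℝ)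
    (x : EuclideanSpace ℝ (Fin d)) : ℝ := (a - 1) * (c x / (lam + (a - 1) * c x))

/-- `B = (a-1) B₀ = V (λ - T)⁻¹` with `V = (a-1) c`. -/
noncomputable def BB (a lam : ℝ) (c : EuclideanSpace ℝ (Fin d) → ℝ) : LpE d 1 →L[ℝ] LpE d 1 :=
  (a - 1) • B0 a lam c

theorem BB_eq (hc : Adm c) (lam : ℝ) (g : LpE d 1) :
    BB a lam c g =ᵐ[volume] fun x => ((a - 1) * c x) * RR a lam c g x := by
  unfold BB
  rw [smul_apply]
  filter_upwards [B0_eq (a := a) hc lam g, Lp.coeFn_smul (a - 1) (B0 a lam c g)] with x h1 h2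
  rw [h2, Pi.smul_apply, h1, smul_eq_mul, mul_assoc]

theorem BB_Th (ha : 1 < a) (hc : Adm c) {lam : ℝ} (hl : 0 < lam) :
    Good (fun k x => (a - 1) * hB a lam c k x) (|a - 1| * a⁻¹) a⁻¹ ∧
    (∀ k x, 0 ≤ (a - 1) * hB a lam c k x) ∧
    (∀ x, HasSum (fun k => (a - 1) * hB a lam c k x) (mF a lam c x)) ∧
    BB a lam c = Th 1 (fun k x => (a - 1) * hB a lam c k x) ∧
    (∀ x, 0 ≤ mF a lam c x) ∧ (∀ x, mF a lam c x ≤ 1) := by
  have GB := good_hB ha hc hl
  have ha1 : 0 < a - 1 := by linarith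
  refine ⟨good_mul (measurable_const (a := a - 1)) (fun _ => rfl) (fun _ => le_rfl) GB,
    fun k x => mul_nonneg ha1.le (pow_nonneg (qF_nonneg ha hc hl x) _),
    fun x => (hasSum_hB ha hc hl x).mul_left (a - 1), ?_, fun x => ?_, fun x => ?_⟩
  · unfold BB B0
    rw [← Th_const_mul 1 GB]
  · have := hc.pos x
    unfold mF
    positivity
  · have := hc.pos x
    unfold mF
    rw [← mul_div_assoc, div_le_one (by positivity)]
    linarith

theorem bm_mF (ha : 1 < a) (hc : Adm c) {lam : ℝ} (hl : 0 < lam) : BM (mF a lam c) :=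
  (hasSum_mulL 1 (BB_Th ha hc hl).1 (BB_Th ha hc hl).2.2.1).1

theorem mF_inv (hc : Adm c) (lam : ℝ) (x : EuclideanSpace ℝ (Fin d)) :
    mF a lam c ((2 : ℝ) • x) = mF a lam c x := by
  unfold mF
  rw [hc.inv]

theorem norm_BB_pow_le (ha : 1 < a) (hc : Adm c) {lam : ℝ} (hl : 0 < lam) (n : ℕ) :
    ‖BB a lam c ^ n‖ ≤ 1 := by
  obtain ⟨h1, h2, h3, h4, -, h5⟩ := BB_Th ha hc hl
  have hB1 : ‖BB a lam c‖ ≤ 1 := by
    refine ContinuousLinearMap.opNorm_le_bound _ zero_le_one fun g => ?_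
    rw [h4, one_mul]
    exact norm_Th_le_one h1 h2 h3 h5 g
  induction n with
  | zero => rw [pow_zero]; exact ContinuousLinearMap.norm_id_le
  | succ n ih =>
    rw [pow_succ]
    exact le_trans (norm_mul_le _ _) (mul_le_one₀ ih (norm_nonneg _) hB1)

theorem BB_pow_nonneg (ha : 1 < a) (hc : Adm c) {lam : ℝ} (hl : 0 < lam) (n : ℕ) {g : LpE d 1}
    (hg : 0 ≤ g) : 0 ≤ (BB a lam c ^ n) g := by
  obtain ⟨h1, h2, h3, h4, -, h5⟩ := BB_Th ha hc hl
  induction n with
  | zero => simpa using hg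
  | succ n ih =>
    rw [pow_succ', mul_apply_eq_comp, h4]
    rw [h4] at ih
    exact Th_nonneg 1 h1 h2 ih

theorem mF_commute (ha : 1 < a) (hc : Adm c) {lam : ℝ} (hl : 0 < lam) :
    Commute (mulL 1 (mF a lam c)) (BB a lam c) := by
  obtain ⟨h1, h2, h3, h4, -, h5⟩ := BB_Th ha hc hl
  rw [h4]
  exact commute_Th 1 h1 (bm_mF ha hc hl) (mF_inv hc lam)

theorem integral_BB_pow (ha : 1 < a) (hc : Adm c) {lam : ℝ} (hl : 0 < lam) (n : ℕ) (g : LpE d 1) :
    ∫ x, (BB a lam c ^ n) g x = ∫ x, (mulL 1 (mF a lam c) ^ n) g x := by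
  obtain ⟨h1, h2, h3, h4, -, h5⟩ := BB_Th ha hc hl
  induction n generalizing g with
  | zero => simp
  | succ n ih =>
    have e1 : (BB a lam c ^ (n + 1)) g = BB a lam c ((BB a lam c ^ n) g) := by
      rw [pow_succ', mul_apply_eq_comp]
    rw [e1]
    have e2 : ∫ x, BB a lam c ((BB a lam c ^ n) g) x =
        ∫ x, mulL 1 (mF a lam c) ((BB a lam c ^ n) g) x := by
      conv_lhs => rw [h4]
      have := integral_Th h1 h3 ((BB a lam c ^ n) g)
      rw [← this]
      rw [h4]
    rw [e2, ← mul_apply_eq_comp, ((mF_commute ha hc hl).pow_right n).eq, mul_apply_eq_comp, ih,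
      ← mul_apply_eq_comp, ← pow_succ]

theorem mulL_pow_coe {m : EuclideanSpace ℝ (Fin d) → ℝ} (M : BM m) (n : ℕ) (g : LpE d 1) :
    (mulL 1 m ^ n) g =ᵐ[volume] fun x => m x ^ n * g x := by
  induction n with
  | zero => simp
  | succ n ih =>
    rw [pow_succ', mul_apply_eq_comp]
    filter_upwards [mulL_coe 1 M ((mulL 1 m ^ n) g), ih] with x h1 h2
    rw [h1, h2, pow_succ']
    ring

/-- Unboundedness of `c` on a bounded set. -/
def Unb (c : EuclideanSpace ℝ (Fin d) → ℝ) : Prop :=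
  ∀ K : ℝ, volume ({x | K ≤ c x} ∩ Metric.closedBall 0 2) ≠ 0

theorem le_norm_BB_pow (ha : 1 < a) (hc : Adm c) (hu : Unb c) {lam : ℝ} (hl : 0 < lam) (n : ℕ)
    {K : ℝ} (hK : 0 < K) : ((a - 1) * (K / (lam + (a - 1) * K))) ^ n ≤ ‖BB a lam c ^ n‖ := by
  have ha1 : 0 < a - 1 := by linarith
  set mK : ℝ := (a - 1) * (K / (lam + (a - 1) * K)) with hmK
  have hmK0 : 0 ≤ mK := by positivity
  set A : Set (EuclideanSpace ℝ (Fin d)) := {x | K ≤ c x} ∩ Metric.closedBall 0 2 with hA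
  have hAm : MeasurableSet A :=
    (measurableSet_le measurable_const hc.meas).inter measurableSet_closedBall
  have hAfin : volume A ≠ ∞ := by
    refine ne_top_of_le_ne_top (b := volume (Metric.closedBall (0 : EuclideanSpace ℝ (Fin d)) 2))
      measure_closedBall_lt_top.ne (measure_mono inter_subset_right)
  set g : LpE d 1 := indicatorConstLp 1 hAm hAfin (1 : ℝ) with hg
  have gco : g =ᵐ[volume] A.indicator fun _ => (1 : ℝ) := indicatorConstLp_coeFn
  have g0 : 0 ≤ g := by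
    rw [← Lp.coeFn_nonneg]
    filter_upwards [gco] with x hx
    rw [hx]
    exact indicator_nonneg (fun _ _ => zero_le_one) x
  have gi : Integrable g (volume : Measure (EuclideanSpace ℝ (Fin d))) :=
    memLp_one_iff_integrable.1 (Lp.memLp g)
  have ng : ‖g‖ = ∫ x, g x := by
    rw [L1.norm_eq_integral_norm]
    refine integral_congr_ae ?_
    filter_upwards [(Lp.coeFn_nonneg _).2 g0] with x hx
    exact Real.norm_of_nonneg hx
  have npos : 0 < ‖g‖ := by
    rw [norm_pos_iff]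
    intro h0
    have h1 : g =ᵐ[volume] (0 : EuclideanSpace ℝ (Fin d) → ℝ) := by
      rw [h0]
      exact Lp.coeFn_zero _ _ _
    have h2 : ∀ᵐ x, x ∉ A := by
      filter_upwards [gco, h1] with x hx1 hx2 hxA
      rw [hx1, indicator_of_mem hxA] at hx2
      exact one_ne_zero hx2
    have h3 : volume A = 0 := by
      rw [ae_iff] at h2
      simpa using h2
    exact hu K h3
  have hpow : ‖(BB a lam c ^ n) g‖ = ∫ x, (BB a lam c ^ n) g x := by
    rw [L1.norm_eq_integral_norm]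
    refine integral_congr_ae ?_
    filter_upwards [(Lp.coeFn_nonneg _).2 (BB_pow_nonneg ha hc hl n g0)] with x hx
    exact Real.norm_of_nonneg hx
  have hge : mK ^ n * ‖g‖ ≤ ‖(BB a lam c ^ n) g‖ := by
    rw [hpow, integral_BB_pow ha hc hl, ng, ← integral_const_mul]
    have hi2 : Integrable (⇑((mulL 1 (mF a lam c) ^ n) g))
      (volume : Measure (EuclideanSpace ℝ (Fin d))) :=
      memLp_one_iff_integrable.1 (Lp.memLp _)
    refine integral_mono_ae (gi.const_mul _) hi2 ?_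
    filter_upwards [mulL_pow_coe (bm_mF ha hc hl) n g, gco] with x h1 h2
    rw [h1, h2]
    by_cases hx : x ∈ A
    · rw [indicator_of_mem hx, mul_one, mul_one]
      refine pow_le_pow_left₀ hmK0 ?_ n
      have hKx : K ≤ c x := hx.1
      have hcx := hc.pos x
      unfold mF
      rw [hmK]
      refine mul_le_mul_of_nonneg_left ?_ ha1.le
      rw [div_le_div_iff₀ (by positivity) (by positivity)]
      nlinarith
    · rw [indicator_of_notMem hx]
      simp
  have hle := ContinuousLinearMap.le_opNorm (BB a lam c ^ n) g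
  have := le_trans hge hle
  exact le_of_mul_le_mul_right this npos

theorem norm_BB_pow (ha : 1 < a) (hc : Adm c) (hu : Unb c) {lam : ℝ} (hl : 0 < lam) (n : ℕ) :
    ‖BB a lam c ^ n‖ = 1 := by
  have ha1 : 0 < a - 1 := by linarith
  refine le_antisymm (norm_BB_pow_le ha hc hl n) ?_
  have h1 : Tendsto (fun K : ℝ => ((a - 1) * (K / (lam + (a - 1) * K))) ^ n) atTop (𝓝 (1 ^ n)) := by
    refine Tendsto.pow ?_ n
    have h2 : Tendsto (fun K : ℝ => ((a - 1)⁻¹ * lam) * K⁻¹ + 1) atTop (𝓝 1) := by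
      have := (tendsto_inv_atTop_zero (𝕜 := ℝ)).const_mul ((a - 1)⁻¹ * lam) |>.add_const 1
      simpa using this
    have h3 := h2.inv₀ one_ne_zero
    rw [inv_one] at h3
    refine h3.congr' ?_
    filter_upwards [eventually_gt_atTop 0] with K hK
    have : 0 < lam + (a - 1) * K := by positivity
    have e : (a - 1)⁻¹ * lam * K⁻¹ + 1 = (lam + (a - 1) * K) / ((a - 1) * K) := by
      field_simp
    rw [e, inv_div]
    ring
  rw [one_pow] at h1
  refine le_of_tendsto h1 ?_
  filter_upwards [eventually_gt_atTop 0] with K hK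
  exact le_norm_BB_pow ha hc hu hl n hK

/-! ### The form -/

theorem kap_two_lt (hd : 1 ≤ d) : kap d 2 < 1 := by
  unfold kap
  have h1 : ((1 : ℝ≥0∞) / 2).toReal = 1 / 2 := by
    simp
  rw [h1, div_lt_one (by positivity)]
  set y : ℝ := ((2 : ℝ) ^ d) ^ ((1 : ℝ) / 2) with hy
  have h2 : y * y = 2 ^ d := by
    rw [hy, ← Real.rpow_add (by positivity)]
    norm_num
  have h3 : (((2 : ℝ) ^ d)⁻¹) ^ ((1 : ℝ) / 2) = y⁻¹ := Real.inv_rpow (by positivity) _
  have hy0 : 0 < y := by positivity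
  have hy1 : y ≠ 1 := by
    intro h
    rw [h] at h2
    have : (1 : ℝ) < 2 ^ d := one_lt_pow₀ (by norm_num) (by omega)
    linarith
  rw [h3, ← h2]
  have h4 : y * y * y⁻¹ = y := by field_simp
  rw [h4]
  have h5 : 0 < (y - 1) ^ 2 := by
    have : y - 1 ≠ 0 := sub_ne_zero.2 hy1
    positivity
  nlinarith

theorem form_bound (hd : 1 ≤ d) (ha : 1 < a) (hc : Adm c) (f : LpE d 2) {Q : ℝ≥0∞}
    (hQ : ∀ t : ℝ, 0 < t → ENNReal.ofReal (t⁻¹ * inner ℝ (f - US a c 2 t f) f) ≤ Q) :
    ∫⁻ x, ENNReal.ofReal ((a - kap d 2) * c x * (f x) ^ 2) ≤ Q := by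
  have hk := kap_two_lt hd
  have hs : 0 ≤ a - kap d 2 := by linarith
  have hi : Integrable (fun x => (f x) ^ 2) (volume : Measure (EuclideanSpace ℝ (Fin d))) :=
    (Lp.memLp f).integrable_sq
  refine fatou (a - kap d 2) hc hi (Kt := fun _ => Q) tendsto_const_nhds fun t ht => ?_
  rw [lint_eq _ hs hc hi (fun x => sq_nonneg _) ht]
  refine le_trans (ENNReal.ofReal_le_ofReal ?_) (hQ t ht)
  refine mul_le_mul_of_nonneg_left ?_ (by positivity)
  have hS : ∀ x, HasSum (fun k => kap d 2 ^ k * pk a k (t * c x))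
      (Real.exp (-((a - kap d 2) * (t * c x)))) := fun x => hasSum_pk a (kap d 2) (t * c x)
  have hpk : ∀ k x, 0 ≤ pk a k (t * c x) := fun k x =>
    pk_nonneg a k (mul_nonneg ht.le (hc.pos x).le)
  have h1 := inner_Th_le (good_pk ha hc ht.le) hpk hS f
  have h2 : inner ℝ f f = ∫ x, (f x) ^ 2 := by
    rw [L2.inner_def]
    refine integral_congr_ae (Eventually.of_forall fun x => ?_)
    simp only [RCLike.inner_apply, conj_trivial]
    ring
  have bE : BM fun x => Real.exp (-((a - kap d 2) * (t * c x))) := by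
    refine ⟨by have := hc.meas; fun_prop, 1, fun x => ?_⟩
    rw [abs_of_pos (Real.exp_pos _)]
    refine Real.exp_le_one_iff.2 ?_
    have := mul_nonneg hs (mul_nonneg ht.le (hc.pos x).le)
    linarith
  have h3 : inner ℝ (mulL 2 (fun x => Real.exp (-((a - kap d 2) * (t * c x)))) f) f =
      ∫ x, Real.exp (-((a - kap d 2) * (t * c x))) * (f x) ^ 2 := by
    rw [L2.inner_def]
    refine integral_congr_ae ?_
    filter_upwards [mulL_coe 2 bE f] with x hx
    rw [hx]
    simp only [RCLike.inner_apply, conj_trivial]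
    ring
  rw [inner_sub_left, h2, ← h3]
  unfold US
  linarith

/-! ### An unbounded invariant function -/

/-- The function `c`. -/
noncomputable def cF (d : ℕ) (y : EuclideanSpace ℝ (Fin d)) : ℝ :=
  if Int.fract (Real.logb 2 ‖y‖) = 0 then 1 else (Int.fract (Real.logb 2 ‖y‖))⁻¹

theorem adm_cF (d : ℕ) : Adm (cF d) := by
  refine ⟨?_, fun x => ?_, fun x => ?_⟩
  · unfold cF
    have h1 : Measurable fun y : EuclideanSpace ℝ (Fin d) => Int.fract (Real.logb 2 ‖y‖) := by
      refine measurable_fract.comp ?_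
      unfold Real.logb
      fun_prop
    exact Measurable.ite (h1 (measurableSet_singleton 0)) measurable_const h1.inv
  · unfold cF
    by_cases hx : x = 0
    · rw [hx, smul_zero]
    · have h1 : Real.logb 2 ‖(2 : ℝ) • x‖ = 1 + Real.logb 2 ‖x‖ := by
        rw [norm_smul, Real.norm_of_nonneg (by norm_num), Real.logb_mul (by norm_num)
          (norm_ne_zero_iff.2 hx), Real.logb_self_eq_one (by norm_num)]
      rw [h1, Int.fract_one_add]
  · unfold cF
    split_ifs with h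
    · exact le_rfl
    · have h1 : 0 < Int.fract (Real.logb 2 ‖x‖) :=
        lt_of_le_of_ne (Int.fract_nonneg _) (Ne.symm h)
      exact (one_le_inv₀ h1).2 (Int.fract_lt_one _).le

theorem unb_cF (hd : 1 ≤ d) : Unb (cF d) := by
  intro K hK
  set L : ℝ := max K 1 with hL
  have hL1 : 1 ≤ L := le_max_right _ _
  have hL0 : 0 < L := by linarith
  set O : Set (EuclideanSpace ℝ (Fin d)) := {x | 1 < ‖x‖ ∧ ‖x‖ < 2 ^ (L⁻¹)} with hO
  have hr1 : (1 : ℝ) < 2 ^ (L⁻¹) := Real.one_lt_rpow (by norm_num) (by positivity)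
  have hr2 : (2 : ℝ) ^ (L⁻¹) ≤ 2 := by
    have := Real.rpow_le_rpow_of_exponent_le (x := 2) (by norm_num) (inv_le_one_of_one_le₀ hL1)
    simpa using this
  have hopen : IsOpen O :=
    (isOpen_lt continuous_const continuous_norm).inter (isOpen_lt continuous_norm continuous_const)
  have hne : O.Nonempty := by
    refine ⟨EuclideanSpace.single ⟨0, by omega⟩ ((1 + 2 ^ (L⁻¹)) / 2), ?_⟩
    have hn : ‖EuclideanSpace.single (⟨0, by omega⟩ : Fin d) ((1 + (2 : ℝ) ^ (L⁻¹)) / 2)‖ =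
        (1 + 2 ^ (L⁻¹)) / 2 := by
      rw [PiLp.norm_single, Real.norm_of_nonneg (by positivity)]
    show 1 < ‖_‖ ∧ ‖_‖ < _
    rw [hn]
    constructor <;> linarith
  have hpos := hopen.measure_pos (volume : Measure (EuclideanSpace ℝ (Fin d))) hne
  have hsub : O ⊆ {x | K ≤ cF d x} ∩ Metric.closedBall 0 2 := by
    intro x hx
    obtain ⟨h1, h2⟩ := hx
    have hx0 : 0 < ‖x‖ := by linarith
    constructor
    · show K ≤ cF d x
      have l1 : 0 < Real.logb 2 ‖x‖ := Real.logb_pos (by norm_num) h1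
      have l2 : Real.logb 2 ‖x‖ < L⁻¹ := by
        rw [Real.logb_lt_iff_lt_rpow (by norm_num) hx0]
        exact h2
      have l3 : L⁻¹ ≤ 1 := inv_le_one_of_one_le₀ hL1
      have l4 : Int.fract (Real.logb 2 ‖x‖) = Real.logb 2 ‖x‖ :=
        Int.fract_eq_self.2 ⟨l1.le, by linarith⟩
      unfold cF
      rw [l4, if_neg l1.ne']
      have l5 : L ≤ (Real.logb 2 ‖x‖)⁻¹ := by
        rw [le_inv_comm₀ hL0 l1]
        exact l2.le
      exact le_trans (le_max_left _ _) l5
    · rw [mem_closedBall_zero_iff]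
      linarith
  exact hpos.ne' (measure_mono_null hsub hK)

end Pool.Agent.Q91.DilRes
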