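import Pool.Agent.Q91.DilTheta

/-!
The semigroup `U(t) = exp(t c (Π - a))` on all `L^p(ℝ^d)`, for a dilation-invariant `c ≥ 1` and
`a > 1`: semigroup law, strong continuity, generator and resolvent on `L^1`, form on `L^2`.
-/

open MeasureTheory Filter Topology Set
open scoped ENNReal NNReal Nat

namespace Pool.Agent.Q91.DilSemi

open Pool.Agent.Q91.DilOps Pool.Agent.Q91.DilTheta

variable {d : ℕ}

/-! ### Dominated convergence -/

theorem tendsto_mulL (p : ℝ≥0∞) [hp1 : Fact (1 ≤ p)] (hp : p ≠ ∞) {ι : Type*} {l : Filter ι}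
    [l.IsCountablyGenerated] {h : ι → EuclideanSpace ℝ (Fin d) → ℝ}
    {h0 : EuclideanSpace ℝ (Fin d) → ℝ} (C : ℝ)
    (hm : ∀ᶠ i in l, Measurable (h i) ∧ ∀ x, |h i x| ≤ C) (hm0 : Measurable h0)
    (hb0 : ∀ x, |h0 x| ≤ C) (hlim : ∀ x, Tendsto (fun i => h i x) l (𝓝 (h0 x)))
    (G : LpE d p) : Tendsto (fun i => mulL p (h i) G) l (𝓝 (mulL p h0 G)) := by
  rw [Lp.tendsto_Lp_iff_tendsto_eLpNorm']
  have hp0 : p ≠ 0 := (zero_lt_one.trans_le hp1.out).ne'
  have hpr : 0 < p.toReal := ENNReal.toReal_pos hp0 hp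
  have hC0 : 0 ≤ C := le_trans (abs_nonneg _) (hb0 0)
  have key : Tendsto (fun i => ∫⁻ x, ‖(h i x - h0 x) * G x‖ₑ ^ p.toReal) l (𝓝 0) := by
    have := tendsto_lintegral_filter_of_dominated_convergence'
      (μ := (volume : Measure (EuclideanSpace ℝ (Fin d)))) (l := l)
      (F := fun i x => ‖(h i x - h0 x) * G x‖ₑ ^ p.toReal) (f := fun _ => 0)
      (fun x => (ENNReal.ofReal (2 * C) * ‖G x‖ₑ) ^ p.toReal) ?_ ?_ ?_ ?_
    · simpa using this
    · filter_upwards [hm] with i hi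
      exact ((((hi.1.sub hm0).aemeasurable.mul
        (Lp.aestronglyMeasurable G).aemeasurable)).enorm).pow_const _
    · filter_upwards [hm] with i hi
      refine Eventually.of_forall fun x => ?_
      refine ENNReal.rpow_le_rpow ?_ hpr.le
      rw [enorm_mul]
      refine mul_le_mul_left ?_ _
      rw [Real.enorm_eq_ofReal_abs]
      refine ENNReal.ofReal_le_ofReal ?_
      have h1 := hi.2 x
      have h2 := hb0 x
      have h3 := abs_sub (h i x) (h0 x)
      linarith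
    · have h1 : (fun x => (ENNReal.ofReal (2 * C) * ‖G x‖ₑ) ^ p.toReal) =
          fun x => ENNReal.ofReal (2 * C) ^ p.toReal * ‖G x‖ₑ ^ p.toReal := by
        funext x
        exact ENNReal.mul_rpow_of_nonneg _ _ hpr.le
      rw [h1, lintegral_const_mul' _ _ (ENNReal.rpow_ne_top_of_nonneg hpr.le
        ENNReal.ofReal_ne_top)]
      exact ENNReal.mul_ne_top (ENNReal.rpow_ne_top_of_nonneg hpr.le ENNReal.ofReal_ne_top)
        (lintegral_rpow_enorm_lt_top_of_eLpNorm_lt_top hp0 hp (Lp.eLpNorm_lt_top G)).ne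
    · refine Eventually.of_forall fun x => ?_
      have h1 : Tendsto (fun i => (h i x - h0 x) * G x) l (𝓝 0) := by
        have := ((hlim x).sub_const (h0 x)).mul_const (G x)
        simpa using this
      have h2 : Tendsto (fun i => ‖(h i x - h0 x) * G x‖ₑ) l (𝓝 0) := by
        have := (continuous_enorm.tendsto (0 : ℝ)).comp h1
        rw [enorm_zero] at this
        exact this
      have h3 := (ENNReal.continuous_rpow_const (y := p.toReal)).tendsto 0 |>.comp h2
      rw [ENNReal.zero_rpow_of_pos hpr] at h3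
      exact h3
  have e : ∀ᶠ i in l, (∫⁻ x, ‖(h i x - h0 x) * G x‖ₑ ^ p.toReal) ^ (1 / p.toReal) =
      eLpNorm (⇑(mulL p (h i) G) - ⇑(mulL p h0 G)) p volume := by
    filter_upwards [hm] with i hi
    rw [eLpNorm_eq_lintegral_rpow_enorm_toReal hp0 hp]
    congr 1
    refine lintegral_congr_ae ?_
    filter_upwards [mulL_coe p ⟨hi.1, C, hi.2⟩ G, mulL_coe p ⟨hm0, C, hb0⟩ G] with x h1 h2
    rw [Pi.sub_apply, h1, h2, sub_mul]
  refine Tendsto.congr' e ?_
  have h4 := (ENNReal.continuous_rpow_const (y := 1 / p.toReal)).tendsto 0 |>.comp key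
  have h5 : (0 : ℝ≥0∞) ^ (1 / p.toReal) = 0 := ENNReal.zero_rpow_of_pos (by positivity)
  rw [h5] at h4
  exact h4

theorem tendsto_Th (p : ℝ≥0∞) [Fact (1 ≤ p)] (hp : p ≠ ∞) {ι : Type*} {l : Filter ι}
    [l.IsCountablyGenerated] {h : ι → ℕ → EuclideanSpace ℝ (Fin d) → ℝ}
    {h0 : ℕ → EuclideanSpace ℝ (Fin d) → ℝ} {C r : ℝ}
    (H : ∀ᶠ i in l, Good (h i) C r) (H0 : Good h0 C r)
    (hlim : ∀ k x, Tendsto (fun i => h i k x) l (𝓝 (h0 k x))) (F : LpE d p) :
    Tendsto (fun i => Th p (h i) F) l (𝓝 (Th p h0 F)) := by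
  have h1 : ∀ᶠ i in l, (∑' k, term p (h i) k F) = Th p (h i) F := by
    filter_upwards [H] with i hi
    exact (hasSum_term_apply p hi F).tsum_eq
  refine Tendsto.congr' h1 ?_
  rw [← (hasSum_term_apply p H0 F).tsum_eq]
  refine tendsto_tsum_of_dominated_convergence (bound := fun k => C * r ^ k * ‖F‖)
    ((summable_geo H0).mul_right _) (fun k => ?_) ?_
  · unfold term
    simp only [mul_apply_eq_comp]
    refine tendsto_mulL p hp (C * r ^ k) ?_ (H0.meas k) (H0.bd k) (hlim k) _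
    filter_upwards [H] with i hi
    exact ⟨hi.meas k, hi.bd k⟩
  · filter_upwards [H] with i hi
    intro k
    refine le_trans (ContinuousLinearMap.le_opNorm _ _) ?_
    exact mul_le_mul_of_nonneg_right (norm_term_le p hi k) (norm_nonneg _)

/-! ### Scalar functions -/

/-- `e^{-as} s^k / k!`. -/
noncomputable def pk (a : ℝ) (k : ℕ) (s : ℝ) : ℝ := Real.exp (-(a * s)) * (s ^ k / k !)

theorem pk_nonneg (a : ℝ) (k : ℕ) {s : ℝ} (hs : 0 ≤ s) : 0 ≤ pk a k s := by
  unfold pk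
  positivity

theorem pk_le {a : ℝ} (ha : 0 < a) (k : ℕ) {s : ℝ} (hs : 0 ≤ s) : pk a k s ≤ (a⁻¹) ^ k := by
  unfold pk
  have h1 := Real.pow_div_factorial_le_exp (a * s) (mul_nonneg ha.le hs) k
  have h2 : s ^ k / (k ! : ℝ) = (a⁻¹) ^ k * ((a * s) ^ k / k !) := by
    rw [mul_pow, inv_pow]
    field_simp
  rw [h2, Real.exp_neg]
  have h3 := Real.exp_pos (a * s)
  have h4 : (0 : ℝ) ≤ (a⁻¹) ^ k := by positivity
  calc (Real.exp (a * s))⁻¹ * ((a⁻¹) ^ k * ((a * s) ^ k / k !))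
      ≤ (Real.exp (a * s))⁻¹ * ((a⁻¹) ^ k * Real.exp (a * s)) := by gcongr
    _ = (a⁻¹) ^ k := by field_simp

theorem hasSum_pk (a b s : ℝ) : HasSum (fun k => b ^ k * pk a k s) (Real.exp (-((a - b) * s))) := by
  have h1 := (NormedSpace.expSeries_div_hasSum_exp (b * s)).mul_left (Real.exp (-(a * s)))
  rw [← Real.exp_eq_exp_ℝ, ← Real.exp_add] at h1
  have e : -((a - b) * s) = -(a * s) + b * s := by ring
  rw [e]
  convert! h1 using 1
  funext k
  unfold pk
  rw [mul_pow]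
  ring

theorem pk_add (a : ℝ) (n : ℕ) (s t : ℝ) :
    ∑ kl ∈ Finset.HasAntidiagonal.antidiagonal n, pk a kl.1 s * pk a kl.2 t = pk a n (s + t) := by
  unfold pk
  have e : -(a * (s + t)) = -(a * s) + -(a * t) := by ring
  rw [e, Real.exp_add, (Commute.all s t).add_pow' n, Finset.sum_div, Finset.mul_sum]
  refine Finset.sum_congr rfl fun kl hkl => ?_
  have hn := Finset.HasAntidiagonal.mem_antidiagonal.1 hkl
  have h1 := Nat.add_choose_mul_factorial_mul_factorial kl.1 kl.2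
  rw [hn] at h1
  have h2 : (n.choose kl.1 : ℝ) * (kl.1 ! : ℝ) * (kl.2 ! : ℝ) = (n ! : ℝ) := by
    have h3 : n.choose kl.1 = n.choose kl.2 := by
      rw [← hn]
      exact Nat.choose_symm_add
    rw [h3]
    exact_mod_cast h1
  rw [nsmul_eq_mul, ← h2]
  have f1 : (kl.1 ! : ℝ) ≠ 0 := by positivity
  have f2 : (kl.2 ! : ℝ) ≠ 0 := by positivity
  have f3 : (n.choose kl.1 : ℝ) ≠ 0 := by
    intro h0
    rw [h0] at h2
    have : (n ! : ℝ) ≠ 0 := by positivity
    exact this (by rw [← h2]; ring)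
  field_simp

/-- Difference quotients of `pk` in time. -/
noncomputable def bk (a : ℝ) : ℕ → ℝ → ℝ
  | 0 => fun s => if s = 0 then -a else (Real.exp (-(a * s)) - 1) / s
  | k + 1 => fun s => Real.exp (-(a * s)) * (s ^ k / (k + 1)!)

theorem measurable_pk (a : ℝ) (k : ℕ) : Measurable (pk a k) := by
  unfold pk
  fun_prop

theorem measurable_bk (a : ℝ) (k : ℕ) : Measurable (bk a k) := by
  cases k with
  | zero =>
    show Measurable fun s : ℝ => if s = 0 then -a else (Real.exp (-(a * s)) - 1) / s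
    refine Measurable.ite (measurableSet_singleton 0) measurable_const ?_
    fun_prop
  | succ k =>
    show Measurable fun s : ℝ => Real.exp (-(a * s)) * (s ^ k / (k + 1)!)
    fun_prop

theorem abs_bk_le {a : ℝ} (ha : 0 < a) (k : ℕ) {s : ℝ} (hs : 0 ≤ s) :
    |bk a k s| ≤ a * (a⁻¹) ^ k := by
  cases k with
  | zero =>
    show |if s = 0 then -a else (Real.exp (-(a * s)) - 1) / s| ≤ a * (a⁻¹) ^ 0
    rw [pow_zero, mul_one]
    split_ifs with h0
    · rw [abs_neg, abs_of_pos ha]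
    · have hs' : 0 < s := lt_of_le_of_ne hs (Ne.symm h0)
      have h1 : Real.exp (-(a * s)) ≤ 1 := Real.exp_le_one_iff.2 (by nlinarith)
      have h2 := Real.add_one_le_exp (-(a * s))
      rw [abs_of_nonpos (div_nonpos_of_nonpos_of_nonneg (by linarith) hs), neg_div', div_le_iff₀ hs']
      linarith
  | succ k =>
    show |Real.exp (-(a * s)) * (s ^ k / (k + 1)!)| ≤ a * (a⁻¹) ^ (k + 1)
    rw [abs_of_nonneg (by positivity), pow_succ']
    have h1 := pk_le ha k hs
    unfold pk at h1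
    have h2 : a * (a⁻¹ * (a⁻¹) ^ k) = (a⁻¹) ^ k := by field_simp
    rw [h2]
    refine le_trans ?_ h1
    have h3 : (k ! : ℝ) ≤ ((k + 1)! : ℝ) := by exact_mod_cast Nat.factorial_le (Nat.le_succ k)
    have h4 : (0 : ℝ) < (k ! : ℝ) := by positivity
    gcongr

theorem bk_zero_right (a : ℝ) (k : ℕ) :
    bk a k 0 = if k = 0 then -a else if k = 1 then 1 else 0 := by
  match k with
  | 0 => simp [bk]
  | 1 => simp [bk]
  | k + 2 => simp [bk]

theorem tendsto_exp_quot (u : ℝ) :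
    Tendsto (fun t : ℝ => t⁻¹ * (Real.exp (-(u * t)) - 1)) (𝓝[>] 0) (𝓝 (-u)) := by
  have h1 : HasDerivAt (fun t : ℝ => Real.exp (-(u * t))) (-u) 0 := by
    have := ((hasDerivAt_id (0 : ℝ)).const_mul u).neg.exp
    simpa using this
  have h2 := h1.tendsto_slope_zero_right
  simpa using h2

theorem tendsto_bk (a c : ℝ) (hc : 0 < c) (k : ℕ) :
    Tendsto (fun t : ℝ => bk a k (t * c)) (𝓝[>] 0) (𝓝 (bk a k 0)) := by
  cases k with
  | zero =>
    rw [bk_zero_right, if_pos rfl]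
    have h1 := (tendsto_exp_quot (a * c)).mul_const (c⁻¹)
    have h2 : -(a * c) * c⁻¹ = -a := by field_simp
    rw [h2] at h1
    refine h1.congr' ?_
    filter_upwards [self_mem_nhdsWithin] with t ht
    have ht : 0 < t := ht
    show _ = if t * c = 0 then -a else (Real.exp (-(a * (t * c))) - 1) / (t * c)
    rw [if_neg (by positivity)]
    have h3 : a * c * t = a * (t * c) := by ring
    rw [h3]
    field_simp
  | succ k =>
    have h1 : Continuous fun t : ℝ => bk a (k + 1) (t * c) := by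
      show Continuous fun t : ℝ => Real.exp (-(a * (t * c))) * ((t * c) ^ k / (k + 1)!)
      fun_prop
    have h2 := (h1.tendsto 0).mono_left (nhdsWithin_le_nhds (s := Ioi (0 : ℝ)))
    simpa using h2

/-! ### The semigroup -/

/-- Admissible `c`: measurable, invariant under the dilation by `2`, at least `1`. -/
structure Adm (c : EuclideanSpace ℝ (Fin d) → ℝ) : Prop where
  meas : Measurable c
  inv : ∀ x, c ((2 : ℝ) • x) = c x
  one_le : ∀ x, 1 ≤ c x

variable {a : ℝ} {c : EuclideanSpace ℝ (Fin d) → ℝ}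

theorem Adm.pos (hc : Adm c) (x : EuclideanSpace ℝ (Fin d)) : 0 < c x :=
  lt_of_lt_of_le one_pos (hc.one_le x)

theorem good_pk (ha : 1 < a) (hc : Adm c) {t : ℝ} (ht : 0 ≤ t) :
    Good (fun k x => pk a k (t * c x)) 1 a⁻¹ := by
  refine ⟨fun k => (measurable_pk a k).comp (hc.meas.const_mul t), fun k x => by simp only [hc.inv],
    by positivity, inv_lt_one_of_one_lt₀ ha, fun k x => ?_⟩
  have h0 : 0 ≤ t * c x := mul_nonneg ht (hc.pos x).le
  rw [abs_of_nonneg (pk_nonneg a k h0), one_mul]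
  exact pk_le (by linarith) k h0

theorem good_bk (ha : 1 < a) (hc : Adm c) {t : ℝ} (ht : 0 ≤ t) :
    Good (fun k x => bk a k (t * c x)) a a⁻¹ := by
  refine ⟨fun k => (measurable_bk a k).comp (hc.meas.const_mul t), fun k x => by simp only [hc.inv],
    by positivity, inv_lt_one_of_one_lt₀ ha, fun k x => ?_⟩
  exact abs_bk_le (by linarith) k (mul_nonneg ht (hc.pos x).le)

/-- The semigroup on `L^p`. -/
noncomputable def US (a : ℝ) (c : EuclideanSpace ℝ (Fin d) → ℝ) (p : ℝ≥0∞) [Fact (1 ≤ p)] (t : ℝ) :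
    LpE d p →L[ℝ] LpE d p := Th p fun k x => pk a k (t * c x)

theorem US_zero (p : ℝ≥0∞) [Fact (1 ≤ p)] : US a c p 0 = 1 := by
  unfold US
  rw [← Th_e0 (d := d) p]
  congr 1
  funext k x
  unfold pk e0
  rcases Nat.eq_zero_or_pos k with hk | hk
  · subst hk
    simp
  · simp [hk.ne']

theorem US_add (ha : 1 < a) (hc : Adm c) (p : ℝ≥0∞) [Fact (1 ≤ p)] {s t : ℝ} (hs : 0 ≤ s)
    (ht : 0 ≤ t) : US a c p (s + t) = US a c p s * US a c p t := by
  unfold US
  rw [Th_mul p (good_pk ha hc hs) (good_pk ha hc ht)]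
  congr 1
  funext n x
  rw [pk_add, add_mul]

theorem hasSum_US (a : ℝ) (c : EuclideanSpace ℝ (Fin d) → ℝ) (t : ℝ)
    (x : EuclideanSpace ℝ (Fin d)) :
    HasSum (fun k => pk a k (t * c x)) (Real.exp (-((a - 1) * (t * c x)))) := by
  simpa using hasSum_pk a 1 (t * c x)

theorem US_nonneg (ha : 1 < a) (hc : Adm c) (p : ℝ≥0∞) [Fact (1 ≤ p)] {t : ℝ} (ht : 0 ≤ t)
    {f : LpE d p} (hf : 0 ≤ f) : 0 ≤ US a c p t f :=
  Th_nonneg p (good_pk ha hc ht) (fun k x => pk_nonneg a k (mul_nonneg ht (hc.pos x).le)) hf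

theorem exp_le_one' (ha : 1 < a) (hc : Adm c) {t : ℝ} (ht : 0 ≤ t)
    (x : EuclideanSpace ℝ (Fin d)) : Real.exp (-((a - 1) * (t * c x))) ≤ 1 := by
  have h1 := hc.pos x
  have h2 : 0 ≤ (a - 1) * (t * c x) := mul_nonneg (by linarith) (mul_nonneg ht h1.le)
  exact Real.exp_le_one_iff.2 (by linarith)

theorem US_norm_one (ha : 1 < a) (hc : Adm c) {t : ℝ} (ht : 0 ≤ t) (f : LpE d 1) :
    ‖US a c 1 t f‖ ≤ ‖f‖ :=
  norm_Th_le_one (good_pk ha hc ht) (fun k x => pk_nonneg a k (mul_nonneg ht (hc.pos x).le))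
    (hasSum_US a c t) (exp_le_one' ha hc ht) f

theorem US_norm_top (ha : 1 < a) (hc : Adm c) {t : ℝ} (ht : 0 ≤ t) (f : LpE d ∞) :
    ‖US a c ∞ t f‖ ≤ ‖f‖ :=
  norm_Th_le_top (good_pk ha hc ht) (fun k x => pk_nonneg a k (mul_nonneg ht (hc.pos x).le))
    (hasSum_US a c t) (exp_le_one' ha hc ht) f

theorem US_consistent (ha : 1 < a) (hc : Adm c) (p q : ℝ≥0∞) [Fact (1 ≤ p)] [Fact (1 ≤ q)]
    {t : ℝ} (ht : 0 ≤ t) {f : LpE d p} {g : LpE d q} (hfg : f =ᵐ[volume] g) :
    US a c p t f =ᵐ[volume] US a c q t g :=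
  Th_consistent p q (good_pk ha hc ht) hfg

theorem US_inner (ha : 1 < a) (hc : Adm c) {t : ℝ} (ht : 0 ≤ t) (f g : LpE d 2) :
    inner ℝ (US a c 2 t f) g = inner ℝ f (US a c 2 t g) :=
  inner_Th (good_pk ha hc ht) f g

theorem US_cont (ha : 1 < a) (hc : Adm c) (p : ℝ≥0∞) [Fact (1 ≤ p)] (hp : p ≠ ∞) (f : LpE d p) :
    ContinuousOn (fun t => US a c p t f) (Ici 0) := by
  intro t0 ht0
  have ht0 : 0 ≤ t0 := ht0
  refine tendsto_Th p hp (C := 1) (r := a⁻¹) ?_ (good_pk ha hc ht0) (fun k x => ?_) f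
  · filter_upwards [self_mem_nhdsWithin] with t ht
    exact good_pk ha hc ht
  · have h1 : Continuous fun t : ℝ => pk a k (t * c x) := by
      unfold pk
      fun_prop
    exact (h1.tendsto t0).mono_left nhdsWithin_le_nhds

/-! ### The generator on `L^1` -/

/-- The bounded function `1/c`. -/
theorem bm_inv (hc : Adm c) : BM fun x => (c x)⁻¹ := by
  refine ⟨hc.meas.inv, 1, fun x => ?_⟩
  rw [abs_of_pos (inv_pos.2 (hc.pos x))]
  exact inv_le_one_of_one_le₀ (hc.one_le x)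

theorem good_mul {g : EuclideanSpace ℝ (Fin d) → ℝ} {M : ℝ} (gm : Measurable g)
    (gi : ∀ x, g ((2 : ℝ) • x) = g x) (gb : ∀ x, |g x| ≤ M)
    {h : ℕ → EuclideanSpace ℝ (Fin d) → ℝ} {C r : ℝ} (H : Good h C r) :
    Good (fun k x => g x * h k x) (M * C) r := by
  refine ⟨fun k => gm.mul (H.meas k), fun k x => by simp only [gi, H.inv], H.r0, H.r1,
    fun k x => ?_⟩
  rw [abs_mul, mul_assoc]
  exact mul_le_mul (gb x) (H.bd k x) (abs_nonneg _) (le_trans (abs_nonneg _) (gb x))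

theorem good_e0 {r : ℝ} (r0 : 0 ≤ r) (r1 : r < 1) : Good (e0 d) 1 r := by
  refine ⟨fun k => measurable_const, fun k x => rfl, r0, r1, fun k x => ?_⟩
  unfold e0
  rcases Nat.eq_zero_or_pos k with hk | hk
  · subst hk
    simp
  · simp only [hk.ne', if_false, abs_zero]
    positivity

theorem US_mul_J (ha : 1 < a) (hc : Adm c) {t : ℝ} (ht : 0 < t) :
    US a c 1 t * mulL 1 (fun x => (c x)⁻¹) =
      mulL 1 (fun x => (c x)⁻¹) + t • Th 1 (fun k x => bk a k (t * c x)) := by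
  have hi : ∀ x, (c ((2 : ℝ) • x))⁻¹ = (c x)⁻¹ := fun x => by rw [hc.inv]
  have G := good_pk ha hc ht.le
  have r0 : (0 : ℝ) ≤ a⁻¹ := by positivity
  have r1 : a⁻¹ < 1 := inv_lt_one_of_one_lt₀ ha
  have ib : ∀ x, |(c x)⁻¹| ≤ 1 := fun x => by
    rw [abs_of_pos (inv_pos.2 (hc.pos x))]
    exact inv_le_one_of_one_le₀ (hc.one_le x)
  unfold US
  rw [← (commute_Th 1 G (bm_inv hc) hi).eq, mulL_Th 1 G (bm_inv hc)]
  have e1 : mulL 1 (fun x => (c x)⁻¹) = Th 1 (fun k x => (c x)⁻¹ * e0 d k x) := by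
    rw [← mulL_Th 1 (good_e0 r0 r1) (bm_inv hc), Th_e0, mul_one]
  conv_rhs => rw [e1]
  rw [← Th_const_mul 1 (good_bk ha hc ht.le)]
  have g1 : Good (fun k x => (c x)⁻¹ * e0 d k x) (1 * 1) a⁻¹ :=
    good_mul (g := fun x => (c x)⁻¹) hc.meas.inv hi ib (good_e0 (d := d) r0 r1)
  have g2 := good_mul (measurable_const (a := t)) (fun _ => rfl) (fun _ => le_rfl)
    (good_bk ha hc ht.le)
  rw [← Th_add 1 g1 g2]
  congr 1
  funext k x
  have hcx := hc.pos x
  cases k with
  | zero =>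
    show (c x)⁻¹ * pk a 0 (t * c x) = (c x)⁻¹ * (if 0 = 0 then 1 else 0) +
      t * (if t * c x = 0 then -a else (Real.exp (-(a * (t * c x))) - 1) / (t * c x))
    rw [if_pos rfl, if_neg (mul_pos ht hcx).ne']
    unfold pk
    simp only [pow_zero, Nat.factorial_zero, Nat.cast_one, div_one, mul_one]
    field_simp
    ring
  | succ k =>
    show (c x)⁻¹ * pk a (k + 1) (t * c x) = (c x)⁻¹ * (if k + 1 = 0 then 1 else 0) +
      t * (Real.exp (-(a * (t * c x))) * ((t * c x) ^ k / (k + 1)!))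
    unfold pk
    simp only [Nat.succ_ne_zero, if_false, mul_zero, zero_add]
    rw [pow_succ]
    field_simp

theorem gen_of_J (ha : 1 < a) (hc : Adm c) (F : LpE d 1) :
    Tendsto (fun t : ℝ => t⁻¹ • (US a c 1 t (mulL 1 (fun x => (c x)⁻¹) F) -
      mulL 1 (fun x => (c x)⁻¹) F)) (𝓝[>] 0) (𝓝 (piL d 1 F - a • F)) := by
  have r0 : (0 : ℝ) ≤ a⁻¹ := by positivity
  have r1 : a⁻¹ < 1 := inv_lt_one_of_one_lt₀ ha
  have h0 : Good (fun k (_ : EuclideanSpace ℝ (Fin d)) => bk a k 0) a a⁻¹ := by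
    refine ⟨fun k => measurable_const, fun k x => rfl, r0, r1, fun k x => ?_⟩
    exact abs_bk_le (by linarith) k le_rfl
  have key : Tendsto (fun t : ℝ => Th 1 (fun k x => bk a k (t * c x)) F) (𝓝[>] 0)
      (𝓝 (Th 1 (fun k _ => bk a k 0) F)) := by
    refine tendsto_Th 1 (by norm_num) (C := a) (r := a⁻¹) ?_ h0 (fun k x => ?_) F
    · filter_upwards [self_mem_nhdsWithin] with t ht
      exact good_bk ha hc (le_of_lt ht)
    · exact tendsto_bk a (c x) (hc.pos x) k
  have e1 : Th 1 (fun k (_ : EuclideanSpace ℝ (Fin d)) => bk a k 0) = piL d 1 - a • 1 := by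
    have ge := good_e0 (d := d) r0 r1
    have gs : Good (shift (e0 d)) a a⁻¹ := by
      refine ⟨fun k => ?_, fun k x => ?_, r0, r1, fun k x => ?_⟩
      · cases k <;> exact measurable_const
      · cases k <;> rfl
      · match k with
        | 0 => simp [shift]; linarith
        | 1 =>
          simp only [shift, e0, if_true, abs_one, pow_one]
          rw [mul_inv_cancel₀ (by linarith)]
        | k + 2 =>
          simp only [shift, e0, Nat.succ_ne_zero, if_false, abs_zero]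
          positivity
    have gn := good_mul (measurable_const (a := -a)) (fun _ => rfl) (fun _ => le_rfl) ge
    have e2 : Th 1 (shift (e0 d)) = piL d 1 := by rw [Th_shift 1 ge, Th_e0, mul_one]
    rw [← e2, ← Th_e0 (d := d) 1, sub_eq_add_neg, ← neg_smul, ← Th_const_mul 1 ge,
      ← Th_add 1 gs gn]
    congr 1
    funext k x
    rw [bk_zero_right]
    match k with
    | 0 => simp [shift, e0]
    | 1 => simp [shift, e0]
    | k + 2 => simp [shift, e0]
  rw [e1] at key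
  have e3 : (piL d 1 - a • (1 : LpE d 1 →L[ℝ] LpE d 1)) F = piL d 1 F - a • F := rfl
  rw [e3] at key
  refine key.congr' ?_
  filter_upwards [self_mem_nhdsWithin] with t ht
  have ht : 0 < t := ht
  have h3 := congrArg (fun T : LpE d 1 →L[ℝ] LpE d 1 => T F) (US_mul_J ha hc ht)
  simp only [mul_apply_eq_comp, add_apply, smul_apply] at h3
  rw [h3, add_sub_cancel_left, smul_smul, inv_mul_cancel₀ ht.ne', one_smul]

end Pool.Agent.Q91.DilSemi
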