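import Pool.Agent.Q91.DilOps

/-!
Series `Θ(h) = ∑ k, h_k Π^k` with dilation-invariant coefficients of geometric decay, acting on all
`L^p(ℝ^d)`: algebra, positivity, contractivity, integrals, consistency, symmetry.
-/

open MeasureTheory Filter Topology Set
open scoped ENNReal NNReal

namespace Pool.Agent.Q91.DilTheta

open Pool.Agent.Q91.DilOps

variable {d : ℕ}

/-- Coefficient sequences: measurable, invariant under the dilation by `2`, geometric decay. -/
structure Good (h : ℕ → EuclideanSpace ℝ (Fin d) → ℝ) (C r : ℝ) : Prop where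
  meas : ∀ k, Measurable (h k)
  inv : ∀ k x, h k ((2 : ℝ) • x) = h k x
  r0 : 0 ≤ r
  r1 : r < 1
  bd : ∀ k x, |h k x| ≤ C * r ^ k

variable {h h' : ℕ → EuclideanSpace ℝ (Fin d) → ℝ} {C r C' r' : ℝ}

theorem Good.bm (H : Good h C r) (k : ℕ) : BM (h k) := ⟨H.meas k, C * r ^ k, H.bd k⟩

theorem Good.C0 (H : Good h C r) : 0 ≤ C := by
  have := le_trans (abs_nonneg _) (H.bd 0 0)
  simpa using this

/-- The terms of the series. -/
noncomputable def term (p : ℝ≥0∞) [Fact (1 ≤ p)] (h : ℕ → EuclideanSpace ℝ (Fin d) → ℝ) (k : ℕ) :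
    LpE d p →L[ℝ] LpE d p := mulL p (h k) * (piL d p) ^ k

/-- The sum of the series. -/
noncomputable def Th (p : ℝ≥0∞) [Fact (1 ≤ p)] (h : ℕ → EuclideanSpace ℝ (Fin d) → ℝ) :
    LpE d p →L[ℝ] LpE d p := ∑' k, term p h k

theorem norm_piL_pow_le (p : ℝ≥0∞) [hp : Fact (1 ≤ p)] (k : ℕ) : ‖(piL d p) ^ k‖ ≤ 1 := by
  induction k with
  | zero => rw [pow_zero]; exact ContinuousLinearMap.norm_id_le
  | succ k ih =>
    rw [pow_succ]
    refine le_trans (norm_mul_le _ _) ?_
    have := le_trans (norm_piL_le (d := d) p) (kap_le_one d hp.out)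
    exact mul_le_one₀ ih (norm_nonneg _) this

theorem norm_term_le (p : ℝ≥0∞) [Fact (1 ≤ p)] (H : Good h C r) (k : ℕ) :
    ‖term p h k‖ ≤ C * r ^ k := by
  unfold term
  refine le_trans (norm_mul_le _ _) ?_
  have h1 := norm_mulL_le p (H.meas k) (H.bd k)
  have h2 := norm_piL_pow_le (d := d) p k
  have h3 : 0 ≤ C * r ^ k := mul_nonneg H.C0 (pow_nonneg H.r0 k)
  calc ‖mulL p (h k)‖ * ‖(piL d p) ^ k‖ ≤ (C * r ^ k) * 1 :=
        mul_le_mul h1 h2 (norm_nonneg _) h3
    _ = C * r ^ k := mul_one _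

theorem summable_geo (H : Good h C r) : Summable fun k : ℕ => C * r ^ k :=
  (summable_geometric_of_lt_one H.r0 H.r1).mul_left C

theorem summable_norm (p : ℝ≥0∞) [Fact (1 ≤ p)] (H : Good h C r) :
    Summable fun k => ‖term p h k‖ :=
  Summable.of_nonneg_of_le (fun _ => norm_nonneg _) (norm_term_le p H) (summable_geo H)

theorem hasSum_term (p : ℝ≥0∞) [Fact (1 ≤ p)] (H : Good h C r) :
    HasSum (term p h) (Th p h) :=
  (summable_norm p H).of_norm.hasSum

theorem hasSum_term_apply (p : ℝ≥0∞) [Fact (1 ≤ p)] (H : Good h C r) (f : LpE d p) :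
    HasSum (fun k => term p h k f) (Th p h f) :=
  (hasSum_term p H).mapL (ContinuousLinearMap.apply ℝ (LpE d p) f)

theorem term_mul (p : ℝ≥0∞) [Fact (1 ≤ p)] (H : Good h C r) (H' : Good h' C' r') (k l : ℕ) :
    term p h k * term p h' l = (mulL p fun x => h k x * h' l x) * (piL d p) ^ (k + l) := by
  unfold term
  have h1 : Commute (mulL p (h' l)) ((piL d p) ^ k) :=
    (commute_mulL p (H'.bm l) (H'.inv l)).pow_right k
  rw [← mulL_mul p (H.bm k) (H'.bm l) (bm_mul (H.bm k) (H'.bm l)), pow_add]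
  rw [mul_assoc, ← mul_assoc ((piL d p) ^ k) (mulL p (h' l)), ← h1.eq]
  simp only [mul_assoc]

theorem Th_mul (p : ℝ≥0∞) [Fact (1 ≤ p)] (H : Good h C r) (H' : Good h' C' r') :
    Th p h * Th p h' =
      Th p (fun n x => ∑ kl ∈ Finset.HasAntidiagonal.antidiagonal n, h kl.1 x * h' kl.2 x) := by
  unfold Th
  rw [tsum_mul_tsum_eq_tsum_sum_antidiagonal_of_summable_norm (summable_norm p H)
    (summable_norm p H')]
  refine tsum_congr fun n => ?_
  have h1 : term p (fun n x => ∑ kl ∈ Finset.HasAntidiagonal.antidiagonal n, h kl.1 x * h' kl.2 x) n =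
      (∑ kl ∈ Finset.HasAntidiagonal.antidiagonal n, mulL p (fun x => h kl.1 x * h' kl.2 x)) *
        (piL d p) ^ n := by
    unfold term
    rw [← mulL_sum p _ (fun kl _ => bm_mul (H.bm kl.1) (H'.bm kl.2))]
  rw [h1, Finset.sum_mul]
  refine Finset.sum_congr rfl fun kl hkl => ?_
  rw [term_mul p H H', Finset.HasAntidiagonal.mem_antidiagonal.1 hkl]

/-! ### Linear algebra of `Θ` -/

theorem mulL_Th (p : ℝ≥0∞) [Fact (1 ≤ p)] (H : Good h C r)
    {g : EuclideanSpace ℝ (Fin d) → ℝ} (G : BM g) :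
    mulL p g * Th p h = Th p (fun k x => g x * h k x) := by
  have h1 := (hasSum_term p H).mul_left (mulL p g)
  rw [← h1.tsum_eq]
  refine tsum_congr fun k => ?_
  unfold term
  rw [← mul_assoc, mulL_mul p G (H.bm k) (bm_mul G (H.bm k))]

theorem commute_Th (p : ℝ≥0∞) [Fact (1 ≤ p)] (H : Good h C r)
    {g : EuclideanSpace ℝ (Fin d) → ℝ} (G : BM g) (gi : ∀ x, g ((2 : ℝ) • x) = g x) :
    Commute (mulL p g) (Th p h) := by
  have h1 := (hasSum_term p H).mul_left (mulL p g)
  have h2 := (hasSum_term p H).mul_right (mulL p g)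
  unfold Commute SemiconjBy
  rw [← h1.tsum_eq, ← h2.tsum_eq]
  refine tsum_congr fun k => ?_
  unfold term
  have c1 : Commute (mulL p g) ((piL d p) ^ k) := (commute_mulL p G gi).pow_right k
  have c2 : Commute (mulL p g) (mulL p (h k)) := by
    unfold Commute SemiconjBy
    rw [mulL_mul p G (H.bm k) (bm_mul G (H.bm k)), mulL_mul p (H.bm k) G (bm_mul (H.bm k) G)]
    congr 1
    funext x
    ring
  exact c2.mul_right c1

theorem Th_add (p : ℝ≥0∞) [Fact (1 ≤ p)] (H : Good h C r) (H' : Good h' C' r') :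
    Th p (fun k x => h k x + h' k x) = Th p h + Th p h' := by
  have h1 := (hasSum_term p H).add (hasSum_term p H')
  rw [← h1.tsum_eq]
  refine tsum_congr fun k => ?_
  unfold term
  rw [mulL_add p (H.bm k) (H'.bm k), add_mul]

theorem Th_const_mul (p : ℝ≥0∞) [Fact (1 ≤ p)] (H : Good h C r) (c : ℝ) :
    Th p (fun k x => c * h k x) = c • Th p h := by
  have h1 := (hasSum_term p H).const_smul c
  rw [← h1.tsum_eq]
  refine tsum_congr fun k => ?_
  unfold term
  rw [mulL_const_mul p (H.bm k), smul_mul_assoc]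

/-- The unit sequence. -/
def e0 (d : ℕ) (k : ℕ) (_ : EuclideanSpace ℝ (Fin d)) : ℝ := if k = 0 then 1 else 0

theorem Th_e0 (p : ℝ≥0∞) [Fact (1 ≤ p)] : Th p (e0 d) = 1 := by
  have h1 : ∀ k, k ≠ 0 → term p (e0 d) k = 0 := by
    intro k hk
    unfold term e0
    simp only [hk, if_false]
    rw [mulL_zero, zero_mul]
  unfold Th
  rw [tsum_eq_single 0 h1]
  unfold term e0
  simp only [if_true, pow_zero, mul_one]
  exact mulL_one p

/-- The shifted sequence. -/
def shift (h : ℕ → EuclideanSpace ℝ (Fin d) → ℝ) : ℕ → EuclideanSpace ℝ (Fin d) → ℝ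
  | 0 => fun _ => 0
  | k + 1 => h k

theorem Th_shift (p : ℝ≥0∞) [Fact (1 ≤ p)] (H : Good h C r) :
    Th p (shift h) = piL d p * Th p h := by
  have h1 := (hasSum_term p H).mul_left (piL d p)
  have h2 : ∀ k, piL d p * term p h k = term p (shift h) (k + 1) := by
    intro k
    unfold term
    have : Commute (mulL p (h k)) (piL d p) := commute_mulL p (H.bm k) (H.inv k)
    rw [← mul_assoc, ← this.eq, mul_assoc, ← pow_succ']
    rfl
  have h3 : HasSum (term p (shift h)) (piL d p * Th p h) := by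
    rw [← hasSum_nat_add_iff' 1]
    simp only [Finset.range_one, Finset.sum_singleton]
    have : term p (shift h) 0 = 0 := by
      unfold term
      show mulL p (fun _ => 0) * _ = 0
      rw [mulL_zero, zero_mul]
    rw [this, sub_zero]
    simpa only [h2] using h1
  exact h3.tsum_eq

/-! ### Positivity -/

theorem piL_pow_nonneg (p : ℝ≥0∞) [Fact (1 ≤ p)] (k : ℕ) {f : LpE d p} (hf : 0 ≤ f) :
    0 ≤ ((piL d p) ^ k) f := by
  induction k with
  | zero => simpa using hf
  | succ k ih =>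
    rw [pow_succ', mul_apply_eq_comp]
    exact piL_nonneg p ih

theorem term_nonneg (p : ℝ≥0∞) [Fact (1 ≤ p)] (H : Good h C r) (h0 : ∀ k x, 0 ≤ h k x) (k : ℕ)
    {f : LpE d p} (hf : 0 ≤ f) : 0 ≤ term p h k f := by
  unfold term
  rw [mul_apply_eq_comp]
  exact mulL_nonneg p (H.bm k) (h0 k) (piL_pow_nonneg p k hf)

theorem Th_nonneg (p : ℝ≥0∞) [Fact (1 ≤ p)] (H : Good h C r) (h0 : ∀ k x, 0 ≤ h k x)
    {f : LpE d p} (hf : 0 ≤ f) : 0 ≤ Th p h f :=
  (hasSum_term_apply p H f).nonneg fun k => term_nonneg p H h0 k hf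

theorem abs_Th_le (p : ℝ≥0∞) [Fact (1 ≤ p)] (H : Good h C r) (h0 : ∀ k x, 0 ≤ h k x)
    (f : LpE d p) : |Th p h f| ≤ Th p h |f| := by
  have h1 : 0 ≤ Th p h (|f| - f) := Th_nonneg p H h0 (sub_nonneg.2 (le_abs_self f))
  have h2 : 0 ≤ Th p h (|f| - -f) := Th_nonneg p H h0 (sub_nonneg.2 (neg_le_abs f))
  rw [map_sub] at h1
  rw [map_sub, map_neg] at h2
  rw [abs_le']
  exact ⟨sub_nonneg.1 h1, sub_nonneg.1 h2⟩

/-! ### Sums of multiplication operators -/

theorem hasSum_mulL (p : ℝ≥0∞) [Fact (1 ≤ p)] (H : Good h C r)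
    {S : EuclideanSpace ℝ (Fin d) → ℝ} (hS : ∀ x, HasSum (fun k => h k x) (S x)) :
    BM S ∧ HasSum (fun k => mulL p (h k)) (mulL p S) := by
  have hgeo : ∀ x n, |(∑ k ∈ Finset.range n, h k x) - S x| ≤ C * r ^ n / (1 - r) := by
    intro x n
    have := dist_le_of_le_geometric_of_tendsto r C H.r1 (f := fun n => ∑ k ∈ Finset.range n, h k x)
      (a := S x) (fun n => by
        rw [Real.dist_eq, Finset.sum_range_succ, ← abs_neg]
        have := H.bd n x
        simpa using this) (hS x).tendsto_sum_nat n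
    rwa [Real.dist_eq] at this
  have hSm : Measurable S := by
    refine measurable_of_tendsto_metrizable (f := fun n x => ∑ k ∈ Finset.range n, h k x)
      (fun n => ?_) (tendsto_pi_nhds.2 fun x => (hS x).tendsto_sum_nat)
    exact Finset.measurable_fun_sum _ fun k _ => H.meas k
  have hSb : ∀ x, |S x| ≤ C / (1 - r) := by
    intro x
    have := hgeo x 0
    simpa using this
  have bmS : BM S := ⟨hSm, _, hSb⟩
  refine ⟨bmS, ?_⟩
  have hsum : Summable fun k => mulL p (h k) := by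
    refine Summable.of_norm ?_
    exact Summable.of_nonneg_of_le (fun _ => norm_nonneg _)
      (fun k => norm_mulL_le p (H.meas k) (H.bd k)) (summable_geo H)
  rw [hsum.hasSum_iff_tendsto_nat, tendsto_iff_norm_sub_tendsto_zero]
  have hle : ∀ n, ‖(∑ k ∈ Finset.range n, mulL p (h k)) - mulL p S‖ ≤ C * r ^ n / (1 - r) := by
    intro n
    have e : (∑ k ∈ Finset.range n, mulL p (h k)) - mulL p S =
        mulL p fun x => (∑ k ∈ Finset.range n, h k x) + (-1) * S x := by
      rw [mulL_add p (bm_sum _ fun k _ => H.bm k) (bm_mul (bm_const _) bmS),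
        mulL_sum p _ fun k _ => H.bm k, mulL_const_mul p bmS]
      simp [sub_eq_add_neg]
    rw [e]
    refine norm_mulL_le p ?_ fun x => ?_
    · exact (Finset.measurable_fun_sum _ fun k _ => H.meas k).add (measurable_const.mul hSm)
    · have := hgeo x n
      rwa [neg_one_mul, ← sub_eq_add_neg]
  refine squeeze_zero (fun _ => norm_nonneg _) hle ?_
  have : Tendsto (fun n => C * r ^ n / (1 - r)) atTop (𝓝 (C * 0 / (1 - r))) :=
    ((tendsto_pow_atTop_nhds_zero_of_lt_one H.r0 H.r1).const_mul C).div_const _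
  simpa using this

/-! ### Integrals -/

theorem intL (f : LpE d 1) : L1.integralCLM (E := ℝ) f = ∫ x, f x := by
  rw [← L1.integral_eq, L1.integral_eq_integral]

theorem integral_piL_pow (k : ℕ) (f : LpE d 1) : ∫ x, ((piL d 1) ^ k) f x = ∫ x, f x := by
  induction k with
  | zero => simp
  | succ k ih =>
    rw [pow_succ', mul_apply_eq_comp, integral_piL, ih]

theorem integral_Th (H : Good h C r) {S : EuclideanSpace ℝ (Fin d) → ℝ}
    (hS : ∀ x, HasSum (fun k => h k x) (S x)) (f : LpE d 1) :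
    ∫ x, Th 1 h f x = ∫ x, mulL 1 S f x := by
  have h1 : HasSum (fun k => L1.integralCLM (E := ℝ) (term 1 h k f))
      (L1.integralCLM (E := ℝ) (Th 1 h f)) :=
    (hasSum_term_apply 1 H f).mapL (L1.integralCLM (E := ℝ))
  have h2 : HasSum (fun k => L1.integralCLM (E := ℝ) (mulL 1 (h k) f))
      (L1.integralCLM (E := ℝ) (mulL 1 S f)) :=
    ((hasSum_mulL 1 H hS).2.mapL (ContinuousLinearMap.apply ℝ (LpE d 1) f)).mapL
      (L1.integralCLM (E := ℝ))
  have h3 : ∀ k, L1.integralCLM (E := ℝ) (term 1 h k f) =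
      L1.integralCLM (E := ℝ) (mulL 1 (h k) f) := by
    intro k
    have c1 : Commute (mulL 1 (h k)) ((piL d 1) ^ k) :=
      (commute_mulL 1 (H.bm k) (H.inv k)).pow_right k
    unfold term
    rw [c1.eq, mul_apply_eq_comp, intL, intL, integral_piL_pow]
  simp only [h3] at h1
  have := h1.unique h2
  rwa [intL, intL] at this

theorem norm_Th_le (H : Good h C r) (h0 : ∀ k x, 0 ≤ h k x)
    {S : EuclideanSpace ℝ (Fin d) → ℝ} (hS : ∀ x, HasSum (fun k => h k x) (S x)) (f : LpE d 1) :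
    ‖Th 1 h f‖ ≤ ∫ x, S x * |f x| := by
  have h1 : ‖Th 1 h f‖ ≤ ‖Th 1 h |f|‖ := by
    refine HasSolidNorm.solid ?_
    rw [abs_of_nonneg (Th_nonneg 1 H h0 (abs_nonneg f))]
    exact abs_Th_le 1 H h0 f
  refine le_trans h1 (le_of_eq ?_)
  have h2 : ‖Th 1 h |f|‖ = ∫ x, Th 1 h |f| x := by
    rw [L1.norm_eq_integral_norm]
    have := (Lp.coeFn_nonneg _).2 (Th_nonneg 1 H h0 (abs_nonneg f))
    refine integral_congr_ae ?_
    filter_upwards [this] with x hx
    exact Real.norm_of_nonneg hx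
  rw [h2, integral_Th H hS]
  refine integral_congr_ae ?_
  filter_upwards [mulL_coe 1 (hasSum_mulL 1 H hS).1 |f|, Lp.coeFn_abs f] with x h3 h4
  rw [h3, h4]

theorem norm_Th_le_one (H : Good h C r) (h0 : ∀ k x, 0 ≤ h k x)
    {S : EuclideanSpace ℝ (Fin d) → ℝ} (hS : ∀ x, HasSum (fun k => h k x) (S x))
    (hS1 : ∀ x, S x ≤ 1) (f : LpE d 1) : ‖Th 1 h f‖ ≤ ‖f‖ := by
  refine le_trans (norm_Th_le H h0 hS f) ?_
  rw [L1.norm_eq_integral_norm]
  have hi : Integrable f (volume : Measure (EuclideanSpace ℝ (Fin d))) :=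
    memLp_one_iff_integrable.1 (Lp.memLp f)
  refine integral_mono_of_nonneg (Eventually.of_forall fun x => ?_) hi.norm
    (Eventually.of_forall fun x => ?_)
  · exact mul_nonneg ((hS x).nonneg fun k => h0 k x) (abs_nonneg _)
  · exact mul_le_of_le_one_left (abs_nonneg _) (hS1 x)

/-! ### Contractivity on `L^∞` -/

theorem ae_le_norm_top (f : LpE d ∞) : ∀ᵐ x, |f x| ≤ ‖f‖ := by
  have h1 := ae_le_eLpNormEssSup (f := f) (μ := (volume : Measure (EuclideanSpace ℝ (Fin d))))
  have hfin := Lp.eLpNorm_ne_top f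
  rw [eLpNorm_exponent_top] at hfin
  filter_upwards [h1] with x hx
  rw [Lp.norm_def, eLpNorm_exponent_top]
  have := ENNReal.toReal_mono hfin hx
  simpa using this

theorem norm_le_of_ae_top {f : LpE d ∞} {M : ℝ} (hM : 0 ≤ M) (h : ∀ᵐ x, |f x| ≤ M) :
    ‖f‖ ≤ M := by
  rw [Lp.norm_def, eLpNorm_exponent_top]
  refine ENNReal.toReal_le_of_le_ofReal hM ?_
  exact eLpNormEssSup_le_of_ae_bound h

theorem norm_Th_le_top (H : Good h C r) (h0 : ∀ k x, 0 ≤ h k x)
    {S : EuclideanSpace ℝ (Fin d) → ℝ} (hS : ∀ x, HasSum (fun k => h k x) (S x))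
    (hS1 : ∀ x, S x ≤ 1) (f : LpE d ∞) : ‖Th ∞ h f‖ ≤ ‖f‖ := by
  have h1 := (hasSum_term_apply ∞ H f).tendsto_sum_nat
  refine le_of_tendsto h1.norm (Eventually.of_forall fun n => ?_)
  refine norm_le_of_ae_top (norm_nonneg _) ?_
  have hk : ∀ k, ∀ᵐ x, |term ∞ h k f x| ≤ h k x * ‖f‖ := by
    intro k
    unfold term
    rw [mul_apply_eq_comp]
    filter_upwards [mulL_coe ∞ (H.bm k) (((piL d ∞) ^ k) f), ae_le_norm_top (((piL d ∞) ^ k) f)]
      with x h2 h3
    rw [h2, abs_mul, abs_of_nonneg (h0 k x)]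
    refine mul_le_mul_of_nonneg_left (le_trans h3 ?_) (h0 k x)
    refine le_trans (ContinuousLinearMap.le_opNorm _ _) ?_
    exact mul_le_of_le_one_left (norm_nonneg _) (norm_piL_pow_le ∞ k)
  have hsum : ∀ n : ℕ, ∀ᵐ x, |(∑ k ∈ Finset.range n, term ∞ h k f : LpE d ∞) x| ≤
      (∑ k ∈ Finset.range n, h k x) * ‖f‖ := by
    intro n
    induction n with
    | zero =>
      filter_upwards [Lp.coeFn_zero ℝ ∞ (volume : Measure (EuclideanSpace ℝ (Fin d)))] with x hx
      simp only [Finset.range_zero, Finset.sum_empty, zero_mul]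
      rw [hx]
      simp
    | succ n ih =>
      simp only [Finset.sum_range_succ]
      filter_upwards [ih, hk n, Lp.coeFn_add (∑ k ∈ Finset.range n, term ∞ h k f : LpE d ∞)
        (term ∞ h n f)] with x h2 h3 h4
      rw [h4, Pi.add_apply, add_mul]
      exact le_trans (abs_add_le _ _) (add_le_add h2 h3)
  filter_upwards [hsum n] with x hx
  refine le_trans hx (mul_le_of_le_one_left (norm_nonneg _) ?_)
  exact le_trans (sum_le_hasSum _ (fun k _ => h0 k x) (hS x)) (hS1 x)

/-! ### Consistency -/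

theorem term_consistent (p q : ℝ≥0∞) [Fact (1 ≤ p)] [Fact (1 ≤ q)] (H : Good h C r) (k : ℕ)
    {f : LpE d p} {g : LpE d q} (hfg : f =ᵐ[volume] g) :
    term p h k f =ᵐ[volume] term q h k g := by
  have hpow : ∀ k, ((piL d p) ^ k) f =ᵐ[volume] ((piL d q) ^ k) g := by
    intro k
    induction k with
    | zero => simpa using hfg
    | succ k ih =>
      rw [pow_succ', pow_succ', mul_apply_eq_comp, mul_apply_eq_comp]
      exact piL_consistent p q ih
  unfold term
  rw [mul_apply_eq_comp, mul_apply_eq_comp]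
  exact mulL_consistent p q (H.bm k) (hpow k)

theorem Th_consistent (p q : ℝ≥0∞) [Fact (1 ≤ p)] [Fact (1 ≤ q)] (H : Good h C r)
    {f : LpE d p} {g : LpE d q} (hfg : f =ᵐ[volume] g) :
    Th p h f =ᵐ[volume] Th q h g := by
  have h1 := tendstoInMeasure_of_tendsto_Lp (hasSum_term_apply p H f).tendsto_sum_nat
  have h2 := tendstoInMeasure_of_tendsto_Lp (hasSum_term_apply q H g).tendsto_sum_nat
  have h3 : ∀ n : ℕ, ((∑ k ∈ Finset.range n, term p h k f : LpE d p) :
      EuclideanSpace ℝ (Fin d) → ℝ) =ᵐ[volume] (∑ k ∈ Finset.range n, term q h k g : LpE d q) := by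
    intro n
    induction n with
    | zero =>
      filter_upwards [Lp.coeFn_zero ℝ p (volume : Measure (EuclideanSpace ℝ (Fin d))),
        Lp.coeFn_zero ℝ q (volume : Measure (EuclideanSpace ℝ (Fin d)))] with x hx hx'
      simp only [Finset.range_zero, Finset.sum_empty]
      rw [hx, hx']
    | succ n ih =>
      simp only [Finset.sum_range_succ]
      filter_upwards [ih, term_consistent p q H n hfg,
        Lp.coeFn_add (∑ k ∈ Finset.range n, term p h k f : LpE d p) (term p h n f),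
        Lp.coeFn_add (∑ k ∈ Finset.range n, term q h k g : LpE d q) (term q h n g)]
        with x h4 h5 h6 h7
      rw [h6, h7, Pi.add_apply, Pi.add_apply, h4, h5]
  exact tendstoInMeasure_ae_unique (h1.congr_left h3) h2

/-! ### Symmetry and the quadratic form on `L^2` -/

theorem inner_piL_pow (k : ℕ) (f g : LpE d 2) :
    inner ℝ (((piL d 2) ^ k) f) g = inner ℝ f (((piL d 2) ^ k) g) := by
  induction k generalizing f g with
  | zero => simp
  | succ k ih =>
    rw [pow_succ', mul_apply_eq_comp, inner_piL, ih, ← mul_apply_eq_comp, ← pow_succ,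
      ← pow_succ']

theorem inner_term (H : Good h C r) (k : ℕ) (f g : LpE d 2) :
    inner ℝ (term 2 h k f) g = inner ℝ f (term 2 h k g) := by
  have c1 : Commute (mulL 2 (h k)) ((piL d 2) ^ k) :=
    (commute_mulL 2 (H.bm k) (H.inv k)).pow_right k
  unfold term
  rw [mul_apply_eq_comp, inner_mulL (H.bm k), inner_piL_pow, ← mul_apply_eq_comp, ← c1.eq]

theorem inner_Th (H : Good h C r) (f g : LpE d 2) :
    inner ℝ (Th 2 h f) g = inner ℝ f (Th 2 h g) := by
  have h1 : HasSum (fun k => inner ℝ g (term 2 h k f)) (inner ℝ g (Th 2 h f)) :=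
    (hasSum_term_apply 2 H f).mapL (innerSL ℝ g)
  have h2 : HasSum (fun k => inner ℝ f (term 2 h k g)) (inner ℝ f (Th 2 h g)) :=
    (hasSum_term_apply 2 H g).mapL (innerSL ℝ f)
  have h3 : ∀ k, inner ℝ g (term 2 h k f) = inner ℝ f (term 2 h k g) := by
    intro k
    rw [real_inner_comm, inner_term H]
  simp only [h3] at h1
  rw [real_inner_comm]
  exact h1.unique h2

theorem norm_piL_pow_apply (k : ℕ) (u : LpE d 2) :
    ‖((piL d 2) ^ k) u‖ ≤ kap d 2 ^ k * ‖u‖ := by
  induction k with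
  | zero => simp
  | succ k ih =>
    rw [pow_succ', mul_apply_eq_comp]
    refine le_trans (ContinuousLinearMap.le_opNorm _ _) ?_
    calc ‖piL d 2‖ * ‖((piL d 2) ^ k) u‖ ≤ kap d 2 * (kap d 2 ^ k * ‖u‖) :=
          mul_le_mul (norm_piL_le 2) ih (norm_nonneg _) (kap_nonneg d 2)
      _ = kap d 2 ^ (k + 1) * ‖u‖ := by ring

theorem inner_term_le (H : Good h C r) (h0 : ∀ k x, 0 ≤ h k x) (k : ℕ) (f : LpE d 2) :
    inner ℝ (term 2 h k f) f ≤ inner ℝ ((mulL 2 fun x => kap d 2 ^ k * h k x) f) f := by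
  set s : EuclideanSpace ℝ (Fin d) → ℝ := fun x => Real.sqrt (h k x) with hs
  have bs : BM s := by
    refine ⟨(H.meas k).sqrt, Real.sqrt (C * r ^ k), fun x => ?_⟩
    rw [abs_of_nonneg (Real.sqrt_nonneg _)]
    exact Real.sqrt_le_sqrt (le_trans (le_abs_self _) (H.bd k x))
  have si : ∀ x, s ((2 : ℝ) • x) = s x := fun x => by simp only [hs, H.inv]
  have hh : mulL 2 (h k) = mulL 2 s * mulL 2 s := by
    rw [mulL_mul 2 bs bs (bm_mul bs bs)]
    congr 1
    funext x
    exact (Real.mul_self_sqrt (h0 k x)).symm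
  have c1 : Commute (mulL 2 s) ((piL d 2) ^ k) := (commute_mulL 2 bs si).pow_right k
  have e1 : inner ℝ (term 2 h k f) f =
      inner ℝ (((piL d 2) ^ k) (mulL 2 s f)) (mulL 2 s f) := by
    unfold term
    rw [hh, mul_assoc, mul_apply_eq_comp, inner_mulL bs, c1.eq, mul_apply_eq_comp]
  have e2 : inner ℝ ((mulL 2 fun x => kap d 2 ^ k * h k x) f) f =
      kap d 2 ^ k * (‖mulL 2 s f‖ * ‖mulL 2 s f‖) := by
    rw [mulL_const_mul 2 (H.bm k), hh, smul_apply, mul_apply_eq_comp, real_inner_smul_left,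
      inner_mulL bs, real_inner_self_eq_norm_mul_norm]
  rw [e1, e2]
  refine le_trans (real_inner_le_norm _ _) ?_
  rw [← mul_assoc]
  exact mul_le_mul_of_nonneg_right (norm_piL_pow_apply k _) (norm_nonneg _)

theorem inner_Th_le (H : Good h C r) (h0 : ∀ k x, 0 ≤ h k x)
    {S : EuclideanSpace ℝ (Fin d) → ℝ} (hS : ∀ x, HasSum (fun k => kap d 2 ^ k * h k x) (S x))
    (f : LpE d 2) : inner ℝ (Th 2 h f) f ≤ inner ℝ (mulL 2 S f) f := by
  have k1 : kap d 2 ≤ 1 := kap_le_one d (by norm_num)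
  have H2 : Good (fun k x => kap d 2 ^ k * h k x) C r := by
    refine ⟨fun k => (H.meas k).const_mul _, fun k x => by simp only [H.inv], H.r0, H.r1,
      fun k x => ?_⟩
    rw [abs_mul, abs_of_nonneg (pow_nonneg (kap_nonneg d 2) k)]
    exact le_trans (mul_le_of_le_one_left (abs_nonneg _) (pow_le_one₀ (kap_nonneg d 2) k1))
      (H.bd k x)
  have h1 : HasSum (fun k => inner ℝ f (term 2 h k f)) (inner ℝ f (Th 2 h f)) :=
    (hasSum_term_apply 2 H f).mapL (innerSL ℝ f)
  have h2 : HasSum (fun k => inner ℝ f ((mulL 2 fun x => kap d 2 ^ k * h k x) f))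
      (inner ℝ f (mulL 2 S f)) :=
    ((hasSum_mulL 2 H2 hS).2.mapL (ContinuousLinearMap.apply ℝ (LpE d 2) f)).mapL (innerSL ℝ f)
  rw [real_inner_comm, real_inner_comm f (mulL 2 S f)]
  refine hasSum_le (fun k => ?_) h1 h2
  rw [real_inner_comm, real_inner_comm ((mulL 2 fun x => kap d 2 ^ k * h k x) f)]
  exact inner_term_le H h0 k f

end Pool.Agent.Q91.DilTheta
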