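import Mathlib
import Pool.Agent.Q91.Coding

/-!
# Two points of a compact set and the exponential series: the basic separation estimate
-/

namespace Q91.ExpDim

open Finset Real

/-- The `i`-th term of the exponential series at `x`. -/
noncomputable def a (x : ℝ) (i : ℕ) : ℝ := x ^ i / (i.factorial : ℝ)

/-- The logarithm of the `i`-th term. -/
noncomputable def A (x : ℝ) (i : ℕ) : ℝ := Real.log (a x i)

variable {x l : ℝ}

lemma a_pos (hx : 0 < x) (i : ℕ) : 0 < a x i := by unfold a; positivity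

lemma a_succ (i : ℕ) : a x (i + 1) = a x i * (x / (i + 1)) := by
  unfold a
  rw [Nat.factorial_succ, pow_succ]
  push_cast
  have h1 : ((i.factorial : ℕ) : ℝ) ≠ 0 := by positivity
  have h2 : ((i : ℝ) + 1) ≠ 0 := by positivity
  field_simp

lemma exp_A (hx : 0 < x) (i : ℕ) : Real.exp (A x i) = a x i := Real.exp_log (a_pos hx i)

lemma A_succ (hx : 0 < x) (i : ℕ) : A x (i + 1) = A x i - (Real.log (i + 1) - Real.log x) := by
  unfold A
  rw [a_succ, Real.log_mul (a_pos hx i).ne' (by positivity),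
    Real.log_div hx.ne' (by positivity)]
  ring

lemma a_anti (hx : 0 < x) (hx1 : x ≤ 1) : Antitone (a x) := by
  apply antitone_nat_of_succ_le
  intro i
  rw [a_succ]
  have h1 := a_pos hx i
  have h2 : x / (i + 1) ≤ 1 := by
    rw [div_le_one (by positivity)]
    have : (0 : ℝ) ≤ i := Nat.cast_nonneg i
    linarith
  nlinarith

lemma A_anti (hx : 0 < x) (hx1 : x ≤ 1) : Antitone (A x) := by
  intro i j hij
  exact Real.log_le_log (a_pos hx j) (a_anti hx hx1 hij)

lemma a_succ_le (hx : 0 < x) (hx1 : x ≤ 1) {m : ℕ} (hm : 0 < m) :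
    a x (m + 1) ≤ a x m / m := by
  rw [a_succ, div_eq_mul_one_div (a x m)]
  apply mul_le_mul_of_nonneg_left _ (a_pos hx m).le
  have h1 : (0 : ℝ) < m := by exact_mod_cast hm
  apply div_le_div₀ (by norm_num) hx1 h1
  linarith

lemma a_add_le (hx : 0 < x) (hx1 : x ≤ 1) {m : ℕ} (hm : 0 < m) (i : ℕ) :
    a x (m + i) ≤ a x m * (1 / 2) ^ i := by
  induction i with
  | zero => simp
  | succ i ih =>
    have h1 : a x (m + (i + 1)) ≤ a x (m + i) * (1 / 2) := by
      rw [← add_assoc, a_succ]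
      apply mul_le_mul_of_nonneg_left _ (a_pos hx _).le
      apply div_le_div₀ (by norm_num) hx1 (by norm_num)
      have h2 : (1 : ℝ) ≤ ((m + i : ℕ) : ℝ) := by exact_mod_cast (by omega : 1 ≤ m + i)
      linarith
    calc a x (m + (i + 1)) ≤ a x (m + i) * (1 / 2) := h1
      _ ≤ (a x m * (1 / 2) ^ i) * (1 / 2) := by linarith
      _ = a x m * (1 / 2) ^ (i + 1) := by ring

lemma a_three (hx : 0 < x) (hx1 : x ≤ 1) {m : ℕ} (hm : 0 < m) :
    a x (m + 3) ≤ a x m / (m : ℝ) ^ 3 := by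
  have h0 : (0 : ℝ) < m := by exact_mod_cast hm
  have h1 := a_succ_le hx hx1 hm
  have h2 := a_succ_le hx hx1 (Nat.succ_pos m)
  have h3 := a_succ_le hx hx1 (Nat.succ_pos (m + 1))
  have e2 : a x (m + 1) / ((m.succ : ℕ) : ℝ) ≤ a x (m + 1) / m := by
    apply div_le_div_of_nonneg_left (a_pos hx _).le h0
    push_cast; linarith
  have e3 : a x (m + 1 + 1) / (((m + 1).succ : ℕ) : ℝ) ≤ a x (m + 1 + 1) / m := by
    apply div_le_div_of_nonneg_left (a_pos hx _).le h0
    push_cast; linarith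
  have f2 : a x (m + 2) ≤ a x (m + 1) / m := h2.trans e2
  have f3 : a x (m + 3) ≤ a x (m + 2) / m := h3.trans e3
  calc a x (m + 3) ≤ a x (m + 2) / m := f3
    _ ≤ (a x (m + 1) / m) / m := by gcongr
    _ ≤ ((a x m / m) / m) / m := by gcongr
    _ = a x m / (m : ℝ) ^ 3 := by field_simp

lemma summable_a (x : ℝ) : Summable (a x) := Real.summable_pow_div_factorial x

lemma tsum_tail_le (hx : 0 < x) (hx1 : x ≤ 1) {m : ℕ} (hm : 0 < m) :
    ∑' i, a x (i + m) ≤ 2 * a x m := by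
  have h1 : ∀ i, a x (i + m) ≤ a x m * (1 / 2) ^ i := by
    intro i
    rw [add_comm]
    exact a_add_le hx hx1 hm i
  have h2 : Summable fun i : ℕ => a x m * (1 / 2 : ℝ) ^ i :=
    (summable_geometric_of_lt_one (by norm_num) (by norm_num)).mul_left _
  have h3 := ((summable_nat_add_iff m).mpr (summable_a x)).tsum_le_tsum h1 h2
  rw [tsum_mul_left, tsum_geometric_of_lt_one (by norm_num) (by norm_num)] at h3
  linarith

/-- The exponent which moves the `i`-th term to the level `m`. -/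
noncomputable def k (x l : ℝ) (i m : ℕ) : ℕ := ⌈(A x i - A x m) / l⌉₊

/-- The `i`-th term moved to the level `m`. -/
noncomputable def w (x l : ℝ) (i m : ℕ) : ℝ := Real.exp (A x i - k x l i m * l)

lemma w_eq (hx : 0 < x) (i m : ℕ) : w x l i m = a x i * Real.exp (-l) ^ (k x l i m) := by
  unfold w
  rw [sub_eq_add_neg, Real.exp_add, exp_A hx, ← Real.exp_nat_mul]
  ring_nf

lemma w_le (hx : 0 < x) (hl : 0 < l) (i m : ℕ) : w x l i m ≤ a x m := by
  rw [← exp_A hx m]
  unfold w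
  rw [Real.exp_le_exp]
  have h1 : (A x i - A x m) / l ≤ k x l i m := Nat.le_ceil _
  rw [div_le_iff₀ hl] at h1
  linarith

lemma le_w (hx : 0 < x) (hx1 : x ≤ 1) (hl : 0 < l) {i m : ℕ} (him : i ≤ m) :
    Real.exp (-l) * a x m ≤ w x l i m := by
  rw [← exp_A hx m, ← Real.exp_add]
  unfold w
  rw [Real.exp_le_exp]
  have h0 : 0 ≤ (A x i - A x m) / l := div_nonneg (sub_nonneg.mpr (A_anti hx hx1 him)) hl.le
  have h1 : (k x l i m : ℝ) < (A x i - A x m) / l + 1 := Nat.ceil_lt_add_one h0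
  have h2 : (k x l i m : ℝ) * l < ((A x i - A x m) / l + 1) * l := mul_lt_mul_of_pos_right h1 hl
  have h3 : ((A x i - A x m) / l + 1) * l = A x i - A x m + l := by field_simp
  linarith

lemma exp_sub_le {u v c η : ℝ} (h : η ≤ v - u) (hη : 0 ≤ η) (hc0 : 0 ≤ c) (hc : c ≤ Real.exp u) :
    c * η ≤ Real.exp v - Real.exp u := by
  have h1 : Real.exp v = Real.exp u * Real.exp (v - u) := by
    rw [← Real.exp_add]; ring_nf
  have h2 : v - u + 1 ≤ Real.exp (v - u) := Real.add_one_le_exp _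
  have h3 : 0 < Real.exp u := Real.exp_pos u
  nlinarith

lemma w_sep (hx : 0 < x) (hx1 : x ≤ 1) (hl : 0 < l) {i i' m : ℕ} (him : i ≤ m) (him' : i' ≤ m)
    {η : ℝ} (hη : 0 ≤ η) (h : ∀ z : ℤ, η ≤ |A x i - A x i' - z * l|) :
    Real.exp (-l) * a x m * η ≤ |w x l i m - w x l i' m| := by
  have h1 := h ((k x l i m : ℤ) - (k x l i' m : ℤ))
  push_cast at h1
  have e : A x i - A x i' - ((k x l i m : ℝ) - (k x l i' m : ℝ)) * l
      = (A x i - k x l i m * l) - (A x i' - k x l i' m * l) := by ring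
  rw [e] at h1
  have hc0 : 0 ≤ Real.exp (-l) * a x m := mul_nonneg (Real.exp_pos _).le (a_pos hx m).le
  rcases le_total (A x i - k x l i m * l) (A x i' - k x l i' m * l) with hc | hc
  · rw [abs_sub_comm, abs_of_nonneg (by linarith)] at h1
    rw [abs_sub_comm]
    exact (exp_sub_le h1 hη hc0 (le_w hx hx1 hl him)).trans (le_abs_self _)
  · rw [abs_of_nonneg (by linarith)] at h1
    exact (exp_sub_le h1 hη hc0 (le_w hx hx1 hl him')).trans (le_abs_self _)

/-- The basic estimate. In the window `[n, n + 4 M)` the first `M` terms are moved to the levels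
`n + M + 3 τ` by two different permutations. -/
theorem core (hx : 0 < x) (hx1 : x ≤ 1) (hl : 0 < l) {n M : ℕ} (hn : 0 < n)
    {ρ ρ' : Equiv.Perm (Fin M)} {F F' : ℕ → ℝ}
    (h1 : ∀ i < n, F i = F' i)
    (h2 : ∀ t : Fin M, F (n + t) = w x l (n + t) (n + M + 3 * ρ t))
    (h2' : ∀ t : Fin M, F' (n + t) = w x l (n + t) (n + M + 3 * ρ' t))
    (h3 : ∀ t, M ≤ t → t < 4 * M → F (n + t) = F' (n + t))
    (h4 : ∀ i, 0 ≤ F i ∧ F i ≤ a x i) (h4' : ∀ i, 0 ≤ F' i ∧ F' i ≤ a x i)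
    (h5 : ρ ≠ ρ') {η : ℝ} (hη : 0 ≤ η)
    (h6 : ∀ t t' : Fin M, t ≠ t' → ∀ z : ℤ, η ≤ |A x (n + t) - A x (n + t') - z * l|)
    (h7 : ∀ m, n ≤ m → ((M : ℝ) + 2) * a x (m + 3) ≤ Real.exp (-l) * a x m * η / 2) :
    ∃ m, n ≤ m ∧ m < n + 4 * M ∧
      Real.exp (-l) * a x m * η / 2 ≤ |∑' i, F i - ∑' i, F' i| := by
  have hsF : Summable F := Summable.of_nonneg_of_le (fun i => (h4 i).1) (fun i => (h4 i).2)
    (summable_a x)
  have hsF' : Summable F' := Summable.of_nonneg_of_le (fun i => (h4' i).1) (fun i => (h4' i).2)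
    (summable_a x)
  -- the two finite parts
  have hfin : ∀ (G : ℕ → ℝ), ∑ i ∈ range (n + 4 * M), G i
      = ∑ i ∈ range n, G i + (∑ t : Fin M, G (n + t) + ∑ t ∈ range (3 * M), G (n + (M + t))) := by
    intro G
    rw [Finset.sum_range_add]
    congr 1
    rw [show 4 * M = M + 3 * M by ring, Finset.sum_range_add, Finset.sum_range]
  have hFsum : ∑ t : Fin M, F (n + t) = ∑ τ : Fin M, w x l (n + ρ.symm τ) (n + M + 3 * τ) := by
    rw [← Equiv.sum_comp ρ (fun τ : Fin M => w x l (n + ρ.symm τ) (n + M + 3 * τ))]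
    apply Finset.sum_congr rfl
    intro t _
    rw [h2 t, Equiv.symm_apply_apply]
  have hFsum' : ∑ t : Fin M, F' (n + t) = ∑ τ : Fin M, w x l (n + ρ'.symm τ) (n + M + 3 * τ) := by
    rw [← Equiv.sum_comp ρ' (fun τ : Fin M => w x l (n + ρ'.symm τ) (n + M + 3 * τ))]
    apply Finset.sum_congr rfl
    intro t _
    rw [h2' t, Equiv.symm_apply_apply]
  set δ : Fin M → ℝ := fun τ =>
    w x l (n + ρ.symm τ) (n + M + 3 * τ) - w x l (n + ρ'.symm τ) (n + M + 3 * τ) with hδ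
  set R : ℝ := ∑' i, F (i + (n + 4 * M)) - ∑' i, F' (i + (n + 4 * M)) with hR
  have hdiff : ∑' i, F i - ∑' i, F' i = ∑ τ, δ τ + R := by
    rw [← hsF.sum_add_tsum_nat_add (n + 4 * M), ← hsF'.sum_add_tsum_nat_add (n + 4 * M),
      hfin F, hfin F', hFsum, hFsum']
    have e1 : ∑ i ∈ range n, F i = ∑ i ∈ range n, F' i :=
      Finset.sum_congr rfl fun i hi => h1 i (Finset.mem_range.mp hi)
    have e2 : ∑ t ∈ range (3 * M), F (n + (M + t)) = ∑ t ∈ range (3 * M), F' (n + (M + t)) :=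
      Finset.sum_congr rfl fun t ht => h3 (M + t) (by omega) (by
        have := Finset.mem_range.mp ht
        omega)
    rw [e1, e2, hδ, Finset.sum_sub_distrib, hR]
    ring
  -- the first different target
  have hne : (Finset.univ.filter fun τ : Fin M => ρ.symm τ ≠ ρ'.symm τ).Nonempty := by
    by_contra hcon
    rw [Finset.not_nonempty_iff_eq_empty, Finset.filter_eq_empty_iff] at hcon
    apply h5
    have h8 : ρ.symm = ρ'.symm := by
      ext τ
      have := hcon (Finset.mem_univ τ)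
      push Not at this
      rw [this]
    have h9 := congrArg Equiv.symm h8
    simpa using h9
  set τ₀ := (Finset.univ.filter fun τ : Fin M => ρ.symm τ ≠ ρ'.symm τ).min' hne with hτ₀
  have hτmem : ρ.symm τ₀ ≠ ρ'.symm τ₀ := by
    have := Finset.min'_mem _ hne
    rw [Finset.mem_filter] at this
    exact this.2
  have hτlt : ∀ τ < τ₀, ρ.symm τ = ρ'.symm τ := by
    intro τ hτ
    by_contra hc
    have hmem : τ ∈ Finset.univ.filter fun τ : Fin M => ρ.symm τ ≠ ρ'.symm τ :=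
      Finset.mem_filter.mpr ⟨Finset.mem_univ τ, hc⟩
    have h8 := Finset.min'_le _ τ hmem
    exact absurd hτ (not_lt.mpr h8)
  set m : ℕ := n + M + 3 * τ₀ with hm
  have hτM := τ₀.2
  refine ⟨m, by omega, by omega, ?_⟩
  have hδ0 : Real.exp (-l) * a x m * η ≤ |δ τ₀| := by
    apply w_sep hx hx1 hl _ _ hη (h6 _ _ hτmem)
    · have := (ρ.symm τ₀).2
      omega
    · have := (ρ'.symm τ₀).2
      omega
  have hδle : ∀ τ ∈ Finset.univ.erase τ₀, |δ τ| ≤ a x (m + 3) := by
    intro τ hτ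
    rw [Finset.mem_erase] at hτ
    rcases lt_or_gt_of_ne hτ.1 with hlt | hgt
    · rw [hδ]
      simp only
      rw [hτlt τ hlt, sub_self, abs_zero]
      exact (a_pos hx _).le
    · have hgt' : (τ₀ : ℕ) + 1 ≤ (τ : ℕ) := hgt
      have hle : a x (n + M + 3 * τ) ≤ a x (m + 3) := a_anti hx hx1 (by omega)
      have p1 : 0 < w x l (n + ρ.symm τ) (n + M + 3 * τ) := Real.exp_pos _
      have p2 : 0 < w x l (n + ρ'.symm τ) (n + M + 3 * τ) := Real.exp_pos _
      have q1 := w_le (l := l) hx hl (n + ρ.symm τ) (n + M + 3 * τ)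
      have q2 := w_le (l := l) hx hl (n + ρ'.symm τ) (n + M + 3 * τ)
      rw [hδ]
      simp only
      rw [abs_le]
      constructor <;> linarith
  have hsum1 : |∑ τ ∈ Finset.univ.erase τ₀, δ τ| ≤ M * a x (m + 3) := by
    calc |∑ τ ∈ Finset.univ.erase τ₀, δ τ| ≤ ∑ τ ∈ Finset.univ.erase τ₀, |δ τ| :=
          Finset.abs_sum_le_sum_abs _ _
      _ ≤ (Finset.univ.erase τ₀).card • a x (m + 3) := Finset.sum_le_card_nsmul _ _ _ hδle
      _ ≤ M * a x (m + 3) := by
        rw [nsmul_eq_mul]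
        apply mul_le_mul_of_nonneg_right _ (a_pos hx _).le
        have := Finset.card_le_univ (Finset.univ.erase τ₀)
        rw [Fintype.card_fin] at this
        exact_mod_cast this
  have hRle : |R| ≤ 2 * a x (m + 3) := by
    have t1 : 0 ≤ ∑' i, F (i + (n + 4 * M)) := tsum_nonneg fun i => (h4 _).1
    have t1' : 0 ≤ ∑' i, F' (i + (n + 4 * M)) := tsum_nonneg fun i => (h4' _).1
    have s1 := (summable_nat_add_iff (n + 4 * M)).mpr hsF
    have s1' := (summable_nat_add_iff (n + 4 * M)).mpr hsF'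
    have sa := (summable_nat_add_iff (n + 4 * M)).mpr (summable_a x)
    have t2 := s1.tsum_le_tsum (fun i => (h4 (i + (n + 4 * M))).2) sa
    have t2' := s1'.tsum_le_tsum (fun i => (h4' (i + (n + 4 * M))).2) sa
    have t3 := tsum_tail_le hx hx1 (m := n + 4 * M) (by omega)
    have t4 : a x (n + 4 * M) ≤ a x (m + 3) := a_anti hx hx1 (by omega)
    rw [hR, abs_le]
    constructor <;> linarith
  have hsplit : ∑ τ, δ τ = δ τ₀ + ∑ τ ∈ Finset.univ.erase τ₀, δ τ :=
    (Finset.add_sum_erase _ _ (Finset.mem_univ τ₀)).symm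
  have h7m := h7 m (by omega)
  rw [hdiff, hsplit]
  have b1 : |δ τ₀| ≤ |δ τ₀ + ∑ τ ∈ Finset.univ.erase τ₀, δ τ + R|
      + |∑ τ ∈ Finset.univ.erase τ₀, δ τ| + |R| := by
    have c1 : δ τ₀ = (δ τ₀ + ∑ τ ∈ Finset.univ.erase τ₀, δ τ + R)
      - (∑ τ ∈ Finset.univ.erase τ₀, δ τ) - R := by ring
    calc |δ τ₀| = |(δ τ₀ + ∑ τ ∈ Finset.univ.erase τ₀, δ τ + R)
      - (∑ τ ∈ Finset.univ.erase τ₀, δ τ) - R| := by rw [← c1]
      _ ≤ |(δ τ₀ + ∑ τ ∈ Finset.univ.erase τ₀, δ τ + R)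
      - (∑ τ ∈ Finset.univ.erase τ₀, δ τ)| + |R| := abs_sub _ _
      _ ≤ _ := by
        have := abs_sub (δ τ₀ + ∑ τ ∈ Finset.univ.erase τ₀, δ τ + R)
          (∑ τ ∈ Finset.univ.erase τ₀, δ τ)
        linarith
  linarith

end Q91.ExpDim
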