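import Mathlib
import Pool.Agent.Q91.ExpDimA

/-!
# Counting the windows in which the logarithms of the terms are separated
-/

namespace Q91.ExpDim

open Finset Real

variable {x l : ℝ}

/-- The start of the window containing `i`. -/
def st (i : ℕ) : ℕ :=
  16 ^ Nat.log 16 i + 4 * 2 ^ Nat.log 16 i * ((i - 16 ^ Nat.log 16 i) / (4 * 2 ^ Nat.log 16 i))

/-- The number of windows in the scale `s`. -/
def J (s : ℕ) : ℕ := 15 * 16 ^ s / (4 * 2 ^ s)

lemma sixteen_pow (s : ℕ) : 16 ^ s = 2 ^ s * 8 ^ s := by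
  rw [← mul_pow]; norm_num

lemma J_mul {s : ℕ} (hs : 1 ≤ s) : 4 * 2 ^ s * J s = 15 * 16 ^ s := by
  unfold J
  apply Nat.mul_div_cancel'
  obtain ⟨r, rfl⟩ := Nat.exists_eq_add_of_le hs
  rw [sixteen_pow, pow_add 8 1 r]
  exact ⟨15 * (2 * 8 ^ r), by ring⟩

lemma log_window {s j u : ℕ} (hs : 1 ≤ s) (hj : j < J s) (hu : u < 4 * 2 ^ s) :
    Nat.log 16 (16 ^ s + 4 * 2 ^ s * j + u) = s := by
  rw [Nat.log_eq_iff (Or.inl (by omega))]
  constructor
  · omega
  · have h1 := J_mul hs
    have h2 : 4 * 2 ^ s * (j + 1) ≤ 4 * 2 ^ s * J s := Nat.mul_le_mul_left _ hj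
    rw [pow_succ]
    nlinarith

lemma st_window {s j u : ℕ} (hs : 1 ≤ s) (hj : j < J s) (hu : u < 4 * 2 ^ s) :
    st (16 ^ s + 4 * 2 ^ s * j + u) = 16 ^ s + 4 * 2 ^ s * j := by
  unfold st
  rw [log_window hs hj hu]
  have h1 : 16 ^ s + 4 * 2 ^ s * j + u - 16 ^ s = u + 4 * 2 ^ s * j := by omega
  rw [h1, Nat.add_mul_div_left _ _ (by positivity), Nat.div_eq_of_lt hu, zero_add]

/-- Every window start in a scale `s ≥ 1` has the standard form. -/
lemma st_form {n : ℕ} (hn : st n = n) (hs : 1 ≤ Nat.log 16 n) :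
    ∃ j < J (Nat.log 16 n), n = 16 ^ Nat.log 16 n + 4 * 2 ^ Nat.log 16 n * j := by
  set s := Nat.log 16 n with hsdef
  have hn0 : n ≠ 0 := by
    rintro rfl
    simp at hsdef
    omega
  have h1 : 16 ^ s ≤ n := Nat.pow_log_le_self 16 hn0
  have h2 : n < 16 ^ (s + 1) := Nat.lt_pow_succ_log_self (by norm_num) n
  refine ⟨(n - 16 ^ s) / (4 * 2 ^ s), ?_, ?_⟩
  · rw [Nat.div_lt_iff_lt_mul (by positivity), mul_comm, J_mul hs]
    rw [pow_succ] at h2
    omega
  · conv_lhs => rw [← hn]
    rfl

/-- Separation parameter of the scale `s`. -/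
noncomputable def sepη (s : ℕ) : ℝ := 1 / (4 * 16 ^ (s + 1))

lemma sepη_pos (s : ℕ) : 0 < sepη s := by unfold sepη; positivity

/-- The logarithms of the first terms of the window starting at `n` are separated modulo `l`. -/
def Sep (x l : ℝ) (n : ℕ) : Prop :=
  ∀ t t' : ℕ, t < 2 ^ Nat.log 16 n → t' < 2 ^ Nat.log 16 n → t ≠ t' → ∀ z : ℤ,
    sepη (Nat.log 16 n) ≤ |A x (n + t) - A x (n + t') - z * l|

lemma phi_nonneg (hx : 0 < x) (hx1 : x ≤ 1) (h i : ℕ) : 0 ≤ A x i - A x (i + h) :=
  sub_nonneg.mpr (A_anti hx hx1 (Nat.le_add_right i h))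

lemma phi_le (hx : 0 < x) (h i : ℕ) :
    A x i - A x (i + h) ≤ h * (Real.log (i + h) - Real.log x) := by
  induction h with
  | zero => simp
  | succ h ih =>
    rw [← add_assoc, A_succ hx]
    push_cast
    have h1 : Real.log ((i : ℝ) + h) ≤ Real.log (i + (h + 1)) := by
      rcases Nat.eq_zero_or_pos (i + h) with h0 | h0
      · have e : (i : ℝ) + h = 0 := by exact_mod_cast h0
        rw [← add_assoc, e]; simp
      · apply Real.log_le_log
        · exact_mod_cast h0
        · linarith
    have h2 : (0 : ℝ) ≤ h := Nat.cast_nonneg h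
    have h3 : (i : ℝ) + (h + 1) = i + h + 1 := by ring
    rw [h3] at h1 ⊢
    nlinarith

lemma phi_step (hx : 0 < x) {h i i' : ℕ} (hh : 1 ≤ h) (hi : i < i') :
    1 / ((i : ℝ) + h + 1) ≤ (A x i' - A x (i' + h)) - (A x i - A x (i + h)) := by
  have hstep : ∀ j : ℕ, (A x (j + 1) - A x (j + 1 + h)) - (A x j - A x (j + h))
      = Real.log (j + h + 1) - Real.log (j + 1) := by
    intro j
    rw [show j + 1 + h = j + h + 1 by ring, A_succ hx j, A_succ hx (j + h)]
    push_cast
    ring
  have hmono : ∀ j : ℕ, (A x j - A x (j + h)) ≤ (A x (j + 1) - A x (j + 1 + h)) := by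
    intro j
    have h1 := hstep j
    have h2 : Real.log ((j : ℝ) + 1) ≤ Real.log (j + h + 1) :=
      Real.log_le_log (by positivity) (by
        have : (0 : ℝ) ≤ h := Nat.cast_nonneg h
        linarith)
    linarith
  have hm := monotone_nat_of_le_succ hmono
  have h1 := hm hi
  simp only [Nat.succ_eq_add_one] at h1
  have h2 := hstep i
  have h3 : 1 / ((i : ℝ) + h + 1) ≤ Real.log (i + h + 1) - Real.log (i + 1) := by
    rw [← Real.log_div (by positivity) (by positivity)]
    have h4 := Real.one_sub_inv_le_log_of_pos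
      (x := ((i : ℝ) + h + 1) / (i + 1)) (by positivity)
    refine le_trans ?_ h4
    rw [inv_div, le_sub_iff_add_le, ← add_div, div_le_one (by positivity)]
    have : (1 : ℝ) ≤ h := by exact_mod_cast hh
    linarith
  linarith

/-- Few windows of the scale `s` are not separated. -/
lemma card_bad_le (hx : 0 < x) (hx1 : x ≤ 1) (hl : 0 < l) {s : ℕ} (hs : 1 ≤ s) {Z : ℕ}
    (hZ : (2 ^ s * ((s + 2) * Real.log 16 - Real.log x) + 1) / l ≤ Z)
    (B : Finset ℕ) (hB : ∀ n ∈ B, st n = n ∧ Nat.log 16 n = s ∧ ¬ Sep x l n) :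
    B.card ≤ 2 ^ s * (2 * Z + 1) := by
  classical
  set T : Finset (ℕ × ℤ) := range (2 ^ s) ×ˢ Finset.Icc (-(Z : ℤ)) Z with hT
  have hTc : T.card = 2 ^ s * (2 * Z + 1) := by
    rw [hT, Finset.card_product, Finset.card_range, Int.card_Icc]
    congr 1
    omega
  set f : ℕ × ℤ → Finset ℕ := fun p => B.filter fun n =>
    ∃ i, n ≤ i ∧ i < n + 2 ^ s ∧ 1 ≤ p.1 ∧ p.1 < 2 ^ s ∧
      |A x i - A x (i + p.1) - p.2 * l| < sepη s with hf
  have hsub : B ⊆ T.biUnion f := by
    intro n hn
    obtain ⟨hst, hlog, hsep⟩ := hB n hn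
    unfold Sep at hsep
    push Not at hsep
    rw [hlog] at hsep
    obtain ⟨t, t', ht, ht', hne, z, hz⟩ := hsep
    -- order the two indices
    have key : ∃ i h : ℕ, ∃ z : ℤ, n ≤ i ∧ i < n + 2 ^ s ∧ 1 ≤ h ∧ h < 2 ^ s ∧
        |A x i - A x (i + h) - z * l| < sepη s := by
      rcases lt_or_gt_of_ne hne with hlt | hgt
      · refine ⟨n + t, t' - t, z, by omega, by omega, by omega, by omega, ?_⟩
        have e : n + t + (t' - t) = n + t' := by omega
        rw [e]; exact hz
      · refine ⟨n + t', t - t', -z, by omega, by omega, by omega, by omega, ?_⟩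
        have e : n + t' + (t - t') = n + t := by omega
        rw [e]
        have e2 : A x (n + t') - A x (n + t) - ((-z : ℤ) : ℝ) * l
            = -(A x (n + t) - A x (n + t') - z * l) := by push_cast; ring
        rw [e2, abs_neg]; exact hz
    obtain ⟨i, h, z, hi1, hi2, hh1, hh2, hz⟩ := key
    have hn0 : n ≠ 0 := by
      rintro rfl
      simp at hlog
      omega
    have hnlt : n < 16 ^ (s + 1) := by
      rw [← hlog]; exact Nat.lt_pow_succ_log_self (by norm_num) n
    have hn1 : 16 ^ s ≤ n := by rw [← hlog]; exact Nat.pow_log_le_self 16 hn0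
    rw [Finset.mem_biUnion]
    refine ⟨(h, z), ?_, ?_⟩
    · rw [hT, Finset.mem_product, Finset.mem_range, Finset.mem_Icc]
      refine ⟨hh2, ?_⟩
      -- bound for z
      have p1 := phi_nonneg hx hx1 h i
      have p2 := phi_le hx h i
      have p3 : Real.log (i + h) ≤ (s + 2) * Real.log 16 := by
        have e : ((s : ℝ) + 2) * Real.log 16 = Real.log ((16 : ℝ) ^ (s + 2)) := by
          rw [Real.log_pow]; push_cast; ring
        rw [e]
        apply Real.log_le_log
        · have : 0 < i := by omega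
          have : (0 : ℝ) < i := by exact_mod_cast this
          positivity
        · have h5 : i + h ≤ 16 ^ (s + 2) := by
            have h6 : 2 ^ s ≤ 16 ^ s := Nat.pow_le_pow_left (by norm_num) s
            rw [pow_succ, pow_succ] at *
            omega
          exact_mod_cast h5
      have p4 : (0 : ℝ) ≤ (s + 2) * Real.log 16 - Real.log x := by
        have := Real.log_nonpos hx.le hx1
        have := Real.log_nonneg (x := 16) (by norm_num)
        nlinarith [Nat.cast_nonneg (α := ℝ) s]
      have p5 : A x i - A x (i + h) ≤ 2 ^ s * ((s + 2) * Real.log 16 - Real.log x) := by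
        have h8 : (h : ℝ) ≤ 2 ^ s := by exact_mod_cast hh2.le
        calc A x i - A x (i + h) ≤ h * (Real.log (i + h) - Real.log x) := p2
          _ ≤ h * ((s + 2) * Real.log 16 - Real.log x) := by
            apply mul_le_mul_of_nonneg_left _ (Nat.cast_nonneg h)
            linarith
          _ ≤ 2 ^ s * ((s + 2) * Real.log 16 - Real.log x) :=
            mul_le_mul_of_nonneg_right h8 p4
      have p6 : sepη s ≤ 1 := by
        unfold sepη
        rw [div_le_one (by positivity)]
        have : (1 : ℝ) ≤ 16 ^ (s + 1) := one_le_pow₀ (by norm_num)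
        linarith
      rw [div_le_iff₀ hl] at hZ
      have h9 := abs_lt.mp hz
      have q1 : (z : ℝ) * l ≤ Z * l := by linarith
      have q2 : -((Z : ℝ) * l) ≤ z * l := by linarith
      have r1 : (z : ℝ) ≤ Z := le_of_mul_le_mul_right q1 hl
      have r2 : -(Z : ℝ) ≤ z := by
        apply le_of_mul_le_mul_right _ hl
        linarith
      constructor
      · exact_mod_cast r2
      · exact_mod_cast r1
    · rw [hf, Finset.mem_filter]
      exact ⟨hn, i, hi1, hi2, hh1, hh2, hz⟩
  have hone : ∀ p ∈ T, (f p).card ≤ 1 := by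
    rintro ⟨h, z⟩ _
    rw [Finset.card_le_one]
    intro n hn n' hn'
    rw [hf, Finset.mem_filter] at hn hn'
    obtain ⟨hnB, i, hi1, hi2, hh1, hh2, hz⟩ := hn
    obtain ⟨hnB', i', hi1', hi2', _, _, hz'⟩ := hn'
    obtain ⟨hst, hlog, -⟩ := hB n hnB
    obtain ⟨hst', hlog', -⟩ := hB n' hnB'
    -- the position is determined
    have huniq : ∀ i₁ i₂ : ℕ, i₁ < 16 ^ (s + 1) → i₁ < i₂ →
        |A x i₁ - A x (i₁ + h) - z * l| < sepη s → |A x i₂ - A x (i₂ + h) - z * l| < sepη s →
        False := by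
      intro i₁ i₂ hb hlt c1 c2
      have c3 := phi_step hx hh1 hlt
      have c4 := abs_lt.mp c1
      have c5 := abs_lt.mp c2
      have c6 : 2 * sepη s ≤ 1 / ((i₁ : ℝ) + h + 1) := by
        unfold sepη
        rw [← mul_div_assoc, div_le_div_iff₀ (by positivity) (by positivity)]
        have d1 : i₁ + h + 1 ≤ 2 * 16 ^ (s + 1) := by
          have h6 : 2 ^ s ≤ 16 ^ s := Nat.pow_le_pow_left (by norm_num) s
          have h7 : 1 ≤ 16 ^ s := Nat.one_le_pow _ _ (by norm_num)
          rw [pow_succ] at *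
          simp only at hh2
          omega
        have d2 : (i₁ : ℝ) + h + 1 ≤ 2 * 16 ^ (s + 1) := by exact_mod_cast d1
        linarith
      linarith
    have hform := st_form hst (by rw [hlog]; exact hs)
    have hform' := st_form hst' (by rw [hlog']; exact hs)
    rw [hlog] at hform
    rw [hlog'] at hform'
    obtain ⟨j, hj, hnj⟩ := hform
    obtain ⟨j', hj', hnj'⟩ := hform'
    have w1 : st i = n := by
      have := st_window (u := i - n) hs hj (by omega)
      rw [← hnj, show n + (i - n) = i by omega] at this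
      exact this
    have w1' : st i' = n' := by
      have := st_window (u := i' - n') hs hj' (by omega)
      rw [← hnj', show n' + (i' - n') = i' by omega] at this
      exact this
    have v1 : i < 16 ^ (s + 1) := by
      have := log_window (u := i - n) hs hj (by omega)
      rw [← hnj, show n + (i - n) = i by omega] at this
      rw [← this]; exact Nat.lt_pow_succ_log_self (by norm_num) i
    have v1' : i' < 16 ^ (s + 1) := by
      have := log_window (u := i' - n') hs hj' (by omega)
      rw [← hnj', show n' + (i' - n') = i' by omega] at this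
      rw [← this]; exact Nat.lt_pow_succ_log_self (by norm_num) i'
    rcases lt_trichotomy i i' with hc | hc | hc
    · exact (huniq i i' v1 hc hz hz').elim
    · rw [← w1, ← w1', hc]
    · exact (huniq i' i v1' hc hz' hz).elim
  calc B.card ≤ (T.biUnion f).card := Finset.card_le_card hsub
    _ ≤ T.card * 1 := Finset.card_biUnion_le_card_mul _ _ _ hone
    _ = 2 ^ s * (2 * Z + 1) := by rw [mul_one, hTc]

/-- Most windows of the scale `s` are separated. -/
lemma card_sep_ge (hx : 0 < x) (hx1 : x ≤ 1) (hl : 0 < l) {s : ℕ} (hs : 1 ≤ s) {Z : ℕ}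
    (hZ : (2 ^ s * ((s + 2) * Real.log 16 - Real.log x) + 1) / l ≤ Z)
    (hZ2 : 4 * (2 ^ s * (2 * Z + 1)) ≤ 3 * 8 ^ s)
    (G : Finset ℕ) (hG : ∀ n, st n = n → Nat.log 16 n = s → Sep x l n → n ∈ G) :
    3 * 8 ^ s ≤ G.card := by
  classical
  set F : Finset ℕ := (range (J s)).image fun j => 16 ^ s + 4 * 2 ^ s * j with hF
  have hFc : F.card = J s := by
    rw [hF, Finset.card_image_of_injective, Finset.card_range]
    intro j j' h
    simp only at h
    have h2 : 0 < 4 * 2 ^ s := by positivity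
    have h3 : 4 * 2 ^ s * j = 4 * 2 ^ s * j' := by omega
    exact Nat.eq_of_mul_eq_mul_left h2 h3
  have hFst : ∀ n ∈ F, st n = n ∧ Nat.log 16 n = s := by
    intro n hn
    rw [hF, Finset.mem_image] at hn
    obtain ⟨j, hj, rfl⟩ := hn
    rw [Finset.mem_range] at hj
    exact ⟨st_window (u := 0) hs hj (by positivity), log_window (u := 0) hs hj (by positivity)⟩
  have hbad := card_bad_le hx hx1 hl hs hZ (F.filter fun n => ¬ Sep x l n) (by
    intro n hn
    rw [Finset.mem_filter] at hn
    exact ⟨(hFst n hn.1).1, (hFst n hn.1).2, hn.2⟩)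
  have hgood : (F.filter fun n => Sep x l n) ⊆ G := by
    intro n hn
    rw [Finset.mem_filter] at hn
    exact hG n (hFst n hn.1).1 (hFst n hn.1).2 hn.2
  have h1 := Finset.card_le_card hgood
  have h2 := Finset.card_filter_add_card_filter_not (s := F) (fun n => Sep x l n)
  have h3 : 4 * J s = 15 * 8 ^ s := by
    have h4 := J_mul hs
    rw [sixteen_pow] at h4
    have h5 : 0 < 2 ^ s := by positivity
    have h6 : 2 ^ s * (4 * J s) = 2 ^ s * (15 * 8 ^ s) := by linarith
    exact Nat.eq_of_mul_eq_mul_left h5 h6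
  omega

end Q91.ExpDim
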