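import Mathlib
import Pool.Agent.Q91.ExpDimB

/-!
# The exponential series at a compact set with two nonzero points has positive dimension
-/

namespace Q91.ExpDim

open Finset Real Filter Topology

variable {x l : ℝ}

/-- The number of binary digits which are stored in a window of the scale `s`. -/
def β (s : ℕ) : ℕ := (s - 1) * 2 ^ (s - 1)

lemma two_pow_beta_le (s : ℕ) : 2 ^ β s ≤ (2 ^ s).factorial := by
  rcases s with _ | s
  · simp [β]
  · simp only [β, Nat.add_sub_cancel]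
    rw [pow_mul]
    have h := Nat.factorial_mul_pow_le_factorial (m := 2 ^ s) (n := 2 ^ s)
    have e : 2 ^ (s + 1) = 2 ^ s + 2 ^ s := by ring
    rw [e]
    refine le_trans ?_ h
    exact (Nat.pow_le_pow_left (Nat.le_succ _) _).trans
      (Nat.le_mul_of_pos_left _ (Nat.factorial_pos _))

lemma exists_enc (s : ℕ) : Nonempty ((Fin (β s) → Bool) ↪ Equiv.Perm (Fin (2 ^ s))) := by
  apply Function.Embedding.nonempty_of_card_le
  rw [Fintype.card_perm, Fintype.card_fin, Fintype.card_fun, Fintype.card_bool, Fintype.card_fin]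
  exact two_pow_beta_le s

/-- A choice of a permutation for every block of digits. -/
noncomputable def enc (s : ℕ) : (Fin (β s) → Bool) ↪ Equiv.Perm (Fin (2 ^ s)) :=
  (exists_enc s).some

/-- The windows which are used. -/
def Good (x l : ℝ) (s₁ n : ℕ) : Prop := st n = n ∧ s₁ ≤ Nat.log 16 n ∧ Sep x l n

open Classical in
/-- The number of digits used before `n`. -/
noncomputable def b (x l : ℝ) (s₁ n : ℕ) : ℕ :=
  ∑ m ∈ range n, if Good x l s₁ m then β (Nat.log 16 m) else 0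

open Classical in
/-- The exponent at the position `n + u` of the window starting at `n`. -/
noncomputable def κw (x l : ℝ) (s₁ : ℕ) (d : ℕ → Bool) (n u : ℕ) : ℕ :=
  if h : Good x l s₁ n ∧ u < 2 ^ Nat.log 16 n then
    k x l (n + u) (n + 2 ^ Nat.log 16 n +
      3 * (enc (Nat.log 16 n) (fun t => d (b x l s₁ n + t)) ⟨u, h.2⟩ : ℕ))
  else 0

/-- The exponent at the position `i`. -/
noncomputable def κ (x l : ℝ) (s₁ : ℕ) (d : ℕ → Bool) (i : ℕ) : ℕ :=
  κw x l s₁ d (st i) (i - st i)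

lemma b_succ (x l : ℝ) (s₁ n : ℕ) [Decidable (Good x l s₁ n)] :
    b x l s₁ (n + 1) = b x l s₁ n + if Good x l s₁ n then β (Nat.log 16 n) else 0 := by
  unfold b
  rw [Finset.sum_range_succ]
  congr 1
  by_cases h : Good x l s₁ n
  · rw [if_pos h, if_pos h]
  · rw [if_neg h, if_neg h]

lemma b_mono (x l : ℝ) (s₁ : ℕ) : Monotone (b x l s₁) := by
  classical
  apply monotone_nat_of_le_succ
  intro n
  rw [b_succ]
  exact Nat.le_add_right _ _

lemma b_succ_le {s₁ m n : ℕ} (h : Good x l s₁ m) (hmn : m < n) :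
    b x l s₁ m + β (Nat.log 16 m) ≤ b x l s₁ n := by
  classical
  have h1 := b_succ x l s₁ m
  rw [if_pos h] at h1
  rw [← h1]
  exact b_mono x l s₁ hmn

lemma st_le (i : ℕ) (hi : i ≠ 0) : st i ≤ i := by
  unfold st
  have h1 : 16 ^ Nat.log 16 i ≤ i := Nat.pow_log_le_self 16 hi
  have h2 := Nat.mul_div_le (i - 16 ^ Nat.log 16 i) (4 * 2 ^ Nat.log 16 i)
  omega

/-- The conditions on the scales which are used. -/
def Cond (x l : ℝ) (s₁ : ℕ) : Prop :=
  9 ≤ s₁ ∧ ∀ s : ℕ, s₁ ≤ s →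
    128 * ((2 : ℝ) ^ s + 2) ≤ Real.exp (-l) * 16 ^ (2 * s) ∧
    16 ≤ x * 16 ^ (s + 1) ∧ 8 * Real.exp l ≤ 16 ^ (s + 1) ∧
    4 * 2 ^ s * ((s + 2) * Real.log 16 - Real.log x) / l ≤ 16 ^ s ∧
    ∃ Z : ℕ, (2 ^ s * ((s + 2) * Real.log 16 - Real.log x) + 1) / l ≤ Z ∧
      4 * (2 ^ s * (2 * Z + 1)) ≤ 3 * 8 ^ s

lemma ev (c : ℝ) : ∀ᶠ s : ℕ in atTop, c * ((s + 3) * 2 ^ s) ≤ 4 ^ s := by
  have h1 : Tendsto (fun s : ℕ => (s : ℝ) * (1 / 2) ^ s) atTop (𝓝 0) :=
    tendsto_self_mul_const_pow_of_lt_one (by norm_num) (by norm_num)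
  have h2 : Tendsto (fun s : ℕ => (1 / 2 : ℝ) ^ s) atTop (𝓝 0) :=
    tendsto_pow_atTop_nhds_zero_of_lt_one (by norm_num) (by norm_num)
  have h3 : Tendsto (fun s : ℕ => c * ((s : ℝ) * (1 / 2) ^ s + 3 * (1 / 2) ^ s)) atTop (𝓝 0) := by
    have := (h1.add (h2.const_mul 3)).const_mul c
    simpa using this
  filter_upwards [h3.eventually (eventually_le_nhds (show (0 : ℝ) < 1 by norm_num))] with s hs
  have e1 : (4 : ℝ) ^ s = 2 ^ s * 2 ^ s := by rw [← mul_pow]; norm_num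
  have e2 : (1 / 2 : ℝ) ^ s * 2 ^ s = 1 := by rw [← mul_pow]; norm_num
  have e3 : (0 : ℝ) < 2 ^ s := by positivity
  have e4 : c * ((s + 3) * 2 ^ s) = c * ((s : ℝ) * (1 / 2) ^ s + 3 * (1 / 2) ^ s) * (2 ^ s * 2 ^ s) := by
    calc c * (((s : ℝ) + 3) * 2 ^ s) = c * ((s + 3) * 2 ^ s) * ((1 / 2 : ℝ) ^ s * 2 ^ s) := by
          rw [e2, mul_one]
      _ = _ := by ring
  rw [e1, e4]
  have e5 : (0 : ℝ) < 2 ^ s * 2 ^ s := by positivity
  nlinarith

lemma exists_cond (hx : 0 < x) (hx1 : x ≤ 1) (hl : 0 < l) : ∃ s₁, Cond x l s₁ := by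
  set Λ : ℝ := Real.log 16 - Real.log x with hΛ
  have hlx : Real.log x ≤ 0 := Real.log_nonpos hx.le hx1
  have hl16 : 0 < Real.log 16 := Real.log_pos (by norm_num)
  have hΛ0 : 0 < Λ := by linarith
  set c : ℝ := 384 * Real.exp l + 16 / x + 4 * Λ / l + (8 * Λ / l + 8 / l + 12) with hc
  have c1 : 0 < 384 * Real.exp l := by positivity
  have c2 : 0 < 16 / x := by positivity
  have c3 : 0 < 4 * Λ / l := by positivity
  have c4 : 0 < 8 * Λ / l := by positivity
  have c5 : 0 < 8 / l := by positivity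
  obtain ⟨s₁, hs₁⟩ := (((ev c).and (eventually_ge_atTop 9))).exists_forall_of_atTop
  refine ⟨s₁, (hs₁ s₁ le_rfl).2, ?_⟩
  intro s hs
  have hcs := (hs₁ s hs).1
  have g1 : (1 : ℝ) ≤ 2 ^ s := one_le_pow₀ (by norm_num)
  have g2 : (0 : ℝ) ≤ s := Nat.cast_nonneg s
  have g3 : (1 : ℝ) ≤ (s + 3) * 2 ^ s := by nlinarith
  have g4 : (4 : ℝ) ^ s ≤ 16 ^ s := pow_le_pow_left₀ (by norm_num) (by norm_num) s
  have g5 : (16 : ℝ) ^ s ≤ 16 ^ (s + 1) := pow_le_pow_right₀ (by norm_num) (Nat.le_succ s)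
  have g6 : (16 : ℝ) ^ s ≤ 16 ^ (2 * s) := pow_le_pow_right₀ (by norm_num) (by omega)
  have hK : (s + 2) * Real.log 16 - Real.log x ≤ (s + 3) * Λ := by
    rw [hΛ]; nlinarith
  have hK0 : 0 ≤ (s + 2) * Real.log 16 - Real.log x := by nlinarith
  -- every partial constant
  have hpart : ∀ c' : ℝ, c' ≤ c → c' * ((s + 3) * 2 ^ s) ≤ 4 ^ s := by
    intro c' hc'
    refine le_trans ?_ hcs
    apply mul_le_mul_of_nonneg_right hc'
    linarith
  have hpart1 : ∀ c' : ℝ, 0 ≤ c' → c' ≤ c → c' ≤ 4 ^ s := by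
    intro c' hc0 hc'
    have := hpart c' hc'
    nlinarith
  refine ⟨?_, ?_, ?_, ?_, ?_⟩
  · have h1 := hpart (384 * Real.exp l) (by rw [hc]; linarith)
    have h2 : Real.exp (-l) * Real.exp l = 1 := by rw [← Real.exp_add]; simp
    have h3 : 128 * ((2 : ℝ) ^ s + 2) ≤ 384 * ((s + 3) * 2 ^ s) := by nlinarith
    have h4 : 0 < Real.exp (-l) := Real.exp_pos _
    calc 128 * ((2 : ℝ) ^ s + 2) ≤ 384 * ((s + 3) * 2 ^ s) := h3
      _ = Real.exp (-l) * (384 * Real.exp l * ((s + 3) * 2 ^ s)) := by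
        linear_combination (-(384 * ((s + 3) * 2 ^ s))) * h2
      _ ≤ Real.exp (-l) * 4 ^ s := mul_le_mul_of_nonneg_left h1 h4.le
      _ ≤ Real.exp (-l) * 16 ^ (2 * s) := mul_le_mul_of_nonneg_left (g4.trans g6) h4.le
  · have h1 := hpart1 (16 / x) c2.le (by rw [hc]; linarith)
    have h2 : 16 / x ≤ 16 ^ (s + 1) := h1.trans (g4.trans g5)
    rw [div_le_iff₀ hx] at h2
    linarith
  · have h1 := hpart1 (8 * Real.exp l) (by positivity) (by
      rw [hc]; nlinarith [Real.exp_pos l])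
    exact h1.trans (g4.trans g5)
  · have h1 := hpart (4 * Λ / l) (by rw [hc]; linarith)
    refine le_trans ?_ (h1.trans g4)
    rw [div_mul_eq_mul_div]
    apply div_le_div_of_nonneg_right _ hl.le
    nlinarith
  · refine ⟨⌈(2 ^ s * ((s + 2) * Real.log 16 - Real.log x) + 1) / l⌉₊, Nat.le_ceil _, ?_⟩
    have h0 : 0 ≤ (2 ^ s * ((s + 2) * Real.log 16 - Real.log x) + 1) / l := by positivity
    have h1 := (Nat.ceil_lt_add_one h0).le
    set Z := ⌈(2 ^ s * ((s + 2) * Real.log 16 - Real.log x) + 1) / l⌉₊ with hZ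
    have h2 := hpart (8 * Λ / l + 8 / l + 12) (by rw [hc]; linarith)
    have h3 : (2 ^ s * ((s + 2) * Real.log 16 - Real.log x) + 1) / l
        ≤ (Λ / l + 1 / l) * ((s + 3) * 2 ^ s) := by
      have e : (Λ / l + 1 / l) * ((s + 3) * 2 ^ s) = ((Λ + 1) * ((s + 3) * 2 ^ s)) / l := by ring
      rw [e]
      apply div_le_div_of_nonneg_right _ hl.le
      nlinarith
    have h4 : 4 * (2 * (Z : ℝ) + 1) ≤ 4 ^ s := by
      have e1 : 4 * (2 * (Z : ℝ) + 1) ≤ 8 * ((Λ / l + 1 / l) * ((s + 3) * 2 ^ s)) + 12 := by linarith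
      have e2 : 8 * ((Λ / l + 1 / l) * ((s + 3) * 2 ^ s)) + 12
          ≤ (8 * Λ / l + 8 / l + 12) * ((s + 3) * 2 ^ s) := by
        have e3 : 8 * Λ / l = 8 * (Λ / l) := by ring
        have e4 : 8 / l = 8 * (1 / l) := by ring
        rw [e3, e4]
        nlinarith
      linarith
    have h5 : 4 * (2 * Z + 1) ≤ 4 ^ s := by exact_mod_cast h4
    have h6 : (8 : ℕ) ^ s = 2 ^ s * 4 ^ s := by rw [← mul_pow]; norm_num
    rw [h6]
    have h7 : 2 ^ s * (4 * (2 * Z + 1)) ≤ 2 ^ s * 4 ^ s := Nat.mul_le_mul_left _ h5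
    generalize 2 ^ s * 4 ^ s = q at *
    linarith

section

variable {s₁ : ℕ}

lemma good_pos (hC : Cond x l s₁) {n : ℕ} (hn : Good x l s₁ n) : 0 < n := by
  rcases Nat.eq_zero_or_pos n with h | h
  · obtain ⟨-, h2, -⟩ := hn
    rw [h] at h2
    simp at h2
    have := hC.1
    omega
  · exact h

lemma good_window (hC : Cond x l s₁) {n : ℕ} (hn : Good x l s₁ n) {u : ℕ}
    (hu : u < 4 * 2 ^ Nat.log 16 n) : st (n + u) = n := by
  obtain ⟨j, hj, hnj⟩ := st_form hn.1 (by have := hC.1; have := hn.2.1; omega)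
  have := st_window (u := u) (by have := hC.1; have := hn.2.1; omega) hj hu
  rwa [← hnj] at this

lemma good_window_lt (hC : Cond x l s₁) {n : ℕ} (hn : Good x l s₁ n) {u : ℕ}
    (hu : u < 4 * 2 ^ Nat.log 16 n) : n + u < 16 ^ (Nat.log 16 n + 1) := by
  obtain ⟨j, hj, hnj⟩ := st_form hn.1 (by have := hC.1; have := hn.2.1; omega)
  have h1 := log_window (u := u) (by have := hC.1; have := hn.2.1; omega) hj hu
  rw [← hnj] at h1
  have h2 := Nat.lt_pow_succ_log_self (b := 16) (by norm_num) (n + u)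
  rw [h1] at h2
  exact h2

lemma κ_window (hC : Cond x l s₁) {n : ℕ} (hn : Good x l s₁ n) {u : ℕ}
    (hu : u < 4 * 2 ^ Nat.log 16 n) (d : ℕ → Bool) : κ x l s₁ d (n + u) = κw x l s₁ d n u := by
  unfold κ
  rw [good_window hC hn hu, Nat.add_sub_cancel_left]

lemma κ_le (hx : 0 < x) (hx1 : x ≤ 1) (hl : 0 < l) (hC : Cond x l s₁) (d : ℕ → Bool) (i : ℕ) :
    κ x l s₁ d i ≤ i := by
  rcases Nat.eq_zero_or_pos i with h0 | h0
  · have e : st i = 1 := by rw [h0]; simp [st]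
    unfold κ κw
    rw [e, dif_neg]
    · exact Nat.zero_le _
    · rintro ⟨⟨-, h2, -⟩, -⟩
      simp at h2
      have := hC.1
      omega
  unfold κ κw
  have hle := st_le i h0.ne'
  split_ifs with h
  · set n := st i with hn
    set s := Nat.log 16 n with hs
    set τ := enc s (fun t => d (b x l s₁ n + t)) ⟨i - n, h.2⟩ with hτ
    have hτ2 := τ.2
    have e : n + (i - n) = i := by omega
    rw [e]
    unfold k
    rw [Nat.ceil_le]
    have hgood := h.1
    have hlt := good_window_lt hC hgood (u := 2 ^ s + 3 * τ) (by rw [← hs]; omega)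
    rw [← hs, ← add_assoc] at hlt
    have h2 := (hC.2 s hgood.2.1).2.2.2.1
    have hi : ((n + 2 ^ s + 3 * τ - i : ℕ) : ℝ) ≤ 4 * 2 ^ s := by
      have : n + 2 ^ s + 3 * τ - i ≤ 4 * 2 ^ s := by omega
      exact_mod_cast this
    have hphi := phi_le (x := x) hx (n + 2 ^ s + 3 * τ - i) i
    have hu := h.2
    have e3 : i + (n + 2 ^ s + 3 * τ - i) = n + 2 ^ s + 3 * τ := by omega
    have e4 : (i : ℝ) + ((n + 2 ^ s + 3 * τ - i : ℕ) : ℝ) = ((n + 2 ^ s + 3 * τ : ℕ) : ℝ) := by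
      exact_mod_cast e3
    rw [e3, e4] at hphi
    have hlog : Real.log ((n + 2 ^ s + 3 * τ : ℕ) : ℝ) ≤ (s + 2) * Real.log 16 := by
      have e5 : ((s : ℝ) + 2) * Real.log 16 = Real.log ((16 : ℝ) ^ (s + 2)) := by
        rw [Real.log_pow]; push_cast; ring
      rw [e5]
      apply Real.log_le_log
      · have : 0 < n + 2 ^ s + 3 * τ := by positivity
        exact_mod_cast this
      · have h5 : n + 2 ^ s + 3 * τ ≤ 16 ^ (s + 2) :=
          hlt.le.trans (Nat.pow_le_pow_right (by norm_num) (Nat.le_succ _))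
        exact_mod_cast h5
    have hn16 : 16 ^ s ≤ i := by
      have : 16 ^ s ≤ n := Nat.pow_log_le_self 16 (good_pos hC hgood).ne'
      omega
    have hn16' : (16 : ℝ) ^ s ≤ i := by exact_mod_cast hn16
    refine le_trans ?_ (h2.trans hn16')
    apply div_le_div_of_nonneg_right _ hl.le
    calc A x i - A x (n + 2 ^ s + 3 * τ)
        ≤ ((n + 2 ^ s + 3 * τ - i : ℕ) : ℝ) *
          (Real.log ((n + 2 ^ s + 3 * τ : ℕ) : ℝ) - Real.log x) := hphi
      _ ≤ ((n + 2 ^ s + 3 * τ - i : ℕ) : ℝ) * ((s + 2) * Real.log 16 - Real.log x) := by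
        apply mul_le_mul_of_nonneg_left _ (Nat.cast_nonneg _)
        linarith
      _ ≤ 4 * 2 ^ s * ((s + 2) * Real.log 16 - Real.log x) := by
        apply mul_le_mul_of_nonneg_right hi
        have h9 : Real.log x ≤ 0 := Real.log_nonpos hx.le hx1
        have h10 : 0 ≤ Real.log 16 := Real.log_nonneg (by norm_num)
        have h11 : (0 : ℝ) ≤ s := Nat.cast_nonneg s
        nlinarith
  · exact Nat.zero_le _

end

end Q91.ExpDim
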