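import Mathlib
import Pool.Agent.Q91.ExpDimC

/-!
# The exponential series at a compact set with two nonzero points has positive dimension:
the dimension estimate
-/

namespace Q91.ExpDim

open Finset Real Filter Topology

variable {x l : ℝ} {s₁ : ℕ}

/-- The point of the image which is coded by the binary sequence `d`. -/
noncomputable def pt (x l : ℝ) (s₁ : ℕ) (d : ℕ → Bool) : ℝ :=
  ∑' i, a x i * Real.exp (-l) ^ κ x l s₁ d i

/-- Many digits are used before the scale `s + 1`. -/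
lemma le_b (hx : 0 < x) (hx1 : x ≤ 1) (hl : 0 < l) (hC : Cond x l s₁) {s : ℕ} (hs : s₁ ≤ s) :
    3 * 8 ^ s * β s ≤ b x l s₁ (16 ^ (s + 1)) := by
  classical
  obtain ⟨Z, hZ1, hZ2⟩ := (hC.2 s hs).2.2.2.2
  set G : Finset ℕ := (range (16 ^ (s + 1))).filter fun n => Good x l s₁ n ∧ Nat.log 16 n = s
    with hG
  have hcard := card_sep_ge hx hx1 hl (by have := hC.1; omega) hZ1 hZ2 G (by
    intro n h1 h2 h3
    rw [hG, Finset.mem_filter, Finset.mem_range]
    refine ⟨?_, ⟨h1, by omega, h3⟩, h2⟩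
    rw [← h2]
    exact Nat.lt_pow_succ_log_self (by norm_num) n)
  calc 3 * 8 ^ s * β s ≤ G.card * β s := Nat.mul_le_mul_right _ hcard
    _ = ∑ n ∈ G, β s := by rw [Finset.sum_const, smul_eq_mul]
    _ = ∑ n ∈ G, (if Good x l s₁ n then β (Nat.log 16 n) else 0) := by
      apply Finset.sum_congr rfl
      intro n hn
      rw [hG, Finset.mem_filter] at hn
      rw [if_pos hn.2.1, hn.2.2]
    _ ≤ ∑ n ∈ range (16 ^ (s + 1)), (if Good x l s₁ n then β (Nat.log 16 n) else 0) :=
      Finset.sum_le_sum_of_subset (Finset.filter_subset _ _)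
    _ = b x l s₁ (16 ^ (s + 1)) := by
      unfold b
      apply Finset.sum_congr rfl
      intro n _
      congr

lemma self_le_eight_pow (s : ℕ) : s ≤ 8 ^ s := (Nat.lt_pow_self (by norm_num)).le

/-- Every digit is used. -/
lemma exists_lt_b (hx : 0 < x) (hx1 : x ≤ 1) (hl : 0 < l) (hC : Cond x l s₁) (p : ℕ) :
    ∃ n, p < b x l s₁ n := by
  refine ⟨16 ^ (s₁ + p + 1), ?_⟩
  have h1 := le_b hx hx1 hl hC (s := s₁ + p) (by omega)
  have h2 := self_le_eight_pow (s₁ + p)
  have h3 : 1 ≤ β (s₁ + p) := by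
    unfold β
    have := hC.1
    have h4 : 1 ≤ 2 ^ (s₁ + p - 1) := Nat.one_le_pow _ _ (by norm_num)
    have h5 : 1 ≤ s₁ + p - 1 := by omega
    nlinarith
  have := hC.1
  nlinarith

lemma exists_window (hx : 0 < x) (hx1 : x ≤ 1) (hl : 0 < l) (hC : Cond x l s₁) (p : ℕ) :
    ∃ n, Good x l s₁ n ∧ b x l s₁ n ≤ p ∧ p < b x l s₁ n + β (Nat.log 16 n) := by
  classical
  have hex := exists_lt_b hx hx1 hl hC p
  set N := Nat.find hex with hN
  have h1 : p < b x l s₁ N := Nat.find_spec hex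
  have h0 : N ≠ 0 := by
    intro h
    rw [h] at h1
    simp [b] at h1
  obtain ⟨n, hn⟩ := Nat.exists_eq_succ_of_ne_zero h0
  have h2 : b x l s₁ n ≤ p := by
    by_contra hc
    push Not at hc
    exact Nat.find_min hex (by omega : n < N) hc
  rw [hn, Nat.succ_eq_add_one, b_succ] at h1
  by_cases hg : Good x l s₁ n
  · rw [if_pos hg] at h1
    exact ⟨n, hg, h2, h1⟩
  · rw [if_neg hg] at h1
    omega

/-- Two codes with the first difference at `p` give different points with a good bound. -/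
lemma dist_pt (hx : 0 < x) (hx1 : x ≤ 1) (hl : 0 < l) (hC : Cond x l s₁) {d d' : ℕ → Bool}
    {p n : ℕ} (hdd : ∀ i < p, d i = d' i) (hne : d p ≠ d' p) (hn : Good x l s₁ n)
    (hb1 : b x l s₁ n ≤ p) (hb2 : p < b x l s₁ n + β (Nat.log 16 n)) :
    ∃ m, n ≤ m ∧ m < 16 ^ (Nat.log 16 n + 1) ∧
      Real.exp (-l) * a x m * sepη (Nat.log 16 n) / 2 ≤ |pt x l s₁ d - pt x l s₁ d'| := by
  classical
  set s := Nat.log 16 n with hs
  have hspos : 1 ≤ 2 ^ s := Nat.one_le_pow _ _ (by norm_num)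
  set bl : Fin (β s) → Bool := fun t => d (b x l s₁ n + t) with hbl
  set bl' : Fin (β s) → Bool := fun t => d' (b x l s₁ n + t) with hbl'
  have hblne : bl ≠ bl' := by
    intro h
    have h1 := congrFun h ⟨p - b x l s₁ n, by omega⟩
    simp only [hbl, hbl'] at h1
    rw [show b x l s₁ n + (p - b x l s₁ n) = p by omega] at h1
    exact hne h1
  have hF : ∀ (e : ℕ → Bool) (i : ℕ), 0 ≤ a x i * Real.exp (-l) ^ κ x l s₁ e i ∧
      a x i * Real.exp (-l) ^ κ x l s₁ e i ≤ a x i := by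
    intro e i
    have h1 := a_pos hx i
    have h2 : Real.exp (-l) ^ κ x l s₁ e i ≤ 1 := by
      apply pow_le_one₀ (Real.exp_pos _).le
      rw [Real.exp_le_one_iff]; linarith
    have h3 : 0 < Real.exp (-l) ^ κ x l s₁ e i := by positivity
    constructor
    · positivity
    · nlinarith
  have hbeta : ∀ m' : ℕ, m' < n → Good x l s₁ m' → ∀ t < β (Nat.log 16 m'),
      d (b x l s₁ m' + t) = d' (b x l s₁ m' + t) := by
    intro m' hm' hg t ht
    apply hdd
    have := b_succ_le hg hm'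
    omega
  have hcore := core (x := x) (l := l) hx hx1 hl (n := n) (M := 2 ^ s) (good_pos hC hn)
    (ρ := enc s bl) (ρ' := enc s bl')
    (F := fun i => a x i * Real.exp (-l) ^ κ x l s₁ d i)
    (F' := fun i => a x i * Real.exp (-l) ^ κ x l s₁ d' i)
    (by
      intro i hi
      congr 2
      rcases Nat.eq_zero_or_pos i with h0 | h0
      · have h1 := κ_le hx hx1 hl hC d i
        have h2 := κ_le hx hx1 hl hC d' i
        omega
      unfold κ κw
      by_cases hg : Good x l s₁ (st i) ∧ i - st i < 2 ^ Nat.log 16 (st i)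
      · rw [dif_pos hg, dif_pos hg]
        have hlt : st i < n := lt_of_le_of_lt (st_le i h0.ne') hi
        have e : (fun t : Fin (β (Nat.log 16 (st i))) => d (b x l s₁ (st i) + t))
            = fun t : Fin (β (Nat.log 16 (st i))) => d' (b x l s₁ (st i) + t) := by
          funext t
          exact hbeta (st i) hlt hg.1 t t.2
        rw [e]
      · rw [dif_neg hg, dif_neg hg])
    (by
      intro t
      have ht := t.2
      rw [κ_window hC hn (by rw [← hs]; omega), w_eq hx]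
      unfold κw
      rw [dif_pos ⟨hn, by rw [← hs]; exact ht⟩])
    (by
      intro t
      have ht := t.2
      rw [κ_window hC hn (by rw [← hs]; omega), w_eq hx]
      unfold κw
      rw [dif_pos ⟨hn, by rw [← hs]; exact ht⟩])
    (by
      intro t ht1 ht2
      rw [κ_window hC hn (by rw [← hs]; omega), κ_window hC hn (by rw [← hs]; omega)]
      unfold κw
      rw [dif_neg (by rw [← hs]; omega), dif_neg (by rw [← hs]; omega)])
    (hF d) (hF d')
    (fun h => hblne ((enc s).injective h))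
    (η := sepη s) (sepη_pos s).le
    (by
      intro t t' htt z
      exact hn.2.2 t t' (by rw [← hs]; exact t.2) (by rw [← hs]; exact t'.2)
        (fun h => htt (Fin.ext h)) z)
    (by
      intro m hm
      have hc := (hC.2 s hn.2.1).1
      have hn16 : 16 ^ s ≤ m := by
        have : 16 ^ s ≤ n := Nat.pow_log_le_self 16 (good_pos hC hn).ne'
        omega
      have hn16' : (16 : ℝ) ^ s ≤ m := by exact_mod_cast hn16
      have hm0 : 0 < m := lt_of_lt_of_le (by positivity) hn16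
      have h3 := a_three hx hx1 hm0
      have ha := a_pos hx m
      have h4 : a x m / (m : ℝ) ^ 3 ≤ a x m / (16 ^ s) ^ 3 := by
        apply div_le_div_of_nonneg_left ha.le (by positivity)
        exact pow_le_pow_left₀ (by positivity) hn16' 3
      have h5 : (((2 ^ s : ℕ) : ℝ) + 2) * (a x m / (16 ^ s) ^ 3)
          ≤ Real.exp (-l) * a x m * sepη s / 2 := by
        unfold sepη
        have e1 : Real.exp (-l) * a x m * (1 / (4 * 16 ^ (s + 1))) / 2
            = (Real.exp (-l) * 16 ^ (2 * s) / 128) * (a x m / (16 ^ s) ^ 3) := by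
          rw [pow_succ, pow_mul']
          field_simp
          ring
        rw [e1]
        apply mul_le_mul_of_nonneg_right _ (by positivity)
        push_cast
        linarith
      calc (((2 ^ s : ℕ) : ℝ) + 2) * a x (m + 3)
          ≤ (((2 ^ s : ℕ) : ℝ) + 2) * (a x m / (16 ^ s) ^ 3) := by
            apply mul_le_mul_of_nonneg_left (h3.trans h4)
            positivity
        _ ≤ _ := h5)
  obtain ⟨m, h1, h2, h3⟩ := hcore
  refine ⟨m, h1, ?_, h3⟩
  have h4 := good_window_lt hC hn (u := m - n) (by rw [← hs]; omega)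
  rw [show n + (m - n) = m by omega] at h4
  exact h4

/-- A lower bound for the terms of the series. -/
lemma term_ge (hx : 0 < x) (hx1 : x ≤ 1) (hC : Cond x l s₁) {s : ℕ} (hs : s₁ ≤ s) {m : ℕ}
    (hm : m < 16 ^ (s + 1)) :
    (1 / 2 : ℝ) ^ (8 * (s + 1) * 16 ^ (s + 1)) ≤ Real.exp (-l) * a x m * sepη s / 2 := by
  obtain ⟨-, h1, h2, -⟩ := hC.2 s hs
  set N : ℕ := 16 ^ (s + 1) with hN
  have hNr : ((N : ℕ) : ℝ) = 16 ^ (s + 1) := by rw [hN]; push_cast; rfl
  have hNpos : (0 : ℝ) < N := by rw [hNr]; positivity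
  have ha : a x N ≤ a x m := a_anti hx hx1 hm.le
  have e0 : (1 / 2 : ℝ) ^ (8 * (s + 1) * N) = 1 / ((N : ℝ) ^ N * (N : ℝ) ^ N) := by
    rw [one_div, inv_pow, one_div]
    congr 1
    have e1 : (N : ℝ) = 2 ^ (4 * (s + 1)) := by rw [hNr, pow_mul]; norm_num
    calc (2 : ℝ) ^ (8 * (s + 1) * N) = ((2 : ℝ) ^ (4 * (s + 1))) ^ (N + N) := by
          rw [← pow_mul]; congr 1; ring
      _ = (N : ℝ) ^ N * (N : ℝ) ^ N := by rw [← e1, pow_add]
  have h3 : (N.factorial : ℝ) ≤ (N : ℝ) ^ N := by exact_mod_cast Nat.factorial_le_pow N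
  have h4 : x ^ N / (N : ℝ) ^ N ≤ a x N := by
    unfold a
    apply div_le_div_of_nonneg_left (by positivity) (by positivity) h3
  -- the main inequality
  have h5 : 8 * Real.exp l * N ≤ (x * N) ^ N := by
    have f1 : (16 : ℝ) ^ N ≤ (x * N) ^ N := by
      apply pow_le_pow_left₀ (by norm_num)
      rw [hNr]; exact h1
    have f2 : (N : ℝ) * N ≤ 16 ^ N := by
      have g1 : N < 2 ^ N := Nat.lt_two_pow_self
      have g2 : N * N ≤ 2 ^ N * 2 ^ N := Nat.mul_le_mul g1.le g1.le
      have g3 : 2 ^ N * 2 ^ N ≤ 16 ^ N := by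
        rw [← mul_pow]; exact Nat.pow_le_pow_left (by norm_num) N
      exact_mod_cast g2.trans g3
    have f3 : 8 * Real.exp l * N ≤ N * N := by
      apply mul_le_mul_of_nonneg_right _ hNpos.le
      rw [hNr]; exact h2
    linarith
  have hee : Real.exp (-l) * Real.exp l = 1 := by rw [← Real.exp_add]; simp
  have hel := Real.exp_pos l
  have hel' := Real.exp_pos (-l)
  rw [e0]
  calc 1 / ((N : ℝ) ^ N * (N : ℝ) ^ N)
      = Real.exp (-l) * (8 * Real.exp l * N) / (8 * N * ((N : ℝ) ^ N * (N : ℝ) ^ N)) := by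
        rw [div_eq_div_iff (by positivity) (by positivity)]
        linear_combination (-8 * (N : ℝ) * ((N : ℝ) ^ N * (N : ℝ) ^ N)) * hee
    _ ≤ Real.exp (-l) * (x * N) ^ N / (8 * N * ((N : ℝ) ^ N * (N : ℝ) ^ N)) := by
        apply div_le_div_of_nonneg_right _ (by positivity)
        exact mul_le_mul_of_nonneg_left h5 hel'.le
    _ = Real.exp (-l) * (x ^ N / (N : ℝ) ^ N) * sepη s / 2 := by
        unfold sepη
        rw [← hNr, mul_pow]
        field_simp
        ring
    _ ≤ Real.exp (-l) * a x m * sepη s / 2 := by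
        have hη := sepη_pos s
        gcongr
        exact h4.trans ha

/-- The dimension estimate. -/
theorem le_dimH_range_pt (hx : 0 < x) (hx1 : x ≤ 1) (hl : 0 < l) (hC : Cond x l s₁) :
    ENNReal.ofReal (1 / 2000) ≤ dimH (Set.range (pt x l s₁)) := by
  set E₁ : ℕ := 8 * (s₁ + 1) * 16 ^ (s₁ + 1) with hE₁
  set C : ℝ := (2 : ℝ) ^ ((E₁ : ℝ) / 2000) with hCdef
  have hC1 : 1 ≤ C := Real.one_le_rpow (by norm_num) (by positivity)
  apply Q91.Coding.le_dimH_range (pt x l s₁) (σ := 1 / 2000) (C := C) (by norm_num)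
    (by linarith)
  intro d d' p hdd hne
  obtain ⟨n, hn, hb1, hb2⟩ := exists_window hx hx1 hl hC p
  obtain ⟨m, hm1, hm2, hm3⟩ := dist_pt hx hx1 hl hC hdd hne hn hb1 hb2
  set s := Nat.log 16 n with hs
  have hss : s₁ ≤ s := hn.2.1
  have h1 := (term_ge hx hx1 hC hss hm2).trans hm3
  rw [← Real.dist_eq] at h1
  have h2 : ((1 / 2 : ℝ) ^ (8 * (s + 1) * 16 ^ (s + 1))) ^ (1 / 2000 : ℝ)
      ≤ dist (pt x l s₁ d) (pt x l s₁ d') ^ (1 / 2000 : ℝ) :=
    Real.rpow_le_rpow (by positivity) h1 (by norm_num)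
  have e1 : ((1 / 2 : ℝ) ^ (8 * (s + 1) * 16 ^ (s + 1))) ^ (1 / 2000 : ℝ)
      = (2 : ℝ) ^ (-(((8 * (s + 1) * 16 ^ (s + 1) : ℕ) : ℝ) / 2000)) := by
    rw [one_div (2 : ℝ), inv_pow, Real.inv_rpow (by positivity), ← Real.rpow_natCast,
      ← Real.rpow_mul (by norm_num), ← Real.rpow_neg (by norm_num)]
    congr 1
    ring
  rw [e1] at h2
  have e2 : (1 / 2 : ℝ) ^ p = (2 : ℝ) ^ (-(p : ℝ)) := by
    rw [Real.rpow_neg (by norm_num), Real.rpow_natCast, one_div, inv_pow]
  rw [e2]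
  have hdist0 : 0 ≤ dist (pt x l s₁ d) (pt x l s₁ d') ^ (1 / 2000 : ℝ) := by positivity
  rcases Nat.lt_or_ge s₁ s with hlt | hge
  · -- many digits have been used
    have h3 : (2 : ℝ) ^ (-(p : ℝ)) ≤ (2 : ℝ) ^ (-(((8 * (s + 1) * 16 ^ (s + 1) : ℕ) : ℝ) / 2000)) := by
      apply Real.rpow_le_rpow_of_exponent_le (by norm_num)
      apply neg_le_neg
      obtain ⟨v, hv⟩ : ∃ v, s = v + 2 := ⟨s - 2, by have := hC.1; omega⟩
      have h4 := le_b hx hx1 hl hC (s := v + 1) (by omega)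
      have h5 : b x l s₁ (16 ^ (v + 1 + 1)) ≤ b x l s₁ n := by
        apply b_mono
        have : 16 ^ s ≤ n := Nat.pow_log_le_self 16 (good_pos hC hn).ne'
        rw [hv] at this
        exact this
      have h6 : 24 * v * 16 ^ v ≤ p := by
        have e3 : 3 * 8 ^ (v + 1) * β (v + 1) = 24 * v * 16 ^ v := by
          unfold β
          rw [Nat.add_sub_cancel, sixteen_pow, pow_succ]
          ring
        omega
      have h7 : 8 * (s + 1) * 16 ^ (s + 1) ≤ 2000 * p := by
        have e4 : 8 * (s + 1) * 16 ^ (s + 1) = 32768 * (v + 3) * 16 ^ v := by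
          rw [hv, show v + 2 + 1 = v + 3 by ring, pow_add]
          ring
        have hv8 : 8 ≤ v := by have := hC.1; omega
        have h8 : 32768 * (v + 3) ≤ 48000 * v := by omega
        calc 8 * (s + 1) * 16 ^ (s + 1) = 32768 * (v + 3) * 16 ^ v := e4
          _ ≤ 48000 * v * 16 ^ v := Nat.mul_le_mul_right _ h8
          _ = 2000 * (24 * v * 16 ^ v) := by ring
          _ ≤ 2000 * p := Nat.mul_le_mul_left _ h6
      have h9 : ((8 * (s + 1) * 16 ^ (s + 1) : ℕ) : ℝ) ≤ 2000 * p := by exact_mod_cast h7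
      linarith
    calc (2 : ℝ) ^ (-(p : ℝ)) ≤ dist (pt x l s₁ d) (pt x l s₁ d') ^ (1 / 2000 : ℝ) := h3.trans h2
      _ ≤ C * dist (pt x l s₁ d) (pt x l s₁ d') ^ (1 / 2000 : ℝ) := by nlinarith
  · have hseq : s = s₁ := le_antisymm hge hss
    rw [hseq] at h2
    have h3 : (2 : ℝ) ^ (-(p : ℝ)) ≤ 1 :=
      Real.rpow_le_one_of_one_le_of_nonpos (by norm_num) (by
        have : (0 : ℝ) ≤ p := Nat.cast_nonneg p
        linarith)
    have h4 : C * (2 : ℝ) ^ (-((E₁ : ℝ) / 2000)) = 1 := by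
      rw [hCdef, ← Real.rpow_add (by norm_num)]
      simp
    calc (2 : ℝ) ^ (-(p : ℝ)) ≤ 1 := h3
      _ = C * (2 : ℝ) ^ (-((E₁ : ℝ) / 2000)) := h4.symm
      _ ≤ C * dist (pt x l s₁ d) (pt x l s₁ d') ^ (1 / 2000 : ℝ) :=
        mul_le_mul_of_nonneg_left h2 (by linarith)

end Q91.ExpDim
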