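import Mathlib

/-!
# Limit sets of (possibly infinite) systems of separated similarities of `[0, 1]`

Dimension formula: upper and lower bounds.
-/

open Set Filter Topology MeasureTheory
open scoped ENNReal NNReal

namespace Q91.SimSys

/-- The composition `φ (ω 0) ∘ ⋯ ∘ φ (ω (n-1))`. -/
def cmp {E : Type*} (φ : E → ℝ → ℝ) (ω : ℕ → E) : ℕ → ℝ → ℝ
  | 0 => id
  | (n + 1) => cmp φ ω n ∘ φ (ω n)

/-- The limit set of the subfamily `F`: the points `x` for which there is an infinite word `ω`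
over `F` with `x ∈ φ (ω 0) ∘ ⋯ ∘ φ (ω (n-1)) (X)` for all `n`. -/
def limitSet {E : Type*} (φ : E → ℝ → ℝ) (X : Set ℝ) (F : Set E) : Set ℝ :=
  {x | ∃ ω : ℕ → E, (∀ n, ω n ∈ F) ∧ ∀ n, x ∈ cmp φ ω n '' X}

/-- A family of orientation preserving similarities `x ↦ t e + r e * x` of `[0, 1]`. -/
structure Sys (E : Type*) where
  t : E → ℝ
  r : E → ℝ
  κ : ℝ
  κ1 : κ < 1
  r0 : ∀ e, 0 < r e
  rκ : ∀ e, r e ≤ κ
  t0 : ∀ e, 0 ≤ t e
  tr : ∀ e, t e + r e ≤ 1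

namespace Sys

variable {E : Type*} (S : Sys E)

/-- The similarity with index `e`. -/
def φ (e : E) (x : ℝ) : ℝ := S.t e + S.r e * x

/-- Contraction ratio of the word of length `n`. -/
def ρ (ω : ℕ → E) (n : ℕ) : ℝ := ∏ i ∈ Finset.range n, S.r (ω i)

/-- Left endpoint of the interval of the word of length `n`. -/
def T (ω : ℕ → E) (n : ℕ) : ℝ := ∑ i ∈ Finset.range n, S.ρ ω i * S.t (ω i)

lemma ρ_zero (ω : ℕ → E) : S.ρ ω 0 = 1 := by simp [ρ]
lemma T_zero (ω : ℕ → E) : S.T ω 0 = 0 := by simp [T]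

lemma ρ_succ (ω : ℕ → E) (n : ℕ) : S.ρ ω (n + 1) = S.ρ ω n * S.r (ω n) :=
  Finset.prod_range_succ _ _

lemma T_succ (ω : ℕ → E) (n : ℕ) : S.T ω (n + 1) = S.T ω n + S.ρ ω n * S.t (ω n) :=
  Finset.sum_range_succ _ _

lemma ρ_pos (ω : ℕ → E) (n : ℕ) : 0 < S.ρ ω n := Finset.prod_pos fun _ _ => S.r0 _

lemma κ0 [Nonempty E] : 0 < S.κ := (S.r0 (Classical.arbitrary E)).trans_le (S.rκ _)

lemma ρ_le (ω : ℕ → E) (n : ℕ) : S.ρ ω n ≤ S.κ ^ n := by
  have : S.κ ^ n = ∏ _i ∈ Finset.range n, S.κ := by simp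
  rw [this]
  exact Finset.prod_le_prod (fun i _ => (S.r0 _).le) fun i _ => S.rκ _

lemma cmp_eq (ω : ℕ → E) (n : ℕ) (x : ℝ) : cmp S.φ ω n x = S.T ω n + S.ρ ω n * x := by
  induction n generalizing x with
  | zero => simp [cmp, ρ_zero, T_zero]
  | succ n ih =>
    change cmp S.φ ω n (S.φ (ω n) x) = _
    rw [ih, φ, T_succ, ρ_succ]
    ring

/-- The interval of the word of length `n`. -/
def I (ω : ℕ → E) (n : ℕ) : Set ℝ := Icc (S.T ω n) (S.T ω n + S.ρ ω n)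

lemma cmp_image (ω : ℕ → E) (n : ℕ) : cmp S.φ ω n '' Icc 0 1 = S.I ω n := by
  have hρ := S.ρ_pos ω n
  ext y
  constructor
  · rintro ⟨x, hx, rfl⟩
    rw [cmp_eq, I]
    constructor
    · nlinarith [hx.1]
    · nlinarith [hx.2]
  · rintro ⟨h1, h2⟩
    refine ⟨(y - S.T ω n) / S.ρ ω n, ⟨div_nonneg (by linarith) hρ.le, ?_⟩, ?_⟩
    · rw [div_le_one hρ]; linarith
    · rw [cmp_eq]; field_simp; ring

/-- The limit set of the subfamily `F`. -/
def J (F : Set E) : Set ℝ := {x | ∃ ω : ℕ → E, (∀ n, ω n ∈ F) ∧ ∀ n, x ∈ S.I ω n}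

lemma limitSet_eq (F : Set E) : limitSet S.φ (Icc 0 1) F = S.J F := by
  unfold limitSet J
  simp_rw [cmp_image]

lemma J_mono {F G : Set E} (h : F ⊆ G) : S.J F ⊆ S.J G := by
  rintro x ⟨ω, h1, h2⟩
  exact ⟨ω, fun n => h (h1 n), h2⟩

lemma I_succ (ω : ℕ → E) (n : ℕ) : S.I ω (n + 1) ⊆ S.I ω n := by
  intro x hx
  rw [I, T_succ, ρ_succ] at hx
  have hρ := S.ρ_pos ω n
  constructor
  · have := mul_nonneg hρ.le (S.t0 (ω n))
    linarith [hx.1]
  · have h1 := mul_le_mul_of_nonneg_left (S.tr (ω n)) hρ.le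
    linarith [hx.2]

lemma I_anti (ω : ℕ → E) : Antitone (S.I ω) := antitone_nat_of_succ_le (S.I_succ ω)

/-- The limit point. -/
noncomputable def pt (ω : ℕ → E) : ℝ := ⨆ n, S.T ω n

lemma T_le (ω : ℕ → E) (n m : ℕ) : S.T ω n ≤ S.T ω m + S.ρ ω m := by
  rcases le_total n m with h | h
  · have h1 : S.T ω m ∈ S.I ω m := ⟨le_rfl, by linarith [S.ρ_pos ω m]⟩
    have h2 := (S.I_anti ω h h1).1
    linarith [S.ρ_pos ω m]
  · have h1 : S.T ω n ∈ S.I ω n := ⟨le_rfl, by linarith [S.ρ_pos ω n]⟩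
    exact (S.I_anti ω h h1).2

lemma pt_mem (ω : ℕ → E) (n : ℕ) : S.pt ω ∈ S.I ω n := by
  have hb : BddAbove (range (S.T ω)) := ⟨S.T ω 0 + S.ρ ω 0, by
    rintro _ ⟨m, rfl⟩; exact S.T_le ω m 0⟩
  exact ⟨le_ciSup hb n, ciSup_le fun m => S.T_le ω m n⟩

lemma pt_mem_J {F : Set E} {ω : ℕ → E} (h : ∀ n, ω n ∈ F) : S.pt ω ∈ S.J F :=
  ⟨ω, h, S.pt_mem ω⟩

lemma abs_sub_le {ω : ℕ → E} {n : ℕ} {x y : ℝ} (hx : x ∈ S.I ω n) (hy : y ∈ S.I ω n) :
    |x - y| ≤ S.ρ ω n := by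
  rw [abs_le]
  constructor <;> linarith [hx.1, hx.2, hy.1, hy.2]

lemma eq_of_mem {ω : ℕ → E} {x y : ℝ} (hx : ∀ n, x ∈ S.I ω n) (hy : ∀ n, y ∈ S.I ω n) :
    x = y := by
  have : Nonempty E := ⟨ω 0⟩
  by_contra hne
  have hpos : 0 < |x - y| := abs_pos.2 (sub_ne_zero.2 hne)
  obtain ⟨n, hn⟩ := exists_pow_lt_of_lt_one hpos S.κ1
  have := (S.abs_sub_le (hx n) (hy n)).trans (S.ρ_le ω n)
  linarith

lemma pt_unique {ω : ℕ → E} {x : ℝ} (hx : ∀ n, x ∈ S.I ω n) : x = S.pt ω :=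
  S.eq_of_mem hx (S.pt_mem ω)

lemma ρ_congr {ω ω' : ℕ → E} {n : ℕ} (h : ∀ i < n, ω i = ω' i) : S.ρ ω n = S.ρ ω' n := by
  unfold ρ
  exact Finset.prod_congr rfl fun i hi => by rw [h i (Finset.mem_range.1 hi)]

lemma T_congr {ω ω' : ℕ → E} {n : ℕ} (h : ∀ i < n, ω i = ω' i) : S.T ω n = S.T ω' n := by
  unfold T
  refine Finset.sum_congr rfl fun i hi => ?_
  rw [Finset.mem_range] at hi
  rw [h i hi, S.ρ_congr fun j hj => h j (hj.trans hi)]

/-! ### The upper bound -/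

lemma tsum_words {α : Type*} (p : α → ℝ≥0∞) (n : ℕ) :
    ∑' w : Fin n → α, ∏ i, p (w i) = (∑' a, p a) ^ n := by
  induction n with
  | zero => simp
  | succ n ih =>
    rw [← (Fin.consEquiv fun _ => α).tsum_eq, ENNReal.tsum_prod', pow_succ, mul_comm, ← ih,
      ← ENNReal.tsum_mul_right]
    congr 1
    ext a
    rw [← ENNReal.tsum_mul_left]
    congr 1
    ext w
    rw [Fin.prod_univ_succ]
    simp [Fin.consEquiv]

lemma dimH_J_le [Countable E] {F : Set E} {s : ℝ} (hs : 0 ≤ s)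
    (h : ∑' e : F, ENNReal.ofReal (S.r e ^ s) ≤ 1) : dimH (S.J F) ≤ ENNReal.ofReal s := by
  rcases isEmpty_or_nonempty E with hE | hE
  · have : S.J F = ∅ := by
      ext x
      simp only [J, Set.mem_ofPred_eq, mem_empty_iff_false, iff_false]
      rintro ⟨ω, -⟩
      exact hE.false (ω 0)
    rw [this, dimH_empty]
    exact zero_le
  have key : μH[s] (S.J F) ≤ 1 := by
    have hlim : Tendsto (fun n => ENNReal.ofReal (S.κ ^ n)) atTop (𝓝 0) := by
      have h2 := ENNReal.tendsto_ofReal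
        (tendsto_pow_atTop_nhds_zero_of_lt_one S.κ0.le S.κ1)
      rwa [ENNReal.ofReal_zero] at h2
    have hdiam : ∀ n (w : Fin n → F), Metric.ediam {x | ∃ ω : ℕ → E, (∀ i : Fin n, ω i = w i) ∧
        ∀ m, x ∈ S.I ω m} ≤ ENNReal.ofReal (∏ i, S.r (w i)) := by
      intro n w
      apply Metric.ediam_le
      rintro x ⟨ω, h1, h2⟩ y ⟨ω', h1', h2'⟩
      have hT : ∀ i < n, ω i = ω' i := fun i hi => by
        rw [h1 ⟨i, hi⟩, h1' ⟨i, hi⟩]
      have e : ∏ i, S.r (w i) = S.ρ ω n := by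
        unfold ρ
        rw [Finset.prod_range]
        exact Finset.prod_congr rfl fun i _ => by rw [h1 i]
      rw [edist_dist, Real.dist_eq, e]
      apply ENNReal.ofReal_le_ofReal
      apply S.abs_sub_le (h2 n)
      have := h2' n
      unfold I at this ⊢
      rwa [S.T_congr hT, S.ρ_congr hT]
    have hH := Measure.hausdorffMeasure_le_liminf_tsum (X := ℝ) (ι := fun n : ℕ => Fin n → F)
      s (S.J F) (l := atTop) (fun n => ENNReal.ofReal (S.κ ^ n)) hlim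
      (fun n w => {x | ∃ ω : ℕ → E, (∀ i : Fin n, ω i = w i) ∧ ∀ m, x ∈ S.I ω m})
      (Eventually.of_forall fun n w => (hdiam n w).trans (ENNReal.ofReal_le_ofReal (by
        have : S.κ ^ n = ∏ _i : Fin n, S.κ := by simp
        rw [this]
        exact Finset.prod_le_prod (fun i _ => (S.r0 _).le) fun i _ => S.rκ _)))
      (Eventually.of_forall fun n => by
        rintro x ⟨ω, h1, h2⟩
        exact mem_iUnion.2 ⟨fun i => ⟨ω i, h1 i⟩, ω, fun i => rfl, h2⟩)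
    refine hH.trans ?_
    have hb : ∀ n : ℕ, ∑' w : Fin n → F, Metric.ediam {x | ∃ ω : ℕ → E,
        (∀ i : Fin n, ω i = w i) ∧ ∀ m, x ∈ S.I ω m} ^ s ≤ 1 := by
      intro n
      calc ∑' w : Fin n → F, Metric.ediam {x | ∃ ω : ℕ → E,
            (∀ i : Fin n, ω i = w i) ∧ ∀ m, x ∈ S.I ω m} ^ s
          ≤ ∑' w : Fin n → F, ∏ i, ENNReal.ofReal (S.r (w i) ^ s) := by
            apply ENNReal.tsum_le_tsum
            intro w
            refine (ENNReal.rpow_le_rpow (hdiam n w) hs).trans (le_of_eq ?_)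
            rw [ENNReal.ofReal_rpow_of_nonneg (Finset.prod_nonneg fun i _ => (S.r0 _).le) hs,
              ← Real.finsetProd_rpow _ _ fun i _ => (S.r0 _).le,
              ENNReal.ofReal_prod_of_nonneg fun i _ => Real.rpow_nonneg (S.r0 _).le s]
        _ = (∑' e : F, ENNReal.ofReal (S.r e ^ s)) ^ n :=
            tsum_words (fun e : F => ENNReal.ofReal (S.r e ^ s)) n
        _ ≤ 1 := pow_le_one' h n
    calc liminf (fun n : ℕ => ∑' w : Fin n → F, Metric.ediam {x | ∃ ω : ℕ → E,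
            (∀ i : Fin n, ω i = w i) ∧ ∀ m, x ∈ S.I ω m} ^ s) atTop
        ≤ liminf (fun _ : ℕ => (1 : ℝ≥0∞)) atTop := liminf_le_liminf (Eventually.of_forall hb)
      _ = 1 := liminf_const _
  have hne : μH[((s.toNNReal : ℝ≥0) : ℝ)] (S.J F) ≠ ⊤ := by
    rw [Real.coe_toNNReal s hs]
    exact (lt_of_le_of_lt key ENNReal.one_lt_top).ne
  exact dimH_le_of_hausdorffMeasure_ne_top hne

/-! ### The lower bound -/

end Sys

lemma exists_weights {E : Type*} (p : E → ℝ) (hp0 : ∀ e, 0 < p e) (hp1 : ∀ e, p e ≤ 1)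
    (A : Finset E) : ∃ c : E → ℝ, (∀ e, 0 ≤ c e ∧ c e + p e ≤ 1) ∧
      ∀ y, 0 ≤ y → y ≤ 1 → y ≤ ∑ e ∈ A, p e → A.Nonempty → ∃ e ∈ A, c e ≤ y ∧ y ≤ c e + p e := by
  classical
  induction A using Finset.induction_on with
  | empty =>
    exact ⟨fun _ => 0, fun e => ⟨le_rfl, by rw [zero_add]; exact hp1 e⟩,
      fun y _ _ _ h => absurd h Finset.not_nonempty_empty⟩
  | insert a A ha ih =>
    obtain ⟨c, hc1, hc2⟩ := ih
    have hsum : 0 ≤ ∑ e ∈ A, p e := Finset.sum_nonneg fun e _ => (hp0 e).le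
    refine ⟨Function.update c a (min (∑ e ∈ A, p e) (1 - p a)), fun e => ?_,
      fun y hy0 hy1 hy2 _ => ?_⟩
    · rcases eq_or_ne e a with rfl | h
      · rw [Function.update_self]
        exact ⟨le_min hsum (by linarith [hp1 e]), by linarith [min_le_right (∑ e ∈ A, p e) (1 - p e)]⟩
      · rw [Function.update_of_ne h]
        exact hc1 e
    · rw [Finset.sum_insert ha] at hy2
      by_cases hA : A.Nonempty ∧ y ≤ ∑ e ∈ A, p e
      · obtain ⟨e, he, h1, h2⟩ := hc2 y hy0 hy1 hA.2 hA.1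
        have hea : e ≠ a := fun h => ha (h ▸ he)
        exact ⟨e, Finset.mem_insert_of_mem he, by rwa [Function.update_of_ne hea],
          by rwa [Function.update_of_ne hea]⟩
      · have hle : ∑ e ∈ A, p e ≤ y := by
          rw [not_and_or] at hA
          rcases hA with h | h
          · rw [Finset.not_nonempty_iff_eq_empty.1 h, Finset.sum_empty]; exact hy0
          · exact (not_le.1 h).le
        refine ⟨a, Finset.mem_insert_self _ _, ?_, ?_⟩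
        · rw [Function.update_self]
          exact (min_le_left _ _).trans hle
        · rw [Function.update_self, ← sub_le_iff_le_add]
          exact le_min (by linarith) (by linarith)

namespace Sys

variable {E : Type*} (S : Sys E)

/-- Two intervals are at distance at least `δ`. -/
def Sep (A : Finset E) (δ : ℝ) : Prop :=
  ∀ e ∈ A, ∀ e' ∈ A, e ≠ e' → ∀ x ∈ Icc (S.t e) (S.t e + S.r e),
    ∀ y ∈ Icc (S.t e') (S.t e' + S.r e'), δ ≤ |x - y|

lemma exists_sep {A : Finset E} (hA : A.Nonempty) (hd : ∀ e ∈ A, ∀ e' ∈ A, e ≠ e' →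
    Disjoint (Icc (S.t e) (S.t e + S.r e)) (Icc (S.t e') (S.t e' + S.r e'))) :
    ∃ δ > 0, S.Sep A δ := by
  classical
  obtain ⟨d, hd'⟩ : ∃ d : E × E → ℝ, d = fun q => if q.1 = q.2 then 1 else
      max (S.t q.2 - (S.t q.1 + S.r q.1)) (S.t q.1 - (S.t q.2 + S.r q.2)) := ⟨_, rfl⟩
  obtain ⟨q, hq, hmin⟩ := Finset.exists_min_image (A ×ˢ A) d (hA.product hA)
  rw [Finset.mem_product] at hq
  refine ⟨d q, ?_, ?_⟩
  · rw [hd']
    simp only
    split_ifs with h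
    · exact one_pos
    · by_contra hcon
      rw [gt_iff_lt, not_lt, max_le_iff] at hcon
      have hdis := hd q.1 hq.1 q.2 hq.2 h
      rw [Set.disjoint_left] at hdis
      have h1 := S.r0 q.1
      have h2 := S.r0 q.2
      exact @hdis (max (S.t q.1) (S.t q.2))
        ⟨le_max_left _ _, max_le (by linarith) (by linarith [hcon.1])⟩
        ⟨le_max_right _ _, max_le (by linarith [hcon.2]) (by linarith)⟩
  · intro e he e' he' hne x hx y hy
    refine (hmin (e, e') (Finset.mem_product.2 ⟨he, he'⟩)).trans ?_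
    rw [hd']
    simp only [if_neg hne]
    apply max_le
    · rw [abs_sub_comm]
      exact le_trans (by linarith [hx.2, hy.1]) (le_abs_self _)
    · exact le_trans (by linarith [hx.1, hy.2]) (le_abs_self _)

lemma sep_words {A : Finset E} {δ : ℝ} (hδ : S.Sep A δ) {ω ω' : ℕ → E} (hω : ∀ n, ω n ∈ A)
    (hω' : ∀ n, ω' n ∈ A) {n : ℕ} (h : ∀ i < n, ω i = ω' i) (hn : ω n ≠ ω' n) {x y : ℝ}
    (hx : x ∈ S.I ω (n + 1)) (hy : y ∈ S.I ω' (n + 1)) : δ * S.ρ ω n ≤ |x - y| := by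
  have hρ := S.ρ_pos ω n
  rw [I, T_succ, ρ_succ] at hx hy
  rw [← S.T_congr h, ← S.ρ_congr h] at hy
  have h1 := hδ _ (hω n) _ (hω' n) hn ((x - S.T ω n) / S.ρ ω n)
    ⟨by rw [le_div_iff₀ hρ]; linarith [hx.1], by rw [div_le_iff₀ hρ]; linarith [hx.2]⟩
    ((y - S.T ω n) / S.ρ ω n)
    ⟨by rw [le_div_iff₀ hρ]; linarith [hy.1], by rw [div_le_iff₀ hρ]; linarith [hy.2]⟩
  have e : x - S.T ω n - (y - S.T ω n) = x - y := by ring
  rwa [← sub_div, abs_div, abs_of_pos hρ, le_div_iff₀ hρ, e] at h1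

lemma exists_first {α : Type*} {ω ω' : ℕ → α} (h : ω ≠ ω') :
    ∃ n, (∀ i < n, ω i = ω' i) ∧ ω n ≠ ω' n := by
  classical
  have hex : ∃ n, ω n ≠ ω' n := by
    by_contra hcon
    push Not at hcon
    exact h (funext hcon)
  exact ⟨Nat.find hex, fun i hi => not_not.1 (Nat.find_min hex hi), Nat.find_spec hex⟩

lemma ofReal_le_dimH_J {F : Set E} {A : Finset E} (hAF : (A : Set E) ⊆ F)
    (hd : ∀ e ∈ A, ∀ e' ∈ A, e ≠ e' →
      Disjoint (Icc (S.t e) (S.t e + S.r e)) (Icc (S.t e') (S.t e' + S.r e')))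
    {s : ℝ} (hs : 0 < s) (h : 1 ≤ ∑ e ∈ A, S.r e ^ s) : ENNReal.ofReal s ≤ dimH (S.J F) := by
  classical
  have hA : A.Nonempty := by
    rw [Finset.nonempty_iff_ne_empty]
    rintro rfl
    rw [Finset.sum_empty] at h
    linarith
  obtain ⟨a₀, ha₀⟩ := hA
  have hE : Nonempty E := ⟨a₀⟩
  obtain ⟨δ, hδ0, hδ⟩ := S.exists_sep ⟨a₀, ha₀⟩ hd
  have hp0 : ∀ e, 0 < S.r e ^ s := fun e => Real.rpow_pos_of_pos (S.r0 e) s
  have hpκ : ∀ e, S.r e ^ s ≤ S.κ ^ s := fun e => Real.rpow_le_rpow (S.r0 e).le (S.rκ e) hs.le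
  have hκs : S.κ ^ s < 1 := Real.rpow_lt_one S.κ0.le S.κ1 hs
  obtain ⟨c, hc1, hc2⟩ := exists_weights (fun e => S.r e ^ s) hp0
    (fun e => (hpκ e).trans hκs.le) A
  obtain ⟨S', hS't, hS'r⟩ : ∃ S' : Sys E, S'.t = c ∧ S'.r = fun e => S.r e ^ s :=
    ⟨⟨c, fun e => S.r e ^ s, S.κ ^ s, hκs, hp0, hpκ, fun e => (hc1 e).1, fun e => (hc1 e).2⟩,
      rfl, rfl⟩
  have hρ' : ∀ ω n, S'.ρ ω n = S.ρ ω n ^ s := by
    intro ω n
    unfold ρ
    rw [hS'r, Real.finsetProd_rpow _ _ fun i _ => (S.r0 _).le]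
  -- words of points
  have hJA : ∀ x ∈ S.J (A : Set E), ∃ ω : ℕ → E, (∀ n, ω n ∈ A) ∧ ∀ n, x ∈ S.I ω n :=
    fun x hx => hx
  obtain ⟨g, hg⟩ : ∃ g : ℝ → ℝ, g = fun x =>
      if hx : x ∈ S.J (A : Set E) then S'.pt (Classical.choose (hJA x hx)) else 0 := ⟨_, rfl⟩
  have hgx : ∀ x ∈ S.J (A : Set E), ∃ ω : ℕ → E, (∀ n, ω n ∈ A) ∧ (∀ n, x ∈ S.I ω n) ∧
      g x = S'.pt ω := by
    intro x hx
    refine ⟨Classical.choose (hJA x hx), (Classical.choose_spec (hJA x hx)).1,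
      (Classical.choose_spec (hJA x hx)).2, ?_⟩
    rw [hg]
    simp only [dif_pos hx]
  have huniq : ∀ x (ω ω' : ℕ → E), (∀ n, ω n ∈ A) → (∀ n, ω' n ∈ A) → (∀ n, x ∈ S.I ω n) →
      (∀ n, x ∈ S.I ω' n) → ω = ω' := by
    intro x ω ω' h1 h2 h3 h4
    by_contra hne
    obtain ⟨n, h5, h6⟩ := exists_first hne
    have h7 := S.sep_words hδ h1 h2 h5 h6 (h3 (n + 1)) (h4 (n + 1))
    rw [sub_self, abs_zero] at h7
    have := mul_pos hδ0 (S.ρ_pos ω n)
    linarith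
  -- the Hölder estimate
  have hhol : HolderOnWith ((δ⁻¹ ^ s).toNNReal) (s.toNNReal) g (S.J (A : Set E)) := by
    intro x hx y hy
    obtain ⟨ω, h1, h2, h3⟩ := hgx x hx
    obtain ⟨ω', h1', h2', h3'⟩ := hgx y hy
    rw [h3, h3', Real.coe_toNNReal s hs.le]
    by_cases hne : ω = ω'
    · rw [hne, edist_self]; exact zero_le
    · obtain ⟨n, h5, h6⟩ := exists_first hne
      have h7 := S.sep_words hδ h1 h1' h5 h6 (h2 (n + 1)) (h2' (n + 1))
      have h8 : |S'.pt ω - S'.pt ω'| ≤ S'.ρ ω n := by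
        apply S'.abs_sub_le (S'.pt_mem ω n)
        have := S'.pt_mem ω' n
        unfold I at this ⊢
        rwa [S'.T_congr h5, S'.ρ_congr h5]
      have h9 : S.ρ ω n ≤ δ⁻¹ * |x - y| := by
        rw [inv_mul_eq_div, le_div_iff₀ hδ0]
        linarith
      have h10 : |S'.pt ω - S'.pt ω'| ≤ δ⁻¹ ^ s * |x - y| ^ s := by
        rw [← Real.mul_rpow (by positivity) (abs_nonneg _)]
        rw [hρ'] at h8
        exact h8.trans (Real.rpow_le_rpow (S.ρ_pos ω n).le h9 hs.le)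
      rw [edist_dist, edist_dist, Real.dist_eq, Real.dist_eq,
        ENNReal.ofReal_rpow_of_nonneg (abs_nonneg _) hs.le]
      have e : ((δ⁻¹ ^ s).toNNReal : ℝ≥0∞) = ENNReal.ofReal (δ⁻¹ ^ s) := rfl
      rw [e, ← ENNReal.ofReal_mul (by positivity)]
      exact ENNReal.ofReal_le_ofReal h10
  -- the image contains the unit interval
  have himg : Icc (0 : ℝ) 1 ⊆ g '' S.J (A : Set E) := by
    intro y hy
    have hsel : ∀ z : Icc (0 : ℝ) 1, ∃ e ∈ A, c e ≤ z ∧ (z : ℝ) ≤ c e + S.r e ^ s := fun z =>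
      hc2 z z.2.1 z.2.2 (z.2.2.trans h) ⟨a₀, ha₀⟩
    choose sel hsel1 hsel2 hsel3 using hsel
    obtain ⟨nx, hnx⟩ : ∃ nx : Icc (0 : ℝ) 1 → Icc (0 : ℝ) 1, ∀ z : Icc (0 : ℝ) 1,
        (z : ℝ) = c (sel z) + S.r (sel z) ^ s * nx z := by
      refine ⟨fun z => ⟨(z - c (sel z)) / S.r (sel z) ^ s, div_nonneg (by linarith [hsel2 z])
        (hp0 _).le, ?_⟩, fun z => ?_⟩
      · rw [div_le_one (hp0 _)]; linarith [hsel3 z]
      · have := (hp0 (sel z)).ne'
        simp only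
        field_simp
        ring
    obtain ⟨Y, hY⟩ : ∃ Y : ℕ → Icc (0 : ℝ) 1, Y = fun n => nx^[n] ⟨y, hy⟩ := ⟨_, rfl⟩
    have hY0 : (Y 0 : ℝ) = y := by rw [hY]; rfl
    have hYs : ∀ n, Y (n + 1) = nx (Y n) := fun n => by
      rw [hY]; exact Function.iterate_succ_apply' nx n _
    obtain ⟨ω, hω⟩ : ∃ ω : ℕ → E, ω = fun n => sel (Y n) := ⟨_, rfl⟩
    have hωA : ∀ n, ω n ∈ A := fun n => by rw [hω]; exact hsel1 _
    have hform : ∀ n, y = S'.T ω n + S'.ρ ω n * Y n := by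
      intro n
      induction n with
      | zero => rw [T_zero, ρ_zero, hY0]; ring
      | succ n ih =>
        rw [T_succ, ρ_succ, hYs, hS't, hS'r]
        have h1 := hnx (Y n)
        have e : ω n = sel (Y n) := by rw [hω]
        rw [e]
        calc y = S'.T ω n + S'.ρ ω n * Y n := ih
          _ = S'.T ω n + S'.ρ ω n * (c (sel (Y n)) + S.r (sel (Y n)) ^ s * nx (Y n)) := by
              rw [← h1]
          _ = _ := by ring
    have hyI : ∀ n, y ∈ S'.I ω n := by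
      intro n
      have h1 := hform n
      have h2 := S'.ρ_pos ω n
      have h3 := (Y n).2
      constructor
      · nlinarith [mul_nonneg h2.le h3.1]
      · have := mul_le_mul_of_nonneg_left h3.2 h2.le
        linarith
    have hx : S.pt ω ∈ S.J (A : Set E) := S.pt_mem_J hωA
    refine ⟨S.pt ω, hx, ?_⟩
    obtain ⟨ω', h1, h2, h3⟩ := hgx _ hx
    have h4 := huniq _ ω ω' hωA h1 (S.pt_mem ω) h2
    rw [h3, ← h4]
    exact (S'.pt_unique hyI).symm
  have h1 : (1 : ℝ≥0∞) ≤ dimH (g '' S.J (A : Set E)) := by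
    have h2 : dimH (Icc (0 : ℝ) 1) = 1 := by
      have := Real.dimH_of_nonempty_interior (E := ℝ) (s := Icc (0 : ℝ) 1)
        (by rw [interior_Icc]; exact ⟨1 / 2, by norm_num, by norm_num⟩)
      simpa using this
    rw [← h2]
    exact dimH_mono himg
  have h2 := hhol.dimH_image_le (Real.toNNReal_pos.2 hs)
  have h3 := h1.trans h2
  have hs' : ((s.toNNReal : ℝ≥0) : ℝ≥0∞) = ENNReal.ofReal s := rfl
  rw [hs', ENNReal.le_div_iff_mul_le (Or.inl (ENNReal.ofReal_pos.2 hs).ne')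
    (Or.inl ENNReal.ofReal_ne_top), one_mul] at h3
  exact h3.trans (dimH_mono (S.J_mono hAF))

end Sys

end Q91.SimSys
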