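import Mathlib
import Pool.Agent.Q91.SimSys

/-!
# Limit sets of families of maps with Lipschitz bounds in a metric space

Upper and lower bounds for the Hausdorff dimension of limit sets, given upper (lower) Lipschitz
constants of the maps.
-/

open Set Filter Topology MeasureTheory
open scoped ENNReal NNReal

namespace Q91.ExpSys

/-- The composition `s (ω 0) ∘ ⋯ ∘ s (ω (n-1))`. -/
def cmp {E Z : Type*} (s : E → Z → Z) (ω : ℕ → E) : ℕ → Z → Z
  | 0 => id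
  | (n + 1) => cmp s ω n ∘ s (ω n)

/-- The limit set of the subfamily `F`: the points `x` for which there is an infinite word `ω`
over `F` with `x ∈ s (ω 0) ∘ ⋯ ∘ s (ω (n-1)) (K)` for all `n`. -/
def limitSet {E Z : Type*} (s : E → Z → Z) (K : Set Z) (F : Set E) : Set Z :=
  {x | ∃ ω : ℕ → E, (∀ n, ω n ∈ F) ∧ ∀ n, x ∈ cmp s ω n '' K}

section Basic

variable {E Z : Type*} {s : E → Z → Z} {K : Set Z}

lemma cmp_zero (ω : ℕ → E) (x : Z) : cmp s ω 0 x = x := rfl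

lemma cmp_succ (ω : ℕ → E) (n : ℕ) (x : Z) : cmp s ω (n + 1) x = cmp s ω n (s (ω n) x) := rfl

lemma cmp_succ' (ω : ℕ → E) (n : ℕ) (x : Z) :
    cmp s ω (n + 1) x = s (ω 0) (cmp s (fun k => ω (k + 1)) n x) := by
  induction n generalizing x with
  | zero => rfl
  | succ n ih => rw [cmp_succ, ih, cmp_succ]

lemma cmp_congr {ω ω' : ℕ → E} {n : ℕ} (h : ∀ i < n, ω i = ω' i) : cmp s ω n = cmp s ω' n := by
  induction n with
  | zero => rfl
  | succ n ih =>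
    have h1 := ih fun i hi => h i (by omega)
    funext x
    rw [cmp_succ, cmp_succ, h1, h n (by omega)]

lemma limitSet_mono {F G : Set E} (h : F ⊆ G) : limitSet s K F ⊆ limitSet s K G := by
  rintro x ⟨ω, h1, h2⟩
  exact ⟨ω, fun n => h (h1 n), h2⟩

lemma limitSet_subset {F : Set E} : limitSet s K F ⊆ K := by
  rintro x ⟨ω, -, h2⟩
  obtain ⟨y, hy, rfl⟩ := h2 0
  exact hy

/-- A set all of whose points are images of points of the set is contained in the limit set. -/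
lemma subset_limitSet {F : Set E} {Y : Set Z} (hY : Y ⊆ K)
    (h : ∀ y ∈ Y, ∃ e ∈ F, ∃ y' ∈ Y, y = s e y') : Y ⊆ limitSet s K F := by
  intro y hy
  have h' : ∀ z : Y, ∃ p : E × Y, p.1 ∈ F ∧ (z : Z) = s p.1 p.2 := by
    intro z
    obtain ⟨e, he, y', hy', heq⟩ := h z z.2
    exact ⟨(e, ⟨y', hy'⟩), he, heq⟩
  choose p hp1 hp2 using h'
  obtain ⟨z, hz⟩ : ∃ z : ℕ → Y, z = fun n => (fun w => (p w).2)^[n] ⟨y, hy⟩ := ⟨_, rfl⟩
  have hz0 : (z 0 : Z) = y := by rw [hz]; rfl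
  have hzs : ∀ n, z (n + 1) = (p (z n)).2 := fun n => by
    rw [hz]; exact Function.iterate_succ_apply' (fun w => (p w).2) n _
  have hform : ∀ n, y = cmp s (fun k => (p (z k)).1) n (z n) := by
    intro n
    induction n with
    | zero => rw [hz0]; rfl
    | succ n ih =>
      rw [cmp_succ, hzs, ← hp2 (z n)]
      exact ih
  exact ⟨fun k => (p (z k)).1, fun n => hp1 _, fun n => ⟨z n, hY (z n).2, (hform n).symm⟩⟩

end Basic

variable {E Z : Type*} [MetricSpace Z] {s : E → Z → Z} {K : Set Z}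

/-! ### The upper bound -/

lemma dist_cmp_le {r : E → ℝ} (hr : ∀ e, 0 ≤ r e) (hK : ∀ e, MapsTo (s e) K K)
    (hlip : ∀ e, ∀ x ∈ K, ∀ y ∈ K, dist (s e x) (s e y) ≤ r e * dist x y) (ω : ℕ → E) (n : ℕ)
    {x y : Z} (hx : x ∈ K) (hy : y ∈ K) :
    dist (cmp s ω n x) (cmp s ω n y) ≤ (∏ i ∈ Finset.range n, r (ω i)) * dist x y := by
  induction n generalizing x y with
  | zero => simp [cmp_zero]
  | succ n ih =>
    rw [cmp_succ, cmp_succ, Finset.prod_range_succ, mul_assoc]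
    refine (ih (hK _ hx) (hK _ hy)).trans ?_
    exact mul_le_mul_of_nonneg_left (hlip _ x hx y hy) (Finset.prod_nonneg fun i _ => hr _)

/-- **Upper bound.** -/
theorem dimH_limitSet_le [Countable E] {r : E → ℝ} {κ : ℝ} (hκ : κ < 1) (hr0 : ∀ e, 0 ≤ r e)
    (hrκ : ∀ e, r e ≤ κ) (hK : ∀ e, MapsTo (s e) K K) (hKb : Bornology.IsBounded K)
    (hlip : ∀ e, ∀ x ∈ K, ∀ y ∈ K, dist (s e x) (s e y) ≤ r e * dist x y) {F : Set E} {t : ℝ}
    (ht : 0 < t) (h : ∑' e : F, ENNReal.ofReal (r e ^ t) ≤ 1) :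
    dimH (limitSet s K F) ≤ ENNReal.ofReal t := by
  rcases isEmpty_or_nonempty E with hE | hE
  · have : limitSet s K F = ∅ := by
      ext x
      simp only [limitSet, Set.mem_ofPred_eq, mem_empty_iff_false, iff_false]
      rintro ⟨ω, -⟩
      exact hE.false (ω 0)
    rw [this, dimH_empty]
    exact zero_le
  have hκ0 : 0 ≤ κ := (hr0 (Classical.arbitrary E)).trans (hrκ _)
  obtain ⟨D, hD0, hD⟩ : ∃ D : ℝ, 0 ≤ D ∧ ∀ x ∈ K, ∀ y ∈ K, dist x y ≤ D := by
    obtain ⟨D, hD⟩ := Metric.isBounded_iff.1 hKb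
    exact ⟨max D 0, le_max_right _ _, fun x hx y hy => (hD hx hy).trans (le_max_left _ _)⟩
  borelize Z
  have key : μH[t] (limitSet s K F) ≤ ENNReal.ofReal (D ^ t) := by
    have hlim : Tendsto (fun n => ENNReal.ofReal (κ ^ n * D)) atTop (𝓝 0) := by
      have h2 := ENNReal.tendsto_ofReal
        ((tendsto_pow_atTop_nhds_zero_of_lt_one hκ0 hκ).mul_const D)
      rwa [zero_mul, ENNReal.ofReal_zero] at h2
    have hdiam : ∀ n (w : Fin n → F), Metric.ediam {x | ∃ ω : ℕ → E, (∀ i : Fin n, ω i = w i) ∧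
        ∀ m, x ∈ cmp s ω m '' K} ≤ ENNReal.ofReal ((∏ i, r (w i)) * D) := by
      intro n w
      apply Metric.ediam_le
      rintro x ⟨ω, h1, h2⟩ y ⟨ω', h1', h2'⟩
      have hT : ∀ i < n, ω i = ω' i := fun i hi => by
        rw [h1 ⟨i, hi⟩, h1' ⟨i, hi⟩]
      have e : ∏ i, r (w i) = ∏ i ∈ Finset.range n, r (ω i) := by
        rw [Finset.prod_range]
        exact Finset.prod_congr rfl fun i _ => by rw [h1 i]
      obtain ⟨x', hx', hx⟩ := h2 n
      obtain ⟨y', hy', hy⟩ := h2' n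
      rw [← cmp_congr hT] at hy
      rw [edist_dist, e, ← hx, ← hy]
      apply ENNReal.ofReal_le_ofReal
      exact (dist_cmp_le hr0 hK hlip ω n hx' hy').trans
        (mul_le_mul_of_nonneg_left (hD _ hx' _ hy') (Finset.prod_nonneg fun i _ => hr0 _))
    have hH := Measure.hausdorffMeasure_le_liminf_tsum (X := Z) (ι := fun n : ℕ => Fin n → F)
      t (limitSet s K F) (l := atTop) (fun n => ENNReal.ofReal (κ ^ n * D)) hlim
      (fun n w => {x | ∃ ω : ℕ → E, (∀ i : Fin n, ω i = w i) ∧ ∀ m, x ∈ cmp s ω m '' K})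
      (Eventually.of_forall fun n w => (hdiam n w).trans (ENNReal.ofReal_le_ofReal (by
        apply mul_le_mul_of_nonneg_right _ hD0
        have : κ ^ n = ∏ _i : Fin n, κ := by simp
        rw [this]
        exact Finset.prod_le_prod (fun i _ => hr0 _) fun i _ => hrκ _)))
      (Eventually.of_forall fun n => by
        rintro x ⟨ω, h1, h2⟩
        exact mem_iUnion.2 ⟨fun i => ⟨ω i, h1 i⟩, ω, fun i => rfl, h2⟩)
    refine hH.trans ?_
    have hb : ∀ n : ℕ, ∑' w : Fin n → F, Metric.ediam {x | ∃ ω : ℕ → E,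
        (∀ i : Fin n, ω i = w i) ∧ ∀ m, x ∈ cmp s ω m '' K} ^ t ≤ ENNReal.ofReal (D ^ t) := by
      intro n
      calc ∑' w : Fin n → F, Metric.ediam {x | ∃ ω : ℕ → E,
            (∀ i : Fin n, ω i = w i) ∧ ∀ m, x ∈ cmp s ω m '' K} ^ t
          ≤ ∑' w : Fin n → F, (∏ i, ENNReal.ofReal (r (w i) ^ t)) * ENNReal.ofReal (D ^ t) := by
            apply ENNReal.tsum_le_tsum
            intro w
            refine (ENNReal.rpow_le_rpow (hdiam n w) ht.le).trans (le_of_eq ?_)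
            have hp : 0 ≤ ∏ i, r (w i) := Finset.prod_nonneg fun i _ => hr0 _
            rw [ENNReal.ofReal_rpow_of_nonneg (mul_nonneg hp hD0) ht.le,
              Real.mul_rpow hp hD0, ENNReal.ofReal_mul (Real.rpow_nonneg hp t),
              ← Real.finsetProd_rpow _ _ fun i _ => hr0 _,
              ENNReal.ofReal_prod_of_nonneg fun i _ => Real.rpow_nonneg (hr0 _) t]
        _ = (∑' e : F, ENNReal.ofReal (r e ^ t)) ^ n * ENNReal.ofReal (D ^ t) := by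
            rw [ENNReal.tsum_mul_right,
              Q91.SimSys.Sys.tsum_words (fun e : F => ENNReal.ofReal (r e ^ t)) n]
        _ ≤ 1 * ENNReal.ofReal (D ^ t) := mul_le_mul_left (pow_le_one' h n) _
        _ = _ := one_mul _
    calc liminf (fun n : ℕ => ∑' w : Fin n → F, Metric.ediam {x | ∃ ω : ℕ → E,
            (∀ i : Fin n, ω i = w i) ∧ ∀ m, x ∈ cmp s ω m '' K} ^ t) atTop
        ≤ liminf (fun _ : ℕ => ENNReal.ofReal (D ^ t)) atTop :=
          liminf_le_liminf (Eventually.of_forall hb)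
      _ = ENNReal.ofReal (D ^ t) := liminf_const _
  have hne : μH[((t.toNNReal : ℝ≥0) : ℝ)] (limitSet s K F) ≠ ⊤ := by
    rw [Real.coe_toNNReal t ht.le]
    exact (lt_of_le_of_lt key ENNReal.ofReal_lt_top).ne
  exact dimH_le_of_hausdorffMeasure_ne_top hne

/-! ### The lower bound -/

lemma le_dist_cmp {A : Finset E} {r : E → ℝ} (hr : ∀ e ∈ A, 0 < r e)
    (hK : ∀ e ∈ A, MapsTo (s e) K K)
    (hlip : ∀ e ∈ A, ∀ x ∈ K, ∀ y ∈ K, r e * dist x y ≤ dist (s e x) (s e y)) {ω : ℕ → E}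
    (hω : ∀ n, ω n ∈ A) (n : ℕ) {x y : Z} (hx : x ∈ K) (hy : y ∈ K) :
    (∏ i ∈ Finset.range n, r (ω i)) * dist x y ≤ dist (cmp s ω n x) (cmp s ω n y) := by
  induction n generalizing x y with
  | zero => simp [cmp_zero]
  | succ n ih =>
    rw [cmp_succ, cmp_succ, Finset.prod_range_succ, mul_assoc]
    refine le_trans ?_ (ih (hK _ (hω n) hx) (hK _ (hω n) hy))
    exact mul_le_mul_of_nonneg_left (hlip _ (hω n) x hx y hy)
      (Finset.prod_nonneg fun i _ => (hr _ (hω i)).le)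

omit [MetricSpace Z] in
lemma cmp_mapsTo {A : Finset E} (hK : ∀ e ∈ A, MapsTo (s e) K K) {ω : ℕ → E}
    (hω : ∀ n, ω n ∈ A) (n : ℕ) : MapsTo (cmp s ω n) K K := by
  induction n with
  | zero => exact fun x hx => hx
  | succ n ih => exact fun x hx => ih (hK _ (hω n) hx)

lemma cmp_continuousOn {A : Finset E} (hK : ∀ e ∈ A, MapsTo (s e) K K)
    (hc : ∀ e ∈ A, ContinuousOn (s e) K) {ω : ℕ → E}
    (hω : ∀ n, ω n ∈ A) (n : ℕ) : ContinuousOn (cmp s ω n) K := by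
  induction n with
  | zero => exact continuousOn_id
  | succ n ih => exact ih.comp (hc _ (hω n)) (hK _ (hω n))

lemma exists_mem_all {A : Finset E} (hKc : IsCompact K) (hKne : K.Nonempty)
    (hK : ∀ e ∈ A, MapsTo (s e) K K) (hc : ∀ e ∈ A, ContinuousOn (s e) K) {ω : ℕ → E}
    (hω : ∀ n, ω n ∈ A) : ∃ x, ∀ n, x ∈ cmp s ω n '' K := by
  have h := IsCompact.nonempty_iInter_of_sequence_nonempty_isCompact_isClosed
    (fun n => cmp s ω n '' K) (fun n => by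
      rintro _ ⟨x, hx, rfl⟩
      exact ⟨s (ω n) x, hK _ (hω n) hx, rfl⟩) (fun n => hKne.image _)
    (by
      have := hKc.image_of_continuousOn (cmp_continuousOn hK hc hω 0)
      exact this)
    (fun n => (hKc.image_of_continuousOn (cmp_continuousOn hK hc hω n)).isClosed)
  obtain ⟨x, hx⟩ := h
  exact ⟨x, fun n => mem_iInter.1 hx n⟩

/-- **Lower bound.** -/
theorem ofReal_le_dimH_limitSet {A : Finset E} (hKc : IsCompact K) (hKne : K.Nonempty)
    (hK : ∀ e ∈ A, MapsTo (s e) K K) (hc : ∀ e ∈ A, ContinuousOn (s e) K) {r : E → ℝ}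
    (hr0 : ∀ e ∈ A, 0 < r e) (hr1 : ∀ e ∈ A, r e < 1)
    (hlip : ∀ e ∈ A, ∀ x ∈ K, ∀ y ∈ K, r e * dist x y ≤ dist (s e x) (s e y))
    {δ : ℝ} (hδ0 : 0 < δ)
    (hδ : ∀ e ∈ A, ∀ e' ∈ A, e ≠ e' → ∀ x ∈ K, ∀ y ∈ K, δ ≤ dist (s e x) (s e' y))
    {t : ℝ} (ht : 0 < t) (h : 1 ≤ ∑ e ∈ A, r e ^ t) :
    ENNReal.ofReal t ≤ dimH (limitSet s K (A : Set E)) := by
  classical
  have hA : A.Nonempty := by
    rw [Finset.nonempty_iff_ne_empty]
    rintro rfl
    rw [Finset.sum_empty] at h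
    linarith
  obtain ⟨a₀, ha₀⟩ := hA
  -- a common bound for the ratios, and ratios defined everywhere
  obtain ⟨a₁, ha₁, hmax⟩ := Finset.exists_max_image A r ⟨a₀, ha₀⟩
  obtain ⟨r', hr'⟩ : ∃ r' : E → ℝ, r' = fun e => if e ∈ A then r e else r a₀ := ⟨_, rfl⟩
  have hr'A : ∀ e ∈ A, r' e = r e := fun e he => by rw [hr']; simp only [if_pos he]
  have hr'0 : ∀ e, 0 < r' e := fun e => by
    rw [hr']; simp only; split_ifs with he
    · exact hr0 e he
    · exact hr0 a₀ ha₀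
  have hr'κ : ∀ e, r' e ≤ r a₁ := fun e => by
    rw [hr']; simp only; split_ifs with he
    · exact hmax e he
    · exact hmax a₀ ha₀
  have hp0 : ∀ e, 0 < r' e ^ t := fun e => Real.rpow_pos_of_pos (hr'0 e) t
  have hpκ : ∀ e, r' e ^ t ≤ r a₁ ^ t := fun e => Real.rpow_le_rpow (hr'0 e).le (hr'κ e) ht.le
  have hκs : r a₁ ^ t < 1 := Real.rpow_lt_one (hr0 a₁ ha₁).le (hr1 a₁ ha₁) ht
  have hsum : 1 ≤ ∑ e ∈ A, r' e ^ t := h.trans (le_of_eq (Finset.sum_congr rfl fun e he => by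
    rw [hr'A e he]))
  obtain ⟨c, hc1, hc2⟩ := Q91.SimSys.exists_weights (fun e => r' e ^ t) hp0
    (fun e => (hpκ e).trans hκs.le) A
  obtain ⟨S', hS't, hS'r⟩ : ∃ S' : Q91.SimSys.Sys E, S'.t = c ∧ S'.r = fun e => r' e ^ t :=
    ⟨⟨c, fun e => r' e ^ t, r a₁ ^ t, hκs, hp0, hpκ, fun e => (hc1 e).1, fun e => (hc1 e).2⟩,
      rfl, rfl⟩
  have hρ' : ∀ ω n, S'.ρ ω n = (∏ i ∈ Finset.range n, r' (ω i)) ^ t := by
    intro ω n
    unfold Q91.SimSys.Sys.ρ
    rw [hS'r, Real.finsetProd_rpow _ _ fun i _ => (hr'0 _).le]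
  have hρA : ∀ ω : ℕ → E, (∀ n, ω n ∈ A) → ∀ n,
      ∏ i ∈ Finset.range n, r' (ω i) = ∏ i ∈ Finset.range n, r (ω i) :=
    fun ω hω n => Finset.prod_congr rfl fun i _ => hr'A _ (hω i)
  -- separation of words
  have hsep : ∀ (ω ω' : ℕ → E), (∀ n, ω n ∈ A) → (∀ n, ω' n ∈ A) → ∀ n, (∀ i < n, ω i = ω' i) →
      ω n ≠ ω' n → ∀ x ∈ cmp s ω (n + 1) '' K, ∀ y ∈ cmp s ω' (n + 1) '' K,
      (∏ i ∈ Finset.range n, r (ω i)) * δ ≤ dist x y := by
    rintro ω ω' hω hω' n hn hne _ ⟨x, hx, rfl⟩ _ ⟨y, hy, rfl⟩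
    rw [cmp_succ, cmp_succ, ← cmp_congr hn]
    refine le_trans ?_ (le_dist_cmp hr0 hK hlip hω n (hK _ (hω n) hx) (hK _ (hω' n) hy))
    exact mul_le_mul_of_nonneg_left (hδ _ (hω n) _ (hω' n) hne x hx y hy)
      (Finset.prod_nonneg fun i _ => (hr0 _ (hω i)).le)
  -- words of points
  have hJA : ∀ x ∈ limitSet s K (A : Set E), ∃ ω : ℕ → E, (∀ n, ω n ∈ A) ∧
      ∀ n, x ∈ cmp s ω n '' K := fun x hx => hx
  obtain ⟨g, hg⟩ : ∃ g : Z → ℝ, g = fun x =>
      if hx : x ∈ limitSet s K (A : Set E) then S'.pt (Classical.choose (hJA x hx)) else 0 :=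
    ⟨_, rfl⟩
  have hgx : ∀ x ∈ limitSet s K (A : Set E), ∃ ω : ℕ → E, (∀ n, ω n ∈ A) ∧
      (∀ n, x ∈ cmp s ω n '' K) ∧ g x = S'.pt ω := by
    intro x hx
    refine ⟨Classical.choose (hJA x hx), (Classical.choose_spec (hJA x hx)).1,
      (Classical.choose_spec (hJA x hx)).2, ?_⟩
    rw [hg]
    simp only [dif_pos hx]
  have huniq : ∀ x (ω ω' : ℕ → E), (∀ n, ω n ∈ A) → (∀ n, ω' n ∈ A) →
      (∀ n, x ∈ cmp s ω n '' K) → (∀ n, x ∈ cmp s ω' n '' K) → ω = ω' := by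
    intro x ω ω' h1 h2 h3 h4
    by_contra hne
    obtain ⟨n, h5, h6⟩ := Q91.SimSys.Sys.exists_first hne
    have h7 := hsep ω ω' h1 h2 n h5 h6 x (h3 (n + 1)) x (h4 (n + 1))
    rw [dist_self] at h7
    have h8 : 0 < (∏ i ∈ Finset.range n, r (ω i)) * δ :=
      mul_pos (Finset.prod_pos fun i _ => hr0 _ (h1 i)) hδ0
    linarith
  -- the Hölder estimate
  have hhol : HolderOnWith ((δ⁻¹ ^ t).toNNReal) (t.toNNReal) g (limitSet s K (A : Set E)) := by
    intro x hx y hy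
    obtain ⟨ω, h1, h2, h3⟩ := hgx x hx
    obtain ⟨ω', h1', h2', h3'⟩ := hgx y hy
    rw [h3, h3', Real.coe_toNNReal t ht.le]
    by_cases hne : ω = ω'
    · rw [hne, edist_self]; exact zero_le
    · obtain ⟨n, h5, h6⟩ := Q91.SimSys.Sys.exists_first hne
      have h7 := hsep ω ω' h1 h1' n h5 h6 x (h2 (n + 1)) y (h2' (n + 1))
      have h8 : |S'.pt ω - S'.pt ω'| ≤ S'.ρ ω n := by
        apply S'.abs_sub_le (S'.pt_mem ω n)
        have := S'.pt_mem ω' n
        unfold Q91.SimSys.Sys.I at this ⊢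
        rwa [S'.T_congr h5, S'.ρ_congr h5]
      have hρ0 : 0 < ∏ i ∈ Finset.range n, r (ω i) := Finset.prod_pos fun i _ => hr0 _ (h1 i)
      have h9 : ∏ i ∈ Finset.range n, r (ω i) ≤ δ⁻¹ * dist x y := by
        rw [inv_mul_eq_div, le_div_iff₀ hδ0]
        exact h7
      have h10 : |S'.pt ω - S'.pt ω'| ≤ δ⁻¹ ^ t * dist x y ^ t := by
        rw [← Real.mul_rpow (by positivity) dist_nonneg]
        rw [hρ', hρA ω h1] at h8
        exact h8.trans (Real.rpow_le_rpow hρ0.le h9 ht.le)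
      rw [edist_dist, edist_dist, Real.dist_eq, ENNReal.ofReal_rpow_of_nonneg dist_nonneg ht.le]
      have e : ((δ⁻¹ ^ t).toNNReal : ℝ≥0∞) = ENNReal.ofReal (δ⁻¹ ^ t) := rfl
      rw [e, ← ENNReal.ofReal_mul (by positivity)]
      exact ENNReal.ofReal_le_ofReal h10
  -- the image contains the unit interval
  have himg : Icc (0 : ℝ) 1 ⊆ g '' limitSet s K (A : Set E) := by
    intro y hy
    have hsel : ∀ z : Icc (0 : ℝ) 1, ∃ e ∈ A, c e ≤ z ∧ (z : ℝ) ≤ c e + r' e ^ t := fun z =>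
      hc2 z z.2.1 z.2.2 (z.2.2.trans hsum) ⟨a₀, ha₀⟩
    choose sel hsel1 hsel2 hsel3 using hsel
    obtain ⟨nx, hnx⟩ : ∃ nx : Icc (0 : ℝ) 1 → Icc (0 : ℝ) 1, ∀ z : Icc (0 : ℝ) 1,
        (z : ℝ) = c (sel z) + r' (sel z) ^ t * nx z := by
      refine ⟨fun z => ⟨(z - c (sel z)) / r' (sel z) ^ t, div_nonneg (by linarith [hsel2 z])
        (hp0 _).le, ?_⟩, fun z => ?_⟩
      · rw [div_le_one (hp0 _)]; linarith [hsel3 z]
      · have := (hp0 (sel z)).ne'
        simp only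
        field_simp
        ring
    obtain ⟨Y, hY⟩ : ∃ Y : ℕ → Icc (0 : ℝ) 1, Y = fun n => nx^[n] ⟨y, hy⟩ := ⟨_, rfl⟩
    have hY0 : (Y 0 : ℝ) = y := by rw [hY]; rfl
    have hYs : ∀ n, Y (n + 1) = nx (Y n) := fun n => by
      rw [hY]; exact Function.iterate_succ_apply' nx n _
    obtain ⟨ω, hω⟩ : ∃ ω : ℕ → E, ω = fun n => sel (Y n) := ⟨_, rfl⟩
    have hωA : ∀ n, ω n ∈ A := fun n => by rw [hω]; exact hsel1 _
    have hform : ∀ n, y = S'.T ω n + S'.ρ ω n * Y n := by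
      intro n
      induction n with
      | zero => rw [Q91.SimSys.Sys.T_zero, Q91.SimSys.Sys.ρ_zero, hY0]; ring
      | succ n ih =>
        rw [Q91.SimSys.Sys.T_succ, Q91.SimSys.Sys.ρ_succ, hYs, hS't, hS'r]
        have h1 := hnx (Y n)
        have e : ω n = sel (Y n) := by rw [hω]
        rw [e]
        calc y = S'.T ω n + S'.ρ ω n * Y n := ih
          _ = S'.T ω n + S'.ρ ω n * (c (sel (Y n)) + r' (sel (Y n)) ^ t * nx (Y n)) := by
              rw [← h1]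
          _ = _ := by ring
    have hyI : ∀ n, y ∈ S'.I ω n := by
      intro n
      have h1 := hform n
      have h2 := S'.ρ_pos ω n
      have h3 := (Y n).2
      constructor
      · nlinarith [mul_nonneg h2.le h3.1]
      · have := mul_le_mul_of_nonneg_left h3.2 h2.le
        linarith
    obtain ⟨x, hx⟩ := exists_mem_all hKc hKne hK hc hωA
    have hxJ : x ∈ limitSet s K (A : Set E) := ⟨ω, hωA, hx⟩
    refine ⟨x, hxJ, ?_⟩
    obtain ⟨ω', h1, h2, h3⟩ := hgx _ hxJ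
    have h4 := huniq _ ω ω' hωA h1 hx h2
    rw [h3, ← h4]
    exact (S'.pt_unique hyI).symm
  have h1 : (1 : ℝ≥0∞) ≤ dimH (g '' limitSet s K (A : Set E)) := by
    have h2 : dimH (Icc (0 : ℝ) 1) = 1 := by
      have := Real.dimH_of_nonempty_interior (E := ℝ) (s := Icc (0 : ℝ) 1)
        (by rw [interior_Icc]; exact ⟨1 / 2, by norm_num, by norm_num⟩)
      simpa using this
    rw [← h2]
    exact dimH_mono himg
  have h2 := hhol.dimH_image_le (Real.toNNReal_pos.2 ht)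
  have h3 := h1.trans h2
  have hs' : ((t.toNNReal : ℝ≥0) : ℝ≥0∞) = ENNReal.ofReal t := rfl
  rwa [hs', ENNReal.le_div_iff_mul_le (Or.inl (ENNReal.ofReal_pos.2 ht).ne')
    (Or.inl ENNReal.ofReal_ne_top), one_mul] at h3

/-- Points of the limit set are images of points of the limit set. -/
lemma exists_preimage {A : Finset E} {r : E → ℝ} (hr0 : ∀ e ∈ A, 0 < r e)
    (hK : ∀ e ∈ A, MapsTo (s e) K K)
    (hlip : ∀ e ∈ A, ∀ x ∈ K, ∀ y ∈ K, r e * dist x y ≤ dist (s e x) (s e y)) {x : Z}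
    (hx : x ∈ limitSet s K (A : Set E)) :
    ∃ e ∈ A, ∃ x' ∈ limitSet s K (A : Set E), x = s e x' := by
  obtain ⟨ω, h1, h2⟩ := hx
  have hω' : ∀ n, ω (n + 1) ∈ A := fun n => h1 (n + 1)
  have h3 : ∀ n, ∃ y ∈ cmp s (fun k => ω (k + 1)) n '' K, x = s (ω 0) y := by
    intro n
    obtain ⟨z, hz, hzx⟩ := h2 (n + 1)
    rw [cmp_succ'] at hzx
    exact ⟨_, ⟨z, hz, rfl⟩, hzx.symm⟩
  obtain ⟨x', hx'K, hx'⟩ := h3 0
  have hx'K' : x' ∈ K := by
    obtain ⟨z, hz, rfl⟩ := hx'K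
    exact hz
  refine ⟨ω 0, h1 0, x', ⟨fun k => ω (k + 1), hω', fun n => ?_⟩, hx'⟩
  obtain ⟨y, hy, hxy⟩ := h3 n
  have hyK : y ∈ K := by
    obtain ⟨z, hz, rfl⟩ := hy
    exact cmp_mapsTo hK hω' n hz
  have h4 := hlip _ (h1 0) x' hx'K' y hyK
  rw [← hx', ← hxy, dist_self] at h4
  have h5 : dist x' y = 0 := by
    have := hr0 _ (h1 0)
    have h6 := @dist_nonneg _ _ x' y
    by_contra hne
    have : 0 < dist x' y := lt_of_le_of_ne h6 (Ne.symm hne)
    nlinarith [mul_pos (hr0 _ (h1 0)) this]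
  rw [dist_eq_zero] at h5
  rw [h5]
  exact hy

end Q91.ExpSys
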