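import Pool.Agent.H373R2.NB.Weyl

set_option autoImplicit false

/-! Polynomial phases in the binomial basis. -/

namespace Pool.Agent.Q91.FO

open Finset
open Pool.Agent.H373R2.NB (Ph)

lemma Ph_congr {d : ℕ} {α β : ℝ} {φ ψ : ℕ → ℝ} (h : Ph d α φ) (h1 : α = β) (h2 : ∀ n, φ n = ψ n) :
    Ph d β ψ := by
  have : φ = ψ := funext h2
  rw [← h1, ← this]; exact h

lemma Ph_add (d : ℕ) : ∀ (α β : ℝ) (φ ψ : ℕ → ℝ), Ph d α φ → Ph d β ψ →
    Ph d (α + β) (fun n => φ n + ψ n) := by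
  induction d with
  | zero =>
    intro α β φ ψ h1 h2 n
    show φ n + ψ n = α + β
    rw [h1 n, h2 n]
  | succ d ih =>
    intro α β φ ψ h1 h2 h
    refine Ph_congr (ih _ _ _ _ (h1 h) (h2 h)) (by ring) (fun n => by ring)

lemma Ph_shift (d : ℕ) : ∀ (α : ℝ) (φ : ℕ → ℝ) (k : ℕ), Ph d α φ → Ph d α (fun n => φ (n + k)) := by
  induction d with
  | zero => intro α φ k h n; exact h _
  | succ d ih =>
    intro α φ k h j
    refine Ph_congr (ih _ _ k (h j)) rfl (fun n => ?_)
    show φ (n + k + j) - φ (n + k) = φ (n + j + k) - φ (n + k)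
    rw [show n + k + j = n + j + k by ring]

lemma Ph_smul (d : ℕ) : ∀ (c α : ℝ) (φ : ℕ → ℝ), Ph d α φ → Ph d (c * α) (fun n => c * φ n) := by
  induction d with
  | zero => intro c α φ h n; show c * φ n = c * α; rw [h n]
  | succ d ih =>
    intro c α φ h j
    exact Ph_congr (ih c _ _ (h j)) (by ring) (fun n => by ring)

lemma Ph_up (d : ℕ) (α : ℝ) (φ : ℕ → ℝ) (h : Ph d α φ) : Ph (d + 1) 0 φ := by
  intro j
  exact Ph_congr (Ph_add d _ _ _ _ (Ph_shift d _ _ j h) (Ph_smul d (-1) _ _ h)) (by ring)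
    (fun n => by ring)

lemma Ph_sum (d : ℕ) (α : ℝ) (φ : ℕ → ℕ → ℝ) (h : ∀ i, Ph d α (φ i)) (k : ℕ) :
    Ph d (k * α) (fun n => ∑ i ∈ range k, φ i n) := by
  induction k with
  | zero =>
    refine Ph_congr (Ph_smul d 0 _ _ (h 0)) (by simp) (fun n => by simp)
  | succ k ih =>
    refine Ph_congr (Ph_add d _ _ _ _ ih (h k)) (by push_cast; ring) (fun n => ?_)
    rw [sum_range_succ]

lemma choose_diff (n h d : ℕ) : ((n + h).choose (d + 1) : ℝ) - n.choose (d + 1) =
    ∑ k ∈ range h, ((n + k).choose d : ℝ) := by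
  induction h with
  | zero => simp
  | succ h ih =>
    rw [sum_range_succ, ← ih, show n + (h + 1) = (n + h) + 1 by ring, Nat.choose_succ_succ]
    push_cast; ring

lemma Ph_choose (d : ℕ) : Ph d 1 (fun n => (n.choose d : ℝ)) := by
  induction d with
  | zero => intro n; simp
  | succ d ih =>
    intro h
    refine Ph_congr (Ph_sum d 1 (fun k n => ((n + k).choose d : ℝ)) (fun k => Ph_shift d 1 _ k ih) h) rfl
      (fun n => (choose_diff n h d).symm)

/-- a polynomial in the binomial basis -/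
lemma Ph_binom (a : ℕ → ℝ) (d : ℕ) : Ph d (a d) (fun n => ∑ i ∈ range (d + 1), a i * (n.choose i : ℝ)) := by
  induction d with
  | zero =>
    intro n
    show ∑ i ∈ range (0 + 1), a i * (n.choose i : ℝ) = a 0
    simp
  | succ d ih =>
    refine Ph_congr (Ph_add (d + 1) _ _ _ _ (Ph_up d _ _ ih) (Ph_smul (d + 1) (a (d + 1)) _ _ (Ph_choose (d + 1))))
      (by ring) (fun n => ?_)
    rw [sum_range_succ (fun i => a i * (n.choose i : ℝ)) (d + 1)]

/-- truncation of the binomial expansion -/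
lemma trunc (w : ℤ) (t d : ℕ) : w ^ (d + 1) ∣ (1 + w) ^ t - ∑ i ∈ range (d + 1), w ^ i * (t.choose i : ℤ) := by
  have h1 : (1 + w) ^ t = ∑ i ∈ range ((t + 1) + (d + 1)), w ^ i * (t.choose i : ℤ) := by
    rw [add_comm 1 w, add_pow, sum_range_add _ (t + 1) (d + 1)]
    have h0 : ∑ i ∈ range (d + 1), w ^ (t + 1 + i) * ((t.choose (t + 1 + i) : ℕ) : ℤ) = 0 := by
      apply sum_eq_zero
      intro i _
      rw [Nat.choose_eq_zero_of_lt (by omega)]; simp
    rw [h0, add_zero]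
    exact sum_congr rfl fun i _ => by rw [one_pow, mul_one]
  rw [h1, show (t + 1) + (d + 1) = (d + 1) + (t + 1) by ring, sum_range_add _ (d + 1) (t + 1), add_sub_cancel_left]
  apply dvd_sum
  intro i _
  rw [pow_add w (d + 1) i, mul_assoc]
  exact dvd_mul_right _ _

end Pool.Agent.Q91.FO
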