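import Mathlib

set_option autoImplicit false

/-! Valuations of `b ^ (L m) - 1`. -/

namespace Pool.Agent.Q91.FO

open Finset

lemma emul_cast (p n : ℕ) (hp : p.Prime) (hn : n ≠ 0) :
    emultiplicity (p : ℤ) (n : ℤ) = (padicValNat p n : ℕ∞) := by
  have : Fact p.Prime := ⟨hp⟩
  rw [Int.natCast_emultiplicity, padicValNat_eq_emultiplicity hn]

lemma dvd_base {b L p : ℕ} (hp : p.Prime) (hpb : ¬ p ∣ b) (hL : 2 * (p - 1) ∣ L) :
    (p : ℤ) ∣ (b : ℤ) ^ L - 1 ∧ (p = 2 → (4 : ℤ) ∣ (b : ℤ) ^ L - 1) := by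
  obtain ⟨k, rfl⟩ := hL
  have : Fact p.Prime := ⟨hp⟩
  constructor
  · have h1 : ((b : ZMod p)) ^ (p - 1) = 1 := by
      apply ZMod.pow_card_sub_one_eq_one
      rw [Ne, ZMod.natCast_eq_zero_iff]; exact hpb
    rw [← ZMod.intCast_zmod_eq_zero_iff_dvd]
    push_cast
    rw [show 2 * (p - 1) * k = (p - 1) * (2 * k) by ring, pow_mul, h1, one_pow, sub_self]
  · rintro rfl
    have hb : b % 2 = 1 := by omega
    have h1 : (4 : ℤ) ∣ (b : ℤ) ^ 2 - 1 := by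
      obtain ⟨c, hc⟩ : ∃ c : ℤ, (b : ℤ) = 2 * c + 1 := ⟨b / 2, by omega⟩
      rw [hc]
      exact ⟨c ^ 2 + c, by ring⟩
    have h2 : (b : ℤ) ^ 2 - 1 ∣ ((b : ℤ) ^ 2) ^ k - 1 := by
      have := sub_dvd_pow_sub_pow ((b : ℤ) ^ 2) 1 k
      rwa [one_pow] at this
    have h3 : 2 * (2 - 1) * k = 2 * k := by norm_num
    rw [h3, pow_mul]
    exact h1.trans h2

/-- lifting the exponent -/
lemma lte {b L p : ℕ} (hb : 2 ≤ b) (hp : p.Prime) (hpb : ¬ p ∣ b) (hL : 2 * (p - 1) ∣ L) (hL0 : L ≠ 0)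
    {m : ℕ} (hm : m ≠ 0) :
    padicValNat p (b ^ (L * m) - 1) = padicValNat p (b ^ L - 1) + padicValNat p m := by
  obtain ⟨h1, h4⟩ := dvd_base hp hpb hL
  have hpint : Prime (p : ℤ) := Nat.prime_iff_prime_int.1 hp
  have hnB : ¬ (p : ℤ) ∣ (b : ℤ) ^ L := by
    intro h
    have := hpint.dvd_of_dvd_pow h
    exact hpb (by exact_mod_cast this)
  have hmul : emultiplicity (p : ℤ) (((b : ℤ) ^ L) ^ m - 1 ^ m) = emultiplicity (p : ℤ) ((b : ℤ) ^ L - 1) +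
      emultiplicity (p : ℤ) (m : ℤ) := by
    rcases hp.eq_two_or_odd' with rfl | hodd
    · have := Int.two_pow_sub_pow' m (x := (b : ℤ) ^ L) (y := 1) (h4 rfl) (by exact_mod_cast hnB)
      exact_mod_cast this
    · have := Int.emultiplicity_pow_sub_pow hp hodd (x := (b : ℤ) ^ L) (y := 1) h1 hnB m
      rw [this]
      congr 1
      exact (Int.natCast_emultiplicity p m).symm
  have hb1 : ∀ k : ℕ, k ≠ 0 → 2 ≤ b ^ k := fun k hk => hb.trans (Nat.le_self_pow hk b)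
  have e1 : ((b : ℤ) ^ L) ^ m - 1 ^ m = ((b ^ (L * m) - 1 : ℕ) : ℤ) := by
    rw [Nat.cast_sub ((by norm_num : 1 ≤ 2).trans (hb1 (L * m) (Nat.mul_ne_zero hL0 hm)))]
    push_cast; rw [pow_mul, one_pow]
  have e2 : (b : ℤ) ^ L - 1 = ((b ^ L - 1 : ℕ) : ℤ) := by
    rw [Nat.cast_sub ((by norm_num : 1 ≤ 2).trans (hb1 L hL0))]
    push_cast; rfl
  have n1 : b ^ (L * m) - 1 ≠ 0 := by have := hb1 (L * m) (Nat.mul_ne_zero hL0 hm); omega
  have n2 : b ^ L - 1 ≠ 0 := by have := hb1 L hL0; omega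
  rw [e1, e2, emul_cast p _ hp n1, emul_cast p _ hp n2, emul_cast p m hp hm] at hmul
  exact_mod_cast hmul

/-- a bound for the valuation of the base -/
lemma val_base {b y p : ℕ} (hb : 2 ≤ b) (hp : p.Prime) (hpb : ¬ p ∣ b) (hpy : p ≤ y) :
    padicValNat p (b ^ (2 * y.factorial) - 1) ≤ 2 * b * y + y ^ 2 := by
  have : Fact p.Prime := ⟨hp⟩
  have hp2 := hp.two_le
  have hy0 : 0 < y := by omega
  obtain ⟨m, hm⟩ : p - 1 ∣ y.factorial := Nat.dvd_factorial (by omega) (by omega)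
  have hm0 : m ≠ 0 := by
    rintro rfl
    exact Nat.factorial_ne_zero y (by rw [hm, mul_zero])
  rw [hm, show 2 * ((p - 1) * m) = (2 * (p - 1)) * m by ring,
    lte hb hp hpb (dvd_refl _) (by omega) hm0]
  have g1 : ∀ n : ℕ, n ≠ 0 → 2 ^ padicValNat p n ≤ n := by
    intro n hn
    calc 2 ^ padicValNat p n ≤ p ^ padicValNat p n := Nat.pow_le_pow_left hp2 _
      _ ≤ n := Nat.le_of_dvd (Nat.pos_of_ne_zero hn) pow_padicValNat_dvd
  have hbb : b ^ (2 * (p - 1)) ≤ 2 ^ (2 * b * y) := by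
    calc b ^ (2 * (p - 1)) ≤ (2 ^ b) ^ (2 * (p - 1)) := Nat.pow_le_pow_left (Nat.lt_two_pow_self).le _
      _ = 2 ^ (b * (2 * (p - 1))) := by rw [← pow_mul]
      _ ≤ 2 ^ (2 * b * y) := by
        apply Nat.pow_le_pow_right (by norm_num)
        calc b * (2 * (p - 1)) ≤ b * (2 * y) := Nat.mul_le_mul_left _ (by omega)
          _ = 2 * b * y := by ring
  have hb1 : 2 ≤ b ^ (2 * (p - 1)) := hb.trans (Nat.le_self_pow (by omega) b)
  have a1 : padicValNat p (b ^ (2 * (p - 1)) - 1) ≤ 2 * b * y := by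
    have h := g1 _ (show b ^ (2 * (p - 1)) - 1 ≠ 0 by omega)
    exact (Nat.pow_le_pow_iff_right (by norm_num : 1 < 2)).1 (h.trans ((Nat.sub_le _ _).trans hbb))
  have a2 : padicValNat p m ≤ y ^ 2 := by
    have h := g1 m hm0
    have h2 : m ≤ y.factorial := by
      rw [hm]; exact Nat.le_mul_of_pos_left _ (by omega)
    have h3 : y.factorial ≤ y ^ y := Nat.factorial_le_pow y
    have h4 : y ^ y ≤ 2 ^ (y ^ 2) := by
      calc y ^ y ≤ (2 ^ y) ^ y := Nat.pow_le_pow_left (Nat.lt_two_pow_self).le _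
        _ = 2 ^ (y ^ 2) := by rw [← pow_mul, sq]
    exact (Nat.pow_le_pow_iff_right (by norm_num : 1 < 2)).1 (h.trans (h2.trans (h3.trans h4)))
  omega

end Pool.Agent.Q91.FO
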