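import Pool.Agent.Q91.FO2

set_option autoImplicit false

/-! The period for which the powers of `b` are a polynomial of degree `d` modulo `v`. -/

namespace Pool.Agent.Q91.FO

open Finset

lemma prod_fact (P : Finset ℕ) (hP : ∀ x ∈ P, x.Prime) (e : ℕ → ℕ) {p : ℕ} (hp : p ∈ P) :
    (∏ x ∈ P, x ^ e x).factorization p = e p := by
  rw [Nat.factorization_prod fun x hx => pow_ne_zero _ (hP x hx).ne_zero, Finsupp.finsetSum_apply,
    sum_eq_single p]
  · rw [Nat.factorization_pow, Finsupp.smul_apply, (hP p hp).factorization_self, smul_eq_mul, mul_one]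
  · intro x hx hxp
    rw [Nat.factorization_pow, Finsupp.smul_apply, (hP x hx).factorization, Finsupp.single_apply,
      if_neg hxp, smul_zero]
  · intro h; exact absurd hp h

theorem period {b y d v r0 : ℕ} (hb : 2 ≤ b) (hd : 1 ≤ d) (hv0 : v ≠ 0) (hvb : Nat.Coprime v b)
    (hvy : ∀ p : ℕ, p.Prime → p ∣ v → p ≤ y)
    (hbig : 2 ^ (((d + 1) * (r0 + d) + d * (2 * b * y + y ^ 2 + 1)) * y ^ 2) < v) :
    ∃ M p r A : ℕ, 1 ≤ M ∧ M ^ d ≤ (2 * y.factorial * y ^ y) ^ d * v ∧ p.Prime ∧ p ≤ y ∧ r0 ≤ r ∧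
      r ≤ r0 + d ∧ v ∣ (b ^ M - 1) ^ (d + 1) ∧ (b ^ M - 1) ^ d * p ^ r = v * A ∧ ¬ p ∣ A := by
  classical
  set P := v.primeFactors with hP
  have hPp : ∀ x ∈ P, x.Prime := fun x hx => Nat.prime_of_mem_primeFactors hx
  have hPd : ∀ x ∈ P, x ∣ v := fun x hx => Nat.dvd_of_mem_primeFactors hx
  have hPy : ∀ x ∈ P, x ≤ y := fun x hx => hvy x (hPp x hx) (hPd x hx)
  have hPb : ∀ x ∈ P, ¬ x ∣ b := by
    intro x hx h
    have := Nat.Coprime.eq_one_of_dvd (hvb.coprime_dvd_left (hPd x hx)) h
    exact (hPp x hx).one_lt.ne' this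
  have hv1 : 1 < v := lt_of_le_of_lt (Nat.one_le_two_pow) hbig
  have hPne : P.Nonempty := Nat.nonempty_primeFactors.2 hv1
  set n := fun x => v.factorization x with hn
  obtain ⟨p, hpP, hpmax⟩ := exists_max_image P (fun x => x ^ n x) hPne
  have hp := hPp p hpP
  have hpy := hPy p hpP
  have hy2 : 2 ≤ y := hp.two_le.trans hpy
  have hPcard : P.card ≤ y := by
    have : P ⊆ Icc 1 y := fun x hx => mem_Icc.2 ⟨(hPp x hx).one_lt.le, hPy x hx⟩
    have := card_le_card this
    rwa [Nat.card_Icc, Nat.add_sub_cancel] at this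
  have hvprod : v = ∏ x ∈ P, x ^ n x := by
    conv_lhs => rw [← Nat.prod_factorization_pow_eq_self hv0]
    rfl
  set T := (d + 1) * (r0 + d) + d * (2 * b * y + y ^ 2 + 1) with hT
  -- the largest prime power is large
  have hnp : T < n p := by
    by_contra hcon
    push Not at hcon
    have h1 : v ≤ (p ^ n p) ^ P.card := by
      conv_lhs => rw [hvprod]
      calc ∏ x ∈ P, x ^ n x ≤ ∏ x ∈ P, p ^ n p := prod_le_prod' fun x hx => hpmax x hx
        _ = _ := by rw [prod_const]
    have h2 : (p ^ n p) ^ P.card ≤ 2 ^ (T * y ^ 2) := by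
      calc (p ^ n p) ^ P.card ≤ (p ^ n p) ^ y := Nat.pow_le_pow_right (Nat.pow_pos hp.pos) hPcard
        _ ≤ ((2 ^ y) ^ T) ^ y := by
          apply Nat.pow_le_pow_left
          calc p ^ n p ≤ p ^ T := Nat.pow_le_pow_right hp.pos hcon
            _ ≤ (2 ^ y) ^ T := Nat.pow_le_pow_left (hpy.trans (Nat.lt_two_pow_self).le) _
        _ = 2 ^ (T * y ^ 2) := by rw [← pow_mul, ← pow_mul]; congr 1; ring
    exact absurd (h1.trans h2) (not_le.2 hbig)
  set L := 2 * y.factorial with hL
  have hL0 : L ≠ 0 := by have := Nat.factorial_pos y; omega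
  set v0 := fun x : ℕ => padicValNat x (b ^ L - 1) with hv0d
  have hv0le : v0 p ≤ 2 * b * y + y ^ 2 := val_base hb hp (hPb p hpP) hpy
  set V := (n p - r0) / d with hV
  have hT1 : (d + 1) * (r0 + d) + d * (2 * b * y + y ^ 2 + 1) < n p := hnp
  have hdiv : d * V + (n p - r0) % d = n p - r0 := Nat.div_add_mod _ _
  have hmod : (n p - r0) % d < d := Nat.mod_lt _ hd
  have hr0n : r0 ≤ n p := by nlinarith
  have hVv0 : v0 p ≤ V := by
    rw [hV, Nat.le_div_iff_mul_le hd]
    have : v0 p * d ≤ d * (2 * b * y + y ^ 2) := by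
      rw [mul_comm]; exact Nat.mul_le_mul_left _ hv0le
    have h2 : d * (2 * b * y + y ^ 2) ≤ d * (2 * b * y + y ^ 2 + 1) := Nat.mul_le_mul_left _ (by omega)
    have h3 : r0 ≤ (d + 1) * (r0 + d) := by nlinarith
    omega
  have hVr : r0 + d ≤ V := by
    rw [hV, Nat.le_div_iff_mul_le hd]
    have h3 : (r0 + d) * d + r0 ≤ (d + 1) * (r0 + d) := by nlinarith
    omega
  set r := n p - d * V with hr
  have hrn : d * V + r = n p := by omega
  have hr1 : r0 ≤ r := by omega
  have hr2 : r ≤ r0 + d := by omega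
  set e := fun x : ℕ => if x = p then V - v0 p else n x / d + 1 with he
  set m := ∏ x ∈ P, x ^ e x with hm
  have hm0 : m ≠ 0 := prod_ne_zero_iff.2 fun x hx => pow_ne_zero _ (hPp x hx).ne_zero
  set M := L * m with hM
  have hM1 : 1 ≤ M := Nat.one_le_iff_ne_zero.2 (Nat.mul_ne_zero hL0 hm0)
  set w := b ^ M - 1 with hw
  have hw0 : w ≠ 0 := by
    have : 2 ≤ b ^ M := hb.trans (Nat.le_self_pow (by omega) b)
    omega
  have hval : ∀ x ∈ P, w.factorization x = v0 x + e x := by
    intro x hx
    rw [Nat.factorization_def _ (hPp x hx), hw, hM,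
      lte hb (hPp x hx) (hPb x hx) (Nat.mul_dvd_mul_left 2 (Nat.dvd_factorial (by have := (hPp x hx).two_le; omega)
        (by have := hPy x hx; omega))) hL0 hm0, ← Nat.factorization_def m (hPp x hx), hm, prod_fact P hPp e hx]
  have hvalp : w.factorization p = V := by
    rw [hval p hpP, he]; simp only [if_true]; omega
  have hvalx : ∀ x ∈ P, x ≠ p → n x ≤ d * w.factorization x := by
    intro x hx hxp
    rw [hval x hx, he]
    simp only [if_neg hxp]
    have := Nat.lt_mul_div_succ (n x) hd
    calc n x ≤ d * (n x / d + 1) := this.le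
      _ ≤ d * (v0 x + (n x / d + 1)) := Nat.mul_le_mul_left _ (by omega)
  refine ⟨M, p, r, (w ^ d * p ^ r) / v, hM1, ?_, hp, hpy, hr1, hr2, ?_, ?_, ?_⟩
  · -- size
    have h1 : m ^ d ≤ v * (y ^ y) ^ d := by
      have h2 : m ^ d ≤ ∏ x ∈ P, x ^ (n x + d) := by
        rw [hm, ← prod_pow]
        apply prod_le_prod'
        intro x hx
        rw [← pow_mul]
        apply Nat.pow_le_pow_right (hPp x hx).pos
        rw [he]
        by_cases hxp : x = p
        · simp only [if_pos hxp]
          rw [hxp]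
          have : (V - v0 p) * d ≤ d * V := by
            rw [mul_comm]; exact Nat.mul_le_mul_left _ (Nat.sub_le _ _)
          omega
        · simp only [if_neg hxp]
          have := Nat.div_mul_le_self (n x) d
          rw [add_mul, one_mul]; omega
      have h3 : ∏ x ∈ P, x ^ (n x + d) = v * (∏ x ∈ P, x) ^ d := by
        conv_rhs => rw [hvprod]
        rw [← prod_pow, ← prod_mul_distrib]
        exact prod_congr rfl fun x _ => pow_add _ _ _
      have h4 : ∏ x ∈ P, x ≤ y ^ y := by
        calc ∏ x ∈ P, x ≤ ∏ x ∈ P, y := prod_le_prod' fun x hx => hPy x hx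
          _ = y ^ P.card := by rw [prod_const]
          _ ≤ y ^ y := Nat.pow_le_pow_right (by omega) hPcard
      rw [h3] at h2
      exact h2.trans (Nat.mul_le_mul_left _ (Nat.pow_le_pow_left h4 d))
    rw [hM, mul_pow]
    calc L ^ d * m ^ d ≤ L ^ d * (v * (y ^ y) ^ d) := Nat.mul_le_mul_left _ h1
      _ = (2 * y.factorial * y ^ y) ^ d * v := by rw [mul_pow (2 * y.factorial), ← hL]; ring
  · rw [← Nat.factorization_prime_le_iff_dvd hv0 (pow_ne_zero _ hw0)]
    intro x hx
    rw [Nat.factorization_pow, Finsupp.smul_apply, smul_eq_mul]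
    by_cases hxP : x ∈ P
    · by_cases hxp : x = p
      · rw [hxp, hvalp]
        have : (d + 1) * V = d * V + V := by ring
        show n p ≤ _
        omega
      · have := hvalx x hxP hxp
        show n x ≤ _
        calc n x ≤ d * w.factorization x := this
          _ ≤ (d + 1) * w.factorization x := Nat.mul_le_mul_right _ (by omega)
    · rw [Nat.factorization_eq_zero_of_not_dvd]
      · exact Nat.zero_le _
      · intro h; exact hxP (Nat.mem_primeFactors.2 ⟨hx, h, hv0⟩)
  · rw [Nat.mul_div_cancel']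
    rw [← Nat.factorization_prime_le_iff_dvd hv0 (mul_ne_zero (pow_ne_zero _ hw0) (pow_ne_zero _ hp.ne_zero))]
    intro x hx
    rw [Nat.factorization_mul (pow_ne_zero _ hw0) (pow_ne_zero _ hp.ne_zero), Nat.factorization_pow,
      Nat.factorization_pow, Finsupp.add_apply, Finsupp.smul_apply, Finsupp.smul_apply, smul_eq_mul, smul_eq_mul]
    by_cases hxP : x ∈ P
    · by_cases hxp : x = p
      · rw [hxp, hvalp, hp.factorization_self, mul_one]
        show n p ≤ _
        omega
      · have := hvalx x hxP hxp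
        show n x ≤ _
        omega
    · rw [Nat.factorization_eq_zero_of_not_dvd]
      · exact Nat.zero_le _
      · intro h; exact hxP (Nat.mem_primeFactors.2 ⟨hx, h, hv0⟩)
  · have hdvd : v ∣ w ^ d * p ^ r := by
      rw [← Nat.factorization_prime_le_iff_dvd hv0 (mul_ne_zero (pow_ne_zero _ hw0) (pow_ne_zero _ hp.ne_zero))]
      intro x hx
      rw [Nat.factorization_mul (pow_ne_zero _ hw0) (pow_ne_zero _ hp.ne_zero), Nat.factorization_pow,
        Nat.factorization_pow, Finsupp.add_apply, Finsupp.smul_apply, Finsupp.smul_apply, smul_eq_mul, smul_eq_mul]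
      by_cases hxP : x ∈ P
      · by_cases hxp : x = p
        · rw [hxp, hvalp, hp.factorization_self, mul_one]
          show n p ≤ _
          omega
        · have := hvalx x hxP hxp
          show n x ≤ _
          omega
      · rw [Nat.factorization_eq_zero_of_not_dvd]
        · exact Nat.zero_le _
        · intro h; exact hxP (Nat.mem_primeFactors.2 ⟨hx, h, hv0⟩)
    intro hpA
    have hA0 : w ^ d * p ^ r / v ≠ 0 := by
      intro h0
      have := Nat.div_mul_cancel hdvd
      rw [h0, zero_mul] at this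
      exact mul_ne_zero (pow_ne_zero _ hw0) (pow_ne_zero _ hp.ne_zero) this.symm
    have h1 : (w ^ d * p ^ r / v).factorization p = 0 := by
      rw [Nat.factorization_div hdvd, Finsupp.tsub_apply,
        Nat.factorization_mul (pow_ne_zero _ hw0) (pow_ne_zero _ hp.ne_zero), Nat.factorization_pow,
        Nat.factorization_pow, Finsupp.add_apply, Finsupp.smul_apply, Finsupp.smul_apply, smul_eq_mul,
        smul_eq_mul, hvalp, hp.factorization_self, mul_one]
      show d * V + r - n p = 0
      omega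
    have h2 := (hp.factorization_pos_of_dvd hA0 hpA)
    omega

end Pool.Agent.Q91.FO
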