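import Pool.Agent.Q91.FO1
import Pool.Agent.Q91.FO3

set_option autoImplicit false

/-! Short sums of `e(h C b^k / v)` for smooth `v`. -/

namespace Pool.Agent.Q91.FO

open Finset
open Pool.Agent.H373R2.NB (Ph IW_all)
open Pool.Agent.Helper602.MK (ee)
open Pool.Agent.Helper602.MK.N_J5b (norm_ee ee_add ee_int)

lemma ee_add_int (x : ℝ) (n : ℤ) : ee (x + n) = ee x := by rw [ee_add, ee_int, mul_one]

lemma sum_blocks (f : ℕ → ℂ) (M N : ℕ) :
    ∑ k ∈ range (M * N), f k = ∑ t ∈ range N, ∑ s ∈ range M, f (M * t + s) := by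
  induction N with
  | zero => simp
  | succ N ih => rw [Nat.mul_succ, sum_range_add, ih, sum_range_succ]

lemma sum_split (f : ℕ → ℂ) (hf : ∀ k, ‖f k‖ ≤ 1) (M N' : ℕ) (hM : 1 ≤ M) (ε : ℝ)
    (h : ∀ s < M, ‖∑ t ∈ range (N' / M), f (M * t + s)‖ ≤ ε * ((N' / M : ℕ) : ℝ)) :
    ‖∑ k ∈ range N', f k‖ ≤ ε * ((M * (N' / M) : ℕ) : ℝ) + M := by
  conv_lhs => rw [← Nat.div_add_mod N' M]
  rw [sum_range_add, sum_blocks, sum_comm]
  refine (norm_add_le _ _).trans (add_le_add ?_ ?_)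
  · refine (norm_sum_le _ _).trans ?_
    refine (sum_le_sum fun s hs => h s (mem_range.1 hs)).trans ?_
    rw [sum_const, card_range, nsmul_eq_mul]
    apply le_of_eq
    push_cast; ring
  · refine (norm_sum_le _ _).trans ?_
    refine (sum_le_sum fun s _ => hf _).trans ?_
    rw [sum_const, card_range, nsmul_eq_mul, mul_one]
    exact_mod_cast (Nat.mod_lt _ hM).le

/-- one residue class -/
lemma one_class {b M d v s p r A : ℕ} {h C : ℤ} (hh : h ≠ 0) (hv0 : v ≠ 0) (hp : p.Prime) (hpb : ¬ p ∣ b)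
    (hpv : ¬ (p : ℤ) ∣ C) (h1 : v ∣ (b ^ M - 1) ^ (d + 1)) (h2 : (b ^ M - 1) ^ d * p ^ r = v * A)
    (hpA : ¬ p ∣ A) (hb : 1 ≤ b) {B : ℝ} (hBh : B * |(h : ℝ)| < 2 ^ r) (N : ℕ) (hN : B * p ^ r < (N : ℝ) ^ d) :
    ∃ (α : ℝ) (φ : ℕ → ℝ), Ph d α φ ∧
      (∀ t, ee (h * C * (b : ℝ) ^ (M * t + s) / v) = ee (φ t)) ∧
      ¬ ∃ q : ℕ, 1 ≤ q ∧ (q : ℝ) ≤ B ∧ ∃ a : ℤ, |q * α - a| ≤ B / (N : ℝ) ^ d := by
  have hbM : 1 ≤ b ^ M := Nat.one_le_pow _ _ hb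
  have hvr : (v : ℝ) ≠ 0 := by exact_mod_cast hv0
  obtain ⟨w, hw⟩ : ∃ w : ℤ, w = (b : ℤ) ^ M - 1 := ⟨_, rfl⟩
  have hwc : ((b ^ M - 1 : ℕ) : ℤ) = w := by rw [Nat.cast_sub hbM, hw]; push_cast; ring
  obtain ⟨β, hβ⟩ : ∃ β : ℝ, β = h * C * (b : ℝ) ^ s / v := ⟨_, rfl⟩
  refine ⟨β * (w : ℝ) ^ d, fun t => ∑ i ∈ range (d + 1), (β * (w : ℝ) ^ i) * (t.choose i : ℝ),
    Ph_binom (fun i => β * (w : ℝ) ^ i) d, ?_, ?_⟩
  · intro t
    obtain ⟨Z, hZ⟩ := trunc w t d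
    have h1' : (v : ℤ) ∣ w ^ (d + 1) := by
      rw [← hwc]; exact_mod_cast h1
    obtain ⟨Y, hY⟩ := h1'
    have e1 : (b : ℝ) ^ (M * t) = ((1 + (w : ℝ)) ^ t) := by
      rw [hw]; push_cast
      rw [pow_mul]; ring
    have e2 : (1 + (w : ℝ)) ^ t = ∑ i ∈ range (d + 1), (w : ℝ) ^ i * (t.choose i : ℝ) + v * Y * Z := by
      have e3 : ((1 + w) ^ t : ℤ) = ∑ i ∈ range (d + 1), w ^ i * (t.choose i : ℤ) + v * Y * Z := by
        rw [← hY, ← hZ]; ring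
      have e4 := congrArg (fun z : ℤ => (z : ℝ)) e3
      push_cast at e4
      exact e4
    have e5 : h * C * (b : ℝ) ^ (M * t + s) / v = ∑ i ∈ range (d + 1), (β * (w : ℝ) ^ i) * (t.choose i : ℝ) +
        ((h * C * (b : ℤ) ^ s * Y * Z : ℤ) : ℝ) := by
      have e6 : ∑ i ∈ range (d + 1), (β * (w : ℝ) ^ i) * (t.choose i : ℝ) =
          β * ∑ i ∈ range (d + 1), (w : ℝ) ^ i * (t.choose i : ℝ) := by
        rw [mul_sum]; exact sum_congr rfl fun i _ => by ring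
      rw [e6, pow_add, e1, e2, hβ]
      push_cast
      field_simp
    rw [e5, ee_add_int]
  · rintro ⟨q, hq1, hqB, a, ha⟩
    have hp0 : (0 : ℝ) < (p : ℝ) ^ r := by have := hp.pos; positivity
    have hNd : 0 < (N : ℝ) ^ d := by
      refine lt_of_le_of_lt ?_ hN
      have : 0 ≤ B := le_trans (by positivity) hqB
      positivity
    -- multiply by p ^ r
    have e1 : β * (w : ℝ) ^ d * p ^ r = ((h * C * (b : ℤ) ^ s * A : ℤ) : ℝ) := by
      have e2 : (w : ℝ) ^ d * p ^ r = v * A := by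
        have e3 : (w ^ d * p ^ r : ℤ) = v * A := by
          rw [← hwc]; exact_mod_cast h2
        exact_mod_cast e3
      rw [mul_assoc, e2, hβ]
      push_cast
      field_simp
    have e4 : |((q * (h * C * (b : ℤ) ^ s * A) - a * p ^ r : ℤ) : ℝ)| < 1 := by
      have e5 : ((q * (h * C * (b : ℤ) ^ s * A) - a * p ^ r : ℤ) : ℝ) = (q * (β * (w : ℝ) ^ d) - a) * p ^ r := by
        have : ((q * (h * C * (b : ℤ) ^ s * A) - a * p ^ r : ℤ) : ℝ) =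
          q * ((h * C * (b : ℤ) ^ s * A : ℤ) : ℝ) - a * p ^ r := by push_cast; ring
        rw [this, ← e1]; ring
      rw [e5, abs_mul, abs_of_pos hp0]
      calc |(q : ℝ) * (β * (w : ℝ) ^ d) - a| * p ^ r ≤ B / (N : ℝ) ^ d * p ^ r :=
            mul_le_mul_of_nonneg_right ha hp0.le
        _ = (B * p ^ r) / (N : ℝ) ^ d := by ring
        _ < 1 := by rw [div_lt_one hNd]; exact hN
    have e6 : (q * (h * C * (b : ℤ) ^ s * A) - a * p ^ r : ℤ) = 0 := by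
      rw [← Int.cast_abs] at e4
      have : |(q * (h * C * (b : ℤ) ^ s * A) - a * p ^ r : ℤ)| < 1 := by exact_mod_cast e4
      exact Int.abs_lt_one_iff.1 this
    have e7 : (p : ℤ) ^ r ∣ q * h * (C * (b : ℤ) ^ s * A) := ⟨a, by linarith [e6, mul_comm a ((p : ℤ) ^ r)]⟩
    have hpint : Prime (p : ℤ) := Nat.prime_iff_prime_int.1 hp
    have hnd : ¬ (p : ℤ) ∣ C * (b : ℤ) ^ s * A := by
      intro hd
      rcases hpint.dvd_or_dvd hd with hd | hd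
      · rcases hpint.dvd_or_dvd hd with hd | hd
        · exact hpv hd
        · exact hpb (by exact_mod_cast hpint.dvd_of_dvd_pow hd)
      · exact hpA (by exact_mod_cast hd)
    have e8 : (p : ℤ) ^ r ∣ q * h := by
      have hcop : IsCoprime ((p : ℤ) ^ r) (C * (b : ℤ) ^ s * A) :=
        ((hpint.coprime_iff_not_dvd).2 hnd).pow_left
      exact hcop.dvd_of_dvd_mul_right e7
    have hq0 : (q : ℤ) * h ≠ 0 := mul_ne_zero (by exact_mod_cast (by omega : q ≠ 0)) hh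
    have e9 := Int.le_of_dvd (abs_pos.2 hq0) ((dvd_abs _ _).2 e8)
    have e10 : (p : ℝ) ^ r ≤ q * |(h : ℝ)| := by
      have : ((p ^ r : ℤ) : ℝ) ≤ ((|(q : ℤ) * h| : ℤ) : ℝ) := by exact_mod_cast e9
      push_cast at this
      rwa [abs_mul, Nat.abs_cast] at this
    have e11 : (2 : ℝ) ^ r ≤ (p : ℝ) ^ r := pow_le_pow_left₀ (by norm_num) (by exact_mod_cast hp.two_le) _
    have e12 : (q : ℝ) * |(h : ℝ)| ≤ B * |(h : ℝ)| := mul_le_mul_of_nonneg_right hqB (abs_nonneg _)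
    linarith

end Pool.Agent.Q91.FO
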