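import Pool.Agent.Q91.FO4

set_option autoImplicit false

/-! Cancellation in short sums of `e(h C b^k / v)` for smooth `v`. -/

namespace Pool.Agent.Q91.FO

open Finset
open Pool.Agent.H373R2.NB (Ph IW_all)
open Pool.Agent.Helper602.MK (ee)
open Pool.Agent.Helper602.MK.N_J5b (norm_ee ee_add ee_int)

lemma pow_self_le (y : ℕ) : (y : ℝ) ^ y ≤ Real.exp ((y : ℝ) ^ 2) := by
  have h1 : (y : ℝ) ≤ Real.exp y := (by linarith [Real.add_one_le_exp (y : ℝ)])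
  calc (y : ℝ) ^ y ≤ (Real.exp y) ^ y := pow_le_pow_left₀ (Nat.cast_nonneg _) h1 _
    _ = Real.exp ((y : ℝ) ^ 2) := by rw [← Real.exp_nat_mul]; congr 1; ring

lemma fac_le (y : ℕ) : (2 * y.factorial * y ^ y : ℕ) ≤ Real.exp (3 * ((y : ℝ) + 1) ^ 2) := by
  have h1 := pow_self_le y
  have h2 : ((y.factorial : ℕ) : ℝ) ≤ (y : ℝ) ^ y := by exact_mod_cast Nat.factorial_le_pow y
  have h3 : (2 : ℝ) ≤ Real.exp 1 := by linarith [Real.add_one_le_exp (1 : ℝ)]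
  have hy : (0 : ℝ) ≤ y := Nat.cast_nonneg _
  push_cast
  calc 2 * ((y.factorial : ℕ) : ℝ) * (y : ℝ) ^ y ≤ Real.exp 1 * Real.exp ((y : ℝ) ^ 2) * Real.exp ((y : ℝ) ^ 2) := by
        have : ((y.factorial : ℕ) : ℝ) ≤ Real.exp ((y : ℝ) ^ 2) := h2.trans h1
        gcongr
    _ = Real.exp (1 + y ^ 2 + y ^ 2) := by rw [← Real.exp_add, ← Real.exp_add]
    _ ≤ _ := Real.exp_le_exp.2 (by nlinarith)

theorem core {b d : ℕ} (hb : 2 ≤ b) (hd : 1 ≤ d) {h : ℤ} (hh : h ≠ 0) {ε : ℝ} (hε : 0 < ε) :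
    ∃ K : ℕ, ∀ v y : ℕ, Nat.Coprime v b → (∀ p : ℕ, p.Prime → p ∣ v → p ≤ y) →
      Real.exp (K * ((y : ℝ) + 1) ^ 4) < v → ∀ C : ℤ, IsCoprime C (v : ℤ) → ∀ N' : ℕ,
      (v : ℝ) ^ 2 ≤ (N' : ℝ) ^ d → ‖∑ k ∈ range N', ee (h * C * (b : ℝ) ^ k / v)‖ ≤ ε * N' := by
  obtain ⟨c, m, hc, hI⟩ := IW_all d hd
  -- constants
  obtain ⟨ε', hε'0, hε'1, hε'2⟩ : ∃ ε' : ℝ, 0 < ε' ∧ ε' ≤ 1 ∧ ε' ≤ ε := ⟨min ε 1, lt_min hε one_pos, min_le_right _ _, min_le_left _ _⟩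
  set u : ℝ := 2 / ε' with hu
  have hu1 : 2 ≤ u := by rw [hu, le_div_iff₀ hε'0]; linarith
  set B : ℝ := c * u ^ m with hB
  have hc1 : (1 : ℝ) ≤ c := by exact_mod_cast hc
  have hB1 : 1 ≤ B := by
    have : 1 ≤ u ^ m := one_le_pow₀ (by linarith)
    nlinarith
  obtain ⟨r0, hr0⟩ : ∃ r0 : ℕ, B * |(h : ℝ)| < 2 ^ r0 := pow_unbounded_of_one_lt _ (by norm_num)
  set T0 : ℕ := (d + 1) * (r0 + d) + d * (2 * b + 1) with hT0
  set K : ℕ := T0 + d * (⌈u⌉₊ + 4) + ⌈B⌉₊ + (r0 + d) + 1 with hK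
  refine ⟨K, fun v y hvb hvy hbig C hC N' hN' => ?_⟩
  have hv0 : v ≠ 0 := by
    rintro rfl
    have := Real.exp_pos (K * ((y : ℝ) + 1) ^ 4)
    push_cast at hbig; linarith
  have hvr : (0 : ℝ) < v := by exact_mod_cast Nat.pos_of_ne_zero hv0
  have hy0 : (0 : ℝ) ≤ y := Nat.cast_nonneg _
  obtain ⟨E, hE⟩ : ∃ E : ℝ, E = ((y : ℝ) + 1) ^ 4 := ⟨_, rfl⟩
  rw [← hE] at hbig
  have hE2 : ((y : ℝ) + 1) ^ 2 ≤ E := by
    rw [hE]; exact pow_le_pow_right₀ (by linarith) (by norm_num)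
  have hE1 : 1 ≤ E := by rw [hE]; exact one_le_pow₀ (by linarith)
  have hEy : (y : ℝ) ≤ E := by nlinarith
  -- condition (1)
  have hTle : (((d + 1) * (r0 + d) + d * (2 * b * y + y ^ 2 + 1)) * y ^ 2 : ℕ) ≤ (T0 : ℝ) * E := by
    rw [hT0, hE]
    push_cast
    have a1 : (0 : ℝ) ≤ (d + 1) * (r0 + d) := by positivity
    have a2 : (0 : ℝ) ≤ d := Nat.cast_nonneg _
    have a3 : (0 : ℝ) ≤ b := Nat.cast_nonneg _
    have b1 : (2 * (b : ℝ) * y + y ^ 2 + 1) ≤ (2 * b + 1) * ((y : ℝ) + 1) ^ 2 := by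
      have : 0 ≤ (b : ℝ) * (y ^ 2 + y + 1) := by positivity
      nlinarith
    have b2 : (y : ℝ) ^ 2 ≤ ((y : ℝ) + 1) ^ 2 := by nlinarith
    have b3 : (1 : ℝ) ≤ ((y : ℝ) + 1) ^ 2 := by nlinarith
    calc (((d : ℝ) + 1) * (r0 + d) + d * (2 * b * y + y ^ 2 + 1)) * y ^ 2 ≤
        (((d : ℝ) + 1) * (r0 + d) * ((y : ℝ) + 1) ^ 2 + d * ((2 * b + 1) * ((y : ℝ) + 1) ^ 2)) * ((y : ℝ) + 1) ^ 2 := by
          have c1 : ((d : ℝ) + 1) * (r0 + d) ≤ ((d : ℝ) + 1) * (r0 + d) * ((y : ℝ) + 1) ^ 2 := le_mul_of_one_le_right a1 b3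
          have c2 : (d : ℝ) * (2 * b * y + y ^ 2 + 1) ≤ d * ((2 * b + 1) * ((y : ℝ) + 1) ^ 2) :=
            mul_le_mul_of_nonneg_left b1 a2
          have c3 : (0 : ℝ) ≤ ((d : ℝ) + 1) * (r0 + d) * ((y : ℝ) + 1) ^ 2 + d * ((2 * b + 1) * ((y : ℝ) + 1) ^ 2) := by positivity
          exact mul_le_mul (add_le_add c1 c2) b2 (by positivity) c3
      _ = _ := by ring
  have hexpT : (2 : ℝ) ^ (((d + 1) * (r0 + d) + d * (2 * b * y + y ^ 2 + 1)) * y ^ 2) ≤ Real.exp (T0 * E) := by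
    have h2e : (2 : ℝ) ≤ Real.exp 1 := by linarith [Real.add_one_le_exp (1 : ℝ)]
    calc (2 : ℝ) ^ (((d + 1) * (r0 + d) + d * (2 * b * y + y ^ 2 + 1)) * y ^ 2) ≤
        (Real.exp 1) ^ (((d + 1) * (r0 + d) + d * (2 * b * y + y ^ 2 + 1)) * y ^ 2) :=
          pow_le_pow_left₀ (by norm_num) h2e _
      _ = Real.exp (((((d + 1) * (r0 + d) + d * (2 * b * y + y ^ 2 + 1)) * y ^ 2 : ℕ) : ℝ) * 1) := by
          rw [Real.exp_nat_mul]
      _ ≤ _ := Real.exp_le_exp.2 (by rw [mul_one]; exact hTle)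
  have hKr : (K : ℝ) = T0 + d * (⌈u⌉₊ + 4) + ⌈B⌉₊ + (r0 + d) + 1 := by rw [hK]; push_cast; ring
  have hceu : u ≤ ⌈u⌉₊ := Nat.le_ceil _
  have hceB : B ≤ ⌈B⌉₊ := Nat.le_ceil _
  have hdr : (1 : ℝ) ≤ d := by exact_mod_cast hd
  have hbig1 : 2 ^ (((d + 1) * (r0 + d) + d * (2 * b * y + y ^ 2 + 1)) * y ^ 2) < v := by
    have h1 : Real.exp (T0 * E) ≤ Real.exp (K * E) := by
      apply Real.exp_le_exp.2
      apply mul_le_mul_of_nonneg_right _ (by linarith)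
      rw [hKr]
      have : (0 : ℝ) ≤ d * ((⌈u⌉₊ : ℝ) + 4) + ⌈B⌉₊ + (r0 + d) + 1 := by positivity
      linarith
    have : ((2 ^ (((d + 1) * (r0 + d) + d * (2 * b * y + y ^ 2 + 1)) * y ^ 2) : ℕ) : ℝ) < v := by
      push_cast
      exact lt_of_le_of_lt (hexpT.trans h1) hbig
    exact_mod_cast this
  obtain ⟨M, p, r, A, hM1, hMd, hp, hpy, hr1, hr2, hdv1, hdv2, hpA⟩ := period hb hd hv0 hvb hvy hbig1
  have hMr : (0 : ℝ) < M := by exact_mod_cast hM1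
  obtain ⟨F, hF⟩ : ∃ F : ℝ, F = ((2 * y.factorial * y ^ y : ℕ) : ℝ) := ⟨_, rfl⟩
  have hFle : F ≤ Real.exp (3 * E) := by
    rw [hF]
    exact (fac_le y).trans (Real.exp_le_exp.2 (by linarith))
  have hF0 : 0 ≤ F := by rw [hF]; exact Nat.cast_nonneg _
  have hMd' : (M : ℝ) ^ d ≤ F ^ d * v := by rw [hF]; exact_mod_cast hMd
  have hpow4 : ∀ Z : ℝ, 0 ≤ Z → Z ≤ K → Real.exp (Z * E) < v := by
    intro Z _ hZ
    exact lt_of_le_of_lt (Real.exp_le_exp.2 (mul_le_mul_of_nonneg_right hZ (by linarith))) hbig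
  have hue : u ≤ Real.exp (⌈u⌉₊ * E) := by
    have h1 : (⌈u⌉₊ : ℝ) ≤ ⌈u⌉₊ * E := le_mul_of_one_le_right (Nat.cast_nonneg _) hE1
    linarith [Real.add_one_le_exp ((⌈u⌉₊ : ℝ) * E)]
  have hBe : B ≤ Real.exp (⌈B⌉₊ * E) := by
    have h1 : (⌈B⌉₊ : ℝ) ≤ ⌈B⌉₊ * E := le_mul_of_one_le_right (Nat.cast_nonneg _) hE1
    linarith [Real.add_one_le_exp ((⌈B⌉₊ : ℝ) * E)]
  -- condition (2): M is small compared to N'
  have hMN : u * M ≤ N' := by
    apply le_of_pow_le_pow_left₀ (by omega : d ≠ 0) (Nat.cast_nonneg _)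
    calc (u * M) ^ d = u ^ d * (M : ℝ) ^ d := mul_pow _ _ _
      _ ≤ (Real.exp (⌈u⌉₊ * E)) ^ d * ((Real.exp (3 * E)) ^ d * v) := by
          have e1 : u ^ d ≤ (Real.exp (⌈u⌉₊ * E)) ^ d := pow_le_pow_left₀ (by linarith) hue _
          have e2 : (M : ℝ) ^ d ≤ (Real.exp (3 * E)) ^ d * v :=
            hMd'.trans (mul_le_mul_of_nonneg_right (pow_le_pow_left₀ hF0 hFle _) hvr.le)
          exact mul_le_mul e1 e2 (by positivity) (by positivity)
      _ = Real.exp ((d * (⌈u⌉₊ + 3)) * E) * v := by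
          rw [← mul_assoc, ← mul_pow, ← Real.exp_add, ← Real.exp_nat_mul]
          congr 2; ring
      _ ≤ v * v := by
          apply mul_le_mul_of_nonneg_right _ hvr.le
          apply (hpow4 _ (by positivity) _).le
          rw [hKr]
          have : (0 : ℝ) ≤ (T0 : ℝ) + d + ⌈B⌉₊ + (r0 + d) + 1 := by positivity
          nlinarith
      _ = (v : ℝ) ^ 2 := by ring
      _ ≤ _ := hN'
  have hMN' : (M : ℝ) ≤ N' := by nlinarith
  -- N = N' / M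
  obtain ⟨N, hN⟩ : ∃ N : ℕ, N = N' / M := ⟨_, rfl⟩
  have hNlow : (N' : ℝ) ≤ 2 * M * N := by
    have h1 : N' < M * (N' / M) + M := by
      have := Nat.lt_mul_div_succ N' hM1
      rw [mul_add, mul_one] at this
      exact this
    have h2 : (N' : ℝ) < M * N + M := by rw [hN]; exact_mod_cast h1
    have h3 : 1 ≤ N := by
      rw [hN, Nat.le_div_iff_mul_le hM1, one_mul]; exact_mod_cast hMN'
    have h4 : (M : ℝ) ≤ M * N := le_mul_of_one_le_right hMr.le (by exact_mod_cast h3)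
    linarith
  have hN1 : 1 ≤ N := by
    rw [hN, Nat.le_div_iff_mul_le hM1, one_mul]; exact_mod_cast hMN'
  -- condition (3)
  have hcond3 : B * p ^ r < (N : ℝ) ^ d := by
    have g1 : (v : ℝ) ^ 2 ≤ (2 * F) ^ d * v * (N : ℝ) ^ d := by
      calc (v : ℝ) ^ 2 ≤ (N' : ℝ) ^ d := hN'
        _ ≤ (2 * M * N) ^ d := pow_le_pow_left₀ (Nat.cast_nonneg _) hNlow _
        _ = 2 ^ d * (M : ℝ) ^ d * (N : ℝ) ^ d := by rw [mul_pow, mul_pow]
        _ ≤ 2 ^ d * (F ^ d * v) * (N : ℝ) ^ d := by gcongr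
        _ = _ := by rw [mul_pow]; ring
    have g2 : (v : ℝ) ≤ (2 * F) ^ d * (N : ℝ) ^ d := by
      have : (v : ℝ) * v ≤ ((2 * F) ^ d * (N : ℝ) ^ d) * v := by nlinarith
      exact le_of_mul_le_mul_right this hvr
    have g3 : (p : ℝ) ^ r ≤ Real.exp ((r0 + d) * E) := by
      have hp1 : (1 : ℝ) ≤ p := by exact_mod_cast hp.one_lt.le
      have hpe : (p : ℝ) ≤ Real.exp E := by
        have : (p : ℝ) ≤ y := by exact_mod_cast hpy
        linarith [Real.add_one_le_exp E]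
      calc (p : ℝ) ^ r ≤ (p : ℝ) ^ (r0 + d) := pow_le_pow_right₀ hp1 hr2
        _ ≤ (Real.exp E) ^ (r0 + d) := pow_le_pow_left₀ (by linarith) hpe _
        _ = _ := by rw [← Real.exp_nat_mul]; push_cast; ring_nf
    have g4 : (2 * F) ^ d ≤ Real.exp ((d * 4) * E) := by
      have h2e : (2 : ℝ) ≤ Real.exp E := by linarith [Real.add_one_le_exp E]
      calc (2 * F) ^ d ≤ (Real.exp E * Real.exp (3 * E)) ^ d := by
            apply pow_le_pow_left₀ (by positivity)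
            exact mul_le_mul h2e hFle hF0 (Real.exp_pos _).le
        _ = _ := by rw [← Real.exp_add, ← Real.exp_nat_mul]; congr 1; ring
    have g5 : B * p ^ r * (2 * F) ^ d < v := by
      calc B * p ^ r * (2 * F) ^ d ≤ Real.exp (⌈B⌉₊ * E) * Real.exp ((r0 + d) * E) * Real.exp ((d * 4) * E) := by
            gcongr
        _ = Real.exp ((⌈B⌉₊ + (r0 + d) + d * 4) * E) := by
            rw [← Real.exp_add, ← Real.exp_add]; congr 1; ring
        _ < v := by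
            apply hpow4 _ (by positivity)
            rw [hKr]
            have : (0 : ℝ) ≤ (T0 : ℝ) + d * ⌈u⌉₊ + 1 := by positivity
            nlinarith
    have hNd0 : (0 : ℝ) ≤ (N : ℝ) ^ d := by positivity
    by_contra hcon
    push Not at hcon
    have : (2 * F) ^ d * (N : ℝ) ^ d ≤ (2 * F) ^ d * (B * p ^ r) := mul_le_mul_of_nonneg_left hcon (by positivity)
    nlinarith
  have hpv : p ∣ v := by
    by_contra hpv
    have hcop : Nat.Coprime v p := ((Nat.Prime.coprime_iff_not_dvd hp).2 hpv).symm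
    by_cases hr : r = 0
    · rw [hr] at hr1
      have : r0 = 0 := by omega
      rw [this, pow_zero] at hr0
      have : 1 ≤ |(h : ℝ)| := by
        have := Int.one_le_abs hh
        exact_mod_cast this
      nlinarith
    · have h1 : (b ^ M - 1) ^ d * p ^ r = v * A := hdv2
      have h2 : v ∣ (b ^ M - 1) ^ d := (hcop.pow_right r).dvd_of_dvd_mul_right (h1 ▸ dvd_mul_right v A)
      obtain ⟨A', hA'⟩ := h2
      rw [hA', mul_assoc] at h1
      have h3 := Nat.eq_of_mul_eq_mul_left (Nat.pos_of_ne_zero hv0) h1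
      exact hpA (h3 ▸ ((dvd_pow_self p hr).mul_left A'))
  have hpb : ¬ p ∣ b := fun hpb => by
    have := Nat.Coprime.eq_one_of_dvd (hvb.coprime_dvd_left hpv) hpb
    exact hp.one_lt.ne' this
  have hpC : ¬ (p : ℤ) ∣ C := by
    intro hpC
    have h1 : IsCoprime (p : ℤ) (p : ℤ) := (hC.of_isCoprime_of_dvd_left hpC).of_isCoprime_of_dvd_right (by exact_mod_cast hpv)
    rw [isCoprime_self] at h1
    exact (Nat.prime_iff_prime_int.1 hp).not_isUnit h1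
  have hBh : B * |(h : ℝ)| < 2 ^ r := lt_of_lt_of_le hr0 (pow_le_pow_right₀ (by norm_num) hr1)
  have key := sum_split (fun k => ee (h * C * (b : ℝ) ^ k / v)) (fun k => (norm_ee _).le) M N' hM1 (ε' / 2) (by
    intro s _
    rw [← hN]
    obtain ⟨α, φ, hph, hee, hno⟩ := one_class (s := s) hh hv0 hp hpb hpC hdv1 hdv2 hpA (by omega) hBh N hcond3
    by_contra hcon
    push Not at hcon
    apply hno
    apply hI N u α φ hN1 (by linarith) hph
    have e1 : ∑ n ∈ range N, ee (φ n) = ∑ t ∈ range N, ee (h * C * (b : ℝ) ^ (M * t + s) / v) :=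
      sum_congr rfl fun t _ => (hee t).symm
    rw [e1]
    have e2 : (N : ℝ) = u * (ε' / 2 * N) := by rw [hu]; field_simp
    rw [e2]
    exact (mul_le_mul_of_nonneg_left hcon.le (by linarith)))
  refine key.trans ?_
  have e1 : ((M * (N' / M) : ℕ) : ℝ) ≤ N' := by exact_mod_cast Nat.mul_div_le N' M
  have e2 : (M : ℝ) ≤ ε' / 2 * N' := by
    have : (M : ℝ) = ε' / 2 * (u * M) := by rw [hu]; field_simp
    rw [this]
    exact mul_le_mul_of_nonneg_left hMN (by linarith)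
  have e3 : ε' / 2 * ((M * (N' / M) : ℕ) : ℝ) ≤ ε' / 2 * N' := mul_le_mul_of_nonneg_left e1 (by linarith)
  have e4 : ε' * N' ≤ ε * N' := mul_le_mul_of_nonneg_right hε'2 (Nat.cast_nonneg _)
  linarith

end Pool.Agent.Q91.FO
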