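import Pool.Agent.Q91.FO5
import Pool.Agent.Helper602.MK.J1c

set_option autoImplicit false

/-! The beginning of the orbit of a number close to a fraction whose denominator has small prime factors. -/

namespace Pool.Agent.Q91.FO

open Finset Filter Topology
open Pool.Agent.Helper602.MK (ee)
open Pool.Agent.Helper602.MK.N_J5b (norm_ee ee_add ee_int)

/-- the length of the segment of the orbit -/
noncomputable def len (δ : ℝ) (u v : ℕ) : ℕ := Nat.log 2 u + 1 + ⌊((u * v : ℕ) : ℝ) ^ (δ / 2)⌋₊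

lemma ev {δ ε L B : ℝ} (hδ : 0 < δ) (hε : 0 < ε) (hB : 0 ≤ B) : ∃ T : ℝ, ∀ t : ℝ, T ≤ t →
    1 ≤ t ∧ 4 ≤ t ^ (δ / 2) ∧ 2 * Real.log t + 1 ≤ ε * (t ^ (δ / 2) - 1) ∧
    L + (2 * Real.log t + 1 + t ^ (δ / 2)) * B ≤ t ^ δ := by
  obtain ⟨η, hη0, hη1, hηε⟩ : ∃ η : ℝ, 0 < η ∧ η ≤ 1 ∧ η ≤ ε / 4 :=
    ⟨min 1 (ε / 4), lt_min one_pos (by linarith), min_le_left _ _, min_le_right _ _⟩
  have h1 : ∀ᶠ t : ℝ in atTop, ‖Real.log t‖ ≤ η * ‖t ^ (δ / 2)‖ :=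
    (isLittleO_log_rpow_atTop (half_pos hδ)).def hη0
  have h2 : ∀ᶠ t : ℝ in atTop, 4 * B + |L| + 4 + (2 + 2 * ε) / ε ≤ t ^ (δ / 2) :=
    (tendsto_rpow_atTop (half_pos hδ)).eventually_ge_atTop _
  obtain ⟨T, hT⟩ := eventually_atTop.1 ((h1.and h2).and (eventually_ge_atTop (1 : ℝ)))
  refine ⟨T, fun t ht => ?_⟩
  obtain ⟨⟨h3, h4⟩, h5⟩ := hT t ht
  have ht0 : 0 < t := by linarith
  have hs0 : 0 < t ^ (δ / 2) := Real.rpow_pos_of_pos ht0 _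
  have hlog : 0 ≤ Real.log t := Real.log_nonneg h5
  have hsq : t ^ δ = t ^ (δ / 2) * t ^ (δ / 2) := by
    rw [← Real.rpow_add ht0]; congr 1; ring
  rw [Real.norm_of_nonneg hlog, Real.norm_of_nonneg hs0.le] at h3
  rw [hsq]
  obtain ⟨s, hs⟩ : ∃ s : ℝ, s = t ^ (δ / 2) := ⟨_, rfl⟩
  rw [← hs] at h3 h4 hs0 ⊢
  have hq0 : 0 ≤ (2 + 2 * ε) / ε := by positivity
  have hL : 0 ≤ |L| := abs_nonneg L
  have hLL : L ≤ |L| := le_abs_self L
  have h6 : (2 + 2 * ε) / ε ≤ s := by linarith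
  rw [div_le_iff₀ hε] at h6
  have h7 : η * s ≤ ε / 4 * s := mul_le_mul_of_nonneg_right hηε hs0.le
  have h8 : η * s ≤ s := by nlinarith
  refine ⟨h5, by linarith, by nlinarith, ?_⟩
  have h9 : 4 * B + |L| + 4 ≤ s := by linarith
  have h10 : (2 * Real.log t + 1 + s) * B ≤ (4 * s) * B := mul_le_mul_of_nonneg_right (by linarith) hB
  nlinarith [mul_le_mul_of_nonneg_right h9 hs0.le]

lemma dvd_pow_log {b u : ℕ} (hu : 1 ≤ u) (h : ∀ p : ℕ, p.Prime → p ∣ u → p ∣ b) :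
    u ∣ b ^ (Nat.log 2 u + 1) := by
  rw [Nat.dvd_iff_prime_pow_dvd_dvd]
  intro p k hp hk
  rcases Nat.eq_zero_or_pos k with rfl | hk0
  · simp
  have h1 : p ∣ b := h p hp ((dvd_pow_self p hk0.ne').trans hk)
  have h2 : 2 ^ k ≤ u := (Nat.pow_le_pow_left hp.two_le k).trans (Nat.le_of_dvd hu hk)
  have h3 : k ≤ Nat.log 2 u := Nat.le_log_of_pow_le (by norm_num) h2
  exact (pow_dvd_pow p (by omega)).trans (pow_dvd_pow_of_dvd h1 _)

lemma log_le {u : ℕ} (hu : 1 ≤ u) {t : ℝ} (ht : (u : ℝ) ≤ t) : (Nat.log 2 u : ℝ) ≤ 2 * Real.log t := by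
  have h1 : (2 : ℕ) ^ (Nat.log 2 u) ≤ u := Nat.pow_log_le_self 2 (by omega)
  have h2 : ((2 : ℝ)) ^ (Nat.log 2 u) ≤ t := le_trans (by exact_mod_cast h1) ht
  have h3 := Real.log_le_log (by positivity) h2
  rw [Real.log_pow] at h3
  have h4 : (1 / 2 : ℝ) ≤ Real.log 2 := by linarith [Real.log_two_gt_d9]
  have h5 : (0 : ℝ) ≤ (Nat.log 2 u : ℝ) := Nat.cast_nonneg _
  nlinarith

lemma smooth_bound {K0 v : ℕ} (hv : 2 ≤ v)
    (h : ∀ p : ℕ, p.Prime → p ∣ v → ((6 * K0 + 1 : ℕ) : ℝ) * (p : ℝ) ^ 4 ≤ Real.log v) :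
    ∃ y : ℕ, (∀ p : ℕ, p.Prime → p ∣ v → p ≤ y) ∧ Real.exp (K0 * ((y : ℝ) + 1) ^ 4) < v := by
  have hne : v.primeFactors.Nonempty := Nat.nonempty_primeFactors.2 (by omega)
  obtain ⟨y, hy, hmax⟩ := exists_max_image v.primeFactors id hne
  rw [Nat.mem_primeFactors] at hy
  refine ⟨y, fun p hp hpv => hmax p (Nat.mem_primeFactors.2 ⟨hp, hpv, by omega⟩), ?_⟩
  have h1 := h y hy.1 hy.2.1
  have hy2 : (2 : ℝ) ≤ y := by exact_mod_cast hy.1.two_le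
  have hv0 : (0 : ℝ) < v := by exact_mod_cast (by omega : 0 < v)
  rw [← Real.lt_log_iff_exp_lt hv0]
  refine lt_of_lt_of_le ?_ h1
  have h2 : ((y : ℝ) + 1) ^ 4 ≤ 6 * (y : ℝ) ^ 4 := by
    have h3 : ((y : ℝ) + 1) ≤ 3 / 2 * y := by linarith
    calc ((y : ℝ) + 1) ^ 4 ≤ (3 / 2 * y) ^ 4 := pow_le_pow_left₀ (by linarith) h3 4
      _ = 81 / 16 * (y : ℝ) ^ 4 := by ring
      _ ≤ 6 * (y : ℝ) ^ 4 := mul_le_mul_of_nonneg_right (by norm_num) (by positivity)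
  have h4 : (0 : ℝ) < (y : ℝ) ^ 4 := by positivity
  push_cast
  have h5 : (0 : ℝ) ≤ K0 := Nat.cast_nonneg _
  nlinarith [mul_le_mul_of_nonneg_left h2 h5]

theorem seg {b : ℕ} (hb : 2 ≤ b) {δ : ℝ} (hδ : 0 < δ) {h : ℤ} (hh : h ≠ 0) {ε : ℝ} (hε : 0 < ε) :
    ∃ K : ℕ, ∀ (u v : ℕ) (c : ℤ) (x : ℝ), 1 ≤ u → (∀ p : ℕ, p.Prime → p ∣ u → p ∣ b) →
      Nat.Coprime v b → IsCoprime c (v : ℤ) → K ≤ v →
      (∀ p : ℕ, p.Prime → p ∣ v → (K : ℝ) * (p : ℝ) ^ 4 ≤ Real.log v) →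
      |x - c / ((u * v : ℕ) : ℝ)| ≤ Real.exp (-((u * v : ℕ) : ℝ) ^ δ) →
      ‖∑ k ∈ range (len δ u v), ee (h * (b : ℝ) ^ k * x)‖ ≤ ε * len δ u v := by
  obtain ⟨d, hd⟩ : ∃ d : ℕ, d = ⌈8 / δ⌉₊ := ⟨_, rfl⟩
  have hd8 : 8 / δ ≤ d := by rw [hd]; exact Nat.le_ceil _
  have hd1 : 1 ≤ d := by
    rw [hd]; exact Nat.one_le_iff_ne_zero.2 (Nat.ceil_pos.2 (by positivity)).ne'
  obtain ⟨K0, hK0⟩ := core hb hd1 hh (ε := ε / 3) (by positivity)
  have hbr : (1 : ℝ) < b := by exact_mod_cast (by omega : 1 < b)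
  have hh0 : (0 : ℝ) < |(h : ℝ)| := abs_pos.2 (by exact_mod_cast hh)
  obtain ⟨T, hT⟩ := ev (δ := δ) (ε := ε / 3) (L := Real.log (6 * Real.pi * |(h : ℝ)| / ε))
    (B := Real.log b) hδ (by positivity) (Real.log_nonneg hbr.le)
  refine ⟨6 * K0 + 1 + ⌈T⌉₊ + 2, fun u v c x hu hub hvb hcv hKv hsm hx => ?_⟩
  have hpi := Real.pi_pos
  have hv2 : 2 ≤ v := by omega
  obtain ⟨y, hy1, hy2⟩ := smooth_bound (K0 := K0) hv2 (fun p hp hpv => by
    refine le_trans ?_ (hsm p hp hpv)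
    refine mul_le_mul_of_nonneg_right ?_ (by positivity)
    exact_mod_cast (by omega : 6 * K0 + 1 ≤ 6 * K0 + 1 + ⌈T⌉₊ + 2))
  obtain ⟨t, ht⟩ : ∃ t : ℝ, t = ((u * v : ℕ) : ℝ) := ⟨_, rfl⟩
  have hvt : (v : ℝ) ≤ t := by
    rw [ht]; exact_mod_cast Nat.le_mul_of_pos_left v hu
  have hut : (u : ℝ) ≤ t := by
    rw [ht]; exact_mod_cast Nat.le_mul_of_pos_right u (by omega)
  have hTt : T ≤ t := by
    refine le_trans (Nat.le_ceil T) (le_trans ?_ hvt)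
    exact_mod_cast (by omega : ⌈T⌉₊ ≤ v)
  obtain ⟨ht1, hs4, h2, h3⟩ := hT t hTt
  obtain ⟨s, hs⟩ : ∃ s : ℝ, s = t ^ (δ / 2) := ⟨_, rfl⟩
  obtain ⟨N, hN⟩ : ∃ N : ℕ, N = ⌊s⌋₊ := ⟨_, rfl⟩
  obtain ⟨e, he⟩ : ∃ e : ℕ, e = Nat.log 2 u + 1 := ⟨_, rfl⟩
  have hlen : len δ u v = e + N := by rw [len, he, hN, hs, ht]
  rw [← hs] at hs4 h2 h3
  have ht0 : 0 < t := by linarith
  have hs0 : 0 < s := by linarith
  have hNs : (N : ℝ) ≤ s := by rw [hN]; exact Nat.floor_le hs0.le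
  have hsN : s - 1 < N := by rw [hN]; exact Nat.sub_one_lt_floor s
  have heN : (e : ℝ) ≤ ε / 3 * N := by
    have h4 := log_le hu hut
    have h5 : (e : ℝ) = Nat.log 2 u + 1 := by rw [he]; push_cast; ring
    rw [h5]
    have h6 : ε / 3 * (s - 1) ≤ ε / 3 * N := mul_le_mul_of_nonneg_left hsN.le (by positivity)
    linarith
  have heJ : ((e + N : ℕ) : ℝ) ≤ 2 * Real.log t + 1 + s := by
    have h4 := log_le hu hut
    have h5 : (e : ℝ) = Nat.log 2 u + 1 := by rw [he]; push_cast; ring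
    push_cast; rw [h5]; linarith
  -- the power condition
  have hpow : (v : ℝ) ^ 2 ≤ (N : ℝ) ^ d := by
    have e1 : t ^ (δ / 4) ≤ N := by
      have e2 : t ^ (δ / 4) * t ^ (δ / 4) = s := by
        rw [← Real.rpow_add ht0, hs]; congr 1; ring
      have e3 : 0 < t ^ (δ / 4) := Real.rpow_pos_of_pos ht0 _
      have e4 : 2 ≤ t ^ (δ / 4) := by nlinarith
      nlinarith
    have e5 : t ^ (2 : ℝ) ≤ t ^ (δ / 4 * d) := by
      refine Real.rpow_le_rpow_of_exponent_le ht1 ?_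
      rw [div_le_iff₀ hδ] at hd8
      linarith
    calc (v : ℝ) ^ 2 ≤ t ^ 2 := pow_le_pow_left₀ (Nat.cast_nonneg _) hvt 2
      _ = t ^ (2 : ℝ) := by rw [← Real.rpow_natCast]; norm_num
      _ ≤ t ^ (δ / 4 * d) := e5
      _ = (t ^ (δ / 4)) ^ d := by rw [Real.rpow_mul ht0.le, Real.rpow_natCast]
      _ ≤ (N : ℝ) ^ d := pow_le_pow_left₀ (Real.rpow_nonneg ht0.le _) e1 d
  -- the fraction
  obtain ⟨w, hw⟩ := dvd_pow_log hu hub
  rw [← he] at hw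
  have hwv : IsCoprime ((w : ℤ) * c) (v : ℤ) := by
    refine IsCoprime.mul_left ?_ hcv
    have : Nat.Coprime w v := by
      refine Nat.Coprime.coprime_dvd_left (Dvd.intro_left u rfl) ?_
      rw [← hw]; exact (hvb.symm).pow_left e
    exact Nat.isCoprime_iff_coprime.2 this
  have hmain := hK0 v y hvb hy1 hy2 _ hwv N hpow
  have hur : (u : ℝ) ≠ 0 := by exact_mod_cast (by omega : u ≠ 0)
  have hvr : (v : ℝ) ≠ 0 := by exact_mod_cast (by omega : v ≠ 0)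
  have hwr : (b : ℝ) ^ e = u * w := by exact_mod_cast hw
  -- comparison
  have hcomp : ∀ j ∈ range N, ‖ee (h * (b : ℝ) ^ (e + j) * x) - ee (h * ((w : ℤ) * c : ℤ) * (b : ℝ) ^ j / v)‖ ≤
      ε / 3 := by
    intro j hj
    have hj' := mem_range.1 hj
    obtain ⟨z, hz⟩ : ∃ z : ℝ, z = h * (b : ℝ) ^ (e + j) * (x - c / ((u * v : ℕ) : ℝ)) := ⟨_, rfl⟩
    have e1 : (h * (b : ℝ) ^ (e + j) * x : ℝ) = z + h * ((w : ℤ) * c : ℤ) * (b : ℝ) ^ j / v := by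
      rw [hz, pow_add, hwr]
      push_cast
      field_simp
      ring
    have e2 : ‖ee (h * (b : ℝ) ^ (e + j) * x) - ee (h * ((w : ℤ) * c : ℤ) * (b : ℝ) ^ j / v)‖ = ‖ee z - 1‖ := by
      rw [e1, ee_add]
      rw [show ee z * ee (h * ((w : ℤ) * c : ℤ) * (b : ℝ) ^ j / v) - ee (h * ((w : ℤ) * c : ℤ) * (b : ℝ) ^ j / v) =
        (ee z - 1) * ee (h * ((w : ℤ) * c : ℤ) * (b : ℝ) ^ j / v) by ring, norm_mul, norm_ee, mul_one]
    rw [e2]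
    refine (Pool.Agent.Helper602.MK.N_J1c.c_norm_ee_sub_one_le z).trans ?_
    rw [hz, abs_mul, abs_mul, abs_of_pos (pow_pos (by linarith : (0 : ℝ) < b) _)]
    have e3 : (b : ℝ) ^ (e + j) ≤ (b : ℝ) ^ (e + N) := pow_le_pow_right₀ hbr.le (by omega)
    have e4 : (b : ℝ) ^ (e + N) ≤ Real.exp ((2 * Real.log t + 1 + s) * Real.log b) := by
      rw [← Real.rpow_natCast, Real.rpow_def_of_pos (by linarith : (0 : ℝ) < b)]
      refine Real.exp_le_exp.2 ?_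
      rw [mul_comm]
      exact mul_le_mul_of_nonneg_right heJ (Real.log_nonneg hbr.le)
    have e5 : |x - c / ((u * v : ℕ) : ℝ)| ≤ Real.exp (-t ^ δ) := by rw [ht]; exact hx
    have e6 : 0 < 6 * Real.pi * |(h : ℝ)| / ε := by positivity
    calc 2 * Real.pi * (|(h : ℝ)| * (b : ℝ) ^ (e + j) * |x - c / ((u * v : ℕ) : ℝ)|)
        ≤ 2 * Real.pi * (|(h : ℝ)| * Real.exp ((2 * Real.log t + 1 + s) * Real.log b) * Real.exp (-t ^ δ)) := by
          have := e3.trans e4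
          gcongr
      _ = ε / 3 * ((6 * Real.pi * |(h : ℝ)| / ε) * (Real.exp ((2 * Real.log t + 1 + s) * Real.log b) * Real.exp (-t ^ δ))) := by
          field_simp
          ring
      _ = ε / 3 * Real.exp (Real.log (6 * Real.pi * |(h : ℝ)| / ε) + (2 * Real.log t + 1 + s) * Real.log b + (-t ^ δ)) := by
          rw [Real.exp_add, Real.exp_add, Real.exp_log e6]; ring
      _ ≤ ε / 3 * 1 := by
          refine mul_le_mul_of_nonneg_left ?_ (by positivity)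
          rw [Real.exp_le_one_iff]
          linarith
      _ = ε / 3 := mul_one _
  rw [hlen, sum_range_add]
  have f1 : ‖∑ k ∈ range e, ee (h * (b : ℝ) ^ k * x)‖ ≤ ε / 3 * N := by
    refine (norm_sum_le _ _).trans ?_
    simp only [norm_ee, sum_const, card_range, nsmul_eq_mul, mul_one]
    exact heN
  have f2 : ‖∑ j ∈ range N, ee (h * (b : ℝ) ^ (e + j) * x)‖ ≤ ε / 3 * N + ε / 3 * N := by
    have g1 : ∑ j ∈ range N, ee (h * (b : ℝ) ^ (e + j) * x) =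
        ∑ j ∈ range N, (ee (h * (b : ℝ) ^ (e + j) * x) - ee (h * ((w : ℤ) * c : ℤ) * (b : ℝ) ^ j / v)) +
        ∑ j ∈ range N, ee (h * ((w : ℤ) * c : ℤ) * (b : ℝ) ^ j / v) := by
      rw [sum_sub_distrib]; ring
    rw [g1]
    refine (norm_add_le _ _).trans (add_le_add ?_ hmain)
    refine (norm_sum_le _ _).trans ((sum_le_sum hcomp).trans ?_)
    rw [sum_const, card_range, nsmul_eq_mul, mul_comm]
  refine (norm_add_le _ _).trans ((add_le_add f1 f2).trans ?_)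
  push_cast
  have he0 : (0 : ℝ) ≤ e := Nat.cast_nonneg _
  nlinarith

end Pool.Agent.Q91.FO
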