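import Pool.Agent.Q91.FO6
import Pool.Agent.H1R3.Det.Weyl

set_option autoImplicit false

/-! Equidistribution along a sequence of lengths and density. -/

namespace Pool.Agent.Q91.FO

open Finset Filter Topology MeasureTheory
open Pool.Agent.Helper602.MK (ee)
open Pool.Agent.H1R3.Det (Circ avg weyl_criterion freq_lt_of_closed)

lemma fourier_ee (n : ℤ) (t : ℝ) : (fourier n ((t : ℝ) : Circ) : ℂ) = ee (n * t) := by
  rw [fourier_coe_apply, ee]
  congr 1
  push_cast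
  ring

/-- uniform distribution along the lengths `J i` -/
lemma equi {b : ℕ} {x : ℝ} {J : ℕ → ℕ} (hJ : Tendsto J atTop atTop)
    (h : ∀ n : ℤ, n ≠ 0 → ∀ ε : ℝ, 0 < ε → ∀ᶠ i in atTop,
      ‖∑ k ∈ range (J i), ee (n * (b : ℝ) ^ k * x)‖ ≤ ε * J i) (n : ℤ) (hn : n ≠ 0) :
    Tendsto (fun i => avg (fun k => (((b : ℝ) ^ k * x : ℝ) : Circ)) (fun z => (fourier n z : ℂ)) (J i))
      atTop (𝓝 0) := by
  rw [Metric.tendsto_nhds]
  intro ε hε
  filter_upwards [h n hn (ε / 2) (half_pos hε), hJ.eventually_ge_atTop 1] with i hi h1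
  have hpos : (0 : ℝ) < J i := by exact_mod_cast h1
  rw [dist_zero_right, avg, norm_div, Complex.norm_natCast, div_lt_iff₀ hpos]
  have h2 : ∑ m ∈ range (J i), (fourier n (((b : ℝ) ^ m * x : ℝ) : Circ) : ℂ) =
      ∑ k ∈ range (J i), ee (n * (b : ℝ) ^ k * x) := by
    refine sum_congr rfl fun k _ => ?_
    rw [fourier_ee, mul_assoc]
  rw [h2]
  refine hi.trans_lt ?_
  nlinarith

lemma visits {b : ℕ} {x : ℝ} {J : ℕ → ℕ} (hJ : Tendsto J atTop atTop)
    (h : ∀ n : ℤ, n ≠ 0 → Tendsto (fun i => avg (fun k => (((b : ℝ) ^ k * x : ℝ) : Circ))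
      (fun z => (fourier n z : ℂ)) (J i)) atTop (𝓝 0)) {U : Set Circ} (hU : IsOpen U) (hne : U.Nonempty) :
    ∃ k : ℕ, (((b : ℝ) ^ k * x : ℝ) : Circ) ∈ U := by
  by_contra hcon
  push Not at hcon
  have hpos : 0 < volume U := hU.measure_pos volume hne
  have huniv : volume (Set.univ : Set Circ) = 1 := by
    rw [AddCircle.measure_univ]; simp
  have hfin : volume U ≠ ⊤ := (measure_lt_top volume U).ne
  have hc : volume Uᶜ < ENNReal.ofReal 1 := by
    rw [measure_compl hU.measurableSet hfin, huniv, ENNReal.ofReal_one]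
    exact ENNReal.sub_lt_self ENNReal.one_ne_top one_ne_zero hpos.ne'
  have h1 := freq_lt_of_closed (fun k => (((b : ℝ) ^ k * x : ℝ) : Circ)) J hJ h hU.isClosed_compl hc
  obtain ⟨i, hi, hi1⟩ := (h1.and (hJ.eventually_ge_atTop 1)).exists
  classical
  have h2 : (range (J i)).filter (fun n => (((b : ℝ) ^ n * x : ℝ) : Circ) ∈ Uᶜ) = range (J i) :=
    Finset.filter_true_of_mem fun k _ => hcon k
  have h3 : (((range (J i)).filter (fun n => (((b : ℝ) ^ n * x : ℝ) : Circ) ∈ Uᶜ)).card : ℝ) / J i < 1 := by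
    refine lt_of_eq_of_lt ?_ hi
    congr!
  rw [h2, card_range, div_self (by exact_mod_cast (by omega : J i ≠ 0))] at h3
  exact lt_irrefl _ h3

lemma dense_orb {b : ℕ} {x : ℝ} {J : ℕ → ℕ} (hJ : Tendsto J atTop atTop)
    (h : ∀ n : ℤ, n ≠ 0 → Tendsto (fun i => avg (fun k => (((b : ℝ) ^ k * x : ℝ) : Circ))
      (fun z => (fourier n z : ℂ)) (J i)) atTop (𝓝 0)) :
    closure (Set.range fun n : ℕ => Int.fract ((b : ℝ) ^ n * x)) = Set.Icc 0 1 := by
  have hsub : Set.range (fun n : ℕ => Int.fract ((b : ℝ) ^ n * x)) ⊆ Set.Icc 0 1 := by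
    rintro _ ⟨n, rfl⟩
    exact ⟨Int.fract_nonneg _, (Int.fract_lt_one _).le⟩
  refine Set.Subset.antisymm (closure_minimal hsub isClosed_Icc) ?_
  have h1 : Set.Ioo (0 : ℝ) 1 ⊆ closure (Set.range fun n : ℕ => Int.fract ((b : ℝ) ^ n * x)) := by
    intro y hy
    refine Metric.mem_closure_iff.2 fun ε hε => ?_
    have hlt : y < min (y + ε) 1 := lt_min (by linarith) hy.2
    obtain ⟨k, hk⟩ := visits hJ h (U := (fun t : ℝ => (t : Circ)) '' Set.Ioo y (min (y + ε) 1))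
      (QuotientAddGroup.isOpenMap_coe _ isOpen_Ioo) ((Set.nonempty_Ioo.2 hlt).image _)
    obtain ⟨t, ⟨ht1, ht2⟩, hte⟩ := hk
    refine ⟨_, ⟨k, rfl⟩, ?_⟩
    have h2 : ((((b : ℝ) ^ k * x - t : ℝ)) : Circ) = 0 := by
      rw [AddCircle.coe_sub, sub_eq_zero]; exact hte.symm
    obtain ⟨n, hn⟩ := (AddCircle.coe_eq_zero_iff (1 : ℝ)).1 h2
    have ht0 : 0 ≤ t := by linarith [hy.1]
    have ht3 := ht2.trans_le (min_le_right _ _)
    have ht4 := ht2.trans_le (min_le_left _ _)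
    have h3 : Int.fract ((b : ℝ) ^ k * x) = t := by
      rw [Int.fract_eq_iff]
      refine ⟨ht0, ht3, n, ?_⟩
      rw [← hn]; simp
    show dist y (Int.fract ((b : ℝ) ^ k * x)) < ε
    rw [h3, Real.dist_eq, abs_lt]
    constructor <;> linarith
  have h2 := closure_minimal h1 isClosed_closure
  rwa [closure_Ioo (by norm_num)] at h2

/-- an irrational number is not too close to multiples of `1 / m` with `m ≤ Q` -/
lemma away {x : ℝ} (hx : Irrational x) (Q : ℕ) :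
    ∃ η : ℝ, 0 < η ∧ ∀ m : ℕ, 1 ≤ m → m ≤ Q → ∀ p : ℤ, η < |x - p / m| := by
  induction Q with
  | zero => exact ⟨1, one_pos, fun m h1 h2 => by omega⟩
  | succ Q ih =>
    obtain ⟨η, hη, h⟩ := ih
    have hirr : Irrational ((Q + 1 : ℕ) * x) := hx.natCast_mul (by omega)
    have hpos : 0 < |((Q + 1 : ℕ) : ℝ) * x - round (((Q + 1 : ℕ) : ℝ) * x)| := by
      rw [abs_pos, sub_ne_zero]
      exact hirr.ne_int _
    have hQ : (0 : ℝ) < ((Q + 1 : ℕ) : ℝ) := by exact_mod_cast Nat.succ_pos Q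
    refine ⟨min η (|((Q + 1 : ℕ) : ℝ) * x - round (((Q + 1 : ℕ) : ℝ) * x)| / ((Q + 1 : ℕ) : ℝ) / 2),
      lt_min hη (by positivity), fun m h1 h2 p => ?_⟩
    rcases Nat.lt_or_ge m (Q + 1) with h3 | h3
    · exact (min_le_left _ _).trans_lt (h m h1 (by omega) p)
    · have : m = Q + 1 := by omega
      subst this
      refine (min_le_right _ _).trans_lt ?_
      have h4 := round_le (((Q + 1 : ℕ) : ℝ) * x) p
      have h5 : |x - p / ((Q + 1 : ℕ) : ℝ)| = |((Q + 1 : ℕ) : ℝ) * x - p| / ((Q + 1 : ℕ) : ℝ) := by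
        rw [show (((Q + 1 : ℕ) : ℝ) * x - p) = ((Q + 1 : ℕ) : ℝ) * (x - p / ((Q + 1 : ℕ) : ℝ)) by
          field_simp, abs_mul, abs_of_pos hQ]
        field_simp
      rw [h5]
      have h6 : |((Q + 1 : ℕ) : ℝ) * x - round (((Q + 1 : ℕ) : ℝ) * x)| / ((Q + 1 : ℕ) : ℝ) ≤
          |((Q + 1 : ℕ) : ℝ) * x - p| / ((Q + 1 : ℕ) : ℝ) := div_le_div_of_nonneg_right h4 hQ.le
      have h7 : 0 < |((Q + 1 : ℕ) : ℝ) * x - round (((Q + 1 : ℕ) : ℝ) * x)| / ((Q + 1 : ℕ) : ℝ) := by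
        positivity
      linarith

end Pool.Agent.Q91.FO
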