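import Pool.Agent.Q91.FO7

set_option autoImplicit false

/-! Orbits of numbers with good approximations by fractions with smooth denominators. -/

namespace Pool.Agent.Q91.FO

open Finset Filter Topology MeasureTheory
open Pool.Agent.Helper602.MK (ee)
open Pool.Agent.H1R3.Det (Circ avg weyl_criterion freq_lt_of_closed)

theorem equidist {b : ℕ} {x δ : ℝ} (hb : 2 ≤ b) (hδ : 0 < δ)
    (h : ∀ K : ℕ, ∃ (u v : ℕ) (c : ℤ), 1 ≤ u ∧ (∀ p : ℕ, p.Prime → p ∣ u → p ∣ b) ∧ Nat.Coprime v b ∧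
      IsCoprime c (v : ℤ) ∧ K ≤ v ∧ (∀ p : ℕ, p.Prime → p ∣ v → (K : ℝ) * (p : ℝ) ^ 4 ≤ Real.log v) ∧
      |x - c / ((u * v : ℕ) : ℝ)| ≤ Real.exp (-((u * v : ℕ) : ℝ) ^ δ)) :
    ∃ J : ℕ → ℕ, Tendsto J atTop atTop ∧
      ∀ n : ℤ, n ≠ 0 → Tendsto (fun i => avg (fun k => (((b : ℝ) ^ k * x : ℝ) : Circ))
        (fun z => (fourier n z : ℂ)) (J i)) atTop (𝓝 0) := by
  choose u v c hu hub hvb hcv hKv hsm hx using h
  have hJ : Tendsto (fun K => len δ (u K) (v K)) atTop atTop := by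
    have h1 : Tendsto (fun K : ℕ => ⌊(K : ℝ) ^ (δ / 2)⌋₊) atTop atTop :=
      tendsto_nat_floor_atTop.comp ((tendsto_rpow_atTop (half_pos hδ)).comp tendsto_natCast_atTop_atTop)
    refine tendsto_atTop_mono (fun K => ?_) h1
    have h2 : (K : ℝ) ≤ ((u K * v K : ℕ) : ℝ) := by
      exact_mod_cast (hKv K).trans (Nat.le_mul_of_pos_left _ (hu K))
    have h3 : ⌊(K : ℝ) ^ (δ / 2)⌋₊ ≤ ⌊((u K * v K : ℕ) : ℝ) ^ (δ / 2)⌋₊ :=
      Nat.floor_le_floor (Real.rpow_le_rpow (Nat.cast_nonneg _) h2 (half_pos hδ).le)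
    rw [len]; omega
  refine ⟨fun K => len δ (u K) (v K), hJ, equi hJ fun n hn ε hε => ?_⟩
  obtain ⟨K0, hK0⟩ := seg hb hδ hn hε
  filter_upwards [eventually_ge_atTop K0] with K hK
  refine hK0 (u K) (v K) (c K) x (hu K) (hub K) (hvb K) (hcv K) (hK.trans (hKv K)) (fun p hp hpv => ?_) (hx K)
  refine le_trans ?_ (hsm K p hp hpv)
  exact mul_le_mul_of_nonneg_right (by exact_mod_cast hK) (by positivity)

/-- good approximations by fractions in lowest terms -/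
lemma lowest {s : ℕ} {x δ : ℝ} (hx : Irrational x) (hδ : 0 < δ)
    (h : ∀ Q : ℕ, ∃ (q : ℕ) (c : ℤ), Q ≤ q ∧ (∀ p : ℕ, p.Prime → p ∣ q → p ∣ s) ∧
      |x - c / q| ≤ Real.exp (-(q : ℝ) ^ δ)) (Q : ℕ) :
    ∃ (q : ℕ) (c : ℤ), Q ≤ q ∧ 1 ≤ q ∧ (∀ p : ℕ, p.Prime → p ∣ q → p ∣ s) ∧ IsCoprime c (q : ℤ) ∧
      |x - c / q| ≤ Real.exp (-(q : ℝ) ^ δ) := by
  obtain ⟨η, hη, haw⟩ := away hx Q
  have h1 : ∀ᶠ q : ℕ in atTop, Real.exp (-(q : ℝ) ^ δ) ≤ η := by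
    have h2 : Tendsto (fun q : ℕ => Real.exp (-(q : ℝ) ^ δ)) atTop (𝓝 0) :=
      Real.tendsto_exp_neg_atTop_nhds_zero.comp ((tendsto_rpow_atTop hδ).comp tendsto_natCast_atTop_atTop)
    exact (h2.eventually_lt_const hη).mono fun q hq => hq.le
  obtain ⟨Q1, hQ1⟩ := eventually_atTop.1 h1
  obtain ⟨q, c, hq, hqs, hc⟩ := h (max Q1 1)
  have hq1 : 1 ≤ q := (le_max_right _ _).trans hq
  have hqr : (0 : ℝ) < q := by exact_mod_cast hq1
  set d : ℕ := Int.gcd c q with hd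
  have hd0 : 0 < d := Int.gcd_pos_of_ne_zero_right _ (by exact_mod_cast (by omega : q ≠ 0))
  obtain ⟨q', hq'⟩ : d ∣ q := by
    have := Int.gcd_dvd_right c (q : ℤ)
    exact_mod_cast this
  obtain ⟨c', hc'⟩ : (d : ℤ) ∣ c := Int.gcd_dvd_left c (q : ℤ)
  have hq'1 : 1 ≤ q' := by
    rcases Nat.eq_zero_or_pos q' with h0 | h0
    · rw [h0] at hq'; omega
    · exact h0
  have hq'r : (0 : ℝ) < q' := by exact_mod_cast hq'1
  have hdr : (0 : ℝ) < d := by exact_mod_cast hd0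
  have hfrac : (c : ℝ) / q = c' / q' := by
    have e1 : (c : ℝ) = d * c' := by exact_mod_cast hc'
    have e2 : (q : ℝ) = d * q' := by exact_mod_cast hq'
    rw [e1, e2]; field_simp
  have hqq : q' ≤ q := by rw [hq']; exact Nat.le_mul_of_pos_left _ hd0
  rw [hfrac] at hc
  refine ⟨q', c', ?_, hq'1, fun r hr hrq => hqs r hr (by rw [hq']; exact hrq.mul_left _), ?_, ?_⟩
  · by_contra hlt
    push Not at hlt
    have h3 := haw q' hq'1 hlt.le c'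
    have h4 := hQ1 q ((le_max_left _ _).trans hq)
    linarith
  · rw [Int.isCoprime_iff_gcd_eq_one]
    have h1 : Int.gcd c q = d * Int.gcd c' q' := by
      rw [hc', hq']; push_cast
      rw [Int.gcd_mul_left]; simp
    have h2 : d * 1 = d * Int.gcd c' q' := by rw [mul_one, ← h1]
    exact (Nat.eq_of_mul_eq_mul_left hd0 h2).symm
  · refine hc.trans (Real.exp_le_exp.2 (neg_le_neg ?_))
    exact Real.rpow_le_rpow hq'r.le (by exact_mod_cast hqq) hδ.le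

/-- the part of `q` composed of the primes dividing `b` -/
lemma split (q b : ℕ) (hq : 1 ≤ q) : ∃ u v : ℕ, u * v = q ∧ 1 ≤ u ∧ 1 ≤ v ∧
    (∀ p : ℕ, p.Prime → p ∣ u → p ∣ b) ∧ Nat.Coprime v b := by
  induction q using Nat.strong_induction_on with
  | _ q ih =>
    by_cases hco : Nat.Coprime q b
    · exact ⟨1, q, one_mul _, le_refl _, hq, fun p hp h1 => absurd (Nat.dvd_one.1 h1) hp.ne_one, hco⟩
    · obtain ⟨p, hp, hpq, hpb⟩ := Nat.Prime.not_coprime_iff_dvd.1 hco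
      obtain ⟨q', rfl⟩ := hpq
      have hq'1 : 1 ≤ q' := Nat.one_le_iff_ne_zero.2 (by rintro rfl; omega)
      have hlt : q' < p * q' := by nlinarith [hp.two_le]
      obtain ⟨u, v, h1, h2, h3, h4, h5⟩ := ih q' hlt hq'1
      refine ⟨p * u, v, by rw [mul_assoc, h1], Nat.mul_pos hp.pos h2, h3, fun r hr hrd => ?_, h5⟩
      rcases (Nat.Prime.dvd_mul hr).1 hrd with h6 | h6
      · rw [(Nat.prime_dvd_prime_iff_eq hr hp).1 h6]; exact hpb
      · exact h4 r hr h6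

/-- either the part of the denominators coprime to `b` is unbounded, and then the points of the orbit under
`b` are dense, or this holds for all bases coprime to `b` -/
lemma parts {s : ℕ} (hs : 1 ≤ s) {x δ : ℝ}
    (h : ∀ Q : ℕ, ∃ (q : ℕ) (c : ℤ), Q ≤ q ∧ 1 ≤ q ∧ (∀ p : ℕ, p.Prime → p ∣ q → p ∣ s) ∧ IsCoprime c (q : ℤ) ∧
      |x - c / q| ≤ Real.exp (-(q : ℝ) ^ δ)) {a b : ℕ} (hab : Nat.Coprime a b) (K : ℕ) :
    (∃ (u v : ℕ) (c : ℤ), 1 ≤ u ∧ (∀ p : ℕ, p.Prime → p ∣ u → p ∣ b) ∧ Nat.Coprime v b ∧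
      IsCoprime c (v : ℤ) ∧ K ≤ v ∧ (∀ p : ℕ, p.Prime → p ∣ v → (K : ℝ) * (p : ℝ) ^ 4 ≤ Real.log v) ∧
      |x - c / ((u * v : ℕ) : ℝ)| ≤ Real.exp (-((u * v : ℕ) : ℝ) ^ δ)) ∨
    (∃ (u v : ℕ) (c : ℤ), 1 ≤ u ∧ (∀ p : ℕ, p.Prime → p ∣ u → p ∣ a) ∧ Nat.Coprime v a ∧
      IsCoprime c (v : ℤ) ∧ K ≤ v ∧ (∀ p : ℕ, p.Prime → p ∣ v → (K : ℝ) * (p : ℝ) ^ 4 ≤ Real.log v) ∧
      |x - c / ((u * v : ℕ) : ℝ)| ≤ Real.exp (-((u * v : ℕ) : ℝ) ^ δ)) := by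
  obtain ⟨L, hL⟩ : ∃ L : ℕ, L = ⌈Real.exp (K * (s : ℝ) ^ 4)⌉₊ + K + 1 := ⟨_, rfl⟩
  obtain ⟨q, c, hLq, hq1, hqs, hcq, hx⟩ := h (L * L)
  obtain ⟨u, v, huv, hu1, hv1, hub, hvb⟩ := split q b hq1
  obtain ⟨u', v', huv', hu'1, hv'1, hua', hva'⟩ := split q a hq1
  -- `u' ∣ v`
  have huv'' : Nat.Coprime u u' := by
    rw [Nat.coprime_iff_gcd_eq_one]
    by_contra hne
    obtain ⟨p, hp, hpd⟩ := Nat.exists_prime_and_dvd hne
    have h1 := hub p hp (hpd.trans (Nat.gcd_dvd_left _ _))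
    have h2 := hua' p hp (hpd.trans (Nat.gcd_dvd_right _ _))
    exact (Nat.Prime.not_coprime_iff_dvd.2 ⟨p, hp, h2, h1⟩) hab
  have hdv : u ∣ v' := by
    refine huv''.dvd_of_dvd_mul_left ?_
    rw [huv', ← huv]; exact dvd_mul_right _ _
  have hle : u ≤ v' := Nat.le_of_dvd hv'1 hdv
  have key : ∀ w : ℕ, w ∣ q → L ≤ w → K ≤ w ∧
      (∀ p : ℕ, p.Prime → p ∣ w → (K : ℝ) * (p : ℝ) ^ 4 ≤ Real.log w) ∧ IsCoprime c (w : ℤ) := by
    intro w hwq hLw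
    have hw0 : (0 : ℝ) < w := by exact_mod_cast (by omega : 0 < w)
    refine ⟨by omega, fun p hp hpw => ?_, ?_⟩
    · have h1 : p ≤ s := Nat.le_of_dvd hs (hqs p hp (hpw.trans hwq))
      have h2 : (p : ℝ) ≤ s := by exact_mod_cast h1
      have h3 : Real.exp (K * (s : ℝ) ^ 4) ≤ w := by
        refine (Nat.le_ceil _).trans ?_
        exact_mod_cast (by omega : ⌈Real.exp (K * (s : ℝ) ^ 4)⌉₊ ≤ w)
      have h4 : (K : ℝ) * (s : ℝ) ^ 4 ≤ Real.log w := (Real.le_log_iff_exp_le hw0).2 h3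
      refine le_trans ?_ h4
      exact mul_le_mul_of_nonneg_left (pow_le_pow_left₀ (Nat.cast_nonneg _) h2 4) (Nat.cast_nonneg _)
    · obtain ⟨z, hz⟩ := hwq
      have h5 : IsCoprime c ((w : ℤ) * z) := by
        have : (q : ℤ) = (w : ℤ) * z := by exact_mod_cast hz
        rw [← this]; exact hcq
      exact h5.of_mul_right_left
  rcases Nat.lt_or_ge v L with hv | hv
  · right
    have hv' : L ≤ v' := by
      by_contra hlt
      push Not at hlt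
      have h1 : u * v < L * L := by
        calc u * v ≤ v' * v := Nat.mul_le_mul_right _ hle
          _ < L * L := Nat.mul_lt_mul'' hlt hv
      omega
    obtain ⟨k1, k2, k3⟩ := key v' (by rw [← huv']; exact dvd_mul_left _ _) hv'
    exact ⟨u', v', c, hu'1, hua', hva', k3, k1, k2, by rw [huv']; exact hx⟩
  · left
    obtain ⟨k1, k2, k3⟩ := key v (by rw [← huv]; exact dvd_mul_left _ _) hv
    exact ⟨u, v, c, hu1, hub, hvb, k3, k1, k2, by rw [huv]; exact hx⟩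

end Pool.Agent.Q91.FO
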