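import Mathlib

set_option autoImplicit false
set_option maxHeartbeats 4000000
open MeasureTheory ProbabilityTheory Set Matrix
open scoped ENNReal NNReal RealInnerProductSpace

namespace Pool.Agent.Q91.Gin

/-- standard Gaussian vector in `ℝ^n` -/
noncomputable def sv (n : ℕ) : Measure (Fin n → ℝ) := Measure.pi fun _ => gaussianReal 0 1

instance (n : ℕ) : IsProbabilityMeasure (sv n) := by unfold sv; infer_instance

theorem meas_dot {n : ℕ} (x : Fin n → ℝ) : Measurable fun g : Fin n → ℝ => x ⬝ᵥ g := by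
  simp only [dotProduct]
  fun_prop

theorem sv_map (n : ℕ) : (sv n).map (WithLp.toLp 2) = stdGaussian (EuclideanSpace ℝ (Fin n)) :=
  map_pi_eq_stdGaussian

theorem inner_toLp {n : ℕ} (x g : Fin n → ℝ) :
    ⟪(WithLp.toLp 2 x : EuclideanSpace ℝ (Fin n)), WithLp.toLp 2 g⟫ = x ⬝ᵥ g := by
  rw [EuclideanSpace.inner_toLp_toLp]
  simp [dotProduct_comm]

theorem law_pair {n : ℕ} (x y : Fin n → ℝ) (h : x ⬝ᵥ y = 0) :
    IndepFun (fun g : Fin n → ℝ => x ⬝ᵥ g) (fun g => y ⬝ᵥ g) (sv n) := by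
  set E := EuclideanSpace ℝ (Fin n)
  set x' : E := WithLp.toLp 2 x
  set y' : E := WithLp.toLp 2 y
  have h1 : HasGaussianLaw (fun v : E => (⟪x', v⟫, ⟪y', v⟫)) (stdGaussian E) := by
    have := (IsGaussian.hasGaussianLaw_id (μ := stdGaussian E)).map_fun
      ((innerSL ℝ x').prod (innerSL ℝ y'))
    simpa using this
  have h2 : cov[fun v : E => ⟪x', v⟫, fun v : E => ⟪y', v⟫; stdGaussian E] = 0 := by
    rw [← covarianceBilin_apply_eq_cov IsGaussian.memLp_two_id, covarianceBilin_stdGaussian]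
    rw [innerSL_apply_apply]
    rw [inner_toLp, h]
  have h3 := h1.indepFun_of_covariance_eq_zero h2
  have h4 : IndepFun (fun v : E => ⟪x', v⟫) (fun v : E => ⟪y', v⟫) ((sv n).map (WithLp.toLp 2)) := by
    rw [sv_map]; exact h3
  rw [indepFun_iff_map_prod_eq_prod_map_map (by fun_prop) (by fun_prop)] at h4
  rw [indepFun_iff_map_prod_eq_prod_map_map (meas_dot x).aemeasurable (meas_dot y).aemeasurable]
  rw [Measure.map_map (by fun_prop) (by fun_prop), Measure.map_map (by fun_prop) (by fun_prop),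
    Measure.map_map (by fun_prop) (by fun_prop)] at h4
  have e1 : (fun v : E => ⟪x', v⟫) ∘ (WithLp.toLp 2) = fun g : Fin n → ℝ => x ⬝ᵥ g := by
    funext g; exact inner_toLp x g
  have e2 : (fun v : E => ⟪y', v⟫) ∘ (WithLp.toLp 2) = fun g : Fin n → ℝ => y ⬝ᵥ g := by
    funext g; exact inner_toLp y g
  have e3 : (fun v : E => (⟪x', v⟫, ⟪y', v⟫)) ∘ (WithLp.toLp 2) = fun g : Fin n → ℝ => (x ⬝ᵥ g, y ⬝ᵥ g) := by
    funext g
    exact Prod.ext (inner_toLp x g) (inner_toLp y g)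
  rw [e1, e2, e3] at h4
  exact h4

theorem law_one {n : ℕ} (x : Fin n → ℝ) :
    (sv n).map (fun g : Fin n → ℝ => x ⬝ᵥ g) = gaussianReal 0 (x ⬝ᵥ x).toNNReal := by
  set E := EuclideanSpace ℝ (Fin n)
  set x' : E := WithLp.toLp 2 x
  have e1 : (fun v : E => (innerSL ℝ x') v) ∘ (WithLp.toLp 2) = fun g : Fin n → ℝ => x ⬝ᵥ g := by
    funext g; exact inner_toLp x g
  rw [← e1, ← Measure.map_map (by fun_prop) (by fun_prop), sv_map]
  have := IsGaussian.map_eq_gaussianReal (μ := stdGaussian E) (innerSL ℝ x')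
  rw [this]
  rw [integral_strongDual_stdGaussian, variance_dual_stdGaussian, innerSL_apply_norm]
  congr 2
  rw [← real_inner_self_eq_norm_sq]
  exact inner_toLp x x

end Pool.Agent.Q91.Gin
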