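import Mathlib
import Pool.Agent.Q91.Gin1

set_option autoImplicit false
set_option maxHeartbeats 4000000
open MeasureTheory ProbabilityTheory Set Matrix
open scoped ENNReal NNReal RealInnerProductSpace

namespace Pool.Agent.Q91.Gin

theorem set_icc (β s : ℝ) : {t : ℝ | |t - β| ≤ s} = Icc (β - s) (β + s) := by
  ext t
  simp only [mem_setOf_eq, mem_Icc, abs_le]
  constructor
  · rintro ⟨h1, h2⟩; constructor <;> linarith
  · rintro ⟨h1, h2⟩; constructor <;> linarith

theorem gr_bd {v : ℝ≥0} (hv : v ≠ 0) (β s M : ℝ) (hM : 0 ≤ M)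
    (h : ∀ t, |t - β| ≤ s → gaussianPDFReal 0 v t ≤ M) :
    gaussianReal 0 v {t | |t - β| ≤ s} ≤ ENNReal.ofReal (M * (2 * s)) := by
  have hm : MeasurableSet {t : ℝ | |t - β| ≤ s} := by rw [set_icc]; exact measurableSet_Icc
  rw [gaussianReal_apply 0 hv]
  calc ∫⁻ x in {t : ℝ | |t - β| ≤ s}, gaussianPDF 0 v x
      ≤ ∫⁻ x in {t : ℝ | |t - β| ≤ s}, ENNReal.ofReal M := by
        apply setLIntegral_mono' hm
        intro x hx
        exact ENNReal.ofReal_le_ofReal (h x hx)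
    _ = ENNReal.ofReal M * volume {t : ℝ | |t - β| ≤ s} := by simp
    _ = ENNReal.ofReal (M * (2 * s)) := by
        rw [set_icc, Real.volume_Icc, ← ENNReal.ofReal_mul hM]
        congr 1; ring

theorem pi_half : (2 : ℝ) ≤ √(2 * Real.pi) := by
  apply Real.le_sqrt_of_sq_le
  have := Real.pi_gt_three
  linarith

theorem pdf_le {v : ℝ≥0} (hv : v ≠ 0) (t : ℝ) : gaussianPDFReal 0 v t ≤ 1 / (2 * √v) := by
  have hv' : 0 < (v : ℝ) := by
    have : 0 < v := pos_iff_ne_zero.2 hv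
    exact_mod_cast this
  have hs : 0 < √(v : ℝ) := Real.sqrt_pos.2 hv'
  rw [gaussianPDFReal, Real.sqrt_mul (by positivity)]
  have h1 : Real.exp (-(t - 0) ^ 2 / (2 * v)) ≤ 1 := by
    apply Real.exp_le_one_iff.2
    apply div_nonpos_of_nonpos_of_nonneg
    · nlinarith [sq_nonneg t]
    · positivity
  have h2 : (√(2 * Real.pi) * √(v : ℝ))⁻¹ ≤ 1 / (2 * √v) := by
    rw [one_div]
    apply inv_anti₀ (by positivity)
    exact mul_le_mul_of_nonneg_right pi_half hs.le
  calc _ ≤ (√(2 * Real.pi) * √(v : ℝ))⁻¹ * 1 := mul_le_mul_of_nonneg_left h1 (by positivity)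
    _ ≤ _ := by rw [mul_one]; exact h2

theorem pdf_far {v : ℝ≥0} (hv : v ≠ 0) (t τ : ℝ) (hτ : 0 < τ) (ht : τ ≤ |t|) :
    gaussianPDFReal 0 v t ≤ 1 / (2 * τ) := by
  have hv' : 0 < (v : ℝ) := by
    have : 0 < v := pos_iff_ne_zero.2 hv
    exact_mod_cast this
  have hs : 0 < √(v : ℝ) := Real.sqrt_pos.2 hv'
  rw [gaussianPDFReal, Real.sqrt_mul (by positivity)]
  set σ := √(v : ℝ) with hσ
  have hσ2 : (v : ℝ) = σ ^ 2 := (Real.sq_sqrt hv'.le).symm
  -- r = τ/σ
  have h1 : -(t - 0) ^ 2 / (2 * (v : ℝ)) ≤ -((τ / σ) ^ 2 / 2) := by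
    rw [hσ2, sub_zero]
    have : τ ^ 2 ≤ t ^ 2 := by
      rw [← sq_abs t]
      exact pow_le_pow_left₀ hτ.le ht 2
    rw [div_pow, neg_div, neg_le_neg_iff, div_div, mul_comm (σ ^ 2) 2]
    exact div_le_div_of_nonneg_right this (by positivity)
  have h2 : Real.exp (-(t - 0) ^ 2 / (2 * (v : ℝ))) ≤ (σ / τ) := by
    refine (Real.exp_le_exp.2 h1).trans ?_
    rw [Real.exp_neg, ← inv_div τ σ]
    apply inv_anti₀ (by positivity)
    have := Real.add_one_le_exp ((τ / σ) ^ 2 / 2)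
    nlinarith [sq_nonneg (τ / σ - 1)]
  calc (√(2 * Real.pi) * σ)⁻¹ * Real.exp (-(t - 0) ^ 2 / (2 * (v : ℝ)))
      ≤ (√(2 * Real.pi) * σ)⁻¹ * (σ / τ) := mul_le_mul_of_nonneg_left h2 (by positivity)
    _ = 1 / (√(2 * Real.pi) * τ) := by field_simp
    _ ≤ 1 / (2 * τ) := by
        apply div_le_div_of_nonneg_left zero_le_one (by positivity)
        exact mul_le_mul_of_nonneg_right pi_half hτ.le

theorem gr_small {v : ℝ≥0} (hv : v ≠ 0) (β s : ℝ) :
    gaussianReal 0 v {t | |t - β| ≤ s} ≤ ENNReal.ofReal (s / √v) := by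
  have hv' : 0 < (v : ℝ) := by
    have : 0 < v := pos_iff_ne_zero.2 hv
    exact_mod_cast this
  refine (gr_bd hv β s (1 / (2 * √v)) (by positivity) fun t _ => pdf_le hv t).trans (le_of_eq ?_)
  congr 1
  field_simp

theorem gr_far (v : ℝ≥0) (β s : ℝ) (hβ : β ≠ 0) :
    gaussianReal 0 v {t | |t - β| ≤ s} ≤ ENNReal.ofReal (2 * s / |β|) := by
  have hb : 0 < |β| := abs_pos.2 hβ
  by_cases h : |β| / 2 < s
  · refine prob_le_one.trans ?_
    rw [← ENNReal.ofReal_one]
    apply ENNReal.ofReal_le_ofReal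
    rw [le_div_iff₀ hb]
    linarith
  · push Not at h
    by_cases hv : v = 0
    · subst hv
      rw [gaussianReal_zero_var, Measure.dirac_apply' _ (by rw [set_icc]; exact measurableSet_Icc)]
      rw [indicator_of_notMem]
      · exact bot_le
      · simp only [mem_setOf_eq, zero_sub, abs_neg, not_le]
        linarith
    · refine (gr_bd hv β s (1 / (2 * (|β| / 2))) (by positivity) fun t ht => ?_).trans (le_of_eq ?_)
      · apply pdf_far hv t _ (by positivity)
        have := abs_sub_abs_le_abs_sub β t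
        rw [abs_sub_comm] at this
        linarith
      · congr 1
        field_simp

end Pool.Agent.Q91.Gin
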