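import Mathlib
import Pool.Agent.Q91.Gin2

set_option autoImplicit false
set_option maxHeartbeats 4000000
open MeasureTheory ProbabilityTheory Set Matrix
open scoped ENNReal NNReal RealInnerProductSpace

namespace Pool.Agent.Q91.Gin

/-- Euclidean norm of a real vector -/
noncomputable def nm {n : ℕ} (x : Fin n → ℝ) : ℝ := ‖(WithLp.toLp 2 x : EuclideanSpace ℝ (Fin n))‖

theorem nm_nonneg {n : ℕ} (x : Fin n → ℝ) : 0 ≤ nm x := norm_nonneg _

theorem nm_sq {n : ℕ} (x : Fin n → ℝ) : nm x ^ 2 = x ⬝ᵥ x := by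
  rw [nm, ← real_inner_self_eq_norm_sq]
  exact inner_toLp x x

theorem nm_add {n : ℕ} (x y : Fin n → ℝ) : nm (x + y) ≤ nm x + nm y := by
  unfold nm
  rw [WithLp.toLp_add]
  exact norm_add_le _ _

theorem nm_sub {n : ℕ} (x y : Fin n → ℝ) : nm (x - y) ≤ nm x + nm y := by
  unfold nm
  rw [WithLp.toLp_sub]
  exact norm_sub_le _ _

theorem nm_smul {n : ℕ} (c : ℝ) (x : Fin n → ℝ) : nm (c • x) = |c| * nm x := by
  unfold nm
  rw [WithLp.toLp_smul, norm_smul, Real.norm_eq_abs]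

theorem nm_orth {n : ℕ} {O : Matrix (Fin n) (Fin n) ℝ} (hO : Oᵀ * O = 1) (x : Fin n → ℝ) :
    nm (O *ᵥ x) = nm x := by
  have h : nm (O *ᵥ x) ^ 2 = nm x ^ 2 := by
    rw [nm_sq, nm_sq, dotProduct_mulVec, vecMul_mulVec, hO, vecMul_one]
  exact (sq_eq_sq₀ (nm_nonneg _) (nm_nonneg _)).1 h

theorem nm_single {n : ℕ} (i : Fin n) (c : ℝ) : nm (Pi.single i c) = |c| := by
  have h : nm (Pi.single i c : Fin n → ℝ) ^ 2 = |c| ^ 2 := by
    rw [nm_sq, sq_abs]
    simp [sq]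
  exact (sq_eq_sq₀ (nm_nonneg _) (abs_nonneg _)).1 h

theorem sqrtn {n : ℕ} (hn : 1 ≤ n) : 1 ≤ √(n : ℝ) := by
  apply Real.one_le_sqrt.2
  exact_mod_cast hn

/-- probability estimate for one row -/
theorem row_bound {n : ℕ} (hn : 1 ≤ n) (x y : Fin n → ℝ) (hxy : x ⬝ᵥ y = 0) (hx : 1 / 2 ≤ x ⬝ᵥ x)
    (α β s T : ℝ) (hs : 0 ≤ s) (hT : 0 < T) (hmax : 1 ≤ T * |β| ∨ 1 ≤ T * nm y) :
    sv n {g | |x ⬝ᵥ g / √n - α| ≤ s ∧ |y ⬝ᵥ g / √n - β| ≤ s} ≤ ENNReal.ofReal (2 * √2 * n * s ^ 2 * T) := by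
  have hn1 := sqrtn hn
  have hn0 : 0 < √(n : ℝ) := by linarith
  have hset : {g : Fin n → ℝ | |x ⬝ᵥ g / √n - α| ≤ s ∧ |y ⬝ᵥ g / √n - β| ≤ s}
      = (fun g : Fin n → ℝ => x ⬝ᵥ g) ⁻¹' {t | |t - √n * α| ≤ √n * s}
        ∩ (fun g : Fin n → ℝ => y ⬝ᵥ g) ⁻¹' {t | |t - √n * β| ≤ √n * s} := by
    have key : ∀ a c : ℝ, |a / √n - c| ≤ s ↔ |a - √n * c| ≤ √n * s := by
      intro a c
      have : a - √n * c = √n * (a / √n - c) := by field_simp
      rw [this, abs_mul, abs_of_pos hn0]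
      exact (mul_le_mul_iff_right₀ hn0).symm
    ext g
    simp only [mem_setOf_eq, mem_inter_iff, mem_preimage, key]
  have hm : ∀ c r : ℝ, MeasurableSet {t : ℝ | |t - c| ≤ r} := by
    intro c r; rw [set_icc]; exact measurableSet_Icc
  rw [hset, (law_pair x y hxy).measure_inter_preimage_eq_mul _ _ (hm _ _) (hm _ _)]
  rw [← Measure.map_apply (meas_dot x) (hm _ _), ← Measure.map_apply (meas_dot y) (hm _ _), law_one, law_one]
  have h1 : gaussianReal 0 (x ⬝ᵥ x).toNNReal {t | |t - √n * α| ≤ √n * s} ≤ ENNReal.ofReal (√2 * √n * s) := by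
    have hv : (x ⬝ᵥ x).toNNReal ≠ 0 := by
      rw [ne_eq, Real.toNNReal_eq_zero, not_le]; linarith
    refine (gr_small hv _ _).trans (ENNReal.ofReal_le_ofReal ?_)
    rw [Real.coe_toNNReal _ (by linarith)]
    have h2 : 1 / √2 ≤ √(x ⬝ᵥ x) := by
      apply Real.le_sqrt_of_sq_le
      rw [div_pow, Real.sq_sqrt (by norm_num)]
      linarith
    rw [div_le_iff₀ (by positivity)]
    have h3 : 1 ≤ √2 * √(x ⬝ᵥ x) := by
      rw [div_le_iff₀ (by positivity)] at h2
      linarith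
    calc √n * s = (√n * s) * 1 := by ring
      _ ≤ (√n * s) * (√2 * √(x ⬝ᵥ x)) := mul_le_mul_of_nonneg_left h3 (by positivity)
      _ = _ := by ring
  have h2 : gaussianReal 0 (y ⬝ᵥ y).toNNReal {t | |t - √n * β| ≤ √n * s} ≤ ENNReal.ofReal (2 * √n * s * T) := by
    rcases hmax with h | h
    · have hβ : β ≠ 0 := by
        rintro rfl
        simp at h
        linarith
      have hb : 0 < |β| := abs_pos.2 hβ
      refine (gr_far _ _ _ (mul_ne_zero hn0.ne' hβ)).trans (ENNReal.ofReal_le_ofReal ?_)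
      rw [abs_mul, abs_of_pos hn0, div_le_iff₀ (by positivity)]
      calc 2 * (√n * s) = (2 * (√n * s)) * 1 := by ring
        _ ≤ (2 * (√n * s)) * (√n * (T * |β|)) := by
            apply mul_le_mul_of_nonneg_left _ (by positivity)
            calc (1 : ℝ) = 1 * 1 := by ring
              _ ≤ √n * (T * |β|) := mul_le_mul hn1 h zero_le_one (by positivity)
        _ = _ := by ring
    · have hy : 0 < nm y := by
        rcases (nm_nonneg y).lt_or_eq with h' | h'
        · exact h'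
        · rw [← h'] at h; simp at h; linarith
      have hyy : 0 < y ⬝ᵥ y := by rw [← nm_sq]; positivity
      have hv : (y ⬝ᵥ y).toNNReal ≠ 0 := by
        rw [ne_eq, Real.toNNReal_eq_zero, not_le]; exact hyy
      refine (gr_small hv _ _).trans (ENNReal.ofReal_le_ofReal ?_)
      rw [Real.coe_toNNReal _ hyy.le, ← nm_sq, Real.sqrt_sq hy.le, div_le_iff₀ hy]
      calc √n * s = (√n * s) * 1 := by ring
        _ ≤ (√n * s) * (2 * (T * nm y)) := mul_le_mul_of_nonneg_left (by linarith) (by positivity)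
        _ = _ := by ring
  calc _ ≤ ENNReal.ofReal (√2 * √n * s) * ENNReal.ofReal (2 * √n * s * T) := mul_le_mul' h1 h2
    _ = ENNReal.ofReal (2 * √2 * n * s ^ 2 * T) := by
        rw [← ENNReal.ofReal_mul (by positivity)]
        congr 1
        have : √(n : ℝ) * √n = n := Real.mul_self_sqrt (Nat.cast_nonneg n)
        calc √2 * √n * s * (2 * √n * s * T) = 2 * √2 * (√n * √n) * s ^ 2 * T := by ring
          _ = _ := by rw [this]

/-- normalisation of a complex vector by a scalar: orthogonal real and imaginary parts -/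
theorem phase {n : ℕ} (q : Fin n → ℂ) (hq : q ≠ 0) : ∃ ω : ℂ,
    (∑ j, ‖(ω • q) j‖ ^ 2 = 1) ∧ (fun j => ((ω • q) j).re) ⬝ᵥ (fun j => ((ω • q) j).im) = 0 ∧
      1 / 2 ≤ (fun j => ((ω • q) j).re) ⬝ᵥ (fun j => ((ω • q) j).re) := by
  set L : ℝ := ∑ j, ‖q j‖ ^ 2 with hL
  have hLp : 0 < L := by
    obtain ⟨i, hi⟩ := Function.ne_iff.1 hq
    apply Finset.sum_pos'
    · intro j _; positivity
    · refine ⟨i, Finset.mem_univ _, ?_⟩
      have : 0 < ‖q i‖ := norm_pos_iff.2 hi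
      positivity
  set Z : ℂ := ∑ j, q j ^ 2 with hZ
  set ω₁ : ℂ := Complex.exp (-(Z.arg / 2 : ℝ) * Complex.I) with hω₁
  have hω1n : ‖ω₁‖ = 1 := by
    rw [hω₁, ← Complex.ofReal_neg]
    exact Complex.norm_exp_ofReal_mul_I _
  have hω1 : ω₁ ^ 2 * Z = (‖Z‖ : ℂ) := by
    have h1 := Complex.norm_mul_exp_arg_mul_I Z
    have h2 : ω₁ ^ 2 * Complex.exp (Z.arg * Complex.I) = 1 := by
      rw [hω₁, ← Complex.exp_nat_mul, ← Complex.exp_add]
      rw [← Complex.exp_zero]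
      congr 1
      push_cast
      ring
    calc ω₁ ^ 2 * Z = ω₁ ^ 2 * (‖Z‖ * Complex.exp (Z.arg * Complex.I)) := by rw [h1]
      _ = ‖Z‖ * (ω₁ ^ 2 * Complex.exp (Z.arg * Complex.I)) := by ring
      _ = ‖Z‖ := by rw [h2, mul_one]
  refine ⟨ω₁ * ((√L)⁻¹ : ℝ), ?_, ?_⟩
  · simp only [Pi.smul_apply, smul_eq_mul, norm_mul, hω1n, one_mul, Complex.norm_real, norm_inv,
      Real.norm_eq_abs, mul_pow]
    rw [← Finset.mul_sum, ← hL, inv_pow, sq_abs, Real.sq_sqrt hLp.le]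
    field_simp
  · set p : Fin n → ℂ := (ω₁ * ((√L)⁻¹ : ℝ)) • q with hp
    have h1 : ∑ j, ‖p j‖ ^ 2 = 1 := by
      simp only [hp, Pi.smul_apply, smul_eq_mul, norm_mul, hω1n, one_mul, Complex.norm_real, norm_inv,
        Real.norm_eq_abs, mul_pow]
      rw [← Finset.mul_sum, ← hL, inv_pow, sq_abs, Real.sq_sqrt hLp.le]
      field_simp
    have h2 : ∑ j, p j ^ 2 = ((‖Z‖ / L : ℝ) : ℂ) := by
      simp only [hp, Pi.smul_apply, smul_eq_mul, mul_pow]
      rw [← Finset.mul_sum, ← hZ, mul_right_comm, hω1]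
      push_cast
      rw [inv_pow, ← Complex.ofReal_pow, Real.sq_sqrt hLp.le]
      rfl
    have hre := congrArg Complex.re h2
    have him := congrArg Complex.im h2
    rw [Complex.re_sum, Complex.ofReal_re] at hre
    rw [Complex.im_sum, Complex.ofReal_im] at him
    have e1 : ∀ j, (p j ^ 2).re = (p j).re * (p j).re - (p j).im * (p j).im := by
      intro j; rw [sq, Complex.mul_re]
    have e2 : ∀ j, (p j ^ 2).im = 2 * ((p j).re * (p j).im) := by
      intro j; rw [sq, Complex.mul_im]; ring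
    have e3 : ∀ j, ‖p j‖ ^ 2 = (p j).re * (p j).re + (p j).im * (p j).im := by
      intro j; rw [← Complex.normSq_eq_norm_sq, Complex.normSq_apply]
    simp only [e1, Finset.sum_sub_distrib] at hre
    simp only [e2, ← Finset.mul_sum] at him
    simp only [e3, Finset.sum_add_distrib] at h1
    have hZL : 0 ≤ ‖Z‖ / L := by positivity
    constructor
    · simp only [dotProduct]
      linarith
    · simp only [dotProduct]
      linarith

end Pool.Agent.Q91.Gin
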