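import Mathlib
import Pool.Agent.Q91.Gin3

set_option autoImplicit false
set_option maxHeartbeats 400000
open MeasureTheory ProbabilityTheory Set Matrix
open scoped ENNReal NNReal RealInnerProductSpace

namespace Pool.Agent.Q91.Gin

/-- the rows of `O (B - X/√n + i b)` applied to a complex vector -/
noncomputable def cm {n : ℕ} (O B : Matrix (Fin n) (Fin n) ℝ) (b : ℝ) (X : Fin n → Fin n → ℝ) (q : Fin n → ℂ)
    (i : Fin n) : ℂ :=
  ∑ j, ((((O * B) i j - X i j / √n : ℝ) : ℂ) + (b * O i j : ℝ) * Complex.I) * q j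

theorem cm_re {n : ℕ} (O B : Matrix (Fin n) (Fin n) ℝ) (b : ℝ) (X : Fin n → Fin n → ℝ) (q : Fin n → ℂ)
    (i : Fin n) : (cm O B b X q i).re = ((O * B) *ᵥ fun j => (q j).re) i - ((fun j => (q j).re) ⬝ᵥ X i) / √n
      - b * (O *ᵥ fun j => (q j).im) i := by
  rw [cm, Complex.re_sum]
  simp only [mulVec, dotProduct, Finset.sum_div, Finset.mul_sum]
  rw [← Finset.sum_sub_distrib, ← Finset.sum_sub_distrib]
  apply Finset.sum_congr rfl
  intro j _
  simp only [Complex.mul_re, Complex.add_re, Complex.ofReal_re, Complex.I_re, Complex.ofReal_im, Complex.I_im,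
    Complex.add_im, Complex.mul_im]
  ring

theorem cm_im {n : ℕ} (O B : Matrix (Fin n) (Fin n) ℝ) (b : ℝ) (X : Fin n → Fin n → ℝ) (q : Fin n → ℂ)
    (i : Fin n) : (cm O B b X q i).im = ((O * B) *ᵥ fun j => (q j).im) i - ((fun j => (q j).im) ⬝ᵥ X i) / √n
      + b * (O *ᵥ fun j => (q j).re) i := by
  rw [cm, Complex.im_sum]
  simp only [mulVec, dotProduct, Finset.sum_div, Finset.mul_sum]
  rw [← Finset.sum_sub_distrib, ← Finset.sum_add_distrib]
  apply Finset.sum_congr rfl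
  intro j _
  simp only [Complex.mul_re, Complex.add_re, Complex.ofReal_re, Complex.I_re, Complex.ofReal_im, Complex.I_im,
    Complex.add_im, Complex.mul_im]
  ring

theorem cm_smul {n : ℕ} (O B : Matrix (Fin n) (Fin n) ℝ) (b : ℝ) (X : Fin n → Fin n → ℝ) (ω : ℂ) (q : Fin n → ℂ)
    (i : Fin n) : cm O B b X (ω • q) i = ω * cm O B b X q i := by
  rw [cm, cm, Finset.mul_sum]
  apply Finset.sum_congr rfl
  intro j _
  simp only [Pi.smul_apply, smul_eq_mul]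
  ring

theorem cm_update {n : ℕ} (i0 : Fin n) (O B : Matrix (Fin n) (Fin n) ℝ) (b : ℝ) (X : Fin n → Fin n → ℝ)
    (g : Fin n → ℝ) (q : Fin n → ℂ) (i : Fin n) (hi : i ≠ i0) :
    cm O B b (Function.update X i0 g) q i = cm O B b X q i := by
  unfold cm
  rw [Function.update_of_ne hi]

/-- the event after rotation -/
def SO {n : ℕ} (i0 : Fin n) (O B : Matrix (Fin n) (Fin n) ℝ) (b s : ℝ) : Set (Fin n → Fin n → ℝ) :=
  {X | ∀ q : Fin n → ℂ, ∑ j, ‖q j‖ ^ 2 = 1 → (∀ i, i ≠ i0 → cm O B b X q i = 0) → ‖cm O B b X q i0‖ ≤ s}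

theorem exists_ker {n : ℕ} (i0 : Fin n) (O B : Matrix (Fin n) (Fin n) ℝ) (b : ℝ)
    (X : Fin n → Fin n → ℝ) : ∃ q : Fin n → ℂ, ∑ j, ‖q j‖ ^ 2 = 1 ∧
      (∀ i, i ≠ i0 → cm O B b X q i = 0) ∧ (fun j => (q j).re) ⬝ᵥ (fun j => (q j).im) = 0 ∧
      1 / 2 ≤ (fun j => (q j).re) ⬝ᵥ (fun j => (q j).re) := by
  set Mx : Matrix (Fin n) (Fin n) ℂ := Matrix.of fun i j =>
    if i = i0 then 0 else ((((O * B) i j - X i j / √(n : ℝ) : ℝ) : ℂ) + (b * O i j : ℝ) * Complex.I) with hMx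
  have hd : Mx.det = 0 := by
    apply det_eq_zero_of_row_eq_zero i0
    intro j
    simp [hMx]
  obtain ⟨q, hq0, hq⟩ := Matrix.exists_mulVec_eq_zero_iff.2 hd
  obtain ⟨ω, h1, h2, h3⟩ := phase q hq0
  refine ⟨ω • q, h1, ?_, h2, h3⟩
  intro i hi
  rw [cm_smul]
  have := congrFun hq i
  simp only [mulVec, dotProduct, hMx, of_apply, hi, if_false, Pi.zero_apply] at this
  rw [cm, this, mul_zero]

theorem nm_mask {n : ℕ} (i0 : Fin n) (z w : Fin n → ℝ) (h0 : z i0 = 0) (h : ∀ i, i ≠ i0 → z i = w i) :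
    nm z ≤ nm w := by
  apply (sq_le_sq₀ (nm_nonneg _) (nm_nonneg _)).1
  rw [nm_sq, nm_sq]
  simp only [dotProduct]
  apply Finset.sum_le_sum
  intro i _
  by_cases hi : i = i0
  · rw [hi, h0, mul_zero]; exact mul_self_nonneg _
  · rw [h i hi]

theorem geo_eq {n : ℕ} (i0 : Fin n) (P u v w : Fin n → ℝ) (b r : ℝ)
    (h : ∀ i, i ≠ i0 → P i - w i * r + b * u i = 0) (h0 : v i0 = 0) (h1 : ∀ i, i ≠ i0 → v i = w i) :
    b • u = (Pi.single i0 (P i0 + b * u i0) - P) + r • v := by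
  funext i
  by_cases hi : i = i0
  · subst hi
    simp only [Pi.smul_apply, smul_eq_mul, Pi.add_apply, Pi.sub_apply, Pi.single_eq_same, h0]
    ring
  · have h5 := h i hi
    simp only [Pi.smul_apply, smul_eq_mul, Pi.add_apply, Pi.sub_apply, Pi.single_eq_of_ne hi, h1 i hi]
    linarith

/-- geometry of a kernel vector -/
theorem geo {n : ℕ} (i0 : Fin n) (O B : Matrix (Fin n) (Fin n) ℝ) (hO : Oᵀ * O = 1) (b K N : ℝ)
    (hB : ∀ y, nm (B *ᵥ y) ≤ K * nm y)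
    (X : Fin n → Fin n → ℝ) (hX : ∀ y, nm (Matrix.of X *ᵥ y) ≤ √(n : ℝ) * N * nm y) (x y : Fin n → ℝ)
    (h : ∀ i, i ≠ i0 → ((O * B) *ᵥ y) i - (y ⬝ᵥ X i) / √(n : ℝ) + b * (O *ᵥ x) i = 0) :
    |b| * nm x ≤ |((O * B) *ᵥ y) i0 + b * (O *ᵥ x) i0| + (K + N) * nm y := by
  have hn1 : 1 ≤ n := by
    have := i0.2
    omega
  have hn0 : 0 < √(n : ℝ) := lt_of_lt_of_le one_pos (sqrtn hn1)
  obtain ⟨z, hz0, hz1⟩ : ∃ z : Fin n → ℝ, z i0 = 0 ∧ ∀ i, i ≠ i0 → z i = (Matrix.of X *ᵥ y) i :=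
    ⟨fun i => if i = i0 then 0 else (Matrix.of X *ᵥ y) i, by simp, fun i hi => by simp [hi]⟩
  have hzn : nm z ≤ nm (Matrix.of X *ᵥ y) := nm_mask i0 _ _ hz0 hz1
  have hgeo := geo_eq i0 ((O * B) *ᵥ y) (O *ᵥ x) z (Matrix.of X *ᵥ y) b (1 / √(n : ℝ)) (by
    intro i hi
    have h6 : (Matrix.of X *ᵥ y) i = y ⬝ᵥ X i := dotProduct_comm _ _
    rw [h6, mul_one_div]
    exact h i hi) hz0 hz1
  have e1 : |b| * nm x = nm (b • (O *ᵥ x)) := by rw [nm_smul, nm_orth hO]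
  have e2 : nm ((O * B) *ᵥ y) ≤ K * nm y := by
    rw [← mulVec_mulVec, nm_orth hO]
    exact hB y
  have e3 : nm ((1 / √(n : ℝ)) • z) ≤ N * nm y := by
    rw [nm_smul, abs_of_pos (by positivity)]
    calc 1 / √(n : ℝ) * nm z ≤ 1 / √(n : ℝ) * (√(n : ℝ) * N * nm y) :=
          mul_le_mul_of_nonneg_left (hzn.trans (hX y)) (by positivity)
      _ = N * nm y := by field_simp
  have e4 := nm_add (Pi.single i0 (((O * B) *ᵥ y) i0 + b * (O *ᵥ x) i0) - (O * B) *ᵥ y) ((1 / √(n : ℝ)) • z)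
  have e5 := nm_sub (Pi.single i0 (((O * B) *ᵥ y) i0 + b * (O *ᵥ x) i0)) ((O * B) *ᵥ y)
  rw [nm_single] at e5
  rw [← hgeo, ← e1] at e4
  linarith

theorem geo2 (b K N X β Y : ℝ) (hK : 0 ≤ K) (hN : 0 ≤ N) (hb : b ≠ 0) (hY : 0 ≤ Y) (hx : 1 / √2 ≤ X)
    (h : |b| * X ≤ |β| + (K + N) * Y) :
    1 ≤ (√2 * (1 + K + N) / |b|) * |β| ∨ 1 ≤ (√2 * (1 + K + N) / |b|) * Y := by
  have hbp : 0 < |b| := abs_pos.2 hb
  have hKN : 0 < 1 + K + N := by linarith
  by_contra hc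
  push Not at hc
  obtain ⟨c1, c2⟩ := hc
  have hs2 : 0 < √(2 : ℝ) := by positivity
  have c1' : √2 * (1 + K + N) * |β| < |b| := by
    rw [div_mul_eq_mul_div, div_lt_one hbp] at c1; exact c1
  have c2' : √2 * (1 + K + N) * Y < |b| := by
    rw [div_mul_eq_mul_div, div_lt_one hbp] at c2; exact c2
  have c3 : |b| ≤ √2 * (|β| + (K + N) * Y) := by
    calc |b| = √2 * (|b| * (1 / √2)) := by field_simp
      _ ≤ √2 * (|b| * X) := by gcongr
      _ ≤ _ := by gcongr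
  have c4 : (1 + K + N) * |b| ≤ √2 * (1 + K + N) * |β| + (K + N) * (√2 * (1 + K + N) * Y) := by
    calc (1 + K + N) * |b| ≤ (1 + K + N) * (√2 * (|β| + (K + N) * Y)) :=
          mul_le_mul_of_nonneg_left c3 hKN.le
      _ = _ := by ring
  have c5 : (K + N) * (√2 * (1 + K + N) * Y) ≤ (K + N) * |b| :=
    mul_le_mul_of_nonneg_left c2'.le (by linarith)
  linarith

theorem section_bound {n : ℕ} (i0 : Fin n) (O B : Matrix (Fin n) (Fin n) ℝ) (hO : Oᵀ * O = 1) (b s K N : ℝ)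
    (hb : b ≠ 0) (hs : 0 ≤ s) (hK : 0 ≤ K) (hN : 0 ≤ N) (hB : ∀ y, nm (B *ᵥ y) ≤ K * nm y)
    (X : Fin n → Fin n → ℝ) (hX : ∀ y, nm (Matrix.of X *ᵥ y) ≤ √(n : ℝ) * N * nm y) :
    sv n {g | Function.update X i0 g ∈ SO i0 O B b s} ≤
      ENNReal.ofReal (4 * (n : ℝ) * s ^ 2 * (1 + K + N) / |b|) := by
  have hn1 : 1 ≤ n := by
    have := i0.2
    omega
  have hbp : 0 < |b| := abs_pos.2 hb
  have hKN : 0 < 1 + K + N := by linarith
  obtain ⟨q, h1, h2, h3, h4⟩ := exists_ker i0 O B b X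
  have hg := geo i0 O B hO b K N hB X hX (fun j => (q j).re) (fun j => (q j).im) (by
    intro i hi
    rw [← cm_im, h2 i hi]
    rfl)
  have hnx : 1 / √2 ≤ nm (fun j => (q j).re) := by
    apply (sq_le_sq₀ (by positivity) (nm_nonneg _)).1
    rw [nm_sq, div_pow, Real.sq_sqrt (by norm_num)]
    linarith
  have hmax := geo2 b K N _ _ _ hK hN hb (nm_nonneg _) hnx hg
  have hfin := row_bound hn1 (fun j => (q j).re) (fun j => (q j).im) h3 h4
    (((O * B) *ᵥ fun j => (q j).re) i0 - b * (O *ᵥ fun j => (q j).im) i0) _ s (√2 * (1 + K + N) / |b|) hs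
    (by positivity) hmax
  refine (measure_mono ?_).trans (hfin.trans (le_of_eq ?_))
  · intro g hg
    have h5 := hg q h1 (fun i hi => by rw [cm_update i0 O B b X g q i hi]; exact h2 i hi)
    have hre := cm_re O B b (Function.update X i0 g) q i0
    have him := cm_im O B b (Function.update X i0 g) q i0
    rw [Function.update_self] at hre him
    have a1 := (Complex.abs_re_le_norm (cm O B b (Function.update X i0 g) q i0)).trans h5
    have a2 := (Complex.abs_im_le_norm (cm O B b (Function.update X i0 g) q i0)).trans h5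
    rw [hre] at a1
    rw [him] at a2
    constructor
    · rw [← abs_neg]
      refine le_trans (le_of_eq ?_) a1
      congr 1
      ring
    · rw [← abs_neg]
      refine le_trans (le_of_eq ?_) a2
      congr 1
      ring
  · congr 1
    have h22 : √(2 : ℝ) * √2 = 2 := Real.mul_self_sqrt (by norm_num)
    calc 2 * √2 * (n : ℝ) * s ^ 2 * (√2 * (1 + K + N) / |b|) = 2 * (√2 * √2) * n * s ^ 2 * ((1 + K + N) / |b|) := by ring
      _ = _ := by rw [h22]; ring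

end Pool.Agent.Q91.Gin
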