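import Mathlib
import Pool.Agent.Q91.Gin4

set_option autoImplicit false
set_option maxHeartbeats 400000
open MeasureTheory ProbabilityTheory Set Matrix
open scoped ENNReal NNReal RealInnerProductSpace

namespace Pool.Agent.Q91.Gin

theorem cont_cm {n : ℕ} (O B : Matrix (Fin n) (Fin n) ℝ) (b : ℝ) (i : Fin n) :
    Continuous fun p : (Fin n → Fin n → ℝ) × (Fin n → ℂ) => cm O B b p.1 p.2 i := by
  unfold cm
  apply continuous_finsetSum
  intro j _
  apply Continuous.mul
  · apply Continuous.add _ continuous_const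
    apply Complex.continuous_ofReal.comp
    apply Continuous.sub continuous_const
    apply Continuous.div_const
    exact (continuous_apply j).comp ((continuous_apply i).comp continuous_fst)
  · exact (continuous_apply j).comp continuous_snd

theorem compact_sph (n : ℕ) : IsCompact {q : Fin n → ℂ | ∑ j, ‖q j‖ ^ 2 = 1} := by
  apply Metric.isCompact_of_isClosed_isBounded
  · apply isClosed_eq _ continuous_const
    fun_prop
  · apply (Metric.isBounded_closedBall (x := (0 : Fin n → ℂ)) (r := 1)).subset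
    intro q hq
    rw [mem_closedBall_zero_iff, pi_norm_le_iff_of_nonneg zero_le_one]
    intro i
    have h1 : ‖q i‖ ^ 2 ≤ ∑ j, ‖q j‖ ^ 2 :=
      Finset.single_le_sum (f := fun j => ‖q j‖ ^ 2) (fun j _ => by positivity) (Finset.mem_univ i)
    rw [show ∑ j, ‖q j‖ ^ 2 = 1 from hq] at h1
    nlinarith [norm_nonneg (q i)]

theorem closed_proj {α β : Type} [TopologicalSpace α] [TopologicalSpace β] {K : Set β} (hK : IsCompact K)
    {C : Set (α × β)} (hC : IsClosed C) : IsClosed {a | ∃ b ∈ K, (a, b) ∈ C} := by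
  have : CompactSpace K := isCompact_iff_compactSpace.1 hK
  have h1 : IsClosed {p : α × K | (p.1, (p.2 : β)) ∈ C} :=
    hC.preimage (continuous_fst.prodMk (continuous_subtype_val.comp continuous_snd))
  have h2 := isClosedMap_fst_of_compactSpace (X := α) (Y := K) _ h1
  convert h2 using 1
  ext a
  simp only [mem_setOf_eq, mem_image, Prod.exists, exists_and_right, exists_eq_right, Subtype.exists]
  constructor
  · rintro ⟨b, h3, h4⟩; exact ⟨b, h3, h4⟩
  · rintro ⟨b, h3, h4⟩; exact ⟨b, h3, h4⟩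

theorem meas_SO {n : ℕ} (i0 : Fin n) (O B : Matrix (Fin n) (Fin n) ℝ) (b s : ℝ) : MeasurableSet (SO i0 O B b s) := by
  rw [← MeasurableSet.compl_iff]
  have h : (SO i0 O B b s)ᶜ = ⋃ k : ℕ, {X : Fin n → Fin n → ℝ | ∃ q ∈ {q : Fin n → ℂ | ∑ j, ‖q j‖ ^ 2 = 1},
      (X, q) ∈ {p : (Fin n → Fin n → ℝ) × (Fin n → ℂ) | (∀ i, i ≠ i0 → cm O B b p.1 p.2 i = 0) ∧
        s + 1 / ((k : ℝ) + 1) ≤ ‖cm O B b p.1 p.2 i0‖}} := by
    ext X
    simp only [mem_compl_iff, SO, mem_setOf_eq, not_forall, not_le, mem_iUnion]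
    constructor
    · rintro ⟨q, h1, h2, h3⟩
      obtain ⟨k, hk⟩ := exists_nat_one_div_lt (sub_pos.2 h3)
      exact ⟨k, q, h1, h2, by linarith⟩
    · rintro ⟨k, q, h1, h2, h3⟩
      have : (0 : ℝ) < 1 / ((k : ℝ) + 1) := by positivity
      exact ⟨q, h1, h2, by linarith⟩
  rw [h]
  apply MeasurableSet.iUnion
  intro k
  apply IsClosed.measurableSet
  apply closed_proj (compact_sph n)
  have h2 : {p : (Fin n → Fin n → ℝ) × (Fin n → ℂ) | (∀ i, i ≠ i0 → cm O B b p.1 p.2 i = 0) ∧
        s + 1 / ((k : ℝ) + 1) ≤ ‖cm O B b p.1 p.2 i0‖} =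
      (⋂ i : Fin n, ⋂ _ : i ≠ i0, {p : (Fin n → Fin n → ℝ) × (Fin n → ℂ) | cm O B b p.1 p.2 i = 0}) ∩
        {p : (Fin n → Fin n → ℝ) × (Fin n → ℂ) | s + 1 / ((k : ℝ) + 1) ≤ ‖cm O B b p.1 p.2 i0‖} := by
    ext p
    simp
  rw [h2]
  apply IsClosed.inter
  · apply isClosed_iInter
    intro i
    apply isClosed_iInter
    intro _
    exact isClosed_eq (cont_cm O B b i) continuous_const
  · exact isClosed_le continuous_const (cont_cm O B b i0).norm

/-- standard Gaussian matrix -/
noncomputable def sg (n : ℕ) : Measure (Fin n → Fin n → ℝ) := Measure.pi fun _ => sv n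

instance (n : ℕ) : IsProbabilityMeasure (sg n) := by unfold sg; infer_instance

theorem SO_bound {n : ℕ} (i0 : Fin n) (O B : Matrix (Fin n) (Fin n) ℝ) (hO : Oᵀ * O = 1) (b s K : ℝ)
    (hb : b ≠ 0) (hs : 0 ≤ s) (hK : 0 ≤ K) (hB : ∀ y, nm (B *ᵥ y) ≤ K * nm y)
    (F : (Fin n → Fin n → ℝ) → ℝ) (hF : Measurable F) (hF0 : ∀ X, 0 ≤ F X)
    (hX : ∀ X y, nm (Matrix.of X *ᵥ y) ≤ √(n : ℝ) * F X * nm y) :
    sg n (SO i0 O B b s) ≤ ∫⁻ X, ENNReal.ofReal (4 * (n : ℝ) * s ^ 2 * (1 + K + F X) / |b|) ∂(sg n) := by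
  have hm := meas_SO i0 O B b s
  rw [← lintegral_indicator_one hm]
  unfold sg
  apply lintegral_le_of_lmarginal_le {i0}
  · exact measurable_one.indicator hm
  · apply ENNReal.measurable_ofReal.comp
    apply Measurable.div_const
    apply Measurable.const_mul
    exact measurable_const.add hF
  · rw [lmarginal_singleton, lmarginal_singleton]
    intro X
    simp only
    have hmu : Measurable fun g : Fin n → ℝ => Function.update X i0 g := measurable_update X
    have hset : MeasurableSet {g | Function.update X i0 g ∈ SO i0 O B b s} := hmu hm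
    have e1 : ∫⁻ g, (SO i0 O B b s).indicator 1 (Function.update X i0 g) ∂(sv n)
        = sv n {g | Function.update X i0 g ∈ SO i0 O B b s} := by
      rw [← lintegral_indicator_one hset]
      rfl
    rw [e1]
    calc sv n {g | Function.update X i0 g ∈ SO i0 O B b s}
        = ∫⁻ _ : Fin n → ℝ, sv n {g | Function.update X i0 g ∈ SO i0 O B b s} ∂(sv n) := by
          rw [lintegral_const, measure_univ, mul_one]
      _ ≤ _ := by
          apply lintegral_mono
          intro g'
          have := section_bound i0 O B hO b s K (F (Function.update X i0 g')) hb hs hK (hF0 _) hB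
            (Function.update X i0 g') (hX _)
          simp only [Function.update_idem] at this
          exact this

end Pool.Agent.Q91.Gin
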