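import Mathlib
import Pool.Agent.Q91.Gin5
import Pool.Agent.Q298.Sv.Ga

set_option autoImplicit false
set_option maxHeartbeats 400000
open MeasureTheory ProbabilityTheory Set Matrix
open scoped ENNReal NNReal RealInnerProductSpace

namespace Pool.Agent.Q91.Gin

/-- half-net of the sphere with at most `5^n` points -/
theorem exists_net (n : ℕ) : ∃ N : Finset (EuclideanSpace ℝ (Fin n)), N.card ≤ 5 ^ n ∧ (∀ v ∈ N, ‖v‖ = 1) ∧
    ∀ u : EuclideanSpace ℝ (Fin n), ‖u‖ = 1 → ∃ v ∈ N, ‖u - v‖ ≤ 1 / 2 := by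
  classical
  set E := EuclideanSpace ℝ (Fin n)
  set P : ℕ → Prop := fun k => ∃ N : Finset E, N.card = k ∧ (∀ v ∈ N, ‖v‖ = 1) ∧
    ∀ v ∈ N, ∀ w ∈ N, v ≠ w → 1 / 2 ≤ ‖v - w‖ with hP
  have hbd : ∀ k, P k → k ≤ 5 ^ n := by
    rintro k ⟨N, h1, h2, h3⟩
    have hinj : Function.Injective (fun v : E => (2 : ℝ) • v) := smul_right_injective E two_ne_zero
    have h4 := Besicovitch.card_le_of_separated (N.map ⟨fun v : E => (2 : ℝ) • v, hinj⟩) (by
      intro c hc
      rw [Finset.mem_map] at hc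
      obtain ⟨v, hv, rfl⟩ := hc
      simp only [Function.Embedding.coeFn_mk, norm_smul, h2 v hv]
      norm_num) (by
      intro c hc d hd hcd
      rw [Finset.mem_map] at hc hd
      obtain ⟨v, hv, rfl⟩ := hc
      obtain ⟨w, hw, rfl⟩ := hd
      have hvw : v ≠ w := fun h => hcd (by rw [h])
      have := h3 v hv w hw hvw
      simp only [Function.Embedding.coeFn_mk, ← smul_sub, norm_smul]
      norm_num
      linarith)
    rw [Finset.card_map, h1] at h4
    have hfr : Module.finrank ℝ E = n := finrank_euclideanSpace_fin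
    rwa [hfr] at h4
  have hP0 : P 0 := ⟨∅, by simp, by simp, by simp⟩
  have hk := Nat.findGreatest_spec (P := P) (Nat.zero_le (5 ^ n)) hP0
  set k := Nat.findGreatest P (5 ^ n) with hkdef
  obtain ⟨N, h1, h2, h3⟩ := hk
  refine ⟨N, ?_, h2, ?_⟩
  · rw [h1]; exact Nat.findGreatest_le _
  · intro u hu
    by_contra hc
    push Not at hc
    have huN : u ∉ N := by
      intro h
      have := hc u h
      rw [sub_self, norm_zero] at this
      norm_num at this
    have hP1 : P (k + 1) := by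
      refine ⟨insert u N, ?_, ?_, ?_⟩
      · rw [Finset.card_insert_of_notMem huN, h1]
      · intro v hv
        rw [Finset.mem_insert] at hv
        rcases hv with rfl | hv
        · exact hu
        · exact h2 v hv
      · intro v hv w hw hvw
        rw [Finset.mem_insert] at hv hw
        rcases hv with rfl | hv <;> rcases hw with rfl | hw
        · exact absurd rfl hvw
        · exact (hc w hw).le
        · rw [norm_sub_rev]; exact (hc v hv).le
        · exact h3 v hv w hw hvw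
    have := Nat.le_findGreatest (hbd _ hP1) hP1
    omega

/-- operator norm from a net -/
theorem op_of_net {n : ℕ} (N : Finset (EuclideanSpace ℝ (Fin n)))
    (hN : ∀ u : EuclideanSpace ℝ (Fin n), ‖u‖ = 1 → ∃ v ∈ N, ‖u - v‖ ≤ 1 / 2)
    (X : Matrix (Fin n) (Fin n) ℝ) (c : ℝ) (hc0 : 0 ≤ c) (hc : ∀ v ∈ N, nm (X *ᵥ v.ofLp) ≤ c) (y : Fin n → ℝ) :
    nm (X *ᵥ y) ≤ 2 * c * nm y := by
  set T := Matrix.toEuclideanCLM (n := Fin n) (𝕜 := ℝ) X with hT
  have hTa : ∀ z : EuclideanSpace ℝ (Fin n), ‖T z‖ = nm (X *ᵥ z.ofLp) := by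
    intro z
    rfl
  have hle : ‖T‖ ≤ c + ‖T‖ / 2 := by
    apply ContinuousLinearMap.opNorm_le_of_unit_norm (by positivity)
    intro u hu
    obtain ⟨v, hv, huv⟩ := hN u hu
    calc ‖T u‖ = ‖T v + T (u - v)‖ := by rw [← map_add]; congr 2; abel
      _ ≤ ‖T v‖ + ‖T (u - v)‖ := norm_add_le _ _
      _ ≤ c + ‖T‖ * (1 / 2) := by
          gcongr
          · rw [hTa]; exact hc v hv
          · exact (T.le_opNorm _).trans (by gcongr)
      _ = _ := by ring
  have h2 : ‖T‖ ≤ 2 * c := by linarith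
  have h3 := T.le_opNorm (WithLp.toLp 2 y)
  calc nm (X *ᵥ y) = ‖T (WithLp.toLp 2 y)‖ := rfl
    _ ≤ ‖T‖ * ‖(WithLp.toLp 2 y : EuclideanSpace ℝ (Fin n))‖ := h3
    _ ≤ 2 * c * nm y := by
        unfold nm
        gcongr

/-- the chosen net -/
noncomputable def net (n : ℕ) : Finset (EuclideanSpace ℝ (Fin n)) := (exists_net n).choose

theorem net_card (n : ℕ) : (net n).card ≤ 5 ^ n := (exists_net n).choose_spec.1
theorem net_unit {n : ℕ} (v : EuclideanSpace ℝ (Fin n)) (hv : v ∈ net n) : ‖v‖ = 1 :=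
  (exists_net n).choose_spec.2.1 v hv
theorem net_cover {n : ℕ} (u : EuclideanSpace ℝ (Fin n)) (hu : ‖u‖ = 1) : ∃ v ∈ net n, ‖u - v‖ ≤ 1 / 2 :=
  (exists_net n).choose_spec.2.2 u hu

/-- exponential sum over the net -/
noncomputable def Sx {n : ℕ} (X : Fin n → Fin n → ℝ) : ℝ :=
  ((8 : ℝ) ^ n)⁻¹ * ∑ v ∈ net n, Real.exp ((∑ i, (v.ofLp ⬝ᵥ X i) ^ 2) / 4)

/-- majorant of the operator norm -/
noncomputable def Fx {n : ℕ} (X : Fin n → Fin n → ℝ) : ℝ := 2 * (9 + 4 * Sx X)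

theorem Sx_nonneg {n : ℕ} (X : Fin n → Fin n → ℝ) : 0 ≤ Sx X := by
  unfold Sx
  apply mul_nonneg (by positivity)
  apply Finset.sum_nonneg
  intro v _
  exact (Real.exp_pos _).le

theorem Fx_nonneg {n : ℕ} (X : Fin n → Fin n → ℝ) : 0 ≤ Fx X := by
  unfold Fx
  have := Sx_nonneg X
  positivity

theorem meas_dd {n : ℕ} (v : Fin n → ℝ) (i : Fin n) : Measurable fun X : Fin n → Fin n → ℝ => v ⬝ᵥ X i :=
  (meas_dot v).comp (measurable_pi_apply i)

theorem meas_Sx {n : ℕ} : Measurable (Sx : (Fin n → Fin n → ℝ) → ℝ) := by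
  unfold Sx
  apply Measurable.const_mul
  apply Finset.measurable_sum
  intro v _
  apply Real.measurable_exp.comp
  apply Measurable.div_const
  apply Finset.measurable_sum
  intro i _
  exact (meas_dd v.ofLp i).pow_const 2

theorem meas_Fx {n : ℕ} : Measurable (Fx : (Fin n → Fin n → ℝ) → ℝ) :=
  ((meas_Sx.const_mul 4).const_add 9).const_mul 2

theorem op_Fx {n : ℕ} (hn : 1 ≤ n) (X : Fin n → Fin n → ℝ) (y : Fin n → ℝ) :
    nm (Matrix.of X *ᵥ y) ≤ √(n : ℝ) * Fx X * nm y := by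
  have hS := Sx_nonneg X
  have hn1 : (1 : ℝ) ≤ n := by exact_mod_cast hn
  have h8 : Real.log 8 ≤ 9 / 4 := by
    have : (8 : ℝ) = 2 ^ (3 : ℕ) := by norm_num
    rw [this, Real.log_pow]
    have := Real.log_two_lt_d9
    push_cast
    linarith
  have key := op_of_net (net n) net_cover (Matrix.of X) (√(n : ℝ) * (9 + 4 * Sx X)) (by positivity) (by
    intro v hv
    set t : ℝ := ∑ i, (v.ofLp ⬝ᵥ X i) ^ 2 with ht
    have e1 : nm (Matrix.of X *ᵥ v.ofLp) ^ 2 = t := by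
      rw [nm_sq, ht]
      simp only [dotProduct, mulVec, of_apply]
      apply Finset.sum_congr rfl
      intro i _
      rw [sq]
      congr 1 <;> (apply Finset.sum_congr rfl; intro j _; ring)
    have e2 : ((8 : ℝ) ^ n)⁻¹ * Real.exp (t / 4) ≤ Sx X := by
      unfold Sx
      apply mul_le_mul_of_nonneg_left _ (by positivity)
      exact Finset.single_le_sum (f := fun v : EuclideanSpace ℝ (Fin n) => Real.exp ((∑ i, (v.ofLp ⬝ᵥ X i) ^ 2) / 4))
        (fun w _ => (Real.exp_pos _).le) hv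
    have e3 : ((8 : ℝ) ^ n)⁻¹ * Real.exp (t / 4) = Real.exp (t / 4 - n * Real.log 8) := by
      rw [Real.exp_sub, mul_comm (n : ℝ), Real.exp_mul, Real.exp_log (by norm_num), Real.rpow_natCast]
      field_simp
    have e4 := Real.add_one_le_exp (t / 4 - n * Real.log 8)
    have e5 : t ≤ n * (9 + 4 * Sx X) := by
      have : (n : ℝ) * Real.log 8 ≤ n * (9 / 4) := by gcongr
      have : Sx X ≤ n * Sx X := le_mul_of_one_le_left hS hn1
      nlinarith
    have e6 : nm (Matrix.of X *ᵥ v.ofLp) ^ 2 ≤ (√(n : ℝ) * (9 + 4 * Sx X)) ^ 2 := by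
      rw [e1, mul_pow, Real.sq_sqrt (by positivity)]
      refine e5.trans ?_
      gcongr
      nlinarith
    exact (sq_le_sq₀ (nm_nonneg _) (by positivity)).1 e6) y
  refine key.trans (le_of_eq ?_)
  unfold Fx
  ring

theorem one_dim : ∫⁻ t, ENNReal.ofReal (Real.exp (t ^ 2 / 4)) ∂(gaussianReal 0 1) = ENNReal.ofReal √2 := by
  rw [gaussianReal_of_var_ne_zero 0 one_ne_zero,
    lintegral_withDensity_eq_lintegral_mul _ (measurable_gaussianPDF 0 1) (by fun_prop)]
  have e1 : ∀ t : ℝ, (gaussianPDF 0 1 * fun t => ENNReal.ofReal (Real.exp (t ^ 2 / 4))) t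
      = ENNReal.ofReal ((√(2 * Real.pi))⁻¹ * Real.exp (-(1 / 4) * t ^ 2)) := by
    intro t
    rw [Pi.mul_apply, gaussianPDF, gaussianPDFReal, ← ENNReal.ofReal_mul (by positivity), mul_assoc, ← Real.exp_add]
    congr 2
    · simp
    · congr 1
      simp
      ring
  simp only [e1]
  have hi : Integrable fun t : ℝ => (√(2 * Real.pi))⁻¹ * Real.exp (-(1 / 4) * t ^ 2) :=
    (integrable_exp_neg_mul_sq (by norm_num)).const_mul _
  rw [← ofReal_integral_eq_lintegral_ofReal hi (Filter.Eventually.of_forall fun t => by positivity),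
    integral_const_mul, integral_gaussian]
  congr 1
  have hp := Real.pi_pos
  rw [← Real.sqrt_inv, ← Real.sqrt_mul (by positivity)]
  congr 1
  field_simp
  norm_num

theorem row_exp {n : ℕ} (v : Fin n → ℝ) (hv : nm v = 1) :
    ∫⁻ g, ENNReal.ofReal (Real.exp ((v ⬝ᵥ g) ^ 2 / 4)) ∂(sv n) = ENNReal.ofReal √2 := by
  have h1 := lintegral_map (μ := sv n) (f := fun t : ℝ => ENNReal.ofReal (Real.exp (t ^ 2 / 4)))
    (g := fun g : Fin n → ℝ => v ⬝ᵥ g) (by fun_prop) (meas_dot v)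
  rw [← h1, law_one, ← nm_sq, hv]
  simp only [one_pow, Real.toNNReal_one]
  exact one_dim

theorem mat_exp {n : ℕ} (v : Fin n → ℝ) (hv : nm v = 1) :
    ∫⁻ X, ENNReal.ofReal (Real.exp ((∑ i, (v ⬝ᵥ X i) ^ 2) / 4)) ∂(sg n) = ENNReal.ofReal √2 ^ n := by
  have e1 : ∀ X : Fin n → Fin n → ℝ, ENNReal.ofReal (Real.exp ((∑ i, (v ⬝ᵥ X i) ^ 2) / 4))
      = ∏ i, ENNReal.ofReal (Real.exp ((v ⬝ᵥ X i) ^ 2 / 4)) := by
    intro X
    rw [← ENNReal.ofReal_prod_of_nonneg (fun i _ => (Real.exp_pos _).le), ← Real.exp_sum, Finset.sum_div]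
  simp only [e1]
  unfold sg
  have hmm : Measurable fun g : Fin n → ℝ => ENNReal.ofReal (Real.exp ((v ⬝ᵥ g) ^ 2 / 4)) := by
    apply ENNReal.measurable_ofReal.comp
    apply Real.measurable_exp.comp
    exact ((meas_dot v).pow_const 2).div_const 4
  rw [Q298.Sv.lintegral_pi_prod (fun _ : Fin n => sv n) (fun _ g => ENNReal.ofReal (Real.exp ((v ⬝ᵥ g) ^ 2 / 4)))
    (fun _ => hmm)]
  simp only [row_exp v hv]
  simp

theorem nm_ofLp {n : ℕ} (v : EuclideanSpace ℝ (Fin n)) : nm v.ofLp = ‖v‖ := by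
  unfold nm
  rw [WithLp.toLp_ofLp]

theorem int_Sx (n : ℕ) : ∫⁻ X, ENNReal.ofReal (Sx X) ∂(sg n) ≤ 1 := by
  have e1 : ∀ X : Fin n → Fin n → ℝ, ENNReal.ofReal (Sx X) = ENNReal.ofReal ((8 : ℝ) ^ n)⁻¹ *
      ∑ v ∈ net n, ENNReal.ofReal (Real.exp ((∑ i, (v.ofLp ⬝ᵥ X i) ^ 2) / 4)) := by
    intro X
    rw [Sx, ENNReal.ofReal_mul (by positivity), ENNReal.ofReal_sum_of_nonneg (fun v _ => (Real.exp_pos _).le)]
  simp only [e1]
  have hmm : ∀ v : EuclideanSpace ℝ (Fin n), Measurable fun X : Fin n → Fin n → ℝ =>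
      ENNReal.ofReal (Real.exp ((∑ i, (v.ofLp ⬝ᵥ X i) ^ 2) / 4)) := by
    intro v
    apply ENNReal.measurable_ofReal.comp
    apply Real.measurable_exp.comp
    apply Measurable.div_const
    apply Finset.measurable_sum
    intro i _
    exact (meas_dd v.ofLp i).pow_const 2
  rw [lintegral_const_mul _ (Finset.measurable_sum _ fun v _ => hmm v), lintegral_finsetSum _ (fun v _ => hmm v)]
  have e3 : ∀ v ∈ net n, ∫⁻ X : Fin n → Fin n → ℝ, ENNReal.ofReal (Real.exp ((∑ i, (v.ofLp ⬝ᵥ X i) ^ 2) / 4)) ∂(sg n)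
      = ENNReal.ofReal √2 ^ n := by
    intro v hv
    apply mat_exp
    rw [nm_ofLp]
    exact net_unit v hv
  have e2 : ∑ v ∈ net n, ∫⁻ X : Fin n → Fin n → ℝ, ENNReal.ofReal (Real.exp ((∑ i, (v.ofLp ⬝ᵥ X i) ^ 2) / 4)) ∂(sg n)
      = (net n).card * ENNReal.ofReal √2 ^ n := by
    rw [Finset.sum_congr rfl e3, Finset.sum_const, nsmul_eq_mul]
  rw [e2]
  have h1 : ((net n).card : ℝ≥0∞) ≤ ENNReal.ofReal (5 ^ n) := by
    have : ENNReal.ofReal ((5 : ℝ) ^ n) = ((5 ^ n : ℕ) : ℝ≥0∞) := by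
      rw [← ENNReal.ofReal_natCast]; push_cast; rfl
    rw [this]
    exact_mod_cast net_card n
  calc ENNReal.ofReal ((8 : ℝ) ^ n)⁻¹ * (((net n).card : ℝ≥0∞) * ENNReal.ofReal √2 ^ n)
      ≤ ENNReal.ofReal ((8 : ℝ) ^ n)⁻¹ * (ENNReal.ofReal (5 ^ n) * ENNReal.ofReal √2 ^ n) := by gcongr
    _ = ENNReal.ofReal (((8 : ℝ) ^ n)⁻¹ * (5 ^ n * √2 ^ n)) := by
        rw [← ENNReal.ofReal_pow (by positivity), ← ENNReal.ofReal_mul (by positivity),
          ← ENNReal.ofReal_mul (by positivity)]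
    _ ≤ ENNReal.ofReal 1 := by
        apply ENNReal.ofReal_le_ofReal
        rw [← mul_pow, inv_mul_le_iff₀ (by positivity), mul_one]
        apply pow_le_pow_left₀ (by positivity)
        have : √(2 : ℝ) ≤ 8 / 5 := by
          apply Real.sqrt_le_iff.2
          norm_num
        linarith
    _ = 1 := ENNReal.ofReal_one

theorem int_Fx (n : ℕ) (c K : ℝ) (hc : 0 ≤ c) (hK : 0 ≤ K) :
    ∫⁻ X, ENNReal.ofReal (c * (1 + K + Fx X)) ∂(sg n) ≤ ENNReal.ofReal (c * (27 + K)) := by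
  have e1 : ∀ X : Fin n → Fin n → ℝ, ENNReal.ofReal (c * (1 + K + Fx X))
      = ENNReal.ofReal (c * (19 + K)) + ENNReal.ofReal (8 * c) * ENNReal.ofReal (Sx X) := by
    intro X
    have := Sx_nonneg X
    rw [← ENNReal.ofReal_mul (by positivity), ← ENNReal.ofReal_add (by positivity) (by positivity)]
    congr 1
    unfold Fx
    ring
  simp only [e1]
  have hm : Measurable fun X : Fin n → Fin n → ℝ => ENNReal.ofReal (Sx X) := meas_Sx.ennreal_ofReal
  rw [lintegral_add_left measurable_const, lintegral_const, measure_univ, mul_one,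
    lintegral_const_mul _ hm]
  calc _ ≤ ENNReal.ofReal (c * (19 + K)) + ENNReal.ofReal (8 * c) * 1 := by
        gcongr
        exact int_Sx n
    _ = _ := by
        rw [mul_one, ← ENNReal.ofReal_add (by positivity) (by positivity)]
        congr 1
        ring

end Pool.Agent.Q91.Gin
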