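import Mathlib
import Pool.Agent.Q91.Gin6

set_option autoImplicit false
set_option maxHeartbeats 400000
open MeasureTheory ProbabilityTheory Set Matrix
open scoped ENNReal NNReal RealInnerProductSpace

namespace Pool.Agent.Q91.Gin

/-- sign -/
def sn (b : Bool) : ℝ := if b then 1 else -1

/-- Rademacher sum -/
def rs {n : ℕ} (v : Fin n → ℝ) (w : Fin n → Bool) : ℝ := ∑ i, v i * sn (w i)

theorem sum_split {n : ℕ} (f : (Fin (n + 1) → Bool) → ℝ) :
    ∑ w, f w = ∑ w' : Fin n → Bool, (f (Fin.cons true w') + f (Fin.cons false w')) := by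
  rw [← Equiv.sum_comp (Fin.consEquiv fun _ : Fin (n + 1) => Bool) f, Fintype.sum_prod_type_right]
  apply Finset.sum_congr rfl
  intro w' _
  rw [Fintype.sum_bool]
  rfl

theorem rs_cons {n : ℕ} (v : Fin (n + 1) → ℝ) (b : Bool) (w : Fin n → Bool) :
    rs v (Fin.cons b w : Fin (n + 1) → Bool) = v 0 * sn b + rs (fun i => v i.succ) w := by
  unfold rs
  rw [Fin.sum_univ_succ]
  simp only [Fin.cons_zero, Fin.cons_succ]

theorem rs_two : ∀ (n : ℕ) (v : Fin n → ℝ), ∑ w, rs v w ^ 2 = 2 ^ n * ∑ i, v i ^ 2 := by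
  intro n
  induction n with
  | zero => intro v; simp [rs]
  | succ n ih =>
    intro v
    rw [sum_split]
    simp only [rs_cons, sn, if_true, Bool.false_eq_true, if_false]
    have : ∀ w' : Fin n → Bool, (v 0 * 1 + rs (fun i => v i.succ) w') ^ 2 + (v 0 * -1 + rs (fun i => v i.succ) w') ^ 2
        = 2 * v 0 ^ 2 + 2 * rs (fun i => v i.succ) w' ^ 2 := by intro w'; ring
    simp only [this]
    simp only [Finset.sum_add_distrib, ← Finset.mul_sum, ih, Fin.sum_univ_succ, Finset.sum_const, Finset.card_univ]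
    simp only [Fintype.card_pi, Fintype.card_bool, Finset.prod_const, Finset.card_univ, Fintype.card_fin,
      nsmul_eq_mul]
    push_cast
    ring

theorem rs_four : ∀ (n : ℕ) (v : Fin n → ℝ), ∑ w, rs v w ^ 4 ≤ 3 * 2 ^ n * (∑ i, v i ^ 2) ^ 2 := by
  intro n
  induction n with
  | zero => intro v; simp [rs]
  | succ n ih =>
    intro v
    rw [sum_split]
    simp only [rs_cons, sn, if_true, Bool.false_eq_true, if_false]
    have : ∀ w' : Fin n → Bool, (v 0 * 1 + rs (fun i => v i.succ) w') ^ 4 + (v 0 * -1 + rs (fun i => v i.succ) w') ^ 4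
        = 2 * v 0 ^ 4 + (12 * v 0 ^ 2) * rs (fun i => v i.succ) w' ^ 2 + 2 * rs (fun i => v i.succ) w' ^ 4 := by
      intro w'; ring
    simp only [this]
    simp only [Finset.sum_add_distrib, ← Finset.mul_sum, rs_two, Fin.sum_univ_succ, Finset.sum_const, Finset.card_univ]
    simp only [Fintype.card_pi, Fintype.card_bool, Finset.prod_const, Finset.card_univ, Fintype.card_fin,
      nsmul_eq_mul]
    have h := ih (fun i => v i.succ)
    set M := ∑ i : Fin n, v i.succ ^ 2
    have hp : (0 : ℝ) < 2 ^ n := by positivity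
    push_cast
    rw [pow_succ (2 : ℝ) n]
    nlinarith [mul_nonneg hp.le (pow_nonneg (sq_nonneg (v 0)) 2), mul_nonneg hp.le (sq_nonneg (v 0 ^ 2))]

/-- many signs give a large sum -/
theorem rs_count {n : ℕ} (v : Fin n → ℝ) (m : ℝ) (hm : 0 < m) (hv : m ≤ ∑ i, v i ^ 2) :
    (3 / 14 : ℝ) * 2 ^ n ≤ ∑ w : Fin n → Bool, if m / 4 ≤ rs v w ^ 2 then (1 : ℝ) else 0 := by
  set M := ∑ i, v i ^ 2 with hM
  have hMp : 0 < M := lt_of_lt_of_le hm hv
  have key : ∀ w : Fin n → Bool, (4 / 7) * (rs v w ^ 2 / M) - (1 / 14) * (rs v w ^ 4 / M ^ 2) - 1 / 7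
      ≤ if m / 4 ≤ rs v w ^ 2 then (1 : ℝ) else 0 := by
    intro w
    set t := rs v w ^ 2 / M with ht
    have ht2 : rs v w ^ 4 / M ^ 2 = t ^ 2 := by rw [ht, div_pow]; ring
    rw [ht2]
    split_ifs with h
    · nlinarith [sq_nonneg (t - 4)]
    · push Not at h
      have : t ≤ 1 / 4 := by
        rw [ht, div_le_iff₀ hMp]
        linarith
      nlinarith [sq_nonneg t]
  have hsum := Finset.sum_le_sum fun w (_ : w ∈ (Finset.univ : Finset (Fin n → Bool))) => key w
  refine le_trans ?_ hsum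
  rw [Finset.sum_sub_distrib, Finset.sum_sub_distrib, ← Finset.mul_sum, ← Finset.mul_sum, ← Finset.sum_div,
    ← Finset.sum_div, rs_two, ← hM, Finset.sum_const, Finset.card_univ]
  simp only [Fintype.card_pi, Fintype.card_bool, Finset.prod_const, Finset.card_univ, Fintype.card_fin,
    nsmul_eq_mul]
  have h4 : (∑ w, rs v w ^ 4) / M ^ 2 ≤ 3 * 2 ^ n := by
    rw [div_le_iff₀ (by positivity)]
    exact rs_four n v
  have h2 : 2 ^ n * M / M = 2 ^ n := by field_simp
  rw [h2]
  push_cast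
  linarith

/-- pairing of a complex vector with signs -/
noncomputable def cs {n : ℕ} (u : Fin n → ℂ) (w : Fin n → Bool) : ℂ := ∑ i, (starRingEnd ℂ) (u i) * (sn (w i) : ℂ)

theorem cs_count {n : ℕ} (u : Fin n → ℂ) (hu : ∑ i, ‖u i‖ ^ 2 = 1) :
    (3 / 14 : ℝ) * 2 ^ n ≤ ∑ w : Fin n → Bool, if 1 / 8 ≤ ‖cs u w‖ ^ 2 then (1 : ℝ) else 0 := by
  have e3 : ∀ j, ‖u j‖ ^ 2 = (u j).re ^ 2 + (u j).im ^ 2 := by
    intro j; rw [← Complex.normSq_eq_norm_sq, Complex.normSq_apply]; ring
  simp only [e3, Finset.sum_add_distrib] at hu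
  have hcs : ∀ w, ‖cs u w‖ ^ 2 = rs (fun i => (u i).re) w ^ 2 + rs (fun i => (u i).im) w ^ 2 := by
    intro w
    rw [← Complex.normSq_eq_norm_sq, Complex.normSq_apply]
    have h1 : (cs u w).re = rs (fun i => (u i).re) w := by
      unfold cs rs
      rw [Complex.re_sum]
      apply Finset.sum_congr rfl
      intro i _
      simp
    have h2 : (cs u w).im = - rs (fun i => (u i).im) w := by
      unfold cs rs
      rw [Complex.im_sum, ← Finset.sum_neg_distrib]
      apply Finset.sum_congr rfl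
      intro i _
      simp
    rw [h1, h2]; ring
  have hor : 1 / 2 ≤ ∑ i, (u i).re ^ 2 ∨ 1 / 2 ≤ ∑ i, (u i).im ^ 2 := by
    by_contra hc
    push Not at hc
    linarith
  rcases hor with h | h
  · refine (rs_count _ (1 / 2) (by norm_num) h).trans ?_
    apply Finset.sum_le_sum
    intro w _
    rw [hcs]
    have := sq_nonneg (rs (fun i => (u i).im) w)
    split_ifs with h1 h2 h2
    · exact le_rfl
    · exfalso; linarith
    · norm_num
    · exact le_rfl
  · refine (rs_count _ (1 / 2) (by norm_num) h).trans ?_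
    apply Finset.sum_le_sum
    intro w _
    rw [hcs]
    have := sq_nonneg (rs (fun i => (u i).re) w)
    split_ifs with h1 h2 h2
    · exact le_rfl
    · exfalso; linarith
    · norm_num
    · exact le_rfl

end Pool.Agent.Q91.Gin
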