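import Mathlib
import Pool.Agent.Q91.Gin7
import Pool.Agent.Q298.Sv.Rw

set_option autoImplicit false
set_option maxHeartbeats 400000
open MeasureTheory ProbabilityTheory Set Matrix
open scoped ENNReal NNReal RealInnerProductSpace

namespace Pool.Agent.Q91.Gin

open Q298.Sv

/-- rotation invariance of the Gaussian matrix -/
theorem sg_orth {n : ℕ} {O : Matrix (Fin n) (Fin n) ℝ} (hO : Oᵀ * O = 1) {S : Set (Fin n → Fin n → ℝ)}
    (hS : MeasurableSet S) : sg n ((fun X => lm O X) ⁻¹' S) = sg n S := by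
  have h1 : sg n = (volume : Measure (Fin n → Fin n → ℝ)).withDensity (fun A => c1 ^ (n * n) * gw A) :=
    pi_pi_gauss n
  have hml : Measurable fun X : MM n => lm O X := (LinearMap.continuous_of_finiteDimensional (lm O)).measurable
  have hdm : Measurable fun A : MM n => c1 ^ (n * n) * gw A := measurable_gw.const_mul _
  rw [h1, withDensity_apply _ (hml hS), withDensity_apply _ hS, ← lintegral_indicator (hml hS),
    ← lintegral_indicator hS]
  have h2 := lint_orth hO (S.indicator fun A : MM n => c1 ^ (n * n) * gw A) (hdm.indicator hS)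
  rw [← h2]
  apply lintegral_congr
  intro A
  have h3 : gw (lm O A) = gw A := by rw [gw_qq, gw_qq, qq_orth _ hO]
  by_cases hA : lm O A ∈ S
  · rw [indicator_of_mem (show A ∈ (fun X => lm O X) ⁻¹' S from hA), indicator_of_mem hA, h3]
  · rw [indicator_of_notMem (show A ∉ (fun X => lm O X) ⁻¹' S from hA), indicator_of_notMem hA]

/-- left singular vectors: if the least singular value is at most `ε`, there is a unit vector `u` with
`|⟨u, T q⟩| ≤ ε |q|` for all `q`. -/
theorem left_sv {n : ℕ} (hn : 1 ≤ n) (T : EuclideanSpace ℂ (Fin n) →ₗ[ℂ] EuclideanSpace ℂ (Fin n)) (ε : ℝ)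
    (h : T.singularValues (n - 1) ≤ ε) :
    ∃ u : EuclideanSpace ℂ (Fin n), ‖u‖ = 1 ∧ ∀ q, ‖inner ℂ u (T q)‖ ≤ ε * ‖q‖ := by
  have hfr : Module.finrank ℂ (EuclideanSpace ℂ (Fin n)) = n := finrank_euclideanSpace_fin
  have hi : n - 1 < n := by omega
  set i : Fin n := ⟨n - 1, hi⟩ with hidef
  have hε : 0 ≤ ε := (T.singularValues_nonneg _).trans h
  by_cases h0 : T.singularValues (n - 1) = 0
  · -- not surjective
    rw [LinearMap.singularValues_eq_zero_iff_le_finrank_range] at h0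
    have hne : LinearMap.range T ≠ ⊤ := by
      intro htop
      rw [htop, finrank_top, hfr] at h0
      omega
    have hperp : (LinearMap.range T)ᗮ ≠ ⊥ := by
      rwa [ne_eq, Submodule.orthogonal_eq_bot_iff]
    obtain ⟨w, hw, hw0⟩ := Submodule.exists_mem_ne_zero_of_ne_bot hperp
    have hwn : 0 < ‖w‖ := norm_pos_iff.2 hw0
    refine ⟨((‖w‖⁻¹ : ℝ) : ℂ) • w, ?_, ?_⟩
    · rw [norm_smul, Complex.norm_real, Real.norm_eq_abs, abs_inv, abs_norm, inv_mul_cancel₀ hwn.ne']
    · intro q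
      have : inner ℂ w (T q) = 0 := Submodule.inner_left_of_mem_orthogonal (LinearMap.mem_range_self T q) hw
      rw [inner_smul_left, this, mul_zero, norm_zero]
      positivity
  · set σ := T.singularValues (n - 1) with hσ
    have hσp : 0 < σ := (T.singularValues_pos_iff_ne_zero _).2 h0
    obtain ⟨v, hv⟩ := (T.hasEigenvalue_adjoint_comp_self_sq_singularValues (n := n - 1)
      (by rw [hfr]; exact hi)).exists_hasEigenvector
    have hv1 : LinearMap.adjoint T (T v) = ((σ : ℂ) ^ 2) • v := by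
      have := hv.apply_eq_smul
      rw [LinearMap.comp_apply] at this
      exact this
    have hv0 : v ≠ 0 := hv.2
    have hvn : 0 < ‖v‖ := norm_pos_iff.2 hv0
    have key : ∀ q, inner ℂ (T v) (T q) = ((σ : ℂ) ^ 2) * inner ℂ v q := by
      intro q
      rw [← LinearMap.adjoint_inner_left, hv1, inner_smul_left]
      simp
    have hTv : ‖T v‖ = σ * ‖v‖ := by
      have h1 := key v
      rw [inner_self_eq_norm_sq_to_K, inner_self_eq_norm_sq_to_K] at h1
      have h2 : ‖T v‖ ^ 2 = (σ * ‖v‖) ^ 2 := by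
        have : ((‖T v‖ ^ 2 : ℝ) : ℂ) = (((σ * ‖v‖) ^ 2 : ℝ) : ℂ) := by
          push_cast
          rw [mul_pow]
          exact h1
        exact_mod_cast this
      exact (sq_eq_sq₀ (norm_nonneg _) (by positivity)).1 h2
    have hTvp : 0 < ‖T v‖ := by rw [hTv]; positivity
    refine ⟨((‖T v‖⁻¹ : ℝ) : ℂ) • T v, ?_, ?_⟩
    · rw [norm_smul, Complex.norm_real, Real.norm_eq_abs, abs_inv, abs_norm, inv_mul_cancel₀ hTvp.ne']
    · intro q
      rw [inner_smul_left, key, norm_mul, norm_mul]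
      have h1 : ‖(starRingEnd ℂ) ((‖T v‖⁻¹ : ℝ) : ℂ)‖ = (σ * ‖v‖)⁻¹ := by
        rw [RCLike.norm_conj, Complex.norm_real, Real.norm_eq_abs, abs_inv, abs_norm, hTv]
      have h2 : ‖(σ : ℂ) ^ 2‖ = σ ^ 2 := by
        rw [norm_pow, Complex.norm_real, Real.norm_eq_abs, abs_of_pos hσp]
      rw [h1, h2]
      calc (σ * ‖v‖)⁻¹ * (σ ^ 2 * ‖inner ℂ v q‖) ≤ (σ * ‖v‖)⁻¹ * (σ ^ 2 * (‖v‖ * ‖q‖)) := by
            gcongr
            exact norm_inner_le_norm _ _
        _ = σ * ‖q‖ := by field_simp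
        _ ≤ ε * ‖q‖ := by gcongr

end Pool.Agent.Q91.Gin
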