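import Mathlib
import Pool.Agent.Q91.Gin8

set_option autoImplicit false
set_option maxHeartbeats 400000
open MeasureTheory ProbabilityTheory Set Matrix
open scoped ENNReal NNReal RealInnerProductSpace

namespace Pool.Agent.Q91.Gin

open Q298.Sv

/-- normalised sign vector -/
noncomputable def nu {m : ℕ} (w : Fin (m + 1) → Bool) : Fin (m + 1) → ℝ := fun i => sn (w i) / √((m + 1 : ℕ) : ℝ)

theorem sn_sq (b : Bool) : sn b ^ 2 = 1 := by
  unfold sn
  split_ifs <;> norm_num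

theorem qn_nu {m : ℕ} (w : Fin (m + 1) → Bool) : qn (nu w) = 1 := by
  unfold qn nu
  have : ∀ i, (sn (w i) / √((m + 1 : ℕ) : ℝ)) ^ 2 = 1 / ((m + 1 : ℕ) : ℝ) := by
    intro i
    rw [div_pow, sn_sq, Real.sq_sqrt (Nat.cast_nonneg _)]
  simp only [this, Finset.sum_const, Finset.card_univ, Fintype.card_fin, nsmul_eq_mul]
  have h : ((m + 1 : ℕ) : ℝ) ≠ 0 := by positivity
  field_simp

/-- the rotation attached to a sign vector -/
noncomputable def Ow {m : ℕ} (w : Fin (m + 1) → Bool) : Matrix (Fin (m + 1)) (Fin (m + 1)) ℝ :=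
  (exists_rot (nu w) (qn_nu w)).choose

theorem Ow_orth {m : ℕ} (w : Fin (m + 1) → Bool) : (Ow w)ᵀ * Ow w = 1 :=
  (exists_rot (nu w) (qn_nu w)).choose_spec.1

theorem Ow_nu {m : ℕ} (w : Fin (m + 1) → Bool) : Ow w *ᵥ nu w = Pi.single 0 1 :=
  (exists_rot (nu w) (qn_nu w)).choose_spec.2

theorem Ow_row {m : ℕ} (w : Fin (m + 1) → Bool) (k : Fin (m + 1)) : Ow w 0 k = nu w k := by
  have h := congrArg (fun x => (Ow w)ᵀ *ᵥ x) (Ow_nu w)
  simp only [mulVec_mulVec, Ow_orth, one_mulVec] at h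
  rw [h]
  simp

/-- the complex matrix -/
noncomputable def Mz {n : ℕ} (z : ℂ) (A : Matrix (Fin n) (Fin n) ℝ) (G : Fin n → Fin n → ℝ) : Matrix (Fin n) (Fin n) ℂ :=
  z • (1 : Matrix (Fin n) (Fin n) ℂ) - (A + Matrix.of G).map Complex.ofReal

theorem cm_eq {n : ℕ} (O A : Matrix (Fin n) (Fin n) ℝ) (z : ℂ) (X : Fin n → Fin n → ℝ) (q : Fin n → ℂ) (i : Fin n) :
    cm O (z.re • (1 : Matrix (Fin n) (Fin n) ℝ) - A) z.im (lm O X) q i
      = ∑ k, (O i k : ℂ) * (Mz z A (fun i j => X i j / √n) *ᵥ q) k := by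
  have h1 : ∀ j, ((((O * (z.re • (1 : Matrix (Fin n) (Fin n) ℝ) - A)) i j - lm O X i j / √n : ℝ) : ℂ)
      + (z.im * O i j : ℝ) * Complex.I) = ∑ k, (O i k : ℂ) * Mz z A (fun i j => X i j / √n) k j := by
    intro j
    have e1 : (O * (z.re • (1 : Matrix (Fin n) (Fin n) ℝ) - A)) i j = z.re * O i j - ∑ k, O i k * A k j := by
      rw [Matrix.mul_sub, Matrix.mul_smul, Matrix.mul_one, Matrix.sub_apply, Matrix.smul_apply, smul_eq_mul,
        Matrix.mul_apply]
    have e2 : lm O X i j = ∑ k, O i k * X k j := rfl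
    have e3 : ∀ k, (O i k : ℂ) * Mz z A (fun i j => X i j / √n) k j
        = (O i k : ℂ) * (z * (1 : Matrix (Fin n) (Fin n) ℂ) k j) - ((O i k * A k j : ℝ) : ℂ)
          - ((O i k * X k j : ℝ) : ℂ) / (√n : ℝ) := by
      intro k
      simp only [Mz, Matrix.sub_apply, Matrix.smul_apply, smul_eq_mul, Matrix.map_apply, Matrix.add_apply, Matrix.of_apply]
      push_cast
      ring
    have e4 : ∑ k, (O i k : ℂ) * (z * (1 : Matrix (Fin n) (Fin n) ℂ) k j) = (O i j : ℂ) * z := by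
      rw [Finset.sum_eq_single j]
      · simp
      · intro k _ hk
        rw [Matrix.one_apply_ne hk]
        ring
      · simp
    simp only [e3]
    rw [Finset.sum_sub_distrib, Finset.sum_sub_distrib, e4, e1, e2, ← Finset.sum_div, ← Complex.ofReal_sum,
      ← Complex.ofReal_sum]
    have hz : (z : ℂ) = z.re + z.im * Complex.I := (Complex.re_add_im z).symm
    conv_rhs => rw [hz]
    push_cast
    ring
  unfold cm
  simp only [h1, mulVec, dotProduct, Finset.mul_sum, Finset.sum_mul]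
  rw [Finset.sum_comm]
  apply Finset.sum_congr rfl
  intro k _
  apply Finset.sum_congr rfl
  intro j _
  ring

/-- membership in the rotated event -/
theorem mem_SO {m : ℕ} (A : Matrix (Fin (m + 1)) (Fin (m + 1)) ℝ) (z : ℂ) (ε : ℝ)
    (X : Fin (m + 1) → Fin (m + 1) → ℝ) (u : EuclideanSpace ℂ (Fin (m + 1)))
    (hu : ∀ q, ‖inner ℂ u (Matrix.toEuclideanLin (Mz z A (fun i j => X i j / √((m + 1 : ℕ) : ℝ))) q)‖ ≤ ε * ‖q‖)
    (w : Fin (m + 1) → Bool) (hw : 1 / 8 ≤ ‖cs u.ofLp w‖ ^ 2) :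
    lm (Ow w) X ∈ SO 0 (Ow w) (z.re • (1 : Matrix (Fin (m + 1)) (Fin (m + 1)) ℝ) - A) z.im
      (√8 * √((m + 1 : ℕ) : ℝ) * ε) := by
  intro q hq hker
  simp only [cm_eq] at hker ⊢
  set O := Ow w with hO
  set M := Mz z A (fun i j => X i j / √((m + 1 : ℕ) : ℝ)) with hM
  set c : ℂ := ∑ k, (O 0 k : ℂ) * (M *ᵥ q) k with hc
  have hsn : 0 < √((m + 1 : ℕ) : ℝ) := by positivity
  -- M q = c ν
  have h1 : ∀ k, (M *ᵥ q) k = c * (nu w k : ℂ) := by
    intro k
    have hOO : Oᵀ * O = 1 := Ow_orth w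
    have h2 : ∀ l, ∑ i, (O i k : ℂ) * (O i l : ℂ) = if k = l then 1 else 0 := by
      intro l
      have := congrFun (congrFun hOO k) l
      rw [Matrix.mul_apply, Matrix.one_apply] at this
      simp only [transpose_apply] at this
      have h3 : ((∑ i, O i k * O i l : ℝ) : ℂ) = ((if k = l then (1 : ℝ) else 0 : ℝ) : ℂ) := by rw [this]
      push_cast at h3
      rw [h3]
      split_ifs <;> simp
    have h4 : ∑ i, (O i k : ℂ) * (∑ l, (O i l : ℂ) * (M *ᵥ q) l) = (M *ᵥ q) k := by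
      simp only [Finset.mul_sum, ← mul_assoc]
      rw [Finset.sum_comm]
      simp only [← Finset.sum_mul, h2]
      simp
    rw [← h4, Finset.sum_eq_single 0]
    · rw [← hc, hO, Ow_row]; ring
    · intro i _ hi
      rw [hker i hi, mul_zero]
    · simp
  have h2 := hu (WithLp.toLp 2 q)
  have h3 : inner ℂ u (Matrix.toEuclideanLin M (WithLp.toLp 2 q)) = c * cs u.ofLp w / √((m + 1 : ℕ) : ℝ) := by
    rw [PiLp.inner_apply]
    have : ∀ i, inner ℂ (u i) ((Matrix.toEuclideanLin M (WithLp.toLp 2 q)) i)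
        = (starRingEnd ℂ) (u i) * (c * (nu w i : ℂ)) := by
      intro i
      rw [← h1 i]
      rw [RCLike.inner_apply, mul_comm]
      rfl
    simp only [this]
    rw [cs, Finset.mul_sum, Finset.sum_div]
    apply Finset.sum_congr rfl
    intro i _
    unfold nu
    push_cast
    ring
  have h4 : ‖(WithLp.toLp 2 q : EuclideanSpace ℂ (Fin (m + 1)))‖ = 1 := by
    rw [EuclideanSpace.norm_eq]
    simp only
    rw [hq, Real.sqrt_one]
  rw [h3, h4, mul_one, norm_div, norm_mul, Complex.norm_real, Real.norm_eq_abs, abs_of_pos hsn,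
    div_le_iff₀ hsn] at h2
  have h5 : 1 / √8 ≤ ‖cs u.ofLp w‖ := by
    apply (sq_le_sq₀ (by positivity) (norm_nonneg _)).1
    rw [div_pow, one_pow, Real.sq_sqrt (by norm_num)]
    exact hw
  have h6 : ‖c‖ * (1 / √8) ≤ ε * √((m + 1 : ℕ) : ℝ) :=
    (mul_le_mul_of_nonneg_left h5 (norm_nonneg _)).trans h2
  have h8 : 0 < √(8 : ℝ) := by positivity
  calc ‖c‖ = √8 * (‖c‖ * (1 / √8)) := by field_simp
    _ ≤ √8 * (ε * √((m + 1 : ℕ) : ℝ)) := mul_le_mul_of_nonneg_left h6 h8.le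
    _ = _ := by ring

theorem B_bound {n : ℕ} (A : Matrix (Fin n) (Fin n) ℝ) (a : ℝ) (y : Fin n → ℝ) :
    nm ((a • (1 : Matrix (Fin n) (Fin n) ℝ) - A) *ᵥ y) ≤ (|a| + ‖Matrix.toEuclideanCLM (n := Fin n) (𝕜 := ℝ) A‖) * nm y := by
  rw [sub_mulVec, smul_mulVec, one_mulVec]
  refine (nm_sub _ _).trans ?_
  rw [nm_smul, add_mul]
  gcongr
  exact (Matrix.toEuclideanCLM (n := Fin n) (𝕜 := ℝ) A).le_opNorm (WithLp.toLp 2 y)

/-- main estimate for the standard Gaussian matrix -/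
theorem main_sg {m : ℕ} (A : Matrix (Fin (m + 1)) (Fin (m + 1)) ℝ) (z : ℂ) (hz : z.im ≠ 0) (ε : ℝ) (hε : 0 < ε) :
    sg (m + 1) {X | (Matrix.toEuclideanLin (Mz z A (fun i j => X i j / √((m + 1 : ℕ) : ℝ)))).singularValues (m + 1 - 1) ≤ ε}
      ≤ ENNReal.ofReal (4032 * (1 + ‖z‖ + ‖Matrix.toEuclideanCLM (n := Fin (m + 1)) (𝕜 := ℝ) A‖)
          * ((m + 1 : ℕ) : ℝ) ^ 2 * ε ^ 2 / |z.im|) := by
  set nA := ‖Matrix.toEuclideanCLM (n := Fin (m + 1)) (𝕜 := ℝ) A‖ with hnA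
  have hnA0 : 0 ≤ nA := norm_nonneg _
  set K := ‖z‖ + nA with hK
  have hK0 : 0 ≤ K := by positivity
  set s := √8 * √((m + 1 : ℕ) : ℝ) * ε with hs
  have hs0 : 0 ≤ s := by positivity
  have hs2 : s ^ 2 = 8 * ((m + 1 : ℕ) : ℝ) * ε ^ 2 := by
    rw [hs, mul_pow, mul_pow, Real.sq_sqrt (by norm_num), Real.sq_sqrt (by positivity)]
  have hbp : 0 < |z.im| := abs_pos.2 hz
  set B := z.re • (1 : Matrix (Fin (m + 1)) (Fin (m + 1)) ℝ) - A with hB
  set R : ℝ := 4 * ((m + 1 : ℕ) : ℝ) * s ^ 2 / |z.im| with hR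
  have hR0 : 0 ≤ R := by positivity
  set Sw : (Fin (m + 1) → Bool) → Set (Fin (m + 1) → Fin (m + 1) → ℝ) :=
    fun w => (fun X => lm (Ow w) X) ⁻¹' (SO 0 (Ow w) B z.im s) with hSw
  have hml : ∀ w : Fin (m + 1) → Bool, Measurable fun X : MM (m + 1) => lm (Ow w) X :=
    fun w => (LinearMap.continuous_of_finiteDimensional (lm (Ow w))).measurable
  have hSm : ∀ w, MeasurableSet (Sw w) := fun w => (hml w) (meas_SO 0 (Ow w) B z.im s)
  have hSb : ∀ w, sg (m + 1) (Sw w) ≤ ENNReal.ofReal (R * (27 + K)) := by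
    intro w
    rw [hSw]
    simp only
    rw [sg_orth (Ow_orth w) (meas_SO 0 (Ow w) B z.im s)]
    refine (SO_bound 0 (Ow w) B (Ow_orth w) z.im s K hz hs0 hK0 ?_ Fx meas_Fx Fx_nonneg
      (op_Fx (Nat.le_add_left 1 m))).trans ?_
    · intro y
      refine (B_bound A z.re y).trans ?_
      apply mul_le_mul_of_nonneg_right _ (nm_nonneg _)
      have := Complex.abs_re_le_norm z
      linarith
    · refine le_trans (le_of_eq ?_) (int_Fx (m + 1) R K hR0 hK0)
      apply lintegral_congr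
      intro X
      congr 1
      rw [hR]
      ring
  set c : ℝ≥0∞ := ENNReal.ofReal ((3 / 14 : ℝ) * 2 ^ (m + 1)) with hc
  have hc0 : c ≠ 0 := by
    rw [hc, ne_eq, ENNReal.ofReal_eq_zero, not_le]
    positivity
  have hct : c ≠ ⊤ := ENNReal.ofReal_ne_top
  set f : (Fin (m + 1) → Fin (m + 1) → ℝ) → ℝ≥0∞ := fun X => ∑ w, (Sw w).indicator 1 X with hf
  have hsub : {X | (Matrix.toEuclideanLin (Mz z A (fun i j => X i j / √((m + 1 : ℕ) : ℝ)))).singularValues (m + 1 - 1) ≤ ε}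
      ⊆ {X | c ≤ f X} := by
    intro X hX
    obtain ⟨u, hu1, hu2⟩ := left_sv (Nat.le_add_left 1 m) _ ε hX
    have hun : ∑ i, ‖u.ofLp i‖ ^ 2 = 1 := by
      rw [EuclideanSpace.norm_eq, Real.sqrt_eq_one] at hu1
      exact hu1
    have h1 := cs_count u.ofLp hun
    show c ≤ f X
    rw [hc]
    refine (ENNReal.ofReal_le_ofReal h1).trans ?_
    rw [ENNReal.ofReal_sum_of_nonneg (fun w _ => by split_ifs <;> norm_num)]
    rw [hf]
    apply Finset.sum_le_sum
    intro w _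
    split_ifs with h2
    · have : X ∈ Sw w := mem_SO A z ε X u hu2 w h2
      rw [indicator_of_mem this]
      simp
    · simp
  have hmark := meas_ge_le_lintegral_div (μ := sg (m + 1)) (f := f)
    (Finset.measurable_sum _ fun w _ => measurable_one.indicator (hSm w)).aemeasurable hc0 hct
  have hint : ∫⁻ X, f X ∂(sg (m + 1)) ≤ 2 ^ (m + 1) * ENNReal.ofReal (R * (27 + K)) := by
    rw [hf, lintegral_finsetSum _ (fun w _ => measurable_one.indicator (hSm w))]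
    calc ∑ w, ∫⁻ X, (Sw w).indicator 1 X ∂(sg (m + 1)) = ∑ w, sg (m + 1) (Sw w) := by
          apply Finset.sum_congr rfl
          intro w _
          rw [lintegral_indicator_one (hSm w)]
      _ ≤ ∑ _w : Fin (m + 1) → Bool, ENNReal.ofReal (R * (27 + K)) := Finset.sum_le_sum fun w _ => hSb w
      _ = _ := by simp
  calc _ ≤ sg (m + 1) {X | c ≤ f X} := measure_mono hsub
    _ ≤ (∫⁻ X, f X ∂(sg (m + 1))) / c := hmark
    _ ≤ (2 ^ (m + 1) * ENNReal.ofReal (R * (27 + K))) / c := by gcongr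
    _ = ENNReal.ofReal ((2 ^ (m + 1) * (R * (27 + K))) / ((3 / 14 : ℝ) * 2 ^ (m + 1))) := by
        have e0 : (2 : ℝ≥0∞) ^ (m + 1) = ENNReal.ofReal (2 ^ (m + 1)) := by
          rw [ENNReal.ofReal_pow (by norm_num)]
          simp
        rw [e0, ← ENNReal.ofReal_mul (by positivity), hc, ← ENNReal.ofReal_div_of_pos (by positivity)]
    _ ≤ _ := by
        apply ENNReal.ofReal_le_ofReal
        have e1 : (2 ^ (m + 1) * (R * (27 + K))) / ((3 / 14 : ℝ) * 2 ^ (m + 1)) = (14 / 3) * (R * (27 + K)) := by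
          field_simp
        rw [e1, hR, hs2]
        have e2 : (14 / 3 : ℝ) * (4 * ((m + 1 : ℕ) : ℝ) * (8 * ((m + 1 : ℕ) : ℝ) * ε ^ 2) / |z.im| * (27 + K))
            = (448 / 3) * (27 + K) * (((m + 1 : ℕ) : ℝ) ^ 2 * ε ^ 2 / |z.im|) := by ring
        have e3 : 4032 * (1 + ‖z‖ + nA) * ((m + 1 : ℕ) : ℝ) ^ 2 * ε ^ 2 / |z.im|
            = 4032 * (1 + K) * (((m + 1 : ℕ) : ℝ) ^ 2 * ε ^ 2 / |z.im|) := by rw [hK]; ring
        rw [e2, e3]
        apply mul_le_mul_of_nonneg_right _ (by positivity)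
        linarith

end Pool.Agent.Q91.Gin
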