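import Mathlib

/-!
# Power series evaluated at compact sets by Minkowski operations
-/

namespace Q91.MinkSeries

open Filter Topology Set MeasureTheory TopologicalSpace Metric

open scoped Pointwise ENNReal NNReal

/-- The partial Minkowski sum `∑_{i < n} c_i K^(i)`, where `K^(i)` is the Minkowski product of
`i` copies of `K`. -/
noncomputable def partialSum (c : ℕ → ℝ) (K : Set ℝ) (n : ℕ) : Set ℝ :=
  ∑ i ∈ Finset.range n, c i • K ^ i

/-- The set `L` is the value at `K` of the power series with coefficients `c`: it is a nonempty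
compact set, and the partial Minkowski sums converge to it in the Hausdorff distance. -/
def IsValue (c : ℕ → ℝ) (K L : Set ℝ) : Prop :=
  IsCompact L ∧ L.Nonempty ∧
    Tendsto (fun n => hausdorffEDist (partialSum c K n) L) atTop (𝓝 0)

/-- A compact subset of the interval as a set of real numbers. -/
def toSet (K : NonemptyCompacts (Icc (0 : ℝ) 1)) : Set ℝ := Subtype.val '' (K : Set (Icc (0 : ℝ) 1))

lemma toSet_compact (K : NonemptyCompacts (Icc (0 : ℝ) 1)) : IsCompact (toSet K) :=
  K.isCompact.image continuous_subtype_val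

lemma toSet_nonempty (K : NonemptyCompacts (Icc (0 : ℝ) 1)) : (toSet K).Nonempty :=
  K.nonempty.image _

lemma toSet_subset (K : NonemptyCompacts (Icc (0 : ℝ) 1)) : toSet K ⊆ Icc 0 1 := by
  rintro _ ⟨x, -, rfl⟩
  exact x.2

variable {c : ℕ → ℝ} {K L : Set ℝ}

lemma pow_compact (hK : IsCompact K) (i : ℕ) : IsCompact (K ^ i) := by
  induction i with
  | zero => rw [pow_zero]; exact isCompact_singleton
  | succ i ih => rw [pow_succ]; exact ih.mul hK

lemma pow_nonempty (hK : K.Nonempty) (i : ℕ) : (K ^ i).Nonempty := by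
  induction i with
  | zero => rw [pow_zero]; exact ⟨1, Set.one_mem_one⟩
  | succ i ih => rw [pow_succ]; exact ih.mul hK

lemma pow_subset (hK : K ⊆ Icc 0 1) (i : ℕ) : K ^ i ⊆ Icc 0 1 := by
  induction i with
  | zero =>
    rw [pow_zero]
    intro x hx
    rw [Set.mem_one] at hx
    rw [hx]; norm_num
  | succ i ih =>
    rw [pow_succ]
    rintro _ ⟨u, hu, v, hv, rfl⟩
    have h1 := ih hu
    have h2 := hK hv
    simp only
    constructor
    · exact mul_nonneg h1.1 h2.1
    · exact mul_le_one₀ h1.2 h2.1 h2.2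

lemma partialSum_succ (c : ℕ → ℝ) (K : Set ℝ) (n : ℕ) :
    partialSum c K (n + 1) = partialSum c K n + c n • K ^ n := by
  unfold partialSum
  rw [Finset.sum_range_succ]

lemma partialSum_zero (c : ℕ → ℝ) (K : Set ℝ) : partialSum c K 0 = {0} := by
  unfold partialSum
  rw [Finset.range_zero, Finset.sum_empty]
  rfl

lemma partialSum_compact (hK : IsCompact K) (n : ℕ) : IsCompact (partialSum c K n) := by
  induction n with
  | zero => rw [partialSum_zero]; exact isCompact_singleton
  | succ n ih => rw [partialSum_succ]; exact ih.add ((pow_compact hK n).smul (c n))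

lemma partialSum_nonempty (hK : K.Nonempty) (n : ℕ) : (partialSum c K n).Nonempty := by
  induction n with
  | zero => rw [partialSum_zero]; exact singleton_nonempty 0
  | succ n ih => rw [partialSum_succ]; exact ih.add ((pow_nonempty hK n).smul_set)

/-- The elements of the partial sums. -/
lemma mem_partialSum {n : ℕ} {y : ℝ} :
    y ∈ partialSum c K n ↔ ∃ p : ℕ → ℝ, (∀ i < n, p i ∈ K ^ i) ∧
      y = ∑ i ∈ Finset.range n, c i * p i := by
  induction n generalizing y with
  | zero =>
    rw [partialSum_zero]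
    constructor
    · intro h
      exact ⟨fun _ => 0, fun i hi => absurd hi (Nat.not_lt_zero i), by simpa using h⟩
    · rintro ⟨p, -, h⟩
      simpa using h
  | succ n ih =>
    rw [partialSum_succ]
    constructor
    · rintro ⟨u, hu, v, hv, rfl⟩
      obtain ⟨p, hp, rfl⟩ := ih.mp hu
      obtain ⟨q, hq, rfl⟩ := hv
      refine ⟨fun i => if i = n then q else p i, ?_, ?_⟩
      · intro i hi
        by_cases h : i = n
        · simp only [h, if_true]; exact hq
        · simp only [h, if_false]; exact hp i (by omega)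
      · rw [Finset.sum_range_succ]
        simp only [if_true, smul_eq_mul]
        congr 1
        apply Finset.sum_congr rfl
        intro i hi
        rw [if_neg (Finset.mem_range.mp hi).ne]
    · rintro ⟨p, hp, rfl⟩
      rw [Finset.sum_range_succ]
      exact Set.add_mem_add (ih.mpr ⟨p, fun i hi => hp i (by omega), rfl⟩)
        ⟨p n, hp n (Nat.lt_succ_self n), rfl⟩

/-- The full sums form a compact set. -/
lemma compact_sums (hK : IsCompact K) (hK1 : K ⊆ Icc 0 1) (hc : Summable fun i => |c i|) :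
    IsCompact {y | ∃ p : ℕ → ℝ, (∀ i, p i ∈ K ^ i) ∧ y = ∑' i, c i * p i} := by
  have h1 : IsCompact (Set.univ.pi fun i => K ^ i) :=
    isCompact_univ_pi fun i => pow_compact hK i
  have h2 : ContinuousOn (fun p : ℕ → ℝ => ∑' i, c i * p i) (Set.univ.pi fun i => K ^ i) := by
    apply continuousOn_tsum (u := fun i => |c i|)
    · intro i
      exact (continuous_const.mul (continuous_apply i)).continuousOn
    · exact hc
    · intro i p hp
      have h3 := pow_subset hK1 i (hp i (Set.mem_univ i))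
      rw [Real.norm_eq_abs, abs_mul, abs_of_nonneg h3.1]
      have := abs_nonneg (c i)
      nlinarith [h3.2]
  have h3 := h1.image_of_continuousOn h2
  convert h3 using 1
  ext y
  constructor
  · rintro ⟨p, hp, rfl⟩
    exact ⟨p, fun i _ => hp i, rfl⟩
  · rintro ⟨p, hp, rfl⟩
    exact ⟨p, fun i => hp i (Set.mem_univ i), rfl⟩

lemma summable_mul (hK1 : K ⊆ Icc 0 1) (hc : Summable fun i => |c i|) {p : ℕ → ℝ}
    (hp : ∀ i, p i ∈ K ^ i) : Summable fun i => c i * p i := by
  apply Summable.of_norm_bounded hc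
  intro i
  have h3 := pow_subset hK1 i (hp i)
  rw [Real.norm_eq_abs, abs_mul, abs_of_nonneg h3.1]
  have := abs_nonneg (c i)
  nlinarith [h3.2]

/-- The set of the full sums is the limit of the partial sums. -/
theorem isValue_sums (hK : IsCompact K) (hKne : K.Nonempty) (hK1 : K ⊆ Icc 0 1)
    (hc : Summable fun i => |c i|) :
    IsValue c K {y | ∃ p : ℕ → ℝ, (∀ i, p i ∈ K ^ i) ∧ y = ∑' i, c i * p i} := by
  have hne : ∀ i, ∃ q, q ∈ K ^ i := fun i => pow_nonempty hKne i
  choose q hq using hne
  refine ⟨compact_sums hK hK1 hc, ⟨_, q, hq, rfl⟩, ?_⟩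
  have htail : Tendsto (fun n => ENNReal.ofReal (∑' i, |c (i + n)|)) atTop (𝓝 0) := by
    have h1 := tendsto_sum_nat_add (fun i => |c i|)
    have h2 := ENNReal.tendsto_ofReal h1
    rwa [ENNReal.ofReal_zero] at h2
  apply tendsto_of_tendsto_of_tendsto_of_le_of_le tendsto_const_nhds htail
    (fun _ => bot_le)
  intro n
  -- the basic estimate
  have hest : ∀ p : ℕ → ℝ, (∀ i, p i ∈ K ^ i) →
      edist (∑ i ∈ Finset.range n, c i * p i) (∑' i, c i * p i)
        ≤ ENNReal.ofReal (∑' i, |c (i + n)|) := by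
    intro p hp
    have hs := summable_mul hK1 hc hp
    rw [edist_dist]
    apply ENNReal.ofReal_le_ofReal
    rw [← hs.sum_add_tsum_nat_add n, dist_comm, Real.dist_eq, add_sub_cancel_left]
    have hc' : Summable fun i => |c (i + n)| := (summable_nat_add_iff n).mpr hc
    have h1 : ∀ i, ‖c (i + n) * p (i + n)‖ ≤ |c (i + n)| := by
      intro i
      have h3 := pow_subset hK1 (i + n) (hp (i + n))
      rw [Real.norm_eq_abs, abs_mul, abs_of_nonneg h3.1]
      have := abs_nonneg (c (i + n))
      nlinarith [h3.2]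
    exact tsum_of_norm_bounded hc'.hasSum h1
  apply hausdorffEDist_le_of_mem_edist
  · intro y hy
    obtain ⟨p, hp, rfl⟩ := mem_partialSum.mp hy
    set p' : ℕ → ℝ := fun i => if i < n then p i else q i with hp'
    have hp'K : ∀ i, p' i ∈ K ^ i := by
      intro i
      rw [hp']
      simp only
      split_ifs with h
      · exact hp i h
      · exact hq i
    refine ⟨∑' i, c i * p' i, ⟨p', hp'K, rfl⟩, ?_⟩
    have e : ∑ i ∈ Finset.range n, c i * p i = ∑ i ∈ Finset.range n, c i * p' i := by
      apply Finset.sum_congr rfl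
      intro i hi
      rw [hp']
      simp only
      rw [if_pos (Finset.mem_range.mp hi)]
    rw [e]
    exact hest p' hp'K
  · rintro _ ⟨p, hp, rfl⟩
    refine ⟨∑ i ∈ Finset.range n, c i * p i, mem_partialSum.mpr ⟨p, fun i _ => hp i, rfl⟩, ?_⟩
    rw [edist_comm]
    exact hest p hp

/-- The value is unique. -/
theorem isValue_unique {L L' : Set ℝ} (h : IsValue c K L) (h' : IsValue c K L') : L = L' := by
  have h1 : hausdorffEDist L L' ≤ 0 := by
    have h2 : Tendsto (fun n => hausdorffEDist (partialSum c K n) L +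
        hausdorffEDist (partialSum c K n) L') atTop (𝓝 0) := by
      have := h.2.2.add h'.2.2
      simpa using this
    apply ge_of_tendsto' h2
    intro n
    calc hausdorffEDist L L' ≤ hausdorffEDist L (partialSum c K n)
        + hausdorffEDist (partialSum c K n) L' := hausdorffEDist_triangle
      _ = _ := by rw [hausdorffEDist_comm]
  exact (IsClosed.hausdorffEDist_zero_iff h.1.isClosed h'.1.isClosed).mp (le_antisymm h1 bot_le)

theorem isValue_iff (hK : IsCompact K) (hKne : K.Nonempty) (hK1 : K ⊆ Icc 0 1)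
    (hc : Summable fun i => |c i|) (L : Set ℝ) :
    IsValue c K L ↔ L = {y | ∃ p : ℕ → ℝ, (∀ i, p i ∈ K ^ i) ∧ y = ∑' i, c i * p i} := by
  constructor
  · intro h
    exact isValue_unique h (isValue_sums hK hKne hK1 hc)
  · rintro rfl
    exact isValue_sums hK hKne hK1 hc

theorem existsUnique_value (K : NonemptyCompacts (Icc (0 : ℝ) 1)) (hc : Summable fun i => |c i|) :
    ∃! L : Set ℝ, IsValue c (toSet K) L :=
  ⟨_, isValue_sums (toSet_compact K) (toSet_nonempty K) (toSet_subset K) hc,
    fun _ h => isValue_unique h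
      (isValue_sums (toSet_compact K) (toSet_nonempty K) (toSet_subset K) hc)⟩

/-- The compact sets with two different nonzero points. -/
def TwoPoints : Set (NonemptyCompacts (Icc (0 : ℝ) 1)) :=
  {K | ∃ x ∈ toSet K, ∃ y ∈ toSet K, 0 < y ∧ y < x}

lemma isOpen_twoPoints : IsOpen TwoPoints := by
  rw [Metric.isOpen_iff]
  rintro K ⟨x, hx, y, hy, hy0, hyx⟩
  obtain ⟨x', hx', rfl⟩ := hx
  obtain ⟨y', hy', rfl⟩ := hy
  set ε : ℝ := min (y' : ℝ) (((x' : ℝ) - y') / 2) with hε
  have hε0 : 0 < ε := lt_min hy0 (by linarith)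
  refine ⟨ε, hε0, ?_⟩
  intro K' hK'
  rw [Metric.mem_ball, dist_comm, NonemptyCompacts.dist_eq] at hK'
  have hfin : hausdorffEDist (K : Set (Icc (0 : ℝ) 1)) K' ≠ ⊤ :=
    hausdorffEDist_ne_top_of_nonempty_of_bounded K.nonempty K'.nonempty
      K.isCompact.isBounded K'.isCompact.isBounded
  obtain ⟨x₁, hx₁, hdx⟩ := Metric.exists_dist_lt_of_hausdorffDist_lt hx' hK' hfin
  obtain ⟨y₁, hy₁, hdy⟩ := Metric.exists_dist_lt_of_hausdorffDist_lt hy' hK' hfin
  rw [Subtype.dist_eq, Real.dist_eq, abs_lt] at hdx hdy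
  have h1 := min_le_left (y' : ℝ) (((x' : ℝ) - y') / 2)
  have h2 := min_le_right (y' : ℝ) (((x' : ℝ) - y') / 2)
  rw [← hε] at h1 h2
  refine ⟨x₁, ⟨x₁, hx₁, rfl⟩, y₁, ⟨y₁, hy₁, rfl⟩, ?_, ?_⟩
  · linarith [hdy.1, hdy.2]
  · linarith [hdy.1, hdy.2, hdx.1, hdx.2]

lemma dense_twoPoints : Dense TwoPoints := by
  rw [Metric.dense_iff]
  intro K ε hε
  obtain ⟨k, hk⟩ := K.nonempty
  -- two points near `k`
  have key : ∃ p q : Icc (0 : ℝ) 1, 0 < (q : ℝ) ∧ (q : ℝ) < p ∧ dist k p ≤ ε / 2 ∧
      dist k q ≤ ε / 2 := by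
    set δ : ℝ := min (ε / 2) (1 / 2) with hδ
    have hδ0 : 0 < δ := lt_min (by linarith) (by norm_num)
    have hδ1 : δ ≤ ε / 2 := min_le_left _ _
    have hδ2 : δ ≤ 1 / 2 := min_le_right _ _
    have hk0 := k.2.1
    have hk1 := k.2.2
    rcases le_total (k : ℝ) (1 / 2) with h | h
    · refine ⟨⟨k + δ, by constructor <;> linarith⟩, ⟨k + δ / 2, by constructor <;> linarith⟩,
        ?_, ?_, ?_, ?_⟩
      · simp only; linarith
      · simp only; linarith
      · rw [Subtype.dist_eq, Real.dist_eq]
        simp only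
        rw [show (k : ℝ) - (k + δ) = -δ by ring, abs_neg, abs_of_pos hδ0]; exact hδ1
      · rw [Subtype.dist_eq, Real.dist_eq]
        simp only
        rw [show (k : ℝ) - (k + δ / 2) = -(δ / 2) by ring, abs_neg, abs_of_pos (by linarith)]
        linarith
    · refine ⟨⟨k, k.2⟩, ⟨k - δ / 2, by constructor <;> linarith⟩, ?_, ?_, ?_, ?_⟩
      · simp only; linarith
      · simp only; linarith
      · rw [Subtype.dist_eq, Real.dist_eq]
        simp only
        rw [sub_self, abs_zero]; linarith
      · rw [Subtype.dist_eq, Real.dist_eq]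
        simp only
        rw [show (k : ℝ) - (k - δ / 2) = δ / 2 by ring, abs_of_pos (by linarith)]
        linarith
  obtain ⟨p, q, hq0, hqp, hdp, hdq⟩ := key
  refine ⟨K ⊔ ({p} ⊔ {q}), ?_, ?_⟩
  · rw [Metric.mem_ball, NonemptyCompacts.dist_eq]
    refine lt_of_le_of_lt (b := ε / 2) ?_ (by linarith)
    apply Metric.hausdorffDist_le_of_mem_dist (by linarith)
    · intro z hz
      have hz' : z ∈ (K : Set (Icc (0 : ℝ) 1)) ∪ ({p} ∪ {q}) := hz
      rcases hz' with h | h | h
      · exact ⟨z, h, by rw [dist_self]; linarith⟩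
      · rw [Set.mem_singleton_iff] at h
        exact ⟨k, hk, by rw [h, dist_comm]; exact hdp⟩
      · rw [Set.mem_singleton_iff] at h
        exact ⟨k, hk, by rw [h, dist_comm]; exact hdq⟩
    · intro z hz
      exact ⟨z, Or.inl hz, by rw [dist_self]; linarith⟩
  · refine ⟨p, ⟨p, Or.inr (Or.inl rfl), rfl⟩, q, ⟨q, Or.inr (Or.inr rfl), rfl⟩, hq0, hqp⟩

theorem twoPoints_mem_residual : TwoPoints ∈ residual (NonemptyCompacts (Icc (0 : ℝ) 1)) :=
  residual_of_dense_open isOpen_twoPoints dense_twoPoints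

end Q91.MinkSeries
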