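import Mathlib

/-!
Elementary facts on the power-law potentials `r^γ/γ` (`log r` for `γ = 0`).
-/

open MeasureTheory Filter Topology Set
open scoped ENNReal NNReal

namespace Pool.Agent.Q91.PairPot

/-- `r^γ/γ`, read as `log r` for `γ = 0`. -/
noncomputable def pot (γ r : ℝ) : ℝ := if γ = 0 then Real.log r else r ^ γ / γ

/-- The radial profile. -/
noncomputable def wR (α β r : ℝ) : ℝ := -pot α r + pot β r

theorem pot_sub (γ : ℝ) {r : ℝ} (hr : 0 < r) :
    pot γ r - pot γ 1 = ∫ t in (1 : ℝ)..r, t ^ (γ - 1) := by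
  have h0 : (0 : ℝ) ∉ Set.uIcc 1 r := by
    intro h
    rw [Set.mem_uIcc] at h
    rcases h with h | h <;> linarith
  unfold pot
  by_cases hγ : γ = 0
  · subst hγ
    rw [if_pos rfl, if_pos rfl, Real.log_one, sub_zero]
    have : ∀ t : ℝ, t ^ ((0 : ℝ) - 1) = t⁻¹ := fun t => by
      rw [zero_sub, Real.rpow_neg_one]
    simp_rw [this]
    rw [integral_inv h0]
    simp
  · rw [if_neg hγ, if_neg hγ, integral_rpow (Or.inr ⟨by
      intro h
      apply hγ
      linarith, h0⟩)]
    rw [Real.one_rpow, sub_add_cancel, Real.one_rpow, sub_div]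

theorem pot_mono_exp {γ γ' : ℝ} (h : γ ≤ γ') {r : ℝ} (hr : 0 < r) :
    pot γ r - pot γ 1 ≤ pot γ' r - pot γ' 1 := by
  rw [pot_sub γ hr, pot_sub γ' hr]
  have hint : ∀ (c a b : ℝ), 0 < a → 0 < b → IntervalIntegrable (fun t : ℝ => t ^ (c - 1)) volume
      a b := by
    intro c a b ha hb
    refine intervalIntegral.intervalIntegrable_rpow (Or.inr ?_)
    intro h
    rw [Set.mem_uIcc] at h
    rcases h with h | h <;> linarith
  rcases le_total 1 r with h1 | h1
  · refine intervalIntegral.integral_mono_on h1 (hint _ _ _ one_pos hr) (hint _ _ _ one_pos hr) ?_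
    intro t ht
    exact Real.rpow_le_rpow_of_exponent_le ht.1 (by linarith)
  · rw [intervalIntegral.integral_symm r 1, intervalIntegral.integral_symm r 1]
    refine neg_le_neg ?_
    refine intervalIntegral.integral_mono_on h1 (hint _ _ _ hr one_pos) (hint _ _ _ hr one_pos) ?_
    intro t ht
    exact Real.rpow_le_rpow_of_exponent_ge (lt_of_lt_of_le hr ht.1) ht.2 (by linarith)

theorem wR_ge {α β : ℝ} (h : α ≤ β) {r : ℝ} (hr : 0 < r) : wR α β 1 ≤ wR α β r := by
  have := pot_mono_exp h hr
  unfold wR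
  linarith

theorem pot_mono_r (γ : ℝ) {r s : ℝ} (hr : 0 < r) (hrs : r ≤ s) : pot γ r ≤ pot γ s := by
  have hs : 0 < s := lt_of_lt_of_le hr hrs
  unfold pot
  by_cases hγ : γ = 0
  · rw [if_pos hγ, if_pos hγ]
    exact Real.log_le_log hr hrs
  · rw [if_neg hγ, if_neg hγ]
    rcases lt_or_gt_of_ne hγ with h | h
    · rw [div_le_div_right_of_neg h]
      exact Real.rpow_le_rpow_of_nonpos hr hrs h.le
    · exact div_le_div_of_nonneg_right (Real.rpow_le_rpow hr.le hrs h.le) h.le

theorem continuousAt_pot (γ : ℝ) {r : ℝ} (hr : 0 < r) : ContinuousAt (pot γ) r := by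
  unfold pot
  by_cases hγ : γ = 0
  · simp only [if_pos hγ]
    exact Real.continuousAt_log hr.ne'
  · simp only [if_neg hγ]
    exact (Real.continuousAt_rpow_const _ _ (Or.inl hr.ne')).div_const _

theorem continuousAt_wR (α β : ℝ) {r : ℝ} (hr : 0 < r) : ContinuousAt (wR α β) r :=
  (continuousAt_pot α hr).neg.add (continuousAt_pot β hr)

theorem continuous_wR_of_pos {α β : ℝ} (hα : 0 < α) (hβ : 0 < β) : Continuous (wR α β) := by
  unfold wR pot
  simp only [if_neg hα.ne', if_neg hβ.ne']
  exact ((continuous_id.rpow_const fun _ => Or.inr hα.le).div_const _).neg.add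
    ((continuous_id.rpow_const fun _ => Or.inr hβ.le).div_const _)

/-- Blow-up at the origin. -/
theorem tendsto_wR_zero {α β : ℝ} (hα : α ≤ 0) (h : α < β) :
    Tendsto (wR α β) (𝓝[>] 0) atTop := by
  rcases hα.lt_or_eq with hα | rfl
  · -- compare with exponent `γ = min β (α/2)`
    set γ := min β (α / 2) with hγ
    have hγ1 : α < γ := lt_min h (by linarith)
    have hγ2 : γ < 0 := lt_of_le_of_lt (min_le_right _ _) (by linarith)
    have hγ3 : γ ≤ β := min_le_left _ _
    have hlow : ∀ r > 0, r ^ γ * (r ^ (α - γ) / (-α) + 1 / γ) + (pot β 1 - pot γ 1) ≤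
        wR α β r := by
      intro r hr
      have h1 := pot_mono_exp hγ3 hr
      have h2 : r ^ γ * (r ^ (α - γ) / (-α) + 1 / γ) = -pot α r + pot γ r := by
        unfold pot
        rw [if_neg hα.ne, if_neg hγ2.ne, mul_add, ← mul_div_assoc, ← Real.rpow_add hr]
        rw [show γ + (α - γ) = α by ring, mul_one_div, div_neg]
      rw [h2]
      unfold wR
      linarith
    have hA : Tendsto (fun r : ℝ => r ^ γ) (𝓝[>] 0) atTop := tendsto_rpow_neg_nhdsGT_zero hγ2
    have hB : Tendsto (fun r : ℝ => r ^ (α - γ) / (-α) + 1 / γ) (𝓝[>] 0) atTop :=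
      tendsto_atTop_add_const_right _ _
        ((tendsto_rpow_neg_nhdsGT_zero (by linarith)).atTop_div_const (by linarith))
    have hC := tendsto_atTop_add_const_right (𝓝[>] (0 : ℝ)) (pot β 1 - pot γ 1)
      (hA.atTop_mul_atTop₀ hB)
    refine tendsto_atTop_mono' _ ?_ hC
    filter_upwards [self_mem_nhdsWithin] with r hr
    exact hlow r hr
  · have hlow : ∀ r > 0, -Real.log r ≤ wR 0 β r := by
      intro r hr
      unfold wR pot
      rw [if_pos rfl, if_neg h.ne']
      have : 0 ≤ r ^ β / β := div_nonneg (Real.rpow_nonneg hr.le _) h.le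
      linarith
    have hA : Tendsto (fun r : ℝ => -Real.log r) (𝓝[>] 0) atTop :=
      tendsto_neg_atBot_atTop.comp Real.tendsto_log_nhdsGT_zero
    refine tendsto_atTop_mono' _ ?_ hA
    filter_upwards [self_mem_nhdsWithin] with r hr
    exact hlow r hr

/-- Growth at infinity for `β ≥ 0`. -/
theorem tendsto_wR_atTop {α β : ℝ} (hβ : 0 ≤ β) (h : α < β) :
    Tendsto (wR α β) atTop atTop := by
  rcases hβ.lt_or_eq with hβ | rfl
  · set γ := max α (β / 2) with hγ
    have hγ1 : γ < β := max_lt h (by linarith)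
    have hγ2 : 0 < γ := lt_of_lt_of_le (by linarith) (le_max_right _ _)
    have hγ3 : α ≤ γ := le_max_left _ _
    have hlow : ∀ r > 0, r ^ γ * (r ^ (β - γ) / β + (-1 / γ)) + (pot γ 1 - pot α 1) ≤
        wR α β r := by
      intro r hr
      have h1 := pot_mono_exp hγ3 hr
      have h2 : r ^ γ * (r ^ (β - γ) / β + (-1 / γ)) = -pot γ r + pot β r := by
        unfold pot
        rw [if_neg hβ.ne', if_neg hγ2.ne', mul_add, ← mul_div_assoc, ← Real.rpow_add hr]
        rw [show γ + (β - γ) = β by ring]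
        ring
      rw [h2]
      unfold wR
      linarith
    have hA : Tendsto (fun r : ℝ => r ^ γ) atTop atTop := tendsto_rpow_atTop hγ2
    have hB : Tendsto (fun r : ℝ => r ^ (β - γ) / β + (-1 / γ)) atTop atTop :=
      tendsto_atTop_add_const_right _ _
        ((tendsto_rpow_atTop (by linarith)).atTop_div_const hβ)
    have hC := tendsto_atTop_add_const_right atTop (pot γ 1 - pot α 1)
      (hA.atTop_mul_atTop₀ hB)
    refine tendsto_atTop_mono' _ ?_ hC
    filter_upwards [eventually_gt_atTop 0] with r hr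
    exact hlow r hr
  · have hlow : ∀ r > 0, Real.log r ≤ wR α 0 r := by
      intro r hr
      unfold wR pot
      rw [if_pos rfl, if_neg h.ne]
      have : 0 ≤ -(r ^ α / α) := by
        rw [← div_neg]
        exact div_nonneg (Real.rpow_nonneg hr.le _) (by linarith)
      linarith
    refine tendsto_atTop_mono' _ ?_ Real.tendsto_log_atTop
    filter_upwards [eventually_gt_atTop 0] with r hr
    exact hlow r hr

/-- Decay at infinity for `β < 0`. -/
theorem tendsto_wR_neg {α β : ℝ} (hα : α < 0) (hβ : β < 0) :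
    Tendsto (wR α β) atTop (𝓝 0) := by
  unfold wR pot
  simp only [if_neg hα.ne, if_neg hβ.ne]
  have h1 : Tendsto (fun r : ℝ => r ^ α / α) atTop (𝓝 (0 / α)) := by
    have := tendsto_rpow_neg_atTop (y := -α) (by linarith)
    rw [neg_neg] at this
    exact this.div_const _
  have h2 : Tendsto (fun r : ℝ => r ^ β / β) atTop (𝓝 (0 / β)) := by
    have := tendsto_rpow_neg_atTop (y := -β) (by linarith)
    rw [neg_neg] at this
    exact this.div_const _
  have h3 := h1.neg.add h2
  simpa using h3

end Pool.Agent.Q91.PairPot
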