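import Pool.Agent.Q91.PairLimit
import Pool.Agent.Q91.PairPot

/-!
The shifted power-law potential: continuity, measures of finite (negative) energy.
-/

open MeasureTheory Filter Topology Set
open scoped ENNReal NNReal

namespace Pool.Agent.Q91.PairPot

open Pool.Agent.Q91.PairMin

open scoped Classical in
/-- The potential shifted by `M`, as a `[0,∞]`-valued function. -/
noncomputable def shifted {E : Type*} [NormedAddCommGroup E] (α β M : ℝ) (x : E) : ℝ≥0∞ :=
  if x = 0 ∧ α ≤ 0 then ⊤ else ENNReal.ofReal (wR α β ‖x‖ + M)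

theorem continuous_shifted {E : Type*} [NormedAddCommGroup E] {α β : ℝ} (M : ℝ) (h : α < β) :
    Continuous (shifted α β M : E → ℝ≥0∞) := by
  rcases lt_or_ge 0 α with hα | hα
  · have : (shifted α β M : E → ℝ≥0∞) = fun x => ENNReal.ofReal (wR α β ‖x‖ + M) := by
      funext x
      unfold shifted
      rw [if_neg (fun hx => absurd hx.2 (not_le.2 hα))]
    rw [this]
    exact ENNReal.continuous_ofReal.comp
      (((continuous_wR_of_pos hα (hα.trans h)).comp continuous_norm).add continuous_const)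
  · refine continuous_iff_continuousAt.2 fun x => ?_
    by_cases hx : x = 0
    · subst hx
      have h0 : shifted α β M (0 : E) = ⊤ := by
        unfold shifted
        rw [if_pos ⟨rfl, hα⟩]
      rw [ContinuousAt, h0, ENNReal.tendsto_nhds_top_iff_nat]
      intro n
      have h1 := (tendsto_wR_zero hα h).eventually_gt_atTop ((n : ℝ) - M)
      rw [eventually_nhdsWithin_iff, Metric.eventually_nhds_iff] at h1
      obtain ⟨ε, hε, h1⟩ := h1
      rw [Metric.eventually_nhds_iff]
      refine ⟨ε, hε, fun y hy => ?_⟩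
      by_cases hy0 : y = 0
      · rw [hy0, h0]
        exact ENNReal.coe_lt_top
      · unfold shifted
        rw [if_neg (fun h' => hy0 h'.1)]
        have hyn : 0 < ‖y‖ := norm_pos_iff.2 hy0
        have h2 := h1 (y := ‖y‖) (by
          rw [Real.dist_eq, sub_zero, abs_of_pos hyn]
          rwa [dist_zero_right] at hy) hyn
        rw [← ENNReal.ofReal_natCast]
        refine ENNReal.ofReal_lt_ofReal_iff_of_nonneg (Nat.cast_nonneg _) |>.2 ?_
        linarith
    · have hxn : 0 < ‖x‖ := norm_pos_iff.2 hx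
      have h1 : (shifted α β M : E → ℝ≥0∞) =ᶠ[𝓝 x]
          fun x => ENNReal.ofReal (wR α β ‖x‖ + M) := by
        filter_upwards [isOpen_ne.mem_nhds hx] with y hy
        unfold shifted
        rw [if_neg (fun h' => hy h'.1)]
      refine ContinuousAt.congr ?_ h1.symm
      have h2 : ContinuousAt (fun x : E => wR α β ‖x‖ + M) x :=
        (ContinuousAt.comp (f := fun x : E => ‖x‖) (continuousAt_wR α β hxn)
          continuous_norm.continuousAt).add continuousAt_const
      exact ENNReal.continuous_ofReal.continuousAt.comp h2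

section Ball

variable {d : ℕ}

/-- Uniform probability measure on the unit ball. -/
noncomputable def unif (d : ℕ) : Measure (EuclideanSpace ℝ (Fin d)) :=
  (volume (Metric.ball (0 : EuclideanSpace ℝ (Fin d)) 1))⁻¹ •
    volume.restrict (Metric.ball (0 : EuclideanSpace ℝ (Fin d)) 1)

theorem vol_ball_ne_zero (d : ℕ) : volume (Metric.ball (0 : EuclideanSpace ℝ (Fin d)) 1) ≠ 0 :=
  (Metric.measure_ball_pos volume _ one_pos).ne'

theorem vol_ball_ne_top (d : ℕ) : volume (Metric.ball (0 : EuclideanSpace ℝ (Fin d)) 1) ≠ ⊤ :=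
  measure_ball_lt_top.ne

instance isProb_unif (d : ℕ) : IsProbabilityMeasure (unif d) := by
  constructor
  unfold unif
  rw [Measure.smul_apply, Measure.restrict_apply MeasurableSet.univ, Set.univ_inter, smul_eq_mul]
  exact ENNReal.inv_mul_cancel (vol_ball_ne_zero d) (vol_ball_ne_top d)

theorem unif_ae_ball (d : ℕ) :
    ∀ᵐ x ∂(unif d), x ∈ Metric.ball (0 : EuclideanSpace ℝ (Fin d)) 1 := by
  unfold unif
  exact Measure.ae_smul_measure (ae_restrict_mem measurableSet_ball) _

theorem prod_ae_ball (d : ℕ) :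
    ∀ᵐ p ∂((unif d).prod (unif d)), ‖p.1 - p.2‖ < 2 := by
  have h1 : ∀ᵐ p ∂((unif d).prod (unif d)), p.1 ∈ Metric.ball (0 : EuclideanSpace ℝ (Fin d)) 1 :=
    Measure.quasiMeasurePreserving_fst.ae (unif_ae_ball d)
  have h2 : ∀ᵐ p ∂((unif d).prod (unif d)), p.2 ∈ Metric.ball (0 : EuclideanSpace ℝ (Fin d)) 1 :=
    Measure.quasiMeasurePreserving_snd.ae (unif_ae_ball d)
  filter_upwards [h1, h2] with p hp1 hp2
  rw [mem_ball_zero_iff] at hp1 hp2
  have := norm_sub_le p.1 p.2
  linarith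

theorem prod_ae_ne (hd : 1 ≤ d) :
    ∀ᵐ p ∂((unif d).prod (unif d)), p.1 - p.2 ≠ 0 := by
  have : Nonempty (Fin d) := ⟨⟨0, hd⟩⟩
  have hs : MeasurableSet {p : EuclideanSpace ℝ (Fin d) × EuclideanSpace ℝ (Fin d) |
      p.1 - p.2 = 0} :=
    (isClosed_eq (continuous_fst.sub continuous_snd) continuous_const).measurableSet
  rw [ae_iff]
  simp only [ne_eq, not_not]
  rw [Measure.measure_prod_null hs]
  refine Eventually.of_forall fun x => ?_
  have h1 : Prod.mk x ⁻¹' {p : EuclideanSpace ℝ (Fin d) × EuclideanSpace ℝ (Fin d) |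
      p.1 - p.2 = 0} = {x} := by
    ext y
    simp [sub_eq_zero, eq_comm]
  change (unif d) (Prod.mk x ⁻¹' {p : EuclideanSpace ℝ (Fin d) × EuclideanSpace ℝ (Fin d) |
      p.1 - p.2 = 0}) = 0
  rw [h1]
  unfold unif
  rw [Measure.smul_apply, Measure.restrict_apply (measurableSet_singleton x)]
  have h2 : volume ({x} ∩ Metric.ball (0 : EuclideanSpace ℝ (Fin d)) 1) = 0 :=
    measure_mono_null Set.inter_subset_left (measure_singleton x)
  rw [h2]
  simp

theorem lintegral_norm_rpow (hd : 1 ≤ d) {γ : ℝ} (hγ : -(d : ℝ) < γ) :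
    ∫⁻ p, ENNReal.ofReal (‖p.1 - p.2‖ ^ γ) ∂((unif d).prod (unif d)) < ⊤ := by
  set E := EuclideanSpace ℝ (Fin d) with hE
  have hmeas : Measurable fun z : E => ENNReal.ofReal (‖z‖ ^ γ) :=
    (measurable_norm.pow_const γ).ennreal_ofReal
  have hJ : ∫⁻ z in Metric.ball (0 : E) 2, ENNReal.ofReal (‖z‖ ^ γ) < ⊤ := by
    have h1 : IntegrableOn (fun z : E => ‖z‖ ^ γ) (Metric.ball 0 2) := by
      refine integrableOn_ball_of_norm_le_rpow (α := -γ) (C := 1) ?_ ?_ ?_ ?_
      · rw [finrank_euclideanSpace, Fintype.card_fin]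
        exact hd
      · rw [finrank_euclideanSpace, Fintype.card_fin]
        linarith
      · refine Eventually.of_forall fun z => ?_
        rw [one_mul, neg_neg, Real.norm_of_nonneg (Real.rpow_nonneg (norm_nonneg _) _)]
      · exact (measurable_norm.pow_const γ).aestronglyMeasurable
    exact h1.lintegral_lt_top
  set J := ∫⁻ z in Metric.ball (0 : E) 2, ENNReal.ofReal (‖z‖ ^ γ) with hJdef
  set c := (volume (Metric.ball (0 : E) 1))⁻¹ with hc
  have hmp : Measurable fun p : E × E => ENNReal.ofReal (‖p.1 - p.2‖ ^ γ) :=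
    hmeas.comp (measurable_fst.sub measurable_snd)
  rw [lintegral_prod _ hmp.aemeasurable]
  have hin : ∀ᵐ x ∂(unif d), ∫⁻ y, ENNReal.ofReal (‖x - y‖ ^ γ) ∂(unif d) ≤ c * J := by
    filter_upwards [unif_ae_ball d] with x hx
    unfold unif
    rw [lintegral_smul_measure, smul_eq_mul]
    refine mul_le_mul_right ?_ _
    have h1 : ∫⁻ y in Metric.ball (0 : E) 1, ENNReal.ofReal (‖x - y‖ ^ γ) ≤
        ∫⁻ y, (Metric.ball (0 : E) 2).indicator (fun z => ENNReal.ofReal (‖z‖ ^ γ)) (x - y) := by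
      rw [← lintegral_indicator measurableSet_ball]
      refine lintegral_mono fun y => ?_
      by_cases hy : y ∈ Metric.ball (0 : E) 1
      · rw [Set.indicator_of_mem hy, Set.indicator_of_mem]
        rw [mem_ball_zero_iff] at hx hy ⊢
        have := norm_sub_le x y
        linarith
      · rw [Set.indicator_of_notMem hy]
        exact bot_le
    refine le_trans h1 (le_of_eq ?_)
    rw [lintegral_sub_left_eq_self
      (fun z => (Metric.ball (0 : E) 2).indicator (fun z => ENNReal.ofReal (‖z‖ ^ γ)) z) x,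
      lintegral_indicator measurableSet_ball]
  calc ∫⁻ x, ∫⁻ y, ENNReal.ofReal (‖x - y‖ ^ γ) ∂(unif d) ∂(unif d) ≤
      ∫⁻ _x, c * J ∂(unif d) := lintegral_mono_ae hin
    _ = c * J := by rw [lintegral_const, measure_univ, mul_one]
    _ < ⊤ := ENNReal.mul_lt_top (ENNReal.inv_lt_top.2
        (Metric.measure_ball_pos volume _ one_pos)) hJ

theorem exists_finite_energy (hd : 1 ≤ d) {α β : ℝ} (hα : -(d : ℝ) < α) (M : ℝ) :
    ∃ ρ0 : Measure (EuclideanSpace ℝ (Fin d)), IsProbabilityMeasure ρ0 ∧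
      pairEnergy (shifted α β M) ρ0 < ⊤ := by
  refine ⟨unif d, isProb_unif d, ?_⟩
  have hd' : (0 : ℝ) < d := by exact_mod_cast hd
  set γ : ℝ := (-(d : ℝ) + min α 0) / 2 with hγ
  have hmin1 : min α 0 ≤ α := min_le_left _ _
  have hmin2 : min α 0 ≤ 0 := min_le_right _ _
  have hmin3 : -(d : ℝ) < min α 0 := lt_min hα (by linarith)
  have hγ1 : -(d : ℝ) < γ := by rw [hγ]; linarith
  have hγ2 : γ ≤ α := by rw [hγ]; linarith
  have hγ3 : γ < 0 := by rw [hγ]; linarith
  set C1 : ℝ := 1 / (-γ) with hC1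
  have hC1pos : 0 ≤ C1 := by
    rw [hC1]
    exact div_nonneg zero_le_one (by linarith)
  set C2 : ℝ := pot γ 1 - pot α 1 + pot β 2 + M with hC2
  unfold pairEnergy
  have hbound : ∀ᵐ p ∂((unif d).prod (unif d)), shifted α β M (p.1 - p.2) ≤
      ENNReal.ofReal C1 * ENNReal.ofReal (‖p.1 - p.2‖ ^ γ) + ENNReal.ofReal C2 := by
    filter_upwards [prod_ae_ball d, prod_ae_ne hd] with p hp1 hp2
    unfold shifted
    rw [if_neg (fun h => hp2 h.1), ← ENNReal.ofReal_mul hC1pos]
    refine le_trans ?_ ENNReal.ofReal_add_le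
    refine ENNReal.ofReal_le_ofReal ?_
    have hr : 0 < ‖p.1 - p.2‖ := norm_pos_iff.2 hp2
    have h1 := pot_mono_exp hγ2 hr
    have h2 := pot_mono_r β hr hp1.le
    have h3 : pot γ ‖p.1 - p.2‖ = -(C1 * ‖p.1 - p.2‖ ^ γ) := by
      unfold pot
      rw [if_neg hγ3.ne, hC1]
      field_simp
    unfold wR
    linarith
  refine lt_of_le_of_lt (lintegral_mono_ae hbound) ?_
  have hmeas : Measurable fun p : EuclideanSpace ℝ (Fin d) × EuclideanSpace ℝ (Fin d) =>
      ENNReal.ofReal (‖p.1 - p.2‖ ^ γ) :=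
    ((measurable_fst.sub measurable_snd).norm.pow_const γ).ennreal_ofReal
  rw [lintegral_add_right _ measurable_const, lintegral_const_mul _ hmeas, lintegral_const,
    measure_univ, mul_one]
  exact ENNReal.add_lt_top.2 ⟨ENNReal.mul_lt_top ENNReal.ofReal_lt_top
    (lintegral_norm_rpow hd hγ1), ENNReal.ofReal_lt_top⟩

theorem integrable_norm_rpow (hd : 1 ≤ d) {γ : ℝ} (hγ : -(d : ℝ) < γ) :
    Integrable (fun p : EuclideanSpace ℝ (Fin d) × EuclideanSpace ℝ (Fin d) =>
      ‖p.1 - p.2‖ ^ γ) ((unif d).prod (unif d)) := by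
  refine ⟨((measurable_fst.sub measurable_snd).norm.pow_const γ).aestronglyMeasurable, ?_⟩
  rw [hasFiniteIntegral_iff_ofReal (Eventually.of_forall fun p =>
    Real.rpow_nonneg (norm_nonneg _) _)]
  exact lintegral_norm_rpow hd hγ

theorem exists_negative_energy (hd : 1 ≤ d) {α β : ℝ} (hα : -(d : ℝ) < α) (h : α < β)
    (hβ : β < 0) {M : ℝ} (hM : -M ≤ wR α β 1) :
    ∃ ρ0 : Measure (EuclideanSpace ℝ (Fin d)), IsProbabilityMeasure ρ0 ∧
      pairEnergy (shifted α β M) ρ0 < ENNReal.ofReal M := by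
  have hα0 : α < 0 := h.trans hβ
  set Iα := ∫ p, ‖p.1 - p.2‖ ^ α ∂((unif d).prod (unif d)) with hIα
  set Iβ := ∫ p, ‖p.1 - p.2‖ ^ β ∂((unif d).prod (unif d)) with hIβ
  have hintα := integrable_norm_rpow hd hα
  have hintβ := integrable_norm_rpow hd (hα.trans h)
  have hIβpos : 0 < Iβ := by
    rw [hIβ, integral_pos_iff_support_of_nonneg_ae
      (Eventually.of_forall fun p => Real.rpow_nonneg (norm_nonneg _) _) hintβ]
    have h1 : ∀ᵐ p ∂((unif d).prod (unif d)), p ∈ Function.support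
        (fun p : EuclideanSpace ℝ (Fin d) × EuclideanSpace ℝ (Fin d) => ‖p.1 - p.2‖ ^ β) := by
      filter_upwards [prod_ae_ne hd] with p hp
      exact (Real.rpow_pos_of_pos (norm_pos_iff.2 hp) _).ne'
    have h2 : ((unif d).prod (unif d)) (Function.support
        (fun p : EuclideanSpace ℝ (Fin d) × EuclideanSpace ℝ (Fin d) => ‖p.1 - p.2‖ ^ β)) =
        ((unif d).prod (unif d)) Set.univ := measure_congr (by
      filter_upwards [h1] with p hp
      exact eq_true hp |>.trans (eq_true trivial).symm)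
    rw [h2, measure_univ]
    exact one_pos
  have hIα0 : 0 ≤ Iα := integral_nonneg fun p => Real.rpow_nonneg (norm_nonneg _) _
  -- choose the scale
  obtain ⟨s, hs, hs2⟩ : ∃ s : ℝ, 0 < s ∧ s ^ α * (Iα / (-α)) < s ^ β * (Iβ / (-β)) := by
    have h1 : Tendsto (fun s : ℝ => s ^ (α - β) * (Iα / (-α))) atTop
        (𝓝 (0 * (Iα / (-α)))) := by
      have := tendsto_rpow_neg_atTop (y := β - α) (by linarith)
      rw [show -(β - α) = α - β by ring] at this
      exact this.mul_const _
    rw [zero_mul] at h1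
    have hpos : 0 < Iβ / (-β) := div_pos hIβpos (by linarith)
    obtain ⟨s, hs1, hs2⟩ := ((h1.eventually_lt_const hpos).and (eventually_gt_atTop 0)).exists
    refine ⟨s, hs2, ?_⟩
    have h2 : s ^ α = s ^ β * s ^ (α - β) := by
      rw [← Real.rpow_add hs2]
      congr 1
      ring
    rw [h2, mul_assoc]
    exact mul_lt_mul_of_pos_left hs1 (Real.rpow_pos_of_pos hs2 _)
  have hmap : Measurable fun x : EuclideanSpace ℝ (Fin d) => s • x := measurable_const_smul s
  have hprob : IsProbabilityMeasure ((unif d).map (fun x => s • x)) :=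
    Measure.isProbabilityMeasure_map hmap.aemeasurable
  refine ⟨(unif d).map (fun x => s • x), hprob, ?_⟩
  unfold pairEnergy
  have hmU : Measurable fun p : EuclideanSpace ℝ (Fin d) × EuclideanSpace ℝ (Fin d) =>
      shifted α β M (p.1 - p.2) :=
    (continuous_shifted M h).measurable.comp (measurable_fst.sub measurable_snd)
  rw [Measure.map_prod_map _ _ hmap hmap, lintegral_map hmU (hmap.prodMap hmap)]
  have h1 : ∀ᵐ p ∂((unif d).prod (unif d)),
      shifted α β M ((Prod.map (fun x => s • x) (fun x => s • x) p).1 -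
        (Prod.map (fun x => s • x) (fun x => s • x) p).2) =
      ENNReal.ofReal (s ^ α / (-α) * ‖p.1 - p.2‖ ^ α - s ^ β / (-β) * ‖p.1 - p.2‖ ^ β + M) := by
    filter_upwards [prod_ae_ne hd] with p hp
    have hr : 0 < ‖p.1 - p.2‖ := norm_pos_iff.2 hp
    have h2 : (Prod.map (fun x => s • x) (fun x => s • x) p).1 -
        (Prod.map (fun x => s • x) (fun x => s • x) p).2 = s • (p.1 - p.2) := by
      simp [smul_sub]
    rw [h2]
    unfold shifted
    have h3 : ¬(s • (p.1 - p.2) = 0 ∧ α ≤ 0) := fun h' => by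
      rcases smul_eq_zero.1 h'.1 with h4 | h4
      · exact hs.ne' h4
      · exact hp h4
    rw [if_neg h3, norm_smul, Real.norm_of_nonneg hs.le]
    congr 1
    unfold wR pot
    rw [if_neg hα0.ne, if_neg hβ.ne, Real.mul_rpow hs.le hr.le, Real.mul_rpow hs.le hr.le]
    have hβ' : β ≠ 0 := hβ.ne
    have hα' : α ≠ 0 := hα0.ne
    field_simp
    ring
  rw [lintegral_congr_ae h1]
  have hint : Integrable (fun p : EuclideanSpace ℝ (Fin d) × EuclideanSpace ℝ (Fin d) =>
      s ^ α / (-α) * ‖p.1 - p.2‖ ^ α - s ^ β / (-β) * ‖p.1 - p.2‖ ^ β + M)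
      ((unif d).prod (unif d)) :=
    ((hintα.const_mul _).sub (hintβ.const_mul _)).add (integrable_const _)
  have hnn : 0 ≤ᵐ[(unif d).prod (unif d)] (fun p : EuclideanSpace ℝ (Fin d) ×
      EuclideanSpace ℝ (Fin d) =>
      s ^ α / (-α) * ‖p.1 - p.2‖ ^ α - s ^ β / (-β) * ‖p.1 - p.2‖ ^ β + M) := by
    filter_upwards [prod_ae_ne hd] with p hp
    have hr : 0 < ‖p.1 - p.2‖ := norm_pos_iff.2 hp
    have h2 := wR_ge h.le (mul_pos hs hr)
    have h3 : wR α β (s * ‖p.1 - p.2‖) =
        s ^ α / (-α) * ‖p.1 - p.2‖ ^ α - s ^ β / (-β) * ‖p.1 - p.2‖ ^ β := by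
      unfold wR pot
      rw [if_neg hα0.ne, if_neg hβ.ne, Real.mul_rpow hs.le hr.le, Real.mul_rpow hs.le hr.le]
      have hβ' : β ≠ 0 := hβ.ne
      have hα' : α ≠ 0 := hα0.ne
      field_simp
      ring
    simp only [Pi.zero_apply]
    linarith
  rw [← ofReal_integral_eq_lintegral_ofReal hint hnn]
  have hval : ∫ p, (s ^ α / (-α) * ‖p.1 - p.2‖ ^ α - s ^ β / (-β) * ‖p.1 - p.2‖ ^ β + M)
      ∂((unif d).prod (unif d)) = s ^ α / (-α) * Iα - s ^ β / (-β) * Iβ + M := by
    have i1 : Integrable (fun p : EuclideanSpace ℝ (Fin d) × EuclideanSpace ℝ (Fin d) =>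
        s ^ α / (-α) * ‖p.1 - p.2‖ ^ α) ((unif d).prod (unif d)) := hintα.const_mul _
    have i2 : Integrable (fun p : EuclideanSpace ℝ (Fin d) × EuclideanSpace ℝ (Fin d) =>
        s ^ β / (-β) * ‖p.1 - p.2‖ ^ β) ((unif d).prod (unif d)) := hintβ.const_mul _
    have i3 : Integrable (fun p : EuclideanSpace ℝ (Fin d) × EuclideanSpace ℝ (Fin d) =>
        s ^ α / (-α) * ‖p.1 - p.2‖ ^ α - s ^ β / (-β) * ‖p.1 - p.2‖ ^ β)
        ((unif d).prod (unif d)) := i1.sub i2
    rw [integral_add i3 (integrable_const _), integral_sub i1 i2, integral_const_mul,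
      integral_const_mul]
    simp [hIα, hIβ]
  rw [hval]
  have hMpos : 0 < M := by
    have h2 : wR α β 1 < 0 := by
      unfold wR pot
      rw [if_neg hα0.ne, if_neg hβ.ne, Real.one_rpow, Real.one_rpow]
      have : 1 / β < 1 / α := one_div_lt_one_div_of_neg_of_lt hβ h
      linarith
    linarith
  refine (ENNReal.ofReal_lt_ofReal_iff hMpos).2 ?_
  have e1 : s ^ α / (-α) * Iα = s ^ α * (Iα / (-α)) := by ring
  have e2 : s ^ β / (-β) * Iβ = s ^ β * (Iβ / (-β)) := by ring
  rw [e1, e2]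
  linarith

end Ball

end Pool.Agent.Q91.PairPot
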