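import Pool.Agent.Q91.PairMin

/-!
Limits of empirical measures of minimizing configurations minimize the pair energy.
-/

open MeasureTheory Filter Topology Set
open scoped ENNReal NNReal BoundedContinuousFunction

namespace Pool.Agent.Q91.PairMin

variable {E : Type*} [NormedAddCommGroup E]

/-- Translated empirical measure. -/
noncomputable def emp [MeasurableSpace E] {n : ℕ} (X : Fin n → E) (a : E) : Measure E :=
  (n : ℝ≥0∞)⁻¹ • ∑ i, Measure.dirac (X i - a)

theorem isProb_emp [MeasurableSpace E] {n : ℕ} (hn : n ≠ 0) (X : Fin n → E) (a : E) :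
    IsProbabilityMeasure (emp X a) := by
  constructor
  unfold emp
  rw [Measure.smul_apply, Measure.finsetSum_apply]
  simp only [measure_univ, Finset.sum_const, Finset.card_univ, Fintype.card_fin, nsmul_eq_mul,
    mul_one, smul_eq_mul]
  exact ENNReal.inv_mul_cancel (Nat.cast_ne_zero.2 hn) (ENNReal.natCast_ne_top _)

theorem lintegral_emp [MeasurableSpace E] {n : ℕ} (X : Fin n → E) (a : E)
    {f : E → ℝ≥0∞} (hf : Measurable f) :
    ∫⁻ x, f x ∂(emp X a) = (n : ℝ≥0∞)⁻¹ * ∑ i, f (X i - a) := by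
  unfold emp
  rw [lintegral_smul_measure, lintegral_finsetSum_measure]
  simp only [smul_eq_mul]
  congr 1
  exact Finset.sum_congr rfl fun i _ => lintegral_dirac' _ hf

theorem integral_emp [MeasurableSpace E] [BorelSpace E] {n : ℕ} (X : Fin n → E) (a : E)
    (f : E →ᵇ ℝ) :
    ∫ x, f x ∂(emp X a) = (n : ℝ)⁻¹ * ∑ i, f (X i - a) := by
  unfold emp
  rw [integral_smul_measure, integral_finsetSum_measure]
  · simp only [smul_eq_mul, ENNReal.toReal_inv, ENNReal.toReal_natCast]
    congr 1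
    exact Finset.sum_congr rfl fun i _ => integral_dirac' _ _ f.continuous.stronglyMeasurable
  · intro i _
    exact f.integrable _

theorem emp_apply_le [MeasurableSpace E] {n : ℕ} (hn : n ≠ 0) (X : Fin n → E) (a : E)
    {s : Set E} (hs : MeasurableSet s) {δ : ℝ}
    [DecidablePred fun i => X i - a ∈ s]
    (h : ((Finset.univ.filter fun i => X i - a ∈ s).card : ℝ) ≤ δ * n) :
    emp X a s ≤ ENNReal.ofReal δ := by
  have h1 : emp X a s = (n : ℝ≥0∞)⁻¹ * ((Finset.univ.filter fun i => X i - a ∈ s).card : ℝ≥0∞) := by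
    unfold emp
    rw [Measure.smul_apply, Measure.finsetSum_apply, smul_eq_mul]
    congr 1
    simp_rw [Measure.dirac_apply' _ hs, Set.indicator_apply]
    simp only [Pi.one_apply]
    rw [Finset.sum_ite]
    simp
  rw [h1]
  have hn' : (0 : ℝ) < n := by
    have : 0 < n := by omega
    exact_mod_cast this
  have hδ : 0 ≤ δ := by
    by_contra hneg
    push Not at hneg
    have : δ * n < 0 := mul_neg_of_neg_of_pos hneg hn'
    have h2 : (0 : ℝ) ≤ ((Finset.univ.filter fun i => X i - a ∈ s).card : ℝ) := Nat.cast_nonneg _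
    linarith
  have h2 : ((Finset.univ.filter fun i => X i - a ∈ s).card : ℝ≥0∞) ≤ ENNReal.ofReal (δ * n) := by
    rw [← ENNReal.ofReal_natCast]
    exact ENNReal.ofReal_le_ofReal h
  calc (n : ℝ≥0∞)⁻¹ * ((Finset.univ.filter fun i => X i - a ∈ s).card : ℝ≥0∞) ≤
      (n : ℝ≥0∞)⁻¹ * ENNReal.ofReal (δ * n) := by gcongr
    _ = ENNReal.ofReal δ := by
        rw [ENNReal.ofReal_mul hδ, ENNReal.ofReal_natCast, mul_comm, mul_assoc,
          ENNReal.mul_inv_cancel (Nat.cast_ne_zero.2 hn) (ENNReal.natCast_ne_top _), mul_one]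

/-- Lower semicontinuity. -/
theorem pairEnergy_le_of_tendsto [MeasurableSpace E] [BorelSpace E] [SecondCountableTopology E]
    {U : E → ℝ≥0∞} (hU : Continuous U) {n : ℕ → ℕ} (hn0 : ∀ k, n k ≠ 0)
    (hn : Tendsto n atTop atTop) (X : ∀ k, Fin (n k) → E) (a : ℕ → E)
    (ν : ℕ → ProbabilityMeasure E) (hν : ∀ k, (ν k : Measure E) = emp (X k) (a k))
    (ρ : ProbabilityMeasure E) (hlim : Tendsto ν atTop (𝓝 ρ)) (L : ℝ≥0∞)
    (hL : ∀ k, pairSum U Finset.univ (X k) ≤ ((n k * (n k - 1) : ℕ) : ℝ≥0∞) * L) :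
    pairEnergy U (ρ : Measure E) ≤ L := by
  have hprod : Tendsto (fun k => (ν k).prod (ν k)) atTop (𝓝 (ρ.prod ρ)) :=
    ((ProbabilityMeasure.continuous_prod (α := E) (β := E)).tendsto (ρ, ρ)).comp
      (hlim.prodMk_nhds hlim)
  rw [ProbabilityMeasure.tendsto_iff_forall_lintegral_tendsto] at hprod
  have key : ∀ K : ℕ, ∫⁻ p, min (U (p.1 - p.2)) K ∂((ρ : Measure E).prod ρ) ≤ L := by
    intro K
    have hcont : Continuous fun p : E × E => min (U (p.1 - p.2)) (K : ℝ≥0∞) :=
      (hU.comp (continuous_fst.sub continuous_snd)).min continuous_const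
    have hfin : ∀ p : E × E, min (U (p.1 - p.2)) (K : ℝ≥0∞) ≠ ⊤ := fun p =>
      ne_top_of_le_ne_top (ENNReal.natCast_ne_top K) (min_le_right _ _)
    have hc2 : Continuous fun p : E × E => (min (U (p.1 - p.2)) (K : ℝ≥0∞)).toNNReal := by
      refine continuous_iff_continuousAt.2 fun p => ?_
      exact (ENNReal.tendsto_toNNReal (hfin p)).comp hcont.continuousAt
    let g : (E × E) →ᵇ ℝ≥0 := BoundedContinuousFunction.mkOfBound ⟨_, hc2⟩ K (by
      intro p q
      have hb : ∀ p : E × E, (min (U (p.1 - p.2)) (K : ℝ≥0∞)).toNNReal ≤ K := by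
        intro p
        have := ENNReal.toNNReal_mono (ENNReal.natCast_ne_top K)
          (min_le_right (U (p.1 - p.2)) (K : ℝ≥0∞))
        simpa using this
      rw [NNReal.dist_eq]
      have h1 := hb p
      have h2 := hb q
      have h1' : (((min (U (p.1 - p.2)) (K : ℝ≥0∞)).toNNReal : ℝ≥0) : ℝ) ≤ K := by
        exact_mod_cast h1
      have h2' : (((min (U (q.1 - q.2)) (K : ℝ≥0∞)).toNNReal : ℝ≥0) : ℝ) ≤ K := by
        exact_mod_cast h2
      have h3 : (0 : ℝ) ≤ ((min (U (p.1 - p.2)) (K : ℝ≥0∞)).toNNReal : ℝ≥0) := NNReal.coe_nonneg _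
      have h4 : (0 : ℝ) ≤ ((min (U (q.1 - q.2)) (K : ℝ≥0∞)).toNNReal : ℝ≥0) := NNReal.coe_nonneg _
      simp only [ContinuousMap.coe_mk]
      rw [abs_le]
      constructor <;> linarith)
    have hg : ∀ p, (g p : ℝ≥0∞) = min (U (p.1 - p.2)) (K : ℝ≥0∞) := fun p =>
      ENNReal.coe_toNNReal (hfin p)
    have h1 := hprod g
    simp_rw [hg] at h1
    have h2 : ∀ k, ∫⁻ p, min (U (p.1 - p.2)) (K : ℝ≥0∞) ∂((ν k).prod (ν k) : Measure (E × E)) ≤
        L + (K : ℝ≥0∞) * (n k : ℝ≥0∞)⁻¹ := by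
      intro k
      have hN : (n k : ℝ≥0∞) ≠ 0 := Nat.cast_ne_zero.2 (hn0 k)
      have hNt : (n k : ℝ≥0∞) ≠ ⊤ := ENNReal.natCast_ne_top _
      have hm : Measurable fun p : E × E => min (U (p.1 - p.2)) (K : ℝ≥0∞) := hcont.measurable
      have := isProb_emp (hn0 k) (X k) (a k)
      rw [ProbabilityMeasure.toMeasure_prod, hν k, lintegral_prod _ hm.aemeasurable]
      have hin : ∀ x, ∫⁻ y, min (U (x - y)) (K : ℝ≥0∞) ∂(emp (X k) (a k)) =
          (n k : ℝ≥0∞)⁻¹ * ∑ j, min (U (x - (X k j - a k))) (K : ℝ≥0∞) := fun x =>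
        lintegral_emp (X k) (a k) (hm.comp measurable_prodMk_left)
      simp only [hin]
      have hm2 : Measurable fun x => (n k : ℝ≥0∞)⁻¹ *
          ∑ j, min (U (x - (X k j - a k))) (K : ℝ≥0∞) := by
        refine Measurable.const_mul (Finset.measurable_sum _ fun j _ => ?_) _
        exact hm.comp (measurable_id.prodMk measurable_const)
      rw [lintegral_emp (X k) (a k) hm2]
      simp only [sub_sub_sub_cancel_right]
      rw [← Finset.mul_sum, ← mul_assoc]
      have h3 : ∑ i, ∑ j, min (U (X k i - X k j)) (K : ℝ≥0∞) ≤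
          pairSum U Finset.univ (X k) + n k * K := by
        have h4 : ∀ i : Fin (n k), ∑ j, min (U (X k i - X k j)) (K : ℝ≥0∞) ≤
            (∑ j, if i ≠ j then U (X k i - X k j) else 0) + K := by
          intro i
          have h5 : (K : ℝ≥0∞) = ∑ j : Fin (n k), if i = j then (K : ℝ≥0∞) else 0 := by simp
          conv_rhs => rw [h5]
          rw [← Finset.sum_add_distrib]
          refine Finset.sum_le_sum fun j _ => ?_
          by_cases hij : i = j
          · rw [if_neg (not_not.2 hij), if_pos hij, zero_add]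
            exact min_le_right _ _
          · rw [if_pos hij, if_neg hij, add_zero]
            exact min_le_left _ _
        refine le_trans (Finset.sum_le_sum fun i _ => h4 i) ?_
        rw [Finset.sum_add_distrib]
        unfold pairSum
        simp
      calc (n k : ℝ≥0∞)⁻¹ * (n k : ℝ≥0∞)⁻¹ * ∑ i, ∑ j, min (U (X k i - X k j)) (K : ℝ≥0∞) ≤
          (n k : ℝ≥0∞)⁻¹ * (n k : ℝ≥0∞)⁻¹ * (((n k * n k : ℕ) : ℝ≥0∞) * L + n k * K) := by
            gcongr
            refine le_trans h3 ?_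
            gcongr
            refine le_trans (hL k) ?_
            gcongr
            omega
        _ = L + (K : ℝ≥0∞) * (n k : ℝ≥0∞)⁻¹ := by
            push_cast
            rw [mul_add]
            congr 1
            · calc (n k : ℝ≥0∞)⁻¹ * (n k : ℝ≥0∞)⁻¹ * ((n k : ℝ≥0∞) * n k * L) =
                ((n k : ℝ≥0∞)⁻¹ * n k) * ((n k : ℝ≥0∞)⁻¹ * n k) * L := by ring
                _ = L := by rw [ENNReal.inv_mul_cancel hN hNt]; simp
            · calc (n k : ℝ≥0∞)⁻¹ * (n k : ℝ≥0∞)⁻¹ * ((n k : ℝ≥0∞) * K) =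
                ((n k : ℝ≥0∞)⁻¹ * n k) * (K * (n k : ℝ≥0∞)⁻¹) := by ring
                _ = _ := by rw [ENNReal.inv_mul_cancel hN hNt]; simp
    have h3 : Tendsto (fun k => L + (K : ℝ≥0∞) * (n k : ℝ≥0∞)⁻¹) atTop (𝓝 (L + K * 0)) := by
      refine Tendsto.const_add _ (ENNReal.Tendsto.const_mul ?_ (Or.inr (ENNReal.natCast_ne_top K)))
      exact ENNReal.tendsto_inv_nat_nhds_zero.comp hn
    rw [mul_zero, add_zero] at h3
    exact le_of_tendsto_of_tendsto' h1 h3 h2
  unfold pairEnergy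
  have h4 : ∀ p : E × E, U (p.1 - p.2) = ⨆ K : ℕ, min (U (p.1 - p.2)) (K : ℝ≥0∞) := by
    intro p
    refine le_antisymm ?_ (iSup_le fun K => min_le_left _ _)
    by_cases h : U (p.1 - p.2) = ⊤
    · rw [h]
      simp only [min_eq_right le_top]
      rw [ENNReal.iSup_natCast]
    · obtain ⟨K, hK⟩ := ENNReal.exists_nat_gt h
      exact le_trans (le_min le_rfl hK.le) (le_iSup (fun K : ℕ => min (U (p.1 - p.2)) (K : ℝ≥0∞)) K)
  rw [lintegral_congr h4, lintegral_iSup]
  · exact iSup_le key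
  · intro K
    exact ((hU.comp (continuous_fst.sub continuous_snd)).min continuous_const).measurable
  · intro K K' hKK p
    exact min_le_min le_rfl (by exact_mod_cast hKK)

/-- Minimizing configurations: subsequences of the recentred empirical measures converge to
minimizers of the pair energy. -/
theorem accumulation [NormedSpace ℝ E] [FiniteDimensional ℝ E] [MeasurableSpace E] [BorelSpace E]
    {U : E → ℝ≥0∞} (hU : Continuous U) (ρ0 : Measure E) [IsProbabilityMeasure ρ0]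
    {m : ℝ≥0∞} (hmtop : m ≠ ⊤) (h0 : pairEnergy U ρ0 < m) {R : ℝ} (hR : 0 < R)
    (hm : ∀ x, R ≤ ‖x‖ → m ≤ U x) (n : ℕ → ℕ) (hn : Tendsto n atTop atTop)
    (X : ∀ k, Fin (n k) → E)
    (hX : ∀ k, pairSum U Finset.univ (X k) = sMin U (n k)) :
    ∃ a : ℕ → E, ∀ φ : ℕ → ℕ, StrictMono φ → ∃ ψ : ℕ → ℕ, StrictMono ψ ∧ ∃ ρ : Measure E,
      IsProbabilityMeasure ρ ∧
      (∀ ρ' : Measure E, IsProbabilityMeasure ρ' → pairEnergy U ρ ≤ pairEnergy U ρ') ∧
      ∀ f : E →ᵇ ℝ, Tendsto (fun k => (n (φ (ψ k)) : ℝ)⁻¹ *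
        ∑ i, f (X (φ (ψ k)) i - a (φ (ψ k)))) atTop (𝓝 (∫ x, f x ∂ρ)) := by
  classical
  have : ProperSpace E := FiniteDimensional.proper_real E
  have hcenter : ∀ k, ∃ a : E, n k ≠ 0 → ∃ i, a = X k i ∧
      (n k : ℝ≥0∞) * rowSum U (X k) i ≤ pairSum U Finset.univ (X k) := by
    intro k
    by_cases h : n k = 0
    · exact ⟨0, fun h' => absurd h h'⟩
    · obtain ⟨i, hi⟩ := exists_center (Nat.one_le_iff_ne_zero.2 h) U (X k)
      exact ⟨X k i, fun _ => ⟨i, rfl, hi⟩⟩
  choose a ha using hcenter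
  refine ⟨a, fun φ hφ => ?_⟩
  have hnφ : Tendsto (fun k => n (φ k)) atTop atTop := hn.comp hφ.tendsto_atTop
  obtain ⟨k0, hk0⟩ := eventually_atTop.1 (hnφ.eventually_ge_atTop 1)
  set θ : ℕ → ℕ := fun k => φ (k + k0) with hθ
  have hθn : ∀ k, n (θ k) ≠ 0 := fun k => by
    have := hk0 (k + k0) (by omega)
    simp only [hθ]
    omega
  have hθt : Tendsto (fun k => n (θ k)) atTop atTop :=
    hnφ.comp (tendsto_add_atTop_nat k0)
  let ν : ℕ → ProbabilityMeasure E := fun k =>
    ⟨emp (X (θ k)) (a (θ k)), isProb_emp (hθn k) _ _⟩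
  have hνdef : ∀ k, (ν k : Measure E) = emp (X (θ k)) (a (θ k)) := fun k => rfl
  have htail : ∀ δ : ℝ, 0 < δ → ∃ r : ℝ, ∀ᶠ k in atTop,
      (ν k : Measure E) {x | r < ‖x‖} ≤ ENNReal.ofReal δ := by
    intro δ hδ
    obtain ⟨r, N1, hr⟩ := tail_small hU.measurable ρ0 hmtop h0 hR hm hδ
    refine ⟨r, ?_⟩
    filter_upwards [hθt.eventually_ge_atTop N1] with k hk
    obtain ⟨i, hi1, hi2⟩ := ha (θ k) (hθn k)
    rw [hνdef]
    refine emp_apply_le (hθn k) _ _ ?_ ?_
    · exact (isOpen_lt continuous_const continuous_norm).measurableSet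
    · refine le_trans ?_ (hr (n (θ k)) hk (X (θ k)) (hX _) i hi2)
      have hsub : (Finset.univ.filter fun j => X (θ k) j - a (θ k) ∈ {x : E | r < ‖x‖}) ⊆
          (Finset.univ.filter fun j => r ≤ ‖X (θ k) j - X (θ k) i‖) := by
        intro j hj
        have h1 := (Finset.mem_filter.1 hj).2
        simp only [Set.mem_ofPred_eq] at h1
        refine Finset.mem_filter.2 ⟨Finset.mem_univ _, ?_⟩
        rw [← hi1]
        exact h1.le
      exact_mod_cast Finset.card_le_card hsub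
  have htight : IsTightMeasureSet (Set.range fun k => (ν k : Measure E)) := by
    refine isTightMeasureSet_range_of_tendsto_limsup_measure_norm_gt ?_
    rw [ENNReal.tendsto_atTop_zero]
    intro ε hε
    by_cases hεt : ε = ⊤
    · exact ⟨0, fun r _ => by rw [hεt]; exact le_top⟩
    obtain ⟨r, hr⟩ := htail ε.toReal (ENNReal.toReal_pos hε.ne' hεt)
    refine ⟨r, fun r' hr' => ?_⟩
    refine Filter.limsup_le_of_le (by isBoundedDefault) ?_
    filter_upwards [hr] with k hk
    rw [ENNReal.ofReal_toReal hεt] at hk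
    refine le_trans (measure_mono fun x hx => ?_) hk
    simp only [Set.mem_ofPred_eq] at hx ⊢
    linarith
  have hcomp : IsCompact (closure (Set.range ν)) := by
    refine isCompact_closure_of_isTightMeasureSet ?_
    have : {((μ : ProbabilityMeasure E) : Measure E) | μ ∈ Set.range ν} =
        Set.range fun k => (ν k : Measure E) := by
      ext μ
      constructor
      · rintro ⟨_, ⟨k, rfl⟩, rfl⟩
        exact ⟨k, rfl⟩
      · rintro ⟨k, rfl⟩
        exact ⟨ν k, ⟨k, rfl⟩, rfl⟩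
    rw [this]
    exact htight
  obtain ⟨ρ, _, ψ0, hψ0, hlim⟩ := hcomp.isSeqCompact (x := ν)
    (fun k => subset_closure ⟨k, rfl⟩)
  refine ⟨fun k => ψ0 k + k0, fun i j hij => by simpa using hψ0 hij, (ρ : Measure E),
    inferInstance, ?_, ?_⟩
  · intro ρ' hρ'
    refine pairEnergy_le_of_tendsto hU (n := fun k => n (θ (ψ0 k))) (fun k => hθn _)
      (hθt.comp hψ0.tendsto_atTop) (fun k => X (θ (ψ0 k))) (fun k => a (θ (ψ0 k)))
      (fun k => ν (ψ0 k)) (fun k => rfl) ρ hlim _ ?_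
    intro k
    rw [hX]
    exact sMin_le_pairEnergy hU.measurable _ ρ'
  · intro f
    have h1 := (ProbabilityMeasure.tendsto_iff_forall_integral_tendsto.1 hlim) f
    refine h1.congr fun k => ?_
    exact integral_emp _ _ f

end Pool.Agent.Q91.PairMin
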