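import Mathlib

/-!
Particle systems with a pair interaction `U : E → [0,∞]`: minimal discrete energies, monotonicity,
the random sampling upper bound.
-/

open MeasureTheory Filter Topology Set
open scoped ENNReal BoundedContinuousFunction

namespace Pool.Agent.Q91.PairMin

variable {E : Type*} [NormedAddCommGroup E]

/-- Sum of `U (X i - X j)` over ordered pairs of distinct indices of `A`. -/
noncomputable def pairSum {ι : Type*} [DecidableEq ι] (U : E → ℝ≥0∞) (A : Finset ι)
    (X : ι → E) : ℝ≥0∞ :=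
  ∑ i ∈ A, ∑ j ∈ A, if i ≠ j then U (X i - X j) else 0

/-- The minimal discrete energy of `n` particles. -/
noncomputable def sMin (U : E → ℝ≥0∞) (n : ℕ) : ℝ≥0∞ :=
  ⨅ X : Fin n → E, pairSum U Finset.univ X

theorem sMin_le_pairSum {ι : Type*} [DecidableEq ι] (U : E → ℝ≥0∞) (A : Finset ι) (X : ι → E) :
    sMin U A.card ≤ pairSum U A X := by
  set e := A.equivFin.symm with he
  refine le_trans (iInf_le _ (fun i => X (e i))) (le_of_eq ?_)
  unfold pairSum
  rw [← Finset.sum_coe_sort A (fun i => ∑ j ∈ A, if i ≠ j then U (X i - X j) else 0)]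
  rw [← Equiv.sum_comp e (fun i : A => ∑ j ∈ A, if (i : ι) ≠ j then U (X i - X j) else 0)]
  refine Finset.sum_congr rfl fun i _ => ?_
  rw [← Finset.sum_coe_sort A (fun j => if ((e i : A) : ι) ≠ j then U (X (e i) - X j) else 0)]
  rw [← Equiv.sum_comp e
    (fun j : A => if ((e i : A) : ι) ≠ (j : ι) then U (X (e i) - X j) else 0)]
  refine Finset.sum_congr rfl fun j _ => ?_
  have h : (i ≠ j) ↔ (((e i : A) : ι) ≠ ((e j : A) : ι)) := by
    constructor
    · intro h h'
      exact h (e.injective (Subtype.ext h'))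
    · intro h h'
      exact h (by rw [h'])
  by_cases hij : i ≠ j
  · rw [if_pos hij, if_pos (h.1 hij)]
  · rw [if_neg hij, if_neg (fun h' => hij (h.2 h'))]

theorem sum_pairSum_erase {n : ℕ} (U : E → ℝ≥0∞) (X : Fin (n + 1) → E) :
    ∑ l, pairSum U (Finset.univ.erase l) X = ((n - 1 : ℕ) : ℝ≥0∞) * pairSum U Finset.univ X := by
  have h1 : ∀ l, pairSum U (Finset.univ.erase l) X =
      ∑ i, ∑ j, if (l ≠ i ∧ l ≠ j) then (if i ≠ j then U (X i - X j) else 0) else 0 := by
    intro l
    unfold pairSum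
    rw [← Finset.filter_ne' , Finset.sum_filter]
    refine Finset.sum_congr rfl fun i _ => ?_
    by_cases hi : i ≠ l
    · rw [if_pos hi, Finset.sum_filter]
      refine Finset.sum_congr rfl fun j _ => ?_
      by_cases hj : j ≠ l
      · rw [if_pos hj, if_pos (show l ≠ i ∧ l ≠ j from ⟨hi.symm, hj.symm⟩)]
      · rw [if_neg hj, if_neg (fun h => hj h.2.symm)]
    · rw [if_neg hi]
      refine (Finset.sum_eq_zero fun j _ => ?_).symm
      rw [if_neg (fun h => hi h.1.symm)]
  simp_rw [h1]
  rw [Finset.sum_comm]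
  unfold pairSum
  rw [Finset.mul_sum]
  refine Finset.sum_congr rfl fun i _ => ?_
  rw [Finset.sum_comm, Finset.mul_sum]
  refine Finset.sum_congr rfl fun j _ => ?_
  by_cases hij : i ≠ j
  · simp only [if_pos hij]
    rw [← Finset.sum_filter, Finset.sum_const, nsmul_eq_mul]
    congr 2
    have : (Finset.univ.filter fun l => l ≠ i ∧ l ≠ j) = (Finset.univ.erase i).erase j := by
      ext l
      simp [and_comm]
    rw [this, Finset.card_erase_of_mem (by simp [hij.symm]), Finset.card_erase_of_mem (by simp)]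
    simp
  · simp only [if_neg hij]
    simp

theorem sMin_succ {n : ℕ} (U : E → ℝ≥0∞) (hn : 1 ≤ n) :
    ((n + 1 : ℕ) : ℝ≥0∞) * sMin U n ≤ ((n - 1 : ℕ) : ℝ≥0∞) * sMin U (n + 1) := by
  by_cases h1 : n = 1
  · subst h1
    have : sMin U 1 = 0 := by
      refine le_antisymm (le_trans (iInf_le _ (fun _ => 0)) ?_) bot_le
      simp [pairSum]
    rw [this]
    simp
  have hpos : ((n - 1 : ℕ) : ℝ≥0∞) ≠ 0 := Nat.cast_ne_zero.2 (by omega)
  rw [sMin.eq_1 U (n + 1), ENNReal.mul_iInf_of_ne hpos (ENNReal.natCast_ne_top _)]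
  refine le_iInf fun X => ?_
  rw [← sum_pairSum_erase]
  calc ((n + 1 : ℕ) : ℝ≥0∞) * sMin U n = ∑ _l : Fin (n + 1), sMin U n := by
        rw [Finset.sum_const, nsmul_eq_mul]
        simp
    _ ≤ _ := by
        refine Finset.sum_le_sum fun l _ => ?_
        have := sMin_le_pairSum U (Finset.univ.erase l) X
        rwa [Finset.card_erase_of_mem (Finset.mem_univ _), Finset.card_univ, Fintype.card_fin,
          Nat.add_sub_cancel] at this

/-- Pair energy of a measure. -/
noncomputable def pairEnergy [MeasurableSpace E] (U : E → ℝ≥0∞) (ρ : Measure E) : ℝ≥0∞ :=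
  ∫⁻ p, U (p.1 - p.2) ∂(ρ.prod ρ)

theorem map_pair_pi [MeasurableSpace E] {n : ℕ} (ρ : Measure E) [IsProbabilityMeasure ρ]
    {i j : Fin n} (hij : i ≠ j) :
    (Measure.pi (fun _ : Fin n => ρ)).map (fun X => (X i, X j)) = ρ.prod ρ := by
  have h1 := ProbabilityTheory.iIndepFun_pi (μ := fun _ : Fin n => ρ)
    (X := fun _ => (id : E → E)) (fun _ => aemeasurable_id)
  have h2 := h1.indepFun hij
  have h3 := (ProbabilityTheory.indepFun_iff_map_prod_eq_prod_map_map
    (measurable_pi_apply i).aemeasurable (measurable_pi_apply j).aemeasurable).1 h2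
  rw [h3]
  change (Measure.map (Function.eval i) (Measure.pi (fun _ : Fin n => ρ))).prod
    (Measure.map (Function.eval j) (Measure.pi (fun _ : Fin n => ρ))) = _
  rw [(measurePreserving_eval (fun _ : Fin n => ρ) i).map_eq,
    (measurePreserving_eval (fun _ : Fin n => ρ) j).map_eq]

theorem sMin_le_pairEnergy [MeasurableSpace E] [BorelSpace E] [SecondCountableTopology E]
    {U : E → ℝ≥0∞} (hU : Measurable U) (n : ℕ) (ρ : Measure E) [IsProbabilityMeasure ρ] :
    sMin U n ≤ ((n * (n - 1) : ℕ) : ℝ≥0∞) * pairEnergy U ρ := by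
  set P := Measure.pi (fun _ : Fin n => ρ) with hP
  have hmeas : ∀ i j : Fin n, Measurable fun X : Fin n → E => U (X i - X j) := fun i j =>
    hU.comp ((measurable_pi_apply i).sub (measurable_pi_apply j))
  have hterm : ∀ i j : Fin n, i ≠ j → ∫⁻ X, U (X i - X j) ∂P = pairEnergy U ρ := by
    intro i j hij
    have hm : Measurable fun p : E × E => U (p.1 - p.2) :=
      hU.comp (measurable_fst.sub measurable_snd)
    have hg : Measurable fun X : Fin n → E => (X i, X j) :=
      (measurable_pi_apply i).prodMk (measurable_pi_apply j)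
    unfold pairEnergy
    rw [← map_pair_pi ρ hij, lintegral_map hm hg]
  calc sMin U n = ∫⁻ _X, sMin U n ∂P := by simp
    _ ≤ ∫⁻ X, pairSum U Finset.univ X ∂P := lintegral_mono fun X => iInf_le _ X
    _ = ∑ i : Fin n, ∑ j : Fin n, if i ≠ j then pairEnergy U ρ else 0 := by
        unfold pairSum
        rw [lintegral_finsetSum _ fun i _ => ?_]
        · refine Finset.sum_congr rfl fun i _ => ?_
          rw [lintegral_finsetSum _ fun j _ => ?_]
          · refine Finset.sum_congr rfl fun j _ => ?_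
            by_cases hij : i ≠ j
            · simp only [if_pos hij]
              exact hterm i j hij
            · simp only [if_neg hij]
              simp
          · by_cases hij : i ≠ j
            · simp only [if_pos hij]
              exact hmeas i j
            · simp only [if_neg hij]
              exact measurable_const
        · refine Finset.measurable_sum _ fun j _ => ?_
          by_cases hij : i ≠ j
          · simp only [if_pos hij]
            exact hmeas i j
          · simp only [if_neg hij]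
            exact measurable_const
    _ = _ := by
        have : ∀ i : Fin n, (∑ j : Fin n, if i ≠ j then pairEnergy U ρ else 0) =
            ((n - 1 : ℕ) : ℝ≥0∞) * pairEnergy U ρ := by
          intro i
          rw [← Finset.sum_filter, Finset.sum_const, nsmul_eq_mul]
          congr 2
          rw [Finset.filter_ne, Finset.card_erase_of_mem (Finset.mem_univ _)]
          simp
        simp_rw [this]
        rw [Finset.sum_const, nsmul_eq_mul, Finset.card_univ, Fintype.card_fin, ← mul_assoc]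
        push_cast
        rfl

/-- Row sums. -/
noncomputable def rowSum {n : ℕ} (U : E → ℝ≥0∞) (X : Fin n → E) (i : Fin n) : ℝ≥0∞ :=
  ∑ j, if i ≠ j then U (X i - X j) else 0

theorem exists_center {n : ℕ} (hn : 1 ≤ n) (U : E → ℝ≥0∞) (X : Fin n → E) :
    ∃ i, (n : ℝ≥0∞) * rowSum U X i ≤ pairSum U Finset.univ X := by
  by_contra hcon
  push Not at hcon
  have hne : (Finset.univ : Finset (Fin n)).Nonempty := ⟨⟨0, hn⟩, Finset.mem_univ _⟩
  have h1 : ∑ i : Fin n, pairSum U Finset.univ X < ∑ i : Fin n, (n : ℝ≥0∞) * rowSum U X i :=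
    ENNReal.sum_lt_sum_of_nonempty hne fun i _ => hcon i
  rw [Finset.sum_const, nsmul_eq_mul, Finset.card_univ, Fintype.card_fin, ← Finset.mul_sum] at h1
  exact lt_irrefl _ h1

theorem pairSum_mono {ι : Type*} [DecidableEq ι] (U : E → ℝ≥0∞) {A B : Finset ι} (h : A ⊆ B)
    (X : ι → E) : pairSum U A X ≤ pairSum U B X := by
  unfold pairSum
  refine le_trans (Finset.sum_le_sum fun i _ => Finset.sum_le_sum_of_subset h) ?_
  exact Finset.sum_le_sum_of_subset h

theorem pairSum_split {ι : Type*} [DecidableEq ι] {U : E → ℝ≥0∞} {m : ℝ≥0∞} {R : ℝ}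
    (hm : ∀ x, R ≤ ‖x‖ → m ≤ U x) {A B : Finset ι} (hAB : Disjoint A B) (X : ι → E)
    (hfar : ∀ i ∈ A, ∀ j ∈ B, R ≤ ‖X i - X j‖) :
    pairSum U A X + pairSum U B X + 2 * ((A.card : ℝ≥0∞) * B.card) * m ≤
      pairSum U (A ∪ B) X := by
  have hne : ∀ i ∈ A, ∀ j ∈ B, i ≠ j := fun i hi j hj hij =>
    Finset.disjoint_left.1 hAB hi (hij ▸ hj)
  have h1 : ∑ i ∈ A, ∑ j ∈ B, m ≤ ∑ i ∈ A, ∑ j ∈ B, (if i ≠ j then U (X i - X j) else 0) := by
    refine Finset.sum_le_sum fun i hi => Finset.sum_le_sum fun j hj => ?_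
    rw [if_pos (hne i hi j hj)]
    exact hm _ (hfar i hi j hj)
  have h2 : ∑ i ∈ B, ∑ j ∈ A, m ≤ ∑ i ∈ B, ∑ j ∈ A, (if i ≠ j then U (X i - X j) else 0) := by
    refine Finset.sum_le_sum fun i hi => Finset.sum_le_sum fun j hj => ?_
    rw [if_pos (hne j hj i hi).symm]
    refine hm _ ?_
    rw [norm_sub_rev]
    exact hfar j hj i hi
  simp only [Finset.sum_const, nsmul_eq_mul] at h1 h2
  unfold pairSum
  rw [Finset.sum_union hAB]
  simp_rw [Finset.sum_union hAB, Finset.sum_add_distrib]
  have h3 : 2 * ((A.card : ℝ≥0∞) * B.card) * m =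
      (A.card : ℝ≥0∞) * (B.card * m) + B.card * (A.card * m) := by ring
  rw [h3]
  calc _ = (∑ i ∈ A, ∑ j ∈ A, if i ≠ j then U (X i - X j) else 0) +
        (A.card : ℝ≥0∞) * (B.card * m) + (B.card * (A.card * m) +
        ∑ i ∈ B, ∑ j ∈ B, if i ≠ j then U (X i - X j) else 0) := by ring
    _ ≤ _ := by gcongr

theorem exists_sigma [MeasurableSpace E] [BorelSpace E] [SecondCountableTopology E]
    {U : E → ℝ≥0∞} (hU : Measurable U) (ρ0 : Measure E) [IsProbabilityMeasure ρ0]
    (h0 : pairEnergy U ρ0 ≠ ⊤) :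
    ∃ σ : ℝ, 0 ≤ σ ∧ σ ≤ (pairEnergy U ρ0).toReal ∧ (∀ n, sMin U n ≠ ⊤) ∧
      (∀ n : ℕ, (sMin U n).toReal ≤ n * (n - 1) * σ) ∧
      ∀ ε > 0, ∃ K : ℝ, 0 ≤ K ∧ ∀ n : ℕ,
        (n : ℝ) ^ 2 * (σ - ε) - n * σ - K ≤ (sMin U n).toReal := by
  have hub := fun n => sMin_le_pairEnergy hU n ρ0
  have hfin : ∀ n, sMin U n ≠ ⊤ := fun n =>
    ne_top_of_le_ne_top (ENNReal.mul_ne_top (ENNReal.natCast_ne_top _) h0) (hub n)
  have hubr : ∀ n : ℕ, (sMin U (n + 1)).toReal ≤ (n + 1) * n * (pairEnergy U ρ0).toReal := by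
    intro n
    have := ENNReal.toReal_mono (ENNReal.mul_ne_top (ENNReal.natCast_ne_top _) h0) (hub (n + 1))
    rw [ENNReal.toReal_mul, ENNReal.toReal_natCast] at this
    simpa using this
  set f : ℕ → ℝ := fun k => (sMin U (k + 2)).toReal / ((k + 2) * (k + 1)) with hf
  have hpos : ∀ k : ℕ, (0 : ℝ) < ((k : ℝ) + 2) * (k + 1) := fun k => by positivity
  have hmono : Monotone f := by
    refine monotone_nat_of_le_succ fun k => ?_
    have h1 := sMin_succ (n := k + 2) U (by omega)
    have h2 := ENNReal.toReal_mono (ENNReal.mul_ne_top (ENNReal.natCast_ne_top _) (hfin _)) h1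
    rw [ENNReal.toReal_mul, ENNReal.toReal_mul, ENNReal.toReal_natCast,
      ENNReal.toReal_natCast] at h2
    have h3 : k + 2 - 1 = k + 1 := by omega
    rw [h3] at h2
    push_cast at h2
    simp only [hf]
    push_cast
    rw [div_le_div_iff₀ (hpos k) (by positivity)]
    have e1 : k + 1 + 2 = k + 2 + 1 := by ring
    rw [e1]
    have hk : (0 : ℝ) ≤ (k : ℝ) + 2 := by positivity
    nlinarith [mul_le_mul_of_nonneg_left h2 hk]
  have hbdd : BddAbove (Set.range f) := by
    refine ⟨(pairEnergy U ρ0).toReal, ?_⟩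
    rintro _ ⟨k, rfl⟩
    simp only [hf]
    rw [div_le_iff₀ (hpos k)]
    have := hubr (k + 1)
    push_cast at this
    have e1 : k + 2 = k + 1 + 1 := by ring
    rw [e1]
    linarith
  have hf0 : ∀ k, 0 ≤ f k := fun k => div_nonneg ENNReal.toReal_nonneg (hpos k).le
  have hle : ∀ k, f k ≤ ⨆ k, f k := fun k => le_ciSup hbdd k
  have hs0 : (sMin U 0).toReal = 0 := by
    have := hub 0
    simp at this
    simp [this]
  have hs1 : (sMin U 1).toReal = 0 := by
    have := hub 1
    simp at this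
    simp [this]
  refine ⟨⨆ k, f k, le_trans (hf0 0) (hle 0), ?_, hfin, ?_, ?_⟩
  · refine ciSup_le fun k => ?_
    simp only [hf]
    rw [div_le_iff₀ (hpos k)]
    have := hubr (k + 1)
    push_cast at this
    have e1 : k + 2 = k + 1 + 1 := by ring
    rw [e1]
    linarith
  · intro n
    rcases n with _ | _ | k
    · simp [hs0]
    · simp [hs1]
    · have := hle k
      simp only [hf] at this
      rw [div_le_iff₀ (hpos k)] at this
      push_cast
      have e1 : ((k : ℝ) + 1 + 1) * (k + 1 + 1 - 1) = (k + 2) * (k + 1) := by ring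
      rw [e1]
      have e2 : k + 1 + 1 = k + 2 := by ring
      rw [e2]
      linarith
  · intro ε hε
    set σ := ⨆ k, f k with hσ
    have hσ0 : 0 ≤ σ := le_trans (hf0 0) (hle 0)
    obtain ⟨k0, hk0⟩ : ∃ k, σ - ε < f k := exists_lt_of_lt_ciSup (by rw [← hσ]; linarith)
    refine ⟨((k0 : ℝ) + 2) ^ 2 * σ, by positivity, ?_⟩
    intro n
    by_cases hn : n < k0 + 2
    · have h1 : (n : ℝ) ≤ k0 + 2 := by
        have : n ≤ k0 + 2 := hn.le
        exact_mod_cast this
      have h2 : (n : ℝ) ^ 2 * σ ≤ ((k0 : ℝ) + 2) ^ 2 * σ :=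
        mul_le_mul_of_nonneg_right (pow_le_pow_left₀ (Nat.cast_nonneg _) h1 2) hσ0
      have h3 : 0 ≤ (n : ℝ) * σ := by positivity
      have h4 : 0 ≤ (n : ℝ) ^ 2 * ε := by positivity
      have h5 : 0 ≤ (sMin U n).toReal := ENNReal.toReal_nonneg
      nlinarith
    · obtain ⟨k, rfl⟩ : ∃ k, n = k + 2 := ⟨n - 2, by omega⟩
      have h1 : σ - ε ≤ f k := le_trans hk0.le (hmono (by omega))
      simp only [hf] at h1
      rw [le_div_iff₀ (hpos k)] at h1
      push_cast
      have h3 : 0 ≤ ((k0 : ℝ) + 2) ^ 2 * σ := by positivity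
      have h4 : 0 ≤ ((k : ℝ) + 2) * ε := by positivity
      nlinarith

/-- Real inequality behind the no-splitting argument. -/
theorem real_split {σ m ε K κ δ c0 N a b c q sN sa sb : ℝ} (hσ : 0 ≤ σ) (hε : 0 ≤ ε)
    (hK : 0 ≤ K) (hN : 0 < N) (ha : 0 ≤ a) (hb : 0 ≤ b) (hc : 0 ≤ c)
    (hsum : a + b + c = N) (hsN : sN ≤ N * (N - 1) * σ)
    (hsa : a ^ 2 * (σ - ε) - a * σ - K ≤ sa) (hsb : b ^ 2 * (σ - ε) - b * σ - K ≤ sb)
    (hsplit : sa + sb + 2 * (a * b) * m ≤ sN) (hcq : q * c ≤ N) (hac : c0 * N ≤ a)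
    (hmσ : 0 < m - σ) (hκ : κ = 2 * c0 * (m - σ)) (hκ0 : 0 < κ)
    (h1 : ε ≤ κ * δ / 4) (h2 : 2 * σ ≤ κ * δ / 4 * q) (h3 : 2 * (σ + K) ≤ κ * δ / 2 * N * 1)
    (hN1 : 1 ≤ N) : b ≤ δ * N := by
  have hδ : 0 ≤ κ * δ := by nlinarith
  have e1 : N ^ 2 ≤ a ^ 2 + b ^ 2 + 2 * (a * b) + 2 * c * N := by
    rw [← hsum]
    nlinarith [mul_nonneg hc hc]
  have e2 : 2 * (a * b) * (m - σ) ≤ 2 * c * N * σ + ε * N ^ 2 + N * σ + 2 * K := by
    have h4 : a ^ 2 + b ^ 2 ≤ N ^ 2 := by
      rw [← hsum]
      nlinarith [mul_nonneg ha hb, mul_nonneg ha hc, mul_nonneg hb hc, mul_nonneg hc hc]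
    have h5 : N ^ 2 * σ ≤ (a ^ 2 + b ^ 2 + 2 * (a * b) + 2 * c * N) * σ :=
      mul_le_mul_of_nonneg_right e1 hσ
    have h6 : ε * (a ^ 2 + b ^ 2) ≤ ε * N ^ 2 := mul_le_mul_of_nonneg_left h4 hε
    have h7 : (a + b) * σ ≤ N * σ := mul_le_mul_of_nonneg_right (by linarith) hσ
    have h8 : 0 ≤ N * σ := by positivity
    nlinarith
  have e3 : 2 * c * N * σ ≤ κ * δ / 4 * N ^ 2 := by
    have h4 : 2 * σ * c ≤ κ * δ / 4 * q * c := mul_le_mul_of_nonneg_right h2 hc
    have h5 : κ * δ / 4 * (q * c) ≤ κ * δ / 4 * N :=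
      mul_le_mul_of_nonneg_left hcq (by positivity)
    have h6 : 2 * σ * c ≤ κ * δ / 4 * N := by linarith
    have := mul_le_mul_of_nonneg_right h6 hN.le
    nlinarith
  have e4 : ε * N ^ 2 ≤ κ * δ / 4 * N ^ 2 := mul_le_mul_of_nonneg_right h1 (by positivity)
  have e5 : N * σ + 2 * K ≤ κ * δ / 2 * N ^ 2 := by
    have h4 : N * σ + 2 * K ≤ N * (2 * (σ + K)) := by
      nlinarith [mul_nonneg hN.le hσ, mul_nonneg (sub_nonneg.2 hN1) hK]
    have h5 := mul_le_mul_of_nonneg_left h3 hN.le
    nlinarith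
  have e6 : κ * N * b ≤ 2 * (a * b) * (m - σ) := by
    rw [hκ]
    have h4 := mul_le_mul_of_nonneg_right hac hb
    have h5 := mul_le_mul_of_nonneg_right h4 hmσ.le
    have h6 : 2 * c0 * (m - σ) * N * b = 2 * (c0 * N * b * (m - σ)) := by ring
    rw [h6]
    linarith
  have e7 : κ * N * b ≤ κ * N * (δ * N) := by
    have h9 : κ * N * (δ * N) = κ * δ / 4 * N ^ 2 + κ * δ / 4 * N ^ 2 + κ * δ / 2 * N ^ 2 := by
      ring
    rw [h9]
    linarith
  exact le_of_mul_le_mul_left e7 (by positivity)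

/-- Tightness estimate: few particles are far from a good centre. -/
theorem tail_small [MeasurableSpace E] [BorelSpace E] [SecondCountableTopology E]
    {U : E → ℝ≥0∞} (hU : Measurable U) (ρ0 : Measure E) [IsProbabilityMeasure ρ0]
    {m : ℝ≥0∞} (hmtop : m ≠ ⊤) (h0 : pairEnergy U ρ0 < m) {R : ℝ} (hR : 0 < R)
    (hm : ∀ x, R ≤ ‖x‖ → m ≤ U x) {δ : ℝ} (hδ : 0 < δ) :
    ∃ r : ℝ, ∃ N1 : ℕ, ∀ N : ℕ, N1 ≤ N → ∀ X : Fin N → E,
      pairSum U Finset.univ X = sMin U N → ∀ i,
      (N : ℝ≥0∞) * rowSum U X i ≤ pairSum U Finset.univ X →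
      ((Finset.univ.filter fun j => r ≤ ‖X j - X i‖).card : ℝ) ≤ δ * N := by
  obtain ⟨σ, hσ0, hσI, hfin, hup, hlow⟩ := exists_sigma hU ρ0 (h0.trans_le le_top).ne
  have hσm : σ < m.toReal :=
    lt_of_le_of_lt hσI ((ENNReal.toReal_lt_toReal (h0.trans_le le_top).ne hmtop).2 h0)
  have hm0 : 0 < m.toReal := lt_of_le_of_lt hσ0 hσm
  set mr := m.toReal with hmr
  set c0 := 1 - σ / mr with hc0
  have hc0pos : 0 < c0 := by
    have : σ / mr < 1 := (div_lt_one hm0).2 hσm
    rw [hc0]
    linarith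
  set κ := 2 * c0 * (mr - σ) with hκ
  have hκ0 : 0 < κ := by
    have : 0 < mr - σ := by linarith
    positivity
  obtain ⟨K, hK0, hK⟩ := hlow (κ * δ / 4) (by positivity)
  obtain ⟨q0, hq0⟩ := exists_nat_ge (2 * σ / (κ * δ / 4))
  obtain ⟨N0, hN0⟩ := exists_nat_ge (2 * (σ + K) / (κ * δ / 2))
  set q : ℕ := q0 + 1 with hq
  refine ⟨(q + 1) * R, N0 + 1, ?_⟩
  intro N hN X hX i hi
  have hNpos : (1 : ℝ) ≤ N := by
    have : 1 ≤ N := by omega
    exact_mod_cast this
  -- the far count
  have hrow : (rowSum U X i).toReal ≤ (N - 1) * σ := by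
    have h1 : (N : ℝ) * (rowSum U X i).toReal ≤ (sMin U N).toReal := by
      have := ENNReal.toReal_mono (hfin N) (hX ▸ hi)
      rwa [ENNReal.toReal_mul, ENNReal.toReal_natCast] at this
    have h2 := hup N
    have h3 : (N : ℝ) * (rowSum U X i).toReal ≤ N * ((N - 1) * σ) := by linarith
    exact le_of_mul_le_mul_left h3 (by linarith)
  have hrowfin : rowSum U X i ≠ ⊤ := by
    intro htop
    rw [htop, hX, ENNReal.mul_top (by simp; omega)] at hi
    exact hfin N (top_le_iff.1 hi)
  have hfar : ((Finset.univ.filter fun j => R ≤ ‖X j - X i‖).card : ℝ) * mr ≤ N * σ := by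
    have h1 : ((Finset.univ.filter fun j => R ≤ ‖X j - X i‖).card : ℝ≥0∞) * m ≤
        rowSum U X i := by
      unfold rowSum
      calc ((Finset.univ.filter fun j => R ≤ ‖X j - X i‖).card : ℝ≥0∞) * m =
          ∑ j ∈ Finset.univ.filter (fun j => R ≤ ‖X j - X i‖), m := by
            rw [Finset.sum_const, nsmul_eq_mul]
        _ ≤ ∑ j ∈ Finset.univ.filter (fun j => R ≤ ‖X j - X i‖),
            (if i ≠ j then U (X i - X j) else 0) := by
            refine Finset.sum_le_sum fun j hj => ?_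
            have hj' : R ≤ ‖X j - X i‖ := (Finset.mem_filter.1 hj).2
            have hij : i ≠ j := by
              rintro rfl
              simp at hj'
              linarith
            rw [if_pos hij]
            refine hm _ ?_
            rw [norm_sub_rev]
            exact hj'
        _ ≤ _ := Finset.sum_le_sum_of_subset (Finset.filter_subset _ _)
    have h2 := ENNReal.toReal_mono hrowfin h1
    rw [ENNReal.toReal_mul, ENNReal.toReal_natCast] at h2
    have h3 : (N - 1 : ℝ) * σ ≤ N * σ := by nlinarith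
    linarith
  -- pigeonhole on annuli
  have hpig : ∃ t < q, (q : ℝ) * ((Finset.univ.filter fun j =>
      ((t : ℝ) + 1) * R ≤ ‖X j - X i‖ ∧ ‖X j - X i‖ < ((t : ℝ) + 2) * R).card : ℝ) ≤ N := by
    by_contra hcon
    push Not at hcon
    have h1 : ∑ t ∈ Finset.range q, (N : ℝ) < ∑ t ∈ Finset.range q,
        (q : ℝ) * ((Finset.univ.filter fun j =>
        ((t : ℝ) + 1) * R ≤ ‖X j - X i‖ ∧ ‖X j - X i‖ < ((t : ℝ) + 2) * R).card : ℝ) := by
      refine Finset.sum_lt_sum_of_nonempty ⟨0, Finset.mem_range.2 (by omega)⟩ fun t ht => ?_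
      exact hcon t (Finset.mem_range.1 ht)
    rw [Finset.sum_const, nsmul_eq_mul, Finset.card_range, ← Finset.mul_sum] at h1
    have h2 : ∑ t ∈ Finset.range q, ((Finset.univ.filter fun j =>
        ((t : ℝ) + 1) * R ≤ ‖X j - X i‖ ∧ ‖X j - X i‖ < ((t : ℝ) + 2) * R).card : ℝ) ≤ N := by
      have h3 : ∑ t ∈ Finset.range q, (Finset.univ.filter fun j =>
          ((t : ℝ) + 1) * R ≤ ‖X j - X i‖ ∧ ‖X j - X i‖ < ((t : ℝ) + 2) * R).card ≤ N := by
        rw [← Finset.card_biUnion]
        · refine le_trans (Finset.card_le_univ _) ?_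
          simp
        · intro t _ t' _ htt'
          rw [Function.onFun, Finset.disjoint_left]
          intro j hj hj'
          have h4 := (Finset.mem_filter.1 hj).2
          have h5 := (Finset.mem_filter.1 hj').2
          rcases lt_or_gt_of_ne htt' with h | h
          · have h6 : (t : ℝ) + 1 ≤ t' := by exact_mod_cast h
            have h7 : ((t : ℝ) + 2) * R ≤ (t' + 1) * R :=
              mul_le_mul_of_nonneg_right (by linarith) hR.le
            linarith [h4.2, h5.1]
          · have h6 : (t' : ℝ) + 1 ≤ t := by exact_mod_cast h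
            have h7 : ((t' : ℝ) + 2) * R ≤ (t + 1) * R :=
              mul_le_mul_of_nonneg_right (by linarith) hR.le
            linarith [h4.1, h5.2]
      exact_mod_cast h3
    have hqpos : (0 : ℝ) < q := by
      have : 0 < q := by omega
      exact_mod_cast this
    have h3 := mul_le_mul_of_nonneg_left h2 hqpos.le
    linarith
  obtain ⟨t, htq, ht⟩ := hpig
  set A := Finset.univ.filter fun j => ‖X j - X i‖ < ((t : ℝ) + 1) * R with hA
  set B := Finset.univ.filter fun j => ((t : ℝ) + 2) * R ≤ ‖X j - X i‖ with hB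
  set C := Finset.univ.filter fun j =>
      ((t : ℝ) + 1) * R ≤ ‖X j - X i‖ ∧ ‖X j - X i‖ < ((t : ℝ) + 2) * R with hC
  have htR : ((t : ℝ) + 1) * R < ((t : ℝ) + 2) * R := by nlinarith
  have hAB : Disjoint A B := by
    rw [Finset.disjoint_left]
    intro j hj hj'
    have h4 := (Finset.mem_filter.1 hj).2
    have h5 := (Finset.mem_filter.1 hj').2
    linarith
  have hcard : (A.card : ℝ) + B.card + C.card = N := by
    have h1 : A.card + B.card + C.card = N := by
      have h2 : (A ∪ B) ∪ C = Finset.univ := by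
        ext j
        simp only [hA, hB, hC, Finset.mem_union, Finset.mem_filter, Finset.mem_univ, true_and,
          iff_true]
        by_cases h3 : ‖X j - X i‖ < ((t : ℝ) + 1) * R
        · exact Or.inl (Or.inl h3)
        · by_cases h4 : ((t : ℝ) + 2) * R ≤ ‖X j - X i‖
          · exact Or.inl (Or.inr h4)
          · exact Or.inr ⟨not_lt.1 h3, not_le.1 h4⟩
      have h3 : Disjoint (A ∪ B) C := by
        rw [Finset.disjoint_left]
        intro j hj hj'
        have h5 := (Finset.mem_filter.1 hj').2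
        rcases Finset.mem_union.1 hj with h | h
        · have h4 := (Finset.mem_filter.1 h).2
          linarith [h5.1]
        · have h4 := (Finset.mem_filter.1 h).2
          linarith [h5.2]
      rw [← Finset.card_union_of_disjoint hAB, ← Finset.card_union_of_disjoint h3, h2]
      simp
    exact_mod_cast h1
  have hfarAB : ∀ k ∈ A, ∀ l ∈ B, R ≤ ‖X k - X l‖ := by
    intro k hk l hl
    have h4 := (Finset.mem_filter.1 hk).2
    have h5 := (Finset.mem_filter.1 hl).2
    have h6 : ‖X l - X i‖ ≤ ‖X k - X i‖ + ‖X k - X l‖ := by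
      have : X l - X i = (X k - X i) - (X k - X l) := by abel
      rw [this]
      exact norm_sub_le _ _
    nlinarith
  have hsplit := pairSum_split hm hAB X hfarAB
  have hsplit2 : sMin U A.card + sMin U B.card + 2 * ((A.card : ℝ≥0∞) * B.card) * m ≤
      sMin U N := by
    refine le_trans (add_le_add (add_le_add (sMin_le_pairSum U A X)
      (sMin_le_pairSum U B X)) le_rfl) ?_
    refine le_trans hsplit ?_
    rw [← hX]
    exact pairSum_mono U (Finset.subset_univ _) X
  have hsplit3 : (sMin U A.card).toReal + (sMin U B.card).toReal +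
      2 * ((A.card : ℝ) * B.card) * mr ≤ (sMin U N).toReal := by
    have h1 := ENNReal.toReal_mono (hfin N) hsplit2
    rw [ENNReal.toReal_add (ENNReal.add_ne_top.2 ⟨hfin _, hfin _⟩)
      (ENNReal.mul_ne_top (ENNReal.mul_ne_top (by simp)
        (ENNReal.mul_ne_top (by simp) (by simp))) hmtop),
      ENNReal.toReal_add (hfin _) (hfin _), ENNReal.toReal_mul, ENNReal.toReal_mul,
      ENNReal.toReal_mul] at h1
    simpa using h1
  have hAcard : c0 * N ≤ A.card := by
    have h1 : (N : ℝ) ≤ A.card + (Finset.univ.filter fun j => R ≤ ‖X j - X i‖).card := by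
      have h2 : N ≤ A.card + (Finset.univ.filter fun j => R ≤ ‖X j - X i‖).card := by
        have h3 : (Finset.univ : Finset (Fin N)) ⊆
            A ∪ (Finset.univ.filter fun j => R ≤ ‖X j - X i‖) := by
          intro j _
          simp only [hA, Finset.mem_union, Finset.mem_filter, Finset.mem_univ, true_and]
          by_cases h4 : R ≤ ‖X j - X i‖
          · exact Or.inr h4
          · left
            have : (0 : ℝ) ≤ t := Nat.cast_nonneg _
            nlinarith
        have := Finset.card_le_card h3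
        rw [Finset.card_univ, Fintype.card_fin] at this
        exact le_trans this (Finset.card_union_le _ _)
      exact_mod_cast h2
    have h2 : ((Finset.univ.filter fun j => R ≤ ‖X j - X i‖).card : ℝ) ≤ N * (σ / mr) := by
      rw [← mul_div_assoc, le_div_iff₀ hm0]
      exact hfar
    rw [hc0]
    nlinarith
  have hfinal : (B.card : ℝ) ≤ δ * N := by
    have hq' : (0 : ℝ) < q := by
      have : 0 < q := by omega
      exact_mod_cast this
    refine real_split (σ := σ) (m := mr) (ε := κ * δ / 4) (K := K) (κ := κ) (δ := δ) (c0 := c0)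
      (N := N) (a := A.card) (b := B.card) (c := C.card) (q := q) (sN := (sMin U N).toReal)
      (sa := (sMin U A.card).toReal) (sb := (sMin U B.card).toReal) hσ0 (by positivity) hK0
      (by linarith) (by positivity) (by positivity) (by positivity) hcard (hup N) (hK _) (hK _)
      hsplit3 ht hAcard (by linarith) hκ hκ0 le_rfl ?_ ?_ hNpos
    · have h1 : 2 * σ / (κ * δ / 4) ≤ q := le_trans hq0 (by rw [hq]; push_cast; linarith)
      rw [div_le_iff₀ (by positivity)] at h1
      linarith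
    · have h1 : 2 * (σ + K) / (κ * δ / 2) ≤ N := by
        refine le_trans hN0 ?_
        have : N0 ≤ N := by omega
        exact_mod_cast this
      rw [div_le_iff₀ (by positivity)] at h1
      linarith
  refine le_trans ?_ hfinal
  have hsub : (Finset.univ.filter fun j => ((q : ℝ) + 1) * R ≤ ‖X j - X i‖) ⊆ B := by
    intro j hj
    have h4 := (Finset.mem_filter.1 hj).2
    refine Finset.mem_filter.2 ⟨Finset.mem_univ _, le_trans ?_ h4⟩
    have h5 : (t : ℝ) + 1 ≤ q := by exact_mod_cast htq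
    exact mul_le_mul_of_nonneg_right (by linarith) hR.le
  exact_mod_cast Finset.card_le_card hsub

end Pool.Agent.Q91.PairMin
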