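import Mathlib
import Pool.Agent.Q91.ExpSys

/-!
# An almost parabolic system of Möbius maps of `[0, 1]` with dimension at least `7/11`
-/

open Set Filter Topology
open scoped ENNReal NNReal

namespace Q91.ParaMob

/-- The smallest parameter `2 + 10^{-8}`. -/
noncomputable def d : ℝ := 2 + 1 / 10 ^ 8

/-- Denominators: `u 0 = 0`, `u 1 = 1`, `u (n + 2) = d u (n + 1) - u n`. -/
noncomputable def u : ℕ → ℝ
  | 0 => 0
  | 1 => 1
  | (n + 2) => d * u (n + 1) - u n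

lemma u_zero : u 0 = 0 := rfl
lemma u_one : u 1 = 1 := rfl
lemma u_succ (n : ℕ) : u (n + 2) = d * u (n + 1) - u n := rfl

lemma u_det (n : ℕ) : u (n + 1) ^ 2 - u n * u (n + 2) = 1 := by
  induction n with
  | zero => rw [u_zero, u_one]; norm_num
  | succ n ih =>
    have h1 := u_succ n
    have h2 := u_succ (n + 1)
    have e : u (n + 1 + 1) ^ 2 - u (n + 1) * u (n + 1 + 2)
        = u (n + 1) ^ 2 - u n * u (n + 2) := by
      rw [h2, show n + 1 + 1 = n + 2 by ring]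
      linear_combination (u (n + 2)) * h1
    rw [e, ih]

lemma u_bounds (n : ℕ) (hn : n ≤ 1005) : (n : ℝ) ≤ u n ∧ u n ≤ 102 / 100 * n ∧
    1 ≤ u (n + 1) - u n ∧ u (n + 1) - u n ≤ 1 + n * (103 / 10 ^ 7) := by
  induction n with
  | zero => rw [u_zero, u_one]; norm_num
  | succ n ih =>
    obtain ⟨h1, h2, h3, h4⟩ := ih (by omega)
    have h5 : u (n + 1 + 1) - u (n + 1) = (u (n + 1) - u n) + 1 / 10 ^ 8 * u (n + 1) := by
      rw [show n + 1 + 1 = n + 2 by ring, u_succ, d]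
      ring
    have hn' : (n : ℝ) ≤ 1004 := by exact_mod_cast (by omega : n ≤ 1004)
    have hn0 : (0 : ℝ) ≤ n := Nat.cast_nonneg n
    have h6 : u (n + 1) ≤ 102 / 100 * (n + 1) := by
      have : (n : ℝ) * (103 / 10 ^ 7) ≤ 2 / 100 := by
        have := mul_le_mul_of_nonneg_right hn' (by norm_num : (0 : ℝ) ≤ 103 / 10 ^ 7)
        norm_num at this ⊢
        linarith
      linarith
    have h7 : (n : ℝ) + 1 ≤ u (n + 1) := by linarith
    push_cast
    refine ⟨h7, h6, ?_, ?_⟩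
    · rw [h5]
      have : (0 : ℝ) ≤ 1 / 10 ^ 8 * u (n + 1) := by
        apply mul_nonneg (by norm_num); linarith
      linarith
    · rw [h5]
      have h8 : (1 / 10 ^ 8 : ℝ) * u (n + 1) ≤ 1 / 10 ^ 8 * (102 / 100 * 1005) := by
        apply mul_le_mul_of_nonneg_left _ (by norm_num)
        linarith
      norm_num at h8 h4 ⊢
      linarith

lemma u_pos (n : ℕ) (hn : n ≤ 1004) : 0 < u (n + 1) := by
  have := (u_bounds (n + 1) (by omega)).1
  push_cast at this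
  have hn0 : (0 : ℝ) ≤ n := Nat.cast_nonneg n
  linarith

lemma u_nonneg (n : ℕ) (hn : n ≤ 1005) : 0 ≤ u n := by
  have := (u_bounds n hn).1
  have hn0 : (0 : ℝ) ≤ n := Nat.cast_nonneg n
  linarith

/-- The maps `ψ_n = φ_1^n φ_0`. -/
noncomputable def ψ (n : ℕ) (x : ℝ) : ℝ := (u (n + 1) + u n * x) / (u (n + 2) + u (n + 1) * x)

lemma den_pos {n : ℕ} (hn : n ≤ 1003) {x : ℝ} (hx : 0 ≤ x) : 0 < u (n + 2) + u (n + 1) * x := by
  have h1 := u_pos (n + 1) (by omega)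
  have h2 := u_nonneg (n + 1) (by omega)
  have := mul_nonneg h2 hx
  linarith

lemma ψ_zero (x : ℝ) : ψ 0 x = 1 / (d + x) := by
  unfold ψ
  rw [show (0 + 1 : ℕ) = 1 from rfl, show (0 + 2 : ℕ) = 2 from rfl]
  have : u 2 = d := by rw [show (2 : ℕ) = 0 + 2 from rfl, u_succ, u_zero, u_one]; ring
  rw [this, u_zero, u_one]
  ring

lemma d_pos : 0 < d := by unfold d; positivity

lemma ψ_mem {n : ℕ} (hn : n ≤ 1003) {x : ℝ} (hx : x ∈ Icc (0 : ℝ) 1) : ψ n x ∈ Icc (0 : ℝ) 1 := by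
  have hD := den_pos hn hx.1
  have h1 := u_nonneg n (by omega)
  have h2 := u_nonneg (n + 1) (by omega)
  have h3 := (u_bounds n (by omega)).2.2.1
  have h4 := (u_bounds (n + 1) (by omega)).2.2.1
  rw [show n + 1 + 1 = n + 2 by ring] at h4
  unfold ψ
  constructor
  · apply div_nonneg _ hD.le
    have := mul_nonneg h1 hx.1
    linarith
  · rw [div_le_one hD]
    have : u n * x ≤ u (n + 1) * x := mul_le_mul_of_nonneg_right (by linarith) hx.1
    linarith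

lemma ψ_succ {n : ℕ} (hn : n ≤ 1002) {x : ℝ} (hx : x ∈ Icc (0 : ℝ) 1) :
    ψ (n + 1) x = 1 / (d - ψ n x) := by
  have hD := den_pos (n := n) (by omega) hx.1
  have hD' := den_pos (n := n + 1) (by omega) hx.1
  rw [show n + 1 + 2 = n + 3 by ring, show n + 1 + 1 = n + 2 by ring] at hD'
  have e : d - ψ n x = (u (n + 3) + u (n + 2) * x) / (u (n + 2) + u (n + 1) * x) := by
    unfold ψ
    rw [eq_div_iff hD.ne', sub_mul, div_mul_cancel₀ _ hD.ne']
    have h1 : u (n + 3) = d * u (n + 2) - u (n + 1) := u_succ (n + 1)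
    have h2 : u (n + 2) = d * u (n + 1) - u n := u_succ n
    linear_combination -h1 - x * h2
  rw [e, one_div_div]
  unfold ψ
  rw [show n + 1 + 2 = n + 3 by ring, show n + 1 + 1 = n + 2 by ring]

lemma ψ_sub {n : ℕ} (hn : n ≤ 1003) {x y : ℝ} (hx : x ∈ Icc (0 : ℝ) 1) (hy : y ∈ Icc (0 : ℝ) 1) :
    ψ n x - ψ n y = (y - x) / ((u (n + 2) + u (n + 1) * x) * (u (n + 2) + u (n + 1) * y)) := by
  have h1 := den_pos hn hx.1
  have h2 := den_pos hn hy.1
  unfold ψ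
  rw [div_sub_div _ _ h1.ne' h2.ne']
  congr 1
  linear_combination (y - x) * u_det n

/-- The lower Lipschitz constants. -/
noncomputable def r (n : ℕ) : ℝ := ((102 / 100 * (2 * n + 3)) ^ 2)⁻¹

lemma r_pos (n : ℕ) : 0 < r n := by unfold r; positivity

lemma den_le {n : ℕ} (hn : n ≤ 1003) {x : ℝ} (hx : x ∈ Icc (0 : ℝ) 1) :
    u (n + 2) + u (n + 1) * x ≤ 102 / 100 * (2 * n + 3) := by
  have h1 := (u_bounds (n + 1) (by omega)).2.1
  have h2 := (u_bounds (n + 2) (by omega)).2.1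
  have h3 := u_nonneg (n + 1) (by omega)
  have h4 : u (n + 1) * x ≤ u (n + 1) * 1 := mul_le_mul_of_nonneg_left hx.2 h3
  push_cast at h1 h2
  linarith

lemma ψ_lower {n : ℕ} (hn : n ≤ 1003) {x y : ℝ} (hx : x ∈ Icc (0 : ℝ) 1)
    (hy : y ∈ Icc (0 : ℝ) 1) : r n * dist x y ≤ dist (ψ n x) (ψ n y) := by
  have h1 := den_pos hn hx.1
  have h2 := den_pos hn hy.1
  rw [Real.dist_eq, Real.dist_eq, ψ_sub hn hx hy, abs_div, abs_of_pos (mul_pos h1 h2),
    abs_sub_comm y x, div_eq_inv_mul]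
  apply mul_le_mul_of_nonneg_right _ (abs_nonneg _)
  unfold r
  apply inv_anti₀ (mul_pos h1 h2)
  rw [sq]
  exact mul_le_mul (den_le hn hx) (den_le hn hy) h2.le (by positivity)

lemma ψ_anti {n : ℕ} (hn : n ≤ 1003) {x y : ℝ} (hx : x ∈ Icc (0 : ℝ) 1) (hy : y ∈ Icc (0 : ℝ) 1)
    (hxy : x ≤ y) : ψ n y ≤ ψ n x := by
  have h := ψ_sub hn hx hy
  have h1 := den_pos hn hx.1
  have h2 := den_pos hn hy.1
  have : 0 ≤ (y - x) / ((u (n + 2) + u (n + 1) * x) * (u (n + 2) + u (n + 1) * y)) :=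
    div_nonneg (by linarith) (mul_pos h1 h2).le
  linarith

/-- The gap between consecutive images. -/
lemma ψ_gap {n : ℕ} (hn : n ≤ 1000) : ψ n 0 + 1 / 10 ^ 7 ≤ ψ (n + 1) 1 := by
  have h1 := u_pos (n + 1) (by omega)
  have h2 := u_pos (n + 2) (by omega)
  rw [show n + 1 + 1 = n + 2 by ring] at h1
  rw [show n + 2 + 1 = n + 3 by ring] at h2
  have hdet : u (n + 2) ^ 2 - u (n + 1) * u (n + 3) = 1 := u_det (n + 1)
  have e : ψ (n + 1) 1 - ψ n 0 = 1 / ((u (n + 3) + u (n + 2)) * u (n + 2)) := by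
    unfold ψ
    rw [show n + 1 + 2 = n + 3 by ring, show n + 1 + 1 = n + 2 by ring]
    rw [mul_zero, mul_zero, mul_one, mul_one, add_zero, add_zero]
    rw [div_sub_div _ _ (by positivity) h1.ne']
    congr 1
    linear_combination hdet
  have h3 := (u_bounds (n + 2) (by omega)).2.1
  have h4 := (u_bounds (n + 3) (by omega)).2.1
  push_cast at h3 h4
  have hn' : (n : ℝ) ≤ 1000 := by exact_mod_cast hn
  have h5 : (u (n + 3) + u (n + 2)) * u (n + 2) ≤ 10 ^ 7 := by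
    have h6 : u (n + 3) + u (n + 2) ≤ 2046 := by linarith
    have h7 : u (n + 2) ≤ 1023 := by linarith
    calc (u (n + 3) + u (n + 2)) * u (n + 2) ≤ 2046 * 1023 :=
          mul_le_mul h6 h7 h1.le (by norm_num)
      _ ≤ 10 ^ 7 := by norm_num
  have h8 : (1 : ℝ) / 10 ^ 7 ≤ 1 / ((u (n + 3) + u (n + 2)) * u (n + 2)) := by
    apply one_div_le_one_div_of_le (by positivity) h5
  linarith

lemma zero_mem : (0 : ℝ) ∈ Icc (0 : ℝ) 1 := ⟨le_rfl, zero_le_one⟩
lemma one_mem : (1 : ℝ) ∈ Icc (0 : ℝ) 1 := ⟨zero_le_one, le_rfl⟩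

lemma ψ_sep' {n : ℕ} : ∀ m, n < m → m ≤ 1001 → ψ n 0 + 1 / 10 ^ 7 ≤ ψ m 1 := by
  intro m hnm hm
  induction m, hnm using Nat.le_induction with
  | base => exact ψ_gap (by omega)
  | succ m hnm ih =>
    have h1 := ih (by omega)
    have h2 : ψ m 0 + 1 / 10 ^ 7 ≤ ψ (m + 1) 1 := ψ_gap (by omega)
    have h3 := ψ_anti (n := m) (by omega) zero_mem one_mem zero_le_one
    norm_num at h1 h2 h3 ⊢
    linarith

lemma ψ_sep {n m : ℕ} (hn : n ≤ 1001) (hm : m ≤ 1001) (hne : n ≠ m) {x y : ℝ}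
    (hx : x ∈ Icc (0 : ℝ) 1) (hy : y ∈ Icc (0 : ℝ) 1) : 1 / 10 ^ 7 ≤ dist (ψ n x) (ψ m y) := by
  have key : ∀ n m : ℕ, n < m → n ≤ 1001 → m ≤ 1001 → ∀ x ∈ Icc (0 : ℝ) 1, ∀ y ∈ Icc (0 : ℝ) 1,
      1 / 10 ^ 7 ≤ ψ m y - ψ n x := by
    intro n m hnm hn hm x hx y hy
    have h1 := ψ_sep' m hnm hm
    have h2 := ψ_anti (n := m) (by omega) hy one_mem hy.2
    have h3 := ψ_anti (n := n) (by omega) zero_mem hx hx.1
    linarith
  rw [Real.dist_eq]
  rcases lt_or_gt_of_ne hne with h | h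
  · rw [abs_sub_comm]
    exact (key n m h hn hm x hx y hy).trans (le_abs_self _)
  · exact (key m n h hm hn y hy x hx).trans (le_abs_self _)

/-! ### The sum -/

lemma telescope {β t : ℝ} (hβ0 : 0 < β) (hβ1 : β ≤ 1) (ht : 2 < t) :
    (t ^ (-β) - (t + 2) ^ (-β)) / (2 * β) ≤ t ^ (-(1 + β)) := by
  have ht0 : 0 < t := by linarith
  have h1 : (1 + 2 / t) ^ β ≤ 1 + β * (2 / t) :=
    rpow_one_add_le_one_add_mul_self (by have : 0 < 2 / t := by positivity
                                         linarith) hβ0.le hβ1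
  have h2 : 0 < (1 + 2 / t) ^ β := Real.rpow_pos_of_pos (by positivity) β
  have h3 : 1 - β * (2 / t) ≤ ((1 + 2 / t) ^ β)⁻¹ := by
    rw [le_inv_comm₀ (by
      have : β * (2 / t) < 1 := by
        have h4 : 2 / t < 1 := by rw [div_lt_one ht0]; exact ht
        have h5 : 0 < 2 / t := by positivity
        nlinarith
      linarith) h2]
    refine h1.trans ?_
    have h4 : 0 < β * (2 / t) := by positivity
    have h5 : β * (2 / t) < 1 := by
      have h6 : 2 / t < 1 := by rw [div_lt_one ht0]; exact ht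
      have h7 : 0 < 2 / t := by positivity
      nlinarith
    rw [le_inv_comm₀ (by linarith) (by linarith)]
    rw [inv_eq_one_div, le_div_iff₀ (by linarith)]
    nlinarith
  have e1 : (t + 2) ^ (-β) = t ^ (-β) * ((1 + 2 / t) ^ β)⁻¹ := by
    rw [← Real.rpow_neg (by positivity), ← Real.mul_rpow ht0.le (by positivity)]
    congr 1
    field_simp
  have e2 : t ^ (-(1 + β)) = t ^ (-β) * (1 / t) := by
    rw [show -(1 + β) = -β + (-1) by ring, Real.rpow_add ht0, Real.rpow_neg_one, one_div]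
  rw [e1, e2, div_le_iff₀ (by positivity)]
  have h6 : 0 < t ^ (-β) := Real.rpow_pos_of_pos ht0 _
  have h7 : t ^ (-β) * (1 - β * (2 / t)) ≤ t ^ (-β) * ((1 + 2 / t) ^ β)⁻¹ :=
    mul_le_mul_of_nonneg_left h3 h6.le
  have e3 : t ^ (-β) * (1 / t) * (2 * β) = t ^ (-β) * (β * (2 / t)) := by ring
  rw [e3]
  linarith

lemma sum_lower (N : ℕ) : ((3 : ℝ) ^ (-(3 / 11) : ℝ) - (2 * N + 3) ^ (-(3 / 11) : ℝ)) / (2 * (3 / 11))
    ≤ ∑ n ∈ Finset.range N, ((2 : ℝ) * n + 3) ^ (-(1 + 3 / 11) : ℝ) := by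
  induction N with
  | zero => norm_num
  | succ N ih =>
    rw [Finset.sum_range_succ]
    have hN : (0 : ℝ) ≤ N := Nat.cast_nonneg N
    have h1 := telescope (β := 3 / 11) (t := 2 * N + 3) (by norm_num) (by norm_num)
      (by linarith)
    have e : ((2 : ℝ) * ((N + 1 : ℕ) : ℝ) + 3) = 2 * N + 3 + 2 := by push_cast; ring
    rw [e]
    have e2 : ((3 : ℝ) ^ (-(3 / 11) : ℝ) - (2 * N + 3 + 2) ^ (-(3 / 11) : ℝ)) / (2 * (3 / 11))
        = ((3 : ℝ) ^ (-(3 / 11) : ℝ) - (2 * N + 3) ^ (-(3 / 11) : ℝ)) / (2 * (3 / 11))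
          + ((2 * N + 3 : ℝ) ^ (-(3 / 11) : ℝ) - (2 * N + 3 + 2) ^ (-(3 / 11) : ℝ))
            / (2 * (3 / 11)) := by ring
    rw [e2]
    exact add_le_add ih h1

lemma rpow_eleven {x : ℝ} (hx : 0 ≤ x) (k : ℕ) : (x ^ (-((k : ℝ) / 11) : ℝ)) ^ 11 = (x ^ k)⁻¹ := by
  rw [← Real.rpow_natCast, ← Real.rpow_mul hx]
  have : -((k : ℝ) / 11) * ((11 : ℕ) : ℝ) = -(k : ℝ) := by push_cast; ring
  rw [this, Real.rpow_neg hx, Real.rpow_natCast]

lemma r_rpow (n : ℕ) : r n ^ (7 / 11 : ℝ)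
    = (102 / 100 : ℝ) ^ (-(14 / 11) : ℝ) * ((2 : ℝ) * n + 3) ^ (-(1 + 3 / 11) : ℝ) := by
  unfold r
  have h0 : (0 : ℝ) ≤ 2 * n + 3 := by positivity
  rw [← Real.rpow_natCast, ← Real.rpow_neg (by positivity), ← Real.rpow_mul (by positivity),
    Real.mul_rpow (by norm_num) h0]
  congr 2 <;> norm_num

lemma sum_ge_one : 1 ≤ ∑ n ∈ Finset.range 1001, r n ^ (7 / 11 : ℝ) := by
  rw [Finset.sum_congr rfl (fun n _ => r_rpow n), ← Finset.mul_sum]
  have h1 : (97 / 100 : ℝ) ≤ (102 / 100 : ℝ) ^ (-(14 / 11) : ℝ) := by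
    refine le_of_pow_le_pow_left₀ (n := 11) (by norm_num) (Real.rpow_nonneg (by norm_num) _) ?_
    have e := rpow_eleven (x := 102 / 100) (by norm_num) 14
    push_cast at e
    rw [e]
    norm_num
  have h2 : (74 / 100 : ℝ) ≤ (3 : ℝ) ^ (-(3 / 11) : ℝ) := by
    refine le_of_pow_le_pow_left₀ (n := 11) (by norm_num) (Real.rpow_nonneg (by norm_num) _) ?_
    have e := rpow_eleven (x := 3) (by norm_num) 3
    push_cast at e
    rw [e]
    norm_num
  have h3 : ((2 : ℝ) * (1001 : ℕ) + 3) ^ (-(3 / 11) : ℝ) ≤ 13 / 100 := by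
    refine le_of_pow_le_pow_left₀ (n := 11) (by norm_num) (by norm_num) ?_
    have e := rpow_eleven (x := (2 : ℝ) * (1001 : ℕ) + 3) (by norm_num) 3
    push_cast at e ⊢
    rw [e]
    norm_num
  have h4 := sum_lower 1001
  have h5 : (61 / 100 : ℝ) / (2 * (3 / 11)) ≤
      ∑ n ∈ Finset.range 1001, ((2 : ℝ) * n + 3) ^ (-(1 + 3 / 11) : ℝ) := by
    refine le_trans ?_ h4
    apply div_le_div_of_nonneg_right _ (by norm_num)
    linarith
  calc (1 : ℝ) ≤ 97 / 100 * ((61 / 100 : ℝ) / (2 * (3 / 11))) := by norm_num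
    _ ≤ _ := mul_le_mul h1 h5 (by norm_num) (Real.rpow_nonneg (by norm_num) _)

lemma ψ_cont {n : ℕ} (hn : n ≤ 1003) : ContinuousOn (ψ n) (Icc 0 1) := by
  unfold ψ
  apply ContinuousOn.div (by fun_prop) (by fun_prop)
  intro x hx
  exact (den_pos hn hx.1).ne'

lemma r_lt_one (n : ℕ) : r n < 1 := by
  unfold r
  apply inv_lt_one_of_one_lt₀
  have hn : (0 : ℝ) ≤ n := Nat.cast_nonneg n
  nlinarith

lemma le_dimH : ENNReal.ofReal (7 / 11) ≤
    dimH (ExpSys.limitSet ψ (Icc (0 : ℝ) 1) ((Finset.range 1001 : Finset ℕ) : Set ℕ)) := by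
  have hlt : ∀ n ∈ Finset.range 1001, n ≤ 1000 := fun n hn => by
    have := Finset.mem_range.1 hn
    omega
  refine ExpSys.ofReal_le_dimH_limitSet (r := r) (δ := 1 / 10 ^ 7) isCompact_Icc ⟨0, zero_mem⟩
    (fun n hn x hx => ψ_mem (n := n) (by have := hlt n hn; omega) hx)
    (fun n hn => ψ_cont (by have := hlt n hn; omega))
    (fun n _ => r_pos n) (fun n _ => r_lt_one n)
    (fun n hn x hx y hy => ψ_lower (n := n) (by have := hlt n hn; omega) hx hy) (by positivity)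
    (fun n hn m hm hne x hx y hy => ψ_sep (n := n) (m := m) (by have := hlt n hn; omega)
      (by have := hlt m hm; omega) hne hx hy) (by norm_num) sum_ge_one

end Q91.ParaMob
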