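import Mathlib

/-!
# Regularity of almost multiplicative families of weights on words
-/

open Set Filter Topology
open scoped ENNReal NNReal

namespace Q91.Pressure

variable {I : Type*}

/-- The partition function. -/
noncomputable def Z (σ : List I → ℝ) (N : ℕ) (t : ℝ) : ℝ≥0∞ :=
  ∑' w : Fin N → I, ENNReal.ofReal (σ (List.ofFn w) ^ t)

lemma Z_add (σ : List I → ℝ) (N M : ℕ) (t : ℝ) : Z σ (N + M) t =
    ∑' w : Fin N → I, ∑' v : Fin M → I, ENNReal.ofReal (σ (List.ofFn w ++ List.ofFn v) ^ t) := by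
  unfold Z
  rw [← (Fin.appendEquiv N M).tsum_eq, ENNReal.tsum_prod']
  congr 1
  ext w
  congr 1
  ext v
  rw [← List.ofFn_fin_append]
  rfl

structure Mult (σ : List I → ℝ) (K : ℝ) : Prop where
  K1 : 1 ≤ K
  pos : ∀ l, 0 < σ l
  le_one : ∀ l, σ l ≤ 1
  sub : ∀ l l', σ (l ++ l') ≤ σ l * σ l'
  sup : ∀ l l', σ l * σ l' ≤ K * σ (l ++ l')

variable {σ : List I → ℝ} {K : ℝ}

lemma Z_sub (h : Mult σ K) (N M : ℕ) {t : ℝ} (ht : 0 ≤ t) :
    Z σ (N + M) t ≤ Z σ N t * Z σ M t := by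
  rw [Z_add]
  unfold Z
  rw [← ENNReal.tsum_mul_right]
  refine ENNReal.tsum_le_tsum fun w => ?_
  rw [← ENNReal.tsum_mul_left]
  refine ENNReal.tsum_le_tsum fun v => ?_
  rw [← ENNReal.ofReal_mul (Real.rpow_nonneg (h.pos _).le t),
    ← Real.mul_rpow (h.pos _).le (h.pos _).le]
  exact ENNReal.ofReal_le_ofReal (Real.rpow_le_rpow (h.pos _).le (h.sub _ _) ht)

lemma Z_sup (h : Mult σ K) (N M : ℕ) {t : ℝ} (ht : 0 ≤ t) :
    Z σ N t * Z σ M t ≤ ENNReal.ofReal (K ^ t) * Z σ (N + M) t := by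
  have hK : 0 ≤ K := by linarith [h.K1]
  rw [Z_add]
  unfold Z
  rw [← ENNReal.tsum_mul_right, ← ENNReal.tsum_mul_left]
  refine ENNReal.tsum_le_tsum fun w => ?_
  rw [← ENNReal.tsum_mul_left, ← ENNReal.tsum_mul_left]
  refine ENNReal.tsum_le_tsum fun v => ?_
  rw [← ENNReal.ofReal_mul (Real.rpow_nonneg (h.pos _).le t),
    ← Real.mul_rpow (h.pos _).le (h.pos _).le, ← ENNReal.ofReal_mul (Real.rpow_nonneg hK t),
    ← Real.mul_rpow hK (h.pos _).le]
  exact ENNReal.ofReal_le_ofReal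
    (Real.rpow_le_rpow (mul_nonneg (h.pos _).le (h.pos _).le) (h.sup _ _) ht)

lemma Z_mono (h : Mult σ K) (N : ℕ) {t t' : ℝ} (htt : t ≤ t') : Z σ N t' ≤ Z σ N t :=
  ENNReal.tsum_le_tsum fun w => ENNReal.ofReal_le_ofReal
    (Real.rpow_le_rpow_of_exponent_ge (h.pos _) (h.le_one _) htt)

lemma Z_pow_le (h : Mult σ K) (M : ℕ) {t : ℝ} (ht : 0 ≤ t) (k : ℕ) (hk : 1 ≤ k) :
    Z σ (k * M) t ≤ Z σ M t ^ k := by
  induction k, hk using Nat.le_induction with
  | base => rw [one_mul, pow_one]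
  | succ k _ ih =>
    rw [add_mul, one_mul, pow_succ]
    exact (Z_sub h _ _ ht).trans (mul_le_mul_left ih _)

lemma Z_pow_ge (h : Mult σ K) (N : ℕ) {t : ℝ} (ht : 0 ≤ t) (k : ℕ) (hk : 1 ≤ k) :
    Z σ N t ^ k ≤ ENNReal.ofReal (K ^ t) ^ (k - 1) * Z σ (k * N) t := by
  induction k, hk using Nat.le_induction with
  | base => simp
  | succ k hk ih =>
    have e : k + 1 - 1 = (k - 1) + 1 := by omega
    rw [e, pow_succ, pow_succ, add_mul, one_mul]
    calc Z σ N t ^ k * Z σ N t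
        ≤ (ENNReal.ofReal (K ^ t) ^ (k - 1) * Z σ (k * N) t) * Z σ N t := mul_le_mul_left ih _
      _ = ENNReal.ofReal (K ^ t) ^ (k - 1) * (Z σ (k * N) t * Z σ N t) := mul_assoc _ _ _
      _ ≤ ENNReal.ofReal (K ^ t) ^ (k - 1) * (ENNReal.ofReal (K ^ t) * Z σ (k * N + N) t) :=
          mul_le_mul_right (Z_sup h _ _ ht) _
      _ = _ := by ring

lemma Z_ne_top (h : Mult σ K) {t : ℝ} (ht : 0 ≤ t) (h1 : Z σ 1 t ≠ ⊤) (N : ℕ) :
    Z σ N t ≠ ⊤ := by
  rcases Nat.eq_zero_or_pos N with rfl | hN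
  · unfold Z
    rw [tsum_fintype]
    exact ENNReal.sum_ne_top.2 fun _ _ => ENNReal.ofReal_ne_top
  · have := Z_pow_le h 1 ht N hN
    rw [mul_one] at this
    exact (this.trans_lt (ENNReal.pow_lt_top (lt_top_iff_ne_top.2 h1))).ne

/-- **Regularity**: there is a parameter at which the partition functions stay bounded away from
`0` and `∞`. -/
theorem exists_regular (h : Mult σ K) (hfin : ∀ t : ℝ, 0 < t → Z σ 1 t ≠ ⊤)
    {i j : I} (hij : i ≠ j) {t₁ : ℝ} (ht₁ : 0 < t₁) (hsmall : Z σ 1 t₁ < 1) :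
    ∃ t : ℝ, 0 < t ∧ ∀ N, 1 ≤ N → 1 ≤ Z σ N t ∧ Z σ N t ≤ ENNReal.ofReal (K ^ t) := by
  have hK0 : 0 < K := by linarith [h.K1]
  obtain ⟨A, hA⟩ : ∃ A : Set ℝ, A = {t | 0 < t ∧ ∃ N, 1 ≤ N ∧ Z σ N t < 1} := ⟨_, rfl⟩
  have hAne : A.Nonempty := ⟨t₁, by rw [hA]; exact ⟨ht₁, 1, le_rfl, hsmall⟩⟩
  have hAup : ∀ t ∈ A, ∀ t', t ≤ t' → t' ∈ A := by
    intro t ht t' htt
    rw [hA] at ht ⊢
    obtain ⟨h0, N, hN, h1⟩ := ht
    exact ⟨h0.trans_le htt, N, hN, (Z_mono h N htt).trans_lt h1⟩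
  -- a positive lower bound
  obtain ⟨t₀, ht₀, ht₀A⟩ : ∃ t₀ : ℝ, 0 < t₀ ∧ t₀ ∉ A := by
    have hcont : ContinuousAt (fun t : ℝ => σ [i] ^ t + σ [j] ^ t - K ^ t) 0 := by
      have h1 := (Real.continuous_const_rpow (h.pos [i]).ne').continuousAt (x := 0)
      have h2 := (Real.continuous_const_rpow (h.pos [j]).ne').continuousAt (x := 0)
      have h3 := (Real.continuous_const_rpow hK0.ne').continuousAt (x := 0)
      exact (h1.add h2).sub h3
    have h0 : (0 : ℝ) < σ [i] ^ (0 : ℝ) + σ [j] ^ (0 : ℝ) - K ^ (0 : ℝ) := by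
      rw [Real.rpow_zero, Real.rpow_zero, Real.rpow_zero]; norm_num
    obtain ⟨δ, hδ, h1⟩ := Metric.eventually_nhds_iff.1 (hcont.eventually (lt_mem_nhds h0))
    have h2 := @h1 (δ / 2) (by
      rw [Real.dist_eq, sub_zero, abs_of_pos (by positivity)]; linarith)
    refine ⟨δ / 2, by positivity, fun hmem => ?_⟩
    rw [hA] at hmem
    obtain ⟨-, N, hN, hZ⟩ := hmem
    have hδ2 : 0 ≤ δ / 2 := by positivity
    -- `K ^ t ≤ Z 1 t`
    have hZ1 : ENNReal.ofReal (K ^ (δ / 2)) ≤ Z σ 1 (δ / 2) := by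
      classical
      unfold Z
      have h3 : ∑ w ∈ ({(fun _ => i), (fun _ => j)} : Finset (Fin 1 → I)),
          ENNReal.ofReal (σ (List.ofFn w) ^ (δ / 2))
          ≤ ∑' w : Fin 1 → I, ENNReal.ofReal (σ (List.ofFn w) ^ (δ / 2)) :=
        ENNReal.sum_le_tsum _
      refine le_trans ?_ h3
      rw [Finset.sum_pair (fun he => hij (congrFun he 0))]
      simp only [List.ofFn_succ, List.ofFn_zero]
      rw [← ENNReal.ofReal_add (Real.rpow_nonneg (h.pos _).le _)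
        (Real.rpow_nonneg (h.pos _).le _)]
      exact ENNReal.ofReal_le_ofReal (by linarith)
    have h4 := Z_pow_ge h 1 hδ2 N hN
    rw [mul_one] at h4
    have hKt : 1 ≤ ENNReal.ofReal (K ^ (δ / 2)) := by
      rw [← ENNReal.ofReal_one]
      exact ENNReal.ofReal_le_ofReal (Real.one_le_rpow h.K1 hδ2)
    have h5 : ENNReal.ofReal (K ^ (δ / 2)) ^ N
        ≤ ENNReal.ofReal (K ^ (δ / 2)) ^ (N - 1) * Z σ N (δ / 2) :=
      (pow_le_pow_left' hZ1 N).trans h4
    have e : N = (N - 1) + 1 := by omega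
    have h6 : ENNReal.ofReal (K ^ (δ / 2)) ^ (N - 1) * ENNReal.ofReal (K ^ (δ / 2))
        ≤ ENNReal.ofReal (K ^ (δ / 2)) ^ (N - 1) * Z σ N (δ / 2) := by
      rw [← pow_succ, ← e]; exact h5
    have h7 : ENNReal.ofReal (K ^ (δ / 2)) ^ (N - 1) ≠ 0 :=
      pow_ne_zero _ (lt_of_lt_of_le zero_lt_one hKt).ne'
    have h8 : ENNReal.ofReal (K ^ (δ / 2)) ^ (N - 1) ≠ ⊤ :=
      (ENNReal.pow_lt_top ENNReal.ofReal_lt_top).ne
    have h9 := (ENNReal.mul_le_mul_iff_right h7 h8).1 h6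
    exact absurd (hKt.trans h9) (not_le.2 hZ)
  have hlow : ∀ t ∈ A, t₀ ≤ t := fun t ht => by
    by_contra hc
    exact ht₀A (hAup t ht t₀ (not_le.1 hc).le)
  have hbdd : BddBelow A := ⟨t₀, hlow⟩
  obtain ⟨s, hs⟩ : ∃ s, s = sInf A := ⟨_, rfl⟩
  have hs0 : 0 < s := ht₀.trans_le (by rw [hs]; exact le_csInf hAne hlow)
  refine ⟨s, hs0, fun N hN => ⟨?_, ?_⟩⟩
  · -- lower bound
    by_contra hc
    push Not at hc
    have hsum2 : Summable fun w : Fin N → I => σ (List.ofFn w) ^ (s / 2) := by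
      have h1 := Z_ne_top h (half_pos hs0).le (hfin (s / 2) (half_pos hs0)) N
      exact (ENNReal.summable_toReal h1).congr fun w =>
        ENNReal.toReal_ofReal (Real.rpow_nonneg (h.pos _).le _)
    have hbound : ∀ t, s / 2 ≤ t → ∀ w : Fin N → I,
        σ (List.ofFn w) ^ t ≤ σ (List.ofFn w) ^ (s / 2) := fun t ht w =>
      Real.rpow_le_rpow_of_exponent_ge (h.pos _) (h.le_one _) ht
    have hsumt : ∀ t, s / 2 ≤ t → Summable fun w : Fin N → I => σ (List.ofFn w) ^ t :=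
      fun t ht => Summable.of_nonneg_of_le (fun w => Real.rpow_nonneg (h.pos _).le _)
        (hbound t ht) hsum2
    have hZt : ∀ t, s / 2 ≤ t → Z σ N t = ENNReal.ofReal (∑' w : Fin N → I,
        σ (List.ofFn w) ^ t) := fun t ht => by
      rw [ENNReal.ofReal_tsum_of_nonneg (fun w => Real.rpow_nonneg (h.pos _).le _) (hsumt t ht)]
      rfl
    have hlim : Tendsto (fun t : ℝ => ∑' w : Fin N → I, σ (List.ofFn w) ^ t) (𝓝 s)
        (𝓝 (∑' w : Fin N → I, σ (List.ofFn w) ^ s)) := by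
      refine tendsto_tsum_of_dominated_convergence hsum2 (fun w => ?_) ?_
      · exact (Real.continuous_const_rpow (h.pos _).ne').continuousAt
      · filter_upwards [lt_mem_nhds (half_lt_self hs0)] with t ht w
        rw [Real.norm_eq_abs, abs_of_nonneg (Real.rpow_nonneg (h.pos _).le _)]
        exact hbound t ht.le w
    have hlt : ∑' w : Fin N → I, σ (List.ofFn w) ^ s < 1 := by
      rw [hZt s (half_lt_self hs0).le, ← ENNReal.ofReal_one] at hc
      exact (ENNReal.ofReal_lt_ofReal_iff one_pos).1 hc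
    have hev := (hlim.eventually (gt_mem_nhds hlt)).and (lt_mem_nhds (half_lt_self hs0))
    obtain ⟨δ, hδ, h1⟩ := Metric.eventually_nhds_iff.1 hev
    have h2 := @h1 (s - δ / 2) (by
      rw [Real.dist_eq, sub_sub_cancel_left, abs_neg, abs_of_pos (by positivity)]; linarith)
    have h3 : s - δ / 2 ∈ A := by
      rw [hA]
      refine ⟨by linarith [h2.2, half_pos hs0], N, hN, ?_⟩
      rw [hZt _ h2.2.le, ← ENNReal.ofReal_one]
      exact (ENNReal.ofReal_lt_ofReal_iff one_pos).2 h2.1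
    have h4 := csInf_le hbdd h3
    rw [← hs] at h4
    linarith
  · -- upper bound
    by_contra hc
    push Not at hc
    have hc' : ENNReal.ofReal (K ^ s) < ∑' w : Fin N → I, ENNReal.ofReal (σ (List.ofFn w) ^ s) :=
      hc
    rw [ENNReal.tsum_eq_iSup_sum, lt_iSup_iff] at hc'
    obtain ⟨W, hW⟩ := hc'
    rw [← ENNReal.ofReal_sum_of_nonneg fun w _ => Real.rpow_nonneg (h.pos _).le _,
      ENNReal.ofReal_lt_ofReal_iff_of_nonneg (Real.rpow_nonneg hK0.le _)] at hW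
    have hcont : ContinuousAt (fun t : ℝ => (∑ w ∈ W, σ (List.ofFn w) ^ t) - K ^ t) s := by
      refine ContinuousAt.sub ?_ (Real.continuous_const_rpow hK0.ne').continuousAt
      exact (continuous_finsetSum _ fun w _ =>
        Real.continuous_const_rpow (h.pos _).ne').continuousAt
    have h0 : (0 : ℝ) < (∑ w ∈ W, σ (List.ofFn w) ^ s) - K ^ s := by linarith
    obtain ⟨δ, hδ, h1⟩ := Metric.eventually_nhds_iff.1 (hcont.eventually (lt_mem_nhds h0))
    have h2 := @h1 (s + δ / 2) (by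
      rw [Real.dist_eq, add_sub_cancel_left, abs_of_pos (by positivity)]; linarith)
    obtain ⟨t, ht⟩ : ∃ t, t = s + δ / 2 := ⟨_, rfl⟩
    rw [← ht] at h2
    have hst : s < t := by rw [ht]; linarith
    have ht0 : 0 < t := hs0.trans hst
    have hZt : ENNReal.ofReal (K ^ t) < Z σ N t := by
      refine lt_of_lt_of_le ?_ (ENNReal.sum_le_tsum W)
      rw [← ENNReal.ofReal_sum_of_nonneg fun w _ => Real.rpow_nonneg (h.pos _).le _,
        ENNReal.ofReal_lt_ofReal_iff_of_nonneg (Real.rpow_nonneg hK0.le _)]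
      linarith
    have htA : t ∈ A := by
      obtain ⟨a, haA, hat⟩ := exists_lt_of_csInf_lt hAne (by rw [← hs]; exact hst)
      exact hAup a haA t hat.le
    rw [hA] at htA
    obtain ⟨-, M, hM, hZM⟩ := htA
    have h3 := Z_pow_le h M ht0.le N hN
    have h4 : Z σ (N * M) t ≤ 1 := h3.trans (pow_le_one' hZM.le N)
    have h5 := Z_pow_ge h N ht0.le M hM
    rw [mul_comm M N] at h5
    have hKt : 1 ≤ ENNReal.ofReal (K ^ t) := by
      rw [← ENNReal.ofReal_one]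
      exact ENNReal.ofReal_le_ofReal (Real.one_le_rpow h.K1 ht0.le)
    have h6 : Z σ N t ^ M ≤ ENNReal.ofReal (K ^ t) ^ M := by
      calc Z σ N t ^ M ≤ ENNReal.ofReal (K ^ t) ^ (M - 1) * Z σ (N * M) t := h5
        _ ≤ ENNReal.ofReal (K ^ t) ^ (M - 1) * 1 := mul_le_mul_right h4 _
        _ ≤ ENNReal.ofReal (K ^ t) ^ M := by
            rw [mul_one]
            exact pow_le_pow_right₀ hKt (by omega)
    have h7 : ENNReal.ofReal (K ^ t) ^ M < Z σ N t ^ M :=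
      ENNReal.pow_lt_pow_left (by omega) hZt
    exact absurd h6 (not_le.2 h7)

end Q91.Pressure
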