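import Pool.Agent.H505R2.Out

/-!
# Values of `n ^ 2 + n + A` with a prescribed parity and without small prime factors

Let `A` be odd. If `3` does not divide `A` (for instance `A = 41`), then for every `ε > 0` there are
`δ > 0` and `r` such that for all large `X` at least `X ^ (1 - ε)` of the integers `n ≤ X` have
`n ^ 2 + n + A` equal to a product of an EVEN number, at most `r`, of primes larger than `X ^ δ`. If `3`
divides `A` the same holds for those `X` for which the following does not: at least `X ^ (1 - ε)`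
integers `n ≤ X` have `n ^ 2 + n + A` equal to a product of an odd number of such primes, and for each
parity at least `X ^ (1 - ε)` integers `n ≤ X` have `(n ^ 2 + n + A) / 3` equal to a product of that
parity of such primes.

Method: if `x, y` are integral vectors with determinant one then the product of their values at the
form `u ^ 2 + u v + A v ^ 2` is a value of `n ^ 2 + n + A`. For a triangle `x, y, x + y` the three products
cannot all have an odd number of prime factors. The sieve is used to find many triangles all of whose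
three values have no small prime factors (`Pool.Agent.H505R2`, written for `n ^ 2 + 1`).
-/

set_option autoImplicit false

namespace Pool.Agent.Results.MP_8be758_nt.RoughEvenValues

open Pool.Agent.H505R2

/-- The integers `n ≤ X` for which `n ^ 2 + n + A = s * m`, where `m > 1` is a product of at most `r`
primes (counted with multiplicity), their number being congruent to `e` modulo `2`, all of them
larger than `X ^ δ`. -/
def Vals (A s e r : ℕ) (δ : ℝ) (X : ℕ) : Set ℕ :=
  {n : ℕ | n ≤ X ∧ ∃ m : ℕ, n ^ 2 + n + A = s * m ∧ 1 < m ∧ m.primeFactorsList.length % 2 = e ∧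
    m.primeFactorsList.length ≤ r ∧ ∀ p : ℕ, p.Prime → p ∣ m → (X : ℝ) ^ δ < p}

lemma SS_eq (A s e r : ℕ) (δ : ℝ) (X : ℕ) : SS 1 A 1 s δ r X e = Vals A s e r δ X := by
  unfold SS Vals fm
  ext n
  simp only [Set.mem_ofPred_eq]
  constructor
  · rintro ⟨h1, m, h2, h3⟩
    refine ⟨h1, m, ?_, h3⟩
    have : ((n ^ 2 + n + A : ℕ) : ℤ) = ((s * m : ℕ) : ℤ) := by push_cast; linarith
    exact_mod_cast this
  · rintro ⟨h1, m, h2, h3⟩
    refine ⟨h1, m, ?_, h3⟩
    have : ((n ^ 2 + n + A : ℕ) : ℤ) = ((s * m : ℕ) : ℤ) := by exact_mod_cast h2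
    push_cast at this
    linarith

/-- **Parity of the number of prime factors of rough values of `n ^ 2 + n + A`.** -/
theorem result (A : ℕ) (hA : Odd A) (ε : ℝ) (hε : 0 < ε) :
    ∃ δ : ℝ, 0 < δ ∧ ∃ r X₀ : ℕ, ∀ X : ℕ, X₀ ≤ X →
      (¬ 3 ∣ A → (X : ℝ) ^ (1 - ε) ≤ ((Vals A 1 0 r δ X).ncard : ℝ)) ∧
      ((X : ℝ) ^ (1 - ε) ≤ ((Vals A 1 0 r δ X).ncard : ℝ) ∨
        ((X : ℝ) ^ (1 - ε) ≤ ((Vals A 1 1 r δ X).ncard : ℝ) ∧
          (X : ℝ) ^ (1 - ε) ≤ ((Vals A 3 0 r δ X).ncard : ℝ) ∧
          (X : ℝ) ^ (1 - ε) ≤ ((Vals A 3 1 r δ X).ncard : ℝ))) := by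
  have hA1 : (1 : ℤ) ≤ A := by
    have := hA.pos
    exact_mod_cast this
  obtain ⟨k, hk⟩ := hA
  by_cases h3 : 3 ∣ A
  · obtain ⟨l, hl⟩ := h3
    -- a suitable base vector
    obtain ⟨t, m0, h4, h5, h6, h7⟩ : ∃ t m0 : ℤ, (3 : ℤ) ∣ t ∧
        qf 1 A (1 * t - 1 + 1 * 1, t + 1) = 3 * m0 ∧ ¬ (2 : ℤ) ∣ m0 ∧ ¬ (3 : ℤ) ∣ m0 := by
      by_cases h9 : 3 ∣ l
      · obtain ⟨q, hq⟩ := h9
        refine ⟨3, 3 + 4 + 16 * l, ⟨1, by norm_num⟩, ?_, ?_, ?_⟩
        · unfold qf
          rw [hl]; push_cast; ring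
        · rintro ⟨w, hw⟩
          have : (2 * (3 : ℤ) + 1) = 2 * w - 16 * l := by linarith
          omega
        · rintro ⟨w, hw⟩
          rw [hq] at hw
          push_cast at hw
          omega
      · refine ⟨0, l, ⟨0, by norm_num⟩, ?_, ?_, ?_⟩
        · unfold qf
          rw [hl]; push_cast; ring
        · rintro ⟨w, hw⟩
          omega
        · rintro ⟨w, hw⟩
          apply h9
          exact ⟨w.toNat, by omega⟩
    obtain ⟨t', ht'⟩ := h4
    obtain ⟨δ, hδ, r, X₀, h⟩ := core2 (b := 1) (c := (A : ℤ)) (t := t) (s := 3) (s' := 2)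
      (m0 := m0) 1 1 le_rfl (Or.inr rfl) hA1
      (by
        unfold qf
        rintro ⟨w, hw⟩
        push_cast at hw
        omega)
      (by
        unfold qf
        rintro ⟨w, hw⟩
        push_cast at hw
        omega)
      (by
        unfold qf
        rintro ⟨w, hw⟩
        have e1 : ((((1 : ℕ) : ℤ) * t - 1, t) : ℤ × ℤ) = (t - 1, t) := by simp
        rw [e1] at hw
        simp only at hw
        have e2 : (t - 1) ^ 2 + 1 * (t - 1) * t + (A : ℤ) * t ^ 2 =
          2 * (t ^ 2 * (k + 1)) + (t ^ 2 - t) - 2 * t + 1 := by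
          rw [hk]; push_cast; ring
        rw [e2] at hw
        have e3 : Even (t ^ 2 - t) := by
          have := Int.even_mul_pred_self t
          have e4 : t ^ 2 - t = t * (t - 1) := by ring
          rw [e4]; exact this
        obtain ⟨v, hv⟩ := e3
        omega)
      (by
        unfold qf
        rintro ⟨w, hw⟩
        have e1 : ((((1 : ℕ) : ℤ) * t - 1, t) : ℤ × ℤ) = (t - 1, t) := by simp
        rw [e1] at hw
        simp only at hw
        rw [ht'] at hw
        have e2 : (3 * t' - 1) ^ 2 + 1 * (3 * t' - 1) * (3 * t') + (A : ℤ) * (3 * t') ^ 2 =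
          3 * (3 * t' ^ 2 - 2 * t' + (3 * t' - 1) * t' + A * (3 * t' ^ 2)) + 1 := by ring
        rw [e2] at hw
        omega)
      (by norm_num) (by norm_num) (by push_cast; exact h5) h6 h7 ε hε
    refine ⟨δ, hδ, r, X₀, fun X hX => ⟨fun h => absurd ⟨l, hl⟩ h, ?_⟩⟩
    obtain ⟨i, hi, j, hj, g1, g2, g3⟩ := h X hX
    have e11 : SS 1 (A : ℤ) 1 1 δ r X i = Vals A 1 i r δ X := by exact_mod_cast SS_eq A 1 i r δ X
    have e3 : ∀ e : ℕ, SS 1 (A : ℤ) 1 3 δ r X e = Vals A 3 e r δ X := fun e => by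
      exact_mod_cast SS_eq A 3 e r δ X
    rw [e11] at g1
    rw [e3] at g2
    rw [Nat.cast_one, e3] at g3
    have hi2 : i = 0 ∨ i = 1 := by omega
    rcases hi2 with rfl | rfl
    · exact Or.inl g1
    · right
      refine ⟨g1, ?_⟩
      have hj2 : j = 0 ∨ j = 1 := by omega
      rcases hj2 with rfl | rfl
      · exact ⟨g2, g3⟩
      · exact ⟨g3, g2⟩
  · obtain ⟨δ, hδ, r, X₀, h⟩ := core2 (b := 1) (c := (A : ℤ)) (t := 0) (s := 1) (s' := 6)
      (m0 := (A : ℤ)) 0 1 le_rfl (Or.inr rfl) hA1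
      (by
        unfold qf
        rintro ⟨w, hw⟩
        push_cast at hw
        omega)
      (by
        unfold qf
        rintro ⟨w, hw⟩
        push_cast at hw
        apply h3
        omega)
      (by
        unfold qf
        rintro ⟨w, hw⟩
        push_cast at hw
        omega)
      (by
        unfold qf
        rintro ⟨w, hw⟩
        push_cast at hw
        omega)
      (by norm_num) (by norm_num) (by unfold qf; push_cast; ring)
      (by rintro ⟨w, hw⟩; omega) (by rintro ⟨w, hw⟩; apply h3; omega) ε hε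
    refine ⟨δ, hδ, r, X₀, fun X hX => ?_⟩
    obtain ⟨i, hi, j, hj, g1, g2, g3⟩ := h X hX
    have e11 : ∀ e : ℕ, SS 1 (A : ℤ) 1 1 δ r X e = Vals A 1 e r δ X := fun e => by
      exact_mod_cast SS_eq A 1 e r δ X
    rw [e11] at g1 g2
    rw [Nat.cast_one, e11] at g3
    have key : (X : ℝ) ^ (1 - ε) ≤ ((Vals A 1 0 r δ X).ncard : ℝ) := by
      have hi2 : i = 0 ∨ i = 1 := by omega
      have hj2 : j = 0 ∨ j = 1 := by omega
      rcases hi2 with rfl | rfl
      · exact g1
      · rcases hj2 with rfl | rfl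
        · exact g2
        · exact g3
    exact ⟨fun _ => key, Or.inl key⟩

end Pool.Agent.Results.MP_8be758_nt.RoughEvenValues
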