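import Mathlib

/-!
# The metric space of sign sequences and its Hausdorff dimension
-/

namespace Q91.Signs

open Filter Topology MeasureTheory

open scoped NNReal ENNReal

/-- The space `Ω` of sign sequences `ε_1, ε_2, …`. The entry `ε_{n+1}` is stored at the index
`n`, and `true` stands for `+1`, `false` for `-1`. -/
def Om : Type := ℕ → Bool

/-- The sign at position `n`. -/
def sg (ε : Om) (n : ℕ) : ℝ := if ε n then 1 else -1

/-- The first index at which two sequences differ. -/
noncomputable def fd (x y : Om) : ℕ := sInf {n | x n ≠ y n}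

open Classical in
/-- The metric of `Ω`: the distance of two different sequences is `2 ^ (-k)`, where `k` is the
first `k ≥ 1` with `ε_k ≠ η_k`, that is `k = n + 1` for the first index `n` at which the stored
sequences differ. -/
noncomputable instance : Dist Om := ⟨fun x y => if x = y then 0 else (1 / 2 : ℝ) ^ (fd x y + 1)⟩

lemma fd_ne {x y : Om} (h : x ≠ y) : x (fd x y) ≠ y (fd x y) := by
  have h1 : {n | x n ≠ y n}.Nonempty := by
    by_contra hcon
    rw [Set.not_nonempty_iff_eq_empty, Set.eq_empty_iff_forall_notMem] at hcon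
    apply h
    funext n
    by_contra hn
    exact hcon n hn
  exact Nat.sInf_mem h1

lemma eq_of_lt_fd {x y : Om} {n : ℕ} (h : n < fd x y) : x n = y n := by
  by_contra hn
  exact Nat.notMem_of_lt_sInf h hn

lemma fd_comm (x y : Om) : fd x y = fd y x := by
  unfold fd
  congr 1
  ext n
  exact ne_comm

lemma le_fd {x y : Om} (h : x ≠ y) {n : ℕ} (hn : ∀ i < n, x i = y i) : n ≤ fd x y := by
  by_contra hlt
  push Not at hlt
  exact fd_ne h (hn _ hlt)

lemma dist_def {x y : Om} (h : x ≠ y) : dist x y = (1 / 2 : ℝ) ^ (fd x y + 1) := if_neg h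

lemma dist_same (x : Om) : dist x x = 0 := if_pos rfl

lemma dist_symm' (x y : Om) : dist x y = dist y x := by
  by_cases h : x = y
  · rw [h]
  · rw [dist_def h, dist_def (Ne.symm h), fd_comm]

lemma dist_nonneg' (x y : Om) : 0 ≤ dist x y := by
  by_cases h : x = y
  · rw [h, dist_same]
  · rw [dist_def h]; positivity

lemma dist_tri (x y z : Om) : dist x z ≤ dist x y + dist y z := by
  by_cases hxz : x = z
  · rw [hxz, dist_same]
    exact add_nonneg (dist_nonneg' _ _) (dist_nonneg' _ _)
  by_cases hxy : x = y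
  · rw [← hxy, dist_same]; linarith
  by_cases hyz : y = z
  · rw [← hyz, dist_same]; linarith
  rw [dist_def hxz, dist_def hxy, dist_def hyz]
  have h : min (fd x y) (fd y z) ≤ fd x z := by
    apply le_fd hxz
    intro i hi
    rw [eq_of_lt_fd (lt_of_lt_of_le hi (min_le_left _ _)),
      eq_of_lt_fd (lt_of_lt_of_le hi (min_le_right _ _))]
  rcases min_le_iff.mp h with h | h
  · have h1 : (1 / 2 : ℝ) ^ (fd x z + 1) ≤ (1 / 2 : ℝ) ^ (fd x y + 1) :=
      pow_le_pow_of_le_one (by norm_num) (by norm_num) (by omega)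
    have h2 : (0 : ℝ) ≤ (1 / 2 : ℝ) ^ (fd y z + 1) := by positivity
    linarith
  · have h1 : (1 / 2 : ℝ) ^ (fd x z + 1) ≤ (1 / 2 : ℝ) ^ (fd y z + 1) :=
      pow_le_pow_of_le_one (by norm_num) (by norm_num) (by omega)
    have h2 : (0 : ℝ) ≤ (1 / 2 : ℝ) ^ (fd x y + 1) := by positivity
    linarith

noncomputable instance : MetricSpace Om where
  dist_self := dist_same
  dist_comm := dist_symm'
  dist_triangle := dist_tri
  eq_of_dist_eq_zero := by
    intro x y h
    by_contra hne
    rw [dist_def hne] at h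
    exact absurd h (by positivity)

/-- Two sequences which agree before `n` have distance at most `2 ^ (-n-1)`. -/
lemma dist_le_of_agree {x y : Om} {n : ℕ} (h : ∀ i < n, x i = y i) :
    dist x y ≤ (1 / 2 : ℝ) ^ (n + 1) := by
  by_cases hxy : x = y
  · rw [hxy, dist_self]; positivity
  · rw [dist_def hxy]
    apply pow_le_pow_of_le_one (by norm_num) (by norm_num)
    have h1 := le_fd hxy h
    omega

/-- The cylinder of the word `w` of length `n`. -/
def cyl {n : ℕ} (w : Fin n → Bool) : Set Om := {x | ∀ i : Fin n, x i = w i}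

lemma ediam_cyl {n : ℕ} (w : Fin n → Bool) :
    Metric.ediam (cyl w) ≤ ENNReal.ofReal ((1 / 2 : ℝ) ^ (n + 1)) := by
  apply Metric.ediam_le
  intro x hx y hy
  rw [edist_dist]
  apply ENNReal.ofReal_le_ofReal
  apply dist_le_of_agree
  intro i hi
  rw [hx ⟨i, hi⟩, hy ⟨i, hi⟩]

/-- The dimension of a set covered by few cylinders at infinitely many levels. -/
lemma dimH_le_of_cover {S : Set Om} {s C : ℝ} (hs : 0 ≤ s) (lvl : ℕ → ℕ)
    (hlvl : Tendsto lvl atTop atTop) (W : ∀ k, Finset (Fin (lvl k) → Bool))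
    (hcov : ∀ k, S ⊆ ⋃ w ∈ W k, cyl w)
    (hcard : ∀ k, ((W k).card : ℝ) ≤ C * (2 : ℝ) ^ (s * lvl k)) :
    dimH S ≤ ENNReal.ofReal s := by
  borelize Om
  have hC : 0 ≤ C := by
    have h1 := hcard 0
    have h2 : (0 : ℝ) < (2 : ℝ) ^ (s * lvl 0) := by positivity
    have h3 : (0 : ℝ) ≤ ((W 0).card : ℝ) := Nat.cast_nonneg _
    by_contra hneg
    push Not at hneg
    nlinarith
  have key : μH[s] S ≤ ENNReal.ofReal C := by
    have h := Measure.hausdorffMeasure_le_liminf_sum (X := Om) (ι := fun k : ℕ => {w // w ∈ W k})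
      s S (l := atTop) (fun k => ENNReal.ofReal ((1 / 2 : ℝ) ^ (lvl k + 1)))
      (by
        have h1 : Tendsto (fun k => (1 / 2 : ℝ) ^ (lvl k + 1)) atTop (𝓝 0) :=
          (tendsto_pow_atTop_nhds_zero_of_lt_one (by norm_num) (by norm_num)).comp
            ((tendsto_add_atTop_nat 1).comp hlvl)
        have h2 := ENNReal.tendsto_ofReal h1
        rwa [ENNReal.ofReal_zero] at h2)
      (fun k w => cyl w.1)
      (Eventually.of_forall fun k w => ediam_cyl _)
      (Eventually.of_forall fun k => by
        intro x hx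
        have h1 := hcov k hx
        rw [Set.mem_iUnion₂] at h1
        obtain ⟨w, hw, hxw⟩ := h1
        exact Set.mem_iUnion.mpr ⟨⟨w, hw⟩, hxw⟩)
    refine h.trans ?_
    have hb : ∀ k, ∑ w : {w // w ∈ W k}, Metric.ediam (cyl w.1) ^ s ≤ ENNReal.ofReal C := by
      intro k
      calc ∑ w : {w // w ∈ W k}, Metric.ediam (cyl w.1) ^ s
          ≤ ∑ _w : {w // w ∈ W k}, ENNReal.ofReal ((1 / 2 : ℝ) ^ (lvl k + 1)) ^ s :=
            Finset.sum_le_sum fun w _ => ENNReal.rpow_le_rpow (ediam_cyl _) hs
        _ = ENNReal.ofReal ((W k).card * ((1 / 2 : ℝ) ^ (lvl k + 1)) ^ s) := by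
            rw [Finset.sum_const, Finset.card_univ, Fintype.card_coe, nsmul_eq_mul,
              ENNReal.ofReal_rpow_of_nonneg (by positivity) hs,
              ENNReal.ofReal_mul (by positivity), ENNReal.ofReal_natCast]
        _ ≤ ENNReal.ofReal C := by
            apply ENNReal.ofReal_le_ofReal
            have h1 : ((1 / 2 : ℝ) ^ (lvl k + 1)) ^ s ≤ ((2 : ℝ) ^ (s * lvl k))⁻¹ := by
              have e1 : ((1 / 2 : ℝ) ^ (lvl k + 1)) ^ s = (2 : ℝ) ^ (-(s * (lvl k + 1))) := by
                rw [one_div, inv_pow, Real.inv_rpow (by positivity), ← Real.rpow_natCast,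
                  ← Real.rpow_mul (by norm_num), ← Real.rpow_neg (by norm_num)]
                congr 1
                push_cast
                ring
              rw [e1, ← Real.rpow_neg (by norm_num)]
              apply Real.rpow_le_rpow_of_exponent_le (by norm_num)
              nlinarith
            have h2 : (0 : ℝ) < (2 : ℝ) ^ (s * lvl k) := by positivity
            calc ((W k).card : ℝ) * ((1 / 2 : ℝ) ^ (lvl k + 1)) ^ s
                ≤ (C * (2 : ℝ) ^ (s * lvl k)) * ((2 : ℝ) ^ (s * lvl k))⁻¹ :=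
                  mul_le_mul (hcard k) h1 (by positivity) (by positivity)
              _ = C := by field_simp
    calc liminf (fun k => ∑ w : {w // w ∈ W k}, Metric.ediam (cyl w.1) ^ s) atTop
        ≤ liminf (fun _ : ℕ => ENNReal.ofReal C) atTop :=
          liminf_le_liminf (Eventually.of_forall hb)
      _ = ENNReal.ofReal C := liminf_const _
  have hne : μH[((s.toNNReal : ℝ≥0) : ℝ)] S ≠ ⊤ := by
    rw [Real.coe_toNNReal s hs]
    exact (lt_of_le_of_lt key ENNReal.ofReal_lt_top).ne
  exact dimH_le_of_hausdorffMeasure_ne_top hne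

lemma dimH_le_one (S : Set Om) : dimH S ≤ 1 := by
  have h := dimH_le_of_cover (S := S) (s := 1) (C := 1) (by norm_num) (fun k => k) tendsto_id
    (fun k => Finset.univ) (fun k x _ => by
      rw [Set.mem_iUnion₂]
      exact ⟨fun i => x i, Finset.mem_univ _, fun i => rfl⟩)
    (fun k => by
      rw [Finset.card_univ, Fintype.card_fun, Fintype.card_bool, Fintype.card_fin]
      push_cast
      rw [one_mul, one_mul, Real.rpow_natCast])
  simpa using h

/-- Lower bound by coding: if every sequence of digits in `{0, …, M-1}` is realised by an element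
of `E`, where the `m`-th digit depends only on the coordinates before `K (m + 1)`, then the
dimension of `E` is at least `log M / (K log 2)`. -/
lemma le_dimH_of_code {E : Set Om} {K M : ℕ} (hK : 0 < K) (hM : 1 < M) (c : ℕ → Om → Fin M)
    (hc : ∀ m x y, (∀ i < K * (m + 1), x i = y i) → c m x = c m y)
    (hE : ∀ t : ℕ → Fin M, ∃ x ∈ E, ∀ m, c m x = t m) :
    ENNReal.ofReal (Real.log M / (K * Real.log 2)) ≤ dimH E := by
  have hKr : (0 : ℝ) < K := by exact_mod_cast hK
  have hMr : (1 : ℝ) < M := by exact_mod_cast hM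
  have hl2 : 0 < Real.log 2 := Real.log_pos (by norm_num)
  have hlM : 0 < Real.log M := Real.log_pos hMr
  set r : ℝ := Real.log M / (K * Real.log 2) with hr
  have hr0 : 0 < r := by positivity
  set f : Om → ℝ := fun x => Real.ofDigits (fun m => c m x) with hf
  -- the Hölder estimate
  have hdist : ∀ x y : Om, dist (f x) (f y) ≤ (M : ℝ) ^ 2 * dist x y ^ r := by
    intro x y
    by_cases hxy : x = y
    · rw [hxy, dist_self, dist_self, Real.zero_rpow hr0.ne', mul_zero]
    rw [dist_def hxy, Real.dist_eq]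
    set p := fd x y with hp
    have hagree : ∀ i < p, x i = y i := fun i hi => eq_of_lt_fd hi
    have h1 : |f x - f y| ≤ ((M : ℝ)⁻¹) ^ (p / K) := by
      have := Real.abs_ofDigits_sub_ofDigits_le (x := fun m => c m x) (y := fun m => c m y)
        (n := p / K) (by
          intro m hm
          apply hc
          intro i hi
          apply hagree
          have h2 : K * (m + 1) ≤ K * (p / K) := Nat.mul_le_mul_left K hm
          have h3 := Nat.mul_div_le p K
          omega)
      simpa using this
    refine h1.trans ?_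
    have hpK : ((p : ℝ) + 1) / K ≤ ((p / K : ℕ) : ℝ) + 2 := by
      rw [div_le_iff₀ hKr]
      have h2 : p < K * (p / K + 1) := Nat.lt_mul_div_succ p hK
      have h3 : p + 1 ≤ K * (p / K + 2) := by nlinarith
      have h4 : ((p + 1 : ℕ) : ℝ) ≤ ((K * (p / K + 2) : ℕ) : ℝ) := by exact_mod_cast h3
      push_cast at h4
      linarith
    have e1 : ((1 / 2 : ℝ) ^ (p + 1)) ^ r = Real.exp (-(((p : ℝ) + 1) / K * Real.log M)) := by
      rw [← Real.rpow_natCast, ← Real.rpow_mul (by norm_num), Real.rpow_def_of_pos (by norm_num)]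
      congr 1
      rw [hr, one_div, Real.log_inv]
      push_cast
      field_simp
    have e2 : ((M : ℝ)⁻¹) ^ (p / K) = Real.exp (-(((p / K : ℕ) : ℝ) * Real.log M)) := by
      rw [Real.exp_neg, mul_comm, Real.exp_mul, Real.exp_log (by linarith), Real.rpow_natCast,
        inv_pow]
    have e3 : (M : ℝ) ^ 2 = Real.exp (2 * Real.log M) := by
      rw [mul_comm, Real.exp_mul, Real.exp_log (by linarith)]
      norm_cast
    rw [e1, e2, e3, ← Real.exp_add, Real.exp_le_exp]
    nlinarith
  have hholder : HolderWith ((M : ℝ≥0) ^ 2) r.toNNReal f := by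
    intro x y
    rw [edist_dist, edist_dist, Real.coe_toNNReal r hr0.le]
    rw [ENNReal.ofReal_rpow_of_nonneg dist_nonneg hr0.le]
    have e : (((M : ℝ≥0) ^ 2 : ℝ≥0) : ℝ≥0∞) = ENNReal.ofReal ((M : ℝ) ^ 2) := by
      rw [ENNReal.ofReal_pow (by positivity), ENNReal.ofReal_natCast]
      push_cast
      rfl
    rw [e, ← ENNReal.ofReal_mul (by positivity)]
    exact ENNReal.ofReal_le_ofReal (hdist x y)
  have h1 := hholder.dimH_image_le (by rw [Real.toNNReal_pos]; exact hr0) E
  have hsub : Set.Ico (0 : ℝ) 1 ⊆ f '' E := by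
    intro t ht
    have : NeZero M := ⟨by omega⟩
    obtain ⟨x, hxE, hx⟩ := hE (Real.digits t M)
    refine ⟨x, hxE, ?_⟩
    have : (fun m => c m x) = Real.digits t M := funext hx
    rw [hf]
    simp only [this]
    exact Real.ofDigits_digits hM ht
  have h2 : dimH (Set.Ico (0 : ℝ) 1) = 1 := by
    have := Real.dimH_of_nonempty_interior (s := Set.Ico (0 : ℝ) 1) (by
      rw [interior_Ico]
      exact ⟨1 / 2, by norm_num, by norm_num⟩)
    simpa using this
  have h3 : (1 : ℝ≥0∞) ≤ dimH E / (r.toNNReal : ℝ≥0∞) := by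
    rw [← h2]
    exact (dimH_mono hsub).trans h1
  rw [ENNReal.le_div_iff_mul_le (Or.inl (by simpa using hr0)) (Or.inl ENNReal.coe_ne_top),
    one_mul] at h3
  exact h3

end Q91.Signs
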