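import Pool.Agent.Q91.DilFun

/-!
# MP_62a15f_an, Q1: the form-bound can be strictly smaller than the `L^1` spectral radius limit

For every dimension `d ≥ 1` and every `η > 0` there are a symmetric sub-Markovian semigroup on
`ℝ^d` and a potential `V ≥ 0`, `T`-bounded in `L^1`, with `δ = 1` and form-bound `β < η`.
In particular `β = δ` fails (the negated form `β < δ` holds), and no bound `δ ≤ C β` is possible.

The semigroup is `U(t) = exp(t c (Π - a))`, where `Π f(y) = (2^d f(2y) + f(y/2)) / (2^d + 1)`,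
`c ≥ 1` is an unbounded function with `c(2y) = c(y)`, `a > 1`, and `V = (a - 1) c`.

Operators on `L^p(μ)` are given by maps on functions that respect almost everywhere equality.
-/

open MeasureTheory Filter Topology Set
open scoped ENNReal NNReal

namespace Pool.Agent.Q91.SmallFormBound

variable {α : Type} [MeasurableSpace α]

/-- `S` is a (linear) operator on the real space `L^p(μ)`. -/
structure IsOp (μ : Measure α) (p : ℝ≥0∞) (S : (α → ℝ) → α → ℝ) : Prop where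
  mem : ∀ f, MemLp f p μ → MemLp (S f) p μ
  congr : ∀ f g, MemLp f p μ → f =ᵐ[μ] g → S f =ᵐ[μ] S g
  add : ∀ f g, MemLp f p μ → MemLp g p μ → ∀ᵐ x ∂μ, S (fun y => f y + g y) x = S f x + S g x
  smul : ∀ (r : ℝ) f, MemLp f p μ → ∀ᵐ x ∂μ, S (fun y => r * f y) x = r * S f x

/-- `(U(t))_{t ≥ 0}` is a symmetric sub-Markovian semigroup: operators on every `L^p`, a
semigroup, positive, contractive on `L^1` and on `L^∞`, strongly continuous on `L^p` for
`1 ≤ p < ∞`, and self-adjoint on `L^2`. -/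
structure IsSymSubMarkov (μ : Measure α) (U : ℝ → (α → ℝ) → α → ℝ) : Prop where
  op : ∀ p t, 1 ≤ p → 0 ≤ t → IsOp μ p (U t)
  zero : ∀ p f, 1 ≤ p → MemLp f p μ → U 0 f =ᵐ[μ] f
  semigroup : ∀ p f s t, 1 ≤ p → MemLp f p μ → 0 ≤ s → 0 ≤ t → U (s + t) f =ᵐ[μ] U s (U t f)
  positive : ∀ p f t, 1 ≤ p → MemLp f p μ → 0 ≤ t → (∀ᵐ x ∂μ, 0 ≤ f x) → ∀ᵐ x ∂μ, 0 ≤ U t f x
  contractive_one : ∀ f t, MemLp f 1 μ → 0 ≤ t → eLpNorm (U t f) 1 μ ≤ eLpNorm f 1 μ
  contractive_top : ∀ f t, MemLp f ∞ μ → 0 ≤ t → eLpNorm (U t f) ∞ μ ≤ eLpNorm f ∞ μ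
  continuous : ∀ p f s, 1 ≤ p → p ≠ ∞ → MemLp f p μ → 0 ≤ s →
    Tendsto (fun t => eLpNorm (fun x => U t f x - U s f x) p μ) (𝓝[Ici 0] s) (𝓝 0)
  symmetric : ∀ f g t, MemLp f 2 μ → MemLp g 2 μ → 0 ≤ t →
    ∫ x, U t f x * g x ∂μ = ∫ x, f x * U t g x ∂μ

/-- `f ∈ D(T)` and `T f = g`, where `T` is the generator on `L^1(μ)`. -/
def HasGen (μ : Measure α) (U : ℝ → (α → ℝ) → α → ℝ) (f g : α → ℝ) : Prop :=
  MemLp f 1 μ ∧ MemLp g 1 μ ∧
    Tendsto (fun t => eLpNorm (fun x => t⁻¹ * (U t f x - f x) - g x) 1 μ) (𝓝[>] 0) (𝓝 0)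

/-- `V` is `T`-bounded in `L^1`: `D(T) ⊆ D(V)`. -/
def TBounded (μ : Measure α) (U : ℝ → (α → ℝ) → α → ℝ) (V : α → ℝ) : Prop :=
  ∀ f g, HasGen μ U f g → Integrable (fun x => V x * f x) μ

/-- `R = (λ - T)⁻¹`: a bounded two-sided inverse of `λ - T` on `L^1(μ)`. -/
structure IsResolvent (μ : Measure α) (U : ℝ → (α → ℝ) → α → ℝ) (lam : ℝ)
    (R : (α → ℝ) → α → ℝ) : Prop where
  op : IsOp μ 1 R
  bounded : ∃ C : ℝ≥0, ∀ f, MemLp f 1 μ → eLpNorm (R f) 1 μ ≤ C * eLpNorm f 1 μ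
  right : ∀ g, MemLp g 1 μ → HasGen μ U (R g) (fun x => lam * R g x - g x)
  left : ∀ f h, HasGen μ U f h → R (fun x => lam * f x - h x) =ᵐ[μ] f

/-- `B = V (λ - T)⁻¹` on `L^1(μ)`. -/
def IsVR (μ : Measure α) (U : ℝ → (α → ℝ) → α → ℝ) (V : α → ℝ) (lam : ℝ)
    (B : (α → ℝ) → α → ℝ) : Prop :=
  IsOp μ 1 B ∧ ∃ R, IsResolvent μ U lam R ∧ ∀ g, MemLp g 1 μ → ∀ᵐ x ∂μ, B g x = V x * R g x

/-- The operator norm on `L^1(μ)`. -/
noncomputable def opNorm (μ : Measure α) (B : (α → ℝ) → α → ℝ) : ℝ≥0∞ :=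
  sInf {C : ℝ≥0∞ | ∀ f, MemLp f 1 μ → eLpNorm (B f) 1 μ ≤ C * eLpNorm f 1 μ}

/-- `r` is the spectral radius of `B` on `L^1(μ)` (Gelfand's formula). -/
def HasSpecRad (μ : Measure α) (B : (α → ℝ) → α → ℝ) (r : ℝ) : Prop :=
  Tendsto (fun n : ℕ => (opNorm μ B^[n]).toReal ^ ((1 : ℝ) / n)) atTop (𝓝 r)

/-- `δ = lim_{λ → ∞} r(V (λ - T)⁻¹)`. -/
def IsDelta (μ : Measure α) (U : ℝ → (α → ℝ) → α → ℝ) (V : α → ℝ) (δ : ℝ) : Prop :=
  ∃ (B : ℝ → (α → ℝ) → α → ℝ) (r : ℝ → ℝ),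
    (∀ lam, 0 < lam → IsVR μ U V lam (B lam) ∧ HasSpecRad μ (B lam) (r lam)) ∧
      Tendsto r atTop (𝓝 δ)

/-- The closed form `q(φ) = ‖(-T₂)^{1/2} φ‖² = sup_{t > 0} t⁻¹ ⟨φ - U(t) φ, φ⟩ ∈ [0, ∞]`
(the quotient increases as `t ↓ 0`); `D(q) = {φ ∈ L^2 : q(φ) < ∞}`. -/
noncomputable def formQ (μ : Measure α) (U : ℝ → (α → ℝ) → α → ℝ) (φ : α → ℝ) : ℝ≥0∞ :=
  ⨆ t : {t : ℝ // 0 < t}, ENNReal.ofReal ((t : ℝ)⁻¹ * ∫ x, (φ x - U t φ x) * φ x ∂μ)

/-- `∫ V |φ|² ≤ a q(φ) + b ‖φ‖²` for all `φ ∈ D(q)`. -/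
def FormIneq (μ : Measure α) (U : ℝ → (α → ℝ) → α → ℝ) (V : α → ℝ) (a b : ℝ≥0) : Prop :=
  ∀ φ, MemLp φ 2 μ → formQ μ U φ ≠ ∞ → ∫⁻ x, ENNReal.ofReal (V x * φ x ^ 2) ∂μ ≤
    a * formQ μ U φ + b * ∫⁻ x, ENNReal.ofReal (φ x ^ 2) ∂μ

/-- The form-bound `β` (equal to `∞` if there is no admissible `a`). -/
noncomputable def formBound (μ : Measure α) (U : ℝ → (α → ℝ) → α → ℝ) (V : α → ℝ) : ℝ≥0∞ :=
  ⨅ a : {a : ℝ≥0 // ∃ b : ℝ≥0, FormIneq μ U V a b}, ((a : ℝ≥0) : ℝ≥0∞)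

open Pool.Agent.Q91.DilOps Pool.Agent.Q91.DilTheta Pool.Agent.Q91.DilSemi Pool.Agent.Q91.DilRes
  Pool.Agent.Q91.DilFun in
/-- In every dimension `d ≥ 1` and for every `η > 0` there are a symmetric sub-Markovian semigroup
on `ℝ^d` and a measurable `V ≥ 0` that is `T`-bounded in `L^1`, with `δ = 1` and `β < η`. -/
theorem result (d : ℕ) (hd : 1 ≤ d) (η : ℝ) (hη : 0 < η) :
    ∃ (U : ℝ → (EuclideanSpace ℝ (Fin d) → ℝ) → EuclideanSpace ℝ (Fin d) → ℝ)
      (V : EuclideanSpace ℝ (Fin d) → ℝ), IsSymSubMarkov volume U ∧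
      Measurable V ∧ (∀ x, 0 ≤ V x) ∧ TBounded volume U V ∧ IsDelta volume U V 1 ∧
      formBound volume U V < ENNReal.ofReal η := by
  have hk := kap_two_lt hd
  set a : ℝ := 1 + η / 2 * (1 - kap d 2) with ha_def
  have hε : 0 < η / 2 * (1 - kap d 2) := mul_pos (by positivity) (by linarith)
  have ha : 1 < a := by linarith
  have hc : Adm (cF d) := adm_cF d
  have hu : Unb (cF d) := unb_cF hd
  have hopF : ∀ T : LpE d 1 →L[ℝ] LpE d 1,
      IsOp (volume : Measure (EuclideanSpace ℝ (Fin d))) 1 (opF T) := fun T =>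
    { mem := fun f hf => opF_mem T hf
      congr := fun f g hf h => opF_congr T hf h
      add := fun f g hf hg => opF_add T hf hg
      smul := fun r f hf => opF_smul T r hf }
  refine ⟨UF a (cF d), fun x => (a - 1) * cF d x, ?_, ?_, ?_, ?_, ?_, ?_⟩
  · exact
      { op := fun p t hp ht =>
          { mem := fun f hf => UF_mem ha hc hp ht hf
            congr := fun f g hf h => UF_congr ha hc hp ht hf h
            add := fun f g hf hg => UF_add ha hc hp ht hf hg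
            smul := fun r f hf => UF_smul ha hc hp ht r hf }
        zero := fun p f hp hf => UF_zero ha hc hp hf
        semigroup := fun p f s t hp hf hs ht => UF_semi ha hc hp hs ht hf
        positive := fun p f t hp hf ht h0 => UF_nonneg ha hc hp ht hf h0
        contractive_one := fun f t hf ht => UF_contr_one ha hc ht hf
        contractive_top := fun f t hf ht => UF_contr_top ha hc ht hf
        continuous := fun p f s hp hpt hf hs => UF_cont ha hc hp hpt hf hs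
        symmetric := fun f g t hf hg ht => UF_symm ha hc ht hf hg }
  · exact hc.meas.const_mul _
  · exact fun x => mul_nonneg (by linarith) (hc.pos x).le
  · intro f g hfg
    obtain ⟨hf, hg, h1⟩ := hfg
    have h2 := domain ha hc ((gen_iff ha hc hf hg).1 h1)
    refine h2.congr ?_
    filter_upwards [MemLp.coeFn_toLp hf] with x hx
    rw [hx]
  · refine ⟨fun lam => opF (BB a lam (cF d)), fun _ => 1, fun lam hl => ⟨⟨hopF _,
      opF (RR a lam (cF d)), ⟨hopF _, ⟨_, fun f hf => opF_bound _ hf⟩, ?_, ?_⟩, ?_⟩, ?_⟩,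
      tendsto_const_nhds⟩
    · intro g hg
      have m1 := opF_mem (RR a lam (cF d)) hg
      have m2 : MemLp (fun x => lam * opF (RR a lam (cF d)) g x - g x) 1
        (volume : Measure (EuclideanSpace ℝ (Fin d))) := (m1.const_mul lam).sub hg
      refine ⟨m1, m2, (gen_iff ha hc m1 m2).2 ?_⟩
      have h1 := gen_RR ha hc hl (hg.toLp g)
      rw [opF_toLp _ hg m1]
      have h2 : m2.toLp (fun x => lam * opF (RR a lam (cF d)) g x - g x) =
          lam • RR a lam (cF d) (hg.toLp g) - hg.toLp g := by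
        refine Lp.ext ?_
        filter_upwards [MemLp.coeFn_toLp m2, MemLp.coeFn_toLp hg,
          Lp.coeFn_sub (lam • RR a lam (cF d) (hg.toLp g)) (hg.toLp g),
          Lp.coeFn_smul lam (RR a lam (cF d) (hg.toLp g))] with x e1 e2 e3 e4
        rw [e1, e3, Pi.sub_apply, e4, Pi.smul_apply, e2, opF_eq _ hg, smul_eq_mul]
      rw [h2]
      exact h1
    · intro f h hfh
      obtain ⟨hf, hh, h1⟩ := hfh
      have h2 := RR_inverse ha hc hl ((gen_iff ha hc hf hh).1 h1)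
      have m2 : MemLp (fun x => lam * f x - h x) 1
        (volume : Measure (EuclideanSpace ℝ (Fin d))) := (hf.const_mul lam).sub hh
      have h3 : m2.toLp (fun x => lam * f x - h x) = lam • hf.toLp f - hh.toLp h := by
        refine Lp.ext ?_
        filter_upwards [MemLp.coeFn_toLp m2, MemLp.coeFn_toLp hf, MemLp.coeFn_toLp hh,
          Lp.coeFn_sub (lam • hf.toLp f) (hh.toLp h),
          Lp.coeFn_smul lam (hf.toLp f)] with x e1 e2 e3 e4 e5
        rw [e1, e4, Pi.sub_apply, e5, Pi.smul_apply, e2, e3, smul_eq_mul]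
      rw [opF_eq _ m2, h3, h2]
      exact MemLp.coeFn_toLp hf
    · intro g hg
      show ∀ᵐ x, opF (BB a lam (cF d)) g x = (a - 1) * cF d x * opF (RR a lam (cF d)) g x
      rw [opF_eq _ hg, opF_eq _ hg]
      exact BB_eq hc lam (hg.toLp g)
    · have h1 : ∀ n : ℕ, opNorm (volume : Measure (EuclideanSpace ℝ (Fin d)))
          (opF (BB a lam (cF d)))^[n] = 1 := by
        intro n
        unfold opNorm
        rw [sInf_bound, norm_BB_pow ha hc hu hl, ENNReal.ofReal_one]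
      unfold HasSpecRad
      simp only [h1, ENNReal.toReal_one, Real.one_rpow]
      exact tendsto_const_nhds
  · have hη2 : 0 ≤ η / 2 := by positivity
    have hmem : ∃ b : ℝ≥0, FormIneq volume (UF a (cF d))
        (fun x => (a - 1) * cF d x) (Real.toNNReal (η / 2)) b := by
      refine ⟨0, fun φ hφ _ => ?_⟩
      rw [ENNReal.coe_zero, zero_mul, add_zero]
      have h0 : ∀ t : ℝ, 0 < t → inner ℝ (hφ.toLp φ - US a (cF d) 2 t (hφ.toLp φ)) (hφ.toLp φ) =
          ∫ x, (φ x - UF a (cF d) t φ x) * φ x := by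
        intro t ht
        rw [inner_eq]
        refine integral_congr_ae ?_
        filter_upwards [MemLp.coeFn_toLp hφ, UF_eq ha hc 2 ht.le hφ,
          Lp.coeFn_sub (hφ.toLp φ) (US a (cF d) 2 t (hφ.toLp φ))] with x e1 e2 e3
        rw [e3, Pi.sub_apply, e1, e2]
      have h1 := form_bound hd ha hc (hφ.toLp φ) (Q := formQ volume (UF a (cF d)) φ)
        (fun t ht => by
          rw [h0 t ht]
          exact le_iSup (fun t : {t : ℝ // 0 < t} =>
            ENNReal.ofReal ((t : ℝ)⁻¹ * ∫ x, (φ x - UF a (cF d) t φ x) * φ x)) ⟨t, ht⟩)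
      have h2 : ∀ᵐ x, ENNReal.ofReal ((a - 1) * cF d x * φ x ^ 2) ≤
          ENNReal.ofReal (η / 2) *
            ENNReal.ofReal ((a - kap d 2) * cF d x * (hφ.toLp φ x) ^ 2) := by
        filter_upwards [MemLp.coeFn_toLp hφ] with x hx
        rw [← ENNReal.ofReal_mul hη2, hx]
        refine ENNReal.ofReal_le_ofReal ?_
        have h3 : a - 1 ≤ η / 2 * (a - kap d 2) := by
          have : η / 2 * (1 - kap d 2) ≤ η / 2 * (a - kap d 2) :=
            mul_le_mul_of_nonneg_left (by linarith) hη2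
          linarith
        have h4 : 0 ≤ cF d x * φ x ^ 2 := mul_nonneg (hc.pos x).le (sq_nonneg _)
        have h5 := mul_le_mul_of_nonneg_right h3 h4
        nlinarith
      refine le_trans (lintegral_mono_ae h2) ?_
      rw [lintegral_const_mul' _ _ ENNReal.ofReal_ne_top]
      exact mul_le_mul_right h1 _
    refine lt_of_le_of_lt (iInf_le _ ⟨Real.toNNReal (η / 2), hmem⟩) ?_
    show ENNReal.ofReal (η / 2) < ENNReal.ofReal η
    exact (ENNReal.ofReal_lt_ofReal_iff hη).2 (by linarith)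

end Pool.Agent.Q91.SmallFormBound
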