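import Mathlib

/-!
# Generalized Takagi functions: the dyadic structure
-/

open Set Filter Topology

namespace Q91.Takagi

/-- The distance of `x` to the nearest integer. -/
noncomputable def phi (x : ℝ) : ℝ := |x - round x|

/-- The sign functions allowed in the class `T_v`: for each `n`, the function `ω n` takes the
values `1` and `-1` on `[0, 1]`, and is constant on each interval `[j 2^{-n}, (j+1) 2^{-n})`,
`j = 0, ..., 2^n - 1`. -/
structure IsSigns (ω : ℕ → ℝ → ℝ) : Prop where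
  sign : ∀ n, ∀ x ∈ Icc (0 : ℝ) 1, ω n x = 1 ∨ ω n x = -1
  const : ∀ n j : ℕ, j < 2 ^ n →
    ∀ x ∈ Ico ((j : ℝ) / 2 ^ n) (((j : ℝ) + 1) / 2 ^ n),
    ∀ y ∈ Ico ((j : ℝ) / 2 ^ n) (((j : ℝ) + 1) / 2 ^ n), ω n x = ω n y

/-- The function `f(x) = ∑ 2^{-n} ω_n(x) φ(2^n x)`. -/
noncomputable def takagi (ω : ℕ → ℝ → ℝ) (x : ℝ) : ℝ :=
  ∑' n : ℕ, (1 / 2 : ℝ) ^ n * ω n x * phi (2 ^ n * x)

/-! ### The function `phi` -/

lemma phi_nonneg (x : ℝ) : 0 ≤ phi x := abs_nonneg _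

lemma phi_le (x : ℝ) : phi x ≤ 1 / 2 := abs_sub_round x

lemma phi_int (q : ℤ) : phi q = 0 := by
  unfold phi
  rw [round_intCast, sub_self, abs_zero]

lemma phi_nat (q : ℕ) : phi q = 0 := by
  have := phi_int (q : ℤ)
  rwa [Int.cast_natCast] at this

lemma phi_left {q : ℕ} {t : ℝ} (h1 : (q : ℝ) ≤ t) (h2 : t ≤ q + 1 / 2) : phi t = t - q := by
  unfold phi
  rw [abs_sub_round_eq_min]
  have h3 : Int.fract t = t - q := by
    rw [Int.fract_eq_iff]
    refine ⟨by linarith, by linarith, (q : ℤ), ?_⟩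
    rw [Int.cast_natCast]
    ring
  rw [h3]
  exact min_eq_left (by linarith)

lemma phi_right {q : ℕ} {t : ℝ} (h1 : (q : ℝ) + 1 / 2 ≤ t) (h2 : t ≤ q + 1) :
    phi t = q + 1 - t := by
  rcases h2.lt_or_eq with h | h
  · unfold phi
    rw [abs_sub_round_eq_min]
    have h3 : Int.fract t = t - q := by
      rw [Int.fract_eq_iff]
      refine ⟨by linarith, by linarith, (q : ℤ), ?_⟩
      rw [Int.cast_natCast]
      ring
    rw [h3, min_eq_right (by linarith)]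
    ring
  · rw [h, sub_self]
    have := phi_nat (q + 1)
    rwa [Nat.cast_add, Nat.cast_one] at this

variable {ω : ℕ → ℝ → ℝ}

/-- The terms. -/
noncomputable def term (ω : ℕ → ℝ → ℝ) (n : ℕ) (x : ℝ) : ℝ :=
  (1 / 2 : ℝ) ^ n * ω n x * phi (2 ^ n * x)

/-- The sign on the dyadic interval `(n, j)`. -/
noncomputable def w (ω : ℕ → ℝ → ℝ) (n j : ℕ) : ℤ := if ω n ((j : ℝ) / 2 ^ n) = 1 then 1 else -1

lemma w_cases (n j : ℕ) : w ω n j = 1 ∨ w ω n j = -1 := by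
  unfold w
  split_ifs <;> simp

lemma left_mem {n j : ℕ} : (j : ℝ) / 2 ^ n ∈ Ico ((j : ℝ) / 2 ^ n) (((j : ℝ) + 1) / 2 ^ n) :=
  ⟨le_rfl, by gcongr; linarith⟩

lemma left_mem' {n j : ℕ} : (j : ℝ) / 2 ^ n ∈ Icc ((j : ℝ) / 2 ^ n) (((j : ℝ) + 1) / 2 ^ n) :=
  ⟨le_rfl, by gcongr; linarith⟩

lemma right_mem' {n j : ℕ} :
    ((j : ℝ) + 1) / 2 ^ n ∈ Icc ((j : ℝ) / 2 ^ n) (((j : ℝ) + 1) / 2 ^ n) :=
  ⟨by gcongr; linarith, le_rfl⟩

lemma Icc_sub {n j : ℕ} (hj : j < 2 ^ n) :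
    Icc ((j : ℝ) / 2 ^ n) (((j : ℝ) + 1) / 2 ^ n) ⊆ Icc (0 : ℝ) 1 := by
  intro x hx
  refine ⟨le_trans (by positivity) hx.1, hx.2.trans ?_⟩
  rw [div_le_one (by positivity)]
  exact_mod_cast hj

lemma w_eq (hω : IsSigns ω) {n j : ℕ} (hj : j < 2 ^ n) {x : ℝ}
    (hx : x ∈ Ico ((j : ℝ) / 2 ^ n) (((j : ℝ) + 1) / 2 ^ n)) : ω n x = w ω n j := by
  rw [hω.const n j hj x hx _ left_mem]
  unfold w
  have h01 := Icc_sub hj left_mem'
  rcases hω.sign n _ h01 with h | h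
  · rw [if_pos h, h]; norm_num
  · rw [if_neg (by rw [h]; norm_num), h]; norm_num

lemma term_eq (hω : IsSigns ω) {n j : ℕ} (hj : j < 2 ^ n) {x : ℝ}
    (hx : x ∈ Icc ((j : ℝ) / 2 ^ n) (((j : ℝ) + 1) / 2 ^ n)) :
    term ω n x = (1 / 2 : ℝ) ^ n * w ω n j * phi (2 ^ n * x) := by
  unfold term
  rcases hx.2.lt_or_eq with h | h
  · rw [w_eq hω hj ⟨hx.1, h⟩]
  · have h1 : phi (2 ^ n * x) = 0 := by
      rw [h, mul_div_cancel₀ _ (by positivity)]
      have := phi_nat (j + 1)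
      rwa [Nat.cast_add, Nat.cast_one] at this
    rw [h1, mul_zero, mul_zero]

lemma abs_term (hω : IsSigns ω) (n : ℕ) {x : ℝ} (hx : x ∈ Icc (0 : ℝ) 1) :
    |term ω n x| ≤ (1 / 2 : ℝ) ^ n * (1 / 2) := by
  unfold term
  rw [abs_mul, abs_mul, abs_of_nonneg (phi_nonneg _), abs_of_pos (by positivity : (0 : ℝ) < (1 / 2) ^ n)]
  have h1 : |ω n x| = 1 := by
    rcases hω.sign n x hx with h | h <;> rw [h] <;> norm_num
  rw [h1, mul_one]
  exact mul_le_mul_of_nonneg_left (phi_le _) (by positivity)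

lemma summable_term (hω : IsSigns ω) {x : ℝ} (hx : x ∈ Icc (0 : ℝ) 1) :
    Summable fun n => term ω n x := by
  refine Summable.of_norm_bounded (g := fun n => (1 / 2 : ℝ) ^ n * (1 / 2)) ?_ fun n => ?_
  · exact (summable_geometric_of_lt_one (by norm_num) (by norm_num)).mul_right _
  · rw [Real.norm_eq_abs]
    exact abs_term hω n hx

/-- The partial sums. -/
noncomputable def psum (ω : ℕ → ℝ → ℝ) (n : ℕ) (x : ℝ) : ℝ := ∑ k ∈ Finset.range n, term ω k x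

lemma abs_tail (hω : IsSigns ω) (n : ℕ) {x : ℝ} (hx : x ∈ Icc (0 : ℝ) 1) :
    |takagi ω x - psum ω n x| ≤ (1 / 2 : ℝ) ^ n := by
  have h1 := (summable_term hω hx).sum_add_tsum_nat_add n
  have h2 : takagi ω x - psum ω n x = ∑' k, term ω (k + n) x := by
    have e : takagi ω x = ∑' k, term ω k x := rfl
    rw [e, ← h1]
    unfold psum
    ring
  rw [h2]
  have h3 : HasSum (fun k : ℕ => (1 / 2 : ℝ) ^ (k + n) * (1 / 2)) ((1 / 2 : ℝ) ^ n) := by
    have h4 := (hasSum_geometric_of_lt_one (by norm_num : (0 : ℝ) ≤ 1 / 2) (by norm_num)).mul_right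
      ((1 / 2 : ℝ) ^ n * (1 / 2))
    have e1 : (fun k : ℕ => (1 / 2 : ℝ) ^ (k + n) * (1 / 2)) =
        fun k => (1 / 2 : ℝ) ^ k * ((1 / 2 : ℝ) ^ n * (1 / 2)) := by
      funext k; rw [pow_add]; ring
    have e2 : (1 - 1 / 2)⁻¹ * ((1 / 2 : ℝ) ^ n * (1 / 2)) = (1 / 2 : ℝ) ^ n := by
      norm_num
      ring
    rw [e2] at h4
    rw [e1]
    exact h4
  rw [← Real.norm_eq_abs]
  exact tsum_of_norm_bounded h3 fun k => by
    rw [Real.norm_eq_abs]
    exact abs_term hω _ hx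

lemma takagi_dyadic (n j : ℕ) : takagi ω ((j : ℝ) / 2 ^ n) = psum ω n ((j : ℝ) / 2 ^ n) := by
  have e : takagi ω ((j : ℝ) / 2 ^ n) = ∑' k, term ω k ((j : ℝ) / 2 ^ n) := rfl
  rw [e]
  unfold psum
  apply tsum_eq_sum
  intro k hk
  have hk' : n ≤ k := by
    by_contra h
    exact hk (Finset.mem_range.2 (by omega))
  obtain ⟨m, rfl⟩ := Nat.exists_eq_add_of_le hk'
  unfold term
  have h1 : (2 : ℝ) ^ (n + m) * ((j : ℝ) / 2 ^ n) = ((2 ^ m * j : ℕ) : ℝ) := by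
    push_cast
    rw [pow_add]
    field_simp
  rw [h1, phi_nat, mul_zero]

/-- The slopes. -/
noncomputable def slope (ω : ℕ → ℝ → ℝ) : ℕ → ℕ → ℤ
  | 0, _ => 0
  | (n + 1), j => slope ω n (j / 2) + if j % 2 = 0 then w ω n (j / 2) else -w ω n (j / 2)

lemma slope_zero (j : ℕ) : slope ω 0 j = 0 := rfl

lemma slope_left (n j : ℕ) : slope ω (n + 1) (2 * j) = slope ω n j + w ω n j := by
  rw [slope, if_pos (by omega), show 2 * j / 2 = j by omega]

lemma slope_right (n j : ℕ) : slope ω (n + 1) (2 * j + 1) = slope ω n j - w ω n j := by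
  rw [slope, if_neg (by omega), show (2 * j + 1) / 2 = j by omega, sub_eq_add_neg]

lemma abs_slope_le (n j : ℕ) : |slope ω n j| ≤ n := by
  induction n generalizing j with
  | zero => rw [slope_zero]; simp
  | succ n ih =>
    have h1 := ih (j / 2)
    rw [slope]
    rw [abs_le] at h1 ⊢
    push_cast
    rcases w_cases (ω := ω) n (j / 2) with h | h <;> rw [h] <;> split_ifs <;> constructor <;>
      linarith [h1.1, h1.2]

lemma child_left_sub {n j : ℕ} {x : ℝ}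
    (hx : x ∈ Icc (((2 * j : ℕ) : ℝ) / 2 ^ (n + 1)) ((((2 * j : ℕ) : ℝ) + 1) / 2 ^ (n + 1))) :
    (j : ℝ) ≤ 2 ^ n * x ∧ 2 ^ n * x ≤ j + 1 / 2 := by
  obtain ⟨h1, h2⟩ := hx
  rw [div_le_iff₀ (by positivity), pow_succ] at h1
  rw [le_div_iff₀ (by positivity), pow_succ] at h2
  push_cast at h1 h2
  constructor <;> linarith

lemma child_right_sub {n j : ℕ} {x : ℝ}
    (hx : x ∈ Icc (((2 * j + 1 : ℕ) : ℝ) / 2 ^ (n + 1)) ((((2 * j + 1 : ℕ) : ℝ) + 1) / 2 ^ (n + 1))) :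
    (j : ℝ) + 1 / 2 ≤ 2 ^ n * x ∧ 2 ^ n * x ≤ j + 1 := by
  obtain ⟨h1, h2⟩ := hx
  rw [div_le_iff₀ (by positivity), pow_succ] at h1
  rw [le_div_iff₀ (by positivity), pow_succ] at h2
  push_cast at h1 h2
  constructor <;> linarith

lemma mem_of_scaled {n j : ℕ} {x : ℝ} (h1 : (j : ℝ) ≤ 2 ^ n * x) (h2 : 2 ^ n * x ≤ j + 1) :
    x ∈ Icc ((j : ℝ) / 2 ^ n) (((j : ℝ) + 1) / 2 ^ n) := by
  constructor
  · rw [div_le_iff₀ (by positivity)]; linarith
  · rw [le_div_iff₀ (by positivity)]; linarith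

lemma psum_affine (hω : IsSigns ω) (n j : ℕ) (hj : j < 2 ^ n) :
    ∀ x ∈ Icc ((j : ℝ) / 2 ^ n) (((j : ℝ) + 1) / 2 ^ n),
      psum ω n x = psum ω n ((j : ℝ) / 2 ^ n) + slope ω n j * (x - (j : ℝ) / 2 ^ n) := by
  induction n generalizing j with
  | zero => intro x _; simp [psum, slope_zero]
  | succ n ih =>
    intro x hx
    have key : ∀ i : ℕ, i < 2 ^ n → ∀ x x₀ : ℝ,
        x ∈ Icc ((i : ℝ) / 2 ^ n) (((i : ℝ) + 1) / 2 ^ n) →
        x₀ ∈ Icc ((i : ℝ) / 2 ^ n) (((i : ℝ) + 1) / 2 ^ n) →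
        psum ω (n + 1) x = psum ω (n + 1) x₀ + slope ω n i * (x - x₀) +
          (1 / 2 : ℝ) ^ n * w ω n i * (phi (2 ^ n * x) - phi (2 ^ n * x₀)) := by
      intro i hi x x₀ hx hx₀
      have h1 := ih i hi x hx
      have h2 := ih i hi x₀ hx₀
      have h3 := term_eq hω hi hx
      have h4 := term_eq hω hi hx₀
      have e : ∀ t, psum ω (n + 1) t = psum ω n t + term ω n t := fun t => by
        unfold psum
        rw [Finset.sum_range_succ]
      rw [e, e, h3, h4, h1, h2]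
      ring
    rcases Nat.even_or_odd' j with ⟨i, rfl | rfl⟩
    · have hi : i < 2 ^ n := by rw [pow_succ] at hj; omega
      obtain ⟨a1, a2⟩ := child_left_sub hx
      obtain ⟨b1, b2⟩ := child_left_sub (n := n) (j := i) left_mem'
      rw [key i hi x _ (mem_of_scaled a1 (by linarith)) (mem_of_scaled b1 (by linarith)),
        phi_left a1 a2, phi_left b1 b2, slope_left]
      have h5 : (1 / 2 : ℝ) ^ n * 2 ^ n = 1 := by rw [← mul_pow]; norm_num
      push_cast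
      linear_combination (w ω n i : ℝ) * (x - 2 * i / 2 ^ (n + 1)) * h5
    · have hi : i < 2 ^ n := by rw [pow_succ] at hj; omega
      obtain ⟨a1, a2⟩ := child_right_sub hx
      obtain ⟨b1, b2⟩ := child_right_sub (n := n) (j := i) left_mem'
      rw [key i hi x _ (mem_of_scaled (by linarith) a2) (mem_of_scaled (by linarith) b2),
        phi_right a1 a2, phi_right b1 b2, slope_right]
      have h5 : (1 / 2 : ℝ) ^ n * 2 ^ n = 1 := by rw [← mul_pow]; norm_num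
      push_cast
      linear_combination -(w ω n i : ℝ) * (x - (2 * i + 1) / 2 ^ (n + 1)) * h5

/-- The values at dyadic points. -/
noncomputable def F (ω : ℕ → ℝ → ℝ) (n j : ℕ) : ℝ := takagi ω ((j : ℝ) / 2 ^ n)

lemma F_even (n j : ℕ) : F ω (n + 1) (2 * j) = F ω n j := by
  unfold F
  congr 1
  push_cast
  rw [pow_succ]
  field_simp

lemma F_succ (hω : IsSigns ω) {n j : ℕ} (hj : j < 2 ^ n) :
    F ω n (j + 1) = F ω n j + slope ω n j * (1 / 2 : ℝ) ^ n := by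
  unfold F
  have h := psum_affine hω n j hj _ right_mem'
  have h1 := takagi_dyadic (ω := ω) n (j + 1)
  push_cast at h1 ⊢
  rw [h1, h, takagi_dyadic, ← sub_div, add_sub_cancel_left, one_div_pow]

lemma takagi_near (hω : IsSigns ω) {n j : ℕ} (hj : j < 2 ^ n) {x : ℝ}
    (hx : x ∈ Icc ((j : ℝ) / 2 ^ n) (((j : ℝ) + 1) / 2 ^ n)) :
    |takagi ω x - (F ω n j + slope ω n j * (x - (j : ℝ) / 2 ^ n))| ≤ (1 / 2 : ℝ) ^ n := by
  have h1 := abs_tail hω n (Icc_sub hj hx)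
  rw [psum_affine hω n j hj x hx, ← takagi_dyadic] at h1
  exact h1

lemma takagi_near' (hω : IsSigns ω) {n j : ℕ} (hj : j < 2 ^ n) {x : ℝ}
    (hx : x ∈ Icc ((j : ℝ) / 2 ^ n) (((j : ℝ) + 1) / 2 ^ n)) :
    |takagi ω x - F ω n j| ≤ (|(slope ω n j : ℝ)| + 1) * (1 / 2 : ℝ) ^ n := by
  have h1 := takagi_near hω hj hx
  have h2 : |(slope ω n j : ℝ) * (x - (j : ℝ) / 2 ^ n)| ≤ |(slope ω n j : ℝ)| * (1 / 2 : ℝ) ^ n := by
    rw [abs_mul]
    apply mul_le_mul_of_nonneg_left _ (abs_nonneg _)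
    have h3 : x - (j : ℝ) / 2 ^ n ≤ (1 / 2 : ℝ) ^ n := by
      have h4 := hx.2
      rw [add_div] at h4
      rw [one_div_pow]
      linarith
    rw [abs_of_nonneg (by linarith [hx.1])]
    exact h3
  have h3 := abs_add_le (takagi ω x - (F ω n j + slope ω n j * (x - (j : ℝ) / 2 ^ n)))
    ((slope ω n j : ℝ) * (x - (j : ℝ) / 2 ^ n))
  have h4 : takagi ω x - (F ω n j + slope ω n j * (x - (j : ℝ) / 2 ^ n)) +
    (slope ω n j : ℝ) * (x - (j : ℝ) / 2 ^ n) = takagi ω x - F ω n j := by ring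
  rw [h4] at h3
  linarith

end Q91.Takagi
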