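import Mathlib
import Pool.Agent.Q91.Takagi

/-!
# Generalized Takagi functions: level sets hitting finitely many zero-slope intervals
-/

open Set Filter Topology

namespace Q91.Takagi

variable {ω : ℕ → ℝ → ℝ}

/-- The closed dyadic interval. -/
def cI (n j : ℕ) : Set ℝ := Icc ((j : ℝ) / 2 ^ n) (((j : ℝ) + 1) / 2 ^ n)

/-- The half-open dyadic interval. -/
def oI (n j : ℕ) : Set ℝ := Ico ((j : ℝ) / 2 ^ n) (((j : ℝ) + 1) / 2 ^ n)

lemma oI_sub_cI (n j : ℕ) : oI n j ⊆ cI n j := Ico_subset_Icc_self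

lemma mem_cI {n j : ℕ} {x : ℝ} : x ∈ cI n j ↔ (j : ℝ) ≤ 2 ^ n * x ∧ 2 ^ n * x ≤ j + 1 := by
  unfold cI
  rw [mem_Icc, div_le_iff₀ (by positivity), le_div_iff₀ (by positivity), mul_comm x]

lemma mem_oI {n j : ℕ} {x : ℝ} : x ∈ oI n j ↔ (j : ℝ) ≤ 2 ^ n * x ∧ 2 ^ n * x < j + 1 := by
  unfold oI
  rw [mem_Ico, div_le_iff₀ (by positivity), lt_div_iff₀ (by positivity), mul_comm x]

lemma cI_child {n j : ℕ} {x : ℝ} (hx : x ∈ cI n j) :
    x ∈ cI (n + 1) (2 * j) ∨ x ∈ cI (n + 1) (2 * j + 1) := by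
  rw [mem_cI] at hx
  rcases le_total (2 ^ (n + 1) * x) (2 * j + 1) with h | h
  · left
    rw [mem_cI]
    push_cast
    rw [pow_succ] at h ⊢
    constructor <;> linarith [hx.1]
  · right
    rw [mem_cI]
    push_cast
    rw [pow_succ] at h ⊢
    constructor <;> linarith [hx.2]

lemma oI_child {n j : ℕ} {x : ℝ} (hx : x ∈ oI n j) :
    x ∈ oI (n + 1) (2 * j) ∨ x ∈ oI (n + 1) (2 * j + 1) := by
  rw [mem_oI] at hx
  rcases lt_or_ge (2 ^ (n + 1) * x) (2 * j + 1) with h | h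
  · left
    rw [mem_oI]
    push_cast
    rw [pow_succ] at h ⊢
    constructor <;> linarith [hx.1]
  · right
    rw [mem_oI]
    push_cast
    rw [pow_succ] at h ⊢
    constructor <;> linarith [hx.2]

lemma cI_left {n j : ℕ} : cI (n + 1) (2 * j) ⊆ cI n j := by
  intro x hx
  rw [mem_cI] at hx ⊢
  push_cast at hx
  rw [pow_succ] at hx
  constructor <;> linarith [hx.1, hx.2]

lemma cI_right {n j : ℕ} : cI (n + 1) (2 * j + 1) ⊆ cI n j := by
  intro x hx
  rw [mem_cI] at hx ⊢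
  push_cast at hx
  rw [pow_succ] at hx
  constructor <;> linarith [hx.1, hx.2]

lemma oI_left {n j : ℕ} : oI (n + 1) (2 * j) ⊆ oI n j := by
  intro x hx
  rw [mem_oI] at hx ⊢
  push_cast at hx
  rw [pow_succ] at hx
  constructor <;> linarith [hx.1, hx.2]

lemma oI_right {n j : ℕ} : oI (n + 1) (2 * j + 1) ⊆ oI n j := by
  intro x hx
  rw [mem_oI] at hx ⊢
  push_cast at hx
  rw [pow_succ] at hx
  constructor <;> linarith [hx.1, hx.2]

lemma oI_disj {n j : ℕ} : Disjoint (oI (n + 1) (2 * j)) (oI (n + 1) (2 * j + 1)) := by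
  rw [Set.disjoint_left]
  intro x hx hx'
  rw [mem_oI] at hx hx'
  push_cast at hx hx'
  linarith [hx.2, hx'.1]

lemma exists_cI {x : ℝ} (hx : x ∈ Icc (0 : ℝ) 1) (n : ℕ) : ∃ j < 2 ^ n, x ∈ cI n j := by
  rcases hx.2.lt_or_eq with h | h
  · refine ⟨⌊2 ^ n * x⌋₊, ?_, ?_⟩
    · rw [Nat.floor_lt (by have := hx.1; positivity)]
      push_cast
      have : (0 : ℝ) < 2 ^ n := by positivity
      nlinarith
    · rw [mem_cI]
      exact ⟨Nat.floor_le (by have := hx.1; positivity), (Nat.lt_floor_add_one _).le⟩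
  · have h1 : 1 ≤ 2 ^ n := Nat.one_le_two_pow
    refine ⟨2 ^ n - 1, by omega, ?_⟩
    rw [mem_cI, h]
    push_cast [h1]
    constructor <;> linarith

/-! ### The number of solutions in an interval without zero-slope subintervals -/

lemma F_mid (hω : IsSigns ω) {n j : ℕ} (hj : j < 2 ^ n) :
    F ω (n + 1) (2 * j + 1) = F ω n j + slope ω (n + 1) (2 * j) * (1 / 2 : ℝ) ^ (n + 1) := by
  rw [F_succ hω (by rw [pow_succ]; omega), F_even]

lemma F_mid' (hω : IsSigns ω) {n j : ℕ} (hj : j < 2 ^ n) :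
    F ω n (j + 1) = F ω (n + 1) (2 * j + 1)
      + slope ω (n + 1) (2 * j + 1) * (1 / 2 : ℝ) ^ (n + 1) := by
  rw [← F_even, show 2 * (j + 1) = 2 * j + 1 + 1 by ring, F_succ hω (by rw [pow_succ]; omega)]

lemma path (hω : IsSigns ω) {N : ℕ} {y : ℝ} {τ : ℤ} (hτ : τ = 1 ∨ τ = -1)
    (hno : ∀ n, N ≤ n → ∀ j < 2 ^ n, slope ω n j = 0 → ∀ x ∈ cI n j, takagi ω x ≠ y) {x : ℝ}
    (hx : takagi ω x = y) {n j : ℕ} (hn : N ≤ n) (hj : j < 2 ^ n) (hxj : x ∈ cI n j)
    (hs : 0 < τ * slope ω n j) (p : ℕ) :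
    ∃ k < 2 ^ (n + p), x ∈ cI (n + p) k ∧ 0 < τ * slope ω (n + p) k ∧
      τ * F ω n j ≤ τ * F ω (n + p) k ∧ τ * F ω (n + p) (k + 1) ≤ τ * F ω n (j + 1) := by
  induction p with
  | zero => exact ⟨j, hj, hxj, hs, le_rfl, le_rfl⟩
  | succ p ih =>
    obtain ⟨k, hk, hxk, hsk, h1, h2⟩ := ih
    have hkl : 2 * k < 2 ^ (n + p + 1) := by rw [pow_succ]; omega
    have hkr : 2 * k + 1 < 2 ^ (n + p + 1) := by rw [pow_succ]; omega
    have hl := slope_left (ω := ω) (n + p) k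
    have hr := slope_right (ω := ω) (n + p) k
    have hl0 : 0 ≤ τ * slope ω (n + p + 1) (2 * k) := by
      rw [hl, mul_add]
      rcases hτ with rfl | rfl <;> rcases w_cases (ω := ω) (n + p) k with h | h <;> rw [h] <;>
        omega
    have hr0 : 0 ≤ τ * slope ω (n + p + 1) (2 * k + 1) := by
      rw [hr, mul_sub]
      rcases hτ with rfl | rfl <;> rcases w_cases (ω := ω) (n + p) k with h | h <;> rw [h] <;>
        omega
    have hpow : (0 : ℝ) < (1 / 2 : ℝ) ^ (n + p + 1) := by positivity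
    have hl0' : (0 : ℝ) ≤ τ * (slope ω (n + p + 1) (2 * k) * (1 / 2 : ℝ) ^ (n + p + 1)) := by
      rw [← mul_assoc]
      exact mul_nonneg (by exact_mod_cast hl0) hpow.le
    have hr0' : (0 : ℝ) ≤ τ * (slope ω (n + p + 1) (2 * k + 1) * (1 / 2 : ℝ) ^ (n + p + 1)) := by
      rw [← mul_assoc]
      exact mul_nonneg (by exact_mod_cast hr0) hpow.le
    have hm := F_mid hω hk
    have hm' := F_mid' hω hk
    have ne0 : ∀ z : ℤ, τ * z ≠ 0 ↔ z ≠ 0 := by
      intro z
      rcases hτ with rfl | rfl <;> omega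
    rcases cI_child hxk with hc | hc
    · refine ⟨2 * k, hkl, hc, ?_, ?_, ?_⟩
      · refine lt_of_le_of_ne hl0 (Ne.symm ?_)
        rw [ne0]
        intro h0
        exact hno _ (by omega) _ hkl h0 x hc hx
      · have := F_even (ω := ω) (n + p) k
        rw [show n + (p + 1) = n + p + 1 by ring, this]
        exact h1
      · rw [show n + (p + 1) = n + p + 1 by ring]
        rw [hm', mul_add] at h2
        linarith
    · refine ⟨2 * k + 1, hkr, hc, ?_, ?_, ?_⟩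
      · refine lt_of_le_of_ne hr0 (Ne.symm ?_)
        rw [ne0]
        intro h0
        exact hno _ (by omega) _ hkr h0 x hc hx
      · rw [show n + (p + 1) = n + p + 1 by ring, hm, mul_add]
        linarith
      · have := F_even (ω := ω) (n + p) (k + 1)
        rw [show n + (p + 1) = n + p + 1 by ring, show 2 * k + 1 + 1 = 2 * (k + 1) by ring, this]
        exact h2

lemma mono (hω : IsSigns ω) {N : ℕ} {y : ℝ} {τ : ℤ} (hτ : τ = 1 ∨ τ = -1)
    (hno : ∀ n, N ≤ n → ∀ j < 2 ^ n, slope ω n j = 0 → ∀ x ∈ cI n j, takagi ω x ≠ y) {x : ℝ}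
    (hx : takagi ω x = y) {n j : ℕ} (hn : N ≤ n) (hj : j < 2 ^ n) (hxj : x ∈ cI n j)
    (hs : 0 < τ * slope ω n j) : τ * F ω n j ≤ τ * y ∧ τ * y ≤ τ * F ω n (j + 1) := by
  have hlim : Tendsto (fun p : ℕ => (2 * ((n + p : ℕ) : ℝ) ^ 1 + 1) * (1 / 2 : ℝ) ^ (n + p)) atTop
      (𝓝 0) := by
    have h1 : Tendsto (fun m : ℕ => (2 * ((m : ℕ) : ℝ) ^ 1 + 1) * (1 / 2 : ℝ) ^ m) atTop (𝓝 0) := by
      have h2 := tendsto_pow_const_mul_const_pow_of_lt_one 1 (r := (1 / 2 : ℝ)) (by norm_num)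
        (by norm_num)
      have h3 := tendsto_pow_atTop_nhds_zero_of_lt_one (r := (1 / 2 : ℝ)) (by norm_num)
        (by norm_num)
      have h4 := (h2.const_mul 2).add h3
      rw [mul_zero, add_zero] at h4
      refine h4.congr fun m => ?_
      ring
    have h2 := h1.comp (tendsto_add_atTop_nat n)
    refine h2.congr fun p => ?_
    simp only [Function.comp]
    rw [add_comm p n]
  have hbd : ∀ p : ℕ, τ * F ω n j ≤ τ * y + (2 * ((n + p : ℕ) : ℝ) ^ 1 + 1) * (1 / 2 : ℝ) ^ (n + p)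
      ∧ τ * y ≤ τ * F ω n (j + 1) + (2 * ((n + p : ℕ) : ℝ) ^ 1 + 1) * (1 / 2 : ℝ) ^ (n + p) := by
    intro p
    obtain ⟨k, hk, hxk, hsk, h1, h2⟩ := path hω hτ hno hx hn hj hxj hs p
    have h3 := takagi_near' hω hk hxk
    rw [hx] at h3
    have h4 : |(slope ω (n + p) k : ℝ)| ≤ ((n + p : ℕ) : ℝ) := by
      have := abs_slope_le (ω := ω) (n + p) k
      exact_mod_cast this
    have hpow : (0 : ℝ) < (1 / 2 : ℝ) ^ (n + p) := by positivity
    have h5 : |y - F ω (n + p) k| ≤ (((n + p : ℕ) : ℝ) + 1) * (1 / 2 : ℝ) ^ (n + p) :=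
      h3.trans (mul_le_mul_of_nonneg_right (by linarith) hpow.le)
    have h6 := F_succ hω hk
    have h7 : |(slope ω (n + p) k : ℝ) * (1 / 2 : ℝ) ^ (n + p)| ≤
        ((n + p : ℕ) : ℝ) * (1 / 2 : ℝ) ^ (n + p) := by
      rw [abs_mul, abs_of_pos hpow]
      exact mul_le_mul_of_nonneg_right h4 hpow.le
    rw [abs_le] at h5 h7
    rw [h6] at h2
    have h8 : (0 : ℝ) ≤ ((n + p : ℕ) : ℝ) * (1 / 2 : ℝ) ^ (n + p) := by positivity
    rw [pow_one]
    rcases hτ with rfl | rfl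
    · push_cast at h1 h2 h5 h7 h8 ⊢
      constructor <;> linarith [h5.1, h5.2, h7.1, h7.2]
    · push_cast at h1 h2 h5 h7 h8 ⊢
      constructor <;> linarith [h5.1, h5.2, h7.1, h7.2]
  constructor
  · have h := (hlim.const_add (τ * y : ℝ))
    rw [add_zero] at h
    exact ge_of_tendsto' h fun p => (hbd p).1
  · have h := (hlim.const_add (τ * F ω n (j + 1) : ℝ))
    rw [add_zero] at h
    exact ge_of_tendsto' h fun p => (hbd p).2

lemma at_most_one (hω : IsSigns ω) {N : ℕ} {y : ℝ}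
    (hno : ∀ n, N ≤ n → ∀ j < 2 ^ n, slope ω n j = 0 → ∀ x ∈ cI n j, takagi ω x ≠ y)
    (hdy : ∀ n j : ℕ, j ≤ 2 ^ n → F ω n j ≠ y) {x x' : ℝ} (hx : takagi ω x = y)
    (hx' : takagi ω x' = y) (p : ℕ) : ∀ n j : ℕ, N ≤ n → j < 2 ^ n → x ∈ cI n j → x' ∈ cI n j →
      x' - x ≤ (1 / 2 : ℝ) ^ (n + p) := by
  induction p with
  | zero =>
    intro n j _ _ h1 h2
    have h3 := h2.2
    have h4 := h1.1
    rw [add_zero, one_div_pow]
    rw [add_div] at h3
    linarith
  | succ p ih =>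
    intro n j hn hj h1 h2
    have hjl : 2 * j < 2 ^ (n + 1) := by rw [pow_succ]; omega
    have hjr : 2 * j + 1 < 2 ^ (n + 1) := by rw [pow_succ]; omega
    rcases cI_child h1 with h3 | h3 <;> rcases cI_child h2 with h4 | h4
    · have := ih (n + 1) (2 * j) (by omega) hjl h3 h4
      rwa [show n + 1 + p = n + (p + 1) by ring] at this
    · -- separated
      exfalso
      have hs0 : slope ω n j ≠ 0 := fun h0 => hno n hn j hj h0 x h1 hx
      have hl0 : slope ω (n + 1) (2 * j) ≠ 0 := fun h0 => hno _ (by omega) _ hjl h0 x h3 hx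
      have hr0 : slope ω (n + 1) (2 * j + 1) ≠ 0 := fun h0 => hno _ (by omega) _ hjr h0 x' h4 hx'
      have hl := slope_left (ω := ω) n j
      have hr := slope_right (ω := ω) n j
      obtain ⟨τ, hτ, hτl, hτr⟩ : ∃ τ : ℤ, (τ = 1 ∨ τ = -1) ∧
          0 < τ * slope ω (n + 1) (2 * j) ∧ 0 < τ * slope ω (n + 1) (2 * j + 1) := by
        rcases lt_or_gt_of_ne hs0 with h | h
        · refine ⟨-1, Or.inr rfl, ?_, ?_⟩ <;> rcases w_cases (ω := ω) n j with h5 | h5 <;>
            rw [h5] at hl hr <;> omega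
        · refine ⟨1, Or.inl rfl, ?_, ?_⟩ <;> rcases w_cases (ω := ω) n j with h5 | h5 <;>
            rw [h5] at hl hr <;> omega
      have m1 := (mono hω hτ hno hx (by omega) hjl h3 hτl).2
      have m2 := (mono hω hτ hno hx' (by omega) hjr h4 hτr).1
      apply hdy (n + 1) (2 * j + 1) (by omega)
      rcases hτ with rfl | rfl
      · push_cast at m1 m2
        linarith
      · push_cast at m1 m2
        linarith
    · have h5 : x' ≤ x := by
        rw [mem_cI] at h3 h4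
        push_cast at h3 h4
        have h6 : 2 ^ (n + 1) * x' ≤ 2 ^ (n + 1) * x := by linarith [h3.1, h4.2]
        exact le_of_mul_le_mul_left h6 (by positivity)
      have : (0 : ℝ) ≤ (1 / 2) ^ (n + (p + 1)) := by positivity
      linarith
    · have := ih (n + 1) (2 * j + 1) (by omega) hjr h3 h4
      rwa [show n + 1 + p = n + (p + 1) by ring] at this

/-- If only finitely many zero-slope dyadic intervals meet the level set at height `y`, and `y` is
not the value at a dyadic point, then the level set is finite. -/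
theorem finite_of (hω : IsSigns ω) {N : ℕ} {y : ℝ}
    (hno : ∀ n, N ≤ n → ∀ j < 2 ^ n, slope ω n j = 0 → ∀ x ∈ cI n j, takagi ω x ≠ y)
    (hdy : ∀ n j : ℕ, j ≤ 2 ^ n → F ω n j ≠ y) :
    {x ∈ Icc (0 : ℝ) 1 | takagi ω x = y}.Finite := by
  have hcov : {x ∈ Icc (0 : ℝ) 1 | takagi ω x = y} ⊆
      ⋃ j ∈ Finset.range (2 ^ N), {x | x ∈ cI N j ∧ takagi ω x = y} := by
    rintro x ⟨hx, hxy⟩
    obtain ⟨j, hj, hxj⟩ := exists_cI hx N
    exact mem_biUnion (Finset.mem_coe.2 (Finset.mem_range.2 hj)) ⟨hxj, hxy⟩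
  refine Set.Finite.subset ?_ hcov
  refine Set.Finite.biUnion (Finset.finite_toSet _) fun j hj => ?_
  have hj' : j < 2 ^ N := Finset.mem_range.1 (Finset.mem_coe.1 hj)
  apply Set.Subsingleton.finite
  rintro x ⟨hx, hxy⟩ x' ⟨hx', hxy'⟩
  have hlim : Tendsto (fun p : ℕ => (1 / 2 : ℝ) ^ (N + p)) atTop (𝓝 0) := by
    have h3 := tendsto_pow_atTop_nhds_zero_of_lt_one (r := (1 / 2 : ℝ)) (by norm_num)
      (by norm_num)
    have h2 := h3.comp (tendsto_add_atTop_nat N)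
    refine h2.congr fun p => ?_
    simp only [Function.comp]
    rw [add_comm p N]
  have h1 : x' - x ≤ 0 :=
    ge_of_tendsto' hlim fun p => at_most_one hω hno hdy hxy hxy' p N j le_rfl hj' hx hx'
  have h2 : x - x' ≤ 0 :=
    ge_of_tendsto' hlim fun p => at_most_one hω hno hdy hxy' hxy p N j le_rfl hj' hx' hx
  linarith

end Q91.Takagi
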