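import Mathlib
import Pool.Agent.Q91.TakagiA

/-!
# Generalized Takagi functions: nested zero-slope intervals and the occupation measure
-/

open Set Filter Topology MeasureTheory
open scoped ENNReal

namespace Q91.Takagi

variable {ω : ℕ → ℝ → ℝ}

/-- A node in the left half of `(n, i)` with normalized left value `a` and slope `σ`. -/
def Nd (ω : ℕ → ℝ → ℝ) (n i p : ℕ) (a : ℝ) (σ : ℤ) : Prop :=
  ∃ k < 2 ^ (n + p), oI (n + p) k ⊆ oI (n + 1) (2 * i) ∧
    w ω n i * (F ω (n + p) k - F ω n i) = a * (1 / 2 : ℝ) ^ n ∧ w ω n i * slope ω (n + p) k = σ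

lemma Nd_child (hω : IsSigns ω) {n i p : ℕ} {a : ℝ} {σ : ℤ} (h : Nd ω n i p a σ) :
    (Nd ω n i (p + 1) a (σ + 1) ∧ Nd ω n i (p + 1) (a + (σ + 1) * (1 / 2) ^ (p + 1)) (σ - 1)) ∨
    (Nd ω n i (p + 1) a (σ - 1) ∧ Nd ω n i (p + 1) (a + (σ - 1) * (1 / 2) ^ (p + 1)) (σ + 1)) := by
  obtain ⟨k, hk, hsub, hF, hs⟩ := h
  have hkl : 2 * k < 2 ^ (n + p + 1) := by rw [pow_succ]; omega
  have hkr : 2 * k + 1 < 2 ^ (n + p + 1) := by rw [pow_succ]; omega
  have hl := slope_left (ω := ω) (n + p) k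
  have hr := slope_right (ω := ω) (n + p) k
  have hm := F_mid hω hk
  have he := F_even (ω := ω) (n + p) k
  obtain ⟨e, he1, hew⟩ : ∃ e : ℤ, (e = 1 ∨ e = -1) ∧ w ω n i * w ω (n + p) k = e := by
    refine ⟨_, ?_, rfl⟩
    rcases w_cases (ω := ω) n i with h1 | h1 <;> rcases w_cases (ω := ω) (n + p) k with h2 | h2 <;>
      rw [h1, h2] <;> simp
  have h1 : Nd ω n i (p + 1) a (σ + e) := by
    refine ⟨2 * k, hkl, oI_left.trans hsub, ?_, ?_⟩
    · rw [show n + (p + 1) = n + p + 1 by ring, he, hF]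
    · rw [show n + (p + 1) = n + p + 1 by ring, hl, mul_add, hs, hew]
  have h2 : Nd ω n i (p + 1) (a + (σ + e) * (1 / 2) ^ (p + 1)) (σ - e) := by
    refine ⟨2 * k + 1, hkr, oI_right.trans hsub, ?_, ?_⟩
    · rw [show n + (p + 1) = n + p + 1 by ring, hm, hl]
      have h3 : ((w ω n i : ℝ)) * (slope ω (n + p) k + w ω (n + p) k : ℝ) = σ + e := by
        rw [mul_add]
        exact_mod_cast congrArg₂ (· + ·) hs hew
      have h4 : (1 / 2 : ℝ) ^ (n + p + 1) = (1 / 2) ^ (p + 1) * (1 / 2) ^ n := by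
        rw [← pow_add]; congr 1; ring
      push_cast
      rw [h4]
      linear_combination hF + (1 / 2 : ℝ) ^ (p + 1) * (1 / 2) ^ n * h3
    · rw [show n + (p + 1) = n + p + 1 by ring, hr, mul_sub, hs, hew]
  rcases he1 with rfl | rfl
  · left
    push_cast at h2
    exact ⟨h1, h2⟩
  · right
    push_cast at h2
    rw [← sub_eq_add_neg] at h1 h2
    rw [sub_neg_eq_add] at h2
    exact ⟨h1, h2⟩

lemma Nd_descend (hω : IsSigns ω) {n i : ℕ} (q : ℕ) : ∀ (p : ℕ) (a : ℝ), Nd ω n i p a q →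
    ∃ b, a ≤ b ∧ b ≤ a + q * (1 / 2) ^ p ∧ Nd ω n i (p + q) b 0 := by
  induction q with
  | zero =>
    intro p a h
    exact ⟨a, le_rfl, by simp, h⟩
  | succ q ih =>
    intro p a h
    have hp : (1 / 2 : ℝ) ^ (p + 1) = (1 / 2) ^ p / 2 := by rw [pow_succ]; ring
    have hp0 : (0 : ℝ) < (1 / 2) ^ p := by positivity
    have hq0 : (0 : ℝ) ≤ q := Nat.cast_nonneg q
    have hq1 : (0 : ℝ) ≤ q * (1 / 2) ^ p := by positivity
    rcases Nd_child hω h with ⟨-, h1⟩ | ⟨h1, -⟩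
    · have e : ((q + 1 : ℕ) : ℤ) - 1 = (q : ℤ) := by push_cast; ring
      rw [e] at h1
      obtain ⟨b, hb1, hb2, hb3⟩ := ih _ _ h1
      refine ⟨b, ?_, ?_, ?_⟩
      · refine le_trans ?_ hb1
        push_cast
        have : (0 : ℝ) ≤ (q + 1 + 1) * (1 / 2) ^ (p + 1) := by positivity
        linarith
      · refine hb2.trans (le_of_eq ?_)
        push_cast
        rw [hp]
        ring
      · rwa [show p + (q + 1) = p + 1 + q by ring]
    · have e : ((q + 1 : ℕ) : ℤ) - 1 = (q : ℤ) := by push_cast; ring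
      rw [e] at h1
      obtain ⟨b, hb1, hb2, hb3⟩ := ih _ _ h1
      refine ⟨b, hb1, ?_, ?_⟩
      · refine hb2.trans ?_
        push_cast
        rw [hp]
        nlinarith
      · rwa [show p + (q + 1) = p + 1 + q by ring]

/-- Each zero-slope interval has a zero-slope subinterval in its left half, at most eight levels
deeper, whose image is covered by the values at the end points of the right half. -/
lemma good_child (hω : IsSigns ω) {n i : ℕ} (hi : i < 2 ^ n) (h0 : slope ω n i = 0) :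
    ∃ n' i', i' < 2 ^ n' ∧ n + 1 ≤ n' ∧ n' ≤ n + 8 ∧ slope ω n' i' = 0 ∧
      oI n' i' ⊆ oI (n + 1) (2 * i) ∧
      ∀ x ∈ cI n' i', takagi ω x ∈ uIcc (F ω (n + 1) (2 * i + 1)) (F ω (n + 1) (2 * i + 2)) := by
  have hw := w_cases (ω := ω) n i
  have hww : (w ω n i : ℝ) * w ω n i = 1 := by rcases hw with h | h <;> rw [h] <;> norm_num
  have s1 : Nd ω n i 1 0 1 := by
    refine ⟨2 * i, by rw [pow_succ]; omega, subset_rfl, ?_, ?_⟩
    · rw [F_even, sub_self, mul_zero, zero_mul]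
    · rw [slope_left, h0, zero_add]
      rcases hw with h | h <;> rw [h] <;> norm_num
  have s2 : Nd ω n i 2 0 2 := by
    rcases Nd_child hω s1 with ⟨h, -⟩ | ⟨-, h⟩
    · exact h
    · have e : (0 : ℝ) + (((1 : ℤ) : ℝ) - 1) * (1 / 2) ^ (1 + 1) = 0 := by norm_num
      rw [e] at h
      exact h
  have s3 : Nd ω n i 3 0 3 ∨ Nd ω n i 3 (1 / 8) 3 := by
    rcases Nd_child hω s2 with ⟨h, -⟩ | ⟨-, h⟩
    · exact Or.inl h
    · right
      have e : (0 : ℝ) + (((2 : ℤ) : ℝ) - 1) * (1 / 2) ^ (2 + 1) = 1 / 8 := by norm_num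
      rw [e] at h
      exact h
  have s4 : ∃ (q : ℕ) (a : ℝ), (q = 2 ∨ q = 4) ∧ 1 / 8 ≤ a ∧ a + q * (1 / 2) ^ 4 ≤ 3 / 8 ∧
      Nd ω n i 4 a q := by
    rcases s3 with s3 | s3
    · rcases Nd_child hω s3 with ⟨-, h⟩ | ⟨-, h⟩
      · exact ⟨2, _, Or.inl rfl, by norm_num, by norm_num, h⟩
      · exact ⟨4, _, Or.inr rfl, by norm_num, by norm_num, h⟩
    · rcases Nd_child hω s3 with ⟨h, -⟩ | ⟨h, -⟩
      · exact ⟨4, _, Or.inr rfl, by norm_num, by norm_num, h⟩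
      · exact ⟨2, _, Or.inl rfl, by norm_num, by norm_num, h⟩
  obtain ⟨q, a, hq, ha1, ha2, hN⟩ := s4
  obtain ⟨b, hb1, hb2, k, hk, hsub, hF, hs⟩ := Nd_descend hω q 4 a hN
  have hs0 : slope ω (n + (4 + q)) k = 0 := by
    rcases hw with h | h <;> rw [h] at hs <;> omega
  refine ⟨n + (4 + q), k, hk, by omega, by omega, hs0, hsub, fun x hx => ?_⟩
  have h1 := takagi_near' hω hk hx
  rw [hs0, Int.cast_zero, abs_zero, zero_add, one_mul] at h1
  have h2 : (1 / 2 : ℝ) ^ (n + (4 + q)) ≤ (1 / 64) * (1 / 2) ^ n := by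
    have e : (1 / 2 : ℝ) ^ (n + (4 + q)) = (1 / 2) ^ n * (1 / 2) ^ (4 + q) := pow_add _ _ _
    have e2 : (1 / 2 : ℝ) ^ (4 + q) ≤ 1 / 64 := by rcases hq with rfl | rfl <;> norm_num
    rw [e]
    have : (0 : ℝ) < (1 / 2) ^ n := by positivity
    nlinarith
  have hp0 : (0 : ℝ) < (1 / 2) ^ n := by positivity
  have hm := F_mid hω hi
  rw [slope_left, h0, zero_add] at hm
  have hm' : F ω (n + 1) (2 * i + 2) = F ω n i := by
    rw [show 2 * i + 2 = 2 * (i + 1) by ring, F_even, F_succ hω hi, h0]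
    simp
  have hp1 : (1 / 2 : ℝ) ^ (n + 1) = (1 / 2) ^ n * (1 / 2) := pow_succ _ _
  rw [hm', hm, hp1]
  rw [abs_le] at h1
  have hb3 := mul_le_mul_of_nonneg_right (ha1.trans hb1) hp0.le
  have hb4 := mul_le_mul_of_nonneg_right (hb2.trans ha2) hp0.le
  rcases hw with h | h
  · rw [h] at hF ⊢
    push_cast at hF ⊢
    rw [uIcc_comm, uIcc_of_le (by linarith)]
    constructor <;> linarith [h1.1, h1.2]
  · rw [h] at hF ⊢
    push_cast at hF ⊢
    rw [uIcc_of_le (by linarith)]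
    constructor <;> linarith [h1.1, h1.2]

/-- Discrete intermediate value theorem. -/
lemma exists_node (_hω : IsSigns ω) {n i : ℕ} (hi : i < 2 ^ n) (h0 : slope ω n i = 0) {y : ℝ}
    (hy : y ∈ uIcc (F ω (n + 1) (2 * i + 1)) (F ω (n + 1) (2 * i + 2))) (q : ℕ) :
    ∃ k < 2 ^ (n + 1 + q), oI (n + 1 + q) k ⊆ oI (n + 1) (2 * i + 1) ∧
      |slope ω (n + 1 + q) k| ≤ q + 1 ∧
      y ∈ uIcc (F ω (n + 1 + q) k) (F ω (n + 1 + q) (k + 1)) := by
  induction q with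
  | zero =>
    refine ⟨2 * i + 1, by rw [add_zero, pow_succ]; omega, subset_rfl, ?_, hy⟩
    rw [add_zero, slope_right, h0, zero_sub, abs_neg]
    rcases w_cases (ω := ω) n i with h | h <;> rw [h] <;> simp
  | succ q ih =>
    obtain ⟨k, hk, hsub, hs, hyk⟩ := ih
    have hkl : 2 * k < 2 ^ (n + 1 + q + 1) := by rw [pow_succ]; omega
    have hkr : 2 * k + 1 < 2 ^ (n + 1 + q + 1) := by rw [pow_succ]; omega
    rw [← F_even (n + 1 + q) k, ← F_even (n + 1 + q) (k + 1)] at hyk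
    have hy' := Set.uIcc_subset_uIcc_union_uIcc (b := F ω (n + 1 + q + 1) (2 * k + 1)) hyk
    rw [abs_le] at hs
    have hw := w_cases (ω := ω) (n + 1 + q) k
    rcases hy' with h | h
    · refine ⟨2 * k, hkl, oI_left.trans hsub, ?_, h⟩
      rw [← add_assoc, slope_left, abs_le]
      push_cast
      rcases hw with h5 | h5 <;> rw [h5] <;> constructor <;> linarith [hs.1, hs.2]
    · refine ⟨2 * k + 1, hkr, oI_right.trans hsub, ?_, ?_⟩
      · rw [← add_assoc, slope_right, abs_le]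
        push_cast
        rcases hw with h5 | h5 <;> rw [h5] <;> constructor <;> linarith [hs.1, hs.2]
      · rw [← add_assoc, show 2 * k + 1 + 1 = 2 * (k + 1) by ring]
        exact h

lemma half (hω : IsSigns ω) {n i : ℕ} (hi : i < 2 ^ n) (h0 : slope ω n i = 0) {y : ℝ}
    (hy : y ∈ uIcc (F ω (n + 1) (2 * i + 1)) (F ω (n + 1) (2 * i + 2))) {m : ℕ} (hm : n + 1 ≤ m) :
    ∃ k < 2 ^ m, oI m k ⊆ oI (n + 1) (2 * i + 1) ∧
      ∀ x ∈ cI m k, |takagi ω x - y| ≤ (2 * ((m : ℝ) - n) + 1) * (1 / 2) ^ m := by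
  obtain ⟨q, rfl⟩ := Nat.exists_eq_add_of_le hm
  obtain ⟨k, hk, hsub, hs, hyk⟩ := exists_node hω hi h0 hy q
  refine ⟨k, hk, hsub, fun x hx => ?_⟩
  have h1 := takagi_near' hω hk hx
  have hs' : |(slope ω (n + 1 + q) k : ℝ)| ≤ q + 1 := by exact_mod_cast hs
  have hp0 : (0 : ℝ) < (1 / 2) ^ (n + 1 + q) := by positivity
  have h2 : |F ω (n + 1 + q) k - y| ≤ (q + 1) * (1 / 2) ^ (n + 1 + q) := by
    have h3 : |y - F ω (n + 1 + q) k| ≤ |F ω (n + 1 + q) (k + 1) - F ω (n + 1 + q) k| :=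
      Set.abs_sub_left_of_mem_uIcc hyk
    rw [abs_sub_comm]
    refine h3.trans ?_
    rw [F_succ hω hk, add_sub_cancel_left, abs_mul, abs_of_pos hp0]
    exact mul_le_mul_of_nonneg_right hs' hp0.le
  have h3 : |takagi ω x - F ω (n + 1 + q) k| ≤ (q + 2) * (1 / 2) ^ (n + 1 + q) :=
    h1.trans (mul_le_mul_of_nonneg_right (by linarith) hp0.le)
  have h4 := abs_add_le (takagi ω x - F ω (n + 1 + q) k) (F ω (n + 1 + q) k - y)
  rw [sub_add_sub_cancel] at h4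
  push_cast
  linarith

lemma volume_oI (n j : ℕ) : volume (oI n j) = ENNReal.ofReal ((1 / 2) ^ n) := by
  unfold oI
  rw [Real.volume_Ico, ← sub_div, add_sub_cancel_left, one_div_pow]

lemma measurableSet_oI (n j : ℕ) : MeasurableSet (oI n j) := measurableSet_Ico

/-- The lower bound constants. -/
noncomputable def cc (K : ℕ) : ℝ := ∑ j ∈ Finset.range K, (1 / 64 : ℝ) * (1 / (j + 1))

lemma cc_nonneg (K : ℕ) : 0 ≤ cc K := Finset.sum_nonneg fun j _ => by positivity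

lemma tendsto_cc : Tendsto cc atTop atTop := by
  have h := Real.tendsto_sum_range_one_div_nat_succ_atTop
  have h2 := h.const_mul_atTop (r := (1 / 64 : ℝ)) (by norm_num)
  refine h2.congr fun K => ?_
  unfold cc
  rw [Finset.mul_sum]

/-- The nested chains. -/
lemma chain (hω : IsSigns ω) (K : ℕ) : ∀ n i : ℕ, i < 2 ^ n → slope ω n i = 0 →
    ∃ n' i', i' < 2 ^ n' ∧ n ≤ n' ∧ n' ≤ n + 8 * K ∧ oI n' i' ⊆ oI n i ∧
      ∀ x ∈ oI n' i', ENNReal.ofReal (cc K * (1 / 2) ^ n') ≤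
        volume {x' ∈ oI n i | |takagi ω x' - takagi ω x| ≤ (1 / 2) ^ n'} := by
  induction K with
  | zero =>
    intro n i hi _
    refine ⟨n, i, hi, le_rfl, by omega, subset_rfl, fun x _ => ?_⟩
    simp [cc]
  | succ K ih =>
    intro n i hi h0
    obtain ⟨n₁, i₁, hi₁, hn₁, hn₁', h0₁, hsub₁, hval₁⟩ := good_child hω hi h0
    obtain ⟨n', i', hi', hn', hn'', hsub', hvol'⟩ := ih n₁ i₁ hi₁ h0₁
    refine ⟨n', i', hi', by omega, by omega, hsub'.trans (hsub₁.trans oI_left), fun x hx => ?_⟩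
    have hxv := hval₁ x (oI_sub_cI _ _ (hsub' hx))
    obtain ⟨ℓ, hℓ⟩ : ∃ ℓ, ℓ = Nat.log 2 (K + 1) + 6 := ⟨_, rfl⟩
    obtain ⟨k, hk, hsubk, hvalk⟩ := half hω hi h0 hxv (m := n' + ℓ) (by omega)
    have hlog1 : 2 ^ Nat.log 2 (K + 1) ≤ K + 1 := Nat.pow_log_le_self 2 (by omega)
    have hlog2 : K + 1 < 2 ^ (Nat.log 2 (K + 1) + 1) := Nat.lt_pow_succ_log_self (by norm_num) _
    have hlog3 : Nat.log 2 (K + 1) ≤ K := by
      have := Nat.log_lt_self 2 (x := K + 1) (by omega)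
      omega
    have hp0 : (0 : ℝ) < (1 / 2) ^ n' := by positivity
    have h2ℓ : (32 : ℝ) * (K + 2) ≤ 2 ^ ℓ := by
      rw [hℓ]
      have : 32 * (K + 2) ≤ 2 ^ (Nat.log 2 (K + 1) + 6) := by
        rw [show Nat.log 2 (K + 1) + 6 = (Nat.log 2 (K + 1) + 1) + 5 by ring, pow_add]
        omega
      exact_mod_cast this
    have h2ℓ' : (2 : ℝ) ^ ℓ ≤ 64 * (K + 1) := by
      rw [hℓ]
      have : 2 ^ (Nat.log 2 (K + 1) + 6) ≤ 64 * (K + 1) := by
        rw [pow_add]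
        omega
      exact_mod_cast this
    have hbound : (2 * (((n' + ℓ : ℕ) : ℝ) - n) + 1) * (1 / 2) ^ (n' + ℓ) ≤ (1 / 2) ^ n' := by
      have h3 : 2 * (((n' + ℓ : ℕ) : ℝ) - n) + 1 ≤ 2 ^ ℓ := by
        refine le_trans ?_ h2ℓ
        have h4 : 2 * (n' + ℓ) + 1 ≤ 32 * (K + 2) + 2 * n := by omega
        have h5 : (2 : ℝ) * (n' + ℓ) + 1 ≤ 32 * (K + 2) + 2 * n := by exact_mod_cast h4
        push_cast
        linarith
      rw [pow_add]
      have h4 : (2 : ℝ) ^ ℓ * (1 / 2) ^ ℓ = 1 := by rw [← mul_pow]; norm_num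
      have h5 : (0 : ℝ) < (1 / 2) ^ ℓ := by positivity
      calc (2 * (((n' + ℓ : ℕ) : ℝ) - n) + 1) * ((1 / 2) ^ n' * (1 / 2) ^ ℓ)
          ≤ 2 ^ ℓ * ((1 / 2) ^ n' * (1 / 2) ^ ℓ) := mul_le_mul_of_nonneg_right h3 (by positivity)
        _ = (1 / 2) ^ n' * (2 ^ ℓ * (1 / 2) ^ ℓ) := by ring
        _ = (1 / 2) ^ n' := by rw [h4, mul_one]
    have hcc : cc (K + 1) = cc K + (1 / 64 : ℝ) * (1 / (K + 1)) := by
      unfold cc
      rw [Finset.sum_range_succ]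
    have hlow : (1 / 64 : ℝ) * (1 / (K + 1)) * (1 / 2) ^ n' ≤ (1 / 2) ^ (n' + ℓ) := by
      rw [pow_add, mul_comm]
      apply mul_le_mul_of_nonneg_left _ hp0.le
      rw [one_div_pow, one_div_mul_one_div]
      exact one_div_le_one_div_of_le (by positivity) h2ℓ'
    have hdisj : Disjoint {x' ∈ oI n₁ i₁ | |takagi ω x' - takagi ω x| ≤ (1 / 2) ^ n'}
        (oI (n' + ℓ) k) := by
      refine Disjoint.mono (fun z hz => hsub₁ hz.1) hsubk oI_disj
    have hun : {x' ∈ oI n₁ i₁ | |takagi ω x' - takagi ω x| ≤ (1 / 2) ^ n'} ∪ oI (n' + ℓ) k ⊆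
        {x' ∈ oI n i | |takagi ω x' - takagi ω x| ≤ (1 / 2) ^ n'} := by
      rintro z (⟨hz1, hz2⟩ | hz)
      · exact ⟨oI_left (hsub₁ hz1), hz2⟩
      · exact ⟨oI_right (hsubk hz), (hvalk z (oI_sub_cI _ _ hz)).trans hbound⟩
    calc ENNReal.ofReal (cc (K + 1) * (1 / 2) ^ n')
        = ENNReal.ofReal (cc K * (1 / 2) ^ n' + (1 / 64 : ℝ) * (1 / (K + 1)) * (1 / 2) ^ n') := by
          rw [hcc, add_mul]
      _ = ENNReal.ofReal (cc K * (1 / 2) ^ n') +
          ENNReal.ofReal ((1 / 64 : ℝ) * (1 / (K + 1)) * (1 / 2) ^ n') :=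
          ENNReal.ofReal_add (mul_nonneg (cc_nonneg K) hp0.le) (by positivity)
      _ ≤ volume {x' ∈ oI n₁ i₁ | |takagi ω x' - takagi ω x| ≤ (1 / 2) ^ n'} +
          volume (oI (n' + ℓ) k) := by
          refine add_le_add (hvol' x hx) ?_
          rw [volume_oI]
          exact ENNReal.ofReal_le_ofReal hlow
      _ = volume ({x' ∈ oI n₁ i₁ | |takagi ω x' - takagi ω x| ≤ (1 / 2) ^ n'} ∪
          oI (n' + ℓ) k) := (measure_union hdisj (measurableSet_oI _ _)).symm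
      _ ≤ _ := measure_mono hun

end Q91.Takagi
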