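import Mathlib
import Pool.Agent.Q91.TakagiB

/-!
# Generalized Takagi functions: recurrence of the slopes
-/

open Set Filter Topology MeasureTheory
open scoped ENNReal

namespace Q91.Takagi

variable {ω : ℕ → ℝ → ℝ}

/-! ### Survival probabilities of the simple random walk -/

/-- The probability that the simple random walk from `z` avoids `0` up to time `M`. -/
noncomputable def P : ℕ → ℤ → ℝ
  | 0, z => if z = 0 then 0 else 1
  | (M + 1), z => if z = 0 then 0 else (P M (z + 1) + P M (z - 1)) / 2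

lemma P_zero (z : ℤ) : P 0 z = if z = 0 then 0 else 1 := rfl

lemma P_succ (M : ℕ) (z : ℤ) :
    P (M + 1) z = if z = 0 then 0 else (P M (z + 1) + P M (z - 1)) / 2 := rfl

lemma P_at_zero (M : ℕ) : P M 0 = 0 := by
  cases M with
  | zero => rw [P_zero, if_pos rfl]
  | succ M => rw [P_succ, if_pos rfl]

lemma P_nonneg (M : ℕ) (z : ℤ) : 0 ≤ P M z := by
  induction M generalizing z with
  | zero => rw [P_zero]; split_ifs <;> norm_num
  | succ M ih =>
    rw [P_succ]
    split_ifs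
    · exact le_rfl
    · have := ih (z + 1)
      have := ih (z - 1)
      linarith

lemma P_le_one (M : ℕ) (z : ℤ) : P M z ≤ 1 := by
  induction M generalizing z with
  | zero => rw [P_zero]; split_ifs <;> norm_num
  | succ M ih =>
    rw [P_succ]
    split_ifs
    · norm_num
    · have := ih (z + 1)
      have := ih (z - 1)
      linarith

lemma P_succ_le (M : ℕ) (z : ℤ) : P (M + 1) z ≤ P M z := by
  induction M generalizing z with
  | zero =>
    rw [P_succ, P_zero z]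
    split_ifs
    · exact le_rfl
    · have := P_le_one 0 (z + 1)
      have := P_le_one 0 (z - 1)
      linarith
  | succ M ih =>
    rw [P_succ (M + 1) z, P_succ M z]
    split_ifs
    · exact le_rfl
    · have := ih (z + 1)
      have := ih (z - 1)
      linarith

lemma P_neg (M : ℕ) (z : ℤ) : P M (-z) = P M z := by
  induction M generalizing z with
  | zero =>
    rw [P_zero, P_zero]
    simp only [neg_eq_zero]
  | succ M ih =>
    rw [P_succ, P_succ]
    simp only [neg_eq_zero]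
    rw [show -z + 1 = -(z - 1) by ring, show -z - 1 = -(z + 1) by ring, ih, ih, add_comm]

lemma P_tendsto (z : ℤ) : Tendsto (fun M => P M z) atTop (𝓝 0) := by
  have hanti : ∀ z, Antitone fun M => P M z := fun z => antitone_nat_of_succ_le fun M => P_succ_le M z
  have hbdd : ∀ z, BddBelow (range fun M => P M z) := fun z =>
    ⟨0, by rintro _ ⟨M, rfl⟩; exact P_nonneg M z⟩
  obtain ⟨Q, hQ⟩ : ∃ Q : ℤ → ℝ, ∀ z, Tendsto (fun M => P M z) atTop (𝓝 (Q z)) :=
    ⟨fun z => ⨅ M, P M z, fun z => tendsto_atTop_ciInf (hanti z) (hbdd z)⟩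
  have hQ0 : Q 0 = 0 := by
    refine tendsto_nhds_unique (hQ 0) ?_
    simp only [P_at_zero]
    exact tendsto_const_nhds
  have hQn : ∀ z, 0 ≤ Q z := fun z => ge_of_tendsto' (hQ z) fun M => P_nonneg M z
  have hQ1 : ∀ z, Q z ≤ 1 := fun z => le_of_tendsto' (hQ z) fun M => P_le_one M z
  have hharm : ∀ z, z ≠ 0 → 2 * Q z = Q (z + 1) + Q (z - 1) := by
    intro z hz
    have h1 := (hQ z).comp (tendsto_add_atTop_nat 1)
    have h2 := ((hQ (z + 1)).add (hQ (z - 1))).div_const 2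
    have h3 := tendsto_nhds_unique h1 (h2.congr fun M => by
      simp only [Function.comp]
      rw [P_succ, if_neg hz])
    linarith
  have hlin : ∀ m : ℕ, Q m = m * Q 1 ∧ Q (m + 1) = (m + 1) * Q 1 := by
    intro m
    induction m with
    | zero => simp [hQ0]
    | succ m ih =>
      refine ⟨?_, ?_⟩
      · push_cast
        exact ih.2
      · have h1 := hharm (m + 1) (by omega)
        rw [add_sub_cancel_right, ih.1, ih.2] at h1
        push_cast
        linarith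
  have hQ10 : Q 1 = 0 := by
    by_contra h
    have hpos : 0 < Q 1 := lt_of_le_of_ne (hQn 1) (Ne.symm h)
    obtain ⟨m, hm⟩ := exists_nat_gt (1 / Q 1)
    rw [div_lt_iff₀ hpos] at hm
    have := hQ1 m
    rw [(hlin m).1] at this
    linarith
  have hnat : ∀ m : ℕ, Q m = 0 := fun m => by rw [(hlin m).1, hQ10, mul_zero]
  have hz : Q z = 0 := by
    obtain ⟨m, rfl | rfl⟩ := Int.eq_nat_or_neg z
    · exact hnat m
    · rw [← hnat m]
      refine tendsto_nhds_unique (hQ _) ?_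
      simp only [P_neg]
      exact hQ m
  rw [← hz]
  exact hQ z

/-! ### Recurrence -/

lemma floor_of_mem {n k : ℕ} {x : ℝ} (hx : x ∈ oI n k) : ⌊2 ^ n * x⌋₊ = k := by
  rw [mem_oI] at hx
  rw [Nat.floor_eq_iff (le_trans (Nat.cast_nonneg k) hx.1)]
  exact hx

lemma mem_floor {x : ℝ} (hx : x ∈ Ico (0 : ℝ) 1) (n : ℕ) :
    ⌊2 ^ n * x⌋₊ < 2 ^ n ∧ x ∈ oI n ⌊2 ^ n * x⌋₊ := by
  have h0 : 0 ≤ 2 ^ n * x := by have := hx.1; positivity
  constructor
  · rw [Nat.floor_lt h0]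
    push_cast
    have : (0 : ℝ) < 2 ^ n := by positivity
    nlinarith [hx.2]
  · rw [mem_oI]
    exact ⟨Nat.floor_le h0, Nat.lt_floor_add_one _⟩

/-- Points of an interval whose slopes avoid zero for `M` further levels. -/
def E (ω : ℕ → ℝ → ℝ) (M n k : ℕ) : Set ℝ :=
  {x ∈ oI n k | ∀ m, n ≤ m → m ≤ n + M → slope ω m ⌊2 ^ m * x⌋₊ ≠ 0}

lemma volume_E (M : ℕ) : ∀ n k : ℕ,
    volume (E ω M n k) ≤ ENNReal.ofReal ((1 / 2) ^ n * P M (slope ω n k)) := by
  have hempty : ∀ M n k, slope ω n k = 0 → E ω M n k = ∅ := by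
    intro M n k h0
    ext x
    simp only [E, mem_empty_iff_false, iff_false]
    rintro ⟨hx, h⟩
    have := h n le_rfl (by omega)
    rw [floor_of_mem hx] at this
    exact this h0
  induction M with
  | zero =>
    intro n k
    by_cases h0 : slope ω n k = 0
    · rw [hempty _ _ _ h0, measure_empty]
      exact zero_le
    · rw [P_zero, if_neg h0, mul_one, ← volume_oI n k]
      exact measure_mono fun x hx => hx.1
  | succ M ih =>
    intro n k
    by_cases h0 : slope ω n k = 0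
    · rw [hempty _ _ _ h0, measure_empty]
      exact zero_le
    · have hsub : E ω (M + 1) n k ⊆ E ω M (n + 1) (2 * k) ∪ E ω M (n + 1) (2 * k + 1) := by
        rintro x ⟨hx, h⟩
        rcases oI_child hx with h1 | h1
        · exact Or.inl ⟨h1, fun m h2 h3 => h m (by omega) (by omega)⟩
        · exact Or.inr ⟨h1, fun m h2 h3 => h m (by omega) (by omega)⟩
      have h1 := (measure_mono hsub).trans (measure_union_le (μ := volume) _ _)
      refine h1.trans ((add_le_add (ih _ _) (ih _ _)).trans ?_)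
      have hp : (0 : ℝ) < (1 / 2) ^ (n + 1) := by positivity
      rw [← ENNReal.ofReal_add (mul_nonneg hp.le (P_nonneg _ _)) (mul_nonneg hp.le (P_nonneg _ _))]
      apply ENNReal.ofReal_le_ofReal
      rw [slope_left, slope_right, P_succ, if_neg h0, pow_succ]
      rcases w_cases (ω := ω) n k with h2 | h2 <;> rw [h2]
      · apply le_of_eq; ring
      · rw [sub_neg_eq_add, ← sub_eq_add_neg]
        apply le_of_eq; ring

lemma inf_often : ∀ᵐ x : ℝ, x ∈ Ico (0 : ℝ) 1 → ∀ N, ∃ n, N ≤ n ∧ slope ω n ⌊2 ^ n * x⌋₊ = 0 := by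
  have key : ∀ N : ℕ, volume {x ∈ Ico (0 : ℝ) 1 | ∀ n, N ≤ n → slope ω n ⌊2 ^ n * x⌋₊ ≠ 0} = 0 := by
    intro N
    have hsub : {x ∈ Ico (0 : ℝ) 1 | ∀ n, N ≤ n → slope ω n ⌊2 ^ n * x⌋₊ ≠ 0} ⊆
        ⋃ k ∈ Finset.range (2 ^ N), {x ∈ oI N k | ∀ n, N ≤ n → slope ω n ⌊2 ^ n * x⌋₊ ≠ 0} := by
      rintro x ⟨hx, h⟩
      obtain ⟨h1, h2⟩ := mem_floor hx N
      exact mem_biUnion (Finset.mem_coe.2 (Finset.mem_range.2 h1)) ⟨h2, h⟩
    refine measure_mono_null hsub ?_
    refine (measure_biUnion_null_iff (I := ((Finset.range (2 ^ N) : Finset ℕ) : Set ℕ))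
      (Finset.countable_toSet _)).2 ?_
    intro k _
    have h1 : ∀ M, volume {x ∈ oI N k | ∀ n, N ≤ n → slope ω n ⌊2 ^ n * x⌋₊ ≠ 0} ≤
        ENNReal.ofReal ((1 / 2) ^ N * P M (slope ω N k)) := by
      intro M
      have h3 : {x ∈ oI N k | ∀ n, N ≤ n → slope ω n ⌊2 ^ n * x⌋₊ ≠ 0} ⊆ E ω M N k :=
        fun x hx => ⟨hx.1, fun m h2 _ => hx.2 m h2⟩
      exact (measure_mono h3).trans (volume_E M N k)
    have h2 : Tendsto (fun M => ENNReal.ofReal ((1 / 2) ^ N * P M (slope ω N k))) atTop (𝓝 0) := by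
      have h3 := (P_tendsto (slope ω N k)).const_mul ((1 / 2 : ℝ) ^ N)
      rw [mul_zero] at h3
      have h4 := ENNReal.tendsto_ofReal h3
      rwa [ENNReal.ofReal_zero] at h4
    exact le_antisymm (ge_of_tendsto' h2 h1) zero_le
  have h2 : ∀ᵐ x : ℝ, ∀ N, ¬ (x ∈ Ico (0 : ℝ) 1 ∧ ∀ n, N ≤ n → slope ω n ⌊2 ^ n * x⌋₊ ≠ 0) := by
    rw [ae_all_iff]
    intro N
    exact measure_eq_zero_iff_ae_notMem.1 (key N)
  filter_upwards [h2] with x hx h01 N
  have h3 := hx N
  push Not at h3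
  obtain ⟨n, h4, h5⟩ := h3 h01
  exact ⟨n, h4, h5⟩

/-! ### Almost every point is in arbitrarily small ends of long chains -/

lemma cI_eq_ball (n k : ℕ) :
    cI n k = Metric.closedBall (((k : ℝ) + 1 / 2) / 2 ^ n) ((1 / 2) ^ n * (1 / 2)) := by
  rw [Real.closedBall_eq_Icc]
  unfold cI
  have e : (1 / 2 : ℝ) ^ n = 1 / 2 ^ n := one_div_pow _ _
  rw [e]
  congr 1 <;> ring

lemma volume_cI (n k : ℕ) : volume (cI n k) = ENNReal.ofReal ((1 / 2) ^ n) := by
  unfold cI
  rw [Real.volume_Icc, ← sub_div, add_sub_cancel_left, one_div_pow]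

lemma oI_sub_Icc {n k : ℕ} (hk : k < 2 ^ n) : oI n k ⊆ Icc (0 : ℝ) 1 :=
  (oI_sub_cI n k).trans (Icc_sub hk)

lemma ae_dense (hω : IsSigns ω) (K N : ℕ) : ∀ᵐ x : ℝ, x ∈ Ico (0 : ℝ) 1 → ∃ n', N ≤ n' ∧
    ENNReal.ofReal (cc K * (1 / 2) ^ n') ≤
      volume {x' ∈ Icc (0 : ℝ) 1 | |takagi ω x' - takagi ω x| ≤ (1 / 2) ^ n'} := by
  obtain ⟨T, hT⟩ : ∃ T : Set ℝ, T = {x ∈ Ico (0 : ℝ) 1 | ∀ n', N ≤ n' →
    ¬ (ENNReal.ofReal (cc K * (1 / 2) ^ n') ≤
      volume {x' ∈ Icc (0 : ℝ) 1 | |takagi ω x' - takagi ω x| ≤ (1 / 2) ^ n'})} := ⟨_, rfl⟩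
  have h1 := ae_imp_of_ae_restrict
    (IsUnifLocDoublingMeasure.ae_tendsto_measure_inter_div (volume : Measure ℝ) T 1)
  have h2 : ∀ᵐ x : ℝ, x ∉ T := by
    filter_upwards [h1, inf_often (ω := ω)] with x hx1 hx2 hxT
    have h01 : x ∈ Ico (0 : ℝ) 1 := by rw [hT] at hxT; exact hxT.1
    have hfreq := hx2 h01
    have hseq : ∀ j : ℕ, ∃ n, max N j ≤ n ∧ slope ω n ⌊2 ^ n * x⌋₊ = 0 := fun j => hfreq _
    choose ν hν1 hν2 using hseq
    have hνlim : Tendsto ν atTop atTop :=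
      tendsto_atTop_mono (fun j => (le_max_right N j).trans (hν1 j)) tendsto_id
    have hlim := hx1 hxT (l := atTop)
      (fun j => ((⌊2 ^ ν j * x⌋₊ : ℝ) + 1 / 2) / 2 ^ ν j)
      (fun j => (1 / 2 : ℝ) ^ ν j * (1 / 2)) (by
        rw [tendsto_nhdsWithin_iff]
        refine ⟨?_, Eventually.of_forall fun j => by
          have : (0 : ℝ) < (1 / 2 : ℝ) ^ ν j * (1 / 2) := by positivity
          exact this⟩
        have h3 := (tendsto_pow_atTop_nhds_zero_of_lt_one (r := (1 / 2 : ℝ)) (by norm_num)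
          (by norm_num)).comp hνlim
        have h4 := h3.mul_const (1 / 2 : ℝ)
        rwa [zero_mul] at h4) (Eventually.of_forall fun j => by
        rw [one_mul, ← cI_eq_ball]
        exact oI_sub_cI _ _ (mem_floor h01 _).2)
    have hbound : ∀ j, volume (T ∩ Metric.closedBall (((⌊2 ^ ν j * x⌋₊ : ℝ) + 1 / 2) / 2 ^ ν j)
        ((1 / 2 : ℝ) ^ ν j * (1 / 2))) /
        volume (Metric.closedBall (((⌊2 ^ ν j * x⌋₊ : ℝ) + 1 / 2) / 2 ^ ν j)
        ((1 / 2 : ℝ) ^ ν j * (1 / 2))) ≤ ENNReal.ofReal (1 - (1 / 2) ^ (8 * K)) := by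
      intro j
      obtain ⟨k, hk⟩ : ∃ k, k = ⌊2 ^ ν j * x⌋₊ := ⟨_, rfl⟩
      obtain ⟨hk1, hk2⟩ := mem_floor h01 (ν j)
      have hν2' := hν2 j
      rw [← hk] at hk1 hk2 hν2' ⊢
      obtain ⟨n', i', hi', hn1, hn2, hsub, hvol⟩ := chain hω K (ν j) k hk1 hν2'
      rw [← cI_eq_ball]
      have hdis : T ∩ cI (ν j) k ⊆ cI (ν j) k \ oI n' i' := by
        rintro z ⟨hz1, hz2⟩
        refine ⟨hz2, fun hz3 => ?_⟩
        rw [hT] at hz1
        refine hz1.2 n' ((le_max_left N j).trans ((hν1 j).trans hn1)) ?_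
        refine (hvol z hz3).trans (measure_mono ?_)
        exact fun x' hx' => ⟨oI_sub_Icc hk1 hx'.1, hx'.2⟩
      have hpow : (0 : ℝ) < (1 / 2) ^ ν j := by positivity
      have h5 : volume (T ∩ cI (ν j) k) ≤ ENNReal.ofReal ((1 / 2) ^ ν j - (1 / 2) ^ n') := by
        refine (measure_mono hdis).trans ?_
        rw [measure_sdiff (hsub.trans (oI_sub_cI _ _)) (measurableSet_oI _ _).nullMeasurableSet
          (by rw [volume_oI]; exact ENNReal.ofReal_ne_top), volume_cI, volume_oI,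
          ← ENNReal.ofReal_sub _ (by positivity)]
      rw [volume_cI, ENNReal.div_le_iff (ENNReal.ofReal_pos.2 hpow).ne' ENNReal.ofReal_ne_top,
        ← ENNReal.ofReal_mul' hpow.le]
      refine h5.trans (ENNReal.ofReal_le_ofReal ?_)
      have h6 : (1 / 2 : ℝ) ^ (8 * K) * (1 / 2) ^ ν j ≤ (1 / 2) ^ n' := by
        rw [← pow_add]
        exact pow_le_pow_of_le_one (by norm_num) (by norm_num) (by omega)
      linarith
    have h3 := le_of_tendsto' hlim hbound
    have h4 : ENNReal.ofReal (1 - (1 / 2) ^ (8 * K)) < 1 := by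
      rw [← ENNReal.ofReal_one]
      apply (ENNReal.ofReal_lt_ofReal_iff one_pos).2
      have : (0 : ℝ) < (1 / 2) ^ (8 * K) := by positivity
      linarith
    exact absurd h3 h4.not_ge
  filter_upwards [h2] with x hx h01
  by_contra hcon
  push Not at hcon
  apply hx
  rw [hT]
  exact ⟨h01, fun n' hn' => not_le.2 (hcon n' hn')⟩

end Q91.Takagi
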