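import Mathlib

/-!
# Upper bounds for the Hausdorff dimension by covers
-/

open Set Filter Topology MeasureTheory
open scoped ENNReal NNReal

namespace Q91.Upper

/-- If `S` is covered by finitely many sets `U k i` of diameter at most `d k i → 0` with
`∑ i, d k i ^ s` bounded, then `dimH S ≤ s`. -/
theorem dimH_le_of_sum {X : Type*} [MetricSpace X] {S : Set X} {s C : ℝ} (hs : 0 ≤ s)
    {ι : ℕ → Type*} [∀ k, Fintype (ι k)] (U : ∀ k, ι k → Set X) (d : ∀ k, ι k → ℝ)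
    (hd0 : ∀ k i, 0 ≤ d k i) (ρ : ℕ → ℝ) (hρ : Tendsto ρ atTop (𝓝 0)) (hdρ : ∀ k i, d k i ≤ ρ k)
    (hcov : ∀ k, S ⊆ ⋃ i, U k i)
    (hdiam : ∀ k i, Metric.ediam (U k i) ≤ ENNReal.ofReal (d k i))
    (hsum : ∀ k, ∑ i, d k i ^ s ≤ C) : dimH S ≤ ENNReal.ofReal s := by
  borelize X
  have key : μH[s] S ≤ ENNReal.ofReal C := by
    have h := Measure.hausdorffMeasure_le_liminf_sum (X := X) (ι := ι) s S (l := atTop)
      (fun k => ENNReal.ofReal (ρ k))
      (by
        have h2 := ENNReal.tendsto_ofReal hρ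
        rwa [ENNReal.ofReal_zero] at h2)
      U
      (Eventually.of_forall fun k i => (hdiam k i).trans (ENNReal.ofReal_le_ofReal (hdρ k i)))
      (Eventually.of_forall fun k => hcov k)
    refine h.trans ?_
    have hb : ∀ k, ∑ i, Metric.ediam (U k i) ^ s ≤ ENNReal.ofReal C := by
      intro k
      calc ∑ i, Metric.ediam (U k i) ^ s
          ≤ ∑ i, ENNReal.ofReal (d k i) ^ s :=
            Finset.sum_le_sum fun i _ => ENNReal.rpow_le_rpow (hdiam k i) hs
        _ = ∑ i, ENNReal.ofReal (d k i ^ s) := Finset.sum_congr rfl fun i _ =>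
            ENNReal.ofReal_rpow_of_nonneg (hd0 k i) hs
        _ = ENNReal.ofReal (∑ i, d k i ^ s) :=
            (ENNReal.ofReal_sum_of_nonneg fun i _ => Real.rpow_nonneg (hd0 k i) s).symm
        _ ≤ ENNReal.ofReal C := ENNReal.ofReal_le_ofReal (hsum k)
    calc liminf (fun k => ∑ i, Metric.ediam (U k i) ^ s) atTop
        ≤ liminf (fun _ : ℕ => ENNReal.ofReal C) atTop :=
          liminf_le_liminf (Eventually.of_forall hb)
      _ = ENNReal.ofReal C := liminf_const _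
  have hne : μH[((s.toNNReal : ℝ≥0) : ℝ)] S ≠ ⊤ := by
    rw [Real.coe_toNNReal s hs]
    exact (lt_of_le_of_lt key ENNReal.ofReal_lt_top).ne
  exact dimH_le_of_hausdorffMeasure_ne_top hne

/-- A uniform version. -/
theorem dimH_le_of_card {X : Type*} [MetricSpace X] {S : Set X} {s C : ℝ} (hs : 0 ≤ s)
    {ι : ℕ → Type*} [∀ k, Fintype (ι k)] (U : ∀ k, ι k → Set X) (ρ : ℕ → ℝ)
    (hρ0 : ∀ k, 0 ≤ ρ k) (hρ : Tendsto ρ atTop (𝓝 0)) (hcov : ∀ k, S ⊆ ⋃ i, U k i)
    (hdiam : ∀ k i, Metric.ediam (U k i) ≤ ENNReal.ofReal (ρ k))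
    (hsum : ∀ k, (Fintype.card (ι k) : ℝ) * ρ k ^ s ≤ C) : dimH S ≤ ENNReal.ofReal s := by
  refine dimH_le_of_sum (C := C) hs U (fun k _ => ρ k) (fun k _ => hρ0 k) ρ hρ (fun _ _ => le_rfl) hcov
    hdiam fun k => ?_
  rw [Finset.sum_const, Finset.card_univ, nsmul_eq_mul]
  exact hsum k

end Q91.Upper
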