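import Mathlib
import Pool.Agent.Q91.Upper
import Pool.Agent.Q91.SimSys

/-!
# A conformal iterated function system on `[0, 1]` with an irregular dimension spectrum

Blocks of `2 ^ b k` similarities of ratio `4 ^ (- b k)`, where `b k` is a tower.
-/

open Set Filter Topology MeasureTheory
open scoped ENNReal NNReal

namespace Q91.Tower

open Q91.SimSys

/-- The exponents: `b 0 = 2`, `b (k + 1) = 4 ^ b k`. -/
def b : ℕ → ℕ
  | 0 => 2
  | (k + 1) => 4 ^ b k

lemma b_succ (k : ℕ) : b (k + 1) = 4 ^ b k := rfl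

lemma lt_four_pow (n : ℕ) : n + 1 ≤ 4 ^ n := by
  induction n with
  | zero => norm_num
  | succ n ih => rw [pow_succ]; omega

lemma b_lt (k : ℕ) : b k < b (k + 1) := by
  have := lt_four_pow (b k)
  rw [b_succ]
  omega

lemma b_strictMono : StrictMono b := strictMono_nat_of_lt_succ b_lt

lemma b_ge (k : ℕ) : k + 2 ≤ b k := by
  induction k with
  | zero => exact le_rfl
  | succ k ih => have := b_lt k; omega

lemma b_add (k j : ℕ) : b k + j ≤ b (k + j) := by
  induction j with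
  | zero => exact le_rfl
  | succ j ih => have := b_lt (k + j); rw [← add_assoc, ← add_assoc]; omega

/-- The alphabet: the `k`-th block has `2 ^ b k` letters. -/
abbrev E := Σ k : ℕ, Fin (2 ^ b k)

/-- The ratio of the `k`-th block. -/
noncomputable def R (k : ℕ) : ℝ := (1 / 4) ^ b k

lemma R_pos (k : ℕ) : 0 < R k := by unfold R; positivity

lemma R_le (k : ℕ) : R k ≤ 1 / 2 := by
  have h : (1 / 4 : ℝ) ^ b k ≤ (1 / 4) ^ 1 :=
    pow_le_pow_of_le_one (by norm_num) (by norm_num) (by have := b_ge k; omega)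
  unfold R
  rw [pow_one] at h
  linarith

lemma MR_le (k : ℕ) : 2 * ((2 : ℝ) ^ b k * R k) ≤ (1 / 2) ^ (k + 1) := by
  have e : (2 : ℝ) ^ b k * R k = (1 / 2) ^ b k := by
    unfold R
    rw [← mul_pow]
    norm_num
  rw [e]
  have h : (1 / 2 : ℝ) ^ b k ≤ (1 / 2) ^ (k + 2) :=
    pow_le_pow_of_le_one (by norm_num) (by norm_num) (b_ge k)
  calc 2 * (1 / 2 : ℝ) ^ b k ≤ 2 * (1 / 2) ^ (k + 2) := by linarith
    _ = (1 / 2) ^ (k + 1) := by rw [pow_succ _ (k + 1)]; ring

lemma slot (e : E) : 2 * ((e.2 : ℕ) : ℝ) * R e.1 + 2 * R e.1 ≤ (1 / 2) ^ (e.1 + 1) := by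
  have h1 : ((e.2 : ℕ) : ℝ) + 1 ≤ 2 ^ b e.1 := by exact_mod_cast e.2.2
  have h2 := MR_le e.1
  have h3 := mul_le_mul_of_nonneg_right h1 (R_pos e.1).le
  linarith

/-- The system of similarities. -/
noncomputable def S : Sys E where
  t e := (1 / 2) ^ (e.1 + 1) + 2 * ((e.2 : ℕ) : ℝ) * R e.1
  r e := R e.1
  κ := 1 / 2
  κ1 := by norm_num
  r0 e := R_pos e.1
  rκ e := R_le e.1
  t0 e := by have := R_pos e.1; positivity
  tr e := by
    have h1 := slot e
    have h2 := R_pos e.1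
    have h3 : (1 / 2 : ℝ) ^ (e.1 + 1) ≤ 1 / 2 := by
      rw [pow_succ]
      have : (1 / 2 : ℝ) ^ e.1 ≤ 1 := pow_le_one₀ (by norm_num) (by norm_num)
      linarith
    linarith

lemma S_r (e : E) : S.r e = R e.1 := rfl

lemma S_t (e : E) : S.t e = (1 / 2) ^ (e.1 + 1) + 2 * ((e.2 : ℕ) : ℝ) * R e.1 := rfl

/-- Different intervals are disjoint. -/
lemma S_disjoint {e e' : E} (hne : e ≠ e') :
    Disjoint (Icc (S.t e) (S.t e + S.r e)) (Icc (S.t e') (S.t e' + S.r e')) := by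
  have key : ∀ e e' : E, e.1 < e'.1 → S.t e' + S.r e' < S.t e := by
    intro e e' h
    have h1 := slot e'
    have h2 := R_pos e'.1
    have h3 : (1 / 2 : ℝ) ^ e'.1 ≤ (1 / 2) ^ (e.1 + 1) :=
      pow_le_pow_of_le_one (by norm_num) (by norm_num) h
    have h4 : (1 / 2 : ℝ) ^ (e'.1 + 1) + (1 / 2) ^ (e'.1 + 1) = (1 / 2) ^ e'.1 := by
      rw [pow_succ]; ring
    have h5 : 0 ≤ 2 * ((e.2 : ℕ) : ℝ) * R e.1 := by have := R_pos e.1; positivity
    rw [S_t, S_t, S_r]
    linarith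
  have key2 : ∀ (k : ℕ) (i i' : Fin (2 ^ b k)), i < i' →
      S.t ⟨k, i⟩ + S.r ⟨k, i⟩ < S.t ⟨k, i'⟩ := by
    intro k i i' h
    rw [S_t, S_t, S_r]
    simp only
    have h1 : ((i : ℕ) : ℝ) + 1 ≤ ((i' : ℕ) : ℝ) := by exact_mod_cast h
    have h2 := R_pos k
    nlinarith
  have hdis : ∀ x y z w : ℝ, y < z → Disjoint (Icc x y) (Icc z w) := by
    intro x y z w h
    rw [Set.disjoint_left]
    intro a ha hb
    linarith [ha.2, hb.1]
  rcases lt_trichotomy e.1 e'.1 with h | h | h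
  · exact (hdis _ _ _ _ (key _ _ h)).symm
  · obtain ⟨k, i⟩ := e
    obtain ⟨k', i'⟩ := e'
    obtain rfl : k = k' := h
    rcases lt_trichotomy i i' with h' | h' | h'
    · exact hdis _ _ _ _ (key2 _ _ _ h')
    · exact absurd (by rw [h']) hne
    · exact (hdis _ _ _ _ (key2 _ _ _ h')).symm
  · exact hdis _ _ _ _ (key _ _ h)

/-! ### Dimensions of subsystems -/

/-- If the pressure at `s` is exactly one then the dimension is `s`. -/
lemma dimH_J_eq {F : Set E} {s : ℝ} (hs : 0 < s)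
    (h : ∑' e : F, ENNReal.ofReal (S.r e ^ s) = 1) : dimH (S.J F) = ENNReal.ofReal s := by
  apply le_antisymm (S.dimH_J_le hs.le h.le)
  apply le_of_forall_lt
  intro c hc
  have hcne : c ≠ ⊤ := (hc.trans ENNReal.ofReal_lt_top).ne
  obtain ⟨s', hs'0, rfl⟩ : ∃ s' : ℝ, 0 ≤ s' ∧ c = ENNReal.ofReal s' :=
    ⟨c.toReal, ENNReal.toReal_nonneg, (ENNReal.ofReal_toReal hcne).symm⟩
  rw [ENNReal.ofReal_lt_ofReal_iff hs] at hc
  obtain ⟨u, hu1, hu2⟩ := exists_between hc
  have hu0 : 0 < u := lt_of_le_of_lt hs'0 hu1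
  -- the sum at `u` is larger than one
  have h1 : 1 < ∑' e : F, ENNReal.ofReal (S.r e ^ u) := by
    have hbig : (1 : ℝ) < (1 / 2) ^ (u - s) :=
      Real.one_lt_rpow_of_pos_of_lt_one_of_neg (by norm_num) (by norm_num) (by linarith)
    calc (1 : ℝ≥0∞) < ENNReal.ofReal ((1 / 2) ^ (u - s)) := by
          rw [← ENNReal.ofReal_one]
          exact (ENNReal.ofReal_lt_ofReal_iff (by linarith)).2 hbig
      _ = ENNReal.ofReal ((1 / 2) ^ (u - s)) * ∑' e : F, ENNReal.ofReal (S.r e ^ s) := by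
          rw [h, mul_one]
      _ = ∑' e : F, ENNReal.ofReal ((1 / 2) ^ (u - s)) * ENNReal.ofReal (S.r e ^ s) :=
          ENNReal.tsum_mul_left.symm
      _ ≤ ∑' e : F, ENNReal.ofReal (S.r e ^ u) := by
          apply ENNReal.tsum_le_tsum
          intro e
          rw [← ENNReal.ofReal_mul (by positivity)]
          apply ENNReal.ofReal_le_ofReal
          have e1 : S.r e ^ u = S.r e ^ (u - s) * S.r e ^ s := by
            rw [← Real.rpow_add (S.r0 e), sub_add_cancel]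
          rw [e1]
          apply mul_le_mul_of_nonneg_right _ (Real.rpow_nonneg (S.r0 e).le s)
          exact Real.rpow_le_rpow_of_nonpos (S.r0 e) (S.rκ e) (by linarith)
  rw [ENNReal.tsum_eq_iSup_sum, lt_iSup_iff] at h1
  obtain ⟨A, hA⟩ := h1
  have h2 : 1 ≤ ∑ e ∈ A.map (Function.Embedding.subtype _), S.r e ^ u := by
    rw [Finset.sum_map]
    have hA' : (1 : ℝ≥0∞) < ENNReal.ofReal (∑ a ∈ A, S.r (a : E) ^ u) := by
      rwa [ENNReal.ofReal_sum_of_nonneg
        (fun (a : F) _ => Real.rpow_nonneg (S.r0 (a : E)).le u)]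
    rw [← ENNReal.ofReal_one, ENNReal.ofReal_lt_ofReal_iff_of_nonneg zero_le_one] at hA'
    exact hA'.le
  have h3 := S.ofReal_le_dimH_J (F := F) (A := A.map (Function.Embedding.subtype _))
    (by
      intro e he
      rw [Finset.mem_coe, Finset.mem_map] at he
      obtain ⟨a, -, rfl⟩ := he
      exact a.2)
    (fun e _ e' _ hne => S_disjoint hne) hu0 h2
  exact lt_of_lt_of_le ((ENNReal.ofReal_lt_ofReal_iff hu0).2 hu1) h3

/-- The subfamily with the first `n k` letters of the `k`-th block. -/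
def Fn (n : ℕ → ℕ) : Set E := {e | (e.2 : ℕ) < n e.1}

lemma tsum_Fn {n : ℕ → ℕ} (hn : ∀ k, n k ≤ 2 ^ b k) (s : ℝ) :
    ∑' e : Fn n, ENNReal.ofReal (S.r e ^ s) = ∑' k, ENNReal.ofReal (n k * R k ^ s) := by
  classical
  rw [tsum_subtype (Fn n) (fun e => ENNReal.ofReal (S.r e ^ s)), ENNReal.tsum_sigma']
  congr 1
  ext k
  rw [tsum_fintype]
  have h1 : ∀ i : Fin (2 ^ b k), (Fn n).indicator (fun e : E => ENNReal.ofReal (S.r e ^ s)) ⟨k, i⟩
      = if (i : ℕ) < n k then ENNReal.ofReal (R k ^ s) else 0 := by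
    intro i
    by_cases h : (i : ℕ) < n k
    · rw [if_pos h, indicator_of_mem (show (⟨k, i⟩ : E) ∈ Fn n from h)]; rfl
    · rw [if_neg h, indicator_of_notMem (show (⟨k, i⟩ : E) ∉ Fn n from h)]
  rw [Finset.sum_congr rfl fun i _ => h1 i, ← Finset.sum_filter, Finset.sum_const, nsmul_eq_mul,
    ENNReal.ofReal_mul (Nat.cast_nonneg _), ENNReal.ofReal_natCast]
  congr 2
  have h2 : (Finset.univ.filter fun i : Fin (2 ^ b k) => (i : ℕ) < n k).card = n k := by
    have h3 : (Finset.univ.filter fun i : Fin (2 ^ b k) => (i : ℕ) < n k).map Fin.valEmbedding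
        = Finset.range (n k) := by
      ext j
      simp only [Finset.mem_map, Finset.mem_filter, Finset.mem_univ, true_and,
        Fin.valEmbedding_apply, Finset.mem_range]
      constructor
      · rintro ⟨i, hi, rfl⟩; exact hi
      · intro hj
        exact ⟨⟨j, lt_of_lt_of_le hj (hn k)⟩, hj, rfl⟩
    rw [← Finset.card_map Fin.valEmbedding, h3, Finset.card_range]
  rw [h2]

/-! ### The dimension spectrum -/

/-- The dimension spectrum (of nonempty subfamilies). -/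
def DS : Set ℝ := {x | ∃ F : Set E, F.Nonempty ∧ x = (dimH (S.J F)).toReal}

lemma mem_DS {n : ℕ → ℕ} (hn : ∀ k, n k ≤ 2 ^ b k) {s : ℝ} (hs : 0 < s)
    (h : ∑' k, ENNReal.ofReal (n k * R k ^ s) = 1) : s ∈ DS := by
  have h1 := dimH_J_eq (F := Fn n) hs (by rw [tsum_Fn hn, h])
  refine ⟨Fn n, ?_, ?_⟩
  · by_contra hemp
    rw [Set.not_nonempty_iff_eq_empty] at hemp
    have h2 := tsum_Fn hn s
    rw [h, hemp] at h2
    simp at h2
  · rw [h1, ENNReal.toReal_ofReal hs.le]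

lemma R_rpow (k : ℕ) (s : ℝ) : R k ^ s = (4 : ℝ) ^ (-(b k * s)) := by
  unfold R
  rw [← Real.rpow_natCast, ← Real.rpow_mul (by norm_num), one_div, Real.inv_rpow (by norm_num),
    ← Real.rpow_neg (by norm_num)]

lemma two_pow_eq (k : ℕ) : (2 : ℝ) ^ b k = (4 : ℝ) ^ ((b k : ℝ) * (1 / 2)) := by
  rw [show (4 : ℝ) = 2 ^ (2 : ℝ) by norm_num, ← Real.rpow_mul (by norm_num), ← Real.rpow_natCast]
  congr 1
  ring

/-- The full `k`-th block has pressure `4 ^ (- b k (s - 1/2))`. -/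
lemma full_block (k : ℕ) (s : ℝ) : (2 : ℝ) ^ b k * R k ^ s = (4 : ℝ) ^ (-(b k * (s - 1 / 2))) := by
  rw [R_rpow, two_pow_eq, ← Real.rpow_add (by norm_num)]
  congr 1
  ring

lemma half_mem : (1 / 2 : ℝ) ∈ DS := by
  apply mem_DS (n := fun k => if k = 0 then 2 ^ b 0 else 0)
  · intro k
    split_ifs with h
    · rw [h]
    · exact Nat.zero_le _
  · norm_num
  · rw [tsum_eq_single 0]
    · rw [if_pos rfl]
      push_cast
      rw [full_block, sub_self, mul_zero, neg_zero, Real.rpow_zero, ENNReal.ofReal_one]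
    · intro k hk
      rw [if_neg hk]
      simp

/-- Points of the spectrum to the right of `1/2`. -/
lemma exists_right {ε : ℝ} (hε : 0 < ε) : ∃ s ∈ DS, 1 / 2 < s ∧ s < 1 / 2 + ε := by
  obtain ⟨K, hK⟩ := exists_nat_gt (1 / ε)
  have hbK : (K : ℝ) ≤ b K := by exact_mod_cast (by have := b_ge K; omega : K ≤ b K)
  have hbK1 : (b K : ℝ) ≤ b (K + 1) := by exact_mod_cast (b_lt K).le
  have hbpos : (0 : ℝ) < b K := by
    have : 0 < 1 / ε := by positivity
    linarith
  have hcont : Continuous fun s : ℝ => (2 : ℝ) ^ b K * R K ^ s + 2 ^ b (K + 1) * R (K + 1) ^ s := by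
    have h1 := (Real.continuous_const_rpow (R_pos K).ne')
    have h2 := (Real.continuous_const_rpow (R_pos (K + 1)).ne')
    exact (continuous_const.mul h1).add (continuous_const.mul h2)
  obtain ⟨x, hx⟩ : ∃ x : ℝ, x = 1 / 2 + 1 / (2 * b K) := ⟨_, rfl⟩
  have hx1 : 1 / 2 ≤ x := by rw [hx]; have : 0 < 1 / (2 * (b K : ℝ)) := by positivity
                             linarith
  have hval1 : (2 : ℝ) ^ b K * R K ^ (1 / 2 : ℝ) + 2 ^ b (K + 1) * R (K + 1) ^ (1 / 2 : ℝ) = 2 := by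
    rw [full_block, full_block, sub_self, mul_zero, mul_zero, neg_zero, Real.rpow_zero]
    norm_num
  have hval2 : (2 : ℝ) ^ b K * R K ^ x + 2 ^ b (K + 1) * R (K + 1) ^ x ≤ 1 := by
    rw [full_block, full_block, hx]
    have e1 : (b K : ℝ) * (1 / 2 + 1 / (2 * b K) - 1 / 2) = 1 / 2 := by field_simp; ring
    have e2 : (1 / 2 : ℝ) ≤ (b (K + 1) : ℝ) * (1 / 2 + 1 / (2 * b K) - 1 / 2) := by
      have hpos : 0 < 1 / (2 * (b K : ℝ)) := by positivity
      calc (1 / 2 : ℝ) = (b K : ℝ) * (1 / 2 + 1 / (2 * b K) - 1 / 2) := e1.symm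
        _ ≤ _ := mul_le_mul_of_nonneg_right hbK1 (by linarith)
    have h3 : (4 : ℝ) ^ (-(1 / 2) : ℝ) = 1 / 2 := by
      rw [show (4 : ℝ) = 2 ^ (2 : ℝ) by norm_num, ← Real.rpow_mul (by norm_num)]
      norm_num
    rw [e1, h3]
    have h4 : (4 : ℝ) ^ (-((b (K + 1) : ℝ) * (1 / 2 + 1 / (2 * b K) - 1 / 2))) ≤ 4 ^ (-(1 / 2) : ℝ) :=
      Real.rpow_le_rpow_of_exponent_le (by norm_num) (by linarith)
    rw [h3] at h4
    linarith
  have hivt := intermediate_value_Icc' hx1 hcont.continuousOn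
  obtain ⟨s, hs, hs1'⟩ := hivt (show (1 : ℝ) ∈ _ from ⟨hval2, by rw [hval1]; norm_num⟩)
  have hs1 : (2 : ℝ) ^ b K * R K ^ s + 2 ^ b (K + 1) * R (K + 1) ^ s = 1 := hs1'
  have hs_ne : 1 / 2 < s := by
    rcases hs.1.eq_or_lt with h | h
    · rw [← h, hval1] at hs1
      norm_num at hs1
    · exact h
  refine ⟨s, ?_, hs_ne, ?_⟩
  · apply mem_DS (n := fun k => if k = K ∨ k = K + 1 then 2 ^ b k else 0)
    · intro k
      split_ifs
      · exact le_rfl
      · exact Nat.zero_le _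
    · linarith
    · rw [tsum_eq_sum (s := {K, K + 1})]
      · rw [Finset.sum_pair (by omega)]
        rw [if_pos (Or.inl rfl), if_pos (Or.inr rfl)]
        push_cast
        rw [← ENNReal.ofReal_add (by have := R_pos K; positivity)
          (by have := R_pos (K + 1); positivity), hs1, ENNReal.ofReal_one]
      · intro k hk
        rw [Finset.mem_insert, Finset.mem_singleton] at hk
        rw [if_neg hk]
        simp
  · have h5 : 1 / (2 * (b K : ℝ)) < ε := by
      rw [div_lt_iff₀ (by positivity)]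
      rw [div_lt_iff₀ hε] at hK
      nlinarith
    have := hs.2
    rw [hx] at this
    linarith

/-- Greedy expansion: every `s ∈ (0, 1/2)` belongs to the spectrum. -/
lemma left_mem {s : ℝ} (hs0 : 0 < s) (hs1 : s < 1 / 2) : s ∈ DS := by
  obtain ⟨w, hw⟩ : ∃ w : ℕ → ℝ, w = fun k => R k ^ s := ⟨_, rfl⟩
  have hw0 : ∀ k, 0 < w k := fun k => by rw [hw]; exact Real.rpow_pos_of_pos (R_pos k) s
  -- the remainders
  obtain ⟨rem, hrem0, hrem1⟩ : ∃ rem : ℕ → ℝ, rem 0 = 1 ∧
      ∀ k, rem (k + 1) = rem k - ⌊rem k / w k⌋₊ * w k := by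
    refine ⟨fun k => Nat.rec 1 (fun k x => x - ⌊x / w k⌋₊ * w k) k, rfl, fun k => rfl⟩
  have hbound : ∀ k, 0 ≤ rem k ∧ rem k ≤ 1 := by
    intro k
    induction k with
    | zero => rw [hrem0]; exact ⟨zero_le_one, le_rfl⟩
    | succ k ih =>
      rw [hrem1]
      have h1 : (⌊rem k / w k⌋₊ : ℝ) ≤ rem k / w k :=
        Nat.floor_le (div_nonneg ih.1 (hw0 k).le)
      rw [le_div_iff₀ (hw0 k)] at h1
      have h2 : 0 ≤ (⌊rem k / w k⌋₊ : ℝ) * w k := mul_nonneg (Nat.cast_nonneg _) (hw0 k).le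
      constructor <;> linarith
  have hlt : ∀ k, rem (k + 1) < w k := by
    intro k
    rw [hrem1]
    have h1 := Nat.lt_floor_add_one (rem k / w k)
    rw [div_lt_iff₀ (hw0 k)] at h1
    linarith
  have hn : ∀ k, ⌊rem k / w k⌋₊ ≤ 2 ^ b k := by
    intro k
    have h1 : rem k / w k ≤ 2 ^ b k := by
      rw [div_le_iff₀ (hw0 k)]
      refine (hbound k).2.trans ?_
      rw [hw]
      simp only
      rw [full_block]
      apply Real.one_le_rpow (by norm_num)
      have : (0 : ℝ) ≤ b k := Nat.cast_nonneg _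
      nlinarith
    have h2 : ((⌊rem k / w k⌋₊ : ℕ) : ℝ) ≤ ((2 ^ b k : ℕ) : ℝ) := by
      push_cast
      exact (Nat.floor_le (div_nonneg (hbound k).1 (hw0 k).le)).trans h1
    exact_mod_cast h2
  apply mem_DS hn hs0
  -- the sum telescopes
  have hsum : ∀ N, ∑ k ∈ Finset.range N, (⌊rem k / w k⌋₊ : ℝ) * w k = 1 - rem N := by
    intro N
    induction N with
    | zero => rw [Finset.sum_range_zero, hrem0, sub_self]
    | succ N ih => rw [Finset.sum_range_succ, ih, hrem1]; ring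
  have hwlim : Tendsto w atTop (𝓝 0) := by
    rw [hw]
    have h1 : ∀ k, R k ^ s ≤ ((1 / 4 : ℝ) ^ s) ^ k := by
      intro k
      have e : ((1 / 4 : ℝ) ^ s) ^ k = ((1 / 4 : ℝ) ^ k) ^ s := by
        rw [← Real.rpow_natCast, ← Real.rpow_natCast, ← Real.rpow_mul (by norm_num),
          ← Real.rpow_mul (by norm_num), mul_comm]
      rw [e]
      apply Real.rpow_le_rpow (R_pos k).le _ hs0.le
      unfold R
      exact pow_le_pow_of_le_one (by norm_num) (by norm_num) (by have := b_ge k; omega)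
    refine squeeze_zero (fun k => Real.rpow_nonneg (R_pos k).le s) h1 ?_
    exact tendsto_pow_atTop_nhds_zero_of_lt_one (by positivity)
      (Real.rpow_lt_one (by norm_num) (by norm_num) hs0)
  have hremlim : Tendsto rem atTop (𝓝 0) := by
    rw [← tendsto_add_atTop_iff_nat 1]
    exact squeeze_zero (fun k => (hbound (k + 1)).1) (fun k => (hlt k).le) hwlim
  have hhas : HasSum (fun k => (⌊rem k / w k⌋₊ : ℝ) * w k) 1 := by
    rw [hasSum_iff_tendsto_nat_of_nonneg (fun k => mul_nonneg (Nat.cast_nonneg _) (hw0 k).le)]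
    simp_rw [hsum]
    have := hremlim.const_sub 1
    rwa [sub_zero] at this
  rw [← ENNReal.ofReal_one, ← hhas.tsum_eq,
    ENNReal.ofReal_tsum_of_nonneg (fun k => mul_nonneg (Nat.cast_nonneg _) (hw0 k).le)
      hhas.summable]
  congr 1
  ext k
  rw [hw]

/-! ### The part of the spectrum to the right of `1/2` has dimension zero -/

lemma dimH_J_ne_top (F : Set E) : dimH (S.J F) ≠ ⊤ := by
  have h : dimH (S.J F) ≤ 1 := by
    rw [← Real.dimH_univ]
    exact dimH_mono (subset_univ _)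
  exact (h.trans_lt ENNReal.one_lt_top).ne

lemma dim_le_one (F : Set E) : (dimH (S.J F)).toReal ≤ 1 := by
  have h : dimH (S.J F) ≤ 1 := by
    rw [← Real.dimH_univ]
    exact dimH_mono (subset_univ _)
  have := ENNReal.toReal_mono ENNReal.one_ne_top h
  simpa using this

/-- The letters of the blocks `0, …, K`. -/
def Pre (K : ℕ) : Finset E := (Finset.range (K + 1)).sigma fun _ => Finset.univ

lemma mem_Pre {K : ℕ} {e : E} : e ∈ Pre K ↔ e.1 ≤ K := by
  simp [Pre]

lemma card_Pre (K : ℕ) : (Pre K).card ≤ 2 ^ (b K + 1) := by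
  rw [Pre, Finset.card_sigma]
  simp only [Finset.card_univ, Fintype.card_fin]
  induction K with
  | zero =>
    rw [Finset.sum_range_succ, Finset.sum_range_zero, zero_add]
    exact Nat.pow_le_pow_right (by norm_num) (by omega)
  | succ K ih =>
    rw [Finset.sum_range_succ]
    have h1 : 2 ^ (b K + 1) ≤ 2 ^ b (K + 1) := Nat.pow_le_pow_right (by norm_num) (b_lt K)
    rw [pow_succ 2 (b (K + 1))]
    omega

lemma sum_continuous (A : Finset E) : Continuous fun u : ℝ => ∑ e ∈ A, S.r e ^ u :=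
  continuous_finsetSum _ fun e _ => Real.continuous_const_rpow (S.r0 e).ne'

open Classical in
/-- The part of `F` in the first blocks. -/
noncomputable def pre (K : ℕ) (F : Set E) : Finset E := (Pre K).filter (· ∈ F)

lemma sum_pre_le (K : ℕ) (F : Set E) (hs : 0 < (dimH (S.J F)).toReal) :
    ∑ e ∈ pre K F, S.r e ^ (dimH (S.J F)).toReal ≤ 1 := by
  classical
  by_contra hcon
  push Not at hcon
  obtain ⟨s, hs'⟩ : ∃ s, s = (dimH (S.J F)).toReal := ⟨_, rfl⟩
  rw [← hs'] at hcon hs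
  have h1 : ∀ᶠ u in 𝓝 s, 1 < ∑ e ∈ pre K F, S.r e ^ u :=
    (sum_continuous (pre K F)).continuousAt.eventually (lt_mem_nhds hcon)
  obtain ⟨δ, hδ, h2⟩ := Metric.eventually_nhds_iff.1 h1
  have h3 := @h2 (s + δ / 2) (by
    rw [Real.dist_eq, add_sub_cancel_left, abs_of_pos (by positivity)]; linarith)
  have h4 := S.ofReal_le_dimH_J (F := F) (A := pre K F)
    (fun e he => by
      rw [Finset.mem_coe, pre, Finset.mem_filter] at he
      exact he.2) (fun e _ e' _ hne => S_disjoint hne) (show 0 < s + δ / 2 by positivity) h3.le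
  rw [← ENNReal.ofReal_toReal (dimH_J_ne_top F), ← hs',
    ENNReal.ofReal_le_ofReal_iff hs.le] at h4
  linarith

/-- Bound for the tail of the pressure. -/
noncomputable def tail (η : ℝ) (K : ℕ) : ℝ := ((2 : ℝ) ^ (-η)) ^ b (K + 1) * (1 - (2 : ℝ) ^ (-η))⁻¹

lemma tail_bound {η : ℝ} (hη : 0 < η) {u : ℝ} (hu : 1 / 2 + η ≤ u) (K : ℕ) :
    ∑' e : E, (if K < e.1 then ENNReal.ofReal (S.r e ^ u) else 0) ≤ ENNReal.ofReal (tail η K) := by
  obtain ⟨q, hq⟩ : ∃ q, q = (2 : ℝ) ^ (-η) := ⟨_, rfl⟩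
  have hq0 : 0 < q := by rw [hq]; positivity
  have hq1 : q < 1 := by
    rw [hq]; exact Real.rpow_lt_one_of_one_lt_of_neg (by norm_num) (by linarith)
  rw [ENNReal.tsum_sigma']
  have h1 : ∀ k : ℕ, ∑' i : Fin (2 ^ b k), (if K < k then ENNReal.ofReal (S.r ⟨k, i⟩ ^ u) else 0)
      ≤ ENNReal.ofReal (q ^ b (K + 1) * q ^ k) := by
    intro k
    rw [tsum_fintype]
    by_cases hk : K < k
    · simp only [if_pos hk, S_r]
      rw [Finset.sum_const, Finset.card_univ, Fintype.card_fin, nsmul_eq_mul,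
        ← ENNReal.ofReal_natCast, ← ENNReal.ofReal_mul (by positivity)]
      apply ENNReal.ofReal_le_ofReal
      push_cast
      rw [full_block]
      have hbk : (0 : ℝ) ≤ b k := Nat.cast_nonneg _
      have e1 : (4 : ℝ) ^ (-((b k : ℝ) * (u - 1 / 2))) ≤ q ^ b k * q ^ b k := by
        have e2 : q ^ b k * q ^ b k = (4 : ℝ) ^ (-((b k : ℝ) * η)) := by
          rw [← pow_add, hq, ← Real.rpow_natCast, ← Real.rpow_mul (by norm_num),
            show (4 : ℝ) = 2 ^ (2 : ℝ) by norm_num, ← Real.rpow_mul (by norm_num)]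
          congr 1
          push_cast
          ring
        rw [e2]
        apply Real.rpow_le_rpow_of_exponent_le (by norm_num)
        nlinarith
      refine e1.trans (mul_le_mul ?_ ?_ (by positivity) (by positivity))
      · exact pow_le_pow_of_le_one hq0.le hq1.le (b_strictMono.monotone hk)
      · exact pow_le_pow_of_le_one hq0.le hq1.le (by have := b_ge k; omega)
    · simp only [if_neg hk, Finset.sum_const_zero]
      exact zero_le
  calc ∑' k : ℕ, ∑' i : Fin (2 ^ b k), (if K < k then ENNReal.ofReal (S.r ⟨k, i⟩ ^ u) else 0)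
      ≤ ∑' k : ℕ, ENNReal.ofReal (q ^ b (K + 1) * q ^ k) := ENNReal.tsum_le_tsum h1
    _ = ENNReal.ofReal (∑' k : ℕ, q ^ b (K + 1) * q ^ k) :=
        (ENNReal.ofReal_tsum_of_nonneg (fun k => by positivity)
          ((summable_geometric_of_lt_one hq0.le hq1).mul_left _)).symm
    _ = ENNReal.ofReal (tail η K) := by
        rw [tsum_mul_left, tsum_geometric_of_lt_one hq0.le hq1, tail, hq]

lemma le_sum_pre {η : ℝ} (hη : 0 < η) (K : ℕ) (F : Set E)
    (hs : 1 / 2 + 2 * η ≤ (dimH (S.J F)).toReal) :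
    1 - tail η K ≤ ∑ e ∈ pre K F, S.r e ^ (dimH (S.J F)).toReal := by
  classical
  by_contra hcon
  push Not at hcon
  obtain ⟨s, hs'⟩ : ∃ s, s = (dimH (S.J F)).toReal := ⟨_, rfl⟩
  rw [← hs'] at hcon hs
  have h1 : ∀ᶠ u in 𝓝 s, ∑ e ∈ pre K F, S.r e ^ u < 1 - tail η K :=
    (sum_continuous (pre K F)).continuousAt.eventually (gt_mem_nhds hcon)
  obtain ⟨δ, hδ, h2⟩ := Metric.eventually_nhds_iff.1 h1
  obtain ⟨ε, hε⟩ : ∃ ε, ε = min (δ / 2) η := ⟨_, rfl⟩
  have hε0 : 0 < ε := by rw [hε]; exact lt_min (by positivity) hη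
  have hεδ : ε ≤ δ / 2 := by rw [hε]; exact min_le_left _ _
  have hεη : ε ≤ η := by rw [hε]; exact min_le_right _ _
  have h3 := @h2 (s - ε) (by
    rw [Real.dist_eq, sub_sub_cancel_left, abs_neg, abs_of_pos hε0]; linarith)
  have hpos : 0 ≤ ∑ e ∈ pre K F, S.r e ^ (s - ε) :=
    Finset.sum_nonneg fun e _ => Real.rpow_nonneg (S.r0 e).le _
  have h4 : ∑' e : F, ENNReal.ofReal (S.r e ^ (s - ε)) ≤ 1 := by
    rw [tsum_subtype F (fun e => ENNReal.ofReal (S.r e ^ (s - ε)))]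
    calc ∑' e : E, F.indicator (fun e => ENNReal.ofReal (S.r e ^ (s - ε))) e
        ≤ ∑' e : E, ((if e ∈ pre K F then ENNReal.ofReal (S.r e ^ (s - ε)) else 0)
          + (if K < e.1 then ENNReal.ofReal (S.r e ^ (s - ε)) else 0)) := by
          apply ENNReal.tsum_le_tsum
          intro e
          by_cases heF : e ∈ F
          · rw [indicator_of_mem heF]
            by_cases hek : e.1 ≤ K
            · have : e ∈ pre K F := by
                rw [pre, Finset.mem_filter, mem_Pre]; exact ⟨hek, heF⟩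
              rw [if_pos this]
              exact le_self_add
            · rw [if_pos (not_le.1 hek)]
              exact le_add_self
          · rw [indicator_of_notMem heF]; exact zero_le
      _ = (∑' e : E, (if e ∈ pre K F then ENNReal.ofReal (S.r e ^ (s - ε)) else 0))
          + ∑' e : E, (if K < e.1 then ENNReal.ofReal (S.r e ^ (s - ε)) else 0) :=
          ENNReal.tsum_add
      _ ≤ ENNReal.ofReal (∑ e ∈ pre K F, S.r e ^ (s - ε)) + ENNReal.ofReal (tail η K) := by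
          apply add_le_add _ (tail_bound hη (by linarith) K)
          rw [tsum_eq_sum (s := pre K F) (fun e he => if_neg he),
            ENNReal.ofReal_sum_of_nonneg fun e _ => Real.rpow_nonneg (S.r0 e).le _]
          exact Finset.sum_le_sum fun e he => by rw [if_pos he]
      _ ≤ 1 := by
          have ht : 0 ≤ tail η K := by
            unfold tail
            have : (2 : ℝ) ^ (-η) < 1 :=
              Real.rpow_lt_one_of_one_lt_of_neg (by norm_num) (by linarith)
            have h5 : 0 < 1 - (2 : ℝ) ^ (-η) := by linarith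
            positivity
          rw [← ENNReal.ofReal_add hpos ht, ← ENNReal.ofReal_one]
          exact ENNReal.ofReal_le_ofReal (by linarith)
  have h5 := S.dimH_J_le (show 0 ≤ s - ε by linarith) h4
  rw [← ENNReal.ofReal_toReal (dimH_J_ne_top F), ← hs',
    ENNReal.ofReal_le_ofReal_iff (by linarith)] at h5
  linarith

lemma pre_close {η : ℝ} (hη : 0 < η) (K : ℕ) {F G : Set E} (hFG : pre K F = pre K G)
    (hF : 1 / 2 + 2 * η ≤ (dimH (S.J F)).toReal) (hG : 1 / 2 + 2 * η ≤ (dimH (S.J G)).toReal)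
    (hle : (dimH (S.J F)).toReal ≤ (dimH (S.J G)).toReal) :
    (dimH (S.J G)).toReal - (dimH (S.J F)).toReal ≤ 2 * tail η K := by
  obtain ⟨s, hs⟩ : ∃ s, s = (dimH (S.J F)).toReal := ⟨_, rfl⟩
  obtain ⟨s', hs'⟩ : ∃ s', s' = (dimH (S.J G)).toReal := ⟨_, rfl⟩
  have h1 := sum_pre_le K F (by linarith)
  have h2 := le_sum_pre hη K G hG
  have h3 := dim_le_one G
  rw [← hs] at h1 hle hF ⊢
  rw [← hs'] at h2 h3 hle ⊢
  rw [← hFG] at h2
  have h4 : ∑ e ∈ pre K F, S.r e ^ s' ≤ (1 / 2) ^ (s' - s) * ∑ e ∈ pre K F, S.r e ^ s := by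
    rw [Finset.mul_sum]
    refine Finset.sum_le_sum fun e _ => ?_
    have e1 : S.r e ^ s' = S.r e ^ (s' - s) * S.r e ^ s := by
      rw [← Real.rpow_add (S.r0 e), sub_add_cancel]
    rw [e1]
    exact mul_le_mul_of_nonneg_right (Real.rpow_le_rpow (S.r0 e).le (S.rκ e) (by linarith))
      (Real.rpow_nonneg (S.r0 e).le s)
  have h5 : (1 / 2 : ℝ) ^ (s' - s) ≤ 1 - (s' - s) / 2 := by
    have := rpow_one_add_le_one_add_mul_self (s := -(1 / 2)) (by norm_num)
      (p := s' - s) (by linarith) (by linarith)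
    have e : (1 : ℝ) + -(1 / 2) = 1 / 2 := by norm_num
    rw [e] at this
    linarith
  have h6 : (0 : ℝ) < (1 / 2) ^ (s' - s) := by positivity
  have h7 : (1 / 2 : ℝ) ^ (s' - s) * ∑ e ∈ pre K F, S.r e ^ s ≤ (1 / 2) ^ (s' - s) * 1 :=
    mul_le_mul_of_nonneg_left h1 h6.le
  linarith

lemma dimH_right {η : ℝ} (hη : 0 < η) : dimH (DS ∩ Ici (1 / 2 + 2 * η)) = 0 := by
  classical
  apply le_antisymm _ zero_le
  -- it is enough to bound by every positive number
  have key : ∀ σ : ℝ, 0 < σ → dimH (DS ∩ Ici (1 / 2 + 2 * η)) ≤ ENNReal.ofReal σ := by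
    intro σ hσ
    obtain ⟨q, hq⟩ : ∃ q, q = (2 : ℝ) ^ (-η) := ⟨_, rfl⟩
    have hq0 : 0 < q := by rw [hq]; positivity
    have hq1 : q < 1 := by
      rw [hq]; exact Real.rpow_lt_one_of_one_lt_of_neg (by norm_num) (by linarith)
    have hC0 : 0 < (1 - q)⁻¹ := inv_pos.2 (by linarith)
    obtain ⟨Q, hQ⟩ : ∃ Q, Q = q ^ σ := ⟨_, rfl⟩
    have hQ0 : 0 < Q := by rw [hQ]; positivity
    have hQ1 : Q < 1 := by rw [hQ]; exact Real.rpow_lt_one hq0.le hq1 hσ
    obtain ⟨N, hN⟩ := exists_pow_lt_of_lt_one (show (0 : ℝ) < 1 / 4 by norm_num) hQ1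
    have hbig : ∀ n, N ≤ n → (2 : ℝ) ^ (2 ^ (n + 1)) * Q ^ (4 ^ n) ≤ 1 := by
      intro n hn
      have e1 : (2 : ℝ) ^ (2 ^ (n + 1)) * Q ^ (4 ^ n) = (4 * Q ^ (2 ^ n)) ^ (2 ^ n) := by
        rw [mul_pow, ← pow_mul, ← mul_pow 2 2 n]
        congr 1
        rw [pow_succ, mul_comm (2 ^ n) 2, pow_mul]
        norm_num
      rw [e1]
      apply pow_le_one₀ (by positivity)
      have h1 : N ≤ 2 ^ n := hn.trans Nat.lt_two_pow_self.le
      have h2 : Q ^ (2 ^ n) ≤ Q ^ N := pow_le_pow_of_le_one hQ0.le hQ1.le h1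
      linarith
    have htail : ∀ K, tail η K = q ^ b (K + 1) * (1 - q)⁻¹ := fun K => by rw [tail, hq]
    refine Q91.Upper.dimH_le_of_card (C := (2 * (1 - q)⁻¹) ^ σ) hσ.le
      (ι := fun K => {A // A ∈ (Pre (K + N)).powerset})
      (fun K A => {x | ∃ F : Set E, pre (K + N) F = A ∧ x = (dimH (S.J F)).toReal ∧
        1 / 2 + 2 * η ≤ x}) (fun K => 2 * tail η (K + N)) ?_ ?_ ?_ ?_ ?_
    · intro K
      rw [htail]; positivity
    · have h1 : Tendsto (fun K => 2 * (q ^ b (K + N + 1) * (1 - q)⁻¹)) atTop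
          (𝓝 (2 * (0 * (1 - q)⁻¹))) := by
        refine ((Tendsto.mul_const _ ?_).const_mul 2)
        refine (tendsto_pow_atTop_nhds_zero_of_lt_one hq0.le hq1).comp ?_
        refine tendsto_atTop_mono (fun K => ?_) tendsto_id
        have := b_ge (K + N + 1)
        simp only [id]
        omega
      rw [zero_mul, mul_zero] at h1
      simpa only [htail] using h1
    · rintro K x ⟨⟨F, -, hx⟩, hx1⟩
      refine mem_iUnion.2 ⟨⟨pre (K + N) F, ?_⟩, F, rfl, hx, hx1⟩
      rw [Finset.mem_powerset]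
      exact Finset.filter_subset _ _
    · intro K A
      apply Metric.ediam_le
      rintro x ⟨F, hF, rfl, hF1⟩ y ⟨G, hG, rfl, hG1⟩
      rw [edist_dist, Real.dist_eq]
      apply ENNReal.ofReal_le_ofReal
      rcases le_total (dimH (S.J F)).toReal (dimH (S.J G)).toReal with h | h
      · rw [abs_sub_comm, abs_of_nonneg (by linarith)]
        exact pre_close hη _ (hF.trans hG.symm) hF1 hG1 h
      · rw [abs_of_nonneg (by linarith)]
        exact pre_close hη _ (hG.trans hF.symm) hG1 hF1 h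
    · intro K
      have hcard : (Fintype.card {A // A ∈ (Pre (K + N)).powerset} : ℝ)
          ≤ 2 ^ (2 ^ (b (K + N) + 1)) := by
        have : Fintype.card {A // A ∈ (Pre (K + N)).powerset} ≤ 2 ^ (2 ^ (b (K + N) + 1)) := by
          rw [Fintype.card_coe, Finset.card_powerset]
          exact Nat.pow_le_pow_right (by norm_num) (card_Pre _)
        exact_mod_cast this
      have e2 : (2 * tail η (K + N)) ^ σ = (2 * (1 - q)⁻¹) ^ σ * Q ^ (4 ^ b (K + N)) := by
        rw [htail, b_succ, show 2 * (q ^ 4 ^ b (K + N) * (1 - q)⁻¹)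
          = (2 * (1 - q)⁻¹) * q ^ 4 ^ b (K + N) by ring, Real.mul_rpow (by positivity)
          (by positivity), hQ]
        congr 1
        rw [← Real.rpow_natCast, ← Real.rpow_natCast, ← Real.rpow_mul hq0.le,
          ← Real.rpow_mul hq0.le, mul_comm]
      rw [e2]
      have h3 := hbig (b (K + N)) (by have := b_ge (K + N); omega)
      have hC' : 0 < (2 * (1 - q)⁻¹) ^ σ := by positivity
      calc (Fintype.card {A // A ∈ (Pre (K + N)).powerset} : ℝ)
            * ((2 * (1 - q)⁻¹) ^ σ * Q ^ (4 ^ b (K + N)))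
          ≤ 2 ^ (2 ^ (b (K + N) + 1)) * ((2 * (1 - q)⁻¹) ^ σ * Q ^ (4 ^ b (K + N))) :=
            mul_le_mul_of_nonneg_right hcard (by positivity)
        _ = (2 * (1 - q)⁻¹) ^ σ * (2 ^ (2 ^ (b (K + N) + 1)) * Q ^ (4 ^ b (K + N))) := by ring
        _ ≤ (2 * (1 - q)⁻¹) ^ σ * 1 := mul_le_mul_of_nonneg_left h3 hC'.le
        _ = _ := mul_one _
  by_contra hcon
  rw [not_le] at hcon
  obtain ⟨c, hc0, hc1⟩ := exists_between hcon
  have hcne : c ≠ ⊤ := (hc1.trans_le le_top).ne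
  have h1 := key c.toReal (ENNReal.toReal_pos hc0.ne' hcne)
  rw [ENNReal.ofReal_toReal hcne] at h1
  exact absurd h1 (not_le.2 hc1)

lemma dimH_DS_right : dimH (DS ∩ Ioi (1 / 2)) = 0 := by
  have h : DS ∩ Ioi (1 / 2) ⊆ ⋃ n : ℕ, DS ∩ Ici (1 / 2 + 2 * (1 / (2 * ((n : ℝ) + 1)))) := by
    rintro x ⟨hx, hx1⟩
    rw [mem_Ioi] at hx1
    obtain ⟨n, hn⟩ := exists_nat_gt (1 / (x - 1 / 2))
    rw [mem_iUnion]
    refine ⟨n, hx, ?_⟩
    rw [mem_Ici]
    have h2 : 2 * (1 / (2 * ((n : ℝ) + 1))) = 1 / ((n : ℝ) + 1) := by field_simp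
    rw [h2]
    have h3 : 1 / ((n : ℝ) + 1) ≤ x - 1 / 2 := by
      rw [div_le_iff₀ (by positivity)]
      rw [div_lt_iff₀ (by linarith)] at hn
      nlinarith
    linarith
  apply le_antisymm _ zero_le
  refine (dimH_mono h).trans ?_
  rw [dimH_iUnion]
  apply iSup_le
  intro n
  rw [dimH_right (by positivity)]

end Q91.Tower
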