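import Mathlib
import Pool.Agent.Q91.SimSys
import Pool.Agent.Q91.Tower

/-!
# Conformal iterated function systems on the line and the tower example
-/

open Set Filter Topology MeasureTheory
open scoped ENNReal NNReal

namespace Q91.Cifs

open Q91.SimSys

/-- A conformal iterated function system on the line, with seed set `X`; the maps `φ e : ℝ → ℝ`
are given together with their extensions to the open interval `V`. -/
structure IsCIFS {E : Type} (X : Set ℝ) (φ : E → ℝ → ℝ) : Prop where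
  countable : Countable E
  infinite : Infinite E
  compact : IsCompact X
  connected : IsConnected X
  closure_interior : closure (interior X) = X
  mapsTo : ∀ e, MapsTo (φ e) X X
  injOn : ∀ e, InjOn (φ e) X
  contraction : ∃ s < 1, ∀ e, ∀ x ∈ X, ∀ y ∈ X, |φ e x - φ e y| ≤ s * |x - y|
  open_set_condition : ∀ a b, a ≠ b → Disjoint (φ a '' interior X) (φ b '' interior X)
  cone_condition : ∃ l > 0, ∀ x ∈ frontier X,
    Ioo x (x + l) ⊆ interior X ∨ Ioo (x - l) x ⊆ interior X
  conformal_extension_and_distortion : ∃ V : Set ℝ, IsOpen V ∧ IsConnected V ∧ X ⊆ V ∧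
    (∀ e, MapsTo (φ e) V V ∧ InjOn (φ e) V ∧ ContDiffOn ℝ 1 (φ e) V ∧
      (∀ x ∈ V, deriv (φ e) x ≠ 0) ∧
      ∃ ε > 0, ∃ C : ℝ, ∀ x ∈ V, ∀ y ∈ V, |deriv (φ e) x - deriv (φ e) y| ≤ C * |x - y| ^ ε) ∧
    ∃ K ≥ 1, ∀ (ω : ℕ → E) (n : ℕ), ∀ x ∈ V, ∀ y ∈ V,
      |deriv (cmp φ ω n) y| ≤ K * |deriv (cmp φ ω n) x|

/-- The dimension spectrum of nonempty subfamilies. -/
def spectrumNonempty {E : Type} (X : Set ℝ) (φ : E → ℝ → ℝ) : Set ℝ :=
  {x | ∃ F : Set E, F.Nonempty ∧ x = (dimH (limitSet φ X F)).toReal}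

/-- The dimension spectrum of all subfamilies (the limit set of the empty family is empty). -/
def dimSpectrum {E : Type} (X : Set ℝ) (φ : E → ℝ → ℝ) : Set ℝ :=
  {x | ∃ F : Set E, x = (dimH (limitSet φ X F)).toReal}

/-- The local Hausdorff dimension `dim_x(D) = inf_{ε > 0} dim_H (D ∩ B(x, ε))`. -/
noncomputable def localDim (D : Set ℝ) (x : ℝ) : ℝ≥0∞ :=
  ⨅ (ε : ℝ) (_ : 0 < ε), dimH (D ∩ Metric.ball x ε)

/-- A system of similarities with pairwise disjoint intervals is a conformal system. -/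
lemma isCIFS_of_sys {E : Type} [Countable E] [Infinite E] (S : Sys E)
    (hS : ∀ e e', e ≠ e' →
      Disjoint (Icc (S.t e) (S.t e + S.r e)) (Icc (S.t e') (S.t e' + S.r e'))) :
    IsCIFS (Icc 0 1) S.φ := by
  obtain ⟨e₀⟩ := (inferInstance : Nonempty E)
  have hmap : ∀ e, MapsTo (S.φ e) (Icc 0 1) (Icc (S.t e) (S.t e + S.r e)) := by
    intro e x hx
    have h1 := mul_le_mul_of_nonneg_left hx.2 (S.r0 e).le
    have h2 := mul_nonneg (S.r0 e).le hx.1
    exact ⟨by unfold Sys.φ; linarith, by unfold Sys.φ; linarith⟩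
  have hderiv : ∀ e x, deriv (S.φ e) x = S.r e := by
    intro e x
    change deriv (fun x => S.t e + S.r e * x) x = S.r e
    simp
  have hinj : ∀ e, Function.Injective (S.φ e) := by
    intro e x y h
    unfold Sys.φ at h
    exact mul_left_cancel₀ (S.r0 e).ne' (add_left_cancel h)
  refine ⟨inferInstance, inferInstance, isCompact_Icc, isConnected_Icc zero_le_one, ?_, ?_, ?_,
    ⟨S.κ, S.κ1, ?_⟩, ?_, ⟨1, one_pos, ?_⟩, ⟨Ioo (-1) (1 + S.κ ⊔ 0 + 1), isOpen_Ioo, ?_, ?_, ?_,
      ⟨1, le_rfl, ?_⟩⟩⟩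
  · rw [interior_Icc, closure_Ioo zero_ne_one]
  · intro e x hx
    have := hmap e hx
    exact ⟨(S.t0 e).trans this.1, this.2.trans (S.tr e)⟩
  · exact fun e => (hinj e).injOn
  · intro e x _ y _
    have h1 : S.φ e x - S.φ e y = S.r e * (x - y) := by unfold Sys.φ; ring
    rw [h1, abs_mul, abs_of_pos (S.r0 e)]
    exact mul_le_mul_of_nonneg_right (S.rκ e) (abs_nonneg _)
  · intro a b hab
    refine (hS a b hab).mono ?_ ?_
    · rintro _ ⟨x, hx, rfl⟩
      exact hmap a (interior_subset hx)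
    · rintro _ ⟨x, hx, rfl⟩
      exact hmap b (interior_subset hx)
  · intro x hx
    rw [frontier_Icc zero_le_one] at hx
    rw [interior_Icc]
    rcases hx with rfl | rfl
    · left; rw [zero_add]
    · right; rw [sub_self]
  · exact isConnected_Ioo (by have := le_max_right S.κ 0; linarith)
  · intro x hx
    exact ⟨by linarith [hx.1], by have := le_max_right S.κ 0; linarith [hx.2]⟩
  · intro e
    have h0 : 0 < S.κ := S.κ0
    have hmax : S.κ ⊔ 0 = S.κ := max_eq_left h0.le
    rw [hmax]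
    have h1 := S.r0 e
    have h2 := S.rκ e
    have h3 := S.κ1
    have h4 := S.tr e
    have h5 := S.t0 e
    refine ⟨?_, (hinj e).injOn, ?_, fun x _ => by rw [hderiv]; exact h1.ne', 1, one_pos, 0, ?_⟩
    · intro x hx
      have h6 := mul_lt_mul_of_pos_left hx.1 h1
      have h7 := mul_lt_mul_of_pos_left hx.2 h1
      unfold Sys.φ
      constructor
      · linarith
      · have h8 : S.r e * (1 + S.κ) ≤ S.κ * (1 + S.κ) :=
          mul_le_mul_of_nonneg_right h2 (by linarith)
        nlinarith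
    · unfold Sys.φ
      fun_prop
    · intro x _ y _
      rw [hderiv, hderiv, sub_self, abs_zero, zero_mul]
  · intro ω n x _ y _
    have h1 : ∀ z, deriv (cmp S.φ ω n) z = S.ρ ω n := by
      intro z
      have h2 : cmp S.φ ω n = fun x => S.T ω n + S.ρ ω n * x := funext fun x => S.cmp_eq ω n x
      rw [h2]
      simp
    rw [h1, h1, one_mul]

/-- The alphabet of the tower example. -/
abbrev TowerE : Type := Q91.Tower.E

lemma tower_isCIFS : IsCIFS (Icc 0 1) (Q91.Tower.S.φ) := by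
  have : Infinite Q91.Tower.E := by
    refine Infinite.of_injective (fun k : ℕ => (⟨k, ⟨0, by positivity⟩⟩ : Q91.Tower.E))
      fun a b h => ?_
    exact congrArg Sigma.fst h
  exact isCIFS_of_sys _ fun e e' h => Q91.Tower.S_disjoint h

lemma tower_spectrumNonempty :
    spectrumNonempty (Icc 0 1) (Q91.Tower.S.φ) = Q91.Tower.DS := by
  unfold spectrumNonempty Q91.Tower.DS
  simp_rw [Sys.limitSet_eq]

lemma zero_mem : (0 : ℝ) ∈ Q91.Tower.DS := by
  obtain ⟨e⟩ := (inferInstance : Nonempty Q91.Tower.E)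
  refine ⟨{e}, singleton_nonempty e, ?_⟩
  have hsub : (Q91.Tower.S.J {e}).Subsingleton := by
    rintro x ⟨ω, h1, h2⟩ y ⟨ω', h1', h2'⟩
    have h3 : ω = ω' := funext fun n => by
      rw [mem_singleton_iff.1 (h1 n), mem_singleton_iff.1 (h1' n)]
    rw [← h3] at h2'
    exact Q91.Tower.S.eq_of_mem h2 h2'
  rw [hsub.dimH_zero, ENNReal.toReal_zero]

lemma tower_spectrum : dimSpectrum (Icc 0 1) (Q91.Tower.S.φ) = Q91.Tower.DS := by
  ext x
  unfold dimSpectrum
  simp_rw [Sys.limitSet_eq]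
  constructor
  · rintro ⟨F, rfl⟩
    rcases F.eq_empty_or_nonempty with h | h
    · have hemp : Q91.Tower.S.J (∅ : Set Q91.Tower.E) = ∅ := by
        ext y
        simp only [Sys.J, Set.mem_ofPred_eq, mem_empty_iff_false, iff_false]
        rintro ⟨ω, h1, -⟩
        exact h1 0
      rw [h, hemp, dimH_empty, ENNReal.toReal_zero]
      exact zero_mem
    · exact ⟨F, h, rfl⟩
  · rintro ⟨F, -, h⟩
    exact ⟨F, h⟩

/-- The local dimension of the spectrum of the tower example at `1/2` is one. -/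
lemma localDim_half : localDim Q91.Tower.DS (1 / 2) = 1 := by
  apply le_antisymm
  · refine (iInf₂_le 1 one_pos).trans ?_
    rw [← Real.dimH_univ]
    exact dimH_mono (subset_univ _)
  · refine le_iInf₂ fun ε hε => ?_
    obtain ⟨δ, hδ⟩ : ∃ δ, δ = min ε (1 / 2) := ⟨_, rfl⟩
    have hδ0 : 0 < δ := by rw [hδ]; exact lt_min hε (by norm_num)
    have hδε : δ ≤ ε := by rw [hδ]; exact min_le_left _ _
    have hδ1 : δ ≤ 1 / 2 := by rw [hδ]; exact min_le_right _ _
    have hsub : Ioo (1 / 2 - δ) (1 / 2) ⊆ Q91.Tower.DS ∩ Metric.ball (1 / 2) ε := by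
      intro x hx
      refine ⟨Q91.Tower.left_mem (by linarith [hx.1]) hx.2, ?_⟩
      rw [Metric.mem_ball, Real.dist_eq, abs_lt]
      constructor <;> linarith [hx.1, hx.2]
    refine le_trans ?_ (dimH_mono hsub)
    have h := Real.dimH_of_nonempty_interior (E := ℝ) (s := Ioo (1 / 2 - δ) (1 / 2))
      (by rw [interior_Ioo, nonempty_Ioo]; linarith)
    rw [h]
    simp

/-- The local dimension of the spectrum of the tower example vanishes to the right of `1/2`. -/
lemma localDim_right {x : ℝ} (hx : 1 / 2 < x) : localDim Q91.Tower.DS x = 0 := by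
  apply le_antisymm _ zero_le
  refine (iInf₂_le (x - 1 / 2) (by linarith)).trans ?_
  rw [← Q91.Tower.dimH_DS_right]
  apply dimH_mono
  rintro y ⟨hy, hy'⟩
  refine ⟨hy, ?_⟩
  rw [Metric.mem_ball, Real.dist_eq, abs_lt] at hy'
  rw [mem_Ioi]
  linarith [hy'.1]

end Q91.Cifs
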